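import Mathlib

set_option autoImplicit false

/-! A nonempty compact perfect subset of the line with empty interior is a Cantor set. -/

namespace H13Br
open Set Filter Topology

structure Good (K : Set ℝ) : Prop where
  cpt : IsCompact K
  ne : K.Nonempty
  perf : Preperfect K
  int : ∀ a b : ℝ, a < b → ∃ t, a < t ∧ t < b ∧ t ∉ K

theorem Good.inter {K U : Set ℝ} (h : Good K) (hU : IsOpen U) (hc : IsClosed (K ∩ U))
    (hne : (K ∩ U).Nonempty) : Good (K ∩ U) :=
  ⟨h.cpt.of_isClosed_subset hc inter_subset_left, hne,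
    by rw [inter_comm]; exact h.perf.open_inter hU,
    fun a b hab => (h.int a b hab).imp fun _ ht => ⟨ht.1, ht.2.1, fun h1 => ht.2.2 h1.1⟩⟩

def half (K : Set ℝ) (c : ℝ) (b : Bool) : Set ℝ := if b then K ∩ Ioi c else K ∩ Iio c

theorem split {K : Set ℝ} (h : Good K) : ∃ c, c ∉ K ∧ ∀ b, Good (half K c b) ∧
    ∀ d, (∀ x ∈ K, ∀ y ∈ K, |x - y| ≤ d) →
      ∀ x ∈ half K c b, ∀ y ∈ half K c b, |x - y| ≤ 2 / 3 * d := by
  obtain ⟨a, ha, hmin⟩ := h.cpt.exists_isLeast h.ne
  obtain ⟨b, hb, hmax⟩ := h.cpt.exists_isGreatest h.ne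
  have hab : a < b := by
    obtain ⟨y, hy, hne⟩ := (accPt_iff_nhds.mp (h.perf a ha)) univ univ_mem
    exact (lt_of_le_of_ne (hmin hy.2) hne.symm).trans_le (hmax hy.2)
  obtain ⟨c, h1, h2, hc⟩ := h.int (a + (b - a) / 3) (b - (b - a) / 3) (by linarith)
  refine ⟨c, hc, fun s => ?_⟩
  cases s
  · refine ⟨h.inter isOpen_Iio ?_ ⟨a, ha, by show a < c; linarith⟩, fun d hd x hx y hy => ?_⟩
    · have : K ∩ Iio c = K ∩ Iic c := by
        ext t; exact ⟨fun h => ⟨h.1, mem_Iic.mpr (le_of_lt h.2)⟩,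
          fun h => ⟨h.1, mem_Iio.mpr (lt_of_le_of_ne h.2 (fun (h1 : t = c) => hc (h1 ▸ h.1)))⟩⟩
      rw [this]; exact h.cpt.isClosed.inter isClosed_Iic
    · have h3 := (abs_le.mp (hd b hb a ha)).2
      have h4 : x < c := hx.2
      have h5 : y < c := hy.2
      have := hmin hx.1
      have := hmin hy.1
      rw [abs_le]; constructor <;> linarith
  · refine ⟨h.inter isOpen_Ioi ?_ ⟨b, hb, by show c < b; linarith⟩, fun d hd x hx y hy => ?_⟩
    · have : K ∩ Ioi c = K ∩ Ici c := by
        ext t; exact ⟨fun h => ⟨h.1, mem_Ici.mpr (le_of_lt h.2)⟩,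
          fun h => ⟨h.1, mem_Ioi.mpr (lt_of_le_of_ne h.2 (fun (h1 : c = t) => hc (h1 ▸ h.1)))⟩⟩
      rw [this]; exact h.cpt.isClosed.inter isClosed_Ici
    · have h3 := (abs_le.mp (hd b hb a ha)).2
      have h4 : c < x := hx.2
      have h5 : c < y := hy.2
      have := hmax hx.1
      have := hmax hy.1
      rw [abs_le]; constructor <;> linarith

noncomputable def cut (K : {K // Good K}) : ℝ := (split K.2).choose

noncomputable def step (K : {K // Good K}) (b : Bool) : {K // Good K} :=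
  ⟨half K.1 (cut K) b, ((split K.2).choose_spec.2 b).1⟩

noncomputable def T (K : {K // Good K}) (s : ℕ → Bool) : ℕ → {K // Good K}
  | 0 => K
  | n + 1 => step (T K s n) (s n)

theorem step_sub (K : {K // Good K}) (b : Bool) : (step K b).1 ⊆ K.1 := by
  cases b <;> exact inter_subset_left

theorem T_congr (K : {K // Good K}) {s t : ℕ → Bool} :
    ∀ n, (∀ i < n, s i = t i) → T K s n = T K t n
  | 0, _ => rfl
  | n + 1, h => by
    rw [T, T, T_congr K n (fun i hi => h i (by omega)), h n (by omega)]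

theorem T_diam (K : {K // Good K}) (d : ℝ) (hd : ∀ x ∈ K.1, ∀ y ∈ K.1, |x - y| ≤ d)
    (s : ℕ → Bool) : ∀ n, ∀ x ∈ (T K s n).1, ∀ y ∈ (T K s n).1, |x - y| ≤ (2 / 3) ^ n * d
  | 0 => by simpa [T] using hd
  | n + 1 => by
    rw [pow_succ', mul_assoc]
    exact ((split (T K s n).2).choose_spec.2 (s n)).2 _ (T_diam K d hd s n)

theorem T_ne (K : {K // Good K}) (s : ℕ → Bool) : ∃ x, ∀ n, x ∈ (T K s n).1 := by
  obtain ⟨x, hx⟩ := IsCompact.nonempty_iInter_of_sequence_nonempty_isCompact_isClosed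
    (fun n => (T K s n).1) (fun n => step_sub _ _) (fun n => (T K s n).2.ne) K.2.cpt
    (fun n => (T K s n).2.cpt.isClosed)
  exact ⟨x, mem_iInter.mp hx⟩

noncomputable def follow (K : {K // Good K}) (x : ℝ) : ℕ → {K // Good K}
  | 0 => K
  | n + 1 => step (follow K x n) (decide (cut (follow K x n) < x))

theorem brouwer {K : Set ℝ} (h : Good K) : Nonempty (K ≃ₜ cantorSet) := by
  obtain ⟨d, hd⟩ : ∃ d, ∀ x ∈ K, ∀ y ∈ K, |x - y| ≤ d :=
    ⟨Metric.diam K, fun x hx y hy => Metric.dist_le_diam_of_mem h.cpt.isBounded hx hy⟩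
  choose g hg using T_ne ⟨K, h⟩
  have lim : Tendsto (fun n : ℕ => (2 / 3 : ℝ) ^ n * d) atTop (𝓝 0) := by
    simpa using (tendsto_pow_atTop_nhds_zero_of_lt_one (r := (2 / 3 : ℝ)) (by norm_num)
      (by norm_num)).mul_const d
  have hc : Continuous g := by
    refine continuous_iff_continuousAt.mpr (fun s => Metric.tendsto_nhds.mpr (fun ε hε => ?_))
    obtain ⟨n, hn⟩ := (lim.eventually (gt_mem_nhds hε)).exists
    have : ∀ᶠ t in 𝓝 s, ∀ i ∈ Finset.range n, t i = s i :=
      (Filter.eventually_all_finset _).mpr (fun i _ =>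
        ((continuous_apply i).continuousAt (x := s)).eventually
          ((isOpen_discrete {s i}).mem_nhds rfl))
    filter_upwards [this] with t ht
    have e := T_congr ⟨K, h⟩ n (fun i hi => ht i (Finset.mem_range.mpr hi))
    exact (T_diam ⟨K, h⟩ d hd s n _ (e ▸ hg t n) _ (hg s n)).trans_lt hn
  have hi : Function.Injective g := by
    intro s t hst
    by_contra hne
    have hex : ∃ n, s n ≠ t n := Function.ne_iff.mp hne
    have e := T_congr ⟨K, h⟩ (Nat.find hex) (fun i hi => not_not.mp (Nat.find_min hex hi))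
    have h1 := hg s (Nat.find hex + 1)
    have h2 := hg t (Nat.find hex + 1)
    have h3 := Nat.find_spec hex
    rw [T, e, hst] at h1
    rw [T] at h2
    generalize s (Nat.find hex) = b at *
    generalize t (Nat.find hex) = b' at *
    cases b <;> cases b'
    · exact h3 rfl
    · exact lt_asymm (show g t < _ from h1.2) h2.2
    · exact lt_asymm (show g t < _ from h2.2) h1.2
    · exact h3 rfl
  have hs : ∀ x ∈ K, ∃ s, g s = x := by
    intro x hx
    refine ⟨fun n => decide (cut (follow ⟨K, h⟩ x n) < x), ?_⟩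
    set s : ℕ → Bool := fun n => decide (cut (follow ⟨K, h⟩ x n) < x) with hs
    have e : ∀ n, T ⟨K, h⟩ s n = follow ⟨K, h⟩ x n := by
      intro n
      induction n with
      | zero => rfl
      | succ n ih => rw [T, follow, ih]
    have m : ∀ n, x ∈ (follow ⟨K, h⟩ x n).1 := by
      intro n
      induction n with
      | zero => exact hx
      | succ n ih =>
        rw [follow]
        by_cases h1 : cut (follow ⟨K, h⟩ x n) < x
        · rw [decide_eq_true h1]; exact ⟨ih, h1⟩
        · rw [decide_eq_false h1]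
          exact ⟨ih, lt_of_le_of_ne (not_lt.mp h1)
            (fun h2 => (split (follow ⟨K, h⟩ x n).2).choose_spec.1 (by
              show cut _ ∈ _
              rw [← h2]; exact ih))⟩
    have : |g s - x| ≤ 0 := ge_of_tendsto' lim (fun n =>
      T_diam ⟨K, h⟩ d hd s n _ (hg s n) _ (e n ▸ m n))
    exact sub_eq_zero.mp (abs_nonpos_iff.mp this)
  let G : (ℕ → Bool) → K := fun s => ⟨g s, hg s 0⟩
  have hb : Function.Bijective G :=
    ⟨fun s t hst => hi (congrArg Subtype.val hst), fun x => (hs x x.2).imp fun _ h => Subtype.ext h⟩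
  have hG : Continuous (Equiv.ofBijective G hb) := hc.subtype_mk _
  exact ⟨hG.homeoOfEquivCompactToT2.symm.trans cantorSetHomeomorphNatToBool.symm⟩

end H13Br
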