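import Mathlib

set_option autoImplicit false

namespace H13Ap

def P : List ℕ := [2, 10, 11, 18, 23, 26, 50, 64, 65, 77, 81, 85, 94, 101, 102, 116, 132, 133, 148,
  153, 160, 168, 169, 185, 199, 200, 207, 216, 220, 221, 251, 256, 275, 278, 283, 290, 291, 295]

def L : List ℕ := 43 :: 86 :: 172 :: P

theorem free : ∀ a ∈ L, ∀ b ∈ L, (a + b) % 301 ∈ L → a = b ∧ (a = 43 ∨ a = 86 ∨ a = 172) := by
  decide +kernel

theorem cov : ∀ r < 301, r ∈ L ∨ ∃ t ∈ 43 :: 387 :: 172 :: P, (r + 602 - t) % 301 ∈ P := by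
  decide +kernel

theorem small : ∀ t ∈ P, 0 < t ∧ t < 301 ∧ t ≠ 43 ∧ t ≠ 86 ∧ t ≠ 172 := by decide +kernel

/-- `Y` is, up to finitely many exceptions, the complement of the sumset `X + X + e`. -/
def Dbl (d : Prop) (e : ℕ) (X Y : Set ℕ) : Prop :=
  (∀ x ∈ X, ∀ x' ∈ X, (d → x ≠ x') → x + x' + e ∉ Y) ∧
    ∀ y, 100 ≤ y → y ∈ Y ∨ ∃ x ∈ X, ∃ x' ∈ X, (d → x ≠ x') ∧ x + x' + e = y

/-- A complete sum-free set that is not eventually closed under any shift. -/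
def Good (d : Prop) (S : Set ℕ) : Prop :=
  (∀ s ∈ S, 0 < s) ∧ (∀ s ∈ S, ∀ t ∈ S, (d → s ≠ t) → s + t ∉ S) ∧
    (∀ n, 40000 ≤ n → n ∈ S ∨ ∃ s ∈ S, ∃ t ∈ S, (d → s ≠ t) ∧ s + t = n) ∧
    ∀ D N, 0 < D → ∃ n, N ≤ n ∧ n ∈ S ∧ n + 301 * D ∉ S

theorem assemble {d : Prop} {X Y Z : Set ℕ} (h1 : Dbl d 0 X Y) (h2 : Dbl d 0 Y Z)
    (h3 : Dbl d 1 Z X) (x0 : 0 ∈ X) (y0 : 1 ∈ Y) (z0 : 0 ∈ Z)
    (ha : ∀ D N, 0 < D → ∃ n, N ≤ n ∧ n ∈ X ∧ n + D ∉ X) : ∃ S, Good d S := by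
  let S : Set ℕ := {n | n % 301 ∈ P ∨ (n % 301 = 43 ∧ n / 301 ∈ X) ∨ (n % 301 = 86 ∧ n / 301 ∈ Y) ∨
    (n % 301 = 172 ∧ n / 301 ∈ Z)}
  have hL : ∀ n ∈ S, n % 301 ∈ L := fun n hn => by
    rcases hn with h | h | h | h
    · simp [L, h]
    all_goals simp [L, h.1]
  have e1 : ∀ n, n % 301 = 43 → (n ∈ S ↔ n / 301 ∈ X) := fun n h => by
    refine ⟨fun h' => ?_, fun h' => .inr (.inl ⟨h, h'⟩)⟩
    rcases h' with h' | h' | h' | h'
    exacts [absurd h (small _ h').2.2.1, h'.2, by omega, by omega]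
  have e2 : ∀ n, n % 301 = 86 → (n ∈ S ↔ n / 301 ∈ Y) := fun n h => by
    refine ⟨fun h' => ?_, fun h' => .inr (.inr (.inl ⟨h, h'⟩))⟩
    rcases h' with h' | h' | h' | h'
    exacts [absurd h (small _ h').2.2.2.1, by omega, h'.2, by omega]
  have e3 : ∀ n, n % 301 = 172 → (n ∈ S ↔ n / 301 ∈ Z) := fun n h => by
    refine ⟨fun h' => ?_, fun h' => .inr (.inr (.inr ⟨h, h'⟩))⟩
    rcases h' with h' | h' | h' | h'
    exacts [absurd h (small _ h').2.2.2.2, by omega, by omega, h'.2]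
  refine ⟨S, fun s hs => ?_, fun s hs t ht hd hst => ?_, fun n hn => ?_, fun D N hD => ?_⟩
  · rcases hs with h | h | h | h
    · have := small _ h; omega
    all_goals omega
  · obtain ⟨e, h | h | h⟩ := free _ (hL s hs) _ (hL t ht) (by
      rw [← Nat.add_mod]; exact hL _ hst)
    · refine h1.1 _ ((e1 s h).1 hs) _ ((e1 t (e ▸ h)).1 ht) (fun h' => by have := hd h'; omega) ?_
      rw [show s / 301 + t / 301 + 0 = (s + t) / 301 by omega]
      exact (e2 _ (by omega)).1 hst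
    · refine h2.1 _ ((e2 s h).1 hs) _ ((e2 t (e ▸ h)).1 ht) (fun h' => by have := hd h'; omega) ?_
      rw [show s / 301 + t / 301 + 0 = (s + t) / 301 by omega]
      exact (e3 _ (by omega)).1 hst
    · refine h3.1 _ ((e3 s h).1 hs) _ ((e3 t (e ▸ h)).1 ht) (fun h' => by have := hd h'; omega) ?_
      rw [show s / 301 + t / 301 + 1 = (s + t) / 301 by omega]
      exact (e1 _ (by omega)).1 hst
  · rcases cov _ (Nat.mod_lt n (by norm_num)) with h | ⟨t, ht, h⟩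
    · simp only [L, List.mem_cons] at h
      rcases h with h | h | h | h
      · refine (h3.2 (n / 301) (by omega)).imp (e1 n h).2 fun ⟨x, hx, x', hx', hd, e⟩ =>
          ⟨172 + 301 * x, (e3 _ (by omega)).2 ?_, 172 + 301 * x', (e3 _ (by omega)).2 ?_,
            fun h' => by have := hd h'; omega, by omega⟩
        · rwa [show (172 + 301 * x) / 301 = x by omega]
        · rwa [show (172 + 301 * x') / 301 = x' by omega]
      · refine (h1.2 (n / 301) (by omega)).imp (e2 n h).2 fun ⟨x, hx, x', hx', hd, e⟩ =>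
          ⟨43 + 301 * x, (e1 _ (by omega)).2 ?_, 43 + 301 * x', (e1 _ (by omega)).2 ?_,
            fun h' => by have := hd h'; omega, by omega⟩
        · rwa [show (43 + 301 * x) / 301 = x by omega]
        · rwa [show (43 + 301 * x') / 301 = x' by omega]
      · refine (h2.2 (n / 301) (by omega)).imp (e3 n h).2 fun ⟨x, hx, x', hx', hd, e⟩ =>
          ⟨86 + 301 * x, (e2 _ (by omega)).2 ?_, 86 + 301 * x', (e2 _ (by omega)).2 ?_,
            fun h' => by have := hd h'; omega, by omega⟩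
        · rwa [show (86 + 301 * x) / 301 = x by omega]
        · rwa [show (86 + 301 * x') / 301 = x' by omega]
      · exact .inl (.inl h)
    · have ht' : t ∈ S ∧ t ≤ 400 := by
        simp only [List.mem_cons] at ht
        rcases ht with rfl | rfl | rfl | ht
        exacts [⟨(e1 _ rfl).2 x0, by omega⟩, ⟨(e2 _ rfl).2 y0, by omega⟩, ⟨(e3 _ rfl).2 z0, by omega⟩,
          ⟨.inl (by rwa [Nat.mod_eq_of_lt (small t ht).2.1]), by have := small t ht; omega⟩]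
      exact .inr ⟨n - t, .inl (by rwa [show (n - t) % 301 = (n % 301 + 602 - t) % 301 by omega]),
        t, ht'.1, fun _ => by omega, by omega⟩
  · obtain ⟨n, h1, h2, h3⟩ := ha D N hD
    refine ⟨43 + 301 * n, by omega, (e1 _ (by omega)).2 ?_, fun h => h3 ?_⟩
    · rwa [show (43 + 301 * n) / 301 = n by omega]
    · have := (e1 _ (by omega)).1 h
      rwa [show (43 + 301 * n + 301 * D) / 301 = n + D by omega] at this

/-- powers of eight, at least eight -/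
def T (t : ℕ) : Prop := ∃ k, 8 ^ (k + 1) = t

theorem T.tri {s t : ℕ} (hs : T s) (ht : T t) : 8 ≤ s ∧ (s = t ∨ 8 * s ≤ t ∨ 8 * t ≤ s) := by
  obtain ⟨i, rfl⟩ := hs
  obtain ⟨j, rfl⟩ := ht
  refine ⟨Nat.le_self_pow (by omega) 8, ?_⟩
  rcases lt_trichotomy i j with h | rfl | h
  · exact .inr (.inl (pow_succ' 8 _ ▸ Nat.pow_le_pow_right (by norm_num) (by omega)))
  · exact .inl rfl
  · exact .inr (.inr (pow_succ' 8 _ ▸ Nat.pow_le_pow_right (by norm_num) (by omega)))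

theorem T.mul {t : ℕ} (ht : T t) : T (8 * t) := by
  obtain ⟨k, rfl⟩ := ht
  exact ⟨k + 1, pow_succ' 8 _⟩

theorem T.loc {y : ℕ} (h : 8 ≤ y) : ∃ t, T t ∧ 8 ≤ t ∧ t ≤ y ∧ y < 8 * t := by
  induction y, h using Nat.le_induction with
  | base => exact ⟨8, ⟨0, rfl⟩, by omega⟩
  | succ y _ ih =>
    obtain ⟨t, h1, h2⟩ := ih
    by_cases h : y + 1 < 8 * t
    exacts [⟨t, h1, by omega⟩, ⟨8 * t, h1.mul, by omega⟩]

/-- generic step: `X` consists of small points and of the intervals `[a t - a', b t + b')` -/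
theorem dbl {d : Prop} {e : ℕ} {X Y : Set ℕ} {pX pY : ℕ → Prop} {qX qY : ℕ → ℕ → Prop}
    (hX : ∀ x, x ∈ X ↔ pX x ∨ ∃ t, T t ∧ qX t x) (hY : ∀ x, x ∈ Y ↔ pY x ∨ ∃ t, T t ∧ qY t x)
    (h1 : ∀ x x' s s' t, (d → x ≠ x') → (pX x ∨ qX s x) → (pX x' ∨ qX s' x') →
      (pY (x + x' + e) ∨ qY t (x + x' + e)) → 8 ≤ s → 8 ≤ s' → 8 ≤ t →
      (s = t ∨ 8 * s ≤ t ∨ 8 * t ≤ s) → (s' = t ∨ 8 * s' ≤ t ∨ 8 * t ≤ s') → False)
    (c : ℕ) (hc : c ≤ 4) (w : ℕ) (hw : w ≤ 4)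
    (h2 : ∀ y t, 8 ≤ t → c * t + w ≤ y → y < c * (8 * t) + w → qY t y ∨ qY (8 * t) y ∨
      ∃ x x', (pX x ∨ qX t x) ∧ qX t x' ∧ (d → x ≠ x') ∧ x + x' + e = y) (hc0 : 0 < c) :
    Dbl d e X Y := by
  have t8 : T 8 := ⟨0, rfl⟩
  have key : ∀ {p : ℕ → Prop} {q : ℕ → ℕ → Prop} {x}, (p x ∨ ∃ t, T t ∧ q t x) →
      ∃ t, T t ∧ (p x ∨ q t x) := fun h =>
    h.elim (fun h => ⟨8, t8, .inl h⟩) fun ⟨t, h, h'⟩ => ⟨t, h, .inr h'⟩
  refine ⟨fun x hx x' hx' hd hy => ?_, fun y hy => ?_⟩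
  · obtain ⟨s, hs, a1⟩ := key ((hX x).1 hx)
    obtain ⟨s', hs', a2⟩ := key ((hX x').1 hx')
    obtain ⟨t, ht, a3⟩ := key ((hY _).1 hy)
    exact h1 x x' s s' t hd a1 a2 a3 (hs.tri ht).1 (hs'.tri ht).1 (ht.tri ht).1 (hs.tri ht).2
      (hs'.tri ht).2
  · obtain ⟨t, ht, a0, a1, a2⟩ := T.loc (y := (y - w) / c) (by interval_cases c <;> omega)
    rcases h2 y t a0 (by interval_cases c <;> omega) (by interval_cases c <;> omega) with
      h | h | ⟨x, x', b1, b2, b3⟩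
    · exact .inl ((hY y).2 (.inr ⟨t, ht, h⟩))
    · exact .inl ((hY y).2 (.inr ⟨_, ht.mul, h⟩))
    · exact .inr ⟨x, (hX x).2 (b1.imp_right fun h => ⟨t, ht, h⟩), x', (hX x').2 (.inr ⟨t, ht, b2⟩), b3⟩

theorem big (N : ℕ) : ∃ t, T t ∧ N ≤ t :=
  ⟨_, ⟨N, rfl⟩, (Nat.lt_pow_self (by norm_num)).le.trans
    (Nat.pow_le_pow_right (by norm_num) (Nat.le_succ N))⟩

theorem dickson : ∃ S, Good False S := by
  refine assemble (X := {x | x = 0 ∨ ∃ t, T t ∧ t ≤ x ∧ x < 2 * t})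
    (Y := {x | x = 1 ∨ ∃ t, T t ∧ 4 * t ≤ x + 1 ∧ x < 8 * t})
    (Z := {x | x = 0 ∨ ∃ t, T t ∧ 2 * t ≤ x + 1 ∧ x < 4 * t})
    (dbl (fun _ => Iff.rfl) (fun _ => Iff.rfl) (by intros; omega) 1 (by omega) 0 (by omega) ?_ one_pos)
    (dbl (fun _ => Iff.rfl) (fun _ => Iff.rfl) (by intros; omega) 4 (by omega) 0 (by omega) ?_
      (by omega))
    (dbl (fun _ => Iff.rfl) (fun _ => Iff.rfl) (by intros; omega) 2 (by omega) 0 (by omega) ?_
      (by omega)) (.inl rfl) (.inl rfl) (.inl rfl) fun D N hD => ?_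
  · intro y t h1 h2 h3
    by_cases y < 2 * t
    · exact .inr (.inr ⟨0, y, by omega, by omega, False.elim, by omega⟩)
    by_cases y + 1 < 4 * t
    · exact .inr (.inr ⟨y / 2, y - y / 2, by omega, by omega, False.elim, by omega⟩)
    omega
  · intro y t h1 h2 h3
    by_cases y ≤ 8 * t
    · exact .inr (.inr ⟨1, y - 1, by omega, by omega, False.elim, by omega⟩)
    by_cases y + 1 < 16 * t
    · exact .inr (.inr ⟨y / 2, y - y / 2, by omega, by omega, False.elim, by omega⟩)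
    omega
  · intro y t h1 h2 h3
    by_cases y ≤ 4 * t
    · exact .inr (.inr ⟨0, y - 1, by omega, by omega, False.elim, by omega⟩)
    by_cases y < 8 * t
    · exact .inr (.inr ⟨(y - 1) / 2, y - 1 - (y - 1) / 2, by omega, by omega, False.elim, by omega⟩)
    omega
  · obtain ⟨t, ht, h⟩ := big (D + N)
    refine ⟨2 * t - 1, by omega, .inr ⟨t, ht, by omega⟩, ?_⟩
    rintro (h' | ⟨s, hs, h'⟩)
    · omega
    · have := hs.tri ht
      omega

theorem queneau : ∃ S, Good True S := by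
  refine assemble (X := {x | (x = 0 ∨ x = 2) ∨ ∃ t, T t ∧ t < x ∧ x ≤ 2 * t})
    (Y := {x | x = 1 ∨ ∃ t, T t ∧ 4 * t ≤ x ∧ x ≤ 8 * t})
    (Z := {x | x = 0 ∨ ∃ t, T t ∧ 2 * t ≤ x ∧ x ≤ 4 * t})
    (dbl (fun _ => Iff.rfl) (fun _ => Iff.rfl) (fun _ _ _ _ _ h => by
      have := h trivial; intros; omega) 1 (by omega) 1 (by omega) ?_ one_pos)
    (dbl (fun _ => Iff.rfl) (fun _ => Iff.rfl) (fun _ _ _ _ _ h => by
      have := h trivial; intros; omega) 4 (by omega) 1 (by omega) ?_ (by omega))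
    (dbl (fun _ => Iff.rfl) (fun _ => Iff.rfl) (fun _ _ _ _ _ h => by
      have := h trivial; intros; omega) 2 (by omega) 1 (by omega) ?_ (by omega))
    (.inl (.inl rfl)) (.inl rfl) (.inl rfl) fun D N hD => ?_
  · intro y t h1 h2 h3
    by_cases y ≤ 2 * t
    · exact .inr (.inr ⟨0, y, by omega, by omega, fun _ => by omega, by omega⟩)
    by_cases y ≤ 2 * t + 2
    · exact .inr (.inr ⟨2, y - 2, by omega, by omega, fun _ => by omega, by omega⟩)
    by_cases y < 4 * t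
    · exact .inr (.inr ⟨(y - 1) / 2, y - (y - 1) / 2, by omega, by omega, fun _ => by omega, by omega⟩)
    omega
  · intro y t h1 h2 h3
    by_cases y ≤ 8 * t + 1
    · exact .inr (.inr ⟨1, y - 1, by omega, by omega, fun _ => by omega, by omega⟩)
    by_cases y < 16 * t
    · exact .inr (.inr ⟨(y - 1) / 2, y - (y - 1) / 2, by omega, by omega, fun _ => by omega, by omega⟩)
    omega
  · intro y t h1 h2 h3
    by_cases y ≤ 4 * t + 1
    · exact .inr (.inr ⟨0, y - 1, by omega, by omega, fun _ => by omega, by omega⟩)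
    by_cases y ≤ 8 * t
    · exact .inr (.inr ⟨(y - 2) / 2, y - 1 - (y - 2) / 2, by omega, by omega, fun _ => by omega, by omega⟩)
    omega
  · obtain ⟨t, ht, h⟩ := big (D + N)
    have := (ht.tri ht).1
    refine ⟨2 * t, by omega, .inr ⟨t, ht, by omega⟩, ?_⟩
    rintro (h' | ⟨s, hs, h'⟩)
    · omega
    · have := hs.tri ht
      omega

/-- The increasing enumeration of a good set. -/
theorem seq {d : Prop} {S : Set ℕ} (h : Good d S) : ∃ a : ℕ → ℕ, StrictMono a ∧ 0 < a 0 ∧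
    (∀ i j n, (d → i ≠ j) → a i + a j ≠ a n) ∧
    (∀ n x, 40000 ≤ n → a n < x → x < a (n + 1) →
      ∃ i j, i ≤ n ∧ j ≤ n ∧ (d → i ≠ j) ∧ a i + a j = x) ∧
    ∀ p N, 0 < p → ¬∀ n, N ≤ n → a (n + p + 1) + a n = a (n + p) + a (n + 1) := by
  obtain ⟨h1, h2, h3, h4⟩ := h
  have hi : (setOf (· ∈ S)).Infinite := Set.infinite_of_forall_exists_gt fun N =>
    let ⟨n, a, b, _⟩ := h4 1 (N + 1) one_pos; ⟨n, b, a⟩
  have hm := Nat.nth_strictMono hi
  have hS : ∀ n, Nat.nth (· ∈ S) n ∈ S := Nat.nth_mem_of_infinite hi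
  have hr : ∀ s ∈ S, ∃ i, Nat.nth (· ∈ S) i = s := fun s hs =>
    Nat.subset_range_nth (p := (· ∈ S)) hs
  generalize Nat.nth (· ∈ S) = a at hm hS hr
  refine ⟨a, hm, h1 _ (hS 0), fun i j n hd e => h2 _ (hS i) _ (hS j)
    (fun h e' => hd h (hm.injective e')) (e ▸ hS n), fun n x hn a1 a2 => ?_, fun p N hp hper => ?_⟩
  · have := hm.id_le n
    simp only [id] at this
    rcases h3 x (by omega) with h | ⟨s, hs, t, ht, hd, e⟩
    · obtain ⟨i, rfl⟩ := hr x h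
      have := hm.lt_iff_lt.1 a1
      have := hm.lt_iff_lt.1 a2
      omega
    · obtain ⟨i, rfl⟩ := hr s hs
      obtain ⟨j, rfl⟩ := hr t ht
      have := hm.lt_iff_lt.1 (show a i < a (n + 1) by omega)
      have := hm.lt_iff_lt.1 (show a j < a (n + 1) by omega)
      exact ⟨i, j, by omega, by omega, fun h e' => hd h (e' ▸ rfl), e⟩
  · have hD := hm (show N < N + p by omega)
    have k1 : ∀ n, N ≤ n → a (n + p) = a n + (a (N + p) - a N) := fun n hn => by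
      induction n, hn using Nat.le_induction with
      | base => omega
      | succ n hn ih =>
        have := hper n hn
        rw [add_right_comm]
        omega
    have k2 : ∀ k n, N ≤ n → a (n + k * p) = a n + k * (a (N + p) - a N) := fun k n hn => by
      induction k with
      | zero => simp
      | succ k ih => rw [add_mul, one_mul, ← add_assoc, k1 _ (by omega), ih]; ring
    obtain ⟨s, b1, b2, b3⟩ := h4 (a (N + p) - a N) (a N) (by omega)
    obtain ⟨i, rfl⟩ := hr s b2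
    exact b3 (k2 301 i (hm.le_iff_le.1 b1) ▸ hS _)

end H13Ap
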