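import Mathlib

set_option autoImplicit false

namespace H13Bin
open Polynomial

abbrev V (m : ℕ) := Fin m → ZMod 2

noncomputable def rk {m : ℕ} (l : List (V m)) : ℕ :=
  Module.finrank (ZMod 2) ↥(Submodule.span (ZMod 2) {x | x ∈ l})

noncomputable def G {m : ℕ} (l : List (V m)) (d : ℕ) : ℤ[X] :=
  (l.sublists'.map (fun Y => (-1 : ℤ[X]) ^ Y.length * X ^ (d - rk Y))).sum

/-- projection killing a -/
def pr {m : ℕ} (a : V m) (j : Fin m) : V m →ₗ[ZMod 2] V m where
  toFun b := b + b j • a
  map_add' b c := by simp only [Pi.add_apply, add_smul]; abel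
  map_smul' r b := by simp only [Pi.smul_apply, smul_eq_mul, RingHom.id_apply, smul_add, mul_smul]

theorem two_cases (z : ZMod 2) : z = 0 ∨ z = 1 := by revert z; decide

theorem add_self' {m : ℕ} (a : V m) : a + a = 0 := by
  funext i; simp only [Pi.add_apply, Pi.zero_apply]; rcases two_cases (a i) with h | h <;> rw [h] <;> decide

theorem ker_pr {m : ℕ} (a : V m) (j : Fin m) (h : a j = 1) :
    LinearMap.ker (pr a j) = Submodule.span (ZMod 2) {a} := by
  ext b
  rw [LinearMap.mem_ker, Submodule.mem_span_singleton]
  constructor
  · intro hb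
    refine ⟨b j, ?_⟩
    have : b + b j • a = 0 := hb
    calc b j • a = b + b + b j • a := by rw [add_self', zero_add]
      _ = b + (b + b j • a) := by abel
      _ = b := by rw [this, add_zero]
  · rintro ⟨r, rfl⟩
    show r • a + (r • a) j • a = 0
    simp only [Pi.smul_apply, h, smul_eq_mul, mul_one]
    exact add_self' _

theorem rk_cons_zero {m : ℕ} (Y : List (V m)) : rk ((0 : V m) :: Y) = rk Y := by
  unfold rk
  have : {x | x ∈ (0 : V m) :: Y} = insert 0 {x | x ∈ Y} := by ext x; simp
  rw [this, Submodule.span_insert_zero]

theorem rk_cons {m : ℕ} (a : V m) (j : Fin m) (h : a j = 1) (Y : List (V m)) :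
    rk (a :: Y) = 1 + rk (Y.map (pr a j)) := by
  unfold rk
  set W := Submodule.span (ZMod 2) {x | x ∈ a :: Y} with hW
  have ha0 : a ≠ 0 := by intro h0; rw [h0] at h; simp at h
  have haW : a ∈ W := Submodule.subset_span (by simp)
  have h1 := LinearMap.finrank_range_add_finrank_ker ((pr a j).domRestrict W)
  rw [LinearMap.range_domRestrict, LinearMap.ker_domRestrict, ker_pr a j h] at h1
  have h2 : Module.finrank (ZMod 2) ↥(Submodule.comap W.subtype (Submodule.span (ZMod 2) {a})) = 1 := by
    rw [← finrank_span_singleton (K := ZMod 2) ha0]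
    exact (Submodule.comapSubtypeEquivOfLe (by
      rw [Submodule.span_le]; intro x hx; rw [Set.mem_singleton_iff.mp hx]; exact haW)).finrank_eq
  have h3 : Submodule.map (pr a j) W = Submodule.span (ZMod 2) {x | x ∈ Y.map (pr a j)} := by
    rw [hW, Submodule.map_span]
    have hz : pr a j a = 0 := by
      rw [← LinearMap.mem_ker, ker_pr a j h]; exact Submodule.mem_span_singleton_self a
    have : (pr a j) '' {x | x ∈ a :: Y} = insert 0 {x | x ∈ Y.map (pr a j)} := by
      ext x
      simp only [List.mem_cons, Set.mem_image, Set.mem_ofPred_eq, Set.mem_insert_iff, List.mem_map]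
      constructor
      · rintro ⟨y, rfl | hy, rfl⟩
        · exact Or.inl hz
        · exact Or.inr ⟨y, hy, rfl⟩
      · rintro (rfl | ⟨y, hy, rfl⟩)
        · exact ⟨a, Or.inl rfl, hz⟩
        · exact ⟨y, Or.inr hy, rfl⟩
    rw [this, Submodule.span_insert_zero]
  rw [h3, h2] at h1
  omega

theorem sum_neg (L : List ℤ[X]) : (L.map (fun p => -p)).sum = -L.sum := by
  induction L with
  | nil => simp
  | cons a L ih => simp only [List.map_cons, List.sum_cons, ih]; ring

theorem G_nil {m : ℕ} (d : ℕ) : G ([] : List (V m)) d = X ^ d := by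
  have : rk ([] : List (V m)) = 0 := by
    unfold rk
    have h : {x | x ∈ ([] : List (V m))} = ∅ := by ext x; simp
    rw [h, Submodule.span_empty, finrank_bot]
  simp [G, this]

theorem G_zero {m : ℕ} (l : List (V m)) (d : ℕ) : G ((0 : V m) :: l) d = 0 := by
  unfold G
  rw [List.sublists'_cons, List.map_append, List.sum_append, List.map_map]
  have : ((fun Y : List (V m) => (-1 : ℤ[X]) ^ Y.length * X ^ (d - rk Y)) ∘ List.cons 0) =
      (fun p => -p) ∘ (fun Y : List (V m) => (-1 : ℤ[X]) ^ Y.length * X ^ (d - rk Y)) := by
    funext Y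
    simp only [Function.comp, List.length_cons, rk_cons_zero, pow_succ]
    ring
  rw [this, ← List.map_map, sum_neg]
  ring

theorem G_cons {m : ℕ} (a : V m) (j : Fin m) (h : a j = 1) (l : List (V m)) (d : ℕ) :
    G (a :: l) d = G l d - G (l.map (pr a j)) (d - 1) := by
  unfold G
  rw [List.sublists'_cons, List.map_append, List.sum_append, List.map_map, List.sublists'_map,
    List.map_map]
  have : ((fun Y : List (V m) => (-1 : ℤ[X]) ^ Y.length * X ^ (d - rk Y)) ∘ List.cons a) =
      (fun p => -p) ∘ ((fun Y : List (V m) => (-1 : ℤ[X]) ^ Y.length * X ^ (d - 1 - rk Y)) ∘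
        List.map (pr a j)) := by
    funext Y
    simp only [Function.comp, List.length_cons, rk_cons a j h, pow_succ, List.length_map]
    rw [Nat.sub_sub]
    ring
  rw [this, ← List.map_map, sum_neg]
  ring

theorem ne_zero_piv {m : ℕ} (a : V m) (h : a ≠ 0) : ∃ j, a j = 1 := by
  by_contra hc
  push Not at hc
  apply h
  funext i
  rcases two_cases (a i) with h | h
  · exact h
  · exact absurd h (hc i)

theorem G_mem_zero {m : ℕ} : ∀ (n : ℕ) (l : List (V m)) (d : ℕ), l.length = n → (0 : V m) ∈ l →
    G l d = 0 := by
  intro n
  induction n with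
  | zero => intro l d hl h; rw [List.length_eq_zero_iff.mp hl] at h; simp at h
  | succ n ih =>
    intro l d hl h
    match l, hl, h with
    | a :: l, hl, h =>
      by_cases ha : a = 0
      · rw [ha]; exact G_zero l d
      · obtain ⟨j, hj⟩ := ne_zero_piv a ha
        have h0 : (0 : V m) ∈ l := by
          rcases List.mem_cons.mp h with h | h
          · exact absurd h.symm ha
          · exact h
        have hl' : l.length = n := by simpa using hl
        rw [G_cons a j hj, ih l d hl' h0, ih _ (d - 1) (by simpa using hl')
          (List.mem_map.mpr ⟨0, h0, map_zero _⟩)]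
        simp

theorem sum_powerset {α : Type} [DecidableEq α] (l : List α) (hl : l.Nodup) :
    ∀ φ : Finset α → ℤ[X], ∑ Y ∈ l.toFinset.powerset, φ Y =
      (l.sublists'.map (fun Y => φ Y.toFinset)).sum := by
  induction l with
  | nil => intro φ; simp
  | cons a l ih =>
    intro φ
    have ha : a ∉ l.toFinset := by simpa using (List.nodup_cons.mp hl).1
    rw [List.toFinset_cons, Finset.sum_powerset_insert ha, List.sublists'_cons, List.map_append,
      List.sum_append, List.map_map, ih (List.nodup_cons.mp hl).2, ih (List.nodup_cons.mp hl).2]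
    congr 2
    apply List.map_congr_left
    intro Y _
    simp

theorem chi_eq {m : ℕ} (l : List (V m)) (hl : l.Nodup) (d : ℕ) :
    (∑ Y ∈ l.toFinset.powerset, (-1 : ℤ[X]) ^ Y.card *
      X ^ (d - Module.finrank (ZMod 2) ↥(Submodule.span (ZMod 2) (Y : Set (V m))))) = G l d := by
  rw [sum_powerset l hl]
  unfold G
  congr 1
  apply List.map_congr_left
  intro Y hY
  have hs : Y.Sublist l := List.mem_sublists'.mp hY
  rw [List.toFinset_card_of_nodup (hl.sublist hs)]
  have : ((Y.toFinset : Finset (V m)) : Set (V m)) = {x | x ∈ Y} := by ext x; simp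
  rw [this]
  rfl

/-! computation on codes -/

def dec (m : ℕ) (x : ℕ) : V m := fun i => if x.testBit i then 1 else 0

theorem dec_xor (m x y : ℕ) : dec m (x ^^^ y) = dec m x + dec m y := by
  funext i
  simp only [dec, Nat.testBit_xor, Pi.add_apply]
  cases x.testBit i <;> cases y.testBit i <;> simp <;> decide

def red (a j b : ℕ) : ℕ := if b.testBit j then b ^^^ a else b

theorem dec_red (m a b : ℕ) (j : Fin m) : dec m (red a j b) = pr (dec m a) j (dec m b) := by
  show _ = dec m b + (dec m b) j • dec m a
  unfold red
  by_cases h : b.testBit j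
  · rw [if_pos h, dec_xor]; simp [dec, h]
  · rw [if_neg h]; simp [dec, h]

noncomputable def toP : List ℤ → ℤ[X]
  | [] => 0
  | c :: cs => C c + X * toP cs

def subL : List ℤ → List ℤ → List ℤ
  | [], q => q.map (fun x => -x)
  | p, [] => p
  | a :: p, b :: q => (a - b) :: subL p q

theorem toP_neg (q : List ℤ) : toP (q.map (fun x => -x)) = - toP q := by
  induction q with
  | nil => simp [toP]
  | cons b q ih => simp only [List.map_cons, toP, ih, map_neg]; ring

theorem toP_sub : ∀ p q : List ℤ, toP (subL p q) = toP p - toP q
  | [], q => by simp [subL, toP_neg, toP]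
  | a :: p, [] => by simp [subL, toP]
  | a :: p, b :: q => by simp only [subL, toP, toP_sub p q, map_sub]; ring

def mono : ℕ → List ℤ
  | 0 => [1]
  | d + 1 => 0 :: mono d

theorem toP_mono (d : ℕ) : toP (mono d) = X ^ d := by
  induction d with
  | zero => simp [mono, toP]
  | succ d ih => simp only [mono, toP, ih, map_zero, zero_add, pow_succ]; ring

/-- deletion-contraction; returns none if a code is out of range -/
def g (m : ℕ) : ℕ → List ℕ → ℕ → Option (List ℤ)
  | 0, _, _ => none
  | _ + 1, [], d => some (mono d)
  | f + 1, a :: l, d =>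
    if (a :: l).any (fun b => b == 0) then some [] else
    if a.log2 < m then
      match g m f l d, g m f (l.map (red a a.log2)) (d - 1) with
      | some p, some q => some (subL p q)
      | _, _ => none
    else none

theorem g_spec (m : ℕ) : ∀ (f : ℕ) (l : List ℕ) (d : ℕ) (p : List ℤ), g m f l d = some p →
    G (l.map (dec m)) d = toP p := by
  intro f
  induction f with
  | zero => intro l d p h; simp [g] at h
  | succ f ih =>
    intro l d p h
    cases l with
    | nil =>
      simp only [g, Option.some.injEq] at h
      rw [← h, toP_mono]; exact G_nil d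
    | cons a l =>
      rw [g] at h
      split_ifs at h with h1 h2
      · simp only [Option.some.injEq] at h
        rw [← h]
        apply G_mem_zero _ _ _ rfl
        obtain ⟨b, hb, hb0⟩ := List.any_eq_true.mp h1
        have : b = 0 := by simpa using hb0
        refine List.mem_map.mpr ⟨b, hb, ?_⟩
        rw [this]; funext i; simp [dec]
      · have ha : a ≠ 0 := by
          intro h0; apply h1; simp [h0]
        have hbit : dec m a ⟨a.log2, h2⟩ = 1 := by
          simp only [dec]; rw [if_pos (Nat.testBit_log2 ha)]
        cases h3 : g m f l d with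
        | none => rw [h3] at h; simp at h
        | some p1 =>
          cases h4 : g m f (l.map (red a a.log2)) (d - 1) with
          | none => rw [h3, h4] at h; simp at h
          | some q1 =>
            rw [h3, h4] at h
            simp only [Option.some.injEq] at h
            rw [← h, toP_sub, List.map_cons, G_cons _ _ hbit, ih _ _ _ h3, ← ih _ _ _ h4,
              List.map_map, List.map_map]
            congr 2
            apply List.map_congr_left
            intro b _
            exact (dec_red m a b ⟨a.log2, h2⟩).symm

end H13Bin
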