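import Mathlib

set_option autoImplicit false

/-! Zero-free region for characteristic polynomials of vector families whose dual space is
spanned by functionals of small support. -/

namespace H13CR
open Finset Module Submodule

variable {F W κ : Type} [Field F] [AddCommGroup W] [Module F W] [FiniteDimensional F W]
  [DecidableEq κ]

noncomputable def Z (F : Type) [Field F] [Module F W] (c : κ → W) (z : ℂ) (E : Finset κ)
    (U : Submodule F W) : ℂ :=
  ∑ X ∈ E.powerset, (-1 : ℂ) ^ X.card * z ^ finrank F ↥(U ⊔ span F (c '' (X : Set κ)))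

omit [FiniteDimensional F W] in
theorem Z_insert (c : κ → W) (z : ℂ) (E : Finset κ) (a : κ) (ha : a ∉ E) (U : Submodule F W) :
    Z F c z (insert a E) U = Z F c z E U - Z F c z E (U ⊔ span F {c a}) := by
  unfold Z
  rw [Finset.sum_powerset_insert ha, sub_eq_add_neg, ← Finset.sum_neg_distrib]
  congr 1
  apply Finset.sum_congr rfl
  intro X hX
  have haX : a ∉ X := fun h => ha (mem_powerset.mp hX h)
  rw [card_insert_of_notMem haX, coe_insert, Set.image_insert_eq, span_insert, sup_assoc, pow_succ]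
  ring

theorem finrank_ker (φ : W →ₗ[F] F) (Y : Submodule F W) (h : ¬ Y ≤ LinearMap.ker φ) :
    finrank F Y = finrank F ↥(Y ⊓ LinearMap.ker φ) + 1 := by
  have h1 := LinearMap.finrank_range_add_finrank_ker (φ.domRestrict Y)
  have h2 : LinearMap.range (φ.domRestrict Y) = ⊤ := by
    obtain ⟨w, hw, hw0⟩ := SetLike.not_le_iff_exists.mp h
    rw [eq_top_iff]
    intro y _
    refine ⟨⟨(y * (φ w)⁻¹) • w, Y.smul_mem _ hw⟩, ?_⟩
    have : φ w ≠ 0 := hw0
    simp [this]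
  rw [h2, finrank_top, Module.finrank_self, LinearMap.ker_domRestrict] at h1
  have h3 : finrank F ↥(comap Y.subtype (LinearMap.ker φ)) = finrank F ↥(Y ⊓ LinearMap.ker φ) := by
    rw [← Submodule.map_comap_subtype]
    exact (Submodule.finrank_map_subtype_eq Y _).symm
  omega

theorem Z_ker (c : κ → W) (z : ℂ) (E : Finset κ) (φ : W →ₗ[F] F) (hE : ∀ e ∈ E, φ (c e) = 0)
    (U : Submodule F W) (h : ¬ U ≤ LinearMap.ker φ) :
    Z F c z E U = z * Z F c z E (U ⊓ LinearMap.ker φ) := by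
  unfold Z
  rw [Finset.mul_sum]
  apply Finset.sum_congr rfl
  intro X hX
  have hS : span F (c '' (X : Set κ)) ≤ LinearMap.ker φ := by
    rw [span_le]
    rintro _ ⟨e, he, rfl⟩
    exact hE e (mem_powerset.mp hX he)
  rw [finrank_ker φ (U ⊔ span F (c '' (X : Set κ))) (fun h' => h (le_sup_left.trans h')),
    sup_comm U, sup_inf_assoc_of_le _ hS, sup_comm, pow_succ]
  ring

omit [FiniteDimensional F W] in
theorem Z_union (c : κ → W) (z : ℂ) (E' : Finset κ) (φ : W →ₗ[F] F) (B : ℝ)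
    (hB : ∀ U : Submodule F W, ¬ U ≤ LinearMap.ker φ → ‖Z F c z E' U‖ ≤ B) :
    ∀ T : Finset κ, Disjoint T E' → (∀ e ∈ T, φ (c e) ≠ 0) →
      (∀ U : Submodule F W, ¬ U ≤ LinearMap.ker φ → ‖Z F c z (T ∪ E') U‖ ≤ 2 ^ T.card * B) ∧
      ‖Z F c z (T ∪ E') ⊥ - Z F c z E' ⊥‖ + B ≤ 2 ^ T.card * B := by
  intro T
  induction T using Finset.induction_on with
  | empty => intro _ _; simpa using hB
  | insert a T ha ih =>
    intro hd hT
    rw [Finset.disjoint_insert_left] at hd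
    obtain ⟨ih1, ih2⟩ := ih hd.2 (fun e he => hT e (mem_insert_of_mem he))
    have ha' : a ∉ T ∪ E' := by simp [ha, hd.1]
    have hsp : ∀ U : Submodule F W, ¬ (U ⊔ span F {c a}) ≤ LinearMap.ker φ := fun U h =>
      hT a (mem_insert_self _ _) (h (mem_sup_right (mem_span_singleton_self _)))
    rw [insert_union, card_insert_of_notMem ha, pow_succ]
    constructor
    · intro U hU
      rw [Z_insert c z _ a ha']
      have := norm_sub_le (Z F c z (T ∪ E') U) (Z F c z (T ∪ E') (U ⊔ span F {c a}))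
      have h1 := ih1 U hU
      have h2 := ih1 _ (hsp U)
      linarith
    · rw [Z_insert c z _ a ha', sub_right_comm]
      have := norm_sub_le (Z F c z (T ∪ E') ⊥ - Z F c z E' ⊥) (Z F c z (T ∪ E') (⊥ ⊔ span F {c a}))
      have h2 := ih1 _ (hsp ⊥)
      linarith

theorem main (c : κ → W) (z : ℂ) (L : ℕ) (hz : 2 ^ (L + 1) * ‖z‖ ≤ 1) :
    ∀ (n : ℕ) (E : Finset κ), E.card = n → (∀ e ∈ E, c e ≠ 0) →
      (∀ w : W, w ≠ 0 → ∃ φ : W →ₗ[F] F, φ w ≠ 0 ∧
        ∀ T ⊆ E, (∀ e ∈ T, φ (c e) ≠ 0) → T.card ≤ L) →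
      Z F c z E ⊥ ≠ 0 ∧ ∀ U : Submodule F W, ‖Z F c z E U‖ ≤ ‖Z F c z E ⊥‖ := by
  classical
  intro n
  induction n using Nat.strong_induction_on with
  | _ n ih =>
  intro E hn hc hφ
  have hz1 : ‖z‖ ≤ 1 := by
    have : (1 : ℝ) ≤ 2 ^ (L + 1) := one_le_pow₀ (by norm_num)
    nlinarith [norm_nonneg z]
  have step : ∀ φ : W →ₗ[F] F, (∀ T ⊆ E, (∀ e ∈ T, φ (c e) ≠ 0) → T.card ≤ L) →
      (∃ e ∈ E, φ (c e) ≠ 0) → Z F c z E ⊥ ≠ 0 ∧
      ∀ U : Submodule F W, ¬ U ≤ LinearMap.ker φ → ‖Z F c z E U‖ ≤ ‖Z F c z E ⊥‖ := by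
    intro φ hL ⟨e, he, he0⟩
    set T := E.filter (fun e => φ (c e) ≠ 0) with hT
    set E' := E.filter (fun e => ¬ φ (c e) ≠ 0) with hE'
    have hU : T ∪ E' = E := Finset.filter_union_filter_not_eq _ _
    have hd : Disjoint T E' := Finset.disjoint_filter_filter_not _ _ _
    have hlt : E'.card < n := by
      rw [← hn]
      apply Finset.card_lt_card
      refine ⟨filter_subset _ _, fun h => ?_⟩
      exact (mem_filter.mp (h he)).2 he0
    obtain ⟨h1, h2⟩ := ih _ hlt E' rfl (fun e he => hc e (mem_filter.mp he).1) (fun w hw => by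
      obtain ⟨ψ, h3, h4⟩ := hφ w hw
      exact ⟨ψ, h3, fun T hT => h4 T (hT.trans (filter_subset _ _))⟩)
    obtain ⟨h3, h4⟩ := Z_union c z E' φ (‖z‖ * ‖Z F c z E' ⊥‖) (fun U hU => by
      rw [Z_ker c z E' φ (fun e he => not_not.mp (mem_filter.mp he).2) U hU, norm_mul]
      exact mul_le_mul_of_nonneg_left (h2 _) (norm_nonneg z)) T hd
      (fun e he => (mem_filter.mp he).2)
    rw [hU] at h3 h4
    have hTL : T.card ≤ L := hL T (filter_subset _ _) (fun e he => (mem_filter.mp he).2)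
    have hpow : (2 : ℝ) ^ T.card ≤ 2 ^ L := pow_le_pow_right₀ (by norm_num) hTL
    have hpos : 0 < ‖Z F c z E' ⊥‖ := norm_pos_iff.mpr h1
    have hhalf : 2 ^ T.card * (‖z‖ * ‖Z F c z E' ⊥‖) ≤ ‖Z F c z E' ⊥‖ / 2 := by
      have : 2 ^ T.card * ‖z‖ ≤ 1 / 2 := by
        have := mul_le_mul_of_nonneg_right hpow (norm_nonneg z)
        rw [pow_succ] at hz
        linarith
      nlinarith
    have hge : ‖Z F c z E' ⊥‖ / 2 ≤ ‖Z F c z E ⊥‖ := by
      have h5 := norm_sub_norm_le (Z F c z E' ⊥) (Z F c z E ⊥)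
      rw [norm_sub_rev] at h5
      have h6 : 0 ≤ ‖z‖ * ‖Z F c z E' ⊥‖ := by positivity
      linarith
    refine ⟨norm_pos_iff.mp (by linarith), fun U hU => ?_⟩
    have := h3 U hU
    linarith
  refine ⟨?_, ?_⟩
  · rcases E.eq_empty_or_nonempty with rfl | ⟨e, he⟩
    · simp [Z]
    · obtain ⟨φ, h1, h2⟩ := hφ (c e) (hc e he)
      exact (step φ h2 ⟨e, he, h1⟩).1
  · intro U
    induction hd : finrank F U using Nat.strong_induction_on generalizing U with
    | _ d ihd =>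
    by_cases hU : U = ⊥
    · rw [hU]
    · obtain ⟨w, hw, hw0⟩ := Submodule.exists_mem_ne_zero_of_ne_bot hU
      obtain ⟨φ, h1, h2⟩ := hφ w hw0
      have hUφ : ¬ U ≤ LinearMap.ker φ := fun h => h1 (h hw)
      by_cases hex : ∃ e ∈ E, φ (c e) ≠ 0
      · exact (step φ h2 hex).2 U hUφ
      · push Not at hex
        rw [Z_ker c z E φ hex U hUφ, norm_mul]
        have h3 := ihd _ (by rw [← hd, finrank_ker φ U hUφ]; omega) (U ⊓ LinearMap.ker φ) rfl
        nlinarith [norm_nonneg (Z F c z E (U ⊓ LinearMap.ker φ)), norm_nonneg z]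

/-- the characteristic polynomial has no root of modulus at least `2 ^ (L + 1)` -/
theorem root_bound (c : κ → W) (L : ℕ) (E : Finset κ) (hc : ∀ e ∈ E, c e ≠ 0)
    (hφ : ∀ w : W, w ≠ 0 → ∃ φ : W →ₗ[F] F, φ w ≠ 0 ∧
        ∀ T ⊆ E, (∀ e ∈ T, φ (c e) ≠ 0) → T.card ≤ L)
    (r : ℕ) (hr : ∀ X ⊆ E, finrank F ↥(span F (c '' (X : Set κ))) ≤ r) (q : ℂ)
    (hq : ∑ X ∈ E.powerset, (-1 : ℂ) ^ X.card *
      q ^ (r - finrank F ↥(span F (c '' (X : Set κ)))) = 0) : ‖q‖ ≤ 2 ^ (L + 1) := by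
  by_contra hcon
  push Not at hcon
  have hpos : (0 : ℝ) < ‖q‖ := lt_trans (by positivity) hcon
  have hq0 : q ≠ 0 := norm_pos_iff.mp hpos
  have h1 := (main (F := F) c q⁻¹ L (by
    rw [norm_inv, ← div_eq_mul_inv, div_le_one hpos]; exact hcon.le) _ E rfl hc hφ).1
  apply h1
  have : q ^ r * Z F c q⁻¹ E ⊥ = 0 := by
    rw [← hq, Z, Finset.mul_sum]
    apply Finset.sum_congr rfl
    intro X hX
    rw [bot_sup_eq, pow_sub₀ _ hq0 (hr X (mem_powerset.mp hX)), inv_pow]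
    ring
  exact (mul_eq_zero.mp this).resolve_left (pow_ne_zero _ hq0)

end H13CR
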