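import Mathlib

set_option autoImplicit false

namespace H13Cone

open Complex Finset Real

/-- `v` is a positive multiple of `exp (i α)`. -/
def HA (v : ℂ) (α : ℝ) : Prop := ∃ ρ : ℝ, 0 < ρ ∧ v = ρ * cexp (α * I)

theorem HA.ne_zero {v : ℂ} {α : ℝ} (h : HA v α) : v ≠ 0 := by
  obtain ⟨ρ, h0, rfl⟩ := h
  exact mul_ne_zero (by exact_mod_cast h0.ne') (Complex.exp_ne_zero _)

theorem HA.mul {v w : ℂ} {α β : ℝ} (h : HA v α) (h' : HA w β) : HA (v * w) (α + β) := by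
  obtain ⟨ρ, h0, rfl⟩ := h
  obtain ⟨σ, h1, rfl⟩ := h'
  refine ⟨ρ * σ, mul_pos h0 h1, ?_⟩
  push_cast
  rw [add_mul, Complex.exp_add]; ring

theorem HA_pos {c : ℝ} (hc : 0 < c) : HA c 0 := ⟨c, hc, by simp⟩

theorem HA_one : HA 1 0 := ⟨1, one_pos, by simp⟩

theorem HA.smul {v : ℂ} {α c : ℝ} (h : HA v α) (hc : 0 < c) : HA (c * v) α := by
  simpa using (HA_pos hc).mul h

theorem HA_arg {v : ℂ} (hv : v ≠ 0) : HA v (arg v) :=
  ⟨‖v‖, norm_pos_iff.2 hv, (norm_mul_exp_arg_mul_I v).symm⟩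

theorem HA.inv {v : ℂ} {α : ℝ} (h : HA v α) : HA v⁻¹ (-α) := by
  obtain ⟨ρ, h0, rfl⟩ := h
  refine ⟨ρ⁻¹, inv_pos.2 h0, ?_⟩
  rw [mul_inv, ← Complex.exp_neg]; push_cast; ring_nf

theorem HA.im_eq {v : ℂ} {α : ℝ} (h : HA v α) : ∃ ρ : ℝ, 0 < ρ ∧ v.im = ρ * Real.sin α ∧
    v.re = ρ * Real.cos α := by
  obtain ⟨ρ, h0, rfl⟩ := h
  refine ⟨ρ, h0, ?_, ?_⟩
  · rw [im_ofReal_mul, exp_ofReal_mul_I_im]
  · rw [re_ofReal_mul, exp_ofReal_mul_I_re]

theorem HA.unique {v : ℂ} {α β : ℝ} (h : HA v α) (h' : HA v β) (h1 : α < β + 2 * π)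
    (h2 : β < α + 2 * π) : α = β := by
  have h3 := h.mul h'.inv
  rw [mul_inv_cancel₀ h.ne_zero] at h3
  obtain ⟨ρ, h0, hi, hr⟩ := h3.im_eq
  simp only [one_im, one_re] at hi hr
  have hs : Real.sin (α + -β) = 0 := by
    rcases mul_eq_zero.1 hi.symm with h | h
    · exact absurd h h0.ne'
    · exact h
  have hc : 0 < Real.cos (α + -β) := by
    by_contra hc
    nlinarith [not_lt.1 hc]
  have hc1 : Real.cos (α + -β) = 1 := by
    have := Real.sin_sq_add_cos_sq (α + -β)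
    rw [hs] at this
    nlinarith
  have := (Real.cos_eq_one_iff_of_lt_of_lt (by linarith) (by linarith)).1 hc1
  linarith

theorem HA.add {v w : ℂ} {α β : ℝ} (h : HA v α) (h' : HA w β) (h1 : α ≤ β) (h2 : β < α + π) :
    ∃ γ, α ≤ γ ∧ γ ≤ β ∧ HA (v + w) γ := by
  obtain ⟨ρ, h0, rfl⟩ := h
  obtain ⟨σ, h3, rfl⟩ := h'
  rcases h1.eq_or_lt with rfl | h1
  · exact ⟨α, le_rfl, le_rfl, ρ + σ, add_pos h0 h3, by push_cast; ring⟩
  set u : ℂ := ρ + σ * cexp ((β - α : ℝ) * I) with hu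
  have hs : 0 < Real.sin (β - α) := Real.sin_pos_of_pos_of_lt_pi (by linarith) (by linarith)
  have hi : 0 < u.im := by
    rw [hu, add_im, ofReal_im, im_ofReal_mul, exp_ofReal_mul_I_im, zero_add]; positivity
  have hu0 : u ≠ 0 := fun h => by simp [h] at hi
  have ha0 : 0 ≤ arg u := arg_nonneg_iff.2 hi.le
  have ha1 : arg u < π := arg_lt_pi_iff.2 (Or.inr hi.ne')
  have hA := HA_arg hu0
  have hE : ∀ x : ℝ, HA (cexp (x * I)) x := fun x => ⟨1, one_pos, by simp⟩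
  refine ⟨α + arg u, by linarith, ?_, ?_⟩
  · by_contra hc
    obtain ⟨τ, ht, hi, -⟩ := (hA.mul (hE (-(β - α)))).im_eq
    have e : u * cexp ((-(β - α) : ℝ) * I) = ρ * cexp ((-(β - α) : ℝ) * I) + σ := by
      rw [hu, add_mul, mul_assoc, ← Complex.exp_add]; push_cast; ring_nf; simp
    rw [e, add_im, ofReal_im, im_ofReal_mul, exp_ofReal_mul_I_im, Real.sin_neg] at hi
    have : 0 < Real.sin (arg u + -(β - α)) :=
      Real.sin_pos_of_pos_of_lt_pi (by linarith) (by linarith)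
    nlinarith [mul_pos h0 hs, mul_pos ht this]
  · have := (hE α).mul hA
    convert this using 1
    rw [hu, mul_add, mul_left_comm, ← Complex.exp_add]; push_cast; ring_nf

theorem exists_HA {t : ℂ} (ht : 0 < t.im) : ∃ θ, 0 < θ ∧ θ < π ∧ HA t θ := by
  have h0 : t ≠ 0 := fun h => by simp [h] at ht
  refine ⟨arg t, ?_, arg_lt_pi_iff.2 (Or.inr ht.ne'), HA_arg h0⟩
  refine lt_of_le_of_ne (arg_nonneg_iff.2 ht.le) fun h => ?_
  exact ht.ne' (arg_eq_zero_iff.1 h.symm).2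

/-- `v` is nonzero with an argument in `[a, b]`. -/
def InA (v : ℂ) (a b : ℝ) : Prop := ∃ γ, a ≤ γ ∧ γ ≤ b ∧ HA v γ

theorem InA.ne_zero {v : ℂ} {a b : ℝ} (h : InA v a b) : v ≠ 0 := h.choose_spec.2.2.ne_zero

theorem InA.mono {v : ℂ} {a b a' b' : ℝ} (h : InA v a b) (h1 : a' ≤ a) (h2 : b ≤ b') :
    InA v a' b' := by
  obtain ⟨γ, h3, h4, h5⟩ := h
  exact ⟨γ, by linarith, by linarith, h5⟩

theorem HA.inA {v : ℂ} {γ a b : ℝ} (h : HA v γ) (h1 : a ≤ γ) (h2 : γ ≤ b) : InA v a b :=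
  ⟨γ, h1, h2, h⟩

theorem InA.add {v w : ℂ} {a b : ℝ} (h : InA v a b) (h' : InA w a b) (hab : b < a + π) :
    InA (v + w) a b := by
  obtain ⟨α, h1, h2, h3⟩ := h
  obtain ⟨β, h4, h5, h6⟩ := h'
  rcases le_total α β with h | h
  · obtain ⟨γ, a1, a2, a3⟩ := h3.add h6 h (by linarith)
    exact ⟨γ, by linarith, by linarith, a3⟩
  · obtain ⟨γ, a1, a2, a3⟩ := h6.add h3 h (by linarith)
    exact ⟨γ, by linarith, by linarith, add_comm w v ▸ a3⟩

theorem InA.sum {ι : Type*} {s : Finset ι} (hs : s.Nonempty) {u : ι → ℂ} {a b : ℝ}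
    (h : ∀ i ∈ s, InA (u i) a b) (hab : b < a + π) : InA (∑ i ∈ s, u i) a b := by
  induction hs using Finset.Nonempty.cons_induction with
  | singleton i => simpa using h i (mem_singleton_self i)
  | cons i s hi hs ih =>
    rw [sum_cons]
    exact (h i (mem_cons_self _ _)).add (ih fun j hj => h j (mem_cons_of_mem hj)) hab

/-- Adding a possibly empty sum. -/
theorem InA.add_sum {ι : Type*} {s : Finset ι} {u : ι → ℂ} {a b : ℝ} {c : ℂ} (hc : InA c a b)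
    (h : ∀ i ∈ s, InA (u i) a b) (hab : b < a + π) : InA (c + ∑ i ∈ s, u i) a b := by
  rcases s.eq_empty_or_nonempty with rfl | hs
  · simpa using hc
  · exact hc.add (InA.sum hs h hab) hab

section win
variable {u : ℕ → ℂ} {β : ℕ → ℝ} {M : ℕ}

theorem win_inA (hu : ∀ k < M, HA (u k) (β k)) (hβ : ∀ k l, k ≤ l → l < M → β k ≤ β l)
    {a b : ℕ} (hab : a ≤ b) (hb : b < M) (hs : β b < β a + π) :
    InA (∑ k ∈ Icc a b, u k) (β a) (β b) :=
  InA.sum (nonempty_Icc.2 hab) (fun k hk => by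
    rw [mem_Icc] at hk
    exact (hu k (by omega)).inA (hβ _ _ hk.1 (by omega)) (hβ _ _ hk.2 hb)) hs

theorem win_le (hu : ∀ k < M, HA (u k) (β k)) (hβ : ∀ k l, k ≤ l → l < M → β k ≤ β l)
    {a b a' b' : ℕ} (hab : a ≤ b) (hab' : a' ≤ b') (ha : a ≤ a') (hb : b ≤ b') (hM : b' < M)
    (hs : β b < β a + π) (hs' : β b' < β a' + π) {γ γ' : ℝ}
    (h : HA (∑ k ∈ Icc a b, u k) γ) (h1 : β a ≤ γ) (h2 : γ ≤ β b)
    (h' : HA (∑ k ∈ Icc a' b', u k) γ') (h1' : β a' ≤ γ') (h2' : γ' ≤ β b') : γ ≤ γ' := by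
  rcases le_or_gt b a' with hc | hc
  · exact h2.trans ((hβ _ _ hc (by omega)).trans h1')
  have haa := hβ _ _ ha (by omega)
  have hbb := hβ _ _ hb hM
  obtain ⟨κ, k1, k2, k3⟩ := win_inA hu hβ hc.le (by omega : b < M) (by linarith)
  have pi0 := Real.pi_pos
  have e1 : ∑ k ∈ Icc a b, u k = ∑ k ∈ Icc a' b, u k + ∑ k ∈ Ico a a', u k := by
    rw [← sum_union]
    · congr 1; ext k; simp only [mem_Icc, mem_union, mem_Ico]; omega
    · rw [disjoint_left]; intro k; simp only [mem_Icc, mem_Ico]; omega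
  have e2 : ∑ k ∈ Icc a' b', u k = ∑ k ∈ Icc a' b, u k + ∑ k ∈ Ioc b b', u k := by
    rw [← sum_union]
    · congr 1; ext k; simp only [mem_Icc, mem_union, mem_Ioc]; omega
    · rw [disjoint_left]; intro k; simp only [mem_Icc, mem_Ioc]; omega
  obtain ⟨δ, d1, d2, d3⟩ : InA (∑ k ∈ Icc a b, u k) (β a) κ := by
    rw [e1]
    refine (k3.inA (by linarith) le_rfl).add_sum (fun k hk => ?_) (by linarith)
    rw [mem_Ico] at hk
    exact (hu k (by omega)).inA (hβ _ _ hk.1 (by omega))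
      ((hβ _ _ hk.2.le (by omega)).trans k1)
  obtain ⟨ε, f1, f2, f3⟩ : InA (∑ k ∈ Icc a' b', u k) κ (β b') := by
    rw [e2]
    refine (k3.inA le_rfl (by linarith)).add_sum (fun k hk => ?_) (by linarith)
    rw [mem_Ioc] at hk
    exact (hu k (by omega)).inA (k2.trans (hβ _ _ hk.1.le (by omega))) (hβ _ _ hk.2 hM)
  rw [h.unique d3 (by linarith) (by linarith), h'.unique f3 (by linarith) (by linarith)]
  linarith

/-- A family of windows moving to the right has monotone arguments. -/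
theorem win_chain (hu : ∀ k < M, HA (u k) (β k)) (hβ : ∀ k l, k ≤ l → l < M → β k ≤ β l)
    (N : ℕ) (a b : ℕ → ℕ) (hab : ∀ i < N, a i ≤ b i) (hb : ∀ i < N, b i < M)
    (hs : ∀ i < N, β (b i) < β (a i) + π)
    (ha : ∀ i j, i ≤ j → j < N → a i ≤ a j) (hb' : ∀ i j, i ≤ j → j < N → b i ≤ b j) :
    ∃ γ : ℕ → ℝ, (∀ i < N, HA (∑ k ∈ Icc (a i) (b i), u k) (γ i) ∧ β (a i) ≤ γ i ∧
      γ i ≤ β (b i)) ∧ ∀ i j, i ≤ j → j < N → γ i ≤ γ j := by
  have : ∀ i, ∃ γ : ℝ, i < N → HA (∑ k ∈ Icc (a i) (b i), u k) γ ∧ β (a i) ≤ γ ∧ γ ≤ β (b i) := by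
    intro i
    by_cases hi : i < N
    · obtain ⟨γ, h1, h2, h3⟩ := win_inA hu hβ (hab i hi) (hb i hi) (hs i hi)
      exact ⟨γ, fun _ => ⟨h3, h1, h2⟩⟩
    · exact ⟨0, fun h => absurd h hi⟩
  choose γ hγ using this
  refine ⟨γ, hγ, fun i j hij hj => ?_⟩
  have hi : i < N := by omega
  exact win_le hu hβ (hab i hi) (hab j hj) (ha i j hij hj) (hb' i j hij hj) (hb j hj) (hs i hi)
    (hs j hj) (hγ i hi).1 (hγ i hi).2.1 (hγ i hi).2.2 (hγ j hj).1 (hγ j hj).2.1 (hγ j hj).2.2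

end win

/-- The permutation sending `p` to `i` and acting as `σ` on the remaining places. -/
def ext {n : ℕ} (p i : Fin (n + 1)) (σ : Equiv.Perm (Fin n)) : Equiv.Perm (Fin (n + 1)) :=
  (finSuccEquiv' p).trans (σ.optionCongr.trans (finSuccEquiv' i).symm)

theorem ext_at {n : ℕ} (p i : Fin (n + 1)) (σ : Equiv.Perm (Fin n)) : ext p i σ p = i := by
  simp [ext]

theorem ext_succAbove {n : ℕ} (p i : Fin (n + 1)) (σ : Equiv.Perm (Fin n)) (k : Fin n) :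
    ext p i σ (p.succAbove k) = i.succAbove (σ k) := by
  simp [ext]

theorem sum_perm {n : ℕ} {M : Type*} [AddCommMonoid M] (p : Fin (n + 1))
    (f : Equiv.Perm (Fin (n + 1)) → M) :
    ∑ τ, f τ = ∑ i, ∑ σ : Equiv.Perm (Fin n), f (ext p i σ) := by
  rw [← Fintype.sum_prod_type']
  symm
  refine Function.Bijective.sum_comp (e := fun x : Fin (n + 1) × Equiv.Perm (Fin n) =>
    ext p x.1 x.2) ?_ f
  rw [Fintype.bijective_iff_injective_and_card]
  refine ⟨?_, by simp [Fintype.card_perm, Nat.factorial_succ]⟩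
  rintro ⟨i, σ⟩ ⟨j, τ⟩ h
  simp only at h
  have h1 : i = j := by rw [← ext_at p i σ, h, ext_at]
  subst h1
  congr
  ext k
  have := ext_succAbove p i σ k
  rw [h, ext_succAbove] at this
  rw [Fin.succAbove_right_injective this]

end H13Cone
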