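import Mathlib
import Pool.Agent.Lib.helper13.Cone

set_option autoImplicit false

namespace H13Cone

open Complex Finset Real

theorem cyc_sum (h : ℕ → ℂ) (x : ℂ) (n k : ℕ) (hk : k ≤ n + 1) :
    ∑ m ∈ range (n + 1), (if m < k then x else 1) * h m =
      ∑ m ∈ Icc k (k + n), (if m ≤ n then h m else x * h (m - (n + 1))) := by
  symm
  refine sum_bij' (fun m _ => if m ≤ n then m else m - (n + 1))
    (fun m _ => if m < k then m + (n + 1) else m) ?_ ?_ ?_ ?_ ?_
  · intro m hm; rw [mem_Icc] at hm; rw [mem_range]; split_ifs <;> omega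
  · intro m hm; rw [mem_range] at hm; rw [mem_Icc]; split_ifs <;> omega
  · intro m hm; rw [mem_Icc] at hm; split_ifs <;> omega
  · intro m hm; rw [mem_range] at hm; split_ifs <;> omega
  · intro m hm
    rw [mem_Icc] at hm
    by_cases h1 : m ≤ n
    · simp only [h1, if_true]; rw [if_neg (by omega), one_mul]
    · simp only [h1, if_false]; rw [if_pos (by omega)]

/-- The cyclic window step. -/
theorem cyc_step {h : ℕ → ℂ} {α : ℕ → ℝ} {x : ℂ} {θ : ℝ} (n : ℕ) (hx : HA x θ) (hθ : θ < π)
    (hh : ∀ m ≤ n, HA (h m) (α m)) (hα : ∀ k l, k ≤ l → l ≤ n → α k ≤ α l)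
    (hs : α n ≤ α 0 + θ) :
    ∃ γ : ℕ → ℝ, (∀ k ≤ n + 1, HA (∑ m ∈ range (n + 1), (if m < k then x else 1) * h m) (γ k)) ∧
      (∀ k l, k ≤ l → l ≤ n + 1 → γ k ≤ γ l) ∧ γ (n + 1) = γ 0 + θ ∧ α 0 ≤ γ 0 ∧ γ 0 ≤ α n := by
  have pi0 := Real.pi_pos
  have h0 : 0 ≤ θ := by linarith [hα 0 n (by omega) le_rfl]
  obtain ⟨γ, h1, h2⟩ := win_chain (M := 2 * n + 2)
    (u := fun m => if m ≤ n then h m else x * h (m - (n + 1)))
    (β := fun m => if m ≤ n then α m else θ + α (m - (n + 1)))
    (fun k hk => by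
      split_ifs with h3
      · exact hh k h3
      · exact hx.mul (hh _ (by omega)))
    (fun k l hkl hl => by
      split_ifs with h3 h4 h4
      · exact hα k l hkl h4
      · linarith [hα k n h3 le_rfl, hα 0 (l - (n + 1)) (by omega) (by omega)]
      · omega
      · linarith [hα (k - (n + 1)) (l - (n + 1)) (by omega) (by omega)])
    (n + 2) (fun k => k) (fun k => k + n) (fun _ _ => by omega) (fun _ _ => by omega)
    (fun k hk => by
      split_ifs with h3 h4 h4
      · linarith [hα (k + n) n h3 le_rfl, hα 0 k (by omega) h4]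
      · omega
      · linarith [hα (k + n - (n + 1)) k (by omega) h4]
      · have : k = n + 1 := by omega
        subst this
        rw [show n + 1 + n - (n + 1) = n by omega, Nat.sub_self]; linarith)
    (fun _ _ h _ => h) (fun _ _ h _ => by omega)
  have h3 : ∀ k ≤ n + 1, HA (∑ m ∈ range (n + 1), (if m < k then x else 1) * h m) (γ k) :=
    fun k hk => by rw [cyc_sum h x n k hk]; exact (h1 k (by omega)).1
  have a0 := (h1 0 (by omega)).2
  have a1 := (h1 (n + 1) (by omega)).2
  simp only [Nat.zero_le, if_true, zero_add, le_refl] at a0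
  rw [if_neg (by omega), if_neg (by omega), show n + 1 + n - (n + 1) = n by omega,
    Nat.sub_self] at a1
  refine ⟨γ, h3, fun k l hkl hl => h2 k l hkl (by omega), ?_, a0.1, a0.2⟩
  have b := hx.mul (h3 0 (by omega))
  have e : x * ∑ m ∈ range (n + 1), (if m < 0 then x else 1) * h m =
      ∑ m ∈ range (n + 1), (if m < n + 1 then x else 1) * h m := by
    rw [mul_sum]
    refine sum_congr rfl fun m hm => ?_
    rw [if_neg (by omega), if_pos (mem_range.1 hm), one_mul]
  rw [e] at b
  rw [(h3 (n + 1) le_rfl).unique b (by linarith) (by linarith), add_comm]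

end H13Cone
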