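import Mathlib

set_option autoImplicit false

namespace Pool.Agent.Lib.H13Zc

open Finset

theorem support_line (h : ℕ → ℝ) {k l j : ℕ} (hk : k ≤ j) (hl : j < l)
    (hc : ∀ i, k ≤ i → i + 2 ≤ l → 0 ≤ h i + h (i + 2) - 2 * h (i + 1)) (i : ℕ) (h1 : k ≤ i)
    (h2 : i ≤ l) : h j + (h (j + 1) - h j) * (i - j) ≤ h i := by
  have mono : ∀ a, k ≤ a → ∀ b, a ≤ b → b < l → h (a + 1) - h a ≤ h (b + 1) - h b := by
    intro a ha b hab
    induction b, hab using Nat.le_induction with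
    | base => exact fun _ => le_rfl
    | succ b hab ih =>
      intro hb
      have := ih (by omega)
      have := hc b (by omega) (by omega)
      linarith
  rcases le_total j i with hji | hij
  · induction i, hji using Nat.le_induction with
    | base => simp
    | succ i hji ih =>
      have := ih (by omega) (by omega)
      have := mono j hk i hji (by omega)
      push_cast
      linarith
  · obtain ⟨t, rfl⟩ := Nat.exists_eq_add_of_le hij
    clear hij hk
    induction t generalizing i with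
    | zero => simp
    | succ t ih =>
      have e : i + (t + 1) = i + 1 + t := by omega
      rw [e] at hl ⊢
      have h3 := ih (i + 1) (by omega) (by omega) hl
      have h4 := mono i h1 (i + 1 + t) (by omega) hl
      push_cast at h3 ⊢
      linarith

theorem chord (f : ℕ → ℝ) (c : ℝ) {k l j : ℕ} (hk : k ≤ j) (hl : j < l)
    (h : ∀ i, k ≤ i → i + 2 ≤ l → -c ≤ f i + f (i + 2) - 2 * f (i + 1)) :
    ((l : ℝ) - k) * f j ≤ (l - j) * f k + (j - k) * f l + c / 2 * ((j - k) * (l - j) * (l - k)) := by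
  have key := support_line (fun i => f i + c / 2 * (i : ℝ) ^ 2) hk hl fun i h1 h2 => by
    have := h i h1 h2
    push_cast
    linarith
  have h1 := key k le_rfl (by omega)
  have h2 := key l (by omega) le_rfl
  have h3 : (0 : ℝ) ≤ j - k := sub_nonneg.2 (by exact_mod_cast hk)
  have h4 : (0 : ℝ) ≤ l - j := sub_nonneg.2 (by exact_mod_cast hl.le)
  have := add_le_add (mul_le_mul_of_nonneg_left h1 h4) (mul_le_mul_of_nonneg_left h2 h3)
  linarith

theorem dominant (t : ℕ → ℝ) (k N : ℕ) (hN : k < N) (hk : t k ≠ 0)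
    (h1 : ∀ j < k, |t j| ≤ (3 / 10) ^ (k - j) * |t k|)
    (h2 : ∀ i, |t (k + 1 + i)| ≤ (3 / 10) ^ (i + 1) * |t k|) :
    0 < t k * ∑ j ∈ range N, t j := by
  obtain ⟨n, rfl⟩ : ∃ n, N = k + 1 + n := ⟨N - (k + 1), by omega⟩
  have g1 : ∀ k : ℕ, ∑ j ∈ range k, (3 / 10 : ℝ) ^ (k - j) ≤ 3 / 7 := fun k => by
    induction k with
    | zero => norm_num
    | succ k ih =>
      rw [sum_range_succ, sum_congr rfl fun j hj => by
        rw [Nat.sub_add_comm (mem_range.1 hj).le, pow_succ], ← sum_mul]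
      simp only [add_tsub_cancel_left, pow_one]
      linarith
  have g2 : ∑ i ∈ range n, (3 / 10 : ℝ) ^ (i + 1) ≤ 3 / 7 := by
    rw [← sum_range_reflect]
    refine le_of_eq_of_le (sum_congr rfl fun j hj => ?_) (g1 n)
    have := mem_range.1 hj
    congr 1
    omega
  have b1 : |∑ j ∈ range k, t j| ≤ 3 / 7 * |t k| :=
    (abs_sum_le_sum_abs _ _).trans ((sum_le_sum fun j hj => h1 j (mem_range.1 hj)).trans
      (by rw [← sum_mul]; exact mul_le_mul_of_nonneg_right (g1 k) (abs_nonneg _)))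
  have b2 : |∑ i ∈ range n, t (k + 1 + i)| ≤ 3 / 7 * |t k| :=
    (abs_sum_le_sum_abs _ _).trans ((sum_le_sum fun j _ => h2 j).trans
      (by rw [← sum_mul]; exact mul_le_mul_of_nonneg_right g2 (abs_nonneg _)))
  rw [sum_range_add, sum_range_succ]
  rw [abs_le] at b1 b2
  rcases lt_or_gt_of_ne hk with h | h
  · rw [abs_of_neg h] at b1 b2
    nlinarith
  · rw [abs_of_pos h] at b1 b2
    nlinarith

theorem log_sum_ge (S : Finset ℕ) (x : ℕ → ℝ) (t : ℕ → ℕ) (ht : Set.InjOn t S)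
    (hx : ∀ i ∈ S, (t i : ℝ) + 3 / 2 ≤ x i) :
    -Real.log 3 ≤ ∑ i ∈ S, Real.log (1 - 1 / x i ^ 2) := by
  let w : ℕ → ℝ := fun n => Real.log (1 - 1 / ((n : ℝ) + 3 / 2) ^ 2)
  have hp : ∀ n : ℕ, 0 < 1 - 1 / ((n : ℝ) + 3 / 2) ^ 2 := fun n => by
    have : (0 : ℝ) ≤ n := n.cast_nonneg
    rw [sub_pos, div_lt_one (by positivity)]
    nlinarith
  have hw : ∀ N : ℕ, ∑ n ∈ range N, w n = Real.log ((2 * N + 3) / (3 * (2 * N + 1))) := fun N => by
    induction N with
    | zero => simp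
    | succ N ih =>
      rw [sum_range_succ, ih, ← Real.log_mul (by positivity) (hp N).ne']
      congr 1
      push_cast
      field_simp
      ring
  obtain ⟨N, hN⟩ := (S.image t).exists_nat_subset_range
  calc -Real.log 3 ≤ ∑ n ∈ range N, w n := by
        rw [hw, ← Real.log_inv]
        refine Real.log_le_log (by norm_num) ?_
        rw [inv_eq_one_div, div_le_div_iff₀ (by norm_num) (by positivity)]
        linarith
    _ ≤ ∑ n ∈ S.image t, w n := sum_le_sum_of_subset_of_nonpos' hN fun n _ _ =>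
        Real.log_nonpos (hp n).le (sub_le_self _ (by positivity))
    _ = ∑ i ∈ S, w (t i) := sum_image ht
    _ ≤ _ := sum_le_sum fun i hi => by
        refine Real.log_le_log (hp _) (sub_le_sub_left ?_ _)
        have := hx i hi
        gcongr

theorem hull (A : Finset ℕ) (hA : A.Nonempty) (u : ℕ → ℝ) :
    ∃ (m : ℕ) (κ : ℕ → ℕ), (∀ i < m, κ i < κ (i + 1)) ∧
      (∀ i ≤ m, κ i ∈ A ∧ ∃ s : ℝ, ∀ j ∈ A, u j + s * j ≤ u (κ i) + s * κ i) ∧
      (∀ j ∈ A, κ 0 ≤ j ∧ j ≤ κ m) ∧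
      ∀ i < m, ∀ j ∈ A, κ i < j → j < κ (i + 1) → ((κ (i + 1) : ℝ) - κ i) * u j ≤
        (κ (i + 1) - j) * u (κ i) + (j - κ i) * u (κ (i + 1)) := by
  classical
  let P : ℕ → Prop := fun k => k ∈ A ∧ ∃ s : ℝ, ∀ j ∈ A, u j + s * j ≤ u k + s * k
  have hf : (Set.ofPred P).Finite := A.finite_toSet.subset fun k hk => hk.1
  have hb : ∀ k, ∀ j ∈ A, |u j - u k| ≤ ∑ j ∈ A, |u j - u k| := fun k j hj =>
    single_le_sum (f := fun j => |u j - u k|) (fun _ _ => abs_nonneg _) hj
  have hmin : P (A.min' hA) := ⟨min'_mem _ _, -∑ j ∈ A, |u j - u (A.min' hA)|, fun j hj => by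
    rcases (min'_le A j hj).eq_or_lt with e | e
    · rw [← e]
    · have h1 := (le_abs_self _).trans (hb (A.min' hA) j hj)
      have h2 := (abs_nonneg _).trans (hb (A.min' hA) j hj)
      have h3 : (A.min' hA : ℝ) + 1 ≤ j := by exact_mod_cast e
      nlinarith⟩
  have hmax : P (A.max' hA) := ⟨max'_mem _ _, ∑ j ∈ A, |u j - u (A.max' hA)|, fun j hj => by
    rcases (le_max' A j hj).eq_or_lt with e | e
    · rw [← e]
    · have h1 := (le_abs_self _).trans (hb (A.max' hA) j hj)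
      have h2 := (abs_nonneg _).trans (hb (A.max' hA) j hj)
      have h3 : (j : ℝ) + 1 ≤ A.max' hA := by exact_mod_cast e
      nlinarith⟩
  obtain ⟨m, hm⟩ : ∃ m, hf.toFinset.card = m + 1 := Nat.exists_eq_succ_of_ne_zero
    (card_ne_zero.2 ⟨_, hf.mem_toFinset.2 hmin⟩)
  have hlt : ∀ a b, a < b → b ≤ m → Nat.nth P a < Nat.nth P b := fun a b hab hb =>
    Nat.nth_lt_nth_of_lt_card hf hab (by omega)
  have hle : ∀ a b, a ≤ b → b ≤ m → Nat.nth P a ≤ Nat.nth P b := fun a b hab hb => by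
    rcases hab.eq_or_lt with rfl | h
    exacts [le_rfl, (hlt a b h hb).le]
  have hP : ∀ i ≤ m, P (Nat.nth P i) := fun i hi => Nat.nth_mem_of_lt_card hf (by omega)
  have hex : ∀ k, P k → ∃ i ≤ m, Nat.nth P i = k := fun k hk => by
    obtain ⟨i, hi, e⟩ := Nat.exists_lt_card_finite_nth_eq hf hk
    exact ⟨i, by omega, e⟩
  refine ⟨m, Nat.nth P, fun i hi => hlt _ _ (by omega) hi, hP, fun j hj => ⟨?_, ?_⟩,
    fun i hi j hj h1 h2 => ?_⟩
  · obtain ⟨i, hi, e⟩ := hex _ hmin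
    exact (hle 0 i (by omega) hi).trans (e ▸ min'_le A j hj)
  · obtain ⟨i, hi, e⟩ := hex _ hmax
    exact (le_max' A j hj).trans (e ▸ hle i m hi le_rfl)
  by_contra hcon
  obtain ⟨hkA, sk, hsk⟩ := hP i hi.le
  obtain ⟨hlA, sl, hsl⟩ := hP (i + 1) hi
  have hkl := hlt i (i + 1) (by omega) hi
  have hcons : ∀ j, P j → j ≤ Nat.nth P i ∨ Nat.nth P (i + 1) ≤ j := fun j hj => by
    obtain ⟨a, ha, rfl⟩ := hex j hj
    rcases le_or_gt a i with h | h
    exacts [Or.inl (hle _ _ h hi.le), Or.inr (hle _ _ h ha)]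
  generalize Nat.nth P i = k at *
  generalize Nat.nth P (i + 1) = l at *
  have hkl' : (0 : ℝ) < l - k := sub_pos.2 (by exact_mod_cast hkl)
  obtain ⟨s, hs⟩ : ∃ s : ℝ, u l + s * l = u k + s * k :=
    ⟨(u k - u l) / (l - k), by field_simp; ring⟩
  obtain ⟨j', hj'A, hj'⟩ := exists_max_image A (fun j => u j + s * j) hA
  have h3 : u k + s * k < u j' + s * j' := by
    refine lt_of_lt_of_le ?_ (hj' j hj)
    have : u l = u k + s * k - s * l := by linarith
    rw [this] at hcon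
    nlinarith
  have h4 := hsk l hlA
  have h5 := hsl k hkA
  rcases hcons j' ⟨hj'A, s, hj'⟩ with h | h
  · have h6 := hsk j' hj'A
    have h7 : (j' : ℝ) ≤ k := by exact_mod_cast h
    have h8 : sk ≤ s := by nlinarith
    nlinarith
  · have h6 := hsl j' hj'A
    have h7 : (l : ℝ) ≤ j' := by exact_mod_cast h
    have h8 : s ≤ sl := by nlinarith
    nlinarith

end Pool.Agent.Lib.H13Zc
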