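import Mathlib

set_option autoImplicit false

namespace Pool.Agent.Lib.H13Zc

open Polynomial

/-- The number of non-real zeros, counted with multiplicity. -/
noncomputable def Zc (f : ℝ[X]) : ℕ :=
  ((f.map (algebraMap ℝ ℂ)).roots.filter fun z : ℂ => z.im ≠ 0).card

/-- The action of a real sequence on polynomials: `a_k x^k` goes to `γ_k a_k x^k`. -/
noncomputable def act (γ : ℕ → ℝ) (f : ℝ[X]) : ℝ[X] := f.sum fun k a => monomial k (γ k * a)

/-- Complex zero decreasing sequences. -/
def IsCZDS (γ : ℕ → ℝ) : Prop := ∀ f : ℝ[X], Zc (act γ f) ≤ Zc f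

theorem coeff_act (γ : ℕ → ℝ) (f : ℝ[X]) (k : ℕ) : (act γ f).coeff k = γ k * f.coeff k := by
  simp only [act, Polynomial.sum, finsetSum_coeff, coeff_monomial, Finset.sum_ite_eq', mem_support_iff]
  split_ifs with h
  · rfl
  · rw [not_not.1 h, mul_zero]

theorem Zc_add (f : ℝ[X]) : Zc f + f.roots.card = f.natDegree := by
  classical
  have h1 : (f.map (algebraMap ℝ ℂ)).roots.filter (fun z : ℂ => ¬ z.im ≠ 0) =
      f.roots.map (algebraMap ℝ ℂ) := by
    ext z
    rw [Multiset.count_filter]
    by_cases hz : ¬ z.im ≠ 0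
    · rw [if_pos hz]
      obtain ⟨x, rfl⟩ : ∃ x : ℝ, z = algebraMap ℝ ℂ x :=
        ⟨z.re, Complex.ext rfl (not_not.1 hz)⟩
      rw [Multiset.count_map_eq_count' _ _ (algebraMap ℝ ℂ).injective, count_roots, count_roots,
        eq_rootMultiplicity_map (algebraMap ℝ ℂ).injective]
    · rw [if_neg hz, eq_comm, Multiset.count_eq_zero, Multiset.mem_map]
      rintro ⟨x, -, rfl⟩
      exact hz (by simp)
  have h2 := congrArg Multiset.card
    (Multiset.filter_add_not (fun z : ℂ => z.im ≠ 0) (f.map (algebraMap ℝ ℂ)).roots)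
  rw [Multiset.card_add, h1, Multiset.card_map,
    IsAlgClosed.card_roots_eq_natDegree (k := ℂ), natDegree_map] at h2
  exact h2

theorem natDegree_act {γ : ℕ → ℝ} (h : ∀ k, γ k ≠ 0) (f : ℝ[X]) :
    (act γ f).natDegree = f.natDegree := by
  have : (act γ f).support = f.support := by
    ext k; simp [coeff_act, h k]
  exact natDegree_eq_of_degree_eq (by rw [degree, degree, this])

end Pool.Agent.Lib.H13Zc
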