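import Mathlib
import Pool.Agent.Lib.helper13.Zc

set_option autoImplicit false

namespace Pool.Agent.Lib.H13Zc

open Polynomial

/-- The positive roots. -/
noncomputable def posRoots (p : ℝ[X]) : Multiset ℝ := p.roots.filter fun x => 0 < x

theorem mem_posRoots {p : ℝ[X]} {x : ℝ} : x ∈ posRoots p ↔ p ≠ 0 ∧ p.eval x = 0 ∧ 0 < x := by
  simp [posRoots, and_assoc]

theorem count_posRoots (p : ℝ[X]) {x : ℝ} (hx : 0 < x) :
    (posRoots p).count x = p.rootMultiplicity x := by
  rw [posRoots, Multiset.count_filter_of_pos hx, count_roots]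

theorem act_act (f g : ℕ → ℝ) (p : ℝ[X]) : act f (act g p) = act (fun j => f j * g j) p := by
  ext k; simp [coeff_act, mul_assoc]

theorem act_sub (c : ℝ) (p : ℝ[X]) :
    act (fun j => (j : ℝ) - c) p = X * derivative p - C c * p := by
  ext k
  rcases k with _ | k
  · simp [coeff_act]
  · simp [coeff_act, coeff_X_mul, coeff_derivative]; ring

theorem card_posRoots_le_act (c : ℝ) (p : ℝ[X]) (h : act (fun j => (j : ℝ) - c) p ≠ 0) :
    (posRoots p).card ≤ (posRoots (act (fun j => (j : ℝ) - c) p)).card + 1 := by
  classical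
  rw [act_sub] at h ⊢
  set q := X * derivative p - C c * p with hq
  have h1 : (posRoots p).toFinset.card ≤
      ((posRoots q).toFinset \ (posRoots p).toFinset).card + 1 := by
    refine Finset.card_le_sdiff_of_interleaved fun x hx y hy hxy _ => ?_
    rw [Multiset.mem_toFinset, mem_posRoots] at hx hy
    have hd : ∀ z ∈ Set.Icc x y, HasDerivAt (fun z : ℝ => z ^ (-c) * p.eval z)
        (-c * z ^ (-c - 1) * p.eval z + z ^ (-c) * p.derivative.eval z) z := fun z hz =>
      (Real.hasDerivAt_rpow_const (Or.inl (hx.2.2.trans_le hz.1).ne')).mul (p.hasDerivAt z)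
    obtain ⟨z, hz1, hz2⟩ := exists_hasDerivAt_eq_zero hxy
      (fun z hz => (hd z hz).continuousAt.continuousWithinAt)
      (by simp only [hx.2.1, hy.2.1, mul_zero]) fun z hz => hd z (Set.Ioo_subset_Icc_self hz)
    have hz0 : 0 < z := hx.2.2.trans hz1.1
    refine ⟨z, ?_, hz1⟩
    rw [Multiset.mem_toFinset, mem_posRoots]
    refine ⟨h, ?_, hz0⟩
    have e : z ^ (-c) = z ^ (-c - 1) * z := by
      rw [← Real.rpow_add_one hz0.ne', sub_add_cancel]
    rw [e] at hz2
    refine mul_left_cancel₀ (Real.rpow_pos_of_pos hz0 (-c - 1)).ne' ?_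
    simp only [hq, eval_sub, eval_mul, eval_X, eval_C]
    linear_combination hz2
  have h2 : ∀ x, p.rootMultiplicity x - 1 ≤ q.rootMultiplicity x := fun x => by
    rw [le_rootMultiplicity_iff h]
    refine dvd_sub (Dvd.dvd.mul_left ?_ _) (Dvd.dvd.mul_left ?_ _)
    · exact (pow_dvd_pow _ (rootMultiplicity_sub_one_le_derivative_rootMultiplicity p x)).trans
        (pow_rootMultiplicity_dvd _ _)
    · exact (pow_dvd_pow _ (Nat.sub_le _ _)).trans (pow_rootMultiplicity_dvd _ _)
  have hpos : ∀ {r : ℝ[X]} {x}, x ∈ (posRoots r).toFinset → 0 < x := fun hx =>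
    (mem_posRoots.1 (Multiset.mem_toFinset.1 hx)).2.2
  calc (posRoots p).card = ∑ x ∈ (posRoots p).toFinset, (posRoots p).count x :=
        (Multiset.toFinset_sum_count_eq _).symm
    _ ≤ ∑ x ∈ (posRoots p).toFinset, ((posRoots q).count x + 1) :=
        Finset.sum_le_sum fun x hx => by
          rw [count_posRoots _ (hpos hx), count_posRoots _ (hpos hx)]
          have := h2 x
          omega
    _ = ∑ x ∈ (posRoots p).toFinset, (posRoots q).count x + (posRoots p).toFinset.card := by
        simp only [Finset.sum_add_distrib, Finset.card_eq_sum_ones]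
    _ ≤ ∑ x ∈ (posRoots p).toFinset, (posRoots q).count x +
          (∑ x ∈ (posRoots q).toFinset \ (posRoots p).toFinset, (posRoots q).count x + 1) := by
        refine Nat.add_le_add_left (h1.trans (Nat.add_le_add_right ?_ _)) _
        rw [Finset.card_eq_sum_ones]
        exact Finset.sum_le_sum fun x hx =>
          Multiset.count_pos.2 (Multiset.mem_toFinset.1 (Finset.mem_sdiff.1 hx).1)
    _ = (posRoots q).card + 1 := by
        rw [← add_assoc, ← Finset.sum_union Finset.disjoint_sdiff,
          Finset.union_sdiff_self_eq_union, ← Multiset.toFinset_sum_count_eq,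
          ← Finset.sum_subset Finset.subset_union_right]
        intro x _ hx₂
        simpa only [Multiset.mem_toFinset, Multiset.count_eq_zero] using hx₂

theorem card_posRoots_le_prod (c : ℕ → ℝ) (p : ℝ[X]) (S : Finset ℕ)
    (h : act (fun j => ∏ i ∈ S, ((j : ℝ) - c i)) p ≠ 0) :
    (posRoots p).card ≤ (posRoots (act (fun j => ∏ i ∈ S, ((j : ℝ) - c i)) p)).card + S.card := by
  induction S using Finset.induction_on with
  | empty =>
    have : act (fun _ => 1) p = p := by ext k; simp [coeff_act]
    simp [this]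
  | insert a S ha ih =>
    simp only [Finset.prod_insert ha, ← act_act] at h ⊢
    have h1 := card_posRoots_le_act _ _ h
    have h2 := ih fun e => h (by rw [e]; ext k; simp [coeff_act])
    rw [Finset.card_insert_of_notMem ha]
    omega

theorem act_comp_neg (γ : ℕ → ℝ) (p : ℝ[X]) : act γ (p.comp (-X)) = (act γ p).comp (-X) := by
  have key : ∀ (r : ℝ[X]) (k : ℕ), (r.comp (-X)).coeff k = r.coeff k * (-1) ^ k := fun r k => by
    rw [← comp_C_mul_X_coeff]; simp
  ext k
  rw [coeff_act, key, key, coeff_act, mul_assoc]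

theorem card_roots_eq (p : ℝ[X]) : p.roots.card =
    (posRoots p).card + (posRoots (p.comp (-X))).card + p.natTrailingDegree := by
  classical
  rw [← rootMultiplicity_eq_natTrailingDegree', ← count_roots, posRoots, posRoots,
    roots_comp_neg_X, Multiset.filter_map, Multiset.card_map]
  induction p.roots using Multiset.induction_on with
  | empty => simp
  | cons a s ih =>
    rcases lt_trichotomy a 0 with h | rfl | h
    · simp [h, h.ne', ih, h.not_gt]; omega
    · simp [ih]; omega
    · simp [h, h.ne, ih, h.not_gt]; omega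

theorem isCZDS_of_pos {γ : ℕ → ℝ} (h0 : ∀ k, γ k ≠ 0)
    (h : ∀ p : ℝ[X], (posRoots p).card ≤ (posRoots (act γ p)).card) : IsCZDS γ := fun p => by
  have h1 := Zc_add p
  have h2 := Zc_add (act γ p)
  have h3 := h p
  have h4 := h (p.comp (-X))
  have h5 : (act γ p).natTrailingDegree = p.natTrailingDegree := by
    have : (act γ p).support = p.support := by
      ext k; simp [coeff_act, h0 k]
    simp only [natTrailingDegree, trailingDegree, this]
  rw [card_roots_eq] at h1 h2
  rw [natDegree_act h0, h5] at h2
  rw [act_comp_neg] at h4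
  omega

end Pool.Agent.Lib.H13Zc
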