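import Mathlib
import Pool.Agent.Lib.helper13.CzRolle
import Pool.Agent.Lib.helper13.CzHull

set_option autoImplicit false

namespace Pool.Agent.Lib.H13Zc

open Finset Polynomial

theorem lower (q : ℝ[X]) (m : ℕ) (ρ σ : ℕ → ℝ) (hρ0 : ∀ i, 0 < ρ i)
    (hρ : ∀ i < m, ρ i < ρ (i + 1)) (hs : ∀ i ≤ m, 0 < σ i * q.eval (ρ i)) :
    ((range m).filter fun i => σ i * σ (i + 1) < 0).card ≤ (posRoots q).card := by
  classical
  have hq : q ≠ 0 := fun e => by simpa [e] using hs 0 (Nat.zero_le _)
  have hex : ∀ i, ∃ z, i < m → σ i * σ (i + 1) < 0 → z ∈ Set.Ioo (ρ i) (ρ (i + 1)) ∧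
      q.eval z = 0 := fun i => by
    by_cases h : i < m ∧ σ i * σ (i + 1) < 0
    · have h1 := hs i h.1.le
      have h2 := hs (i + 1) h.1
      obtain ⟨z, hz, hz0⟩ := intermediate_value_Ioo' (hρ i h.1).le
        (f := fun z => σ i * q.eval z) (by fun_prop) (show 0 ∈ Set.Ioo _ _ from ⟨by
          by_contra h3
          have h4 := mul_nonneg (not_lt.1 h3) h2.le
          have h5 : q.eval (ρ (i + 1)) ≠ 0 := fun e => by simp [e] at h2
          nlinarith [mul_pos (neg_pos.2 h.2) (sq_pos_of_ne_zero h5)], h1⟩)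
      exact ⟨z, fun _ _ => ⟨hz, (mul_eq_zero.1 hz0).resolve_left fun e => by simp [e] at h1⟩⟩
    · exact ⟨0, fun h1 h2 => absurd ⟨h1, h2⟩ h⟩
  choose z hz using hex
  have hmono : ∀ a b, a ≤ b → b ≤ m → ρ a ≤ ρ b := fun a b hab => by
    induction b, hab using Nat.le_induction with
    | base => exact fun _ => le_rfl
    | succ b _ ih => exact fun hb => (ih (by omega)).trans (hρ b hb).le
  refine le_trans (card_le_card_of_injOn z (fun i hi => ?_) ?_) (Multiset.toFinset_card_le _)
  · simp only [coe_filter, mem_range, Set.mem_ofPred_eq] at hi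
    exact Multiset.mem_toFinset.2 (mem_posRoots.2 ⟨hq, (hz i hi.1 hi.2).2,
      (hρ0 i).trans (hz i hi.1 hi.2).1.1⟩)
  · refine StrictMonoOn.injOn fun a ha b hb hab => ?_
    simp only [coe_filter, mem_range, Set.mem_ofPred_eq] at ha hb
    exact ((hz a ha.1 ha.2).1.2.trans_le (hmono _ _ hab hb.1.le)).trans (hz b hb.1 hb.2).1.1

theorem exp_le_of (η a b : ℝ) (hη : 0 < η) (d : ℕ) (h : a - Real.log η * d ≤ b) :
    Real.exp a ≤ η ^ d * Real.exp b := by
  rw [← Real.exp_log (pow_pos hη d), ← Real.exp_add, Real.log_pow]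
  exact Real.exp_le_exp.2 (by linarith)

theorem lower_act (γ : ℕ → ℝ) (h0 : ∀ k, 0 < γ k)
    (hγ : ∀ k, 400 * (γ k * γ (k + 2)) ≤ γ (k + 1) ^ 2) (p : ℝ[X]) (m : ℕ) (κ : ℕ → ℕ)
    (h1 : ∀ i < m, κ i < κ (i + 1))
    (h2 : ∀ i ≤ m, κ i ∈ p.support ∧ ∃ s : ℝ, ∀ j ∈ p.support,
      (Real.log |p.coeff j| - Real.log 6 * j ^ 2) + s * j ≤
        (Real.log |p.coeff (κ i)| - Real.log 6 * κ i ^ 2) + s * κ i) :
    ((range m).filter fun i => p.coeff (κ i) * p.coeff (κ (i + 1)) < 0).card ≤
      (posRoots (act γ p)).card := by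
  let v : ℕ → ℝ := fun j => Real.log (γ j) + Real.log |p.coeff j|
  have hM : Real.log (3 / 10) = Real.log 6 - Real.log 20 := by
    rw [← Real.log_div (by norm_num) (by norm_num)]; norm_num
  have hM0 : Real.log (3 / 10) < 0 := Real.log_neg (by norm_num) (by norm_num)
  have dom : ∀ i, ∃ τ : ℝ, i ≤ m → ∀ j ∈ p.support,
      v j + τ * j - Real.log (3 / 10) * ((j : ℝ) - κ i) ^ 2 ≤ v (κ i) + τ * κ i := fun i => by
    by_cases hi : i ≤ m
    · obtain ⟨-, s, hs⟩ := h2 i hi
      let h : ℕ → ℝ := fun j => -(Real.log (γ j) + Real.log 20 * j ^ 2)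
      refine ⟨s + (h (κ i + 1) - h (κ i)) - 2 * κ i * Real.log (3 / 10), fun _ j hj => ?_⟩
      have h3 := support_line h (k := 0) (l := j + κ i + 1) (j := κ i) (Nat.zero_le _) (by omega)
        (fun k _ _ => by
          have := Real.log_le_log (by have := h0 k; have := h0 (k + 2); positivity) (hγ k)
          rw [Real.log_mul (by norm_num) (mul_pos (h0 _) (h0 _)).ne', Real.log_pow,
            Real.log_mul (h0 _).ne' (h0 _).ne', show (400 : ℝ) = 20 ^ 2 by norm_num,
            Real.log_pow] at this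
          simp only [h]
          push_cast at this ⊢
          linarith) j (Nat.zero_le _) (by omega)
      have h4 := hs j hj
      generalize h (κ i + 1) - h (κ i) = σ at *
      simp only [h, v, hM] at h3 ⊢
      linarith
    · exact ⟨0, fun h => absurd h hi⟩
  choose τ hτ using dom
  refine lower _ m (fun i => Real.exp (τ i)) (fun i => p.coeff (κ i)) (fun _ => Real.exp_pos _)
    (fun i hi => Real.exp_lt_exp.2 ?_) fun i hi => ?_
  · have a1 := hτ i hi.le _ (h2 (i + 1) hi).1
    have a2 := hτ (i + 1) hi _ (h2 i hi.le).1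
    have a3 : (0 : ℝ) < κ (i + 1) - κ i := sub_pos.2 (by exact_mod_cast h1 i hi)
    nlinarith [mul_pos (neg_pos.2 hM0) (pow_pos a3 2)]
  · have hk := mem_support_iff.1 (h2 i hi).1
    let t : ℕ → ℝ := fun j => γ j * p.coeff j * Real.exp (τ i) ^ j
    have ht : ∀ j ∈ p.support, |t j| = Real.exp (v j + τ i * j) := fun j hj => by
      rw [Real.exp_add, Real.exp_add, Real.exp_log (h0 j),
        Real.exp_log (abs_pos.2 (mem_support_iff.1 hj)), mul_comm (τ i), Real.exp_nat_mul]
      simp only [t, abs_mul, abs_pow, abs_of_pos (h0 j), abs_of_pos (Real.exp_pos _)]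
    have hb : ∀ j d : ℕ, ((j : ℝ) - κ i) ^ 2 = d ^ 2 → |t j| ≤ (3 / 10) ^ d * |t (κ i)| :=
      fun j d hd => by
        by_cases hj : j ∈ p.support
        · rw [ht j hj, ht _ (h2 i hi).1]
          refine exp_le_of _ _ _ (by norm_num) d (le_trans ?_ (hτ i hi j hj))
          have : (d : ℝ) ≤ d ^ 2 := by exact_mod_cast Nat.le_self_pow two_ne_zero d
          rw [hd]
          nlinarith
        · simp only [t, notMem_support_iff.1 hj, mul_zero, zero_mul, abs_zero]
          positivity
    have h3 := dominant t (κ i) (p.natDegree + 1)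
      (Nat.lt_succ_of_le (le_natDegree_of_ne_zero hk))
      (mul_ne_zero (mul_ne_zero (h0 _).ne' hk) (by positivity))
      (fun j hj => hb j _ (by rw [Nat.cast_sub hj.le]; ring))
      (fun j => hb _ _ (by push_cast; ring))
    rw [eval_eq_sum_range, natDegree_act fun k => (h0 k).ne']
    simp only [coeff_act]
    refine (mul_pos_iff_of_pos_left (a := γ (κ i) * Real.exp (τ i) ^ κ i)
      (mul_pos (h0 _) (by positivity))).1 ?_
    calc 0 < _ := h3
      _ = _ := by simp only [t]; ring

theorem kappa_gap {m : ℕ} {κ : ℕ → ℕ} (h1 : ∀ i < m, κ i < κ (i + 1)) (a b : ℕ) (hab : a ≤ b)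
    (hb : b ≤ m) : κ a + (b - a) ≤ κ b := by
  induction b, hab using Nat.le_induction with
  | base => simp
  | succ b hab ih =>
    have := ih (by omega)
    have := h1 b hb
    omega

theorem gap_sum (b : ℕ → ℝ) {k l : ℕ} (B : ℝ) (hB : 0 ≤ B)
    (h : ∀ j, k < j → j < l → |b j| ≤ (1 / 2) ^ (l - k - 1) * B) :
    -(B / 2) ≤ ∑ j ∈ Ico (k + 1) l, b j := by
  have h1 : |∑ j ∈ Ico (k + 1) l, b j| ≤ (l - k - 1 : ℕ) * ((1 / 2) ^ (l - k - 1) * B) := by
    refine (abs_sum_le_sum_abs _ _).trans ((sum_le_card_nsmul _ _ _ fun j hj =>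
      h j (mem_Ico.1 hj).1 (mem_Ico.1 hj).2).trans (le_of_eq ?_))
    rw [Nat.card_Ico, nsmul_eq_mul, Nat.sub_sub]
  have h2 : ∀ n : ℕ, (n : ℝ) * (1 / 2) ^ n ≤ 1 / 2 := fun n => by
    rcases n with _ | n
    · norm_num
    · have : ((n + 1 : ℕ) : ℝ) ≤ 2 ^ n := by exact_mod_cast Nat.lt_two_pow_self
      rw [one_div_pow, mul_one_div, div_le_iff₀ (by positivity), pow_succ]
      linarith
  have h3 := mul_le_mul_of_nonneg_right (h2 (l - k - 1)) hB
  have := (abs_le.1 h1).1
  linarith

theorem upper (p : ℝ[X]) (m : ℕ) (κ : ℕ → ℕ) (h1 : ∀ i < m, κ i < κ (i + 1))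
    (h2 : ∀ i ≤ m, κ i ∈ p.support) (h3 : ∀ j ∈ p.support, κ 0 ≤ j ∧ j ≤ κ m)
    (h4 : ∀ i < m, ∀ j ∈ p.support, κ i < j → j < κ (i + 1) →
      ((κ (i + 1) : ℝ) - κ i) * (Real.log |p.coeff j| - Real.log 6 * j ^ 2) ≤
        (κ (i + 1) - j) * (Real.log |p.coeff (κ i)| - Real.log 6 * κ i ^ 2) +
        (j - κ i) * (Real.log |p.coeff (κ (i + 1))| - Real.log 6 * κ (i + 1) ^ 2)) :
    (posRoots p).card ≤
      ((range m).filter fun i => p.coeff (κ i) * p.coeff (κ (i + 1)) < 0).card := by
  classical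
  set S := (range m).filter fun i => p.coeff (κ i) * p.coeff (κ (i + 1)) < 0 with hS
  have hSm : ∀ i ∈ S, i < m := fun i hi => mem_range.1 (mem_filter.1 hi).1
  let c : ℕ → ℝ := fun i => ((κ i : ℝ) + κ (i + 1)) / 2
  let μ : ℕ → ℝ := fun j => ∏ i ∈ S, ((j : ℝ) - c i)
  have hl : ∀ i' i, i' < i → i ≤ m → c i' + (i - 1 - i' : ℕ) + 1 / 2 ≤ κ i := fun i' i h hi => by
    have a1 : ((κ i' + 1 : ℕ) : ℝ) ≤ κ (i' + 1) := by exact_mod_cast h1 i' (by omega)
    have a2 : ((κ (i' + 1) + (i - 1 - i' : ℕ) : ℕ) : ℝ) ≤ κ i := by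
      have := kappa_gap h1 (i' + 1) i h hi
      exact_mod_cast (by omega : κ (i' + 1) + (i - 1 - i') ≤ κ i)
    simp only [c]
    push_cast at a1 a2
    linarith
  have hr : ∀ i i', i ≤ i' → i' < m → (κ i : ℝ) + (i' - i : ℕ) + 1 / 2 ≤ c i' :=
    fun i i' h hi => by
    have a1 : ((κ i' + 1 : ℕ) : ℝ) ≤ κ (i' + 1) := by exact_mod_cast h1 i' hi
    have a2 : ((κ i + (i' - i : ℕ) : ℕ) : ℝ) ≤ κ i' := by
      exact_mod_cast kappa_gap h1 i i' h hi.le
    simp only [c]
    push_cast at a1 a2
    linarith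
  have hout : ∀ i < m, ∀ i' ∈ S.erase i, c i' + 1 / 2 ≤ κ i ∨ κ (i + 1) + 1 / 2 ≤ c i' :=
    fun i hi i' hi' => by
      rcases lt_or_gt_of_ne (mem_erase.1 hi').1 with h | h
      · have := hl i' i h hi.le
        have : (0 : ℝ) ≤ (i - 1 - i' : ℕ) := Nat.cast_nonneg _
        left; linarith
      · have := hr (i + 1) i' h (hSm _ (mem_erase.1 hi').2)
        have : (0 : ℝ) ≤ (i' - (i + 1) : ℕ) := Nat.cast_nonneg _
        right; linarith
  have hsplit : ∀ i j : ℕ, μ j = (if i ∈ S then (j : ℝ) - c i else 1) *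
      ∏ i' ∈ S.erase i, ((j : ℝ) - c i') := fun i j => by
    split_ifs with h
    · exact (mul_prod_erase S (fun i => (j : ℝ) - c i) h).symm
    · rw [erase_eq_of_notMem h, one_mul]
  have hlt : ∀ i < m, (κ i : ℝ) < κ (i + 1) := fun i hi => by exact_mod_cast h1 i hi
  have hsign : ∀ i < m, 0 < (μ (κ i) * p.coeff (κ i)) * (μ (κ (i + 1)) * p.coeff (κ (i + 1))) :=
    fun i hi => by
      have a1 : 0 < (∏ i' ∈ S.erase i, ((κ i : ℝ) - c i')) *
          ∏ i' ∈ S.erase i, ((κ (i + 1) : ℝ) - c i') := by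
        rw [← prod_mul_distrib]
        refine prod_pos fun i' hi' => ?_
        have := hlt i hi
        rcases hout i hi i' hi' with h | h
        · exact mul_pos (by linarith) (by linarith)
        · exact mul_pos_of_neg_of_neg (by linarith) (by linarith)
      rw [hsplit i, hsplit i]
      split_ifs with h
      · have a2 := (mem_filter.1 h).2
        have a3 : ((κ i : ℝ) - c i) * (κ (i + 1) - c i) < 0 :=
          mul_neg_of_neg_of_pos (by have := hlt i hi; simp only [c]; linarith)
            (by have := hlt i hi; simp only [c]; linarith)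
        linarith [mul_pos (mul_pos_of_neg_of_neg a2 a3) a1]
      · have a2 : 0 < p.coeff (κ i) * p.coeff (κ (i + 1)) := lt_of_le_of_ne
          (not_lt.1 fun h' => h (mem_filter.2 ⟨mem_range.2 hi, h'⟩))
          (mul_ne_zero (mem_support_iff.1 (h2 i hi.le)) (mem_support_iff.1 (h2 _ hi))).symm
        linarith [mul_pos a2 a1]
  have hμ0 : μ (κ 0) * p.coeff (κ 0) ≠ 0 := mul_ne_zero (prod_ne_zero_iff.2 fun i hi => by
    have := hr 0 i (Nat.zero_le _) (hSm i hi)
    have : (0 : ℝ) ≤ (i - 0 : ℕ) := Nat.cast_nonneg _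
    linarith [show (κ 0 : ℝ) - c i < 0 by linarith] |> ne_of_lt)
    (mem_support_iff.1 (h2 0 (Nat.zero_le _)))
  set ε := μ (κ 0) * p.coeff (κ 0) with hε
  have hsame : ∀ i ≤ m, 0 < ε * (μ (κ i) * p.coeff (κ i)) := fun i => by
    induction i with
    | zero => exact fun _ => mul_self_pos.2 hμ0
    | succ i ih =>
      intro hi
      have a1 := ih (by omega)
      have a2 := hsign i hi
      have a3 : 0 < (μ (κ i) * p.coeff (κ i)) ^ 2 :=
        sq_pos_of_ne_zero fun e => by simp [e] at a1
      exact (mul_pos_iff_of_pos_left a3).1 (by linarith [mul_pos a1 a2])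
  have hpos : ∀ x : ℝ, 0 < x → 0 < ε * (act μ p).eval x := fun x hx => by
    let b : ℕ → ℝ := fun j => ε * (μ j * p.coeff j) * x ^ j
    have hb : ∀ i ≤ m, 0 < b (κ i) := fun i hi => mul_pos (hsame i hi) (pow_pos hx _)
    have hgap : ∀ i < m, ∀ j, κ i < j → j < κ (i + 1) →
        |b j| ≤ (1 / 2) ^ (κ (i + 1) - κ i - 1) * (b (κ i) + b (κ (i + 1))) := by
      intro i hi j hj1 hj2
      by_cases hj : j ∈ p.support
      swap
      · simp only [b, notMem_support_iff.1 hj, mul_zero, zero_mul, abs_zero]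
        exact mul_nonneg (by positivity) (add_pos (hb i hi.le) (hb _ hi)).le
      let Ψ : ℕ → ℝ := fun j => ∑ i' ∈ S.erase i, Real.log |(j : ℝ) - c i'|
      let U : ℕ → ℝ := fun j => Real.log |p.coeff j| + Ψ j + j * Real.log x
      have hne : ∀ j : ℕ, κ i ≤ j → j ≤ κ (i + 1) → ∀ i' ∈ S.erase i, (j : ℝ) - c i' ≠ 0 :=
        fun j a1 a2 i' hi' => by
          have a1 : (κ i : ℝ) ≤ j := by exact_mod_cast a1
          have a2 : (j : ℝ) ≤ κ (i + 1) := by exact_mod_cast a2
          rcases hout i hi i' hi' with h | h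
          · exact ne_of_gt (by linarith)
          · exact ne_of_lt (by linarith)
      have hU : ∀ j ∈ p.support, κ i ≤ j → j ≤ κ (i + 1) →
          |b j| = |ε| * |if i ∈ S then (j : ℝ) - c i else 1| * Real.exp (U j) :=
        fun j hj a1 a2 => by
          rw [Real.exp_add, Real.exp_add, Real.exp_log (abs_pos.2 (mem_support_iff.1 hj)),
            Real.exp_nat_mul, Real.exp_log hx, Real.exp_sum,
            prod_congr rfl fun i' hi' => Real.exp_log (abs_pos.2 (hne j a1 a2 i' hi'))]
          simp only [b, hsplit i j, abs_mul, abs_pow, abs_of_pos hx, abs_prod]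
          ring
      have hΨ := chord Ψ (2 * Real.log 3) hj1.le hj2 fun n a1 a2 => by
        have e : Ψ n + Ψ (n + 2) - 2 * Ψ (n + 1) =
            ∑ i' ∈ S.erase i, Real.log (1 - 1 / (((n + 1 : ℕ) : ℝ) - c i') ^ 2) := by
          simp only [Ψ, mul_sum, ← sum_add_distrib, ← sum_sub_distrib]
          refine sum_congr rfl fun i' hi' => ?_
          have n0 := hne n a1 (by omega) i' hi'
          have n1 := hne (n + 1) (by omega) (by omega) i' hi'
          have n2 := hne (n + 2) (by omega) a2 i' hi'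
          rw [Real.log_abs, Real.log_abs, Real.log_abs, ← Real.log_mul n0 n2,
            show (2 : ℝ) * Real.log (((n + 1 : ℕ) : ℝ) - c i') =
              Real.log ((((n + 1 : ℕ) : ℝ) - c i') ^ 2) by simp,
            ← Real.log_div (mul_ne_zero n0 n2) (pow_ne_zero _ n1)]
          congr 1
          field_simp
          push_cast
          ring
        have a1 : (κ i : ℝ) ≤ n := by exact_mod_cast a1
        have a2 : (n : ℝ) + 2 ≤ κ (i + 1) := by exact_mod_cast a2
        have b1 := log_sum_ge ((S.erase i).filter (· < i)) (fun i' => ((n + 1 : ℕ) : ℝ) - c i')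
          (fun i' => i - 1 - i') (fun a ha b hb hab => by
            have := (mem_filter.1 ha).2
            have := (mem_filter.1 hb).2
            simp only at hab
            omega) fun i' hi' => by
            have := hl i' i (mem_filter.1 hi').2 hi.le
            push_cast
            linarith
        have b2 := log_sum_ge ((S.erase i).filter (¬ · < i)) (fun i' => c i' - ((n + 1 : ℕ) : ℝ))
          (fun i' => i' - (i + 1)) (fun a ha b hb hab => by
            have := (mem_filter.1 ha).2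
            have := (mem_filter.1 hb).2
            have := (mem_erase.1 (mem_filter.1 ha).1).1
            have := (mem_erase.1 (mem_filter.1 hb).1).1
            simp only at hab
            omega) fun i' hi' => by
            have := (mem_filter.1 hi').2
            have := (mem_erase.1 (mem_filter.1 hi').1).1
            have := hr (i + 1) i' (by omega) (hSm _ (mem_erase.1 (mem_filter.1 hi').1).2)
            push_cast
            linarith
        rw [e, ← sum_filter_add_sum_filter_not _ (· < i)]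
        simp only [sub_sq_comm (c _)] at b2
        linarith
      have a4 := h4 i hi j hj hj1 hj2
      have r1 : (1 : ℝ) ≤ j - κ i := by
        have : ((κ i + 1 : ℕ) : ℝ) ≤ j := by exact_mod_cast hj1
        push_cast at this; linarith
      have r2 : (1 : ℝ) ≤ κ (i + 1) - j := by
        have : ((j + 1 : ℕ) : ℝ) ≤ κ (i + 1) := by exact_mod_cast hj2
        push_cast at this; linarith
      have hlog : Real.log (1 / 2) = Real.log 3 - Real.log 6 := by
        rw [← Real.log_div (by norm_num) (by norm_num)]; norm_num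
      have hlog0 : Real.log (1 / 2) < 0 := Real.log_neg (by norm_num) (by norm_num)
      have a5 : U j - Real.log (1 / 2) * (κ (i + 1) - κ i - 1 : ℕ) ≤
          max (U (κ i)) (U (κ (i + 1))) := by
        have m1 := le_max_left (U (κ i)) (U (κ (i + 1)))
        have m2 := le_max_right (U (κ i)) (U (κ (i + 1)))
        have e : ((κ (i + 1) - κ i - 1 : ℕ) : ℝ) = κ (i + 1) - κ i - 1 := by
          rw [Nat.cast_sub (by omega), Nat.cast_sub (by omega), Nat.cast_one]
        have a6 : ((κ (i + 1) : ℝ) - κ i) * U j ≤ (κ (i + 1) - j) * U (κ i) +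
            (j - κ i) * U (κ (i + 1)) + Real.log (1 / 2) *
              ((j - κ i) * (κ (i + 1) - j) * (κ (i + 1) - κ i)) := by
          simp only [U, hlog]
          linarith
        have a7 : (κ (i + 1) : ℝ) - κ i - 1 ≤ (j - κ i) * (κ (i + 1) - j) := by nlinarith
        refine le_of_mul_le_mul_left ?_ (show (0 : ℝ) < κ (i + 1) - κ i by linarith)
        have a8 := mul_le_mul_of_nonneg_left m1 (zero_le_one.trans r2)
        have a9 := mul_le_mul_of_nonneg_left m2 (zero_le_one.trans r1)
        have a10 := mul_le_mul_of_nonneg_left a7 (mul_nonneg (neg_pos.2 hlog0).le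
          (show (0 : ℝ) ≤ κ (i + 1) - κ i by linarith))
        rw [e]
        linarith
      have a6 := exp_le_of _ _ _ (by norm_num) _ a5
      have a7 : Real.exp (max (U (κ i)) (U (κ (i + 1)))) ≤
          Real.exp (U (κ i)) + Real.exp (U (κ (i + 1))) := by
        rcases max_choice (U (κ i)) (U (κ (i + 1))) with h | h <;> rw [h] <;>
          linarith [Real.exp_pos (U (κ i)), Real.exp_pos (U (κ (i + 1)))]
      obtain ⟨ω, hω1, hω2, hω3⟩ : ∃ ω, |if i ∈ S then (j : ℝ) - c i else 1| ≤ ω ∧
          |if i ∈ S then (κ i : ℝ) - c i else 1| = ω ∧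
          |if i ∈ S then (κ (i + 1) : ℝ) - c i else 1| = ω := by
        split_ifs
        · refine ⟨(κ (i + 1) - κ i) / 2, abs_le.2 ⟨?_, ?_⟩, ?_, ?_⟩
          · simp only [c]; linarith
          · simp only [c]; linarith
          · rw [abs_of_neg (by simp only [c]; linarith)]; simp only [c]; ring
          · rw [abs_of_pos (by simp only [c]; linarith)]; simp only [c]; ring
        · exact ⟨_, le_rfl, rfl, rfl⟩
      rw [← abs_of_pos (hb i hi.le), ← abs_of_pos (hb _ hi), hU j hj hj1.le hj2.le,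
        hU _ (h2 i hi.le) le_rfl (h1 i hi).le, hU _ (h2 _ hi) (h1 i hi).le le_rfl, hω2, hω3]
      have hω0 := (abs_nonneg _).trans hω1
      calc _ ≤ |ε| * ω * ((1 / 2) ^ (κ (i + 1) - κ i - 1) *
            (Real.exp (U (κ i)) + Real.exp (U (κ (i + 1))))) := by
            refine mul_le_mul (mul_le_mul_of_nonneg_left hω1 (abs_nonneg _))
              (a6.trans (mul_le_mul_of_nonneg_left a7 (by positivity))) (Real.exp_pos _).le
              (by positivity)
        _ = _ := by ring
    have hind : ∀ i ≤ m, b (κ i) / 2 ≤ ∑ j ∈ range (κ i + 1), b j := fun i => by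
      induction i with
      | zero =>
        intro h
        rw [sum_range_succ, sum_eq_zero fun j hj => ?_]
        · linarith [hb 0 h]
        · have : j ∉ p.support := fun h => absurd (h3 j h).1 (not_le.2 (mem_range.1 hj))
          simp only [b, notMem_support_iff.1 this, mul_zero, zero_mul]
      | succ i ih =>
        intro hi
        have a1 := ih (by omega)
        have a2 := gap_sum b _ (add_pos (hb i (by omega)) (hb _ hi)).le (hgap i hi)
        rw [sum_range_succ, ← sum_range_add_sum_Ico b (h1 i hi)]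
        linarith
    have hdeg : (act μ p).natDegree < κ m + 1 := Nat.lt_succ_of_le
      (natDegree_le_iff_coeff_eq_zero.2 fun j hj => by
        have : j ∉ p.support := fun h => absurd (h3 j h).2 (not_le.2 hj)
        rw [coeff_act, notMem_support_iff.1 this, mul_zero])
    rw [eval_eq_sum_range' hdeg, mul_sum]
    simp only [coeff_act, ← mul_assoc ε]
    exact lt_of_lt_of_le (half_pos (hb m le_rfl)) (by simpa only [b, mul_assoc] using hind m le_rfl)
  have hne : act μ p ≠ 0 := fun e => by simpa [e] using hpos 1 one_pos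
  have := card_posRoots_le_prod c p S hne
  rwa [Multiset.eq_zero_of_forall_notMem (s := posRoots (act μ p)) fun x hx => by
    have := hpos x (mem_posRoots.1 hx).2.2
    simp [(mem_posRoots.1 hx).2.1] at this, Multiset.card_zero, zero_add] at this

/-- Sequences with `γ_{k+1}^2 ≥ 400 γ_k γ_{k+2}` are complex zero decreasing. -/
theorem isCZDS_of_ratio (γ : ℕ → ℝ) (h0 : ∀ k, 0 < γ k)
    (hγ : ∀ k, 400 * (γ k * γ (k + 2)) ≤ γ (k + 1) ^ 2) : IsCZDS γ :=
  isCZDS_of_pos (fun k => (h0 k).ne') fun p => by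
    rcases eq_or_ne p 0 with rfl | hp
    · simp [posRoots]
    obtain ⟨m, κ, h1, h2, h3, h4⟩ := hull p.support (support_nonempty.2 hp)
      fun j => Real.log |p.coeff j| - Real.log 6 * j ^ 2
    exact (upper p m κ h1 (fun i hi => (h2 i hi).1) h3 h4).trans (lower_act γ h0 hγ p m κ h1 h2)

theorem isCZDS_exp (p : ℕ) (hp : 3 ≤ p) : IsCZDS fun k => Real.exp (-((k : ℝ) ^ p)) :=
  isCZDS_of_ratio _ (fun _ => Real.exp_pos _) fun k => by
    have h1 : ∀ p, 3 ≤ p → 2 * (k + 1) ^ p + 6 ≤ k ^ p + (k + 2) ^ p := fun p hp => by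
      induction p, hp using Nat.le_induction with
      | base => nlinarith [Nat.zero_le k]
      | succ p hp ih =>
        have a1 : k ^ p ≤ (k + 2) ^ p := Nat.pow_le_pow_left (by omega) p
        simp only [pow_succ]
        nlinarith [Nat.zero_le k]
    have h2 : (2 : ℝ) * (k + 1) ^ p + 6 ≤ k ^ p + (k + 2) ^ p := by exact_mod_cast h1 p hp
    have h3 : (400 : ℝ) ≤ Real.exp 6 := by
      have := Real.exp_one_gt_d9
      rw [show (6 : ℝ) = (6 : ℕ) * 1 by norm_num, Real.exp_nat_mul]
      exact le_trans (by norm_num) (pow_le_pow_left₀ (by norm_num) this.le 6)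
    refine (mul_le_mul_of_nonneg_right h3 (by positivity)).trans ?_
    rw [← Real.exp_add, ← Real.exp_add, ← Real.exp_nat_mul]
    push_cast
    exact Real.exp_le_exp.2 (by linarith)

end Pool.Agent.Lib.H13Zc
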