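import Mathlib

set_option autoImplicit false

open Polynomial

namespace H13Deg

section general
variable {R : Type*} [CommRing R]

/-- Lucas sequence -/
def U (a : R) : ℕ → R
  | 0 => 0
  | 1 => 1
  | n + 2 => a * U a (n + 1) - U a n

lemma U_zero (a : R) : U a 0 = 0 := rfl
lemma U_one (a : R) : U a 1 = 1 := rfl
lemma U_add_two (a : R) (n : ℕ) : U a (n + 2) = a * U a (n + 1) - U a n := rfl

lemma U_pell (a : R) : ∀ n, U a (n + 1) ^ 2 - a * U a (n + 1) * U a n + U a n ^ 2 = 1
  | 0 => by simp [U_zero, U_one]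
  | n + 1 => by
    have := U_pell a n
    rw [U_add_two]
    linear_combination this

end general

variable {K : Type*} [Field K]

lemma D_comp (a : K[X]) : ∀ n, (dickson 1 (1 : K) n).comp a = 2 * U a (n + 1) - a * U a n
  | 0 => by
    simp only [dickson_zero, U_zero, U_one, Nat.cast_one, zero_add]
    have : (3 - 1 : K[X]) = C 2 := by
      rw [show (2 : K) = 1 + 1 by norm_num, C_add, C_1]; norm_num
    rw [this, C_comp, show (2 : K) = 1 + 1 by norm_num, C_add, C_1]; ring
  | 1 => by
    simp only [dickson_one, X_comp, U_add_two, U_zero, U_one, zero_add]; ring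
  | n + 2 => by
    have h1 := D_comp a n
    have h2 := D_comp a (n + 1)
    rw [dickson_add_two, sub_comp, mul_comp, mul_comp, X_comp, C_comp, C_1, h1, h2]
    rw [U_add_two a (n + 1), U_add_two a n]
    ring

/-- descent -/
lemma descent (a : K[X]) (ha : 1 ≤ a.natDegree) :
    ∀ (N : ℕ) (x y : K[X]), x.natDegree ≤ N → x ^ 2 - a * x * y + y ^ 2 = 1 →
      y.degree ≤ x.degree →
      ∃ (n : ℕ) (e : K[X]), (e = 1 ∨ e = -1) ∧ x = e * U a (n + 1) ∧ y = e * U a n := by
  intro N
  induction N using Nat.strong_induction_on with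
  | _ N ih =>
    intro x y hN h hd
    by_cases hy : y = 0
    · subst hy
      have h1 : x ^ 2 = 1 := by linear_combination h
      refine ⟨0, x, ?_, by simp [U_one], by simp [U_zero]⟩
      rcases sq_eq_one_iff_of_ne_zero_aux x h1 with h | h
      · exact Or.inl h
      · exact Or.inr h
    · have hx : x ≠ 0 := by
        rintro rfl
        rw [degree_zero, le_bot_iff, degree_eq_bot] at hd
        exact hy hd
      have ha0 : a ≠ 0 := by
        rintro rfl; simp at ha
      have hd' : y.natDegree ≤ x.natDegree := natDegree_le_natDegree hd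
      have hmul : x * (a * y - x) = y ^ 2 - 1 := by linear_combination -h
      have hdeg2 : (y ^ 2 - 1).natDegree ≤ 2 * y.natDegree := by
        refine (natDegree_sub_le _ _).trans ?_
        rw [natDegree_pow, natDegree_one]; simp
      have hay : (a * y).natDegree = a.natDegree + y.natDegree := natDegree_mul ha0 hy
      have hx'le : (a * y - x) ≠ 0 → x.natDegree + (a * y - x).natDegree ≤ 2 * y.natDegree := by
        intro h0
        rw [← natDegree_mul hx h0, hmul]; exact hdeg2
      have hsum : (a * y).natDegree ≤ max x.natDegree (a * y - x).natDegree := by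
        have : a * y = x + (a * y - x) := by ring
        conv_lhs => rw [this]
        exact natDegree_add_le _ _
      have hlt : y.natDegree < x.natDegree := by
        by_cases h0 : a * y - x = 0
        · rw [h0, natDegree_zero] at hsum
          rw [hay] at hsum
          simp at hsum
          omega
        · have := hx'le h0
          rw [hay] at hsum
          rcases le_max_iff.mp hsum with h3 | h3 <;> omega
      have hd2 : (a * y - x).degree ≤ y.degree := by
        by_cases h0 : a * y - x = 0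
        · rw [h0, degree_zero]; exact bot_le
        · have := hx'le h0
          rw [degree_eq_natDegree h0, degree_eq_natDegree hy]
          exact_mod_cast (by omega : (a * y - x).natDegree ≤ y.natDegree)
      obtain ⟨n, e, he, h1, h2⟩ := ih y.natDegree (by omega) y (a * y - x) le_rfl
        (by linear_combination h) hd2
      refine ⟨n + 1, e, he, ?_, h1⟩
      rw [U_add_two]
      linear_combination a * h1 - h2
where
  sq_eq_one_iff_of_ne_zero_aux (x : K[X]) (h : x ^ 2 = 1) : x = 1 ∨ x = -1 := by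
    have : (x - 1) * (x + 1) = 0 := by linear_combination h
    rcases mul_eq_zero.mp this with h | h
    · left; linear_combination h
    · right; linear_combination h

lemma pell_V (a : K[X]) (ha : 1 ≤ a.natDegree) (x y : K[X]) (h : x ^ 2 - a * x * y + y ^ 2 = 1) :
    ∃ (n : ℕ) (e : K), (e = 1 ∨ e = -1) ∧
      2 * x - a * y = (C e * dickson 1 (1 : K) n).comp a := by
  have key : ∀ e : K[X], (e = 1 ∨ e = -1) → ∃ c : K, (c = 1 ∨ c = -1) ∧ e = C c := by
    rintro e (rfl | rfl)
    · exact ⟨1, Or.inl rfl, by simp⟩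
    · exact ⟨-1, Or.inr rfl, by simp⟩
  rcases le_total y.degree x.degree with hd | hd
  · obtain ⟨n, e, he, h1, h2⟩ := descent a ha _ x y le_rfl h hd
    obtain ⟨c, hc, rfl⟩ := key e he
    refine ⟨n, c, hc, ?_⟩
    rw [mul_comp, C_comp, D_comp, h1, h2]; ring
  · obtain ⟨n, e, he, h1, h2⟩ := descent a ha _ y x le_rfl (by linear_combination h) hd
    obtain ⟨c, hc, rfl⟩ := key e he
    refine ⟨n + 1, -c, by rcases hc with rfl | rfl <;> simp, ?_⟩
    rw [mul_comp, C_comp, D_comp, h1, h2, U_add_two, C_neg]; ring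

lemma D_high : ∀ n j : ℕ, n < j → (dickson 1 (1 : K) n).coeff j = 0
  | 0, j, h => by
    have : (3 - 1 : K[X]) = C 2 := by
      rw [show (2 : K) = 1 + 1 by norm_num, C_add, C_1]; norm_num
    rw [dickson_zero, Nat.cast_one, this, coeff_C, if_neg (by omega)]
  | 1, j, h => by
    rw [dickson_one, coeff_X, if_neg (by omega)]
  | n + 2, j, h => by
    obtain ⟨i, rfl⟩ : ∃ i, j = i + 1 := ⟨j - 1, by omega⟩
    rw [dickson_add_two, coeff_sub, coeff_X_mul, C_1, one_mul, D_high (n + 1) i (by omega),
      D_high n (i + 1) (by omega), sub_zero]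

lemma D_top : ∀ n : ℕ, (dickson 1 (1 : K) (n + 1)).coeff (n + 1) = 1 ∧
    (dickson 1 (1 : K) (n + 1)).coeff n = 0
  | 0 => by simp [dickson_one]
  | n + 1 => by
    obtain ⟨h1, h2⟩ := D_top n
    constructor
    · rw [dickson_add_two, coeff_sub, coeff_X_mul, C_1, one_mul, h1, D_high n _ (by omega),
        sub_zero]
    · rw [dickson_add_two, coeff_sub, coeff_X_mul, C_1, one_mul, h2, D_high n _ (by omega),
        sub_zero]

lemma D_natDegree (n : ℕ) : (dickson 1 (1 : K) n).natDegree = n := by
  rcases n with _ | n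
  · apply Nat.eq_zero_of_le_zero
    rw [natDegree_le_iff_coeff_eq_zero]
    intro j hj; exact D_high 0 j hj
  · apply natDegree_eq_of_le_of_coeff_ne_zero
    · rw [natDegree_le_iff_coeff_eq_zero]
      intro j hj; exact D_high _ j hj
    · rw [(D_top n).1]; exact one_ne_zero

lemma D_shift (n : ℕ) : ((dickson 1 (1 : K) (n + 2)).comp (X + 1)).coeff (n + 1) = (n + 2 : ℕ) ∧
    ((dickson 1 (1 : K) (n + 2)).comp (X + 1)).coeff (n + 2) = 1 := by
  have hr : (dickson 1 (1 : K) (n + 2) - X ^ (n + 2)).natDegree ≤ n := by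
    rw [natDegree_le_iff_coeff_eq_zero]
    intro j hj
    rw [coeff_sub, coeff_X_pow]
    by_cases h1 : j = n + 1
    · subst h1
      rw [(D_top (n + 1)).2, if_neg (by omega), sub_zero]
    · by_cases h2 : j = n + 2
      · subst h2
        rw [(D_top (n + 1)).1, if_pos rfl, sub_self]
      · rw [D_high _ _ (by omega), if_neg h2, sub_zero]
  have h1 : (dickson 1 (1 : K) (n + 2)).comp (X + 1) =
      (X + 1) ^ (n + 2) + (dickson 1 (1 : K) (n + 2) - X ^ (n + 2)).comp (X + 1) := by
    rw [sub_comp, pow_comp, X_comp]; ring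
  have h2 : ((dickson 1 (1 : K) (n + 2) - X ^ (n + 2)).comp (X + 1)).natDegree ≤ n := by
    rw [natDegree_comp, ← C_1, natDegree_X_add_C, mul_one]; exact hr
  rw [natDegree_le_iff_coeff_eq_zero] at h2
  rw [h1, coeff_add, coeff_add, coeff_X_add_one_pow, coeff_X_add_one_pow, h2 _ (by omega),
    h2 _ (by omega)]
  simp
  ring

lemma D_pow (p : ℕ) [Fact p.Prime] [CharP K p] (m : ℕ) :
    ∀ k, dickson 1 (1 : K) (p ^ k * m) = dickson 1 (1 : K) m ^ p ^ k
  | 0 => by simp
  | k + 1 => by
    rw [pow_succ', mul_assoc, dickson_one_one_mul, dickson_one_one_charP K p, pow_comp, X_comp,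
      D_pow p m k, ← pow_mul, mul_comm]

lemma comp_inj (a : K[X]) (ha : 1 ≤ a.natDegree) (P Q : K[X]) (h : P.comp a = Q.comp a) :
    P = Q := by
  have h1 : (P - Q).comp a = 0 := by rw [sub_comp, h, sub_self]
  rcases comp_eq_zero_iff.mp h1 with h2 | ⟨_, h2⟩
  · exact sub_eq_zero.mp h2
  · rw [h2, natDegree_C] at ha; omega

/-- Frobenius graph, soundness -/
lemma frob_sound (p : ℕ) [hp : Fact p.Prime] [CharP K p] (a b x y x' y' : K[X])
    (ha : 1 ≤ a.natDegree) (hb : 1 ≤ b.natDegree)
    (h1 : x ^ 2 - a * x * y + y ^ 2 = 1) (h2 : x' ^ 2 - (a + 1) * x' * y' + y' ^ 2 = 1)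
    (h3 : b = 2 * x - a * y) (h4 : b + 1 = 2 * x' - (a + 1) * y') :
    ∃ k : ℕ, b = a ^ p ^ k := by
  have ha1 : 1 ≤ (a + 1).natDegree := by
    rw [← C_1, natDegree_add_C]; exact ha
  obtain ⟨n, e, he, hn⟩ := pell_V a ha x y h1
  obtain ⟨m, e', he', hm⟩ := pell_V (a + 1) ha1 x' y' h2
  have he0 : e ≠ 0 := by rcases he with rfl | rfl <;> simp
  have he0' : e' ≠ 0 := by rcases he' with rfl | rfl <;> simp
  rw [← h3] at hn
  rw [← h4] at hm
  have hid : C e * dickson 1 (1 : K) n + 1 = C e' * (dickson 1 (1 : K) m).comp (X + 1) := by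
    apply comp_inj a ha
    rw [add_comp, one_comp, ← hn, hm, mul_comp, mul_comp, C_comp, comp_assoc, add_comp, X_comp,
      one_comp, C_comp]
  have hn1 : 1 ≤ n := by
    rw [hn, natDegree_comp, natDegree_C_mul he0, D_natDegree] at hb
    rcases n with _ | n
    · simp at hb
    · omega
  have hnm : n = m := by
    have := congrArg natDegree hid
    rw [← C_1, natDegree_add_C, natDegree_C_mul he0, natDegree_C_mul he0', natDegree_comp,
      natDegree_X_add_C, mul_one, D_natDegree, D_natDegree] at this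
    exact this
  subst hnm
  obtain ⟨k, r, hr, hnk⟩ := Nat.exists_eq_pow_mul_and_not_dvd (n := n) (by omega) p hp.out.ne_one
  have hek : ∀ c : K, (c = 1 ∨ c = -1) → c ^ p ^ k = c := by
    rintro c (rfl | rfl)
    · simp
    · exact neg_one_pow_char_pow K p k
  have hid2 : C e * dickson 1 (1 : K) r + 1 = C e' * (dickson 1 (1 : K) r).comp (X + 1) := by
    have hz : (C e * dickson 1 (1 : K) r + 1 - C e' * (dickson 1 (1 : K) r).comp (X + 1)) ^ p ^ k
        = 0 := by
      rw [sub_pow_char_pow, add_pow_char_pow, mul_pow, mul_pow, ← C_pow, ← C_pow, hek e he,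
        hek e' he', one_pow, ← pow_comp, ← D_pow p r k, ← hnk, hid, sub_self]
    exact sub_eq_zero.mp (pow_eq_zero_iff (pow_ne_zero k hp.out.ne_zero) |>.mp hz)
  have hr1 : r = 1 := by
    by_contra hne
    have hr0 : r ≠ 0 := by rintro rfl; exact hr (dvd_zero p)
    obtain ⟨s, rfl⟩ : ∃ s, r = s + 2 := ⟨r - 2, by omega⟩
    have := congrArg (fun P => coeff P (s + 1)) hid2
    simp only [coeff_add, coeff_C_mul] at this
    rw [(D_top (s + 1)).2, (D_shift s).1, coeff_one, if_neg (by omega)] at this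
    have h5 : ((s + 2 : ℕ) : K) = 0 := by
      have h6 : e' * ((s + 2 : ℕ) : K) = 0 := by rw [← this]; ring
      exact (mul_eq_zero.mp h6).resolve_left he0'
    exact hr ((CharP.cast_eq_zero_iff K p _).mp h5)
  subst hr1
  rw [dickson_one, X_comp] at hid2
  have c0 := congrArg (fun P => coeff P 0) hid2
  have c1 := congrArg (fun P => coeff P 1) hid2
  simp [coeff_one] at c0 c1
  refine ⟨k, ?_⟩
  rw [hn, hnk, D_pow p 1 k, dickson_one, c1, ← c0, C_1, one_mul, pow_comp, X_comp]

/-- Frobenius graph, completeness -/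
lemma frob_complete (p : ℕ) [hp : Fact p.Prime] [CharP K p] (a : K[X]) (k : ℕ) :
    ∃ x y x' y' : K[X], x ^ 2 - a * x * y + y ^ 2 = 1 ∧
      x' ^ 2 - (a + 1) * x' * y' + y' ^ 2 = 1 ∧ a ^ p ^ k = 2 * x - a * y ∧
      a ^ p ^ k + 1 = 2 * x' - (a + 1) * y' := by
  have key : ∀ c : K[X], c ^ p ^ k = 2 * U c (p ^ k + 1) - c * U c (p ^ k) := by
    intro c
    rw [← D_comp, ← mul_one (p ^ k), D_pow p 1 k, dickson_one, pow_comp, X_comp, mul_one]
  refine ⟨U a (p ^ k + 1), U a (p ^ k), U (a + 1) (p ^ k + 1), U (a + 1) (p ^ k), U_pell _ _,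
    U_pell _ _, key a, ?_⟩
  rw [← key, add_pow_char_pow, one_pow]

end H13Deg
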