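import Mathlib
import Pool.Agent.Lib.helper13.DegA

set_option autoImplicit false

open Polynomial

namespace H13Deg

/-- the Pell-type condition encoding `b = a ^ (p ^ k)` -/
def Fr {A : Type*} [CommRing A] (a b : A) : Prop :=
  ∃ x y x' y' : A, x ^ 2 - a * x * y + y ^ 2 = 1 ∧ x' ^ 2 - (a + 1) * x' * y' + y' ^ 2 = 1 ∧
    b = 2 * x - a * y ∧ b + 1 = 2 * x' - (a + 1) * y'

variable {K : Type*} [Field K]

lemma val_eq (A B : K[X]) (hA : A.coeff 0 ≠ 0) (hB : B.coeff 0 ≠ 0) (m n : ℕ)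
    (h : A * X ^ m = B * X ^ n) : m = n := by
  have key : ∀ (A B : K[X]) (m n : ℕ), A.coeff 0 ≠ 0 → A * X ^ m = B * X ^ n → n ≤ m := by
    intro A B m n hA h
    by_contra hlt
    obtain ⟨d, rfl⟩ : ∃ d, n = m + (d + 1) := ⟨n - m - 1, by omega⟩
    have h1 : A * X ^ m = (B * X ^ d * X) * X ^ m := by rw [h]; ring
    have h2 := mul_right_cancel₀ (pow_ne_zero m X_ne_zero) h1
    apply hA
    rw [h2, coeff_mul_X_zero]
  exact le_antisymm (key B A n m hB h.symm) (key A B m n hA h)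

lemma nd_one_add (f : K[X]) (hf : f ≠ 0) : (X * f + 1).natDegree = f.natDegree + 1 := by
  rw [← C_1, natDegree_add_C, natDegree_X_mul hf]

lemma coeff0 (f : K[X]) : (X * f + 1).coeff 0 = 1 := by simp

lemma coeff0_pow (f : K[X]) (n : ℕ) : ((X * f + 1) ^ n).coeff 0 = 1 := by
  rw [coeff_zero_eq_eval_zero, eval_pow, ← coeff_zero_eq_eval_zero, coeff0, one_pow]

lemma sync (p : ℕ) [hp : Fact p.Prime] [CharP K p] (f T1 Y' : K[X]) (hf : f ≠ 0) (hY : Y' ≠ 0)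
    (k : ℕ) (hT : X * T1 = X ^ p ^ k) (h1 : Fr (X * f + 1) (X * Y' + 1))
    (h2 : Fr (X * (X * f + 1)) (X * T1 * (X * Y' + 1))) :
    X * Y' + 1 = (X * f + 1) ^ p ^ k := by
  have hh : X * f + 1 ≠ 0 := by
    intro h; have := coeff0 f; rw [h] at this; simp at this
  have hY0 : X * Y' + 1 ≠ 0 := by
    intro h; have := coeff0 Y'; rw [h] at this; simp at this
  have hT1 : T1 ≠ 0 := by
    rintro rfl
    rw [mul_zero] at hT
    exact pow_ne_zero _ X_ne_zero hT.symm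
  obtain ⟨x, y, x', y', a1, a2, a3, a4⟩ := h2
  obtain ⟨j, hj⟩ := frob_sound p _ _ x y x' y' (by rw [natDegree_X_mul hh]; omega)
    (by rw [natDegree_mul (mul_ne_zero X_ne_zero hT1) hY0, natDegree_X_mul hT1]; omega)
    a1 a2 a3 a4
  rw [hT, mul_pow] at hj
  have e1 : p ^ k = p ^ j := by
    apply val_eq (X * Y' + 1) ((X * f + 1) ^ p ^ j) (by rw [coeff0]; exact one_ne_zero)
      (by rw [coeff0_pow]; exact one_ne_zero)
    linear_combination hj
  rw [← e1] at hj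
  exact mul_left_cancel₀ (pow_ne_zero _ X_ne_zero) hj

lemma expand_ppow (p : ℕ) [hp : Fact p.Prime] (h : (ZMod p)[X]) :
    ∀ k, expand (ZMod p) (p ^ k) h = h ^ p ^ k
  | 0 => by simp
  | k + 1 => by
    rw [pow_succ', expand_mul, expand_ppow p h k, ZMod.expand_card, ← pow_mul, mul_comm]

lemma rev_cong (p : ℕ) [hp : Fact p.Prime] (h : (ZMod p)[X]) (k : ℕ) :
    (X * X ^ p ^ k - 1 : (ZMod p)[X]) ∣ X ^ h.natDegree * h ^ p ^ k - h.reverse := by
  rw [← AdjoinRoot.mk_eq_mk]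
  generalize hM : (X * X ^ p ^ k - 1 : (ZMod p)[X]) = M
  have hr : AdjoinRoot.root M * AdjoinRoot.root M ^ p ^ k = 1 := by
    have h0 : AdjoinRoot.mk M (X * X ^ p ^ k - 1) = 0 := by rw [hM]; exact AdjoinRoot.mk_self
    rw [map_sub, map_mul, map_pow, map_one, AdjoinRoot.mk_X] at h0
    exact sub_eq_zero.mp h0
  letI : Invertible (AdjoinRoot.root M ^ p ^ k) :=
    ⟨AdjoinRoot.root M, hr, by rw [mul_comm]; exact hr⟩
  have h1 := eval₂_reverse_mul_pow (algebraMap (ZMod p) (AdjoinRoot M))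
    (AdjoinRoot.root M ^ p ^ k) h
  have h2 : (⅟(AdjoinRoot.root M ^ p ^ k) : AdjoinRoot M) = AdjoinRoot.root M := rfl
  rw [h2, ← aeval_def, ← aeval_def, ← expand_aeval, expand_ppow, AdjoinRoot.aeval_eq,
    AdjoinRoot.aeval_eq] at h1
  rw [map_mul, map_pow, AdjoinRoot.mk_X, ← h1]
  have h3 : AdjoinRoot.root M ^ h.natDegree * (AdjoinRoot.root M ^ p ^ k) ^ h.natDegree = 1 := by
    rw [← mul_pow, hr, one_pow]
  linear_combination (AdjoinRoot.mk M h.reverse) * h3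

lemma exists_period (p : ℕ) [hp : Fact p.Prime] (W : (ZMod p)[X]) (hW : W ≠ 0) :
    ∃ i j : ℕ, i < j ∧ W ∣ X ^ p ^ j - X ^ p ^ i := by
  haveI : Module.Finite (ZMod p) (AdjoinRoot W) := (AdjoinRoot.powerBasis hW).finite
  haveI : Finite (AdjoinRoot W) := Module.finite_of_finite (ZMod p)
  obtain ⟨i, j, hne, h⟩ := Finite.exists_ne_map_eq_of_infinite
    (fun k : ℕ => AdjoinRoot.mk W (X ^ p ^ k))
  rcases lt_or_gt_of_ne hne with hlt | hlt
  · exact ⟨i, j, hlt, AdjoinRoot.mk_eq_mk.mp h.symm⟩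
  · exact ⟨j, i, hlt, AdjoinRoot.mk_eq_mk.mp h⟩

/-- the semantic system -/
def Sys {A : Type*} [CommRing A] (t f g T1 Y1 Y2 s1 s2 a b Q T' Z' Z : A) : Prop :=
  Fr t (t * T1) ∧ Fr (t * f + 1) (t * Y1 + 1) ∧ Fr (t * (t * f + 1)) (t * T1 * (t * Y1 + 1)) ∧
  Fr (t * g + 1) (t * Y2 + 1) ∧ Fr (t * (t * g + 1)) (t * T1 * (t * Y2 + 1)) ∧
  s1 * s2 * a + t * b = 1 ∧
  s2 * (t * Y1 + 1) - s1 * (t * Y2 + 1) = (t * (t * T1) - 1) * Q ∧
  t * T1 = T' * Z' ∧ s1 * s2 * (t * f + 1) * (t * g + 1) * Z = t * T1 - T' ∧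
  f * g * T1 * Y1 * Y2 * (t * T1 - T') ≠ 0

theorem sys_sound (p : ℕ) [hp : Fact p.Prime] (f g T1 Y1 Y2 s1 s2 a b Q T' Z' Z : (ZMod p)[X])
    (h : Sys X f g T1 Y1 Y2 s1 s2 a b Q T' Z' Z) : f.degree = g.degree := by
  obtain ⟨F0, F1, F1', F2, F2', hab, hQ, hT', hZ, hne⟩ := h
  simp only [ne_eq, mul_eq_zero, not_or] at hne
  obtain ⟨⟨⟨⟨⟨hf, hg⟩, hT1⟩, hY1⟩, hY2⟩, hTT⟩ := hne
  obtain ⟨x, y, x', y', a1, a2, a3, a4⟩ := F0
  obtain ⟨k, hk⟩ := frob_sound p X (X * T1) x y x' y' (by simp)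
    (by rw [natDegree_X_mul hT1]; omega) a1 a2 a3 a4
  have e1 := sync p f T1 Y1 hf hY1 k hk F1 F1'
  have e2 := sync p g T1 Y2 hg hY2 k hk F2 F2'
  rw [e1, e2, hk] at hQ
  rw [hk] at hT' hZ hTT
  have hs : (s1 * s2).coeff 0 ≠ 0 := by
    intro h0
    have := congrArg (fun P => coeff P 0) hab
    simp only [coeff_add, mul_coeff_zero (s1 * s2) a, h0, coeff_X_mul_zero] at this
    simp at this
  rw [mul_coeff_zero] at hs
  have hs1 : s1.coeff 0 ≠ 0 := left_ne_zero_of_mul hs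
  have hs2 : s2.coeff 0 ≠ 0 := right_ne_zero_of_mul hs
  have hs1' : s1 ≠ 0 := by rintro rfl; simp at hs1
  have hs2' : s2 ≠ 0 := by rintro rfl; simp at hs2
  have d1 := nd_one_add f hf
  have d2 := nd_one_add g hg
  have c1 := coeff0 f
  have c2 := coeff0 g
  generalize X * f + 1 = h1 at *
  generalize X * g + 1 = h2 at *
  have hh1 : h1 ≠ 0 := by rintro rfl; simp at c1
  have hh2 : h2 ≠ 0 := by rintro rfl; simp at c2
  have hW : (s1 * s2 * h1 * h2).natDegree ≤ p ^ k := by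
    have h3 : (s1 * s2 * h1 * h2).natDegree ≤ (X ^ p ^ k - T' : (ZMod p)[X]).natDegree :=
      natDegree_le_of_dvd ⟨Z, hZ.symm⟩ hTT
    have h4 : T'.natDegree ≤ (X ^ p ^ k : (ZMod p)[X]).natDegree :=
      natDegree_le_of_dvd ⟨Z', hT'⟩ (pow_ne_zero _ X_ne_zero)
    have h5 := natDegree_sub_le (X ^ p ^ k : (ZMod p)[X]) T'
    rw [natDegree_X_pow] at h4 h5
    omega
  rw [natDegree_mul (mul_ne_zero (mul_ne_zero hs1' hs2') hh1) hh2,
    natDegree_mul (mul_ne_zero hs1' hs2') hh1, natDegree_mul hs1' hs2'] at hW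
  obtain ⟨u1, hu1⟩ := rev_cong p h1 k
  obtain ⟨u2, hu2⟩ := rev_cong p h2 k
  have hdvd : (X * X ^ p ^ k - 1 : (ZMod p)[X]) ∣
      s2 * h1.reverse * X ^ h2.natDegree - s1 * h2.reverse * X ^ h1.natDegree := by
    refine ⟨X ^ h1.natDegree * X ^ h2.natDegree * Q - s2 * X ^ h2.natDegree * u1
      + s1 * X ^ h1.natDegree * u2, ?_⟩
    linear_combination (X ^ h1.natDegree * X ^ h2.natDegree) * hQ
      - s2 * X ^ h2.natDegree * hu1 + s1 * X ^ h1.natDegree * hu2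
  have hM : (X * X ^ p ^ k - 1 : (ZMod p)[X]).natDegree = p ^ k + 1 := by
    rw [← pow_succ', ← C_1, natDegree_X_pow_sub_C]
  have r1 := reverse_natDegree_le h1
  have r2 := reverse_natDegree_le h2
  have hlt : (s2 * h1.reverse * X ^ h2.natDegree - s1 * h2.reverse * X ^ h1.natDegree).natDegree
      < (X * X ^ p ^ k - 1 : (ZMod p)[X]).natDegree := by
    rw [hM]
    have b1 := natDegree_sub_le (s2 * h1.reverse * X ^ h2.natDegree)
      (s1 * h2.reverse * X ^ h1.natDegree)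
    have b2 := natDegree_mul_le (p := s2 * h1.reverse) (q := X ^ h2.natDegree)
    have b3 := natDegree_mul_le (p := s1 * h2.reverse) (q := X ^ h1.natDegree)
    have b4 := natDegree_mul_le (p := s2) (q := h1.reverse)
    have b5 := natDegree_mul_le (p := s1) (q := h2.reverse)
    rw [natDegree_X_pow] at b2 b3
    omega
  have hz := sub_eq_zero.mp (eq_zero_of_dvd_of_natDegree_lt hdvd hlt)
  have hv := val_eq _ _
    (by rw [mul_coeff_zero, coeff_zero_reverse]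
        exact mul_ne_zero hs2 (leadingCoeff_ne_zero.mpr hh1))
    (by rw [mul_coeff_zero, coeff_zero_reverse]
        exact mul_ne_zero hs1 (leadingCoeff_ne_zero.mpr hh2)) _ _ hz
  rw [degree_eq_natDegree hf, degree_eq_natDegree hg]
  exact_mod_cast (by omega : f.natDegree = g.natDegree)

lemma pow_form (p : ℕ) [hp : Fact p.Prime] (f : (ZMod p)[X]) (hf : f ≠ 0) (k : ℕ) :
    ∃ Y : (ZMod p)[X], Y ≠ 0 ∧ X * Y + 1 = (X * f + 1) ^ p ^ k := by
  obtain ⟨q, hq⟩ : ∃ q, p ^ k = q + 1 := ⟨p ^ k - 1, by have := pow_pos hp.out.pos k; omega⟩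
  refine ⟨X ^ q * f ^ p ^ k, mul_ne_zero (pow_ne_zero _ X_ne_zero) (pow_ne_zero _ hf), ?_⟩
  rw [add_pow_char_pow, mul_pow, one_pow, hq]; ring

theorem sys_complete (p : ℕ) [hp : Fact p.Prime] (f g : (ZMod p)[X]) (hf : f ≠ 0) (hg : g ≠ 0)
    (h : f.degree = g.degree) :
    ∃ T1 Y1 Y2 s1 s2 a b Q T' Z' Z : (ZMod p)[X], Sys X f g T1 Y1 Y2 s1 s2 a b Q T' Z' Z := by
  have hd : (X * f + 1).natDegree = (X * g + 1).natDegree := by
    rw [nd_one_add f hf, nd_one_add g hg, natDegree_eq_of_degree_eq h]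
  have hh1 : X * f + 1 ≠ 0 := by
    intro h; have := coeff0 f; rw [h] at this; simp at this
  have hh2 : X * g + 1 ≠ 0 := by
    intro h; have := coeff0 g; rw [h] at this; simp at this
  have hs : ((X * f + 1).reverse * (X * g + 1).reverse).coeff 0 ≠ 0 := by
    rw [mul_coeff_zero, coeff_zero_reverse, coeff_zero_reverse]
    exact mul_ne_zero (leadingCoeff_ne_zero.mpr hh1) (leadingCoeff_ne_zero.mpr hh2)
  have hs' : (X * f + 1).reverse * (X * g + 1).reverse ≠ 0 := by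
    intro h0; rw [h0] at hs; simp at hs
  obtain ⟨i, j, hij, Z, hZ⟩ := exists_period p
    ((X * f + 1).reverse * (X * g + 1).reverse * (X * f + 1) * (X * g + 1))
    (mul_ne_zero (mul_ne_zero hs' hh1) hh2)
  obtain ⟨Y1, hY1, e1⟩ := pow_form p f hf j
  obtain ⟨Y2, hY2, e2⟩ := pow_form p g hg j
  obtain ⟨q, hq⟩ : ∃ q, p ^ j = q + 1 := ⟨p ^ j - 1, by have := pow_pos hp.out.pos j; omega⟩
  have hT : (X * X ^ q : (ZMod p)[X]) = X ^ p ^ j := by rw [hq]; ring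
  have hpij : p ^ i < p ^ j := Nat.pow_lt_pow_right hp.out.one_lt hij
  obtain ⟨a, b, hab⟩ : ∃ a b : (ZMod p)[X],
      (X * f + 1).reverse * (X * g + 1).reverse * a + X * b = 1 := by
    generalize (X * f + 1).reverse * (X * g + 1).reverse = s at hs
    have h1 : X ∣ 1 - s * C (s.coeff 0)⁻¹ := by
      rw [X_dvd_iff, coeff_sub, coeff_mul_C, mul_inv_cancel₀ hs]; simp
    obtain ⟨b, hb⟩ := h1
    exact ⟨C (s.coeff 0)⁻¹, b, by linear_combination -hb⟩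
  obtain ⟨u1, hu1⟩ := rev_cong p (X * f + 1) j
  obtain ⟨u2, hu2⟩ := rev_cong p (X * g + 1) j
  rw [← hd] at hu2
  have hcop : (X * X ^ p ^ j - 1 : (ZMod p)[X]) ∣
      (X * g + 1).reverse * (X * f + 1) ^ p ^ j - (X * f + 1).reverse * (X * g + 1) ^ p ^ j := by
    refine ⟨(X * g + 1) ^ p ^ j * u1 - (X * f + 1) ^ p ^ j * u2, ?_⟩
    generalize (X * f + 1) ^ p ^ j = A1 at *
    generalize (X * g + 1) ^ p ^ j = A2 at *
    generalize (X * f + 1).reverse = s1 at *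
    generalize (X * g + 1).reverse = s2 at *
    generalize (X ^ (X * f + 1).natDegree : (ZMod p)[X]) = V at *
    generalize (X * X ^ p ^ j - 1 : (ZMod p)[X]) = M at *
    linear_combination A2 * hu1 - A1 * hu2
  obtain ⟨Q, hQ⟩ := hcop
  have F : ∀ c : (ZMod p)[X], Fr c (c ^ p ^ j) := fun c => frob_complete p c j
  refine ⟨X ^ q, Y1, Y2, (X * f + 1).reverse, (X * g + 1).reverse, a, b,
    Q, X ^ p ^ i, X ^ (p ^ j - p ^ i), Z, ?_⟩
  unfold Sys
  rw [hT, e1, e2, ← mul_pow, ← mul_pow]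
  refine ⟨F _, F _, F _, F _, F _, hab, hQ, ?_, hZ.symm, ?_⟩
  · rw [← pow_add]; congr 1; omega
  · refine mul_ne_zero (mul_ne_zero (mul_ne_zero (mul_ne_zero (mul_ne_zero hf hg)
      (pow_ne_zero _ X_ne_zero)) hY1) hY2) ?_
    intro h0
    have := congrArg natDegree (sub_eq_zero.mp h0)
    rw [natDegree_X_pow, natDegree_X_pow] at this
    omega

def fr {A : Type*} [CommRing A] (a b x y x' y' : A) : List A :=
  [x ^ 2 - a * x * y + y ^ 2 - 1, x' ^ 2 - (a + 1) * x' * y' + y' ^ 2 - 1,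
    b - (2 * x - a * y), b + 1 - (2 * x' - (a + 1) * y')]

def eqs {A : Type*} [CommRing A] (t f g : A) (y : Fin 31 → A) : List A :=
  fr t (t * y 0) (y 11) (y 12) (y 13) (y 14) ++
  fr (t * f + 1) (t * y 1 + 1) (y 15) (y 16) (y 17) (y 18) ++
  fr (t * (t * f + 1)) (t * y 0 * (t * y 1 + 1)) (y 19) (y 20) (y 21) (y 22) ++
  fr (t * g + 1) (t * y 2 + 1) (y 23) (y 24) (y 25) (y 26) ++
  fr (t * (t * g + 1)) (t * y 0 * (t * y 2 + 1)) (y 27) (y 28) (y 29) (y 30) ++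
  [y 3 * y 4 * y 5 + t * y 6 - 1,
    y 4 * (t * y 1 + 1) - y 3 * (t * y 2 + 1) - (t * (t * y 0) - 1) * y 7,
    t * y 0 - y 8 * y 9, y 3 * y 4 * (t * f + 1) * (t * g + 1) * y 10 - (t * y 0 - y 8)]

def ineq {A : Type*} [CommRing A] (t f g : A) (y : Fin 31 → A) : A :=
  f * g * y 0 * y 1 * y 2 * (t * y 0 - y 8)

lemma fr_map {A B F : Type*} [CommRing A] [CommRing B] [FunLike F A B] [RingHomClass F A B]
    (φ : F) (a b x y x' y' : A) :
    (fr a b x y x' y').map φ = fr (φ a) (φ b) (φ x) (φ y) (φ x') (φ y') := by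
  simp [fr, map_ofNat]

lemma eqs_map {A B F : Type*} [CommRing A] [CommRing B] [FunLike F A B] [RingHomClass F A B]
    (φ : F) (t f g : A) (y : Fin 31 → A) :
    (eqs t f g y).map φ = eqs (φ t) (φ f) (φ g) (fun i => φ (y i)) := by
  simp only [eqs, List.map_append, fr_map, List.map_cons, List.map_nil, map_add, map_mul,
    map_sub, map_one]

lemma ineq_map {A B F : Type*} [CommRing A] [CommRing B] [FunLike F A B] [RingHomClass F A B]
    (φ : F) (t f g : A) (y : Fin 31 → A) :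
    φ (ineq t f g y) = ineq (φ t) (φ f) (φ g) (fun i => φ (y i)) := by
  simp only [ineq, map_mul, map_sub]

lemma fr_iff {A : Type*} [CommRing A] (a b x y x' y' : A) :
    (∀ c ∈ fr a b x y x' y', c = 0) ↔ (x ^ 2 - a * x * y + y ^ 2 = 1 ∧
      x' ^ 2 - (a + 1) * x' * y' + y' ^ 2 = 1 ∧
      b = 2 * x - a * y ∧ b + 1 = 2 * x' - (a + 1) * y') := by
  simp only [fr, List.forall_mem_cons, sub_eq_zero, List.not_mem_nil, false_imp_iff,
    implies_true, and_true]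

theorem sys_iff {A : Type*} [CommRing A] (t f g : A) :
    (∃ y : Fin 31 → A, (∀ c ∈ eqs t f g y, c = 0) ∧ ineq t f g y ≠ 0) ↔
      ∃ T1 Y1 Y2 s1 s2 a b Q T' Z' Z : A, Sys t f g T1 Y1 Y2 s1 s2 a b Q T' Z' Z := by
  constructor
  · rintro ⟨y, h1, h2⟩
    simp only [eqs, List.forall_mem_append, fr_iff, List.forall_mem_cons, sub_eq_zero,
      List.not_mem_nil, false_imp_iff, implies_true, and_true] at h1
    obtain ⟨⟨⟨⟨⟨a1, a2⟩, a3⟩, a4⟩, a5⟩, a6, a7, a8, a9⟩ := h1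
    exact ⟨y 0, y 1, y 2, y 3, y 4, y 5, y 6, y 7, y 8, y 9, y 10, ⟨_, _, _, _, a1⟩,
      ⟨_, _, _, _, a2⟩, ⟨_, _, _, _, a3⟩, ⟨_, _, _, _, a4⟩, ⟨_, _, _, _, a5⟩, a6, a7, a8, a9, h2⟩
  · rintro ⟨T1, Y1, Y2, s1, s2, a, b, Q, T', Z', Z, ⟨x1, x2, x3, x4, a1⟩, ⟨x5, x6, x7, x8, a2⟩,
      ⟨x9, x10, x11, x12, a3⟩, ⟨x13, x14, x15, x16, a4⟩, ⟨x17, x18, x19, x20, a5⟩, a6, a7, a8,
      a9, h2⟩
    refine ⟨![T1, Y1, Y2, s1, s2, a, b, Q, T', Z', Z, x1, x2, x3, x4, x5, x6, x7, x8, x9, x10,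
      x11, x12, x13, x14, x15, x16, x17, x18, x19, x20], ?_, h2⟩
    simp only [eqs, List.forall_mem_append, fr_iff, List.forall_mem_cons, sub_eq_zero,
      List.not_mem_nil, false_imp_iff, implies_true, and_true]
    exact ⟨⟨⟨⟨⟨a1, a2⟩, a3⟩, a4⟩, a5⟩, a6, a7, a8, a9⟩

end H13Deg
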