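import Mathlib

set_option autoImplicit false

/-! Edge version of Menger's theorem for finite simple graphs, and odd cuts. -/

namespace H13EM
open Finset Classical

variable {V : Type} [Fintype V] (G : SimpleGraph V)

/-- number of edges leaving `S` -/
noncomputable def cut (S : Finset V) : ℕ :=
  ((univ : Finset (V × V)).filter (fun p => p.1 ∈ S ∧ p.2 ∉ S ∧ G.Adj p.1 p.2)).card

structure IsFlow (u v : V) (j : ℕ) (f : V → V → ℤ) : Prop where
  anti : ∀ x y, f x y = - f y x
  le : ∀ x y, f x y ≤ 1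
  adj : ∀ x y, ¬ G.Adj x y → f x y = 0
  div : ∀ x, ∑ y, f x y = (j : ℤ) * ((if x = u then 1 else 0) - (if x = v then 1 else 0))

variable {G}

theorem IsFlow.cut_sum {u v : V} {j : ℕ} {f : V → V → ℤ} (h : IsFlow G u v j f) (S : Finset V)
    (hu : u ∈ S) (hv : v ∉ S) : ∑ x ∈ S, ∑ y ∈ Sᶜ, f x y = j := by
  have h1 : ∑ x ∈ S, ∑ y ∈ S, f x y = 0 := by
    have : ∑ x ∈ S, ∑ y ∈ S, f x y = - ∑ x ∈ S, ∑ y ∈ S, f x y := by
      conv_lhs => rw [Finset.sum_comm]
      rw [← Finset.sum_neg_distrib]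
      apply Finset.sum_congr rfl
      intro x _
      rw [← Finset.sum_neg_distrib]
      exact Finset.sum_congr rfl (fun y _ => h.anti y x)
    omega
  have h2 : ∑ x ∈ S, ∑ y, f x y = j := by
    rw [Finset.sum_congr rfl (fun x _ => h.div x), ← Finset.mul_sum, Finset.sum_sub_distrib,
      Finset.sum_ite_eq', Finset.sum_ite_eq', if_pos hu, if_neg hv]
    ring
  rw [← h2, ← zero_add (∑ x ∈ S, ∑ y ∈ Sᶜ, f x y), ← h1, ← Finset.sum_add_distrib]
  exact Finset.sum_congr rfl (fun x _ => Finset.sum_add_sum_compl S _)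

theorem cut_eq (S : Finset V) :
    (cut G S : ℤ) = ∑ x ∈ S, ∑ y ∈ Sᶜ, if G.Adj x y then 1 else 0 := by
  rw [cut, Finset.card_filter, ← Finset.sum_product']
  push_cast
  rw [← Finset.sum_subset (Finset.subset_univ (S ×ˢ Sᶜ))]
  · apply Finset.sum_congr rfl
    intro p hp
    rw [mem_product, mem_compl] at hp
    simp [hp.1, hp.2]
  · intro p _ hp
    rw [mem_product, mem_compl] at hp
    rw [if_neg]
    exact fun h => hp ⟨h.1, h.2.1⟩

omit [Fintype V] in
theorem exists_path (R : V → V → Prop) (hR : ∀ x y, R x y → G.Adj x y) {u v : V}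
    (h : Relation.ReflTransGen R u v) :
    ∃ p : G.Walk u v, p.IsPath ∧ ∀ d ∈ p.darts, R d.fst d.snd := by
  have : ∃ p : G.Walk u v, ∀ d ∈ p.darts, R d.fst d.snd := by
    induction h using Relation.ReflTransGen.head_induction_on with
    | refl => exact ⟨SimpleGraph.Walk.nil, by simp⟩
    | head hab _ ih =>
      obtain ⟨p, hp⟩ := ih
      refine ⟨SimpleGraph.Walk.cons (hR _ _ hab) p, ?_⟩
      intro d hd
      rw [SimpleGraph.Walk.darts_cons, List.mem_cons] at hd
      rcases hd with rfl | hd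
      · exact hab
      · exact hp d hd
  obtain ⟨p, hp⟩ := this
  exact ⟨p.bypass, p.bypass_isPath, fun d hd => hp d (p.darts_bypass_subset_darts hd)⟩

omit [Fintype V] in
/-- the unit flow along a walk -/
noncomputable def pf : {a b : V} → G.Walk a b → V → V → ℤ
  | _, _, SimpleGraph.Walk.nil => fun _ _ => 0
  | a, _, @SimpleGraph.Walk.cons _ _ _ c _ _ p => fun x y =>
      pf p x y + ((if x = a ∧ y = c then 1 else 0) - (if x = c ∧ y = a then 1 else 0))

omit [Fintype V] in
theorem pf_anti {a b : V} (p : G.Walk a b) (x y : V) : pf p x y = - pf p y x := by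
  induction p with
  | nil => simp [pf]
  | cons h p ih =>
    simp only [pf, ih, and_comm]
    ring

theorem pf_div {a b : V} (p : G.Walk a b) (x : V) :
    ∑ y, pf p x y = (if x = a then 1 else 0) - (if x = b then 1 else 0) := by
  induction p with
  | nil => simp [pf]
  | @cons a c b h p ih =>
    simp only [pf, Finset.sum_add_distrib, Finset.sum_sub_distrib, ih, ite_and]
    by_cases h1 : x = a <;> by_cases h2 : x = c <;> simp [h1, h2]

omit [Fintype V] in
theorem pf_zero {a b : V} (p : G.Walk a b) (x y : V) (h : s(x, y) ∉ p.edges) : pf p x y = 0 := by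
  induction p with
  | nil => simp [pf]
  | @cons a c b hac p ih =>
    rw [SimpleGraph.Walk.edges_cons, List.mem_cons, not_or] at h
    simp only [pf, ih h.2]
    rw [if_neg, if_neg]
    · simp
    · rintro ⟨rfl, rfl⟩; exact h.1 Sym2.eq_swap
    · rintro ⟨rfl, rfl⟩; exact h.1 rfl

omit [Fintype V] in
theorem pf_mem (R : V → V → Prop) {a b : V} (p : G.Walk a b) (hp : p.IsTrail)
    (hR : ∀ d ∈ p.darts, R d.fst d.snd) (x y : V) (h : s(x, y) ∈ p.edges) :
    (pf p x y = 1 ∧ R x y) ∨ (pf p x y = -1 ∧ R y x) := by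
  induction p with
  | nil => simp at h
  | @cons a c b hac p ih =>
    rw [SimpleGraph.Walk.isTrail_cons] at hp
    rw [SimpleGraph.Walk.edges_cons, List.mem_cons] at h
    have hac' : R a c := hR ⟨(a, c), hac⟩ (by simp)
    have hne := hac.ne
    by_cases h1 : s(x, y) = s(a, c)
    · have h2 : pf p x y = 0 := pf_zero p x y (by rw [h1]; exact hp.2)
      rcases Sym2.eq_iff.mp h1 with ⟨rfl, rfl⟩ | ⟨rfl, rfl⟩
      · left; simp [pf, h2, hne, hac']
      · right; simp [pf, h2, hne, hne.symm, hac']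
    · have h3 := ih hp.1 (fun d hd => hR d (by simp [hd])) (h.resolve_left h1)
      have h4 : ¬ (x = a ∧ y = c) := by rintro ⟨rfl, rfl⟩; exact h1 rfl
      have h5 : ¬ (x = c ∧ y = a) := by rintro ⟨rfl, rfl⟩; exact h1 Sym2.eq_swap
      simpa [pf, h4, h5] using h3

theorem augment {u v : V} {j : ℕ} {f : V → V → ℤ} (h : IsFlow G u v j f)
    (hc : ∀ S : Finset V, u ∈ S → v ∉ S → j < cut G S) : ∃ g, IsFlow G u v (j + 1) g := by
  let R : V → V → Prop := fun x y => G.Adj x y ∧ f x y ≤ 0
  have hv : Relation.ReflTransGen R u v := by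
    by_contra hv
    let S := univ.filter (fun x => Relation.ReflTransGen R u x)
    have hu' : u ∈ S := mem_filter.mpr ⟨mem_univ _, Relation.ReflTransGen.refl⟩
    have hv' : v ∉ S := fun h' => hv (mem_filter.mp h').2
    have h1 := h.cut_sum S hu' hv'
    have h2 : (cut G S : ℤ) = j := by
      rw [cut_eq, ← h1]
      apply Finset.sum_congr rfl
      intro x hx
      apply Finset.sum_congr rfl
      intro y hy
      split_ifs with hxy
      · have h3 : ¬ f x y ≤ 0 := fun h4 => (mem_compl.mp hy)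
          (mem_filter.mpr ⟨mem_univ _, (mem_filter.mp hx).2.tail ⟨hxy, h4⟩⟩)
        have := h.le x y
        omega
      · exact (h.adj x y hxy).symm
    have := hc S hu' hv'
    omega
  obtain ⟨p, hp, hR⟩ := exists_path R (fun x y h => h.1) hv
  refine ⟨fun x y => f x y + pf p x y, fun x y => ?_, fun x y => ?_, fun x y hxy => ?_, fun x => ?_⟩
  · rw [h.anti x y, pf_anti p x y]; ring
  · by_cases he : s(x, y) ∈ p.edges
    · have := h.le x y
      rcases pf_mem R p hp.isTrail hR x y he with ⟨h1, h2⟩ | ⟨h1, -⟩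
      · have := h2.2; omega
      · omega
    · rw [pf_zero p x y he]; simpa using h.le x y
  · rw [h.adj x y hxy, pf_zero p x y (fun he => hxy (p.adj_of_mem_edges he))]; rfl
  · rw [Finset.sum_add_distrib, h.div, pf_div]; push_cast; ring

theorem decompose {u v : V} : ∀ (j : ℕ) (f : V → V → ℤ), IsFlow G u v j f →
    ∃ p : Fin j → G.Walk u v, (∀ i, (p i).IsPath) ∧
      Pairwise (fun i i' => List.Disjoint (p i).edges (p i').edges) ∧
      ∀ i x y, s(x, y) ∈ (p i).edges → f x y ≠ 0 := by
  intro j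
  induction j with
  | zero => intro f _; exact ⟨Fin.elim0, fun i => i.elim0, fun i => i.elim0, fun i => i.elim0⟩
  | succ j ih =>
    intro f h
    let R : V → V → Prop := fun x y => f x y = 1
    have hv : Relation.ReflTransGen R u v := by
      by_contra hv
      let S := univ.filter (fun x => Relation.ReflTransGen R u x)
      have hu' : u ∈ S := mem_filter.mpr ⟨mem_univ _, Relation.ReflTransGen.refl⟩
      have hv' : v ∉ S := fun h' => hv (mem_filter.mp h').2
      have h1 := h.cut_sum S hu' hv'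
      have h2 : ∑ x ∈ S, ∑ y ∈ Sᶜ, f x y ≤ 0 := by
        apply Finset.sum_nonpos
        intro x hx
        apply Finset.sum_nonpos
        intro y hy
        have h3 : ¬ f x y = 1 := fun h4 => (mem_compl.mp hy)
          (mem_filter.mpr ⟨mem_univ _, (mem_filter.mp hx).2.tail h4⟩)
        have := h.le x y
        omega
      push_cast at h1
      omega
    obtain ⟨q, hq, hR⟩ := exists_path (G := G) R (fun x y hxy => by
      by_contra hn
      have := h.adj x y hn
      have h5 : f x y = 1 := hxy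
      omega) hv
    have hon : ∀ x y, s(x, y) ∈ q.edges → f x y - pf q x y = 0 ∧ f x y ≠ 0 := by
      intro x y he
      rcases pf_mem R q hq.isTrail hR x y he with ⟨h1, h2⟩ | ⟨h1, h2⟩
      · have h5 : f x y = 1 := h2
        omega
      · have h5 : f y x = 1 := h2
        have := h.anti x y
        omega
    obtain ⟨p, hp1, hp2, hp3⟩ := ih (fun x y => f x y - pf q x y)
      ⟨fun x y => by rw [h.anti x y, pf_anti q x y]; ring,
       fun x y => by
        by_cases he : s(x, y) ∈ q.edges
        · have := (hon x y he).1; omega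
        · rw [pf_zero q x y he]; simpa using h.le x y,
       fun x y hxy => by
        rw [h.adj x y hxy, pf_zero q x y (fun he => hxy (q.adj_of_mem_edges he))]; rfl,
       fun x => by rw [Finset.sum_sub_distrib, h.div, pf_div]; push_cast; ring⟩
    have hdis : ∀ i, List.Disjoint q.edges (p i).edges := by
      intro i e he1 he2
      induction e using Sym2.ind with
      | h x y => exact hp3 i x y he2 (hon x y he1).1
    refine ⟨Fin.cons q p, fun i => ?_, fun i i' hii => ?_, fun i x y he => ?_⟩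
    · refine Fin.cases ?_ (fun i => ?_) i
      · simpa using hq
      · simpa using hp1 i
    · revert hii
      refine Fin.cases ?_ (fun i => ?_) i <;> refine Fin.cases ?_ (fun i' => ?_) i'
      · intro h; exact absurd rfl h
      · intro _; simpa using hdis i'
      · intro _; simpa using (hdis i).symm
      · intro h
        simpa using hp2 (fun h' => h (by rw [h']))
    · revert he
      refine Fin.cases ?_ (fun i => ?_) i
      · intro he; exact (hon x y (by simpa using he)).2
      · intro he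
        have he' : s(x, y) ∈ (p i).edges := by simpa using he
        have h1 := hp3 i x y he'
        have h2 : pf q x y = 0 := pf_zero q x y (fun h' => hdis i h' he')
        simpa [h2] using h1

theorem menger {u v : V} (k : ℕ) (h : ¬ ∃ p : Fin (k + 1) → G.Walk u v,
    (∀ i, (p i).IsPath) ∧ Pairwise (fun i j => List.Disjoint (p i).edges (p j).edges)) :
    ∃ S : Finset V, u ∈ S ∧ v ∉ S ∧ cut G S ≤ k := by
  by_contra hcon
  push Not at hcon
  have : ∀ j, j ≤ k + 1 → ∃ f, IsFlow G u v j f := by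
    intro j
    induction j with
    | zero => intro _; exact ⟨fun _ _ => 0, by simp, by simp, by simp, by simp⟩
    | succ j ih =>
      intro hj
      obtain ⟨f, hf⟩ := ih (by omega)
      exact augment hf (fun S h1 h2 => by have := hcon S h1 h2; omega)
  obtain ⟨f, hf⟩ := this (k + 1) le_rfl
  obtain ⟨p, h1, h2, -⟩ := decompose _ f hf
  exact h ⟨p, h1, h2⟩

theorem cut_compl (S : Finset V) : cut G Sᶜ = cut G S := by
  have : (cut G Sᶜ : ℤ) = cut G S := by
    rw [cut_eq, cut_eq, compl_compl, Finset.sum_comm]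
    simp only [G.adj_comm]
  exact_mod_cast this

theorem cut_submod (A B : Finset V) : cut G (A ∩ B) + cut G (A ∪ B) ≤ cut G A + cut G B := by
  simp only [cut, Finset.card_filter, ← Finset.sum_add_distrib]
  apply Finset.sum_le_sum
  intro p _
  by_cases h1 : p.1 ∈ A <;> by_cases h2 : p.1 ∈ B <;> by_cases h3 : p.2 ∈ A <;>
    by_cases h4 : p.2 ∈ B <;> by_cases h5 : G.Adj p.1 p.2 <;> simp [h1, h2, h3, h4, h5]

theorem odd_cut (k : ℕ) (hk : ∀ u v : V, u ≠ v → ∃ S : Finset V, u ∈ S ∧ v ∉ S ∧ cut G S ≤ k) :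
    ∀ (n : ℕ) (T : Finset V), T.card = n → T.Nonempty →
      ∃ S : Finset V, Odd (S ∩ T).card ∧ cut G S ≤ k := by
  intro n
  induction n using Nat.strong_induction_on with
  | _ n ih =>
  intro T hn hT
  rcases Nat.even_or_odd T.card with hev | hodd
  swap
  · refine ⟨univ, by simpa using hodd, ?_⟩
    simp [cut]
  obtain ⟨u, hu⟩ := hT
  have h2 : 1 < T.card := by
    have := Finset.card_pos.mpr ⟨u, hu⟩
    obtain ⟨m, hm⟩ := hev
    omega
  obtain ⟨v, hv, hvu⟩ := Finset.exists_mem_ne h2 u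
  obtain ⟨S1, h3, h4, h5⟩ := hk u v hvu.symm
  obtain ⟨S0, hS0, hmin⟩ := Finset.exists_min_image
    ((univ : Finset (Finset V)).filter (fun S => (∃ a ∈ T, a ∈ S) ∧ ∃ b ∈ T, b ∉ S)) (cut G)
    ⟨S1, mem_filter.mpr ⟨mem_univ _, ⟨u, hu, h3⟩, ⟨v, hv, h4⟩⟩⟩
  obtain ⟨⟨a, haT, haS⟩, ⟨b, hbT, hbS⟩⟩ := (mem_filter.mp hS0).2
  have h6 : cut G S0 ≤ k :=
    (hmin S1 (mem_filter.mpr ⟨mem_univ _, ⟨u, hu, h3⟩, ⟨v, hv, h4⟩⟩)).trans h5
  rcases Nat.even_or_odd (S0 ∩ T).card with hev' | hodd'
  swap
  · exact ⟨S0, hodd', h6⟩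
  have hlt : (S0 ∩ T).card < n := by
    rw [← hn]
    exact Finset.card_lt_card ⟨inter_subset_right, fun h => hbS (mem_inter.mp (h hbT)).1⟩
  obtain ⟨Q, hQ1, hQ2⟩ := ih _ hlt (S0 ∩ T) rfl ⟨a, mem_inter.mpr ⟨haS, haT⟩⟩
  have key : ∀ Q : Finset V, Odd (Q ∩ (S0 ∩ T)).card → cut G Q ≤ k → b ∉ Q →
      ∃ S : Finset V, Odd (S ∩ T).card ∧ cut G S ≤ k := by
    intro Q h7 h8 h9
    refine ⟨Q ∩ S0, by rwa [inter_assoc], ?_⟩
    have h10 := hmin (Q ∪ S0) (mem_filter.mpr ⟨mem_univ _, ⟨a, haT, mem_union_right _ haS⟩,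
      ⟨b, hbT, by simp [h9, hbS]⟩⟩)
    have := cut_submod (G := G) Q S0
    omega
  by_cases hb : b ∈ Q
  · refine key Qᶜ ?_ (by rwa [cut_compl]) (by simpa using hb)
    have h11 : (Q ∩ (S0 ∩ T)).card + (Qᶜ ∩ (S0 ∩ T)).card = (S0 ∩ T).card := by
      rw [← Finset.card_union_of_disjoint, ← union_inter_distrib_right, union_compl, univ_inter]
      exact Finset.disjoint_left.mpr (fun x h1 h2 =>
        (mem_compl.mp (mem_inter.mp h2).1) (mem_inter.mp h1).1)
    rw [Nat.odd_iff] at hQ1 ⊢
    rw [Nat.even_iff] at hev'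
    omega
  · exact key Q hQ1 hQ2 hb

end H13EM
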