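import Mathlib

set_option autoImplicit false

/-! Affine groups of representations, augmentation filtrations and dimension counts. -/

namespace H13GS
open Module Submodule

variable {F : Type} [Field F] {G G' : Type} [Group G] [Group G'] {M M' : Type}
  [AddCommGroup M] [Module F M] [AddCommGroup M'] [Module F M']

@[ext] structure Aff (ρ : Representation F G M) where
  v : M
  g : G

instance (ρ : Representation F G M) : Mul (Aff ρ) := ⟨fun a b => ⟨a.v + ρ a.g b.v, a.g * b.g⟩⟩
instance (ρ : Representation F G M) : One (Aff ρ) := ⟨⟨0, 1⟩⟩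
instance (ρ : Representation F G M) : Inv (Aff ρ) := ⟨fun a => ⟨-ρ a.g⁻¹ a.v, a.g⁻¹⟩⟩

variable {ρ : Representation F G M} {ρ' : Representation F G' M'}

@[simp] theorem mul_v (a b : Aff ρ) : (a * b).v = a.v + ρ a.g b.v := rfl
@[simp] theorem mul_g (a b : Aff ρ) : (a * b).g = a.g * b.g := rfl
@[simp] theorem one_v : (1 : Aff ρ).v = 0 := rfl
@[simp] theorem one_g : (1 : Aff ρ).g = 1 := rfl
@[simp] theorem inv_v (a : Aff ρ) : a⁻¹.v = -ρ a.g⁻¹ a.v := rfl
@[simp] theorem inv_g (a : Aff ρ) : a⁻¹.g = a.g⁻¹ := rfl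

instance (ρ : Representation F G M) : Group (Aff ρ) := Group.ofLeftAxioms
  (fun a b c => by ext <;> simp [add_assoc, mul_assoc])
  (fun a => by ext <;> simp) (fun a => by ext <;> simp)

def Aff.map (π : G →* G') (φ : M →ₗ[F] M') (h : ∀ g m, φ (ρ g m) = ρ' (π g) (φ m)) :
    Aff ρ →* Aff ρ' where
  toFun a := ⟨φ a.v, π a.g⟩
  map_one' := by ext <;> simp
  map_mul' a b := by ext <;> simp [h]

def Aff.snd (ρ : Representation F G M) : Aff ρ →* G where
  toFun a := a.g
  map_one' := rfl
  map_mul' _ _ := rfl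

def Aff.cob (ρ : Representation F G M) (v : M) : G →* Aff ρ where
  toFun g := ⟨ρ g v - v, g⟩
  map_one' := by ext <;> simp
  map_mul' a b := by ext <;> simp

def comm (a : ℕ) (x y : G) : G := (fun z => z⁻¹ * y⁻¹ * z * y)^[a] x

theorem comm_succ (a : ℕ) (x y : G) :
    comm (a + 1) x y = (comm a x y)⁻¹ * y⁻¹ * comm a x y * y := Function.iterate_succ_apply' _ _ _

theorem map_comm (φ : G →* G') (a : ℕ) (x y : G) : φ (comm a x y) = comm a (φ x) (φ y) := by
  induction a with
  | zero => rfl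
  | succ a ih => simp only [comm_succ, map_mul, map_inv, ih]

theorem comm_mul {a : ℕ} {x y : G} (h : comm a x y = x) (k : ℕ) : comm (a * k) x y = x :=
  (Function.IsPeriodicPt.mul_const h k :)

theorem periodic [Finite M] {a : ℕ} {x y : G} (h : comm a x y = x)
    (hy : ∀ w, ρ y⁻¹ w = w → w = 0) (w1 w2 : M) :
    ∃ k, 0 < k ∧ comm (a * k) (⟨w1, x⟩ : Aff ρ) ⟨w2, y⟩ = ⟨w1, x⟩ := by
  have hg : ∀ n w, (comm n (⟨w, x⟩ : Aff ρ) ⟨w2, y⟩).g = comm n x y :=
    fun n w => map_comm (Aff.snd ρ) n _ _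
  have inj : ∀ n, Function.Injective (fun w => (comm n (⟨w, x⟩ : Aff ρ) ⟨w2, y⟩).v) := by
    intro n
    induction n with
    | zero => exact fun _ _ h => h
    | succ n ih =>
      intro w w' h1
      apply ih
      simp only [comm_succ, mul_v, mul_g, inv_v, inv_g, hg, add_left_inj, map_mul,
        Module.End.mul_apply] at h1 ⊢
      rw [← sub_eq_zero]
      apply hy
      apply (ρ.apply_bijective (comm n x y)⁻¹).1
      simp only [map_sub]
      linear_combination (norm := abel) h1
  obtain ⟨k, hk, h1⟩ := Function.mem_periodicPts.mp ((inj a).mem_periodicPts w1)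
  refine ⟨k, hk, ?_⟩
  have : ∀ n w, comm (a * n) (⟨w, x⟩ : Aff ρ) ⟨w2, y⟩ =
      ⟨(fun w => (comm a (⟨w, x⟩ : Aff ρ) ⟨w2, y⟩).v)^[n] w, x⟩ := by
    intro n
    induction n with
    | zero => intro w; rfl
    | succ n ih =>
      intro w
      rw [Function.iterate_succ_apply, ← ih, Nat.mul_succ, comm, Function.iterate_add_apply]
      congr 1
      ext
      · rfl
      · exact (hg a w).trans h
  rw [this, h1.eq]

def fil (ρ : Representation F G M) : ℕ → Submodule F M
  | 0 => ⊤
  | n + 1 => span F {u | ∃ g, ∃ m ∈ fil ρ n, u = ρ g m - m}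

theorem mem_fil {n : ℕ} {m : M} (h : m ∈ fil ρ n) (g : G) : ρ g m - m ∈ fil ρ (n + 1) :=
  subset_span ⟨g, m, h, rfl⟩

theorem fil_le {n : ℕ} {S : Submodule F M} (h : ∀ g, ∀ m ∈ fil ρ n, ρ g m - m ∈ S) :
    fil ρ (n + 1) ≤ S := span_le.mpr (by rintro _ ⟨g, m, hm, rfl⟩; exact h g m hm)

theorem fil_map {σ : Representation F G M'} (φ : M →ₗ[F] M') (h : ∀ g m, φ (ρ g m) = σ g (φ m))
    (k : ℕ) (hk : ∀ m, φ m ∈ fil σ k) : ∀ n, fil ρ n ≤ (fil σ (k + n)).comap φ
  | 0 => fun m _ => hk m
  | n + 1 => fil_le (fun g m hm => by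
      rw [mem_comap, map_sub, h]; exact mem_fil (fil_map φ h k hk n hm) g)

theorem fil_map' {σ : Representation F G M'} (φ : M →ₗ[F] M') (h : ∀ g m, φ (ρ g m) = σ g (φ m))
    (n : ℕ) : fil ρ n ≤ (fil σ n).comap φ := by
  simpa using fil_map φ h 0 (fun _ => mem_top) n

theorem fil_anti : ∀ n, fil ρ (n + 1) ≤ fil ρ n
  | 0 => le_top
  | n + 1 => fil_le (fun g _ hm => mem_fil (fil_anti n hm) g)

theorem fil_stab {n : ℕ} {m : M} (h : m ∈ fil ρ n) (g : G) : ρ g m ∈ fil ρ n := by
  simpa using add_mem (fil_anti n (mem_fil h g)) h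

def reg (F G : Type) [Field F] [Group G] : Representation F G (G → F) where
  toFun g := LinearMap.funLeft F F (fun h => g⁻¹ * h)
  map_one' := by ext; simp
  map_mul' a b := by ext; simp [mul_assoc]

@[simp] theorem reg_apply (g h : G) (f : G → F) : reg F G g f h = f (g⁻¹ * h) := rfl

theorem reg_single [DecidableEq G] (g h : G) :
    reg F G g (Pi.single h 1) = Pi.single (g * h) 1 := by
  ext t; simp [Pi.single_apply, inv_mul_eq_iff_eq_mul]

noncomputable def orb [Fintype G] (ρ : Representation F G M) (m : M) : (G → F) →ₗ[F] M :=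
  Fintype.linearCombination F (fun h => ρ h m)

theorem orb_reg [Fintype G] (m : M) (g : G) (f : G → F) :
    orb ρ m (reg F G g f) = ρ g (orb ρ m f) := by
  simp only [orb, Fintype.linearCombination_apply, map_sum, map_smul, reg_apply]
  rw [← Equiv.sum_comp (Equiv.mulLeft g)]
  simp

theorem orb_single [Fintype G] [DecidableEq G] (m : M) (g : G) :
    orb ρ m (Pi.single g 1) = ρ g m := by
  simp [orb]

theorem orb_mem [Fintype G] {S : Submodule F M} {m : M} (h : ∀ g, ρ g m ∈ S) (f : G → F) :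
    orb ρ m f ∈ S := by
  rw [orb, Fintype.linearCombination_apply]
  exact sum_mem (fun g _ => smul_mem _ _ (h g))

theorem count1 [FiniteDimensional F M] [FiniteDimensional F M'] (S : Submodule F M)
    (φ : M' →ₗ[F] M) (U : Submodule F M') (h : U ≤ S.comap φ) :
    finrank F ↥(S ⊔ LinearMap.range φ) ≤ finrank F S + (finrank F M' - finrank F U) := by
  obtain ⟨U', hU⟩ := U.exists_isCompl
  have h1 := finrank_add_eq_of_isCompl hU
  have h2 : S ⊔ LinearMap.range φ ≤ S ⊔ U'.map φ := by
    rw [← Submodule.map_top, ← hU.sup_eq_top, Submodule.map_sup]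
    exact sup_le le_sup_left (sup_le (le_sup_of_le_left (map_le_iff_le_comap.mpr h)) le_sup_right)
  have h3 := finrank_mono h2
  have h4 := finrank_add_le_finrank_add_finrank S (U'.map φ)
  have h5 := finrank_map_le φ U'
  omega

theorem count [FiniteDimensional F M] [FiniteDimensional F M'] {J : Type} (s : Finset J)
    (S : Submodule F M) (φ : J → M' →ₗ[F] M) (U : Submodule F M') (h : ∀ j, U ≤ S.comap (φ j)) :
    finrank F ↥(S ⊔ ⨆ j ∈ s, LinearMap.range (φ j)) ≤
      finrank F S + s.card * (finrank F M' - finrank F U) := by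
  classical
  induction s using Finset.induction_on with
  | empty =>
    have : (⨆ j ∈ (∅ : Finset J), LinearMap.range (φ j)) = ⊥ := by simp
    rw [this, sup_bot_eq]; simp
  | insert j s hj ih =>
    rw [Finset.iSup_insert, sup_comm (LinearMap.range (φ j)), ← sup_assoc,
      Finset.card_insert_of_notMem hj, add_mul, one_mul, ← add_assoc]
    exact (count1 _ (φ j) U ((h j).trans (comap_mono le_sup_left))).trans
      (Nat.add_le_add_right ih _)

end H13GS
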