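import Mathlib
import Pool.Agent.Lib.helper13.GS1

set_option autoImplicit false

/-! A Golod-Shafarevich argument for balanced two-generator presentations. -/

namespace H13GS
open Module Submodule Classical

variable (F : Type) [Field F] {G : Type} [Group G]

noncomputable def r1 (G : Type) [Group G] : Representation F G ((G → F) × (G → F)) :=
  (reg F G).prod (reg F G)

noncomputable def ee (G : Type) [Group G] (i : Bool) : (G → F) × (G → F) :=
  if i then (Pi.single 1 1, 0) else (0, Pi.single 1 1)

noncomputable def kk (a b : ℕ) (x y : G) (i : Bool) : (G → F) × (G → F) :=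
  if i then (comm a (⟨ee F G true, x⟩ : Aff (r1 F G)) ⟨ee F G false, y⟩).v - ee F G true
  else (comm b (⟨ee F G false, y⟩ : Aff (r1 F G)) ⟨ee F G true, x⟩).v - ee F G false

variable {F}

theorem eq_top [Fintype G] {S : Submodule F ((G → F) × (G → F))}
    (h : ∀ g i, r1 F G g (ee F G i) ∈ S) : ⊤ ≤ S := by
  rintro ⟨f1, f2⟩ -
  have : (f1, f2) = orb (r1 F G) (ee F G true) f1 + orb (r1 F G) (ee F G false) f2 := by
    simp only [orb, Fintype.linearCombination_apply, r1, ee, Representation.prod]
    ext t <;> simp [Prod.fst_sum, Prod.snd_sum, Pi.single_apply, inv_mul_eq_one, Finset.sum_apply]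
  rw [this]
  exact add_mem (orb_mem (fun g => h g _) _) (orb_mem (fun g => h g _) _)

theorem sum_zero {H : Type} [Group H] [Fintype H] (n : ℕ) {f : H → F}
    (h : f ∈ fil (reg F H) (n + 1)) : ∑ t, f t = 0 := by
  have : fil (reg F H) (n + 1) ≤ LinearMap.ker (Fintype.linearCombination F (fun _ => (1 : F))) :=
    fil_le (fun g m _ => by
      simp only [LinearMap.mem_ker, Fintype.linearCombination_apply, Pi.sub_apply, reg_apply,
        smul_eq_mul, mul_one, Finset.sum_sub_distrib]
      rw [← Equiv.sum_comp (Equiv.mulLeft g⁻¹) m]; simp)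
  simpa [Fintype.linearCombination_apply] using this h

theorem recur (c : ℕ → ℕ) (q s N : ℕ) (hq : 36 ≤ q) (hs : 2 * s ≤ q + 2) (h0 : c 0 = 0)
    (h1 : 1 ≤ c 1) (hN : ∀ n, c n ≤ N)
    (h : ∀ n, q * c (n + 1) ≤ c (n + 2) + s * c (n + 1) + 2 * q * c n) : False := by
  have key : ∀ n, 8 * c n ≤ c (n + 1) ∧ n + 1 ≤ c (n + 1) := by
    intro n
    induction n with
    | zero => exact ⟨by rw [h0]; exact Nat.zero_le _, h1⟩
    | succ n ih =>
      have h2 := h n
      have h3 := Nat.mul_le_mul_left q ih.1
      have h4 := Nat.mul_le_mul_right (c (n + 1)) hs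
      have h5 := Nat.mul_le_mul_right (c (n + 1)) hq
      have h6 : 8 * c (n + 1) ≤ c (n + 1 + 1) := by nlinarith
      omega
  have := (key N).2
  have := hN (N + 1)
  omega

theorem gs [Fintype G] {Q : Type} [Group Q] [Fintype Q] (π : G →* Q) (hπ : Function.Surjective π)
    {a b : ℕ} {x y : G} (hx : comm a x y = x) (hy : comm b y x = y)
    (hgen : Subgroup.closure {x, y} = ⊤)
    (huniv : ∀ (Γ : Type) [Group Γ] (X Y : Γ), comm a X Y = X → comm b Y X = Y →
      ∃ s : G →* Γ, s x = X ∧ s y = Y)
    {W : Type} [AddCommGroup W] [Module F W] (Φ : ((G → F) × (G → F)) →ₗ[F] W)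
    (hΦ : ∀ h : π.ker, ∀ m, Φ (r1 F G h m) = Φ m)
    (hk : ∀ g i, Φ (r1 F G g (kk F a b x y i)) = 0)
    (hμ : 3 * Fintype.card Q ≤ 2 * finrank F (LinearMap.range Φ) + 2)
    (hq : 36 ≤ Fintype.card Q) : False := by
  set q := Fintype.card Q with hqd
  let ρ : Representation F π.ker _ := (r1 F G).comp π.ker.subtype
  let σ := Function.surjInv hπ
  have dec : ∀ g, ∃ h : π.ker, g = h * σ (π g) := fun g =>
    ⟨⟨g * (σ (π g))⁻¹, by simp [σ, Function.surjInv_eq]⟩, by simp⟩
  have act : ∀ g m, ∃ h : π.ker, r1 F G g m = ρ h (r1 F G (σ (π g)) m) := fun g m => by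
    obtain ⟨h, e⟩ := dec g
    exact ⟨h, (congrArg (fun u => r1 F G u m) e).trans (by simp only [map_mul]; rfl)⟩
  let K : Submodule F _ := span F {u | ∃ g i, u = r1 F G g (kk F a b x y i)}
  have hK : ∀ g, K ≤ K.comap (r1 F G g) := fun g => span_le.mpr (by
    rintro _ ⟨h, i, rfl⟩
    exact subset_span ⟨g * h, i, by simp⟩)
  have cq : (Finset.univ : Finset (Q × Bool)).card = 2 * q := by simp [hqd, mul_comm]
  have hF1 : finrank F ((G → F) × (G → F)) = 2 * q * finrank F (π.ker → F) := by
    have h1 := π.ker.card_mul_index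
    rw [Subgroup.index_ker, MonoidHom.range_eq_top.mpr hπ, Subgroup.card_top] at h1
    simp only [finrank_prod, finrank_fintype_fun_eq_card, ← Nat.card_eq_fintype_card, hqd, ← h1]
    ring
  have hB : ∀ n, finrank F (fil ρ n) ≤ 2 * q * finrank F (fil (reg F π.ker) n) := by
    intro n
    let R : Q × Bool → ((G → F) × (G → F)) →ₗ[F] (π.ker → F) := fun j =>
      (LinearMap.funLeft F F (fun h : π.ker => h * σ j.1)).comp
        (if j.2 then LinearMap.fst F _ _ else LinearMap.snd F _ _)
    have hR : ∀ j, fil ρ n ≤ (fil (reg F π.ker) n).comap (R j) := fun j =>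
      fil_map' (R j) (fun g m => by
        rcases j with ⟨t, _ | _⟩ <;> ext h <;>
          simp [R, ρ, r1, Representation.prod, mul_assoc]) n
    have := LinearMap.finrank_le_finrank_of_injective
      (f := LinearMap.pi (fun j => (R j).restrict (p := fil ρ n) (fun m hm => hR j hm))) (by
        rw [← LinearMap.ker_eq_bot, LinearMap.ker_eq_bot']
        intro m hm
        ext g <;> obtain ⟨h, e⟩ := dec g <;> rw [e]
        · exact congrFun (congrArg Subtype.val (congrFun hm (π g, true))) h
        · exact congrFun (congrArg Subtype.val (congrFun hm (π g, false))) h)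
    rwa [finrank_pi_fintype, Finset.sum_const, cq, smul_eq_mul] at this
  -- relation module
  set s := finrank F (K.map (fil ρ 1).mkQ) with hs
  have hs2 : s + finrank F (LinearMap.range Φ) ≤ 2 * q := by
    have h1 : fil ρ 1 ≤ LinearMap.ker Φ := fil_le (fun g m _ => by
      rw [LinearMap.mem_ker, map_sub, sub_eq_zero]; exact hΦ g m)
    have h2 := LinearMap.finrank_range_add_finrank_ker ((fil ρ 1).liftQ Φ h1)
    have h3 : K.map (fil ρ 1).mkQ ≤ LinearMap.ker ((fil ρ 1).liftQ Φ h1) := by
      rw [map_le_iff_le_comap]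
      refine span_le.mpr ?_
      rintro _ ⟨g, i, rfl⟩
      exact hk g i
    have h4 := finrank_mono h3
    have h5 := (fil ρ 1).finrank_quotient_add_finrank
    have h6 := count Finset.univ (fil ρ 1) (fun j : Q × Bool =>
      LinearMap.toSpanSingleton F _ (r1 F G (σ j.1) (ee F G j.2))) ⊥ (fun _ => bot_le)
    generalize hS : fil ρ 1 ⊔ ⨆ j ∈ (Finset.univ : Finset (Q × Bool)), LinearMap.range
      (LinearMap.toSpanSingleton F _ (r1 F G (σ j.1) (ee F G j.2))) = S at h6
    rw [top_le_iff.mp (eq_top (S := S) (fun g i => by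
      obtain ⟨h, e⟩ := act g (ee F G i)
      rw [e, ← sub_add_cancel (ρ h _) (r1 F G (σ (π g)) (ee F G i)), ← hS]
      exact add_mem_sup (mem_fil mem_top h) (mem_iSup_of_mem (π g, i)
        (mem_iSup_of_mem (Finset.mem_univ _) (LinearMap.mem_range.mpr ⟨1, by simp⟩))))), cq] at h6
    rw [range_liftQ] at h2
    simp only [finrank_top, finrank_self, finrank_bot] at h6
    omega
  have hC : ∀ n, finrank F ↥(K ⊔ fil ρ (n + 1)) ≤ finrank F (fil ρ (n + 1)) +
      s * (finrank F (π.ker → F) - finrank F (fil (reg F π.ker) (n + 1))) +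
      2 * q * (finrank F (π.ker → F) - finrank F (fil (reg F π.ker) n)) := by
    intro n
    let bP := finBasis F (K.map (fil ρ 1).mkQ)
    choose u hu hu' using fun l => (bP l).2
    have hκ : ∀ j : Q × Bool, ∃ co : Fin s → F,
        r1 F G (σ j.1) (kk F a b x y j.2) - ∑ l, co l • u l ∈ fil ρ 1 := by
      intro j
      let p : K.map (fil ρ 1).mkQ := ⟨_, mem_map_of_mem (subset_span ⟨σ j.1, j.2, rfl⟩)⟩
      refine ⟨bP.repr p, (Submodule.Quotient.eq _).mp ?_⟩
      have := congrArg Subtype.val (bP.sum_repr p)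
      simp only [AddSubmonoidClass.coe_finsetSum, coe_smul, ← hu', ← map_smul, ← map_sum] at this
      exact this.symm
    choose co hco using hκ
    have h1 := count Finset.univ (fil ρ (n + 1)) (fun l => orb ρ (u l)) _
      (fun l => fil_map' _ (orb_reg _) (n + 1))
    have h2 := count Finset.univ (fil ρ (n + 1) ⊔ ⨆ l ∈ Finset.univ, LinearMap.range (orb ρ (u l)))
      (fun j : Q × Bool => orb ρ (r1 F G (σ j.1) (kk F a b x y j.2) - ∑ l, co j l • u l)) _
      (fun j => (fil_map _ (orb_reg _) 1 (orb_mem (fil_stab (hco j))) n).trans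
        (comap_mono (by rw [add_comm]; exact le_sup_left)))
    rw [cq] at h2
    rw [Finset.card_univ, Fintype.card_fin] at h1
    refine le_trans (finrank_mono (sup_le (span_le.mpr ?_) (le_sup_of_le_left le_sup_left)))
      (h2.trans (Nat.add_le_add_right h1 _))
    rintro _ ⟨g, i, rfl⟩
    obtain ⟨h, e⟩ := act g (kk F a b x y i)
    rw [e, ← add_sub_cancel (∑ l, co (π g, i) l • u l) (r1 F G (σ (π g)) _),
      map_add, map_sum]
    refine add_mem_sup (mem_sup_right (sum_mem (fun l _ => ?_))) (mem_iSup_of_mem (π g, i)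
      (mem_iSup_of_mem (Finset.mem_univ _) ⟨_, orb_single _ h⟩))
    rw [map_smul]
    exact smul_mem _ _ (mem_iSup_of_mem l (mem_iSup_of_mem (Finset.mem_univ _) ⟨_, orb_single _ h⟩))
  -- the universal cocycle
  let τ := (r1 F G).quotient K hK
  let p : Aff (r1 F G) →* Aff τ := Aff.map (MonoidHom.id G) K.mkQ (fun _ _ => rfl)
  have hk0 : ∀ i, kk F a b x y i ∈ K := fun i => subset_span ⟨1, i, by simp⟩
  obtain ⟨t, tx, ty⟩ := huniv (Aff τ) (p ⟨ee F G true, x⟩) (p ⟨ee F G false, y⟩)
    (by rw [← map_comm]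
        exact Aff.ext ((Submodule.Quotient.eq _).mpr (hk0 true))
          ((map_comm (Aff.snd _) a _ _).trans hx))
    (by rw [← map_comm]
        exact Aff.ext ((Submodule.Quotient.eq _).mpr (hk0 false))
          ((map_comm (Aff.snd _) b _ _).trans hy))
  have tg : ∀ g, (t g).g = g := DFunLike.congr_fun
    (MonoidHom.eq_of_eqOn_dense hgen (f := (Aff.snd τ).comp t) (g := MonoidHom.id G) (by
      rintro _ (rfl | rfl)
      · exact congrArg Aff.g tx
      · exact congrArg Aff.g ty))
  have tc : ∀ g h, (t (g * h)).v = (t g).v + τ g (t h).v := fun g h => by rw [map_mul, mul_v, tg]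
  let τH : Representation F π.ker _ := τ.comp π.ker.subtype
  let D := Fintype.linearCombination F (fun h : π.ker => (t h).v)
  have hD : ∀ n, fil (reg F π.ker) (n + 1) ≤ (fil τH n).comap D := by
    intro n
    induction n with
    | zero => exact fun _ _ => mem_top
    | succ n ih =>
      refine fil_le (fun g m hm => ?_)
      have : D (reg F π.ker g m) = τH g (D m) := by
        simp only [D, Fintype.linearCombination_apply, map_sum, map_smul, reg_apply]
        rw [← Equiv.sum_comp (Equiv.mulLeft g)]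
        simp only [Equiv.coe_mulLeft, inv_mul_cancel_left, Subgroup.coe_mul, tc, smul_add,
          Finset.sum_add_distrib, ← Finset.sum_smul, sum_zero n hm, zero_smul, zero_add]
        rfl
      rw [mem_comap, map_sub, this]
      exact mem_fil (ih hm) g
  have hA : ∀ n, finrank F ((G → F) × (G → F)) ≤ finrank F ↥(K ⊔ fil ρ n) +
      (finrank F (π.ker → F) - finrank F (fil (reg F π.ker) (n + 1))) +
      q * (finrank F (π.ker → F) - finrank F (fil (reg F π.ker) n)) := by
    intro n
    have h1 := count1 (fil τH n) D _ (hD n)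
    have h2 := count Finset.univ (fil τH n ⊔ LinearMap.range D) (fun j : Q => orb τH (t (σ j)).v) _
      (fun j => (fil_map' _ (orb_reg _) n).trans (comap_mono le_sup_left))
    generalize hS : (fil τH n ⊔ LinearMap.range D) ⊔ ⨆ j ∈ Finset.univ,
      LinearMap.range (orb τH (t (σ j)).v) = S at h2
    have h3 : ∀ g, (t g).v ∈ S := by
      intro g
      obtain ⟨h, e⟩ := dec g
      rw [e, tc, ← hS]
      exact add_mem_sup (mem_sup_right ⟨Pi.single h 1, by simp [D]⟩) (mem_iSup_of_mem (π g)
        (mem_iSup_of_mem (Finset.mem_univ _) ⟨_, orb_single _ h⟩))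
    have h4 : S = ⊤ := by
      rw [← map_comap_eq_of_surjective K.mkQ_surjective S,
        top_le_iff.mp (eq_top (S := S.comap K.mkQ) (fun g i => ?_)),
        Submodule.map_top, range_mkQ]
      cases i
      · have := sub_mem (h3 (g * y)) (h3 g)
        rwa [tc, add_sub_cancel_left, ty] at this
      · have := sub_mem (h3 (g * x)) (h3 g)
        rwa [tc, add_sub_cancel_left, tx] at this
    have h5 : ∀ n, fil τH n ≤ (K ⊔ fil ρ n).map K.mkQ := by
      intro n
      induction n with
      | zero => exact fun m _ => (K.mkQ_surjective m).imp fun u hu => ⟨mem_sup_right mem_top, hu⟩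
      | succ n ih =>
        refine fil_le (fun g m hm => ?_)
        obtain ⟨u, hu, rfl⟩ := ih hm
        obtain ⟨u1, h6, u2, h7, rfl⟩ := mem_sup.mp hu
        refine ⟨ρ g (u1 + u2) - (u1 + u2), ?_, rfl⟩
        rw [map_add, add_sub_add_comm]
        exact add_mem_sup (sub_mem (hK g h6) h6) (mem_fil h7 g)
    have h6 := finrank_mono (h5 n)
    have h7 := (quotientQuotientEquivQuotient K (K ⊔ fil ρ n) le_sup_left).finrank_eq
    have h8 := ((K ⊔ fil ρ n).map K.mkQ).finrank_quotient_add_finrank
    have h9 := (K ⊔ fil ρ n).finrank_quotient_add_finrank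
    rw [h4, finrank_top, Finset.card_univ, ← hqd] at h2
    omega
  refine recur (fun n => finrank F (π.ker → F) - finrank F (fil (reg F π.ker) n)) q s _ hq
    (by omega) (Nat.sub_eq_zero_of_le (finrank_top F _).ge) ?_ (fun n => Nat.sub_le _ _) (fun n => ?_)
  · refine Nat.sub_pos_of_lt (finrank_lt (fun h => ?_))
    have := sum_zero 0 (h.ge (mem_top (x := Pi.single (1 : π.ker) (1 : F))))
    simp at this
  · have h1 := hA (n + 1)
    have h2 := hC n
    have h3 := hB (n + 1)
    have h4 := (fil (reg F π.ker) (n + 1)).finrank_le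
    obtain ⟨d, hd⟩ := Nat.exists_eq_add_of_le h4
    simp only [hF1] at h1
    have h5 : finrank F (π.ker → F) - finrank F (fil (reg F π.ker) (n + 1)) = d := by omega
    simp only [h5] at h1 h2 ⊢
    nth_rewrite 1 [hd] at h1
    nlinarith

end H13GS
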