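import Mathlib
import Pool.Agent.Lib.helper13.GS2

set_option autoImplicit false

/-! Infinite groups `⟨x, y | x = [x, _a y], y = [y, _b x]⟩`. -/

namespace H13GS
open Module Submodule Classical

variable {F : Type} [Field F] {G Q : Type} [Group G] [Group Q] [Fintype G]
  {W : Type} [AddCommGroup W] [Module F W]

noncomputable def phi (π : G →* Q) (ρ : Representation F Q W) (w1 w2 : W) :
    ((G → F) × (G → F)) →ₗ[F] W := (orb (ρ.comp π) w1).coprod (orb (ρ.comp π) w2)

theorem phi_act (π : G →* Q) (ρ : Representation F Q W) (w1 w2 : W) (g : G) (m) :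
    phi π ρ w1 w2 (r1 F G g m) = ρ (π g) (phi π ρ w1 w2 m) := by
  simp only [phi, r1, Representation.prod, LinearMap.coprod_apply, MonoidHom.coe_mk,
    OneHom.coe_mk, LinearMap.prodMap_apply, orb_reg, map_add]
  rfl

theorem phi_ee (π : G →* Q) (ρ : Representation F Q W) (w1 w2 : W) :
    phi π ρ w1 w2 (ee F G true) = w1 ∧ phi π ρ w1 w2 (ee F G false) = w2 := by
  constructor <;> simp [phi, ee, orb]

theorem phi_kk (π : G →* Q) (ρ : Representation F Q W) (w1 w2 : W) {a b : ℕ} {x y : G}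
    (h1 : comm a (⟨w1, π x⟩ : Aff ρ) ⟨w2, π y⟩ = ⟨w1, π x⟩)
    (h2 : comm b (⟨w2, π y⟩ : Aff ρ) ⟨w1, π x⟩ = ⟨w2, π y⟩) (g : G) (i : Bool) :
    phi π ρ w1 w2 (r1 F G g (kk F a b x y i)) = 0 := by
  let p : Aff (r1 F G) →* Aff ρ := Aff.map π (phi π ρ w1 w2) (phi_act π ρ w1 w2)
  have e1 : p ⟨ee F G true, x⟩ = ⟨w1, π x⟩ := Aff.ext (phi_ee π ρ w1 w2).1 rfl
  have e2 : p ⟨ee F G false, y⟩ = ⟨w2, π y⟩ := Aff.ext (phi_ee π ρ w1 w2).2 rfl
  rw [phi_act]
  suffices phi π ρ w1 w2 (kk F a b x y i) = 0 by rw [this, map_zero]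
  rw [← e1, ← e2, ← map_comm] at h1 h2
  cases i
  · exact (map_sub _ _ _).trans (sub_eq_zero.mpr (congrArg Aff.v h2))
  · exact (map_sub _ _ _).trans (sub_eq_zero.mpr (congrArg Aff.v h1))

def rels (a b : ℕ) : Set (FreeGroup (Fin 2)) :=
  {comm a (FreeGroup.of 0) (FreeGroup.of 1) * (FreeGroup.of 0)⁻¹,
    comm b (FreeGroup.of 1) (FreeGroup.of 0) * (FreeGroup.of 1)⁻¹}

theorem univ (a b : ℕ) (Γ : Type) [Group Γ] (X Y : Γ) (h1 : comm a X Y = X) (h2 : comm b Y X = Y) :
    ∃ s : PresentedGroup (rels a b) →* Γ, s (.of 0) = X ∧ s (.of 1) = Y :=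
  ⟨PresentedGroup.toGroup (f := ![X, Y]) (by
    rintro _ (rfl | rfl) <;> simp [map_comm, h1, h2]), by simp, by simp⟩

theorem main (F : Type) [Field F] [Finite F] (h2 : (2 : F) ≠ 0) {Q : Type} [Group Q] [Fintype Q]
    (x y z : Q) (hgen : Subgroup.closure {x, y} = ⊤) (hz : ∀ g, z * g = g * z) (hz1 : z ≠ 1)
    (hz2 : z * z = 1) {n a b : ℕ} (hxz : x ^ n = z) (hyz : y ^ n = z) (ha : 0 < a) (hb : 0 < b)
    (hx : comm a x y = x) (hy : comm b y x = y) (hq : 36 ≤ Fintype.card Q) :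
    ∃ A B, 1 ≤ A ∧ 1 ≤ B ∧ ¬ Finite (PresentedGroup (rels A B)) := by
  let P : (Q → F) →ₗ[F] (Q → F) := reg F Q z + LinearMap.id
  have hzi : z⁻¹ = z := inv_eq_of_mul_eq_one_right hz2
  have hP : ∀ g f, P (reg F Q g f) = reg F Q g (P f) := by
    intro g f; ext t; simp [P, ← mul_assoc, hzi, hz]
  have mV : ∀ f, f ∈ LinearMap.ker P ↔ ∀ t, f (z * t) = - f t := by
    intro f; simp [P, funext_iff, hzi, add_eq_zero_iff_eq_neg]
  let ρ := (reg F Q).subrepresentation (LinearMap.ker P) (fun g f hf => by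
    rw [mem_comap, LinearMap.mem_ker, hP, LinearMap.mem_ker.mp hf, map_zero])
  have ρz : ∀ w, ρ z w = -w := fun w => Subtype.ext (funext fun t => by
    have := (mV _).mp w.2 t
    rwa [← hzi] at this)
  have free : ∀ u : Q, u ^ n = z → ∀ w, ρ u⁻¹ w = w → w = 0 := by
    intro u hu w h
    have h3 : ∀ k : ℕ, ρ (u⁻¹ ^ k) w = w := by
      intro k
      induction k with
      | zero => simp
      | succ k ih => rw [pow_succ, map_mul, Module.End.mul_apply, h, ih]
    have h4 := h3 n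
    rw [inv_pow, hu, hzi, ρz, neg_eq_iff_add_eq_zero, ← two_smul F] at h4
    exact (smul_eq_zero.mp h4).resolve_left h2
  let e : LinearMap.ker P := ⟨Pi.single 1 1 - Pi.single z 1, by
    simp [P, reg_single, hz2]⟩
  obtain ⟨k1, p1, q1⟩ := periodic hx (free y hyz) e 0
  obtain ⟨k2, p2, q2⟩ := periodic hx (free y hyz) 0 e
  obtain ⟨l1, p3, q3⟩ := periodic hy (free x hxz) 0 e
  obtain ⟨l2, p4, q4⟩ := periodic hy (free x hxz) e 0
  refine ⟨a * k1 * k2, b * l1 * l2, Nat.mul_pos (Nat.mul_pos ha p1) p2,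
    Nat.mul_pos (Nat.mul_pos hb p3) p4, fun hfin => ?_⟩
  have hx' : comm (a * k1 * k2) x y = x := comm_mul (comm_mul hx _) _
  have hy' : comm (b * l1 * l2) y x = y := comm_mul (comm_mul hy _) _
  replace q1 := comm_mul q1 k2
  replace q2 := comm_mul q2 k1
  replace q3 := comm_mul q3 l2
  replace q4 := comm_mul q4 l1
  rw [mul_right_comm] at q2 q4
  generalize a * k1 * k2 = A at *
  generalize b * l1 * l2 = B at *
  have := Fintype.ofFinite (PresentedGroup (rels A B))
  obtain ⟨π, πx, πy⟩ := univ A B Q x y hx' hy'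
  have hπ : Function.Surjective π := by
    rw [← MonoidHom.range_eq_top, eq_top_iff, ← hgen, Subgroup.closure_le]
    rintro _ (rfl | rfl)
    · exact ⟨_, πx⟩
    · exact ⟨_, πy⟩
  subst πx πy
  let d : Q → F := Pi.single 1 1
  let Φ1 := phi π (reg F Q) (reg F Q (π (.of 0)) d - d) (reg F Q (π (.of 1)) d - d)
  let Φ := (P.comp Φ1).prod ((phi π ρ e 0).prod (phi π ρ 0 e))
  refine gs π hπ (x := .of 0) (y := .of 1) ?_ ?_ ?_ (univ A B) Φ (fun h m => ?_) (fun g i => ?_) ?_ hq
  · have := PresentedGroup.one_of_mem (rels := rels A B) (Or.inl rfl)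
    rwa [map_mul, map_inv, map_comm, mul_inv_eq_one] at this
  · have := PresentedGroup.one_of_mem (rels := rels A B) (Or.inr rfl)
    rwa [map_mul, map_inv, map_comm, mul_inv_eq_one] at this
  · rw [← PresentedGroup.closure_range_of]
    congr 1
    ext g
    simp [Fin.exists_fin_two, eq_comm]
  · simp [Φ, Φ1, phi_act, MonoidHom.mem_ker.mp h.2]
  · have h3 : Φ1 (r1 F _ g (kk F A B (.of 0) (.of 1) i)) = 0 := phi_kk _ _ _ _
      ((map_comm (Aff.cob _ d) A _ _).symm.trans (congrArg _ hx'))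
      ((map_comm (Aff.cob _ d) B _ _).symm.trans (congrArg _ hy')) g i
    simp [Φ, h3, phi_kk π ρ e 0 q1 q3, phi_kk π ρ 0 e q2 q4]
  have c1 := LinearMap.finrank_range_add_finrank_ker P
  rw [finrank_fintype_fun_eq_card] at c1
  have c2 : finrank F (LinearMap.range P) ≤ finrank F (LinearMap.ker P) := by
    let ι := Fintype.equivFin Q
    let χ : Q → F := fun t => if ι t < ι (z * t) then 1 else -1
    have hχ : ∀ t, χ (z * t) = - χ t := by
      intro t
      have : ι t ≠ ι (z * t) := fun h => hz1 (by simpa using ι.injective h)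
      simp only [χ, ← mul_assoc, hz2, one_mul]
      rcases lt_or_gt_of_ne this with h | h <;> simp [h, h.not_gt]
    have hχ0 : ∀ t, χ t ≠ 0 := fun t => by simp only [χ]; split_ifs <;> simp
    refine LinearMap.finrank_le_finrank_of_injective (f := (LinearMap.mulLeft F χ).restrict
      (p := LinearMap.range P) (q := LinearMap.ker P) ?_) (fun u v h => ?_)
    · rintro _ ⟨f, rfl⟩
      rw [mV]
      intro t
      simp [P, hχ, hzi, ← mul_assoc, hz2, add_comm]
    · exact Subtype.ext (funext fun t =>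
        mul_left_cancel₀ (hχ0 t) (congrFun (congrArg Subtype.val h) t))
  have c3 : finrank F (LinearMap.range P) ≤ finrank F (LinearMap.range (P.comp Φ1)) + 1 := by
    have h3 : ∀ g, reg F Q g d - d ∈ LinearMap.range Φ1 := by
      have st : ∀ g, ∀ u ∈ LinearMap.range Φ1, reg F Q g u ∈ LinearMap.range Φ1 := by
        rintro g _ ⟨m, rfl⟩
        obtain ⟨g, rfl⟩ := hπ g
        exact ⟨_, phi_act _ _ _ _ g m⟩
      intro g
      induction (hgen.ge (Subgroup.mem_top g)) using Subgroup.closure_induction with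
      | mem g hg =>
        rcases hg with rfl | rfl
        · exact ⟨_, (phi_ee _ _ _ _).1⟩
        · exact ⟨_, (phi_ee _ _ _ _).2⟩
      | one => simp
      | mul g h _ _ h1 h3 => simpa using add_mem (st g _ h3) h1
      | inv g _ h1 => simpa using neg_mem (st g⁻¹ _ h1)
    have h4 := count1 (LinearMap.range (P.comp Φ1)) (LinearMap.toSpanSingleton F _ (P d)) ⊥ bot_le
    rw [finrank_self, finrank_bot] at h4
    refine le_trans (finrank_mono ?_) h4
    rintro _ ⟨f, rfl⟩
    have h5 : f = orb (reg F Q) d f := by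
      ext t; simp [orb, Fintype.linearCombination_apply, d, Pi.single_apply, inv_mul_eq_one]
    rw [h5, orb, Fintype.linearCombination_apply, map_sum]
    refine sum_mem (fun g _ => ?_)
    rw [map_smul, ← sub_add_cancel (reg F Q g d) d, map_add]
    obtain ⟨m, hm⟩ := h3 g
    exact smul_mem _ _ (add_mem_sup ⟨m, congrArg P hm⟩ (LinearMap.mem_range.mpr ⟨1, by simp⟩))
  have c4 : ∀ v : LinearMap.ker P, ∃ f, orb (ρ.comp π) e f = v := by
    intro v
    have h3 : orb ρ e ((2 : F)⁻¹ • v.1) = v := by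
      ext t
      have := (mV _).mp v.2 (t * z)
      rw [hz, mul_assoc, hz2, mul_one] at this
      have h4 : ∀ g x : Q, x⁻¹ * t = g ↔ x = t * g⁻¹ := fun g x => by
        rw [inv_mul_eq_iff_eq_mul, eq_mul_inv_iff_mul_eq, eq_comm]
      simp [orb, Fintype.linearCombination_apply, ρ, e, Representation.subrepresentation,
        Pi.single_apply, h4, mul_sub, hzi]
      rw [this]; field_simp; ring
    rw [← h3, ← LinearMap.mem_range]
    refine orb_mem (fun g => ?_) _
    obtain ⟨g, rfl⟩ := hπ g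
    exact ⟨_, orb_single _ g⟩
  have c5 : (LinearMap.range (P.comp Φ1)).prod ⊤ ≤ LinearMap.range Φ := by
    obtain ⟨w, hw⟩ := hπ z
    have h3 : ∀ v, ((0, v) : _ × _) ∈ LinearMap.range Φ := by
      rintro ⟨v1, v2⟩
      obtain ⟨f1, rfl⟩ := c4 v1
      obtain ⟨f2, rfl⟩ := c4 v2
      refine ⟨(2 : F)⁻¹ • ((f1, f2) - r1 F _ w (f1, f2)), ?_⟩
      have h4 : ∀ u, P (reg F Q z u) = P u := by
        intro u; ext t; simp [P, hzi, ← mul_assoc, hz2, add_comm]
      have h5 : ∀ u : LinearMap.ker P, (2 : F)⁻¹ • (u + u) = u := fun u => by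
        rw [← two_smul F, inv_smul_smul₀ h2]
      have h6 : ∀ m, Φ m = (P (Φ1 m), phi π ρ e 0 m, phi π ρ 0 e m) := fun _ => rfl
      have h7 : ∀ g m, Φ1 (r1 F _ g m) = reg F Q (π g) (Φ1 m) := phi_act _ _ _ _
      rw [map_smul, map_sub, h6, h6, h7, phi_act, phi_act, hw, h4, ρz, ρz]
      simp only [Prod.mk_sub_mk, sub_self, sub_neg_eq_add, Prod.smul_mk, smul_zero, h5]
      simp [phi, orb, Fintype.linearCombination_apply]
    rintro ⟨_, v⟩ ⟨⟨m, rfl⟩, -⟩
    simpa [Φ] using add_mem (LinearMap.mem_range_self Φ m) (h3 (v - (Φ m).2))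
  have c6 := LinearMap.finrank_le_finrank_of_injective
    (f := ((LinearMap.range (P.comp Φ1)).subtype.prodMap LinearMap.id).codRestrict
      (LinearMap.range Φ) (fun u => c5 ⟨u.1.2, mem_top⟩)) (fun u v h => by
        have : (u.1.1, u.2) = (v.1.1, v.2) := congrArg Subtype.val h
        exact Prod.ext (Subtype.ext (Prod.mk.inj this).1) (Prod.mk.inj this).2)
  rw [finrank_prod, finrank_prod] at c6
  omega

end H13GS
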