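import Mathlib

set_option autoImplicit false

namespace H13Gf

open Finset PowerSeries Pointwise

theorem fin_w {k : ℕ} (d : Fin k → ℕ) (hd : ∀ i, 0 < d i) (c m : ℕ) :
    {n : Fin k → ℕ | c + ∑ i, d i * n i = m}.Finite := by
  refine (Fintype.piFinset fun _ : Fin k => range (m + 1)).finite_toSet.subset fun n hn => ?_
  simp only [Set.mem_ofPred_eq, mem_coe, Fintype.mem_piFinset, mem_range] at hn ⊢
  intro i
  have h1 := single_le_sum (f := fun i => d i * n i) (fun _ _ => Nat.zero_le _) (mem_univ i)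
  have h2 := Nat.le_mul_of_pos_left (n i) (hd i)
  omega

theorem gf_w : ∀ (k : ℕ) (d : Fin k → ℕ), (∀ i, 0 < d i) → ∀ c : ℕ,
    (mk fun m => ({n : Fin k → ℕ | c + ∑ i, d i * n i = m}.ncard : ℤ)) * ∏ i, (1 - X ^ d i) = X ^ c
  | 0, d, _, c => by
    ext m
    simp only [univ_eq_empty, sum_empty, add_zero, prod_empty, mul_one, coeff_mk, coeff_X_pow]
    split_ifs with h
    · simp [h]
    · simp [Ne.symm h]
  | k + 1, d, hd, c => by
    rw [Fin.prod_univ_succ, ← mul_assoc, ← gf_w k (fun i => d i.succ) (fun i => hd _) c]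
    congr 1
    ext m
    rw [mul_sub, mul_one, map_sub, coeff_mul_X_pow', coeff_mk, coeff_mk, coeff_mk, sub_eq_iff_eq_add]
    have e : {n : Fin (k + 1) → ℕ | c + ∑ i, d i * n i = m} =
        (fun n : Fin k → ℕ => (Fin.cons 0 n : Fin (k + 1) → ℕ)) ''
          {n | c + ∑ i, d i.succ * n i = m} ∪
        (fun n : Fin (k + 1) → ℕ => n + Pi.single 0 1) ''
          {n | c + d 0 + ∑ i, d i * n i = m} := by
      ext n
      simp only [Set.mem_ofPred_eq, Set.mem_union, Set.mem_image, Fin.sum_univ_succ]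
      constructor
      · intro h
        rcases Nat.eq_zero_or_pos (n 0) with h0 | h0
        · exact .inl ⟨Fin.tail n, by simpa [h0, Fin.tail] using h, h0 ▸ Fin.cons_self_tail n⟩
        · refine .inr ⟨n - Pi.single 0 1, ?_, tsub_add_cancel_of_le fun i => ?_⟩
          · obtain ⟨t, ht⟩ := Nat.exists_eq_add_of_le' h0
            simp only [Pi.sub_apply, Pi.single_eq_same, ne_eq, Fin.succ_ne_zero, not_false_eq_true,
              Pi.single_eq_of_ne, tsub_zero, ht, Nat.add_sub_cancel] at h ⊢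
            rw [← h]; ring
          · refine Fin.cases ?_ (fun i => ?_) i
            · rw [Pi.single_eq_same]; exact h0
            · simp
      · rintro (⟨n, h, rfl⟩ | ⟨n, h, rfl⟩)
        · simpa using h
        · simp only [Pi.add_apply, Pi.single_eq_same, ne_eq, Fin.succ_ne_zero, not_false_eq_true,
            Pi.single_eq_of_ne, add_zero]
          rw [← h]; ring
    rw [e, Set.ncard_union_eq _ ((fin_w _ (fun i => hd _) _ _).image _) ((fin_w _ hd _ _).image _),
      Set.ncard_image_of_injective _ (f := fun n : Fin k → ℕ => (Fin.cons 0 n : Fin (k + 1) → ℕ))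
        fun a b h => funext fun i => congrFun h i.succ,
      Set.ncard_image_of_injective _ (add_left_injective _), Nat.cast_add]
    · congr 1
      split_ifs with h
      · congr 2
        ext n
        simp only [Set.mem_ofPred_eq]
        omega
      · rw [Set.eq_empty_of_forall_notMem
          (s := {n : Fin (k + 1) → ℕ | c + d 0 + ∑ i, d i * n i = m})
          fun n (hn : _ = m) => by omega]
        simp
    · rw [Set.disjoint_left]
      rintro _ ⟨n, -, rfl⟩ ⟨n', -, h⟩
      simpa using congrFun h 0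

/-- Generating function of a set parametrised by finitely many shifted free monoids. -/
theorem gf_fam {α : Type} {k r : ℕ} (d : Fin k → ℕ) (hd : ∀ i, 0 < d i) (c : Fin r → ℕ)
    (φ : Fin r × (Fin k → ℕ) → α) (hφ : Function.Injective φ) (T : ℕ → Set α)
    (hT : ∀ m, T m = φ '' {q | c q.1 + ∑ i, d i * q.2 i = m}) :
    (mk fun m => ((T m).ncard : ℤ)) * ∏ i, (1 - X ^ d i) = ∑ f, X ^ c f := by
  rw [← sum_congr rfl fun f _ => gf_w k d hd (c f), ← sum_mul]
  congr 1
  ext m
  rw [coeff_mk, map_sum, hT, Set.ncard_image_of_injective _ hφ]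
  simp only [coeff_mk]
  have e : {q : Fin r × (Fin k → ℕ) | c q.1 + ∑ i, d i * q.2 i = m} =
      ↑(univ.biUnion fun f => ((fin_w d hd (c f) m).toFinset.image (Prod.mk f))) := by
    ext ⟨f, n⟩
    simp
  rw [e, Set.ncard_coe_finset, card_biUnion, Nat.cast_sum]
  · refine sum_congr rfl fun f _ => ?_
    rw [card_image_of_injective _ (Prod.mk_right_injective f),
      Set.ncard_eq_toFinset_card _ (fin_w d hd (c f) m)]
  · intro f _ g _ h
    rw [Function.onFun, disjoint_left]
    intro p h1 h2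
    obtain ⟨_, -, rfl⟩ := mem_image.1 h1
    obtain ⟨_, -, h3⟩ := mem_image.1 h2
    exact h (congrArg Prod.fst h3).symm

theorem mem_hull {k n : ℕ} (v : Fin (k + 1) → Fin n → ℝ) (m : ℝ) (hm : 0 ≤ m) (z : Fin n → ℝ) :
    z ∈ m • convexHull ℝ (Set.range v) ↔
      ∃ w : Fin (k + 1) → ℝ, (∀ i, 0 ≤ w i) ∧ ∑ i, w i = m ∧ ∀ j, ∑ i, w i * v i j = z j := by
  have e : convexHull ℝ (Set.range v) =
      Fintype.linearCombination ℝ v '' stdSimplex ℝ (Fin (k + 1)) := by
    rw [← convexHull_rangle_single_eq_stdSimplex, LinearMap.image_convexHull, ← Set.range_comp]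
    congr 2
    ext i
    simp
  rw [e]
  constructor
  · rintro ⟨_, ⟨w, hw, rfl⟩, rfl⟩
    refine ⟨m • w, fun i => mul_nonneg hm (hw.1 i), by simp [← mul_sum, hw.2], fun j => ?_⟩
    simp [Fintype.linearCombination_apply, mul_sum, mul_assoc]
  · rintro ⟨w, h1, h2, h3⟩
    rcases hm.eq_or_lt with rfl | hm
    · have := (sum_eq_zero_iff_of_nonneg fun i _ => h1 i).1 h2
      refine ⟨_, ⟨_, single_mem_stdSimplex ℝ 0, rfl⟩, funext fun j => ?_⟩
      simp [← h3, this]
    · refine ⟨_, ⟨m⁻¹ • w, ⟨fun i => mul_nonneg (inv_nonneg.2 hm.le) (h1 i),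
        by simp [← mul_sum, h2, hm.ne']⟩, rfl⟩, funext fun j => ?_⟩
      simp [Fintype.linearCombination_apply, ← h3, mul_sum, ← mul_assoc, hm.ne']

end H13Gf
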