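import Mathlib

set_option autoImplicit false

namespace Pool.Agent.Lib.H13Tang

/-- The rank of a set, as a natural number. -/
noncomputable def rk {α : Type} (M : Matroid α) (X : Set α) : ℕ := (M.eRk X).toNat

/-- The characteristic polynomial `p(M; t)` evaluated at an integer `t`. -/
noncomputable def charPoly {α : Type} [Finite α] (M : Matroid α) (t : ℤ) : ℤ :=
  ∑ X ∈ (Set.toFinite M.E).toFinset.powerset, (-1) ^ X.card * t ^ (rk M M.E - rk M X)

/-- The critical exponent `c(M; q)`, the least `j` with `p(M; q ^ j) > 0`, is at most `k`. -/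
def CritLE {α : Type} [Finite α] (M : Matroid α) (q k : ℕ) : Prop :=
  ∃ j ≤ k, 0 < charPoly M ((q : ℤ) ^ j)

/-- No loops and no parallel pairs. -/
def Simple {α : Type} (M : Matroid α) : Prop := ∀ e ∈ M.E, ∀ f ∈ M.E, M.Indep {e, f}

/-- Representability over the field `F`. -/
def Representable {α : Type} (F : Type) [Field F] (M : Matroid α) : Prop :=
  ∃ (d : ℕ) (φ : α → (Fin d → F)), ∀ I ⊆ M.E, (M.Indep I ↔ LinearIndepOn F φ I)

/-- Modular flats. -/
def IsModularFlat {α : Type} (M : Matroid α) (H : Set α) : Prop :=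
  M.IsFlat H ∧ ∀ G, M.IsFlat G → rk M H + rk M G = rk M (H ∪ G) + rk M (H ∩ G)

/-- `K` is the cycle matroid of the complete graph on `n` vertices. -/
def IsCycleMatroidComplete (n : ℕ) (K : Matroid (Sym2 (Fin n))) : Prop :=
  K.E = (⊤ : SimpleGraph (Fin n)).edgeSet ∧
    ∀ I ⊆ K.E, (K.Indep I ↔ (SimpleGraph.fromEdgeSet I).IsAcyclic)

/-- `N` is a quotient of `K`. -/
def IsQuotient {β : Type} (N K : Matroid β) : Prop := N.E = K.E ∧ ∀ X, N.IsFlat X → K.IsFlat X

/-- `M` is isomorphic to the simplification of `N`: `M` is simple and isomorphic to a restriction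
of `N` that meets every parallel class of `N`. -/
def IsoSimplification {α β : Type} (M : Matroid α) (N : Matroid β) : Prop :=
  Simple M ∧ ∃ f : α → β, Set.InjOn f M.E ∧ Set.MapsTo f M.E N.E ∧
    (∀ I ⊆ M.E, (M.Indep I ↔ N.Indep (f '' I))) ∧
    ∀ e, N.IsNonloop e → ∃ x ∈ M.E, e ∈ N.closure {f x}

/-- `M` is isomorphic to the simplification of a quotient of `M(K_{q^k+1})`. -/
def Normal {α : Type} (M : Matroid α) (q k : ℕ) : Prop :=
  ∃ K N : Matroid (Sym2 (Fin (q ^ k + 1))),
    IsCycleMatroidComplete (q ^ k + 1) K ∧ IsQuotient N K ∧ IsoSimplification M N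

end Pool.Agent.Lib.H13Tang
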