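import Mathlib
import Pool.Agent.Lib.helper13.TangDefs

set_option autoImplicit false

namespace Pool.Agent.Lib.H13Tang

open Set Submodule
open scoped Matroid

section rep

variable {α F V : Type} [Field F] [AddCommGroup V] [Module F V]

/-- `φ` represents `M`. -/
def Rep (F : Type) [Field F] [Module F V] (M : Matroid α) (φ : α → V) : Prop :=
  ∀ I ⊆ M.E, (M.Indep I ↔ LinearIndepOn F φ I)

variable {M : Matroid α} {φ : α → V}

theorem Rep.mem_closure_indep (h : Rep F M φ) {I : Set α} (hI : M.Indep I) (e : α) :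
    e ∈ M.closure I ↔ e ∈ M.E ∧ φ e ∈ span F (φ '' I) := by
  rw [hI.mem_closure_iff']
  refine and_congr_right fun he => ?_
  rw [h _ (insert_subset he hI.subset_ground), linearIndepOn_insert_iff]
  have hI' := (h _ hI.subset_ground).1 hI
  constructor
  · intro h1
    by_contra h2
    exact h2 (subset_span ⟨e, h1 ⟨hI', fun h3 => absurd h3 h2⟩, rfl⟩)
  · intro h1 h2
    exact h2.2 h1

theorem Rep.span_basis (h : Rep F M φ) {I X : Set α} (hI : M.IsBasis I X) :
    span F (φ '' I) = span F (φ '' X) := by
  refine le_antisymm (span_mono (image_mono hI.subset)) (span_le.2 ?_)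
  rintro _ ⟨x, hx, rfl⟩
  exact ((h.mem_closure_indep hI.indep x).1 (hI.subset_closure hx)).2

theorem Rep.mem_closure (h : Rep F M φ) {X : Set α} (hX : X ⊆ M.E) (e : α) :
    e ∈ M.closure X ↔ e ∈ M.E ∧ φ e ∈ span F (φ '' X) := by
  obtain ⟨I, hI⟩ := M.exists_isBasis X hX
  rw [← hI.closure_eq_closure, h.mem_closure_indep hI.indep, h.span_basis hI]

theorem rk_indep [Finite α] {I : Set α} (hI : M.Indep I) : rk M I = I.ncard := by
  rw [rk, hI.eRk_eq_encard, ← (toFinite I).cast_ncard_eq, ENat.toNat_natCast]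

theorem rk_coe [Finite α] (M : Matroid α) (X : Set α) : (rk M X : ℕ∞) = M.eRk X := by
  apply ENat.natCast_toNat
  exact ne_top_of_le_ne_top (toFinite X).encard_lt_top.ne (M.eRk_le_encard X)

theorem Rep.rk_eq [Finite α] (h : Rep F M φ) {X : Set α} (hX : X ⊆ M.E) :
    rk M X = Module.finrank F (span F (φ '' X)) := by
  classical
  obtain ⟨I, hI⟩ := M.exists_isBasis X hX
  have h1 : rk M X = rk M I := by simp only [rk, hI.eRk_eq_eRk]
  have := Fintype.ofFinite I
  have h2 := finrank_span_eq_card ((h I hI.indep.subset_ground).1 hI.indep)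
  rw [h1, rk_indep hI.indep, ← h.span_basis hI, image_eq_range, h2, ← Nat.card_eq_fintype_card,
    Nat.card_coe_set_eq]

/-- The matroid of a finite family of vectors. -/
noncomputable def linMat [Finite α] (F : Type) [Field F] [Module F V] (φ : α → V) (E : Set α) :
    Matroid α :=
  (IndepMatroid.ofFinite (E := E) (toFinite E) (fun I => I ⊆ E ∧ LinearIndepOn F φ I)
    ⟨empty_subset _, linearIndepOn_empty F φ⟩
    (fun I J hJ hIJ => ⟨hIJ.trans hJ.1, hJ.2.mono hIJ⟩)
    (fun I J hI hJ hlt => by
      classical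
      by_contra hcon
      push Not at hcon
      have hsub : span F (φ '' J) ≤ span F (φ '' I) := by
        rw [span_le]
        rintro _ ⟨e, he, rfl⟩
        by_cases heI : e ∈ I
        · exact subset_span ⟨e, heI, rfl⟩
        · have := hcon e he heI (insert_subset (hJ.1 he) hI.1)
          rw [linearIndepOn_insert heI, not_and, not_not] at this
          exact this hI.2
      have := Fintype.ofFinite I
      have := Fintype.ofFinite J
      have h1 := finrank_span_eq_card hI.2
      have h2 := finrank_span_eq_card hJ.2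
      rw [← image_eq_range, ← Nat.card_eq_fintype_card, Nat.card_coe_set_eq] at h1 h2
      have : FiniteDimensional F (span F (φ '' I)) :=
        FiniteDimensional.span_of_finite F ((toFinite I).image φ)
      have := Submodule.finrank_mono hsub
      omega)
    (fun I hI => hI.1)).matroid

theorem linMat_E [Finite α] (φ : α → V) (E : Set α) : (linMat F φ E).E = E := rfl

theorem linMat_indep [Finite α] (φ : α → V) (E I : Set α) :
    (linMat F φ E).Indep I ↔ I ⊆ E ∧ LinearIndepOn F φ I := by
  simp [linMat]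

theorem linMat_rep [Finite α] (φ : α → V) (E : Set α) : Rep F (linMat F φ E) φ := fun I hI => by
  rw [linMat_indep]; exact and_iff_right hI

theorem Rep.contract (h : Rep F M φ) {a : α} (ha : M.IsNonloop a) (π : V →ₗ[F] V)
    (hπ : LinearMap.ker π = span F {φ a}) : Rep F (M ／ {a}) (π ∘ φ) := by
  intro I hI
  rw [Matroid.contract_ground] at hI
  have haI : a ∉ I := fun h' => (hI h').2 rfl
  have ha0 : φ a ≠ 0 := by
    have := (h {a} (singleton_subset_iff.2 ha.mem_ground)).1 ha.indep
    simpa using this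
  rw [ha.contractElem_indep_iff, and_iff_right haI,
    h _ (insert_subset ha.mem_ground (hI.trans sdiff_subset)), linearIndepOn_insert haI]
  constructor
  · rintro ⟨h1, h2⟩
    refine LinearIndependent.map (f := π) h1 ?_
    rw [hπ, ← image_eq_range]
    exact (disjoint_span_singleton' ha0).2 h2
  · intro h1
    refine ⟨LinearIndependent.of_comp π h1, ?_⟩
    have := Submodule.range_ker_disjoint (f := π) (v := fun x : I => φ x) h1
    rw [hπ, ← image_eq_range] at this
    exact (disjoint_span_singleton' ha0).1 this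

theorem exists_proj (v : V) : ∃ π : V →ₗ[F] V, LinearMap.ker π = span F {v} := by
  obtain ⟨Q, hQ⟩ := (span F {v}).exists_isCompl
  exact ⟨Q.projection _ hQ.symm, Submodule.ker_projection hQ.symm⟩

theorem card_vanish [Fintype F] [FiniteDimensional F V] (S : Submodule F V) (j : ℕ) :
    Nat.card {L : V →ₗ[F] (Fin j → F) // S ≤ LinearMap.ker L} =
      (Fintype.card F ^ j) ^ (Module.finrank F V - Module.finrank F S) := by
  let e : ((V ⧸ S) →ₗ[F] (Fin j → F)) ≃ {L : V →ₗ[F] (Fin j → F) // S ≤ LinearMap.ker L} :=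
    { toFun := fun L => ⟨L ∘ₗ S.mkQ, fun x hx => by
        simp [(Submodule.Quotient.mk_eq_zero S).2 hx]⟩
      invFun := fun L => S.liftQ L.1 L.2
      left_inv := fun L => by
        apply Submodule.linearMap_qext
        simp
      right_inv := fun L => Subtype.ext (by simp) }
  rw [← Nat.card_congr e, Module.natCard_eq_pow_finrank (K := F), Module.finrank_linearMap,
    Nat.card_eq_fintype_card, ← S.finrank_quotient_add_finrank, Nat.add_sub_cancel, ← pow_mul,
    mul_comm]
  simp

/-- The critical theorem of Crapo and Rota. -/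
theorem Rep.charPoly_pos_iff [Finite α] [Fintype F] [FiniteDimensional F V] (h : Rep F M φ)
    (j : ℕ) : 0 < charPoly M ((Fintype.card F : ℤ) ^ j) ↔
      ∃ L : V →ₗ[F] (Fin j → F), ∀ e ∈ M.E, L (φ e) ≠ 0 := by
  classical
  have : Finite (V →ₗ[F] (Fin j → F)) := Module.finite_of_finite F
  have := Fintype.ofFinite (V →ₗ[F] (Fin j → F))
  let S : α → Finset (V →ₗ[F] (Fin j → F)) := fun e => Finset.univ.filter fun L => L (φ e) = 0
  have key := Finset.inclusion_exclusion_card_inf_compl (toFinite M.E).toFinset S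
  have hle : ∀ X ⊆ M.E, rk M X ≤ rk M M.E := fun X hX => by
    have := M.eRk_mono hX
    rw [← rk_coe, ← rk_coe] at this
    exact_mod_cast this
  have hrE : rk M M.E ≤ Module.finrank F V := by
    rw [h.rk_eq subset_rfl]; exact Submodule.finrank_le _
  have h2 : ∑ t ∈ (toFinite M.E).toFinset.powerset, (-1 : ℤ) ^ t.card * (t.inf S).card =
      ((Fintype.card F : ℤ) ^ j) ^ (Module.finrank F V - rk M M.E) *
        charPoly M ((Fintype.card F : ℤ) ^ j) := by
    rw [charPoly, Finset.mul_sum]
    refine Finset.sum_congr rfl fun t ht => ?_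
    have htE : (t : Set α) ⊆ M.E := by
      simpa [← Finset.coe_subset] using ht
    have h3 : (t.inf S).card = Nat.card {L : V →ₗ[F] (Fin j → F) //
        span F (φ '' t) ≤ LinearMap.ker L} := by
      rw [Nat.card_eq_fintype_card, Fintype.card_subtype]
      congr 1
      ext L
      simp [S, Finset.mem_inf, span_le, subset_def]
    rw [h3, card_vanish, ← h.rk_eq htE, mul_left_comm, ← pow_add]
    have := hle _ htE
    push_cast
    congr 2
    omega
  have hpos : (0 : ℤ) < ((Fintype.card F : ℤ) ^ j) ^ (Module.finrank F V - rk M M.E) := by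
    have : (0 : ℤ) < Fintype.card F := by exact_mod_cast Fintype.card_pos
    positivity
  rw [← mul_pos_iff_of_pos_left hpos, ← h2, ← key, Nat.cast_pos, Finset.card_pos]
  simp [Finset.Nonempty, Finset.mem_inf, S]

theorem Rep.critLE_iff [Finite α] [Fintype F] [FiniteDimensional F V] (h : Rep F M φ)
    (k : ℕ) : CritLE M (Fintype.card F) k ↔
      ∃ L : V →ₗ[F] (Fin k → F), ∀ e ∈ M.E, L (φ e) ≠ 0 := by
  constructor
  · rintro ⟨j, hj, hpos⟩
    obtain ⟨L, hL⟩ := (h.charPoly_pos_iff j).1 hpos
    refine ⟨Function.ExtendByZero.linearMap F (Fin.castLE hj) ∘ₗ L, fun e he h0 => hL e he ?_⟩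
    funext i
    have := congrFun h0 (Fin.castLE hj i)
    simpa [(Fin.castLE_injective hj).extend_apply] using this
  · intro hL
    exact ⟨k, le_rfl, (h.charPoly_pos_iff k).2 hL⟩

end rep

section graph

variable {W F V : Type} [Field F] [AddCommGroup V] [Module F V]

/-- The difference vector of an edge. -/
noncomputable def dv (t : W → V) (e : Sym2 W) : V := t e.out.1 - t e.out.2

theorem dv_mk (t : W → V) (x y : W) : dv t s(x, y) = t x - t y ∨ dv t s(x, y) = t y - t x := by
  have h : s((s(x, y)).out.1, (s(x, y)).out.2) = s(x, y) := Quot.out_eq _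
  rw [Sym2.eq_iff] at h
  rcases h with ⟨h1, h2⟩ | ⟨h1, h2⟩
  · left; rw [dv, h1, h2]
  · right; rw [dv, h1, h2]

theorem dv_mem_iff (t : W → V) (x y : W) (S : Submodule F V) :
    dv t s(x, y) ∈ S ↔ t x - t y ∈ S := by
  rcases dv_mk t x y with h | h
  · rw [h]
  · rw [h, ← neg_sub, neg_mem_iff]

theorem sub_mem_of_reachable (t : W → V) (J : Set (Sym2 W)) {u v : W}
    (h : (SimpleGraph.fromEdgeSet J).Reachable u v) : t u - t v ∈ span F (dv t '' J) := by
  obtain ⟨p⟩ := h
  induction p with
  | nil => simp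
  | @cons a b c hab p ih =>
    have h1 : t a - t b ∈ span F (dv t '' J) :=
      (dv_mem_iff t a b _).1 (subset_span ⟨_, ((SimpleGraph.fromEdgeSet_adj _).1 hab).1, rfl⟩)
    simpa using add_mem h1 ih

theorem reachable_of_sub_mem [Fintype W] [DecidableEq W] (J : Set (Sym2 W)) {u v : W}
    (h : (Pi.single u (1 : ℚ) : W → ℚ) - Pi.single v 1 ∈
      span ℚ (dv (fun w => (Pi.single w (1 : ℚ) : W → ℚ)) '' J)) :
    (SimpleGraph.fromEdgeSet J).Reachable u v := by
  classical
  let f : (W → ℚ) →ₗ[ℚ] ℚ := ∑ w ∈ Finset.univ.filter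
    (fun w => (SimpleGraph.fromEdgeSet J).Reachable u w), LinearMap.proj w
  have hf : ∀ w, f (Pi.single w 1) = if (SimpleGraph.fromEdgeSet J).Reachable u w then 1 else 0 :=
    fun w => by simp [f, Pi.single_apply]
  have hker : span ℚ (dv (fun w => (Pi.single w (1 : ℚ) : W → ℚ)) '' J) ≤ LinearMap.ker f := by
    rw [span_le]
    rintro _ ⟨e, he, rfl⟩
    induction e using Sym2.ind with
    | h x y =>
      rw [SetLike.mem_coe, dv_mem_iff, LinearMap.mem_ker, map_sub, hf, hf]
      by_cases hxy : x = y
      · rw [hxy, sub_self]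
      · have hadj : (SimpleGraph.fromEdgeSet J).Adj x y :=
          (SimpleGraph.fromEdgeSet_adj _).2 ⟨he, hxy⟩
        have : (SimpleGraph.fromEdgeSet J).Reachable u x ↔
            (SimpleGraph.fromEdgeSet J).Reachable u y :=
          ⟨fun h => h.trans hadj.reachable, fun h => h.trans hadj.symm.reachable⟩
        simp only [this, sub_self]
  have := hker h
  rw [LinearMap.mem_ker, map_sub, hf, hf, if_pos (SimpleGraph.Reachable.refl u)] at this
  by_contra hn
  rw [if_neg hn] at this
  norm_num at this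

/-- The cycle matroid of the complete graph. -/
noncomputable def cyc (n : ℕ) : Matroid (Sym2 (Fin n)) :=
  linMat ℚ (dv fun w => (Pi.single w (1 : ℚ) : Fin n → ℚ)) (⊤ : SimpleGraph (Fin n)).edgeSet

theorem cyc_spec (n : ℕ) : IsCycleMatroidComplete n (cyc n) := by
  refine ⟨rfl, fun I hI => ?_⟩
  rw [cyc, linMat_rep _ _ I hI, linearIndepOn_iff_notMem_span,
    SimpleGraph.isAcyclic_iff_forall_adj_isBridge]
  have hdel : ∀ e, (SimpleGraph.fromEdgeSet I).deleteEdges {e} =
      SimpleGraph.fromEdgeSet (I \ {e}) := fun e => by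
    ext x y
    simp only [SimpleGraph.deleteEdges_adj, SimpleGraph.fromEdgeSet_adj, mem_sdiff]
    tauto
  constructor
  · intro h v w hadj
    rw [SimpleGraph.isBridge_iff, hdel]
    intro hr
    exact h _ ((SimpleGraph.fromEdgeSet_adj _).1 hadj).1
      ((dv_mem_iff _ v w _).2 (sub_mem_of_reachable _ _ hr))
  · intro h e he
    induction e using Sym2.ind with
    | h x y =>
      have hxy : x ≠ y := by
        simpa using (show s(x, y) ∈ (⊤ : SimpleGraph (Fin n)).edgeSet from hI he)
      have := h ((SimpleGraph.fromEdgeSet_adj _).2 ⟨he, hxy⟩)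
      rw [SimpleGraph.isBridge_iff, hdel] at this
      intro hm
      exact this (reachable_of_sub_mem _ ((dv_mem_iff _ x y _).1 hm))

theorem isQuotient_cyc (n : ℕ) (t : Fin n → V) :
    IsQuotient (linMat F (dv t) (⊤ : SimpleGraph (Fin n)).edgeSet) (cyc n) := by
  refine ⟨rfl, fun X hX => ?_⟩
  have hXE : X ⊆ (⊤ : SimpleGraph (Fin n)).edgeSet := hX.subset_ground
  rw [Matroid.isFlat_iff_closure_eq]
  refine subset_antisymm (fun e he => ?_) (Matroid.subset_closure _ _ hXE)
  rw [cyc, (linMat_rep _ _).mem_closure hXE] at he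
  rw [← hX.closure, (linMat_rep _ _).mem_closure hXE]
  refine ⟨he.1, ?_⟩
  induction e using Sym2.ind with
  | h x y =>
    exact (dv_mem_iff _ x y _).2 (sub_mem_of_reachable _ _
      (reachable_of_sub_mem _ ((dv_mem_iff _ x y _).1 he.2)))

end graph

end Pool.Agent.Lib.H13Tang
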