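import Mathlib
import Pool.Agent.Lib.helper13.TangRep

set_option autoImplicit false

/-! Intersecting binary codes of large dual distance, and their cycle matroids. -/

namespace H13IC
open Finset

abbrev W (k : ℕ) := Fin k → ZMod 2

theorem two_cases (z : ZMod 2) : z = 0 ∨ z = 1 := by revert z; decide

theorem add_self' {k : ℕ} (a : W k) : a + a = 0 := by
  funext i; simp only [Pi.add_apply, Pi.zero_apply]
  rcases two_cases (a i) with h | h <;> rw [h] <;> decide

theorem card_W (k : ℕ) : Fintype.card (W k) = 2 ^ k := by simp [ZMod.card]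

theorem exists_dot {k : ℕ} (f : W k →ₗ[ZMod 2] ZMod 2) : ∃ c : W k, ∀ x, f x = c ⬝ᵥ x := by
  refine ⟨fun i => f (Pi.single i 1), fun x => ?_⟩
  conv_lhs => rw [pi_eq_sum_univ' x]
  rw [map_sum]
  simp only [map_smul, smul_eq_mul, dotProduct]
  exact Finset.sum_congr rfl (fun i _ => mul_comm _ _)

theorem exists_one {k : ℕ} (c : W k) (hc : c ≠ 0) : ∃ x, c ⬝ᵥ x = 1 := by
  obtain ⟨i, hi⟩ := Function.ne_iff.mp hc
  refine ⟨Pi.single i 1, ?_⟩
  rw [dotProduct_single, mul_one]
  rcases two_cases (c i) with h | h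
  · exact absurd h hi
  · exact h

theorem exists_both {k : ℕ} (c d : W k) (hc : c ≠ 0) (hd : d ≠ 0) :
    ∃ x, c ⬝ᵥ x = 1 ∧ d ⬝ᵥ x = 1 := by
  obtain ⟨x, hx⟩ := exists_one c hc
  obtain ⟨y, hy⟩ := exists_one d hd
  rcases two_cases (d ⬝ᵥ x) with h1 | h1
  · rcases two_cases (c ⬝ᵥ y) with h2 | h2
    · exact ⟨x + y, by rw [dotProduct_add, hx, h2, add_zero], by rw [dotProduct_add, h1, hy, zero_add]⟩
    · exact ⟨y, h2, hy⟩
  · exact ⟨x, hx, h1⟩

theorem card_good {k : ℕ} (c d : W k) (hc : c ≠ 0) (hd : d ≠ 0) :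
    2 ^ k ≤ 4 * (univ.filter (fun x : W k => c ⬝ᵥ x = 1 ∧ d ⬝ᵥ x = 1)).card := by
  classical
  obtain ⟨x0, h1, h2⟩ := exists_both c d hc hd
  let p : W k → ZMod 2 × ZMod 2 := fun x => (c ⬝ᵥ x, d ⬝ᵥ x)
  let u : ZMod 2 × ZMod 2 → W k := Function.invFun p
  have hu : ∀ x, p (u (p x)) = p x := fun x => Function.invFun_eq ⟨x, rfl⟩
  have := Finset.card_le_card_of_injOn (s := (univ : Finset (W k)))
    (t := (univ : Finset (ZMod 2 × ZMod 2)) ×ˢ
      (univ.filter (fun x : W k => c ⬝ᵥ x = 1 ∧ d ⬝ᵥ x = 1)))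
    (fun x => (p x, x + u (p x) + x0)) (by
      intro x _
      have h3 := hu x
      simp only [p, Prod.mk.injEq] at h3
      simp only [coe_product, coe_univ, coe_filter, mem_univ, true_and, Set.mem_prod, Set.mem_univ,
        Set.mem_ofPred_eq, dotProduct_add, p, h3.1, h3.2, h1, h2]
      constructor
      · rcases two_cases (c ⬝ᵥ x) with h | h <;> rw [h] <;> decide
      · rcases two_cases (d ⬝ᵥ x) with h | h <;> rw [h] <;> decide) (by
      intro x _ y _ h
      simp only [Prod.mk.injEq] at h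
      obtain ⟨h3, h4⟩ := h
      rw [h3] at h4
      simpa using h4)
  rw [card_univ, card_W, card_product, card_univ] at this
  simpa [ZMod.card] using this

theorem card_badA {k n : ℕ} (T : Finset (Fin n)) (hT : T.Nonempty) :
    (univ.filter (fun s : Fin n → W k => ∑ i ∈ T, s i = 0)).card * 2 ^ k ≤ (2 ^ k) ^ n := by
  classical
  obtain ⟨e, he⟩ := hT
  have := Finset.card_le_card_of_injOn
    (s := (univ.filter (fun s : Fin n → W k => ∑ i ∈ T, s i = 0)) ×ˢ (univ : Finset (W k)))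
    (t := (univ : Finset (Fin n → W k)))
    (fun q => Function.update q.1 e q.2) (by intro q _; simp) (by
      rintro ⟨s, a⟩ hs ⟨s', a'⟩ hs' h
      simp only [coe_product, coe_filter, mem_univ, true_and, coe_univ, Set.mem_prod,
        Set.mem_ofPred_eq, Set.mem_univ, and_true] at hs hs'
      have h1 : a = a' := by simpa using congrFun h e
      have h2 : ∀ i, i ≠ e → s i = s' i := fun i hi => by
        simpa [Function.update_of_ne hi] using congrFun h i
      have h3 : s e = s' e := by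
        rw [← Finset.add_sum_erase T s he] at hs
        rw [← Finset.add_sum_erase T s' he] at hs'
        have : ∑ i ∈ T.erase e, s i = ∑ i ∈ T.erase e, s' i :=
          Finset.sum_congr rfl (fun i hi => h2 i (Finset.ne_of_mem_erase hi))
        rw [this] at hs
        exact add_right_cancel (hs.trans hs'.symm)
      refine Prod.ext (funext fun i => ?_) h1
      by_cases hi : i = e
      · rw [hi]; exact h3
      · exact h2 i hi)
  rw [card_product, card_univ, card_W, card_univ, Fintype.card_fun, card_W, Fintype.card_fin] at this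
  exact this

theorem card_badB {k n : ℕ} (c d : W k) (hc : c ≠ 0) (hd : d ≠ 0) :
    (univ.filter (fun s : Fin n → W k => ∀ i, ¬ (c ⬝ᵥ s i = 1 ∧ d ⬝ᵥ s i = 1))).card * 4 ^ n ≤
      3 ^ n * (2 ^ k) ^ n := by
  classical
  have h1 : univ.filter (fun s : Fin n → W k => ∀ i, ¬ (c ⬝ᵥ s i = 1 ∧ d ⬝ᵥ s i = 1)) =
      Fintype.piFinset (fun _ : Fin n =>
        univ.filter (fun x : W k => ¬ (c ⬝ᵥ x = 1 ∧ d ⬝ᵥ x = 1))) := by
    ext s; simp
  rw [h1, Fintype.card_piFinset, Finset.prod_const, card_univ, Fintype.card_fin, ← mul_pow,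
    ← mul_pow]
  apply Nat.pow_le_pow_left
  have h2 := card_good c d hc hd
  have h3 := Finset.card_filter_add_card_filter_not (s := (univ : Finset (W k)))
    (fun x : W k => c ⬝ᵥ x = 1 ∧ d ⬝ᵥ x = 1)
  rw [card_univ, card_W] at h3
  omega

theorem exists_k (t : ℕ) : ∃ k, 3 ≤ k ∧ 2 * (t * (10 * k) ^ t) ≤ 2 ^ k := by
  have h := tendsto_pow_const_div_const_pow_of_one_lt t (r := 2) (by norm_num)
  have hpos : (0 : ℝ) < 1 / (2 * t * 10 ^ t + 1) := by positivity
  obtain ⟨k, hk1, hk2⟩ := ((h.eventually (gt_mem_nhds hpos)).and (Filter.eventually_ge_atTop 3)).exists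
  refine ⟨k, hk2, ?_⟩
  rw [div_lt_div_iff₀ (by positivity) (by positivity)] at hk1
  have h3 : (0 : ℝ) ≤ (k : ℝ) ^ t := by positivity
  have : ((2 * (t * (10 * k) ^ t) : ℕ) : ℝ) ≤ ((2 ^ k : ℕ) : ℝ) := by
    push_cast
    rw [mul_pow]
    nlinarith
  exact_mod_cast this

theorem card_small (n t : ℕ) (hn : 1 ≤ n) :
    ((univ : Finset (Finset (Fin n))).filter (fun T => T.card < t)).card ≤ t * n ^ t := by
  have h1 : (univ : Finset (Finset (Fin n))).filter (fun T => T.card < t) =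
      (range t).biUnion (fun j => powersetCard j univ) := by
    ext T; simp
  rw [h1]
  refine Finset.card_biUnion_le.trans ?_
  calc ∑ j ∈ range t, (powersetCard j (univ : Finset (Fin n))).card ≤ ∑ _j ∈ range t, n ^ t := by
        apply Finset.sum_le_sum
        intro j hj
        rw [card_powersetCard, card_univ, Fintype.card_fin]
        exact (Nat.choose_le_pow n j).trans (Nat.pow_le_pow_right hn (mem_range.mp hj).le)
    _ = t * n ^ t := by simp

theorem exists_code (t : ℕ) : ∃ (k n : ℕ) (s : Fin n → W k), 3 ≤ k ∧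
    (∀ T : Finset (Fin n), T.Nonempty → T.card < t → ∑ i ∈ T, s i ≠ 0) ∧
    (∀ c d : W k, c ≠ 0 → d ≠ 0 → ∃ i, c ⬝ᵥ s i = 1 ∧ d ⬝ᵥ s i = 1) := by
  classical
  obtain ⟨k, hk3, hk⟩ := exists_k t
  refine ⟨k, 10 * k, ?_⟩
  set n := 10 * k with hn
  set Q := (2 ^ k) ^ n with hQ
  let A : Finset (Fin n → W k) :=
    ((univ : Finset (Finset (Fin n))).filter (fun T => T.Nonempty ∧ T.card < t)).biUnion
      (fun T => univ.filter (fun s : Fin n → W k => ∑ i ∈ T, s i = 0))
  let B : Finset (Fin n → W k) :=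
    ((univ : Finset (W k × W k)).filter (fun p => p.1 ≠ 0 ∧ p.2 ≠ 0)).biUnion
      (fun p => univ.filter (fun s : Fin n → W k => ∀ i, ¬ (p.1 ⬝ᵥ s i = 1 ∧ p.2 ⬝ᵥ s i = 1)))
  have hA : A.card * 2 ^ k ≤ (t * n ^ t) * Q := by
    calc A.card * 2 ^ k ≤ (∑ T ∈ (univ : Finset (Finset (Fin n))).filter
          (fun T => T.Nonempty ∧ T.card < t),
          (univ.filter (fun s : Fin n → W k => ∑ i ∈ T, s i = 0)).card) * 2 ^ k :=
          Nat.mul_le_mul_right _ Finset.card_biUnion_le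
      _ ≤ ∑ _T ∈ (univ : Finset (Finset (Fin n))).filter (fun T => T.Nonempty ∧ T.card < t), Q := by
          rw [Finset.sum_mul]
          exact Finset.sum_le_sum (fun T hT => card_badA T (mem_filter.mp hT).2.1)
      _ ≤ (t * n ^ t) * Q := by
          rw [Finset.sum_const, smul_eq_mul]
          apply Nat.mul_le_mul_right
          refine le_trans (Finset.card_le_card ?_) (card_small n t (by omega))
          intro T hT
          exact mem_filter.mpr ⟨mem_univ _, (mem_filter.mp hT).2.2⟩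
  have hB : B.card * 4 ^ n ≤ (2 ^ k * 2 ^ k) * (3 ^ n * Q) := by
    calc B.card * 4 ^ n ≤ (∑ p ∈ (univ : Finset (W k × W k)).filter (fun p => p.1 ≠ 0 ∧ p.2 ≠ 0),
          (univ.filter (fun s : Fin n → W k =>
            ∀ i, ¬ (p.1 ⬝ᵥ s i = 1 ∧ p.2 ⬝ᵥ s i = 1))).card) * 4 ^ n :=
          Nat.mul_le_mul_right _ Finset.card_biUnion_le
      _ ≤ ∑ _p ∈ (univ : Finset (W k × W k)).filter (fun p => p.1 ≠ 0 ∧ p.2 ≠ 0), 3 ^ n * Q := by
          rw [Finset.sum_mul]
          exact Finset.sum_le_sum (fun p hp =>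
            card_badB p.1 p.2 (mem_filter.mp hp).2.1 (mem_filter.mp hp).2.2)
      _ ≤ (2 ^ k * 2 ^ k) * (3 ^ n * Q) := by
          rw [Finset.sum_const, smul_eq_mul]
          apply Nat.mul_le_mul_right
          refine le_trans (Finset.card_filter_le _ _) ?_
          rw [card_univ, Fintype.card_prod, card_W]
  have hQpos : 0 < Q := by positivity
  have hA2 : 2 * A.card ≤ Q := by
    have h2 : 0 < 2 ^ k := by positivity
    have : 2 * A.card * 2 ^ k ≤ Q * 2 ^ k := by nlinarith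
    exact Nat.le_of_mul_le_mul_right this h2
  have hB2 : 4 * B.card ≤ Q := by
    have h1 : (2 ^ k * 2 ^ k) * 3 ^ n * 4 ^ k ≤ 4 ^ n := by
      rw [hn, pow_mul, pow_mul, ← mul_pow, ← mul_pow, ← mul_pow]
      exact Nat.pow_le_pow_left (by norm_num) k
    have h2 : 4 ≤ 4 ^ k := by
      calc 4 = 4 ^ 1 := by norm_num
        _ ≤ 4 ^ k := Nat.pow_le_pow_right (by norm_num) (by omega)
    have h3 : 0 < 4 ^ n := by positivity
    have : 4 * B.card * 4 ^ n ≤ Q * 4 ^ n := by
      calc 4 * B.card * 4 ^ n = 4 * (B.card * 4 ^ n) := by ring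
        _ ≤ 4 ^ k * ((2 ^ k * 2 ^ k) * (3 ^ n * Q)) := Nat.mul_le_mul h2 hB
        _ = Q * ((2 ^ k * 2 ^ k) * 3 ^ n * 4 ^ k) := by ring
        _ ≤ Q * 4 ^ n := Nat.mul_le_mul_left _ h1
    exact Nat.le_of_mul_le_mul_right this h3
  have hlt : (A ∪ B).card < (univ : Finset (Fin n → W k)).card := by
    rw [card_univ, Fintype.card_fun, card_W, Fintype.card_fin]
    have := Finset.card_union_le A B
    omega
  obtain ⟨s, -, hs⟩ := Finset.exists_mem_notMem_of_card_lt_card hlt
  rw [Finset.notMem_union] at hs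
  refine ⟨s, hk3, fun T hT hTc h0 => hs.1 ?_, fun c d hc hd => ?_⟩
  · exact mem_biUnion.mpr ⟨T, mem_filter.mpr ⟨mem_univ _, hT, hTc⟩, mem_filter.mpr ⟨mem_univ _, h0⟩⟩
  · by_contra hcon
    apply hs.2
    refine mem_biUnion.mpr ⟨(c, d), mem_filter.mpr ⟨mem_univ _, hc, hd⟩,
      mem_filter.mpr ⟨mem_univ _, fun i hi => hcon ⟨i, hi⟩⟩⟩

end H13IC
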