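import Mathlib
import Pool.Agent.Lib.helper13.ICode

set_option autoImplicit false

namespace H13IC
open Pool.Agent.Lib.H13Tang

variable {k n : ℕ}

def supp (s : Fin n → W k) (c : W k) : Set (Fin n) := {i | c ⬝ᵥ s i = 1}

def enc (s : Fin n → W k) : W k →ₗ[ZMod 2] W n where
  toFun c := fun i => c ⬝ᵥ s i
  map_add' c d := by funext i; simp [add_dotProduct]
  map_smul' r c := by funext i; simp [smul_dotProduct]

theorem indep_iff (s : Fin n → W k) (φ : W n →ₗ[ZMod 2] W n)
    (hφ : LinearMap.ker φ = LinearMap.range (enc s))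
    (hb : ∀ c d : W k, c ≠ 0 → d ≠ 0 → ∃ i, c ⬝ᵥ s i = 1 ∧ d ⬝ᵥ s i = 1) (I : Set (Fin n)) :
    LinearIndepOn (ZMod 2) (fun i => φ (Pi.single i 1)) I ↔ ∀ c, supp s c ⊆ I → c = 0 := by
  have key : ∀ l : Fin n →₀ ZMod 2,
      Finsupp.linearCombination (ZMod 2) (fun i => φ (Pi.single i 1)) l = φ l := by
    intro l
    rw [Finsupp.linearCombination_apply, Finsupp.sum_fintype _ _ (by simp)]
    conv_rhs => rw [pi_eq_sum_univ' (l : W n)]
    rw [map_sum]
    simp only [map_smul]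
  rw [linearIndepOn_iff]
  constructor
  · intro h c hc
    by_contra hc0
    obtain ⟨i, hi, -⟩ := hb c c hc0 hc0
    have h1 := h (Finsupp.equivFunOnFinite.symm (enc s c)) (by
      rw [Finsupp.mem_supported']
      intro j hj
      rcases two_cases (c ⬝ᵥ s j) with h2 | h2
      · exact h2
      · exact absurd (hc h2) hj) (by
      rw [key, ← LinearMap.mem_ker, hφ]
      exact ⟨c, rfl⟩)
    have h2 : c ⬝ᵥ s i = 0 := by
      have := DFunLike.congr_fun h1 i
      exact this
    rw [hi] at h2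
    exact one_ne_zero h2
  · intro h l hl h0
    rw [key, ← LinearMap.mem_ker, hφ] at h0
    obtain ⟨c, hc⟩ := h0
    have : c = 0 := h c (fun i hi => by
      by_contra hiI
      have h1 := (Finsupp.mem_supported' _ _).mp hl i hiI
      have h2 : c ⬝ᵥ s i = l i := congrFun hc i
      rw [h1] at h2
      have h3 : c ⬝ᵥ s i = 1 := hi
      rw [h3] at h2
      exact one_ne_zero h2)
    ext i
    rw [← congrFun hc i, this, map_zero]
    rfl

theorem exists_sep (s : Fin n → W k) (K : Set (Fin n)) (e : Fin n) (he : e ∈ K)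
    (h : ∀ T : Finset (Fin n), e ∈ T → (T : Set (Fin n)) ⊆ K → ∑ i ∈ T, s i ≠ 0) :
    ∃ c : W k, c ≠ 0 ∧ supp s c ∩ K = {e} := by
  classical
  have h1 : s e ∉ Submodule.span (ZMod 2) (s '' (K \ {e})) := by
    intro hm
    rw [Finsupp.mem_span_image_iff_linearCombination] at hm
    obtain ⟨l, hl, hl2⟩ := hm
    have hl' : (l.support : Set (Fin n)) ⊆ K \ {e} := hl
    have hel : e ∉ l.support := fun h' => (hl' h').2 rfl
    apply h (insert e l.support) (Finset.mem_insert_self _ _)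
    · rw [Finset.coe_insert]
      exact Set.insert_subset he (hl'.trans Set.sdiff_subset)
    · rw [Finset.sum_insert hel, ← hl2, Finsupp.linearCombination_apply, Finsupp.sum]
      have : ∑ a ∈ l.support, l a • s a = ∑ a ∈ l.support, s a := by
        apply Finset.sum_congr rfl
        intro a ha
        rcases two_cases (l a) with h2 | h2
        · exact absurd h2 (Finsupp.mem_support_iff.mp ha)
        · rw [h2, one_smul]
      rw [this]
      exact add_self' _
  obtain ⟨f, hf1, hf2⟩ := Submodule.exists_le_ker_of_notMem h1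
  obtain ⟨c, hc⟩ := exists_dot f
  have hce : c ⬝ᵥ s e = 1 := by
    rcases two_cases (c ⬝ᵥ s e) with h2 | h2
    · exact absurd (by rw [hc, h2]) hf1
    · exact h2
  refine ⟨c, fun h0 => by rw [h0] at hce; simp at hce, ?_⟩
  ext i
  constructor
  · rintro ⟨hi, hiK⟩
    by_contra hne
    have h3 : f (s i) = 0 := hf2 (Submodule.subset_span ⟨i, ⟨hiK, hne⟩, rfl⟩)
    have h4 : c ⬝ᵥ s i = 1 := hi
    rw [hc, h4] at h3
    exact one_ne_zero h3
  · rintro rfl
    exact ⟨hce, he⟩

theorem sum_dot (s : Fin n → W k) (c : W k) (T : Finset (Fin n)) :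
    c ⬝ᵥ ∑ i ∈ T, s i = ((supp s c ∩ T).ncard : ZMod 2) := by
  classical
  rw [dotProduct_sum]
  have h1 : supp s c ∩ T = (T.filter (fun i => c ⬝ᵥ s i = 1) : Finset (Fin n)) := by
    ext i; simp [supp, and_comm]
  rw [h1, Set.ncard_coe_finset, Finset.card_filter]
  push_cast
  apply Finset.sum_congr rfl
  intro i _
  rcases two_cases (c ⬝ᵥ s i) with h | h <;> simp [h]

theorem exists_matroid (t : ℕ) : ∃ (n : ℕ) (M : Matroid (Fin n)) (v : Fin n → W n),
    M.E = Set.univ ∧ M.E.Nonempty ∧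
    (∀ I, M.Indep I ↔ I ⊆ M.E ∧ LinearIndepOn (ZMod 2) v I) ∧
    (∀ C K, M.IsCircuit C → M.IsCocircuit K → Even (C ∩ K).ncard) ∧
    (∀ e f, ∃ C, M.IsCircuit C ∧ e ∈ C ∧ f ∈ C) ∧
    (∀ K, M.IsCocircuit K → t ≤ K.ncard) ∧
    (∀ D, M.IsCircuit D → ∃ e f, e ∉ D ∧ f ∉ D ∧ e ≠ f) ∧
    (∀ C D, M.IsCircuit C → M.IsCircuit D → ¬ Disjoint C D) := by
  classical
  obtain ⟨k, n, s, hk, ha, hb⟩ := exists_code (t + 2)
  obtain ⟨Q, hQ⟩ := (LinearMap.range (enc s)).exists_isCompl
  set φ : W n →ₗ[ZMod 2] W n := Q.projection _ hQ.symm with hφdef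
  have hφ : LinearMap.ker φ = LinearMap.range (enc s) := Submodule.ker_projection hQ.symm
  set v : Fin n → W n := fun i => φ (Pi.single i 1) with hv
  set M : Matroid (Fin n) := linMat (ZMod 2) v Set.univ with hM
  have hE : M.E = Set.univ := rfl
  have hI : ∀ I, M.Indep I ↔ ∀ c, supp s c ⊆ I → c = 0 := fun I => by
    rw [hM, linMat_indep, and_iff_right (Set.subset_univ I), hv, indep_iff s φ hφ hb]
  have hdep : ∀ I, M.Dep I ↔ ∃ c, c ≠ 0 ∧ supp s c ⊆ I := fun I => by
    rw [Matroid.dep_iff, hI, hE, and_iff_left (Set.subset_univ I)]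
    push Not
    exact ⟨fun ⟨c, h1, h2⟩ => ⟨c, h2, h1⟩, fun ⟨c, h1, h2⟩ => ⟨c, h2, h1⟩⟩
  have hmin : ∀ c d : W k, d ≠ 0 → supp s d ⊆ supp s c → d = c := by
    intro c d hd hsub
    by_contra hne
    have hcd : c + d ≠ 0 := fun h0 => hne (by
      calc d = (c + c) + d := by rw [add_self', zero_add]
        _ = c + (c + d) := by abel
        _ = c := by rw [h0, add_zero])
    obtain ⟨i, h1, h2⟩ := hb d (c + d) hd hcd
    have h3 : c ⬝ᵥ s i = 1 := hsub h1
    rw [add_dotProduct, h3, h1] at h2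
    revert h2; decide
  have hcirc : ∀ C, M.IsCircuit C ↔ ∃ c, c ≠ 0 ∧ C = supp s c := fun C => by
    rw [Matroid.isCircuit_iff]
    constructor
    · rintro ⟨h1, h2⟩
      obtain ⟨c, hc, hsub⟩ := (hdep C).1 h1
      exact ⟨c, hc, (h2 ((hdep _).2 ⟨c, hc, subset_rfl⟩) hsub).symm⟩
    · rintro ⟨c, hc, rfl⟩
      refine ⟨(hdep _).2 ⟨c, hc, subset_rfl⟩, fun D hD hDC => ?_⟩
      obtain ⟨d, hd, hsub⟩ := (hdep D).1 hD
      have := hmin c d hd (hsub.trans hDC)
      rw [this] at hsub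
      exact subset_antisymm hDC hsub
  have hs0 : ∀ i, s i ≠ 0 := fun i h0 =>
    ha {i} (Finset.singleton_nonempty i) (by simp) (by simpa using h0)
  have hzero : ∀ K, M.IsCocircuit K → ∀ e ∈ K,
      ∃ T : Finset (Fin n), e ∈ T ∧ (T : Set (Fin n)) ⊆ K ∧ ∑ i ∈ T, s i = 0 := by
    intro K hK e he
    by_contra hcon
    push Not at hcon
    obtain ⟨c, hc, h1⟩ := exists_sep s K e he hcon
    exact ((hcirc _).2 ⟨c, hc, rfl⟩).inter_isCocircuit_ne_singleton hK h1
  have e0 : Fin k := ⟨0, by omega⟩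
  have hx : ∀ i : Fin k, (Pi.single i 1 : W k) ≠ 0 := fun i h => by simpa using congrFun h i
  refine ⟨n, M, v, hE, ?_, fun I => linMat_indep _ _ _, ?_, ?_, ?_, ?_, ?_⟩
  · obtain ⟨i, -⟩ := hb _ _ (hx e0) (hx e0)
    exact ⟨i, Set.mem_univ i⟩
  · intro C K hC hK
    obtain ⟨c, hc, rfl⟩ := (hcirc C).1 hC
    obtain ⟨e, he⟩ := hK.nonempty
    obtain ⟨T, heT, hTK, hT⟩ := hzero K hK e he
    have hTK' : (T : Set (Fin n)) = K := by
      by_contra hne
      have h1 := (Matroid.isCocircuit_iff_minimal_compl_nonspanning.1 hK).not_prop_of_lt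
        (lt_of_le_of_ne hTK hne)
      rw [not_not] at h1
      have h2 : e ∈ M.closure (M.E \ T) := by rw [h1.closure_eq]; exact Set.mem_univ e
      obtain ⟨C', hsub, hC', heC'⟩ := Matroid.exists_isCircuit_of_mem_closure h2 (fun h => h.2 heT)
      obtain ⟨d, -, rfl⟩ := (hcirc C').1 hC'
      have h3 : supp s d ∩ T = {e} := by
        ext i
        constructor
        · rintro ⟨h4, h5⟩
          rcases hsub h4 with h6 | h6
          · exact h6
          · exact absurd h5 h6.2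
        · rintro rfl
          exact ⟨heC', heT⟩
      have h4 := sum_dot s d T
      rw [hT, h3, dotProduct_zero, Set.ncard_singleton] at h4
      revert h4; decide
    have h5 := sum_dot s c T
    rw [hT, dotProduct_zero, hTK'] at h5
    exact (ZMod.natCast_eq_zero_iff_even).1 h5.symm
  · intro e f
    obtain ⟨c, h1, h2⟩ := exists_both (s e) (s f) (hs0 e) (hs0 f)
    rw [dotProduct_comm] at h1 h2
    exact ⟨supp s c, (hcirc _).2 ⟨c, fun h0 => by rw [h0] at h1; simp at h1, rfl⟩, h1, h2⟩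
  · intro K hK
    obtain ⟨e, he⟩ := hK.nonempty
    obtain ⟨T, heT, hTK, hT⟩ := hzero K hK e he
    have h1 : ¬ T.card < t + 2 := fun h => ha T ⟨e, heT⟩ h hT
    have h2 := Set.ncard_le_ncard hTK
    rw [Set.ncard_coe_finset] at h2
    omega
  · intro D hD
    obtain ⟨c, hc, rfl⟩ := (hcirc D).1 hD
    have hout : ∀ g : W k, g ≠ 0 → g ≠ c → ∃ i, g ⬝ᵥ s i = 1 ∧ i ∉ supp s c := by
      intro g hg hgc
      by_contra hcon
      push Not at hcon
      exact hgc (hmin c g hg (fun i hi => hcon i hi))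
    have hcard : ∀ S : Finset (W k), S.card ≤ 4 → ∃ g, g ∉ S := fun S hS => by
      have h8 : 2 ^ 3 ≤ 2 ^ k := Nat.pow_le_pow_right (by norm_num) hk
      obtain ⟨g, -, hg⟩ := Finset.exists_mem_notMem_of_card_lt_card (s := S) (t := Finset.univ)
        (by rw [Finset.card_univ, card_W]; omega)
      exact ⟨g, hg⟩
    obtain ⟨g, hg⟩ := hcard {0, c} (Finset.card_le_two.trans (by norm_num))
    simp only [Finset.mem_insert, Finset.mem_singleton, not_or] at hg
    obtain ⟨i, hi1, hi2⟩ := hout g hg.1 hg.2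
    obtain ⟨h, hh⟩ := hcard {0, c, g, g + c} Finset.card_le_four
    simp only [Finset.mem_insert, Finset.mem_singleton, not_or] at hh
    rcases two_cases (h ⬝ᵥ s i) with h0 | h0
    · obtain ⟨j, hj1, hj2⟩ := hout h hh.1 hh.2.1
      exact ⟨i, j, hi2, hj2, fun hij => by rw [← hij, h0] at hj1; exact zero_ne_one hj1⟩
    · have e1 : g + h ≠ 0 := fun h1 => hh.2.2.1 (by
        calc h = (g + g) + h := by rw [add_self', zero_add]
          _ = g + (g + h) := by abel
          _ = g := by rw [h1, add_zero])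
      have e2 : g + h ≠ c := fun h1 => hh.2.2.2 (by
        calc h = (g + g) + h := by rw [add_self', zero_add]
          _ = g + (g + h) := by abel
          _ = g + c := by rw [h1])
      obtain ⟨j, hj1, hj2⟩ := hout (g + h) e1 e2
      refine ⟨i, j, hi2, hj2, fun hij => ?_⟩
      rw [← hij, add_dotProduct, hi1, h0] at hj1
      revert hj1; decide
  · intro C D hC hD hdis
    obtain ⟨c, hc, rfl⟩ := (hcirc C).1 hC
    obtain ⟨d, hd, rfl⟩ := (hcirc D).1 hD
    obtain ⟨i, h1, h2⟩ := hb c d hc hd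
    exact Set.disjoint_left.1 hdis h1 h2

end H13IC
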