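import Mathlib
import Pool.Agent.Lib.helper13.Cone

set_option autoImplicit false

namespace H13Cone

open Complex Real Polynomial Filter Topology

theorem real_of_upper (p : ℝ[X]) (h : ∀ t : ℂ, 0 < t.im → aeval t p ≠ 0) (z : ℂ)
    (hz : aeval z p = 0) : z.im = 0 := by
  rcases lt_trichotomy z.im 0 with h1 | h1 | h1
  · exact absurd (by rw [aeval_conj, hz, map_zero]) (h (starRingEnd ℂ z) (by simpa using h1))
  · exact h1
  · exact absurd hz (h z h1)

theorem splits_of_real (p : ℝ[X]) (h : ∀ z : ℂ, aeval z p = 0 → z.im = 0) : p.Splits := by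
  refine Splits.of_splits_map (algebraMap ℝ ℂ) (IsAlgClosed.splits _) fun a ha => ?_
  have := isRoot_of_mem_roots ha
  rw [IsRoot.def, eval_map_algebraMap] at this
  exact ⟨a.re, Complex.ext (by simp) (by simp [h a this])⟩

theorem root_nonpos {p : ℝ[X]} (h : ∀ x, 0 < x → 0 < p.eval x) {r : ℝ} (hr : r ∈ p.roots) :
    r ≤ 0 := by
  by_contra hc
  exact (h r (not_le.1 hc)).ne' (isRoot_of_mem_roots hr)

theorem lead_pos {p : ℝ[X]} (hs : p.Splits) (h : ∀ x, 0 < x → 0 < p.eval x) :
    0 < p.leadingCoeff := by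
  have h1 := h 1 one_pos
  rw [hs.eval_eq_prod_roots] at h1
  refine (mul_pos_iff_of_pos_right (Multiset.prod_pos fun a ha => ?_)).1 h1
  obtain ⟨r, hr, rfl⟩ := Multiset.mem_map.1 ha
  linarith [root_nonpos h hr]

noncomputable def phi (y : ℝ) : ℝ := π / 2 - Real.arctan y

theorem HA_phi (s r ε : ℝ) (hε : 0 < ε) : HA ((s + ε * I) - r) (phi ((s - r) / ε)) := by
  set y := (s - r) / ε with hy
  have h1 : 0 < √(1 + y ^ 2) := by positivity
  refine ⟨ε * √(1 + y ^ 2), by positivity, Complex.ext ?_ ?_⟩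
  · rw [re_ofReal_mul, exp_ofReal_mul_I_re, phi, Real.cos_pi_div_two_sub, Real.sin_arctan]
    simp only [sub_re, add_re, ofReal_re, mul_re, I_re, mul_zero, ofReal_im, I_im, mul_one]
    field_simp
    rw [hy]; field_simp; ring
  · rw [im_ofReal_mul, exp_ofReal_mul_I_im, phi, Real.sin_pi_div_two_sub, Real.cos_arctan]
    simp only [sub_im, add_im, ofReal_re, mul_im, I_re, mul_zero, ofReal_im, I_im, mul_one]
    field_simp
    ring

theorem HA_prod {α : Type*} (m : Multiset α) (u : α → ℂ) (a : α → ℝ)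
    (h : ∀ i ∈ m, HA (u i) (a i)) : HA (m.map u).prod (m.map a).sum := by
  induction m using Multiset.induction_on with
  | empty => simpa using HA_one
  | cons i m ih =>
    rw [Multiset.map_cons, Multiset.map_cons, Multiset.prod_cons, Multiset.sum_cons]
    exact (h i (Multiset.mem_cons_self _ _)).mul
      (ih fun j hj => h j (Multiset.mem_cons_of_mem hj))

noncomputable def totArg (p : ℝ[X]) (s ε : ℝ) : ℝ := (p.roots.map fun r => phi ((s - r) / ε)).sum

theorem HA_tot {p : ℝ[X]} (hs : p.Splits) (hl : 0 < p.leadingCoeff) (s ε : ℝ) (hε : 0 < ε) :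
    HA (aeval ((s : ℂ) + ε * I) p) (totArg p s ε) := by
  have e : aeval ((s : ℂ) + ε * I) p =
      (p.leadingCoeff : ℂ) * (p.roots.map fun r : ℝ => ((s : ℂ) + ε * I) - r).prod := by
    conv_lhs => rw [hs.eq_prod_roots]
    rw [map_mul, map_multiset_prod, Multiset.map_map]
    simp
  rw [e]
  exact (HA_prod _ _ _ fun r _ => HA_phi s r ε hε).smul hl

theorem phi_top : Tendsto phi atTop (𝓝 0) := by
  have := (tendsto_nhds_of_tendsto_nhdsWithin tendsto_arctan_atTop).const_sub (π / 2)
  rwa [sub_self] at this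

theorem phi_bot : Tendsto phi atBot (𝓝 π) := by
  have := (tendsto_nhds_of_tendsto_nhdsWithin tendsto_arctan_atBot).const_sub (π / 2)
  rwa [show π / 2 - -(π / 2) = π by ring] at this

theorem tot_cont (p : ℝ[X]) (ε : ℝ) : Continuous fun s => totArg p s ε := by
  unfold totArg phi
  exact continuous_multiset_sum _ fun r _ => by fun_prop

theorem tot_top (p : ℝ[X]) (ε : ℝ) (hε : 0 < ε) :
    Tendsto (fun s => totArg p s ε) atTop (𝓝 0) := by
  have := tendsto_multiset_sum (f := fun (r s : ℝ) => phi ((s - r) / ε)) (x := atTop)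
    (a := fun _ => 0) p.roots fun r _ =>
      phi_top.comp ((tendsto_atTop_add_const_right _ (-r) tendsto_id).atTop_div_const hε)
  simpa [totArg] using this

theorem tot_lim (p : ℝ[X]) (s : ℝ) (hs : s ∉ p.roots) :
    Tendsto (fun ε => totArg p s ε) (𝓝[>] 0) (𝓝 (π * p.roots.countP (s < ·))) := by
  have := tendsto_multiset_sum (f := fun (r ε : ℝ) => phi ((s - r) / ε)) (x := 𝓝[>] 0)
    (a := fun r => if s < r then π else 0) p.roots fun r hr => by
      have hne : s ≠ r := fun h => hs (h ▸ hr)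
      simp only [div_eq_mul_inv]
      split_ifs with h
      · exact phi_bot.comp (tendsto_inv_nhdsGT_zero.const_mul_atTop_of_neg (by linarith))
      · exact phi_top.comp (tendsto_inv_nhdsGT_zero.const_mul_atTop
          (sub_pos.2 (lt_of_le_of_ne (not_lt.1 h) hne.symm)))
  suffices e : ∀ m : Multiset ℝ, π * m.countP (s < ·) =
      (m.map fun r => if s < r then π else 0).sum by rw [e]; exact this
  intro m
  induction m using Multiset.induction_on with
  | empty => simp
  | cons a m ih =>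
    rw [Multiset.map_cons, Multiset.sum_cons, ← ih, Multiset.countP_cons]
    split_ifs <;> push_cast <;> ring

theorem band (D : ℝ → ℝ) (hc : Continuous D) (h0 : Tendsto D atTop (𝓝 0))
    (hs : ∀ s, 0 ≤ Real.sin (D s)) (s : ℝ) : 0 ≤ D s ∧ D s ≤ π := by
  have pi0 := Real.pi_pos
  constructor
  · by_contra h
    push Not at h
    have hm : max (D s) (-(π / 2)) < 0 := max_lt h (by linarith)
    obtain ⟨s0, h1⟩ := (h0.eventually (lt_mem_nhds hm)).exists
    obtain ⟨x, hx⟩ := intermediate_value_univ s s0 hc ⟨le_max_left _ (-(π / 2)), h1.le⟩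
    have := hs x
    rw [hx] at this
    exact absurd (Real.sin_neg_of_neg_of_neg_pi_lt hm
      (lt_of_lt_of_le (by linarith) (le_max_right _ _))) (not_lt.2 this)
  · by_contra h
    push Not at h
    have hm : π < min (D s) (3 * π / 2) := lt_min h (by linarith)
    obtain ⟨s0, h1⟩ := (h0.eventually (gt_mem_nhds pi0)).exists
    obtain ⟨x, hx⟩ := intermediate_value_univ s0 s hc
      ⟨(h1.trans hm).le, min_le_left _ (3 * π / 2)⟩
    have := hs x
    rw [hx, ← Real.sin_sub_two_pi] at this
    exact absurd (Real.sin_neg_of_neg_of_neg_pi_lt (by linarith [min_le_right (D s) (3 * π / 2)])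
      (by linarith)) (not_lt.2 this)

theorem count_le {f g : ℝ[X]} (hf : f.Splits) (hg : g.Splits) (lf : 0 < f.leadingCoeff)
    (lg : 0 < g.leadingCoeff)
    (H : ∀ t : ℂ, 0 < t.im → ∃ α β, HA (aeval t f) α ∧ HA (aeval t g) β ∧ α ≤ β ∧ β ≤ α + π)
    (s : ℝ) (h1 : s ∉ f.roots) (h2 : s ∉ g.roots) :
    f.roots.countP (s < ·) ≤ g.roots.countP (s < ·) ∧
      g.roots.countP (s < ·) ≤ f.roots.countP (s < ·) + 1 := by
  have pi0 := Real.pi_pos
  have key : ∀ ε, 0 < ε → 0 ≤ totArg g s ε - totArg f s ε ∧ totArg g s ε - totArg f s ε ≤ π := by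
    intro ε hε
    refine band (fun s => totArg g s ε - totArg f s ε) ((tot_cont g ε).sub (tot_cont f ε))
      (by simpa using (tot_top g ε hε).sub (tot_top f ε hε)) (fun x => ?_) s
    obtain ⟨α, β, a1, a2, a3, a4⟩ := H (x + ε * I) (by simpa using hε)
    obtain ⟨ρ, r0, r1, -⟩ := (a2.mul a1.inv).im_eq
    obtain ⟨σ, s0, s1, -⟩ := ((HA_tot hg lg x ε hε).mul (HA_tot hf lf x ε hε).inv).im_eq
    have : 0 ≤ Real.sin (β + -α) := Real.sin_nonneg_of_nonneg_of_le_pi (by linarith) (by linarith)
    rw [sub_eq_add_neg]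
    by_contra hc
    nlinarith [mul_pos s0 (neg_pos.2 (not_le.1 hc)), mul_nonneg r0.le this]
  have lim := (tot_lim g s h2).sub (tot_lim f s h1)
  have b1 := ge_of_tendsto lim (eventually_nhdsWithin_of_forall fun ε hε => (key ε hε).1)
  have b2 := le_of_tendsto lim (eventually_nhdsWithin_of_forall fun ε hε => (key ε hε).2)
  constructor
  · have : (f.roots.countP (s < ·) : ℝ) ≤ g.roots.countP (s < ·) := by
      by_contra hc; nlinarith [not_le.1 hc]
    exact_mod_cast this
  · have : (g.roots.countP (s < ·) : ℝ) ≤ f.roots.countP (s < ·) + 1 := by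
      by_contra hc; nlinarith [not_le.1 hc]
    exact_mod_cast this

theorem lt_get_iff (x : ℝ) : ∀ (L : List ℝ), L.Pairwise (· ≥ ·) → ∀ (i : ℕ) (h : i < L.length),
    (x < L[i] ↔ i < L.countP (fun r => decide (x < r))) := by
  intro L
  induction L with
  | nil => intro _ i h; simp at h
  | cons a L ih =>
    intro hL i h
    rw [List.pairwise_cons] at hL
    by_cases hx : x < a
    · cases i with
      | zero => simp [hx]
      | succ i =>
        simp only [List.getElem_cons_succ, List.countP_cons, hx, decide_true, if_true,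
          Nat.add_lt_add_iff_right]
        exact ih hL.2 i _
    · have h0 : (a :: L).countP (fun r => decide (x < r)) = 0 := by
        rw [List.countP_eq_zero]
        intro r hr
        rcases List.mem_cons.1 hr with rfl | hr
        · simpa using hx
        · have := hL.1 r hr
          simp only [decide_eq_true_eq, not_lt] at hx ⊢
          linarith
      rw [h0]
      simp only [Nat.not_lt_zero, iff_false, not_lt]
      rcases List.mem_cons.1 (List.getElem_mem h) with e | e
      · rw [e]; exact not_lt.1 hx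
      · exact (hL.1 _ e).trans (not_lt.1 hx)

theorem sort_iff (m : Multiset ℝ) (x : ℝ) (i : ℕ) (h : i < (m.sort (· ≥ ·)).length) :
    x < (m.sort (· ≥ ·))[i] ↔ i < m.countP (x < ·) := by
  rw [lt_get_iff x _ (Multiset.pairwise_sort m _) i h]
  conv_rhs => rw [← Multiset.sort_eq m (· ≥ ·), Multiset.coe_countP]

theorem exists_gap (m : Multiset ℝ) {a b : ℝ} (h : a < b) : ∃ x, a < x ∧ x < b ∧ x ∉ m := by
  obtain ⟨x, hx, hm⟩ := (Set.Ioo_infinite h).exists_notMem_finite m.finite_toSet
  exact ⟨x, hx.1, hx.2, hm⟩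

/-- The converse of the Hermite-Biehler theorem: argument comparison gives interlacing. -/
theorem chain {f g : ℝ[X]} (hf : f.Splits) (hg : g.Splits) (lf : 0 < f.leadingCoeff)
    (lg : 0 < g.leadingCoeff)
    (H : ∀ t : ℂ, 0 < t.im → ∃ α β, HA (aeval t f) α ∧ HA (aeval t g) β ∧ α ≤ β ∧ β ≤ α + π) :
    (∀ (i : ℕ) (h1 : i < (f.roots.sort (· ≥ ·)).length) (h2 : i < (g.roots.sort (· ≥ ·)).length),
      (f.roots.sort (· ≥ ·))[i] ≤ (g.roots.sort (· ≥ ·))[i]) ∧
    ∀ (i : ℕ) (h1 : i < (f.roots.sort (· ≥ ·)).length)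
      (h2 : i + 1 < (g.roots.sort (· ≥ ·)).length),
      (g.roots.sort (· ≥ ·))[i + 1] ≤ (f.roots.sort (· ≥ ·))[i] := by
  constructor
  · intro i h1 h2
    by_contra hc
    obtain ⟨x, a1, a2, a3⟩ := exists_gap (f.roots + g.roots) (not_le.1 hc)
    rw [Multiset.mem_add, not_or] at a3
    have := (count_le hf hg lf lg H x a3.1 a3.2).1
    have b1 := (sort_iff _ x i h1).1 a2
    have b2 := (sort_iff _ x i h2).not.1 (not_lt.2 a1.le)
    omega
  · intro i h1 h2
    by_contra hc
    obtain ⟨x, a1, a2, a3⟩ := exists_gap (f.roots + g.roots) (not_le.1 hc)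
    rw [Multiset.mem_add, not_or] at a3
    have := (count_le hf hg lf lg H x a3.1 a3.2).2
    have b1 := (sort_iff _ x _ h2).1 a2
    have b2 := (sort_iff _ x i h1).not.1 (not_lt.2 a1.le)
    omega

end H13Cone
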