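import Mathlib

set_option autoImplicit false

/-! Dirac's theorem: minimum degree three forces a `K4` minor. -/

namespace H13K4
open Relation

variable {V : Type}

def RIn (H : SimpleGraph V) (S : Set V) : V → V → Prop := fun p r => H.Adj p r ∧ p ∈ S ∧ r ∈ S

def Conn (H : SimpleGraph V) (S : Set V) : Prop := ∀ x ∈ S, ∀ y ∈ S, ReflTransGen (RIn H S) x y

def HasK4 (H : SimpleGraph V) : Prop := ∃ f : Fin 4 → Set V, (∀ i, Conn H (f i)) ∧
  (∀ i j, i ≠ j → Disjoint (f i) (f j)) ∧ (∀ i j, i ≠ j → ∃ x ∈ f i, ∃ y ∈ f j, H.Adj x y)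

theorem Conn.connected {H : SimpleGraph V} {S : Set V} (h : Conn H S) (hne : S.Nonempty) :
    (H.induce S).Connected := by
  have : Nonempty S := hne.to_subtype
  refine ⟨fun x y => ?_⟩
  have key : ∀ a b, ReflTransGen (RIn H S) a b → ∀ (ha : a ∈ S) (hb : b ∈ S),
      (H.induce S).Reachable ⟨a, ha⟩ ⟨b, hb⟩ := by
    intro a b hab
    induction hab with
    | refl => intro _ _; rfl
    | tail _ h2 ih =>
      intro ha hb
      exact (ih ha h2.2.1).trans (SimpleGraph.Adj.reachable (by exact h2.1))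
  exact key _ _ (h x.1 x.2 y.1 y.2) x.2 y.2

theorem HasK4.lift {H H' : SimpleGraph V} (φ : V → V)
    (h1 : ∀ p r, H'.Adj p r → ∃ x y, φ x = p ∧ φ y = r ∧ H.Adj x y)
    (h2 : ∀ x y, φ x = φ y → x = y ∨ H.Adj x y) (h : HasK4 H') : HasK4 H := by
  obtain ⟨f, hc, hd, ha⟩ := h
  refine ⟨fun i => φ ⁻¹' f i, fun i x hx y hy => ?_, fun i j hij => (hd i j hij).preimage φ,
    fun i j hij => ?_⟩
  · have fib : ∀ x y, φ x ∈ f i → φ x = φ y → ReflTransGen (RIn H (φ ⁻¹' f i)) x y := by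
      intro x y hx hxy
      rcases h2 x y hxy with rfl | h
      · exact ReflTransGen.refl
      · exact ReflTransGen.single ⟨h, hx, by show φ y ∈ f i; rwa [← hxy]⟩
    have key : ∀ r, ReflTransGen (RIn H' (f i)) (φ x) r → ∀ y, φ y = r →
        ReflTransGen (RIn H (φ ⁻¹' f i)) x y := by
      intro r hr
      induction hr with
      | refl => intro y hy; exact fib x y hx hy.symm
      | tail _ h3 ih =>
        intro y hy
        obtain ⟨x', y', e1, e2, hadj⟩ := h1 _ _ h3.1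
        have hx' : φ x' ∈ f i := e1 ▸ h3.2.1
        have hy' : φ y' ∈ f i := e2 ▸ h3.2.2
        exact ((ih x' e1).tail ⟨hadj, hx', hy'⟩).trans (fib y' y hy' (e2.trans hy.symm))
    exact key _ (hc i _ hx _ hy) y rfl
  · obtain ⟨p, hp, r, hr, hadj⟩ := ha i j hij
    obtain ⟨x, y, rfl, rfl, h⟩ := h1 p r hadj
    exact ⟨x, hp, y, hr, h⟩

theorem HasK4.mono {H H' : SimpleGraph V} (hle : ∀ p r, H'.Adj p r → H.Adj p r) (h : HasK4 H') :
    HasK4 H :=
  h.lift id (fun p r h => ⟨p, r, rfl, rfl, hle p r h⟩) (fun _ _ h => Or.inl h)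

/-- restriction to a set -/
def res (H : SimpleGraph V) (S : Set V) : SimpleGraph V where
  Adj p r := H.Adj p r ∧ p ∈ S ∧ r ∈ S
  symm := ⟨fun _ _ h => ⟨h.1.symm, h.2.2, h.2.1⟩⟩
  loopless := ⟨fun _ h => h.1.ne rfl⟩

theorem HasK4.of_res {H : SimpleGraph V} {S : Set V} (h : HasK4 (res H S)) : HasK4 H :=
  HasK4.mono (H' := res H S) (fun _ _ h => And.left h) h

/-- contraction of `v` into `a` -/
def con (H : SimpleGraph V) (v a : V) : SimpleGraph V where
  Adj p r := p ≠ r ∧ p ≠ v ∧ r ≠ v ∧ (H.Adj p r ∨ (p = a ∧ H.Adj v r) ∨ (r = a ∧ H.Adj v p))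
  symm := ⟨fun _ _ h => ⟨h.1.symm, h.2.2.1, h.2.1, by
    rcases h.2.2.2 with h | h | h
    · exact Or.inl h.symm
    · exact Or.inr (Or.inr h)
    · exact Or.inr (Or.inl h)⟩⟩
  loopless := ⟨fun _ h => h.1 rfl⟩

theorem HasK4.of_con {H : SimpleGraph V} {v a : V} (hva : H.Adj v a) (h : HasK4 (con H v a)) :
    HasK4 H := by
  classical
  refine h.lift (fun x => if x = v then a else x) ?_ ?_
  · rintro p r ⟨-, hp, hr, h' | ⟨e, h'⟩ | ⟨e, h'⟩⟩
    · exact ⟨p, r, if_neg hp, if_neg hr, h'⟩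
    · exact ⟨v, r, (if_pos rfl).trans e.symm, if_neg hr, h'⟩
    · exact ⟨p, v, if_neg hp, (if_pos rfl).trans e.symm, h'.symm⟩
  · intro x y h
    by_cases hx : x = v <;> by_cases hy : y = v
    · exact Or.inl (hx.trans hy.symm)
    · rw [if_pos hx, if_neg hy] at h; right; rw [hx, ← h]; exact hva
    · rw [if_neg hx, if_pos hy] at h; right; rw [hy, h]; exact hva.symm
    · rw [if_neg hx, if_neg hy] at h; exact Or.inl h

def Deg3 (H : SimpleGraph V) (w : V) : Prop :=
  ∃ p q r, p ≠ q ∧ p ≠ r ∧ q ≠ r ∧ H.Adj w p ∧ H.Adj w q ∧ H.Adj w r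

theorem Deg3.third {H : SimpleGraph V} {w : V} (h : Deg3 H w) (a b : V) :
    ∃ z, H.Adj w z ∧ z ≠ a ∧ z ≠ b := by
  obtain ⟨p, q, r, h1, h2, h3, hp, hq, hr⟩ := h
  by_contra hc
  push Not at hc
  have e1 := hc p hp
  have e2 := hc q hq
  have e3 := hc r hr
  by_cases a1 : p = a <;> by_cases a2 : q = a <;> by_cases a3 : r = a <;> simp_all

theorem Deg3.res {H : SimpleGraph V} {w : V} (h : Deg3 H w) (S : Set V) (hw : w ∈ S)
    (hS : ∀ y, H.Adj w y → y ∈ S) : Deg3 (res H S) w := by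
  obtain ⟨p, q, r, h1, h2, h3, hp, hq, hr⟩ := h
  exact ⟨p, q, r, h1, h2, h3, ⟨hp, hw, hS _ hp⟩, ⟨hq, hw, hS _ hq⟩, ⟨hr, hw, hS _ hr⟩⟩

/-- component of `z` after deleting `T` -/
def comp (H : SimpleGraph V) (T : Set V) (z : V) : Set V :=
  {y | ReflTransGen (fun p r => H.Adj p r ∧ r ∉ T) z y}

theorem comp_notMem {H : SimpleGraph V} {T : Set V} {z y : V} (hz : z ∉ T) (hy : y ∈ comp H T z) :
    y ∉ T := by
  induction hy with
  | refl => exact hz
  | tail _ h _ => exact h.2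

theorem comp_conn (H : SimpleGraph V) (T : Set V) (z : V) : Conn H (comp H T z) := by
  have key : ∀ y ∈ comp H T z, ReflTransGen (RIn H (comp H T z)) z y := by
    intro y hy
    induction hy with
    | refl => exact ReflTransGen.refl
    | tail h1 h2 ih => exact ih.tail ⟨h2.1, h1, ReflTransGen.tail h1 h2⟩
  intro x hx y hy
  have hs : ∀ p r, ReflTransGen (RIn H (comp H T z)) p r →
      ReflTransGen (RIn H (comp H T z)) r p := by
    intro p r h
    induction h with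
    | refl => exact ReflTransGen.refl
    | tail _ h ih => exact ReflTransGen.head ⟨h.1.symm, h.2.2, h.2.1⟩ ih
  exact (hs _ _ (key x hx)).trans (key y hy)

theorem comp_symm {H : SimpleGraph V} {T : Set V} {z y : V} (hz : z ∉ T) (hy : y ∈ comp H T z) :
    z ∈ comp H T y := by
  induction hy with
  | refl => exact ReflTransGen.refl
  | tail h1 h2 ih => exact ReflTransGen.head ⟨h2.1.symm, comp_notMem hz h1⟩ ih

theorem k4_of_triangle {H : SimpleGraph V} {a v w z : V} (h1 : H.Adj a v) (h2 : H.Adj a w)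
    (h3 : H.Adj v w) (hz : z ∉ ({a, v, w} : Set V))
    (ha : ∃ y ∈ comp H {a, v, w} z, H.Adj a y) (hv : ∃ y ∈ comp H {a, v, w} z, H.Adj v y)
    (hw : ∃ y ∈ comp H {a, v, w} z, H.Adj w y) : HasK4 H := by
  have hs : ∀ x : V, Conn H {x} := fun x p hp r hr => by
    rw [Set.mem_singleton_iff.mp hp, Set.mem_singleton_iff.mp hr]
  have na : a ∉ comp H {a, v, w} z := fun h => comp_notMem hz h (by simp)
  have nv : v ∉ comp H {a, v, w} z := fun h => comp_notMem hz h (by simp)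
  have nw : w ∉ comp H {a, v, w} z := fun h => comp_notMem hz h (by simp)
  obtain ⟨ya, ha1, ha2⟩ := ha
  obtain ⟨yv, hv1, hv2⟩ := hv
  obtain ⟨yw, hw1, hw2⟩ := hw
  refine ⟨![{a}, {v}, {w}, comp H {a, v, w} z], fun i => ?_, fun i j hij => ?_, fun i j hij => ?_⟩
  · fin_cases i
    · exact hs a
    · exact hs v
    · exact hs w
    · exact comp_conn _ _ _
  · have := h1.ne
    have := h2.ne
    have := h3.ne
    have := h1.ne'
    have := h2.ne'
    have := h3.ne'
    fin_cases i <;> fin_cases j <;> simp_all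
  · fin_cases i <;> fin_cases j <;> first
      | exact absurd rfl hij
      | exact ⟨_, rfl, _, rfl, h1⟩
      | exact ⟨_, rfl, _, rfl, h2⟩
      | exact ⟨_, rfl, _, rfl, h3⟩
      | exact ⟨_, rfl, _, rfl, h1.symm⟩
      | exact ⟨_, rfl, _, rfl, h2.symm⟩
      | exact ⟨_, rfl, _, rfl, h3.symm⟩
      | exact ⟨_, rfl, _, ha1, ha2⟩
      | exact ⟨_, rfl, _, hv1, hv2⟩
      | exact ⟨_, rfl, _, hw1, hw2⟩
      | exact ⟨_, ha1, _, rfl, ha2.symm⟩
      | exact ⟨_, hv1, _, rfl, hv2.symm⟩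
      | exact ⟨_, hw1, _, rfl, hw2.symm⟩

theorem dirac_aux : ∀ (n : ℕ) (A : Finset V) (H : SimpleGraph V) (a b : V), A.card = n →
    (∀ p r, H.Adj p r → p ∈ A) → (a = b ∨ H.Adj a b) → a ∈ A →
    (∃ z ∈ A, z ≠ a ∧ z ≠ b) → (∀ z ∈ A, z ≠ a → z ≠ b → Deg3 H z) → HasK4 H := by
  classical
  intro n
  induction n using Nat.strong_induction_on with
  | _ n ih =>
  intro A H a b hn hA hab haA hz hdeg
  by_cases hv : ∃ v, H.Adj a v ∧ v ≠ b
  swap
  · push Not at hv
    obtain ⟨z, hzA, hza, hzb⟩ := hz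
    have hlt : (A.erase a).card < n := by rw [← hn]; exact Finset.card_erase_lt_of_mem haA
    have hd : ∀ y ∈ A.erase a, y ≠ b → Deg3 (res H {x | x ≠ a}) y := by
      intro y hy hyb
      have hya := Finset.ne_of_mem_erase hy
      exact (hdeg y (Finset.mem_of_mem_erase hy) hya hyb).res _ hya
        (fun y' h h' => hyb (hv y (by rw [← h']; exact h.symm)))
    have hA' : ∀ p r, (res H {x | x ≠ a}).Adj p r → p ∈ A.erase a :=
      fun p r h => Finset.mem_erase.mpr ⟨h.2.1, hA p r h.1⟩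
    rcases hab with rfl | hab
    · obtain ⟨y, hy1, hy2, -⟩ := (hdeg z hzA hza hza).third a a
      exact (ih _ hlt (A.erase a) _ z z rfl hA' (Or.inl rfl) (Finset.mem_erase.mpr ⟨hza, hzA⟩)
        ⟨y, Finset.mem_erase.mpr ⟨hy2, hA y z hy1.symm⟩, hy1.ne', hy1.ne'⟩
        (fun y hy _ _ => hd y hy (Finset.ne_of_mem_erase hy))).of_res
    · exact (ih _ hlt (A.erase a) _ b b rfl hA' (Or.inl rfl)
        (Finset.mem_erase.mpr ⟨hab.ne', hA b a hab.symm⟩)
        ⟨z, Finset.mem_erase.mpr ⟨hza, hzA⟩, hzb, hzb⟩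
        (fun y hy h _ => hd y hy h)).of_res
  obtain ⟨v, hav, hvb⟩ := hv
  have hvA : v ∈ A := hA v a hav.symm
  by_cases hw : ∃ w, H.Adj a w ∧ H.Adj v w ∧ w ≠ b
  swap
  · push Not at hw
    have hlt : (A.erase v).card < n := by rw [← hn]; exact Finset.card_erase_lt_of_mem hvA
    obtain ⟨y, hy1, hy2, hy3⟩ := (hdeg v hvA hav.ne' hvb).third a b
    refine HasK4.of_con hav.symm (ih _ hlt (A.erase v) _ a b rfl ?_ ?_
      (Finset.mem_erase.mpr ⟨hav.ne, haA⟩)
      ⟨y, Finset.mem_erase.mpr ⟨hy1.ne', hA y v hy1.symm⟩, hy2, hy3⟩ ?_)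
    · rintro p r ⟨-, hp, -, h | ⟨rfl, -⟩ | ⟨-, h⟩⟩
      · exact Finset.mem_erase.mpr ⟨hp, hA p r h⟩
      · exact Finset.mem_erase.mpr ⟨hp, haA⟩
      · exact Finset.mem_erase.mpr ⟨hp, hA p v h.symm⟩
    · rcases hab with h | h
      · exact Or.inl h
      · exact Or.inr ⟨h.ne, hav.ne, hvb.symm, Or.inl h⟩
    · intro z hz hza hzb
      have hzv := Finset.ne_of_mem_erase hz
      obtain ⟨p, q, r, h1, h2, h3, hp, hq, hr⟩ := hdeg z (Finset.mem_of_mem_erase hz) hza hzb
      have hadj : ∀ p, H.Adj z p → (con H v a).Adj z (if p = v then a else p) := by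
        intro p hp
        split_ifs with h
        · exact ⟨hza, hzv, hav.ne, Or.inr (Or.inr ⟨rfl, by rw [← h]; exact hp.symm⟩)⟩
        · exact ⟨hp.ne, hzv, h, Or.inl hp⟩
      have hinj : ∀ p q, H.Adj z p → H.Adj z q → p ≠ q →
          (if p = v then a else p) ≠ (if q = v then a else q) := by
        intro p q hp hq hpq h
        by_cases e1 : p = v <;> by_cases e2 : q = v
        · exact hpq (e1.trans e2.symm)
        · rw [if_pos e1, if_neg e2] at h
          exact hzb (hw z (by rw [h]; exact hq.symm) (by rw [← e1]; exact hp.symm))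
        · rw [if_neg e1, if_pos e2] at h
          exact hzb (hw z (by rw [← h]; exact hp.symm) (by rw [← e2]; exact hq.symm))
        · rw [if_neg e1, if_neg e2] at h; exact hpq h
      exact ⟨_, _, _, hinj p q hp hq h1, hinj p r hp hr h2, hinj q r hq hr h3,
        hadj p hp, hadj q hq, hadj r hr⟩
  obtain ⟨w, haw, hvw, hwb⟩ := hw
  have tri : ∀ v w, H.Adj a v → H.Adj a w → H.Adj v w → v ≠ b → w ≠ b →
      (b ∉ ({a, v, w} : Set V) → ¬ ∃ y ∈ comp H {a, v, w} b, H.Adj w y) → HasK4 H := by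
    intro v w hav haw hvw hvb hwb hB
    have hvA : v ∈ A := hA v a hav.symm
    have hwA : w ∈ A := hA w a haw.symm
    obtain ⟨z, hz1, hz2, hz3⟩ := (hdeg w hwA haw.ne' hwb).third a v
    have hzT : z ∉ ({a, v, w} : Set V) := by simp [hz2, hz3, hz1.ne']
    have hzC : z ∈ comp H {a, v, w} z := ReflTransGen.refl
    have hbC : b ∉ comp H {a, v, w} z := fun h =>
      hB (comp_notMem hzT h) ⟨z, comp_symm hzT h, hz1⟩
    have red : ∀ c d, ({a, v, w} : Set V) = {c, d, w} → H.Adj w c → d ∈ A → d ≠ c → d ≠ w →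
        (¬ ∃ y ∈ comp H {a, v, w} z, H.Adj d y) → HasK4 H := by
      intro c d hT hwc hdA hdc hdw hd
      set C := comp H {a, v, w} z with hC
      let S : Set V := C ∪ {w, c}
      have hdS : d ∉ S := by
        rintro (h | h | h)
        · exact comp_notMem hzT h (by rw [hT]; simp)
        · exact hdw h
        · exact hdc h
      have hlt : (A.filter (· ∈ S)).card < n := by
        rw [← hn]
        exact Finset.card_lt_card ⟨Finset.filter_subset _ _,
          fun h => hdS (Finset.mem_filter.mp (h hdA)).2⟩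
      have hwS : w ∈ S := Or.inr (Or.inl rfl)
      have hcS : c ∈ S := Or.inr (Or.inr rfl)
      refine HasK4.of_res (ih _ hlt _ (res H S) w c rfl
        (fun p r h => Finset.mem_filter.mpr ⟨hA p r h.1, h.2.1⟩) (Or.inr ⟨hwc, hwS, hcS⟩)
        (Finset.mem_filter.mpr ⟨hwA, hwS⟩)
        ⟨z, Finset.mem_filter.mpr ⟨hA z w hz1.symm, Or.inl hzC⟩, hz1.ne', fun h => hzT (by
          rw [hT, h]; simp)⟩ ?_)
      intro y hy hyw hyc
      obtain ⟨hyA, hyS⟩ := Finset.mem_filter.mp hy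
      have hyC : y ∈ C := by
        rcases hyS with h | h | h
        · exact h
        · exact absurd h hyw
        · exact absurd h hyc
      have hya : y ≠ a := fun h => comp_notMem hzT hyC (by rw [h]; simp)
      have hyb : y ≠ b := fun h => hbC (h ▸ hyC)
      refine (hdeg y hyA hya hyb).res S hyS (fun y' h => ?_)
      by_cases hT' : y' ∈ ({a, v, w} : Set V)
      · rw [hT] at hT'
        rcases hT' with h' | h' | h'
        · exact Or.inr (Or.inr h')
        · exact absurd ⟨y, hyC, by rw [← h']; exact h.symm⟩ hd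
        · exact Or.inr (Or.inl h')
      · exact Or.inl (ReflTransGen.tail hyC ⟨h, hT'⟩)
    by_cases ha : ∃ y ∈ comp H {a, v, w} z, H.Adj a y
    · by_cases hv : ∃ y ∈ comp H {a, v, w} z, H.Adj v y
      · exact k4_of_triangle hav haw hvw hzT ha hv ⟨z, hzC, hz1⟩
      · exact red a v rfl haw.symm hvA hav.ne' hvw.ne hv
    · exact red v a (Set.insert_comm _ _ _) hvw.symm haA hav.ne haw.ne ha
  by_cases hB1 : b ∉ ({a, v, w} : Set V) → ¬ ∃ y ∈ comp H {a, v, w} b, H.Adj w y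
  · exact tri v w hav haw hvw hvb hwb hB1
  · by_cases hB2 : b ∉ ({a, w, v} : Set V) → ¬ ∃ y ∈ comp H {a, w, v} b, H.Adj v y
    · exact tri w v haw hav hvw.symm hwb hvb hB2
    · push Not at hB1 hB2
      rw [Set.pair_comm w v] at hB2
      rcases hab with rfl | hab
      · exact absurd (by simp) hB1.1
      · exact k4_of_triangle hav haw hvw hB1.1 ⟨b, ReflTransGen.refl, hab⟩ hB2.2 hB1.2

theorem dirac (A : Finset V) (H : SimpleGraph V) (hA : ∀ p r, H.Adj p r → p ∈ A)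
    (hne : A.Nonempty) (h : ¬ HasK4 H) : ∃ x ∈ A, ¬ Deg3 H x := by
  by_contra hc
  push Not at hc
  obtain ⟨a, ha⟩ := hne
  obtain ⟨y, hy1, hy2, -⟩ := (hc a ha).third a a
  exact h (dirac_aux _ A H a a rfl hA (Or.inl rfl) ha ⟨y, hA y a hy1.symm, hy2, hy2⟩
    (fun z hz _ _ => hc z hz))

end H13K4
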