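import Mathlib

set_option autoImplicit false

namespace H13Lag

open Polynomial

/-- Laguerre's inequality for a real polynomial all of whose complex roots are real. -/
theorem laguerre_aux (x : ℝ) : ∀ (d : ℕ) (p : ℝ[X]), p.natDegree = d →
    (∀ z : ℂ, aeval z p = 0 → z.im = 0) →
    p.eval x * (derivative (derivative p)).eval x ≤ (derivative p).eval x ^ 2 := by
  intro d
  induction d with
  | zero =>
    intro p hp _
    rw [eq_C_of_natDegree_eq_zero hp]; simp
  | succ d ih =>
    intro p hp h
    have hd : p.degree ≠ 0 := by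
      rw [degree_eq_natDegree (by rintro rfl; simp at hp), hp]; exact_mod_cast d.succ_ne_zero
    obtain ⟨z, hz⟩ := IsAlgClosed.exists_aeval_eq_zero ℂ p hd
    have hzr : z = algebraMap ℝ ℂ z.re := Complex.ext (by simp) (by simp [h z hz])
    rw [hzr, aeval_algebraMap_apply_eq_algebraMap_eval, map_eq_zero] at hz
    obtain ⟨q, hq⟩ := dvd_iff_isRoot.2 hz
    have hq0 : q ≠ 0 := by rintro rfl; simp [hq] at hp
    have h1 := ih q (by
      rw [hq, natDegree_mul (X_sub_C_ne_zero _) hq0, natDegree_X_sub_C] at hp; omega)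
      (fun w hw => h w (by rw [hq, map_mul, hw, mul_zero]))
    rw [hq]
    simp only [derivative_mul, derivative_sub, derivative_add, derivative_X, derivative_C,
      eval_add, eval_mul, eval_sub, eval_X, eval_C, sub_zero, one_mul]
    nlinarith [mul_le_mul_of_nonneg_left h1 (sq_nonneg (x - z.re)), sq_nonneg (q.eval x)]

theorem exists_nonreal (p : ℝ[X]) (x : ℝ)
    (h : (derivative p).eval x ^ 2 < p.eval x * (derivative (derivative p)).eval x) :
    ∃ z : ℂ, aeval z p = 0 ∧ z.im ≠ 0 := by
  by_contra hcon
  push Not at hcon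
  exact absurd (laguerre_aux x _ p rfl hcon) (not_le.2 h)

end H13Lag
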