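import Mathlib

set_option autoImplicit false

namespace H13Lam

open Finset Polynomial Classical

variable {n : ℕ} {β : Type}

/-- Functions with values in `U` on `I` and equal to `e` elsewhere. -/
noncomputable def box (U : Finset β) (e : β) (I : Finset (Fin n)) : Finset (Fin n → β) :=
  Fintype.piFinset fun i => if i ∈ I then U else {e}

/-- The constraints of the family `F`. -/
def ok (σ : β → ℕ) (R : ℕ → ℕ → Prop) (F : Finset (Finset (Fin n))) (x : Fin n → β) : Prop :=
  ∀ D ∈ F, R (∑ i ∈ D, σ (x i)) D.card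

/-- The weighted count of the functions satisfying the constraints. -/
noncomputable def Z (U : Finset β) (e : β) (ω : β → ℤ[X]) (σ : β → ℕ) (R : ℕ → ℕ → Prop)
    (I : Finset (Fin n)) (F : Finset (Finset (Fin n))) : ℤ[X] :=
  ∑ x ∈ (box U e I).filter (ok σ R F), ∏ i ∈ I, ω (x i)

theorem ok_congr (σ : β → ℕ) (R : ℕ → ℕ → Prop) {F : Finset (Finset (Fin n))}
    {I : Finset (Fin n)} (hF : ∀ D ∈ F, D ⊆ I) {x y : Fin n → β} (h : ∀ i ∈ I, x i = y i)
    (hx : ok σ R F x) : ok σ R F y := fun D hD => by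
  rw [← sum_congr rfl fun i hi => congrArg σ (h i (hF D hD hi))]
  exact hx D hD

theorem Z_mul (U : Finset β) (e : β) (ω : β → ℤ[X]) (σ : β → ℕ) (R : ℕ → ℕ → Prop)
    {I J : Finset (Fin n)} {F G : Finset (Finset (Fin n))} (hd : Disjoint I J)
    (hF : ∀ D ∈ F, D ⊆ I) (hG : ∀ D ∈ G, D ⊆ J) :
    Z U e ω σ R (I ∪ J) (F ∪ G) = Z U e ω σ R I F * Z U e ω σ R J G := by
  have hn : ∀ i ∈ J, i ∉ I := fun i hi => disjoint_right.1 hd hi
  rw [Z, Z, Z, sum_mul_sum, ← sum_product']
  refine sum_nbij' (fun x => (fun i => if i ∈ I then x i else e, fun i => if i ∈ J then x i else e))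
    (fun p i => if i ∈ I then p.1 i else p.2 i) ?_ ?_ ?_ ?_ ?_
  · intro x hx
    simp only [box, mem_filter, Fintype.mem_piFinset, mem_product] at hx ⊢
    refine ⟨⟨fun i => ?_, ok_congr σ R hF (fun i hi => (if_pos hi).symm)
      fun D hD => hx.2 D (mem_union_left _ hD)⟩, fun i => ?_, ok_congr σ R hG
      (fun i hi => (if_pos hi).symm) fun D hD => hx.2 D (mem_union_right _ hD)⟩ <;>
    have := hx.1 i <;> split_ifs with h <;> simp_all
  · intro p hp
    simp only [box, mem_filter, Fintype.mem_piFinset, mem_product] at hp ⊢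
    refine ⟨fun i => ?_, fun D hD => (mem_union.1 hD).elim
      (ok_congr σ R hF (fun i hi => (if_pos hi).symm) hp.1.2 D)
      (ok_congr σ R hG (fun i hi => (if_neg (hn i hi)).symm) hp.2.2 D)⟩
    have h1 := hp.1.1 i
    have h2 := hp.2.1 i
    by_cases h : i ∈ I <;> simp_all
  · intro x hx
    simp only [box, mem_filter, Fintype.mem_piFinset] at hx
    ext i
    have := hx.1 i
    by_cases h : i ∈ I <;> by_cases h' : i ∈ J <;> simp_all
  · intro p hp
    simp only [box, mem_filter, Fintype.mem_piFinset, mem_product] at hp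
    ext i
    · have h1 := hp.1.1 i
      by_cases h : i ∈ I <;> simp_all
    · have h2 := hp.2.1 i
      by_cases h : i ∈ J
      · simp [h, hn i h]
      · simp_all
  · intro x _
    rw [prod_union hd]
    congr 1 <;> exact prod_congr rfl fun i hi => by simp [hi]

theorem Z_empty (U : Finset β) (e : β) (ω : β → ℤ[X]) (σ : β → ℕ) (R : ℕ → ℕ → Prop)
    (I : Finset (Fin n)) : Z U e ω σ R I ∅ = (∑ u ∈ U, ω u) ^ I.card := by
  rw [Z, filter_true_of_mem fun x _ D hD => absurd hD (notMem_empty _)]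
  have := prod_univ_sum (fun i => if i ∈ I then U else {e}) fun i u => if i ∈ I then ω u else 1
  simp only [prod_ite_mem, univ_inter] at this
  rw [box, ← this, ← prod_const, ← univ_inter I, ← prod_ite_mem, univ_inter]
  refine prod_congr rfl fun i _ => ?_
  split_ifs <;> simp

/-- The lattice point side. -/
noncomputable def Za (m M : ℕ) (I : Finset (Fin n)) (F : Finset (Finset (Fin n))) : ℤ[X] :=
  Z (range (M + 1)) 0 (fun x => (1 - X) * X ^ x) id (fun t c => t ≤ m * c) I F

/-- The subset side. -/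
noncomputable def Zb (m : ℕ) (I : Finset (Fin n)) (F : Finset (Finset (Fin n))) : ℤ[X] :=
  Z (range (m + 1)).powerset ∅ (fun S => X ^ (m + 1 - S.card) * (1 - X) ^ S.card) card
    (fun t c => c ≤ t) I F

theorem Z_sub (U : Finset β) (e : β) (ω : β → ℤ[X]) (σ : β → ℕ) (R : ℕ → ℕ → Prop)
    (I : Finset (Fin n)) (F : Finset (Finset (Fin n))) (q : ℤ[X])
    (h : ∀ x ∈ box U e I, ¬R (∑ i ∈ I, σ (x i)) I.card → q ∣ ∏ i ∈ I, ω (x i)) :
    q ∣ Z U e ω σ R I F - Z U e ω σ R I (insert I F) := by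
  rw [Z, Z, ← sum_sdiff_eq_sub fun x hx => ?_]
  · refine dvd_sum fun x hx => ?_
    simp only [mem_sdiff, mem_filter, ok, forall_mem_insert] at hx
    exact h x hx.1.1 (by tauto)
  · simp only [mem_filter, ok, forall_mem_insert] at hx ⊢
    tauto

theorem sumb (m : ℕ) (I : Finset (Fin n)) (S : Fin n → Finset ℕ)
    (hS : S ∈ box (range (m + 1)).powerset ∅ I) :
    ∑ i ∈ I, (m + 1 - (S i).card) + ∑ i ∈ I, (S i).card = m * I.card + I.card := by
  rw [← sum_add_distrib, sum_congr rfl (g := fun _ => m + 1) fun i hi => ?_]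
  · simp; ring
  have := Fintype.mem_piFinset.1 hS i
  rw [if_pos hi, mem_powerset] at this
  have := card_le_card this
  rw [card_range] at this
  omega

theorem trunc (m M : ℕ) (I : Finset (Fin n)) (F : Finset (Finset (Fin n))) (hM : m * I.card ≤ M)
    (h : X ^ (M + 1) ∣ Za m M I F - Zb m I F) :
    ∃ p : ℤ[X], Za m M I (insert I F) = (1 - X) ^ I.card * p ∧
      Zb m I (insert I F) = (1 - X) ^ I.card * p ∧
      p.eval 1 = ((box (range (M + 1)) 0 I).filter
        (ok id (fun t c => t ≤ m * c) (insert I F))).card ∧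
      p.eval 1 = (((box (range (m + 1)).powerset ∅ I).filter
        (ok card (fun t c => c ≤ t) (insert I F))).filter
          fun S => ∑ i ∈ I, (S i).card = I.card).card := by
  set p : ℤ[X] := ∑ x ∈ (box (range (M + 1)) 0 I).filter
    (ok id (fun t c => t ≤ m * c) (insert I F)), X ^ ∑ i ∈ I, x i with hp
  set q : ℤ[X] := ∑ S ∈ (box (range (m + 1)).powerset ∅ I).filter
    (ok card (fun t c => c ≤ t) (insert I F)),
      X ^ (∑ i ∈ I, (m + 1 - (S i).card)) * (1 - X) ^ (∑ i ∈ I, (S i).card - I.card) with hq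
  have ha : Za m M I (insert I F) = (1 - X) ^ I.card * p := by
    rw [Za, Z, hp, mul_sum]
    exact sum_congr rfl fun x _ => by rw [prod_mul_distrib, prod_const, prod_pow_eq_pow_sum]
  have hb : Zb m I (insert I F) = (1 - X) ^ I.card * q := by
    rw [Zb, Z, hq, mul_sum]
    refine sum_congr rfl fun S hS => ?_
    rw [prod_mul_distrib, prod_pow_eq_pow_sum, prod_pow_eq_pow_sum, mul_left_comm, ← pow_add,
      Nat.add_sub_cancel' ((mem_filter.1 hS).2 I (mem_insert_self _ _))]
  have da : X ^ (m * I.card + 1) ∣ Za m M I F - Za m M I (insert I F) := by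
    refine Z_sub _ _ _ _ _ _ _ _ fun x _ hx => ?_
    rw [prod_mul_distrib, prod_pow_eq_pow_sum]
    exact (pow_dvd_pow _ (not_le.1 hx)).mul_left _
  have db : X ^ (m * I.card + 1) ∣ Zb m I F - Zb m I (insert I F) := by
    refine Z_sub _ _ _ _ _ _ _ _ fun S hS h2 => ?_
    rw [prod_mul_distrib, prod_pow_eq_pow_sum]
    have h1 := sumb m I S hS
    exact (pow_dvd_pow _ (by omega)).mul_right _
  have hpq : p = q := by
    have h1 : X ^ (m * I.card + 1) ∣ (1 - X) ^ I.card * (p - q) := by
      have := (((pow_dvd_pow _ (by omega)).trans h).sub da).add db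
      rw [ha, hb] at this
      convert this using 1
      ring
    have h2 := (IsCoprime.pow (⟨1, 1, by ring⟩ : IsCoprime (X : ℤ[X]) (1 - X))).dvd_of_dvd_mul_left
      h1
    refine sub_eq_zero.1 (eq_zero_of_dvd_of_natDegree_lt h2 ?_)
    rw [natDegree_X_pow, Nat.lt_succ_iff]
    refine (natDegree_sub_le _ _).trans (max_le (natDegree_sum_le_of_forall_le _ _ fun x hx => ?_)
      (natDegree_sum_le_of_forall_le _ _ fun S hS => ?_))
    · rw [natDegree_X_pow]
      exact (mem_filter.1 hx).2 I (mem_insert_self _ _)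
    · have h1 := sumb m I S (mem_filter.1 hS).1
      have h2 : I.card ≤ _ := (mem_filter.1 hS).2 I (mem_insert_self _ _)
      have h3 : (1 - X : ℤ[X]).natDegree ≤ 1 := by compute_degree
      refine natDegree_mul_le.trans ?_
      rw [natDegree_X_pow]
      have := (natDegree_pow_le (p := (1 - X : ℤ[X])) (n := ∑ i ∈ I, (S i).card - I.card)).trans
        (Nat.mul_le_mul_left _ h3)
      omega
  refine ⟨p, ha, hpq ▸ hb, by simp [hp, eval_finsetSum], ?_⟩
  rw [hpq, hq, eval_finsetSum, card_filter]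
  push_cast
  refine sum_congr rfl fun S hS => ?_
  have h2 : I.card ≤ ∑ i ∈ I, (S i).card := (mem_filter.1 hS).2 I (mem_insert_self _ _)
  simp only [eval_mul, eval_pow, eval_X, one_pow, eval_sub, eval_one, sub_self, one_mul, zero_pow_eq]
  exact if_congr (by omega) rfl rfl

theorem main (m M : ℕ) (hM : m * n ≤ M) : ∀ (k : ℕ) (I : Finset (Fin n))
    (F : Finset (Finset (Fin n))), I.card + F.card = k → (∀ D ∈ F, D ⊆ I) →
    (∀ D ∈ F, ∀ E ∈ F, D ⊆ E ∨ E ⊆ D ∨ Disjoint D E) → X ^ (M + 1) ∣ Za m M I F - Zb m I F := by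
  intro k
  induction k using Nat.strong_induction_on with
  | _ k ih =>
  intro I F hk hF hl
  by_cases hI : I ∈ F
  · have h1 := card_erase_add_one hI
    obtain ⟨p, h2, h3, -⟩ := trunc m M I (F.erase I)
      ((Nat.mul_le_mul_left _ (by simpa using card_le_univ I)).trans hM)
      (ih _ (by omega) I _ rfl (fun D hD => hF D (mem_of_mem_erase hD))
        fun D hD E hE => hl D (mem_of_mem_erase hD) E (mem_of_mem_erase hE))
    rw [insert_erase hI] at h2 h3
    rw [h2, h3, sub_self]
    exact dvd_zero _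
  rcases F.eq_empty_or_nonempty with rfl | hne
  · rw [Za, Zb, Z_empty, Z_empty, ← mul_sum, mul_neg_geom_sum]
    have := sum_pow_mul_eq_add_pow (1 - X : ℤ[X]) X (range (m + 1))
    simp only [card_range, mul_comm ((1 - X : ℤ[X]) ^ _), sub_add_cancel, one_pow] at this
    rw [this]
    refine Dvd.dvd.trans ?_ (sub_dvd_pow_sub_pow _ _ _)
    rw [sub_sub_cancel_left, dvd_neg]
  obtain ⟨D, hD, hmax⟩ := exists_maximal hne
  have hDI := hF D hD
  have hs : ∀ E ∈ F.filter fun E => ¬E ⊆ D, E ⊆ I \ D := fun E hE => by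
    obtain ⟨h1, h2⟩ := mem_filter.1 hE
    rcases hl E h1 D hD with h | h | h
    exacts [(h2 h).elim, (h2 (hmax h1 h)).elim, subset_sdiff.2 ⟨hF E h1, h⟩]
  have c1 := card_lt_card (ssubset_of_ne_of_subset (fun h : D = I => hI (h ▸ hD)) hDI)
  have c2 := card_filter_le F fun E => E ⊆ D
  have c3 := card_le_card (sdiff_subset (s := I) (t := D))
  have c4 : (F.filter fun E => ¬E ⊆ D).card < F.card :=
    card_lt_card (filter_ssubset.2 ⟨D, hD, by simp⟩)
  have h1 := ih _ (by omega) D (F.filter fun E => E ⊆ D) rfl (fun E hE => (mem_filter.1 hE).2)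
    fun A hA E hE => hl A (mem_filter.1 hA).1 E (mem_filter.1 hE).1
  have h2 := ih _ (by omega) (I \ D) (F.filter fun E => ¬E ⊆ D) rfl hs
    fun A hA E hE => hl A (mem_filter.1 hA).1 E (mem_filter.1 hE).1
  rw [← union_sdiff_of_subset hDI, ← filter_union_filter_not_eq (fun E => E ⊆ D) F, Za, Zb,
    Z_mul _ _ _ _ _ disjoint_sdiff (fun E hE => (mem_filter.1 hE).2) hs,
    Z_mul _ _ _ _ _ disjoint_sdiff (fun E hE => (mem_filter.1 hE).2) hs]
  have := (h1.mul_right (Za m M (I \ D) (F.filter fun E => ¬E ⊆ D))).add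
    (h2.mul_left (Zb m D (F.filter fun E => E ⊆ D)))
  convert this using 1
  simp only [Za, Zb]
  ring

/-- The counting identity for a laminar family containing the ground set. -/
theorem count (m : ℕ) (F : Finset (Finset (Fin n))) (hu : univ ∈ F)
    (hl : ∀ D ∈ F, ∀ E ∈ F, D ⊆ E ∨ E ⊆ D ∨ Disjoint D E) :
    ((Fintype.piFinset fun _ : Fin n => range (m * n + 1)).filter
      fun x => ∀ D ∈ F, ∑ i ∈ D, x i ≤ m * D.card).card =
    ((Fintype.piFinset fun _ : Fin n => (range (m + 1)).powerset).filter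
      fun S => (∀ D ∈ F, D.card ≤ ∑ i ∈ D, (S i).card) ∧ ∑ i, (S i).card = n).card := by
  obtain ⟨p, -, -, h1, h2⟩ := trunc m (m * n) univ F (by simp)
    (main m _ le_rfl _ univ F rfl (fun D _ => subset_univ D) hl)
  rw [insert_eq_of_mem hu] at h1 h2
  rw [h1, filter_filter] at h2
  simp only [box, mem_univ, if_true, card_univ, Fintype.card_fin, Nat.cast_inj] at h2
  convert h2 using 2 <;> ext <;> simp [ok]

end H13Lam
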