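import Mathlib

set_option autoImplicit false

open MvPolynomial

namespace H13Link

noncomputable def mo (a b : ℕ) : Fin 2 →₀ ℕ := Finsupp.single 0 a + Finsupp.single 1 b

@[simp] lemma mo_0 (a b : ℕ) : mo a b 0 = a := by simp [mo]
@[simp] lemma mo_1 (a b : ℕ) : mo a b 1 = b := by simp [mo]

lemma mo_eta (s : Fin 2 →₀ ℕ) : mo (s 0) (s 1) = s := by
  ext i; fin_cases i <;> simp

lemma mo_inj {a b c d : ℕ} : mo a b = mo c d ↔ a = c ∧ b = d := by
  constructor
  · intro h
    exact ⟨by simpa using congrArg (fun s => s 0) h, by simpa using congrArg (fun s => s 1) h⟩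
  · rintro ⟨rfl, rfl⟩; rfl

lemma mo_sum (a b : ℕ) : ((mo a b).sum fun _ e => e) = a + b := by
  rw [Finsupp.sum_fintype _ _ (fun _ => rfl), Fin.sum_univ_two, mo_0, mo_1]

variable {K : Type} [Field K]

lemma mul_mono (i j a b : ℕ) (c : K) :
    (X 0 ^ i * X 1 ^ j * monomial (mo a b) c : MvPolynomial (Fin 2) K) =
      monomial (mo (i + a) (j + b)) c := by
  rw [X_pow_eq_monomial, X_pow_eq_monomial, monomial_mul, monomial_mul, one_mul, one_mul]
  congr 2
  ext t; fin_cases t <;> simp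

lemma expand_mono (Q a b : ℕ) (c : K) :
    expand Q (monomial (mo a b) c : MvPolynomial (Fin 2) K) = monomial (mo (Q * a) (Q * b)) c := by
  rw [expand_monomial]
  congr 2
  ext t; fin_cases t <;> simp

lemma pow_card_eq [Fintype K] (y : MvPolynomial (Fin 2) K) :
    y ^ Fintype.card K = expand (Fintype.card K) y := by
  have h : FiniteField.frobeniusAlgHom K (MvPolynomial (Fin 2) K) = expand (Fintype.card K) := by
    apply MvPolynomial.algHom_ext
    intro i
    simp
  rw [← h]; simp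

lemma digit_eq {Q i i' a a' : ℕ} (hi : i < Q) (hi' : i' < Q) :
    i' + Q * a' = i + Q * a ↔ i' = i ∧ a' = a := by
  constructor
  · intro h
    have h1 : (i' + Q * a') % Q = (i + Q * a) % Q := by rw [h]
    rw [Nat.add_mul_mod_self_left, Nat.add_mul_mod_self_left, Nat.mod_eq_of_lt hi,
      Nat.mod_eq_of_lt hi'] at h1
    subst h1
    exact ⟨rfl, Nat.eq_of_mul_eq_mul_left (by omega) (Nat.add_left_cancel h)⟩
  · rintro ⟨rfl, rfl⟩; rfl

lemma coeff_comp {Q i j i' j' : ℕ} (hi : i < Q) (hj : j < Q) (hi' : i' < Q) (hj' : j' < Q)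
    (a b : ℕ) (y : MvPolynomial (Fin 2) K) :
    coeff (mo (i + Q * a) (j + Q * b)) (X 0 ^ i' * X 1 ^ j' * expand Q y) =
      if i' = i ∧ j' = j then coeff (mo a b) y else 0 := by
  classical
  induction y using MvPolynomial.induction_on' with
  | monomial s c =>
    rw [← mo_eta s, expand_mono, mul_mono, coeff_monomial, coeff_monomial]
    simp only [mo_inj, digit_eq hi hi', digit_eq hj hj']
    by_cases h1 : i' = i <;> by_cases h2 : j' = j <;> simp [h1, h2]
  | add p q hp hq =>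
    rw [map_add, mul_add, coeff_add, hp, hq, coeff_add]
    split_ifs <;> simp

lemma deg_comp {Q : ℕ} (y : Fin Q × Fin Q → MvPolynomial (Fin 2) K) (ij : Fin Q × Fin Q) :
    Q * (y ij).totalDegree ≤
      (∑ t : Fin Q × Fin Q, X 0 ^ (t.1 : ℕ) * X 1 ^ (t.2 : ℕ) * expand Q (y t)).totalDegree := by
  classical
  have hQ : 0 < Q := ij.1.pos
  generalize hx : (∑ t : Fin Q × Fin Q, X 0 ^ (t.1 : ℕ) * X 1 ^ (t.2 : ℕ) * expand Q (y t) :
    MvPolynomial (Fin 2) K) = x
  have : (y ij).totalDegree ≤ x.totalDegree / Q := by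
    apply Finset.sup_le
    intro s hs
    rw [Nat.le_div_iff_mul_le hQ]
    have h1 : mo (ij.1 + Q * s 0) (ij.2 + Q * s 1) ∈ x.support := by
      rw [mem_support_iff, ← hx, coeff_sum, Finset.sum_eq_single ij]
      · rw [coeff_comp ij.1.2 ij.2.2 ij.1.2 ij.2.2, if_pos ⟨rfl, rfl⟩, mo_eta]
        exact mem_support_iff.mp hs
      · intro t _ ht
        rw [coeff_comp ij.1.2 ij.2.2 t.1.2 t.2.2, if_neg]
        rintro ⟨h1, h2⟩
        exact ht (Prod.ext (Fin.ext h1) (Fin.ext h2))
      · intro h; exact absurd (Finset.mem_univ _) h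
    have h2 := le_totalDegree h1
    rw [mo_sum] at h2
    have h3 : (s.sum fun _ e => e) = s 0 + s 1 := by
      conv_lhs => rw [← mo_eta s]
      exact mo_sum _ _
    rw [h3]
    nlinarith
  calc Q * (y ij).totalDegree ≤ Q * (x.totalDegree / Q) := Nat.mul_le_mul_left _ this
    _ ≤ x.totalDegree := Nat.mul_div_le _ _

lemma contraction {Q : ℕ} (hQ : 2 ≤ Q) (S T x : MvPolynomial (Fin 2) K)
    (y : Fin Q × Fin Q → MvPolynomial (Fin 2) K)
    (h1 : x = ∑ t : Fin Q × Fin Q, X 0 ^ (t.1 : ℕ) * X 1 ^ (t.2 : ℕ) * expand Q (y t))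
    (h2 : x = ∑ t : Fin Q × Fin Q, S ^ (t.1 : ℕ) * T ^ (t.2 : ℕ) * y t) :
    x.totalDegree ≤ 2 * (Q * S.totalDegree + Q * T.totalDegree) := by
  have h3 : x.totalDegree ≤ Q * S.totalDegree + Q * T.totalDegree + x.totalDegree / 2 := by
    conv_lhs => rw [h2]
    apply totalDegree_finsetSum_le
    intro t _
    have a1 := deg_comp y t
    rw [← h1] at a1
    have a2 := totalDegree_mul (S ^ (t.1 : ℕ) * T ^ (t.2 : ℕ)) (y t)
    have a3 := totalDegree_mul (S ^ (t.1 : ℕ)) (T ^ (t.2 : ℕ))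
    have a4 := totalDegree_pow S t.1
    have a5 := totalDegree_pow T t.2
    have a6 : (t.1 : ℕ) * S.totalDegree ≤ Q * S.totalDegree := Nat.mul_le_mul_right _ t.1.2.le
    have a7 : (t.2 : ℕ) * T.totalDegree ≤ Q * T.totalDegree := Nat.mul_le_mul_right _ t.2.2.le
    have a8 : 2 * (y t).totalDegree ≤ Q * (y t).totalDegree := Nat.mul_le_mul_right _ hQ
    omega
  omega

lemma box_ext (N : ℕ) (x x' : MvPolynomial (Fin 2) K) (hx : ∀ i, x.degreeOf i < N)
    (hx' : ∀ i, x'.degreeOf i < N)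
    (h : ∀ ab : Fin N × Fin N, coeff (mo ab.1 ab.2) x = coeff (mo ab.1 ab.2) x') : x = x' := by
  ext s
  by_cases hs : s 0 < N ∧ s 1 < N
  · have := h (⟨s 0, hs.1⟩, ⟨s 1, hs.2⟩)
    simpa [mo_eta] using this
  · have key : ∀ z : MvPolynomial (Fin 2) K, (∀ i, z.degreeOf i < N) → coeff s z = 0 := by
      intro z hz
      by_contra hne
      have hm := mem_support_iff.mpr hne
      exact hs ⟨(monomial_le_degreeOf 0 hm).trans_lt (hz 0),
        (monomial_le_degreeOf 1 hm).trans_lt (hz 1)⟩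
    rw [key x hx, key x' hx']

lemma finite_deg [Finite K] (N : ℕ) : {x : MvPolynomial (Fin 2) K | x.totalDegree ≤ N}.Finite := by
  apply Set.Finite.of_finite_image
    (f := fun x (ab : Fin (N + 1) × Fin (N + 1)) => coeff (mo ab.1 ab.2) x) (Set.toFinite _)
  intro x hx x' hx' h
  apply box_ext (N + 1)
  · intro i; exact Nat.lt_succ_of_le ((degreeOf_le_totalDegree x i).trans hx)
  · intro i; exact Nat.lt_succ_of_le ((degreeOf_le_totalDegree x' i).trans hx')
  · intro ab; exact congrFun h ab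

noncomputable def gx {ι : Type} [Fintype ι] (α β : ι → ℕ) (c : ι → K) : MvPolynomial (Fin 2) K :=
  ∑ m, monomial (mo (α m) (β m)) (c m)

lemma gx_sub {ι : Type} [Fintype ι] (α β : ι → ℕ) (c c' : ι → K) :
    gx α β (fun m => c m - c' m) = gx α β c - gx α β c' := by
  simp only [gx, map_sub, Finset.sum_sub_distrib]

lemma gx_coeff {ι : Type} [Fintype ι] (α β : ι → ℕ)
    (hinj : ∀ m m', α m = α m' → β m = β m' → m = m') (c : ι → K) (m : ι) :
    coeff (mo (α m) (β m)) (gx α β c) = c m := by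
  classical
  rw [gx, coeff_sum, Finset.sum_eq_single m]
  · rw [coeff_monomial, if_pos rfl]
  · intro m' _ hm
    rw [coeff_monomial, if_neg]
    rw [mo_inj]
    rintro ⟨h1, h2⟩
    exact hm (hinj _ _ h1 h2)
  · intro h; exact absurd (Finset.mem_univ _) h

lemma gx_deg {ι : Type} [Fintype ι] (α β : ι → ℕ) (N : ℕ) (hα : ∀ m, α m ≤ N) (hβ : ∀ m, β m ≤ N)
    (c : ι → K) (i : Fin 2) : (gx α β c).degreeOf i ≤ N := by
  refine (degreeOf_sum_le _ _ _).trans (Finset.sup_le ?_)
  intro m _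
  by_cases hc : c m = 0
  · simp [hc]
  · rw [degreeOf_monomial_eq _ _ hc]
    fin_cases i
    · simpa using hα m
    · simpa using hβ m

lemma val_shift {n Q E : ℕ} [NeZero n] (hn : n + 1 = Q * E) (a : ZMod n) :
    ((Q : ZMod n) * a).val = a.val / E + Q * (a.val % E) := by
  have hE : 0 < E := by
    rcases E with _ | E
    · simp at hn
    · omega
  have hQ : 0 < Q := by
    rcases Q with _ | Q
    · simp at hn
    · omega
  have hv := ZMod.val_lt a
  have hdm := Nat.div_add_mod a.val E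
  have hu := Nat.mod_lt a.val hE
  have h1 : (Q : ZMod n) * E = 1 := by
    have : ((Q * E : ℕ) : ZMod n) = ((n + 1 : ℕ) : ZMod n) := by rw [hn]
    simpa using this
  have h2 : (Q : ZMod n) * a = ((a.val / E + Q * (a.val % E) : ℕ) : ZMod n) := by
    have h3 : a = ((E * (a.val / E) + a.val % E : ℕ) : ZMod n) := by
      rw [hdm, ZMod.natCast_zmod_val]
    generalize a.val / E = i at *
    generalize a.val % E = u at *
    rw [h3]
    push_cast
    linear_combination (i : ZMod n) * h1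
  rw [h2, ZMod.val_cast_of_lt]
  generalize a.val / E = i at *
  generalize a.val % E = u at *
  have hi : i < Q := by
    by_contra hh
    have : E * Q ≤ E * i := Nat.mul_le_mul_left _ (by omega)
    nlinarith
  by_cases h4 : u + 1 = E
  · have h5 : i + 1 < Q := by
      by_contra hh
      have : E * Q ≤ E * (i + 1) := Nat.mul_le_mul_left _ (by omega)
      nlinarith
    subst h4
    nlinarith
  · have : Q * (u + 2) ≤ Q * E := Nat.mul_le_mul_left _ (by omega)
    nlinarith

lemma invariant_fixed {n Q E : ℕ} [NeZero n] (hn : n + 1 = Q * E) (c : ZMod n × ZMod n → K)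
    (hc : ∀ m : ZMod n × ZMod n, c ((Q : ZMod n) * m.1, (Q : ZMod n) * m.2) = c m) :
    ∃ y : Fin Q × Fin Q → MvPolynomial (Fin 2) K,
      gx (fun m : ZMod n × ZMod n => m.1.val) (fun m => m.2.val) c =
        ∑ t : Fin Q × Fin Q, X 0 ^ (t.1 : ℕ) * X 1 ^ (t.2 : ℕ) * expand Q (y t) ∧
      gx (fun m : ZMod n × ZMod n => m.1.val) (fun m => m.2.val) c =
        ∑ t : Fin Q × Fin Q, (X 0 ^ E) ^ (t.1 : ℕ) * (X 1 ^ E) ^ (t.2 : ℕ) * y t := by
  classical
  have hE : 0 < E := by
    rcases E with _ | E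
    · simp at hn
    · omega
  have hlt : ∀ a : ZMod n, a.val / E < Q := by
    intro a
    rw [Nat.div_lt_iff_lt_mul hE]
    have := ZMod.val_lt a
    omega
  have h1 : (E : ZMod n) * Q = 1 := by
    have : ((Q * E : ℕ) : ZMod n) = ((n + 1 : ℕ) : ZMod n) := by rw [hn]
    rw [mul_comm]
    simpa using this
  let idx : ZMod n × ZMod n → Fin Q × Fin Q := fun m => (⟨m.1.val / E, hlt _⟩, ⟨m.2.val / E, hlt _⟩)
  refine ⟨fun t => ∑ m ∈ Finset.univ.filter (fun m => idx m = t),
    monomial (mo (m.1.val % E) (m.2.val % E)) (c m), ?_, ?_⟩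
  · have hb : Function.Bijective
        (fun m : ZMod n × ZMod n => ((Q : ZMod n) * m.1, (Q : ZMod n) * m.2)) := by
      rw [← Finite.injective_iff_bijective]
      intro m m' h
      simp only [Prod.mk.injEq] at h
      ext
      · linear_combination (E : ZMod n) * h.1 - (m.1 - m'.1) * h1
      · linear_combination (E : ZMod n) * h.2 - (m.2 - m'.2) * h1
    rw [gx, ← hb.sum_comp, ← Finset.sum_fiberwise Finset.univ idx]
    apply Finset.sum_congr rfl
    intro t _
    rw [map_sum, Finset.mul_sum]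
    apply Finset.sum_congr rfl
    intro m hm
    rw [Finset.mem_filter] at hm
    rw [← hm.2, expand_mono, mul_mono, hc m, val_shift hn, val_shift hn]
  · rw [gx, ← Finset.sum_fiberwise Finset.univ idx]
    apply Finset.sum_congr rfl
    intro t _
    rw [Finset.mul_sum]
    apply Finset.sum_congr rfl
    intro m hm
    rw [Finset.mem_filter] at hm
    rw [← hm.2, ← pow_mul, ← pow_mul, mul_mono]
    simp only [idx, Nat.div_add_mod]

lemma orbit_count {n Q k : ℕ} [NeZero n] (hn : n + 1 = Q ^ (k + 1)) :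
    ∃ (O : Type) (_ : Fintype O) (r : ZMod n × ZMod n → O), Function.Surjective r ∧
      (∀ m : ZMod n × ZMod n, r ((Q : ZMod n) * m.1, (Q : ZMod n) * m.2) = r m) ∧
      n * n ≤ (k + 1) * Fintype.card O := by
  classical
  have h1 : (Q : ZMod n) ^ (k + 1) = 1 := by
    have : ((Q ^ (k + 1) : ℕ) : ZMod n) = ((n + 1 : ℕ) : ZMod n) := by rw [hn]
    simpa using this
  let r0 : ZMod n × ZMod n → Finset (ZMod n × ZMod n) := fun m =>
    Finset.univ.filter (fun m' => ∃ i : ℕ, m' = ((Q : ZMod n) ^ i * m.1, (Q : ZMod n) ^ i * m.2))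
  have hr : ∀ m : ZMod n × ZMod n, r0 ((Q : ZMod n) * m.1, (Q : ZMod n) * m.2) = r0 m := by
    intro m
    ext m'
    simp only [r0, Finset.mem_filter, Finset.mem_univ, true_and]
    constructor
    · rintro ⟨i, rfl⟩
      exact ⟨i + 1, by rw [pow_succ, mul_assoc, mul_assoc]⟩
    · rintro ⟨i, rfl⟩
      refine ⟨i + k, ?_⟩
      ext
      · simp only []
        linear_combination (-(Q : ZMod n) ^ i * m.1) * h1
      · simp only []
        linear_combination (-(Q : ZMod n) ^ i * m.2) * h1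
  have hcard : ∀ m, (r0 m).card ≤ k + 1 := by
    intro m
    have : r0 m ⊆ (Finset.range (k + 1)).image
        (fun i => ((Q : ZMod n) ^ i * m.1, (Q : ZMod n) ^ i * m.2)) := by
      intro m' hm'
      simp only [r0, Finset.mem_filter, Finset.mem_univ, true_and] at hm'
      obtain ⟨i, rfl⟩ := hm'
      rw [Finset.mem_image]
      refine ⟨i % (k + 1), Finset.mem_range.mpr (Nat.mod_lt _ (by omega)), ?_⟩
      rw [← pow_eq_pow_mod i h1]
    exact (Finset.card_le_card this).trans (Finset.card_image_le.trans (by simp))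
  refine ⟨(Finset.univ.image r0 : Finset _), inferInstance,
    fun m => ⟨r0 m, Finset.mem_image_of_mem _ (Finset.mem_univ _)⟩, ?_, ?_, ?_⟩
  · rintro ⟨O, hO⟩
    obtain ⟨m, _, rfl⟩ := Finset.mem_image.mp hO
    exact ⟨m, rfl⟩
  · intro m
    exact Subtype.ext (hr m)
  · have := Finset.card_le_mul_card_image (f := r0) Finset.univ (k + 1) (by
      intro b hb
      obtain ⟨m, _, rfl⟩ := Finset.mem_image.mp hb
      refine (Finset.card_le_card ?_).trans (hcard m)
      intro m' hm'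
      rw [← (Finset.mem_filter.mp hm').2]
      simp only [r0, Finset.mem_filter, Finset.mem_univ, true_and]
      exact ⟨0, by simp⟩)
    rw [Fintype.card_coe]
    rwa [Finset.card_univ, Fintype.card_prod, ZMod.card] at this

theorem exists_multiple [Fintype K] (f : MvPolynomial (Fin 2) K) (hf : f ≠ 0) :
    ∃ (k : ℕ) (h : MvPolynomial (Fin 2) K)
      (y : Fin (Fintype.card K) × Fin (Fintype.card K) → MvPolynomial (Fin 2) K), f * h ≠ 0 ∧
      f * h = ∑ t : Fin (Fintype.card K) × Fin (Fintype.card K),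
        X 0 ^ (t.1 : ℕ) * X 1 ^ (t.2 : ℕ) * expand (Fintype.card K) (y t) ∧
      f * h = ∑ t : Fin (Fintype.card K) × Fin (Fintype.card K),
        (X 0 ^ Fintype.card K ^ k) ^ (t.1 : ℕ) * (X 1 ^ Fintype.card K ^ k) ^ (t.2 : ℕ) * y t := by
  classical
  have hQ : 2 ≤ Fintype.card K := Fintype.one_lt_card
  generalize hQd : Fintype.card K = Q at *
  generalize hd : f.totalDegree = d
  have hbig : 2 * d * (8 * d + 1 + 1) + 1 < Q ^ (8 * d + 1 + 1) := by
    have a1 : 4 * d + 1 < 2 ^ (4 * d + 1) := Nat.lt_two_pow_self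
    have a2 : 2 ^ (8 * d + 1 + 1) ≤ Q ^ (8 * d + 1 + 1) := Nat.pow_le_pow_left hQ _
    have a3 : 2 ^ (8 * d + 1 + 1) = 2 ^ (4 * d + 1) * 2 ^ (4 * d + 1) := by
      rw [← pow_add]; congr 1; omega
    generalize 2 ^ (4 * d + 1) = u at *
    nlinarith
  generalize 8 * d + 1 = k at *
  obtain ⟨e, he⟩ : ∃ e, e + 1 + d + 1 = Q ^ (k + 1) := ⟨Q ^ (k + 1) - d - 2, by
    have : d ≤ 2 * d * (k + 1) := by nlinarith
    omega⟩
  haveI : NeZero (e + 1 + d) := ⟨by omega⟩
  obtain ⟨O, _, r, hsurj, hr, hcount⟩ := orbit_count he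
  let Φ : (O → K) × (Fin (e + 1) × Fin (e + 1) → K) → (Fin (e + 1 + d) × Fin (e + 1 + d) → K) :=
    fun ch ab => coeff (mo ab.1 ab.2)
      (gx (fun m : ZMod (e + 1 + d) × ZMod (e + 1 + d) => m.1.val) (fun m => m.2.val)
        (fun m => ch.1 (r m)) -
        f * gx (fun m : Fin (e + 1) × Fin (e + 1) => (m.1 : ℕ)) (fun m => (m.2 : ℕ)) ch.2)
  obtain ⟨⟨c, h⟩, ⟨c', h'⟩, hne, heq⟩ := Fintype.exists_ne_map_eq_of_card_lt Φ (by
    simp only [Fintype.card_prod, Fintype.card_fun, Fintype.card_fin, hQd]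
    rw [← pow_add]
    apply Nat.pow_lt_pow_right (by omega)
    generalize Fintype.card O = o at *
    have b1 : 2 * d * (k + 1) < e + 1 + d := by omega
    have b2 : 2 * d * (e + 1 + d) < o := by
      by_contra hh
      have b3 : (k + 1) * o ≤ (k + 1) * (2 * d * (e + 1 + d)) := Nat.mul_le_mul_left _ (by omega)
      have b4 : 2 * d * (k + 1) * (e + 1 + d) < (e + 1 + d) * (e + 1 + d) :=
        Nat.mul_lt_mul_of_pos_right b1 (by omega)
      nlinarith
    nlinarith)
  have hdeg : ∀ (c : O → K) (h : Fin (e + 1) × Fin (e + 1) → K) (i : Fin 2),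
      (gx (fun m : ZMod (e + 1 + d) × ZMod (e + 1 + d) => m.1.val) (fun m => m.2.val)
        (fun m => c (r m)) -
        f * gx (fun m : Fin (e + 1) × Fin (e + 1) => (m.1 : ℕ)) (fun m => (m.2 : ℕ)) h).degreeOf i
        < e + 1 + d := by
    intro c h i
    have b1 := gx_deg (fun m : ZMod (e + 1 + d) × ZMod (e + 1 + d) => m.1.val) (fun m => m.2.val)
      (e + d) (fun m => by have := ZMod.val_lt m.1; omega)
      (fun m => by have := ZMod.val_lt m.2; omega) (fun m => c (r m)) i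
    have b2 := gx_deg (fun m : Fin (e + 1) × Fin (e + 1) => (m.1 : ℕ)) (fun m => (m.2 : ℕ)) e
      (fun m => Nat.lt_succ_iff.mp m.1.2) (fun m => Nat.lt_succ_iff.mp m.2.2) h i
    have b3 := degreeOf_mul_le i f
      (gx (fun m : Fin (e + 1) × Fin (e + 1) => (m.1 : ℕ)) (fun m => (m.2 : ℕ)) h)
    have b4 := degreeOf_le_totalDegree f i
    refine (degreeOf_sub_le _ _ _).trans_lt ?_
    omega
  have hE := box_ext _ _ _ (hdeg c h) (hdeg c' h') (fun ab => congrFun heq ab)
  have hmain : f * gx (fun m : Fin (e + 1) × Fin (e + 1) => (m.1 : ℕ)) (fun m => (m.2 : ℕ))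
      (fun m => h m - h' m) =
      gx (fun m : ZMod (e + 1 + d) × ZMod (e + 1 + d) => m.1.val) (fun m => m.2.val)
        (fun m => c (r m) - c' (r m)) := by
    rw [gx_sub, gx_sub]
    linear_combination -hE
  obtain ⟨y, hy1, hy2⟩ := invariant_fixed (K := K) (Q := Q) (E := Q ^ k) (by rw [he, pow_succ'])
    (fun m => c (r m) - c' (r m)) (fun m => by simp only [hr m])
  refine ⟨k, _, y, ?_, hmain.trans hy1, hmain.trans hy2⟩
  intro h0
  apply hne
  have z1 : ∀ m, h m - h' m = 0 := by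
    intro m
    have := gx_coeff (fun m : Fin (e + 1) × Fin (e + 1) => (m.1 : ℕ)) (fun m => (m.2 : ℕ))
      (fun m m' a b => Prod.ext (Fin.ext a) (Fin.ext b)) (fun m => h m - h' m) m
    rw [(mul_eq_zero.mp h0).resolve_left hf, coeff_zero] at this
    exact this.symm
  have z2 : ∀ m, c (r m) - c' (r m) = 0 := by
    intro m
    have := gx_coeff (fun m : ZMod (e + 1 + d) × ZMod (e + 1 + d) => m.1.val) (fun m => m.2.val)
      (fun m m' a b => Prod.ext (ZMod.val_injective _ a) (ZMod.val_injective _ b))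
      (fun m => c (r m) - c' (r m)) m
    rw [← hmain, h0, coeff_zero] at this
    exact this.symm
  ext o
  · obtain ⟨m, rfl⟩ := hsurj o
    exact sub_eq_zero.mp (z2 m)
  · exact sub_eq_zero.mp (z1 o)

end H13Link
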