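import Mathlib
import Pool.Agent.Lib.helper13.DegD
import Pool.Agent.Lib.helper13.LinkA

set_option autoImplicit false

open MvPolynomial H13DegD

namespace H13Link

def Sys {A : Type*} [CommRing A] (Q : ℕ) (W Z f g S h w a b c e : A) (y : Fin Q × Fin Q → A) :
    Prop :=
  Fr W S ∧ Fr (W * (1 + Z)) ((1 + Z * g) * S) ∧
  (1 + Z * f) * h = ∑ t : Fin Q × Fin Q, W ^ (t.1 : ℕ) * Z ^ (t.2 : ℕ) * y t ^ Q ∧
  (1 + Z * f) * h = ∑ t : Fin Q × Fin Q, S ^ (t.1 : ℕ) * (Z * g) ^ (t.2 : ℕ) * y t ∧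
  h * w = ((1 + W * a) * (1 + (W - 1) * b) + Z * c) * (1 + (Z - 1) * e)

variable {K : Type} [Field K]

lemma nonzero_sound (h w a b c e : MvPolynomial (Fin 2) K)
    (H : h * w = ((1 + X 0 * a) * (1 + (X 0 - 1) * b) + X 1 * c) * (1 + (X 1 - 1) * e)) :
    h ≠ 0 := by
  rintro rfl
  rw [zero_mul] at H
  rcases mul_eq_zero.mp H.symm with h1 | h1
  · have h2 := congrArg (aeval (R := K) ![(Polynomial.X : Polynomial K), 0]) h1
    simp only [map_add, map_mul, map_sub, map_one, aeval_X, map_zero, Matrix.cons_val_zero,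
      Matrix.cons_val_one, zero_mul, add_zero] at h2
    rcases mul_eq_zero.mp h2 with h3 | h3
    · simpa using congrArg (Polynomial.eval 0) h3
    · simpa using congrArg (Polynomial.eval 1) h3
  · simpa using congrArg (eval (fun _ => (1 : K))) h1

lemma nonzero_complete (h : MvPolynomial (Fin 2) K) (hh : h ≠ 0) :
    ∃ w a b c e : MvPolynomial (Fin 2) K,
      h * w = ((1 + X 0 * a) * (1 + (X 0 - 1) * b) + X 1 * c) * (1 + (X 1 - 1) * e) := by
  have hnu : ¬ IsUnit (X 1 : MvPolynomial (Fin 2) K) := by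
    intro hu
    simpa using hu.map (eval (fun _ => (0 : K)))
  obtain ⟨m, u, hu, rfl⟩ := WfDvdMonoid.max_power_factor' hh hnu
  have key : ∀ u : MvPolynomial (Fin 2) K, X 1 ∣ u - Polynomial.aeval (X 0 : MvPolynomial (Fin 2) K)
      (aeval (R := K) ![(Polynomial.X : Polynomial K), 0] u) := by
    intro u
    induction u using MvPolynomial.induction_on with
    | C a => simp
    | add p q hp hq =>
      rw [map_add, map_add, add_sub_add_comm]
      exact dvd_add hp hq
    | mul_X p i hp =>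
      fin_cases i
      · simp only [map_mul, aeval_X, Fin.zero_eta, Matrix.cons_val_zero, Polynomial.aeval_X]
        rw [← sub_mul]
        exact hp.mul_right _
      · simp
  obtain ⟨c, hc⟩ := key u
  generalize aeval (R := K) ![(Polynomial.X : Polynomial K), 0] u = v at hc
  have hv : v ≠ 0 := by
    rintro rfl
    rw [map_zero, sub_zero] at hc
    exact hu ⟨c, hc⟩
  obtain ⟨m', v', hv', rfl⟩ := WfDvdMonoid.max_power_factor' hv Polynomial.not_isUnit_X
  rw [Polynomial.X_dvd_iff] at hv'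
  obtain ⟨a, ha⟩ : Polynomial.X ∣ v' * Polynomial.C (v'.coeff 0)⁻¹ - 1 := by
    rw [Polynomial.X_dvd_iff, Polynomial.coeff_sub, Polynomial.coeff_mul_C, mul_inv_cancel₀ hv']
    simp
  have ha' := congrArg (Polynomial.aeval (X 0 : MvPolynomial (Fin 2) K)) ha
  simp only [map_sub, map_mul, map_one, Polynomial.aeval_X] at ha'
  rw [map_mul, map_pow, Polynomial.aeval_X] at hc
  obtain ⟨b, hb⟩ := sub_one_dvd_pow_sub_one (X 0 : MvPolynomial (Fin 2) K) m'
  obtain ⟨e, he⟩ := sub_one_dvd_pow_sub_one (X 1 : MvPolynomial (Fin 2) K) m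
  generalize Polynomial.aeval (X 0 : MvPolynomial (Fin 2) K) (Polynomial.C (v'.coeff 0)⁻¹) = w at *
  generalize Polynomial.aeval (X 0 : MvPolynomial (Fin 2) K) v' = V at *
  generalize Polynomial.aeval (X 0 : MvPolynomial (Fin 2) K) a = A at *
  refine ⟨w, A, b, c * w, e, ?_⟩
  have e1 : 1 + X 0 * A = V * w := by linear_combination -ha'
  have e2 : 1 + (X 0 - 1) * b = X 0 ^ m' := by linear_combination -hb
  have e3 : 1 + (X 1 - 1) * e = X 1 ^ m := by linear_combination -he
  rw [e1, e2, e3]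
  linear_combination (X 1 ^ m * w) * hc

lemma sync_sound (p : ℕ) [hp : Fact p.Prime] [CharP K p] (g : Polynomial K)
    (S : MvPolynomial (Fin 2) K) (h1 : Fr (X 0) S)
    (h2 : Fr (X 0 * (1 + X 1)) ((1 + X 1 * Polynomial.aeval (X 1 : MvPolynomial (Fin 2) K) g) * S)) :
    S.totalDegree ≤ (1 + Polynomial.X * g).natDegree := by
  have two : (2 : MvPolynomial (Fin 2) K) = C 2 := by
    rw [show (2 : K) = 1 + 1 by norm_num, C_add, C_1]; norm_num
  have two' : (2 : Polynomial K) = Polynomial.C 2 := by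
    rw [show (2 : K) = 1 + 1 by norm_num, Polynomial.C_add, Polynomial.C_1]; norm_num
  have gen : ∀ a b : MvPolynomial (Fin 2) K, 1 ≤ (finSuccEquiv K 1 a).natDegree → Fr a b →
      (∃ k : ℕ, b = a ^ p ^ k) ∨ b = 2 ∨ b = -2 := by
    intro a b ha h
    rcases fr_cases p _ _ ha (h.map (finSuccEquiv K 1)) with ⟨k, hk⟩ | hk | hk
    · exact Or.inl ⟨k, (finSuccEquiv K 1).injective (by rw [hk, map_pow])⟩
    · exact Or.inr (Or.inl ((finSuccEquiv K 1).injective (by rw [hk, map_ofNat])))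
    · exact Or.inr (Or.inr ((finSuccEquiv K 1).injective (by rw [hk, map_neg, map_ofNat])))
  rcases gen _ _ (by rw [finSuccEquiv_X_zero]; simp) h1 with ⟨i, rfl⟩ | rfl | rfl
  · have hd : 1 ≤ (finSuccEquiv K 1 (X 0 * (1 + X 1))).natDegree := by
      have e1 : finSuccEquiv K 1 (X 1) = Polynomial.C (X 0) := finSuccEquiv_X_succ (j := 0)
      rw [map_mul, map_add, map_one, finSuccEquiv_X_zero, e1, Polynomial.natDegree_X_mul]
      · omega
      · intro h0
        have := congrArg (fun P => eval (fun _ => (0 : K)) (Polynomial.coeff P 0)) h0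
        simp at this
    have hpi : 0 < p ^ i := pow_pos hp.out.pos i
    rcases gen _ _ hd h2 with ⟨j, hj⟩ | hj | hj
    · have a1 := congrArg (aeval (R := K) ![(Polynomial.X : Polynomial K), 0]) hj
      have a2 := congrArg (aeval (R := K) ![1, (Polynomial.X : Polynomial K)]) hj
      simp only [map_add, map_mul, map_pow, map_one, aeval_X, Matrix.cons_val_zero,
        Matrix.cons_val_one, zero_mul, add_zero, one_mul, mul_one, one_pow] at a1 a2
      rw [← Polynomial.aeval_algHom_apply, aeval_X] at a2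
      simp only [Matrix.cons_val_zero, Matrix.cons_val_one, Polynomial.aeval_X_left_apply] at a2
      have a3 := congrArg Polynomial.natDegree a1
      rw [Polynomial.natDegree_X_pow, Polynomial.natDegree_X_pow] at a3
      rw [a2, totalDegree_X_pow, Polynomial.natDegree_pow, add_comm, ← Polynomial.C_1,
        Polynomial.natDegree_X_add_C, a3, mul_one]
    · have a1 := congrArg (aeval (R := K) ![(Polynomial.X : Polynomial K), 0]) hj
      simp only [map_add, map_mul, map_pow, map_one, aeval_X, Matrix.cons_val_zero,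
        Matrix.cons_val_one, zero_mul, add_zero, one_mul, map_ofNat] at a1
      have a3 := congrArg Polynomial.natDegree a1
      rw [Polynomial.natDegree_X_pow, two', Polynomial.natDegree_C] at a3
      omega
    · have a1 := congrArg (aeval (R := K) ![(Polynomial.X : Polynomial K), 0]) hj
      simp only [map_add, map_mul, map_pow, map_one, aeval_X, Matrix.cons_val_zero,
        Matrix.cons_val_one, zero_mul, add_zero, one_mul, map_ofNat, map_neg] at a1
      have a3 := congrArg Polynomial.natDegree a1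
      rw [Polynomial.natDegree_X_pow, Polynomial.natDegree_neg, two',
        Polynomial.natDegree_C] at a3
      omega
  · rw [two, totalDegree_C]; exact Nat.zero_le _
  · rw [totalDegree_neg, two, totalDegree_C]; exact Nat.zero_le _

lemma one_add_ne (f : MvPolynomial (Fin 2) K) : 1 + X 1 * f ≠ 0 := by
  intro h
  simpa using congrArg (eval (fun _ => (0 : K))) h

theorem sys_finite [Fintype K] (g : Polynomial K) :
    {f : MvPolynomial (Fin 2) K | ∃ S h w a b c e y, Sys (Fintype.card K) (X 0) (X 1) f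
      (Polynomial.aeval (X 1 : MvPolynomial (Fin 2) K) g) S h w a b c e y}.Finite := by
  obtain ⟨p, hchar⟩ := CharP.exists K
  haveI : Fact p.Prime := ⟨CharP.char_is_prime K p⟩
  have hinj : Function.Injective (fun f : MvPolynomial (Fin 2) K => 1 + X 1 * f) := by
    intro f f' h
    exact mul_left_cancel₀ (X_ne_zero 1) (add_left_cancel h)
  refine ((finite_deg (K := K) (2 * (Fintype.card K * (1 + Polynomial.X * g).natDegree +
    Fintype.card K * (X 1 * Polynomial.aeval (X 1 : MvPolynomial (Fin 2) K) g).totalDegree))).preimage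
    hinj.injOn).subset ?_
  rintro f ⟨S, h, w, a, b, c, e, y, h1, h2, h3, h4, h5⟩
  have hS := sync_sound p g S h1 h2
  have hh := nonzero_sound _ _ _ _ _ _ h5
  simp only [pow_card_eq] at h3
  have hb := contraction Fintype.one_lt_card _ _ _ y h3 h4
  have hd := totalDegree_le_of_dvd_of_isDomain (dvd_mul_right (1 + X 1 * f) h)
    (mul_ne_zero (one_add_ne f) hh)
  have := Nat.mul_le_mul_left (Fintype.card K) hS
  simp only [Set.mem_preimage, Set.mem_setOf_eq]
  omega

theorem sys_total [Fintype K] (f : MvPolynomial (Fin 2) K) :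
    ∃ g : Polynomial K, ∃ S h w a b c e y, Sys (Fintype.card K) (X 0) (X 1) f
      (Polynomial.aeval (X 1 : MvPolynomial (Fin 2) K) g) S h w a b c e y := by
  obtain ⟨p, hchar⟩ := CharP.exists K
  obtain ⟨r, hp, hr⟩ := FiniteField.card K p
  haveI : Fact p.Prime := ⟨hp⟩
  obtain ⟨k, h, y, h0, h1, h2⟩ := exists_multiple (1 + X 1 * f) (one_add_ne f)
  obtain ⟨w, a, b, c, e, h3⟩ := nonzero_complete h (right_ne_zero_of_mul h0)
  obtain ⟨m, hm⟩ : ∃ m, Fintype.card K ^ k = m + 1 :=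
    ⟨Fintype.card K ^ k - 1, by have := pow_pos (Fintype.card_pos (α := K)) k; omega⟩
  have hpk : Fintype.card K ^ k = p ^ (r * k) := by rw [hr, ← pow_mul]
  have hZ : X 1 * Polynomial.aeval (X 1 : MvPolynomial (Fin 2) K)
      (Polynomial.X ^ m : Polynomial K) = X 1 ^ Fintype.card K ^ k := by
    rw [map_pow, Polynomial.aeval_X, hm, pow_succ']
  refine ⟨Polynomial.X ^ m, X 0 ^ Fintype.card K ^ k, h, w, a, b, c, e, y, ?_, ?_, ?_, ?_, h3⟩
  · rw [hpk]; exact fr_pow p _ _
  · rw [hZ, hpk]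
    have := fr_pow p (X 0 * (1 + X 1) : MvPolynomial (Fin 2) K) (r * k)
    rwa [mul_pow, add_pow_char_pow, one_pow, mul_comm (X 0 ^ _)] at this
  · simp only [pow_card_eq]; exact h1
  · rw [hZ]; exact h2

def fr {A : Type*} [CommRing A] (a b x y x' y' : A) : List A :=
  [x ^ 2 - a * x * y + y ^ 2 - 1, x' ^ 2 - (a + 1) * x' * y' + y' ^ 2 - 1,
    b - (2 * x - a * y), b + 1 - (2 * x' - (a + 1) * y')]

def eqs {A : Type*} [CommRing A] (Q : ℕ) (W Z f g : A) (v : Fin 15 → A)
    (y : Fin Q × Fin Q → A) : List A :=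
  fr W (v 0) (v 7) (v 8) (v 9) (v 10) ++
  fr (W * (1 + Z)) ((1 + Z * g) * v 0) (v 11) (v 12) (v 13) (v 14) ++
  [(1 + Z * f) * v 1 - ∑ t : Fin Q × Fin Q, W ^ (t.1 : ℕ) * Z ^ (t.2 : ℕ) * y t ^ Q,
    (1 + Z * f) * v 1 - ∑ t : Fin Q × Fin Q, v 0 ^ (t.1 : ℕ) * (Z * g) ^ (t.2 : ℕ) * y t,
    v 1 * v 2 - ((1 + W * v 3) * (1 + (W - 1) * v 4) + Z * v 5) * (1 + (Z - 1) * v 6)]

lemma fr_map {A B F : Type*} [CommRing A] [CommRing B] [FunLike F A B] [RingHomClass F A B]
    (φ : F) (a b x y x' y' : A) :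
    (fr a b x y x' y').map φ = fr (φ a) (φ b) (φ x) (φ y) (φ x') (φ y') := by
  simp [fr, map_ofNat]

lemma eqs_map {A B F : Type*} [CommRing A] [CommRing B] [FunLike F A B] [RingHomClass F A B]
    (φ : F) (Q : ℕ) (W Z f g : A) (v : Fin 15 → A) (y : Fin Q × Fin Q → A) :
    (eqs Q W Z f g v y).map φ =
      eqs Q (φ W) (φ Z) (φ f) (φ g) (fun i => φ (v i)) (fun i => φ (y i)) := by
  simp only [eqs, List.map_append, fr_map, List.map_cons, List.map_nil, map_add, map_mul,
    map_sub, map_one, map_sum, map_pow]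

lemma fr_iff {A : Type*} [CommRing A] (a b x y x' y' : A) :
    (∀ c ∈ fr a b x y x' y', c = 0) ↔ (x ^ 2 - a * x * y + y ^ 2 = 1 ∧
      x' ^ 2 - (a + 1) * x' * y' + y' ^ 2 = 1 ∧
      b = 2 * x - a * y ∧ b + 1 = 2 * x' - (a + 1) * y') := by
  simp only [fr, List.forall_mem_cons, sub_eq_zero, List.not_mem_nil, false_imp_iff,
    implies_true, and_true]

theorem sys_iff {A : Type*} [CommRing A] (Q : ℕ) (W Z f g : A) :
    (∃ u : (Fin Q × Fin Q) ⊕ Fin 15 → A,
      ∀ c ∈ eqs Q W Z f g (fun i => u (Sum.inr i)) (fun i => u (Sum.inl i)), c = 0) ↔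
      ∃ S h w a b c e y, Sys Q W Z f g S h w a b c e y := by
  constructor
  · rintro ⟨u, h1⟩
    simp only [eqs, List.forall_mem_append, fr_iff, List.forall_mem_cons, sub_eq_zero,
      List.not_mem_nil, false_imp_iff, implies_true, and_true] at h1
    obtain ⟨⟨a1, a2⟩, a3, a4, a5⟩ := h1
    exact ⟨_, _, _, _, _, _, _, _, ⟨_, _, _, _, a1⟩, ⟨_, _, _, _, a2⟩, a3, a4, a5⟩
  · rintro ⟨S, h, w, a, b, c, e, y, ⟨x1, x2, x3, x4, a1⟩, ⟨x5, x6, x7, x8, a2⟩, a3, a4, a5⟩
    refine ⟨Sum.elim y ![S, h, w, a, b, c, e, x1, x2, x3, x4, x5, x6, x7, x8], ?_⟩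
    simp only [eqs, List.forall_mem_append, fr_iff, List.forall_mem_cons, sub_eq_zero,
      List.not_mem_nil, false_imp_iff, implies_true, and_true]
    exact ⟨⟨a1, a2⟩, a3, a4, a5⟩

lemma aniso (a b : MvPolynomial (Fin 2) K) (h : a ^ 2 - X 1 * b ^ 2 = 0) : a = 0 ∧ b = 0 := by
  have h1 : a * a = X 1 * (b * b) := by linear_combination h
  by_cases hb : b = 0
  · subst hb
    simpa using h1
  · exfalso
    have h2 : X 1 * (b * b) ≠ 0 := mul_ne_zero (X_ne_zero 1) (mul_ne_zero hb hb)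
    have ha : a ≠ 0 := by
      rintro rfl
      exact h2 (by rw [← h1, mul_zero])
    have := congrArg totalDegree h1
    rw [totalDegree_mul_of_isDomain ha ha, totalDegree_mul_of_isDomain (X_ne_zero 1)
      (mul_ne_zero hb hb), totalDegree_mul_of_isDomain hb hb, totalDegree_X] at this
    omega

lemma single_eq {σ : Type} (L : List (MvPolynomial σ (MvPolynomial (Fin 2) K))) :
    ∃ P : MvPolynomial σ (MvPolynomial (Fin 2) K), ∀ v, eval v P = 0 ↔ ∀ E ∈ L, eval v E = 0 := by
  induction L with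
  | nil => exact ⟨0, by simp⟩
  | cons E L ih =>
    obtain ⟨P, hP⟩ := ih
    refine ⟨E ^ 2 - C (X 1) * P ^ 2, fun v => ?_⟩
    rw [List.forall_mem_cons, ← hP, map_sub, map_mul, map_pow, map_pow, eval_C]
    constructor
    · exact aniso _ _
    · rintro ⟨h1, h2⟩; rw [h1, h2]; simp

lemma reindex {R α ι : Type} [CommRing R] [Fintype ι] (P : MvPolynomial (α ⊕ ι) R) :
    ∃ (k : ℕ) (P' : MvPolynomial (α ⊕ Fin k) R), ∀ u : α → R,
      (∃ y : Fin k → R, eval (Sum.elim u y) P' = 0) ↔ ∃ y : ι → R, eval (Sum.elim u y) P = 0 := by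
  refine ⟨Fintype.card ι, rename (Sum.map id (Fintype.equivFin ι)) P, fun u => ?_⟩
  simp only [eval_rename]
  constructor
  · rintro ⟨y, hy⟩
    refine ⟨y ∘ Fintype.equivFin ι, ?_⟩
    rw [← hy]; congr 2
    ext1 (a | a) <;> rfl
  · rintro ⟨y, hy⟩
    refine ⟨y ∘ (Fintype.equivFin ι).symm, ?_⟩
    rw [← hy]; congr 2
    ext1 (a | a) <;> simp

theorem dioph (Q : ℕ) : ∃ (k : ℕ) (P : MvPolynomial (Option (Fin 1) ⊕ Fin k) (MvPolynomial (Fin 2) K)),
    ∀ u : Option (Fin 1) → MvPolynomial (Fin 2) K,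
      (∃ y : Fin k → MvPolynomial (Fin 2) K, eval (Sum.elim u y) P = 0) ↔
        ∃ S h w a b c e y, Sys Q (X 0) (X 1) (u none) (u (some 0)) S h w a b c e y := by
  obtain ⟨P, hP⟩ := single_eq (K := K) (σ := Option (Fin 1) ⊕ ((Fin Q × Fin Q) ⊕ Fin 15))
    (eqs Q (C (X 0)) (C (X 1)) (X (Sum.inl none)) (X (Sum.inl (some 0)))
      (fun i => X (Sum.inr (Sum.inr i))) (fun i => X (Sum.inr (Sum.inl i))))
  obtain ⟨k, P', hP'⟩ := reindex P
  refine ⟨k, P', fun u => ?_⟩
  rw [hP', ← sys_iff]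
  apply exists_congr
  intro y
  rw [hP, ← List.forall_mem_map (P := fun c => c = 0), eqs_map]
  simp only [eval_C, eval_X, Sum.elim_inl, Sum.elim_inr]

end H13Link
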