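import Mathlib
import Pool.Agent.Lib.helper13.CzRolle
import Pool.Agent.Lib.helper13.Inter

set_option autoImplicit false

namespace H13Mult

open Polynomial Finset Filter Topology Pool.Agent.Lib.H13Zc

/-- All complex zeros are real (so the polynomial is nonzero). -/
def RR (p : ℝ[X]) : Prop := ∀ z : ℂ, aeval z p = 0 → z.im = 0

theorem RR.ne_zero {p : ℝ[X]} (h : RR p) : p ≠ 0 := by
  rintro rfl
  simpa using h Complex.I (by simp)

theorem circle (z : ℂ) (hz : z.im ≠ 0) (m : Multiset ℝ) :
    0 ≤ z.im * (z.im * (m.map fun r : ℝ => z / (z - r)).sum.re -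
      z.re * (m.map fun r : ℝ => z / (z - r)).sum.im) ∧
    z.im * (z.im * (m.map fun r : ℝ => z / (z - r)).sum.re +
      z.re * (m.map fun r : ℝ => z / (z - r)).sum.im) ≤ z.im ^ 2 * m.card := by
  induction m using Multiset.induction_on with
  | empty => simp
  | cons r m ih =>
    have hne : z - r ≠ 0 := fun h => hz (by rw [sub_eq_zero.1 h]; simp)
    rw [Multiset.map_cons, Multiset.sum_cons, Complex.add_re, Complex.add_im, Multiset.card_cons]
    set w := z / (z - r) with hw
    have e : w * (z - r) = z := div_mul_cancel₀ _ hne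
    have e1 := congrArg Complex.re e
    have e2 := congrArg Complex.im e
    simp only [Complex.mul_re, Complex.mul_im, Complex.sub_re, Complex.sub_im, Complex.ofReal_re,
      Complex.ofReal_im, sub_zero] at e1 e2
    have e3 : z.im * (w.re ^ 2 + w.im ^ 2) = z.im * w.re - z.re * w.im := by
      linear_combination w.re * e2 - w.im * e1
    have a1 : 0 ≤ z.im ^ 2 * (w.re ^ 2 + w.im ^ 2) := by positivity
    have a2 : 0 ≤ z.im ^ 2 * ((1 - w.re) ^ 2 + w.im ^ 2) := by positivity
    push_cast
    constructor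
    · linear_combination ih.1 + a1 + z.im * e3
    · linear_combination ih.2 + a2 + z.im * e3

theorem step {p : ℝ[X]} (hp : RR p) {c : ℝ} (hc : c < 0 ∨ (p.natDegree : ℝ) < c) :
    RR (act (fun j => (j : ℝ) - c) p) := by
  intro z hz
  by_contra him
  have hne : aeval z p ≠ 0 := fun h => him (hp z h)
  have hs := H13Cone.splits_of_real p hp
  have hne' : (p.map (algebraMap ℝ ℂ)).eval z ≠ 0 := by rwa [eval_map_algebraMap]
  have h := (IsAlgClosed.splits (p.map (algebraMap ℝ ℂ))).eval_derivative_div_eval_of_ne_zero hne'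
  rw [derivative_map, eval_map_algebraMap, eval_map_algebraMap, hs.roots_map,
    Multiset.map_map] at h
  rw [act_sub, map_sub, map_mul, map_mul, aeval_X, aeval_C, sub_eq_zero] at hz
  have e : (p.roots.map fun r : ℝ => z / (z - r)).sum = c := by
    have : (p.roots.map fun r : ℝ => z / (z - r)).sum = z * (aeval z (derivative p) / aeval z p) := by
      rw [h, ← Multiset.sum_map_mul_left]
      congr 1
      exact Multiset.map_congr rfl fun r _ => by simp [div_eq_mul_inv]
    rw [this, ← mul_div_assoc, hz, mul_div_cancel_right₀ _ hne]; rfl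
  have := circle z him p.roots
  rw [e, ← hs.natDegree_eq_card_roots] at this
  simp only [Complex.ofReal_re, Complex.ofReal_im, mul_zero, sub_zero, add_zero] at this
  have h2 : 0 < z.im ^ 2 := by positivity
  rcases hc with hc | hc <;> nlinarith [this.1, this.2]

theorem harnack (z w : ℂ) (hz : z.im ≠ 0) : ∀ (d : ℕ) (p : ℝ[X]), p.natDegree = d → RR p →
    ‖aeval w p‖ ≤ (1 + ‖w - z‖ / |z.im|) ^ d * ‖aeval z p‖ := by
  intro d
  induction d with
  | zero =>
    intro p hp _
    rw [eq_C_of_natDegree_eq_zero hp]; simp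
  | succ d ih =>
    intro p hp h
    have hd : p.degree ≠ 0 := by
      rw [degree_eq_natDegree h.ne_zero, hp]; exact_mod_cast d.succ_ne_zero
    obtain ⟨u, hu⟩ := IsAlgClosed.exists_aeval_eq_zero ℂ p hd
    have hur : u = algebraMap ℝ ℂ u.re := Complex.ext (by simp) (by simp [h u hu])
    rw [hur, aeval_algebraMap_apply_eq_algebraMap_eval, map_eq_zero] at hu
    obtain ⟨q, hq⟩ := dvd_iff_isRoot.2 hu
    have hq0 : q ≠ 0 := by rintro rfl; simp [hq] at hp
    have h1 := ih q (by
      rw [hq, natDegree_mul (X_sub_C_ne_zero _) hq0, natDegree_X_sub_C] at hp; omega)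
      (fun w hw => h w (by rw [hq, map_mul, hw, mul_zero]))
    have h2 : ‖w - u.re‖ ≤ (1 + ‖w - z‖ / |z.im|) * ‖z - u.re‖ := by
      have a1 : |z.im| ≤ ‖z - u.re‖ := by simpa using Complex.abs_im_le_norm (z - u.re)
      have a2 : ‖w - u.re‖ ≤ ‖w - z‖ + ‖z - u.re‖ := norm_sub_le_norm_sub_add_norm_sub _ _ _
      have a3 : 0 < |z.im| := abs_pos.2 hz
      have a4 : ‖w - z‖ ≤ ‖w - z‖ / |z.im| * ‖z - u.re‖ := by
        rw [div_mul_eq_mul_div, le_div_iff₀ a3]
        exact mul_le_mul_of_nonneg_left a1 (norm_nonneg _)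
      linarith
    rw [hq]
    simp only [map_mul, map_sub, aeval_X, aeval_C, norm_mul, Complex.coe_algebraMap]
    calc _ ≤ ((1 + ‖w - z‖ / |z.im|) * ‖z - u.re‖) * ((1 + ‖w - z‖ / |z.im|) ^ d * ‖aeval z q‖) :=
          mul_le_mul h2 h1 (norm_nonneg _) (by positivity)
      _ = _ := by ring

theorem limit {F : ℕ → ℝ[X]} {p : ℝ[X]} {D : ℕ} (h1 : ∀ᶠ n in atTop, RR (F n))
    (h2 : ∀ n, (F n).natDegree ≤ D)
    (h3 : ∀ z : ℂ, Tendsto (fun n => aeval z (F n)) atTop (𝓝 (aeval z p))) (hp : p ≠ 0) :
    RR p := by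
  intro z hz
  by_contra him
  refine hp (Polynomial.funext fun x => ?_)
  have a : ‖aeval (x : ℂ) p‖ ≤ (1 + ‖x - z‖ / |z.im|) ^ D * ‖aeval z p‖ := by
    refine le_of_tendsto_of_tendsto (h3 x).norm ((h3 z).norm.const_mul _) (h1.mono fun n hn => ?_)
    refine (harnack z x him _ _ rfl hn).trans (mul_le_mul_of_nonneg_right ?_ (norm_nonneg _))
    exact pow_le_pow_right₀ (le_add_of_nonneg_right (by positivity)) (h2 n)
  rw [hz, norm_zero, mul_zero, norm_le_zero_iff, ← Complex.coe_algebraMap,
    aeval_algebraMap_apply_eq_algebraMap_eval, map_eq_zero] at a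
  simpa using a

theorem natDegree_act_le (γ : ℕ → ℝ) (p : ℝ[X]) : (act γ p).natDegree ≤ p.natDegree := by
  rw [natDegree_le_iff_coeff_eq_zero]
  intro N hN
  rw [coeff_act, coeff_eq_zero_of_natDegree_lt hN, mul_zero]

theorem RR.smul {p : ℝ[X]} (hp : RR p) {c : ℝ} (hc : c ≠ 0) : RR (act (fun _ => c) p) := by
  have : act (fun _ => c) p = C c * p := by ext k; simp [coeff_act]
  intro z hz
  rw [this, map_mul, aeval_C, mul_eq_zero] at hz
  exact hp z (hz.resolve_left (by simpa using hc))

theorem quad {p : ℝ[X]} (hp : RR p) (N : ℕ) (hd : p.natDegree ≤ 2 * N) {ε : ℝ} (h0 : 0 < ε)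
    (h1 : ε * N ^ 2 < 1) : RR (act (fun j => 1 - ε * ((j : ℝ) - N) ^ 2) p) := by
  set s := √(1 / ε) with hs
  have hs2 : ε * s ^ 2 = 1 := by rw [hs, Real.sq_sqrt (by positivity)]; field_simp
  have hs3 : (N : ℝ) < s := by
    by_contra hc
    have : s ^ 2 ≤ N ^ 2 := pow_le_pow_left₀ (Real.sqrt_nonneg _) (not_lt.1 hc) 2
    nlinarith
  have hd' : (p.natDegree : ℝ) ≤ 2 * N := by exact_mod_cast hd
  have a := (step (step hp (c := N + s) (Or.inr (by linarith))) (c := N - s)
    (Or.inl (by linarith))).smul (neg_ne_zero.2 h0.ne')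
  rw [act_act, act_act] at a
  convert a using 2
  ext j
  linear_combination -hs2

/-- The Gaussian sequence centred at `N` preserves real zeros in degree at most `2 N`. -/
theorem gauss {p : ℝ[X]} (hp : RR p) (N : ℕ) (hd : p.natDegree ≤ 2 * N) {t : ℝ} (ht : 0 < t) :
    RR (act (fun j => Real.exp (-(t * ((j : ℝ) - N) ^ 2))) p) := by
  refine limit (F := fun n => act (fun j => (1 + -(t * ((j : ℝ) - N) ^ 2) / n) ^ n) p)
    (D := p.natDegree) ?_ (fun n => natDegree_act_le _ _) (fun z => ?_) ?_
  · filter_upwards [tendsto_natCast_atTop_atTop (R := ℝ).eventually_gt_atTop (t * N ^ 2)] with n hn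
    have hn0 : (0 : ℝ) < n := lt_of_le_of_lt (by positivity) hn
    have : ∀ k : ℕ, RR (act (fun j => (1 + -(t * ((j : ℝ) - N) ^ 2) / n) ^ k) p) := by
      intro k
      induction k with
      | zero => simpa using hp.smul one_ne_zero
      | succ k ih =>
        have := quad ih N ((natDegree_act_le _ _).trans hd) (div_pos ht hn0)
          (by rw [div_mul_eq_mul_div, div_lt_one hn0]; exact hn)
        rw [act_act] at this
        convert this using 2
        ext j
        ring
    exact this n
  · simp only [act, Polynomial.sum, map_sum, aeval_monomial, map_mul]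
    refine tendsto_finsetSum _ fun j _ => (Tendsto.mul_const _ ?_).mul_const _
    exact (Complex.continuous_ofReal.tendsto _).comp (Real.tendsto_one_add_div_pow_exp _)
  · intro h
    refine hp.ne_zero (Polynomial.ext fun k => ?_)
    have := congrArg (coeff · k) h
    simpa [coeff_act] using this

end H13Mult
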