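import Mathlib
import Pool.Agent.Lib.helper13.Cone

set_option autoImplicit false

namespace H13Perm

open Finset H13Cone

/-- The number of pairs of positions `i < j` of a word whose letters are related by `r`. -/
def V (r : ℕ → ℕ → Bool) : List ℕ → ℕ
  | [] => 0
  | x :: t => t.countP (r x) + V r t

theorem V_ofFn (r : ℕ → ℕ → Bool) : ∀ (n : ℕ) (f : Fin n → ℕ), V r (List.ofFn f) =
    (univ.filter fun p : Fin n × Fin n => p.1 < p.2 ∧ r (f p.1) (f p.2) = true).card
  | 0, f => by simp [V]
  | n + 1, f => by
    rw [List.ofFn_succ, V, V_ofFn r n, card_filter, card_filter, Fintype.sum_prod_type,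
      Fintype.sum_prod_type, Fin.sum_univ_succ]
    congr 1
    · have e : ∀ (p : ℕ → Bool) (l : List ℕ),
          l.countP p = (l.map fun x => if p x = true then 1 else 0).sum := by
        intro p l
        induction l with
        | nil => rfl
        | cons a l ih => rw [List.countP_cons, List.map_cons, List.sum_cons, ih, add_comm]
      rw [Fin.sum_univ_succ, e, List.map_ofFn, List.sum_ofFn]
      simp
    · refine sum_congr rfl fun i _ => ?_
      rw [Fin.sum_univ_succ]; simp

theorem ofFn_succAbove {n : ℕ} (g : Fin (n + 1) → ℕ) (i : Fin (n + 1)) :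
    List.ofFn (g ∘ i.succAbove) = (List.ofFn g).eraseIdx i := by
  apply List.ext_getElem
  · rw [List.length_eraseIdx_of_lt (by simp; omega)]; simp
  · intro k h1 h2
    rw [List.getElem_eraseIdx]
    simp only [List.getElem_ofFn, Function.comp, Fin.succAbove, Fin.lt_def, Fin.val_castSucc]
    split_ifs <;> rfl

/-- The recursion satisfied by the generating number. -/
def stepT (r : ℕ → ℕ → Bool) (q : ℕ) (T : List ℕ → ℕ) (l : List ℕ) : ℕ :=
  ((List.range l.length).map fun i =>
    q ^ (l.eraseIdx i).countP (r (l.getD i 0)) * T (l.eraseIdx i)).sum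

theorem dp (r : ℕ → ℕ → Bool) (q : ℕ) (T : List ℕ → ℕ) (L : List ℕ) (h0 : T [] = 1)
    (h : ∀ l ∈ L.sublists, l = [] ∨ T l = stepT r q T l) :
    ∀ (n : ℕ) (g : Fin n → ℕ), (List.ofFn g).Sublist L →
      ∑ τ : Equiv.Perm (Fin n), q ^ V r (List.ofFn (g ∘ τ)) = T (List.ofFn g)
  | 0, g, _ => by simp [V, h0]
  | n + 1, g, hg => by
    rw [(h _ (List.mem_sublists.2 hg)).resolve_left (by simp), stepT, sum_perm 0, List.length_ofFn]
    change _ = ∑ i ∈ range (n + 1), _
    rw [← Fin.sum_univ_eq_sum_range]
    refine sum_congr rfl fun i _ => ?_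
    rw [← ofFn_succAbove, ← dp r q T L h0 h n _
      (by rw [ofFn_succAbove]; exact (List.eraseIdx_sublist _ _).trans hg), mul_sum]
    refine sum_congr rfl fun σ _ => ?_
    have e : List.ofFn (g ∘ ext 0 i σ) = g i :: List.ofFn ((g ∘ i.succAbove) ∘ σ) := by
      rw [List.ofFn_succ]
      congr 2
    rw [e, V, pow_add, (σ.ofFn_comp_perm _).countP_eq]
    rw [show (List.ofFn g).getD i 0 = g i by
      rw [List.getD_eq_getElem _ _ (by simpa using i.2), List.getElem_ofFn]]

theorem decode {ι : Type*} [Fintype ι] (f : ι → ℕ) (q i : ℕ) (hq : Fintype.card ι < q) :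
    (univ.filter fun x => f x = i).card = (∑ x, q ^ f x) / q ^ i % q := by
  have hq0 : 0 < q := by omega
  have e : ∑ x, q ^ f x = ∑ x ∈ univ.filter (fun x => f x < i), q ^ f x +
      q ^ i * ((univ.filter fun x => f x = i).card +
        q * ∑ x ∈ univ.filter (fun x => i < f x), q ^ (f x - i - 1)) := by
    rw [card_filter, sum_filter, sum_filter, mul_sum, ← sum_add_distrib, mul_sum,
      ← sum_add_distrib]
    refine sum_congr rfl fun x _ => ?_
    rcases lt_trichotomy (f x) i with h | h | h
    · simp [h, h.ne, h.le.not_gt]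
    · simp [h]
    · rw [if_neg h.le.not_gt, if_neg h.ne', if_pos h, zero_add, zero_add, ← pow_succ', ← pow_add]
      congr 1; omega
  have h1 : ∑ x ∈ univ.filter (fun x => f x < i), q ^ f x < q ^ i := by
    rcases Nat.eq_zero_or_pos i with rfl | hi
    · simp
    calc _ ≤ (univ.filter (fun x => f x < i)).card • q ^ (i - 1) :=
          sum_le_card_nsmul _ _ _ fun x hx => Nat.pow_le_pow_right hq0 (by
            have := (mem_filter.1 hx).2; omega)
      _ < q * q ^ (i - 1) := Nat.mul_lt_mul_of_pos_right ((card_le_univ _).trans_lt hq)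
            (by positivity)
      _ = q ^ i := by rw [← pow_succ']; congr 1; omega
  rw [e, Nat.add_mul_div_left _ _ (by positivity), Nat.div_eq_of_lt h1, zero_add,
    Nat.add_mul_mod_self_left, Nat.mod_eq_of_lt ((card_le_univ _).trans_lt hq)]

end H13Perm
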