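import Mathlib
import Pool.Agent.Lib.helper13.Cone

set_option autoImplicit false

namespace H13Perm

open Finset H13Cone

/-- The one-line words of all permutations of `0, …, n - 1`. -/
def permsL : ℕ → List (List ℕ)
  | 0 => [[]]
  | n + 1 => (List.range (n + 1)).flatMap fun i =>
      (permsL n).map fun l => i :: l.map fun x => if x < i then x else x + 1

/-- The one-line word of a permutation. -/
def word {n : ℕ} (σ : Equiv.Perm (Fin n)) : List ℕ := List.ofFn fun i => (σ i : ℕ)

theorem word_getD {n : ℕ} (σ : Equiv.Perm (Fin n)) (i : Fin n) : (word σ).getD i 0 = σ i := by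
  simp [word, List.getD_eq_getElem?_getD]

theorem word_ext {n : ℕ} (i : Fin (n + 1)) (σ : Equiv.Perm (Fin n)) :
    word (ext 0 i σ) = (i : ℕ) :: (word σ).map fun x : ℕ => if x < (i : ℕ) then x else x + 1 := by
  rw [word, List.ofFn_succ, ext_at, word, List.map_ofFn]
  congr 2
  ext k
  rw [← Fin.succAbove_zero, ext_succAbove, Fin.succAbove]
  simp only [Fin.lt_def, Fin.val_castSucc, Function.comp]
  split_ifs <;> simp

theorem sum_word {M : Type*} [AddCommMonoid M] : ∀ (n : ℕ) (F : List ℕ → M),
    ∑ σ : Equiv.Perm (Fin n), F (word σ) = ((permsL n).map F).sum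
  | 0, F => by simp [permsL, word]
  | n + 1, F => by
    rw [sum_perm 0, permsL, List.map_flatMap, List.flatMap_def, List.sum_flatten, List.map_map]
    change _ = ∑ i ∈ range (n + 1), _
    rw [← Fin.sum_univ_eq_sum_range]
    refine sum_congr rfl fun i _ => ?_
    simp only [word_ext]
    rw [sum_word n fun l => F ((i : ℕ) :: l.map fun x : ℕ => if x < (i : ℕ) then x else x + 1)]
    simp [List.map_map, Function.comp_def]

end H13Perm
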