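import Mathlib

set_option autoImplicit false

namespace H13RM

/-- `m` is a sum of `j` elements of `B`. -/
def R (j : ℕ) (B : Set ℕ) (m : ℕ) : Prop :=
  ∃ s : Multiset ℕ, s.card = j ∧ (∀ a ∈ s, a ∈ B) ∧ s.sum = m

variable {B : Set ℕ}

theorem R.add {i j m n : ℕ} (h1 : R i B m) (h2 : R j B n) : R (i + j) B (m + n) := by
  obtain ⟨s, rfl, hs, rfl⟩ := h1
  obtain ⟨t, rfl, ht, rfl⟩ := h2
  refine ⟨s + t, by simp, fun a ha => ?_, by simp⟩
  rcases Multiset.mem_add.1 ha with h | h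
  exacts [hs a h, ht a h]

theorem R.rep {a : ℕ} (h : a ∈ B) (i : ℕ) : R i B (i * a) :=
  ⟨Multiset.replicate i a, by simp, fun x hx => by rwa [Multiset.eq_of_mem_replicate hx], by simp⟩

theorem R.one {a : ℕ} (h : a ∈ B) : R 1 B a := by simpa using R.rep h 1

theorem R.cast {i j m n : ℕ} (h : R i B m) (e1 : i = j) (e2 : m = n) : R j B n := e1 ▸ e2 ▸ h

theorem R.int {lo hi : ℕ} (h : ∀ a, lo ≤ a → a ≤ hi → a ∈ B) (hl : lo ≤ hi) :
    ∀ j m : ℕ, j * lo ≤ m → m ≤ j * hi → R j B m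
  | 0, m, _, h2 => ⟨0, rfl, by simp, by simp; omega⟩
  | j + 1, m, h1, h2 => by
    rw [add_mul, one_mul] at h1 h2
    have h3 : j * lo ≤ j * hi := Nat.mul_le_mul_left _ hl
    exact ((R.int h hl j (m - max lo (m - j * hi)) (by omega) (by omega)).add
      (R.one (h (max lo (m - j * hi)) (by omega) (by omega)))).cast rfl (by omega)

theorem sum_le {s : Multiset ℕ} {X : ℕ} (h : ∀ a ∈ s, a ≤ X) : s.sum ≤ s.card * X := by
  simpa using Multiset.sum_le_card_nsmul s X h

theorem uniq1 {g N u : ℕ} {s : Multiset ℕ} (hc : s.card = g + 1) (hu : u ≤ N)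
    (h : ∀ a ∈ s, a ≤ N ∨ a = 2 * N + 1) (hs : s.sum = g * (2 * N + 1) + u) : u ∈ s := by
  have e := Multiset.filter_add_not (fun a => a = 2 * N + 1) s
  rw [Multiset.filter_eq'] at e
  set p := s.count (2 * N + 1)
  set t := s.filter (fun a => ¬a = 2 * N + 1) with ht
  have e1 := congrArg Multiset.card e
  have e2 := congrArg Multiset.sum e
  simp only [Multiset.card_add, Multiset.card_replicate, Multiset.sum_add, Multiset.sum_replicate,
    smul_eq_mul] at e1 e2
  have h3 : t.sum ≤ t.card * N := sum_le fun a ha => by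
    have := Multiset.mem_filter.1 ha
    exact (h a this.1).resolve_right this.2
  rcases lt_trichotomy t.card 1 with h1 | h1 | h1
  · have : p = g + 1 := by omega
    rw [this, hs, add_mul] at e2
    omega
  · obtain ⟨x, hx⟩ := Multiset.card_eq_one.1 h1
    have : p = g := by omega
    have hx' : x ∈ t := by simp [hx]
    rw [this, hx, Multiset.sum_singleton] at e2
    have : x = u := by omega
    exact this ▸ (Multiset.mem_filter.1 hx').1
  · obtain ⟨q, hq⟩ := Nat.exists_eq_add_of_lt h1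
    have : g = p + q + 1 := by omega
    rw [hq] at h3
    rw [hs, this] at e2
    nlinarith [Nat.zero_le (q * N)]

def N (g x : ℕ) : ℕ := (g + 2) * x
def b (g x : ℕ) : ℕ := 2 * N g x + 1
def M (g x : ℕ) : ℕ := g * b g x + x
def N1 (g x : ℕ) : ℕ := (g + 2) * M g x
def M1 (g x : ℕ) : ℕ := (g + 1) * N1 g x + 2
def n (g x : ℕ) : ℕ := 2 * ((g + 1) * N1 g x) + 3

theorem ineq (g x : ℕ) (hg : 1 ≤ g) : x + (g + 1) * x = N g x ∧ b g x ≤ g * b g x ∧
    M g x + (g + 1) * M g x = N1 g x ∧ N1 g x + N1 g x ≤ (g + 1) * N1 g x ∧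
    (g + 2) * N1 g x = (g + 1) * N1 g x + N1 g x := by
  refine ⟨by unfold N; ring, by nlinarith, by unfold N1; ring, by nlinarith, by ring⟩

/-- The block of the set between `x` and `n g x`. -/
def Blk (g x : ℕ) (U : Finset ℕ) : Finset ℕ :=
  Finset.Icc x (N g x) ∪ {b g x} ∪ Finset.Icc (M g x) (N1 g x) ∪ {M1 g x} ∪
    (insert (x - 1) U).image (fun u => n g x - g * b g x - u)

theorem mem_Blk {g x a : ℕ} {U : Finset ℕ} : a ∈ Blk g x U ↔ (x ≤ a ∧ a ≤ N g x) ∨ a = b g x ∨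
    (M g x ≤ a ∧ a ≤ N1 g x) ∨ a = M1 g x ∨
    ∃ u, (u = x - 1 ∨ u ∈ U) ∧ n g x - g * b g x - u = a := by
  simp only [Blk, Finset.mem_union, Finset.mem_Icc, Finset.mem_singleton, Finset.mem_image,
    Finset.mem_insert, or_assoc]

theorem Blk_bd {g x a : ℕ} {U : Finset ℕ} (hg : 1 ≤ g) (hU : ∀ u ∈ U, u < x)
    (h : a ∈ Blk g x U) : x ≤ a ∧ a < n g x := by
  obtain ⟨i1, i2, i3, i4, i5⟩ := ineq g x hg
  have e1 : b g x = 2 * N g x + 1 := rfl
  have e2 : M g x = g * b g x + x := rfl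
  have e3 : M1 g x = (g + 1) * N1 g x + 2 := rfl
  have e4 : n g x = 2 * ((g + 1) * N1 g x) + 3 := rfl
  rcases mem_Blk.1 h with h | h | h | h | ⟨u, hu | hu, h⟩
  on_goal 6 => have := hU u hu
  all_goals omega

theorem uniq2 {g x : ℕ} {U : Finset ℕ} (hg : 1 ≤ g) (hx : 1 ≤ x) (hU : ∀ u ∈ U, u < x)
    (hB : ∀ a ∈ B, a + 1 < x ∨ a ∈ Blk g x U ∨ n g x < a) (h : R (g + 2) B (n g x)) :
    ∃ u ∈ U, u ∈ B := by
  obtain ⟨i1, i2, i3, i4, i5⟩ := ineq g x hg
  have e1 : b g x = 2 * N g x + 1 := rfl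
  have e2 : M g x = g * b g x + x := rfl
  have e3 : M1 g x = (g + 1) * N1 g x + 2 := rfl
  have e4 : n g x = 2 * ((g + 1) * N1 g x) + 3 := rfl
  obtain ⟨s, hc, hs, he⟩ := h
  have hB' : ∀ a ∈ B, a ≤ N g x ∨ a = b g x ∨ (M g x ≤ a ∧ a ≤ N1 g x) ∨ M1 g x ≤ a := by
    intro a ha
    rcases hB a ha with h | h | h
    · omega
    · rcases mem_Blk.1 h with h | h | h | h | ⟨u, hu | hu, h⟩
      on_goal 6 => have := hU u hu
      all_goals omega
    · omega
  obtain ⟨y, hy, hy1⟩ : ∃ y ∈ s, N1 g x < y := by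
    by_contra hc'
    push Not at hc'
    have := sum_le hc'
    rw [hc] at this
    omega
  obtain ⟨t, rfl⟩ := Multiset.exists_cons_of_mem hy
  rw [Multiset.sum_cons] at he
  rw [Multiset.card_cons] at hc
  have hy2 := hB' y (hs y hy)
  have ht : ∀ a ∈ t, a ∈ B ∧ a ≤ t.sum := fun a ha =>
    ⟨hs a (Multiset.mem_cons_of_mem ha), Multiset.single_le_sum (fun _ _ => Nat.zero_le _) a ha⟩
  have ht2 : t.sum ≤ t.card * N1 g x := sum_le fun a ha => by
    have := hB' a (ht a ha).1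
    have := (ht a ha).2
    omega
  rw [show t.card = g + 1 by omega] at ht2
  obtain ⟨u, hu, hu2⟩ : ∃ u, (u = x - 1 ∨ u ∈ U) ∧ n g x - g * b g x - u = y := by
    rcases hB y (hs y hy) with h | h | h
    · omega
    · rcases mem_Blk.1 h with h | h | h | h | h
      on_goal 5 => exact h
      all_goals omega
    · omega
  have hux : u < x := by
    rcases hu with hu | hu
    · omega
    · exact hU u hu
  have : u ∈ t := uniq1 (g := g) (N := N g x) (by omega) (by omega) (fun a ha => by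
    have := hB' a (ht a ha).1
    have := (ht a ha).2
    omega) (by rw [← e1]; omega)
  refine ⟨u, hu.resolve_left fun h => ?_, (ht u this).1⟩
  rcases hB u (ht u this).1 with h' | h' | h'
  · omega
  · have := Blk_bd hg hU h'; omega
  · omega

theorem cover {g x : ℕ} {U : Finset ℕ} (hg : 1 ≤ g) (hx : 1 ≤ x)
    (hB : ∀ a ∈ Blk g x U, a ∈ B) (hB2 : ∀ a, n g x < a → a ≤ N g (n g x + 1) → a ∈ B)
    (hU : ∃ u ∈ U, u < x ∧ u ∈ B) (m : ℕ) (h1 : N g x ≤ m) (h2 : m ≤ N g (n g x + 1)) :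
    R (g + 2) B m := by
  obtain ⟨i1, i2, i3, i4, i5⟩ := ineq g x hg
  have e1 : b g x = 2 * N g x + 1 := rfl
  have e2 : M g x = g * b g x + x := rfl
  have e3 : M1 g x = (g + 1) * N1 g x + 2 := rfl
  have e4 : n g x = 2 * ((g + 1) * N1 g x) + 3 := rfl
  have a1 : ∀ a, x ≤ a → a ≤ N g x → a ∈ B := fun a h h' => hB a (mem_Blk.2 (.inl ⟨h, h'⟩))
  have a2 : b g x ∈ B := hB _ (mem_Blk.2 (.inr (.inl rfl)))
  have a3 : ∀ a, M g x ≤ a → a ≤ N1 g x → a ∈ B := fun a h h' =>
    hB a (mem_Blk.2 (.inr (.inr (.inl ⟨h, h'⟩))))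
  have a4 : M1 g x ∈ B := hB _ (mem_Blk.2 (.inr (.inr (.inr (.inl rfl)))))
  have a5 : ∀ u, (u = x - 1 ∨ u ∈ U) → n g x - g * b g x - u ∈ B := fun u h =>
    hB _ (mem_Blk.2 (.inr (.inr (.inr (.inr ⟨u, h, rfl⟩)))))
  have A : ∀ i j, i + j = g → m ≤ i * b g x + (j + 2) * N g x → R (g + 2) B m := by
    intro i
    induction i with
    | zero =>
      intro j hj h
      rw [zero_add] at hj
      subst hj
      exact R.int a1 (by omega) _ m h1 (by simpa using h)
    | succ i ih =>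
      intro j hj h
      by_cases h' : m ≤ i * b g x + (j + 1 + 2) * N g x
      · exact ih (j + 1) (by omega) h'
      · have f1 : (j + 2) * x ≤ N g x := Nat.mul_le_mul_right _ (by omega)
        have f2 : (j + 1 + 2) * N g x = j * N g x + 3 * N g x := by ring
        have f3 : (i + 1) * b g x = i * b g x + b g x := by ring
        exact ((R.rep a2 (i + 1)).add (R.int a1 (by omega) (j + 2) (m - (i + 1) * b g x)
          (by omega) (by omega))).cast (by omega) (by omega)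
  by_cases c1 : m ≤ g * b g x + (0 + 2) * N g x
  · exact A g 0 rfl c1
  have ax := R.rep (a1 x le_rfl (by omega)) (g + 1)
  by_cases c2 : m ≤ N1 g x
  · exact ((R.one (a3 (m - (g + 1) * x) (by omega) (by omega))).add ax).cast (by omega) (by omega)
  by_cases c3 : m ≤ (g + 2) * N1 g x
  · exact R.int a3 (by omega) _ m (by show N1 g x ≤ m; omega) c3
  by_cases c4 : m < n g x
  · exact ((R.one a4).add (R.int a3 (by omega) (g + 1) (m - M1 g x) (by omega) (by omega))).cast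
      (by omega) (by omega)
  by_cases c5 : m = n g x
  · obtain ⟨u, hu, hu1, hu2⟩ := hU
    exact (((R.one hu2).add (R.one (a5 u (.inr hu)))).add (R.rep a2 g)).cast (by omega) (by omega)
  by_cases c6 : m ≤ n g x + (g + 1) * x
  · exact (((R.one (a1 (x - 1 + (m - n g x)) (by omega) (by omega))).add
      (R.one (a5 _ (.inl rfl)))).add (R.rep a2 g)).cast (by omega) (by omega)
  · exact ((R.one (hB2 (m - (g + 1) * x) (by omega) (by omega))).add ax).cast (by omega) (by omega)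

end H13RM
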