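import Mathlib

set_option autoImplicit false

open Filter Topology

namespace H13Ray

variable {ι : Type} [Fintype ι] [DecidableEq ι]

structure Cub (ι : Type) [Fintype ι] where
  T : (ι → ℝ) →L[ℝ] (ι → ℝ) →L[ℝ] (ι → ℝ) →L[ℝ] ℝ
  B : (ι → ℝ) →L[ℝ] (ι → ℝ) →L[ℝ] ℝ
  l : (ι → ℝ) →L[ℝ] ℝ
  c : ℝ
  hT1 : ∀ x y z, T x y z = T y x z
  hT2 : ∀ x y z, T x y z = T x z y
  hB : ∀ x y, B x y = B y x

noncomputable def Cub.f (P : Cub ι) (x : ι → ℝ) : ℝ := P.T x x x + P.B x x + P.l x + P.c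

noncomputable def Cub.cv (P : Cub ι) (v x : ι → ℝ) : ℝ := 3 * P.T v x x + 2 * P.B v x + P.l v

def IsN (x : ι → ℝ) : Prop := ∀ i, ∃ n : ℕ, x i = n

def NoRay (P : Cub ι) : Prop := ∀ y d : ι → ℝ, IsN y → (∀ i, 0 ≤ d i) →
  ∃ ε > 0, ∃ M : ℝ, ∀ x, IsN x → ∀ t : ℝ, 0 ≤ t → ‖x - (y + t • d)‖ ≤ ε → M ≤ P.f x

omit [DecidableEq ι] in
lemma Cub.T_add (P : Cub ι) (x y : ι → ℝ) (t : ℝ) :
    P.T (x + t • y) (x + t • y) (x + t • y) =
      P.T x x x + t * (3 * P.T y x x) + t ^ 2 * (3 * P.T y y x) + t ^ 3 * P.T y y y := by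
  simp only [map_add, map_smul, add_apply, smul_apply,
    smul_eq_mul]
  rw [P.hT1 x y x, P.hT2 x x y, P.hT1 x y x, P.hT1 x y y, P.hT2 y x y]
  ring

omit [DecidableEq ι] in
lemma Cub.f_add (P : Cub ι) (x y : ι → ℝ) (t : ℝ) :
    P.f (x + t • y) = P.f x + t * P.cv y x + t ^ 2 * (3 * P.T y y x + P.B y y)
      + t ^ 3 * P.T y y y := by
  unfold Cub.f Cub.cv
  rw [P.T_add]
  simp only [map_add, map_smul, add_apply, smul_apply,
    smul_eq_mul]
  rw [P.hB x y]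
  ring

omit [DecidableEq ι] in
lemma Cub.f_smul (P : Cub ι) (u : ι → ℝ) (t : ℝ) :
    P.f (t • u) = t ^ 3 * P.T u u u + t ^ 2 * P.B u u + t * P.l u + P.c := by
  unfold Cub.f
  simp only [map_smul, smul_apply, smul_eq_mul]
  ring

omit [DecidableEq ι] in
lemma Cub.cont_f (P : Cub ι) : Continuous P.f := by
  unfold Cub.f; fun_prop

omit [DecidableEq ι] in
lemma Cub.cont_cv (P : Cub ι) (v : ι → ℝ) : Continuous (P.cv v) := by
  unfold Cub.cv; fun_prop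

omit [DecidableEq ι] in
lemma bound (φ : (ι → ℝ) → ℝ) (h : Continuous φ) (R : ℝ) :
    ∃ K : ℝ, ∀ δ, ‖δ‖ ≤ R → |φ δ| ≤ K := by
  obtain ⟨K, hK⟩ := (isCompact_closedBall (0 : ι → ℝ) R).exists_bound_of_continuousOn
    h.continuousOn
  exact ⟨K, fun δ hδ => hK δ (by simpa using hδ)⟩

lemma clm_sum (φ : (ι → ℝ) →L[ℝ] ℝ) (x : ι → ℝ) :
    φ x = ∑ i, x i * φ (Pi.single i 1) := by
  conv_lhs => rw [← Finset.univ_sum_single x]
  rw [map_sum]
  apply Finset.sum_congr rfl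
  intro i _
  rw [← smul_eq_mul, ← map_smul]
  congr 1
  ext j
  by_cases h : j = i
  · subst h; simp
  · simp [h]

lemma clm_supp (φ : (ι → ℝ) →L[ℝ] ℝ) (d δ : ι → ℝ)
    (h1 : ∀ i, d i ≠ 0 → φ (Pi.single i 1) = 0) (h2 : ∀ i, d i = 0 → δ i = 0) : φ δ = 0 := by
  rw [clm_sum]
  apply Finset.sum_eq_zero
  intro i _
  by_cases h : d i = 0
  · rw [h2 i h, zero_mul]
  · rw [h1 i h, mul_zero]

omit [DecidableEq ι] in
lemma dir (d : ι → ℝ) (hd : ∀ i, 0 ≤ d i) (η : ℝ) (hη : 0 < η) (Λ : ℝ) :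
    ∃ t : ℝ, Λ ≤ t ∧ ∃ δ : ι → ℝ, IsN (δ + t • d) ∧ ‖δ‖ ≤ η ∧ ∀ i, d i = 0 → δ i = 0 := by
  let a : ℕ → ι → ℝ := fun k i => Int.fract ((k : ℝ) * d i)
  have ha : ∀ k, a k ∈ Metric.closedBall (0 : ι → ℝ) 1 := by
    intro k
    rw [mem_closedBall_zero_iff, pi_norm_le_iff_of_nonneg zero_le_one]
    intro i
    rw [Real.norm_eq_abs, abs_of_nonneg (Int.fract_nonneg _)]
    exact (Int.fract_lt_one _).le
  obtain ⟨z, _, φ, hφ, hz⟩ := tendsto_subseq_of_bounded Metric.isBounded_closedBall ha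
  obtain ⟨N, hN⟩ := Metric.cauchySeq_iff'.mp hz.cauchySeq η hη
  have h1 := hN (max N (φ N + ⌈Λ⌉₊)) (le_max_left _ _)
  have h2 : φ N + ⌈Λ⌉₊ ≤ φ (max N (φ N + ⌈Λ⌉₊)) := (le_max_right _ _).trans (hφ.id_le _)
  generalize max N (φ N + ⌈Λ⌉₊) = m at h1 h2
  have h3 : ((φ N : ℕ) : ℝ) + ⌈Λ⌉₊ ≤ φ m := by exact_mod_cast h2
  have h4 := Nat.le_ceil Λ
  have h5 : (0 : ℝ) ≤ ⌈Λ⌉₊ := Nat.cast_nonneg _
  refine ⟨(φ m : ℝ) - φ N, by linarith, a (φ N) - a (φ m), ?_, ?_, ?_⟩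
  · intro i
    have h6 : ⌊(φ N : ℝ) * d i⌋ ≤ ⌊(φ m : ℝ) * d i⌋ :=
      Int.floor_le_floor (mul_le_mul_of_nonneg_right (by linarith) (hd i))
    refine ⟨(⌊(φ m : ℝ) * d i⌋ - ⌊(φ N : ℝ) * d i⌋).toNat, ?_⟩
    have h7 : (((⌊(φ m : ℝ) * d i⌋ - ⌊(φ N : ℝ) * d i⌋).toNat : ℤ) : ℝ) =
        ((⌊(φ m : ℝ) * d i⌋ - ⌊(φ N : ℝ) * d i⌋ : ℤ) : ℝ) := by
      rw [Int.toNat_of_nonneg (by omega)]
    rw [Int.cast_natCast] at h7
    rw [h7]
    simp only [a, Pi.add_apply, Pi.sub_apply, Pi.smul_apply, smul_eq_mul, Int.fract]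
    push_cast
    ring
  · rw [← dist_eq_norm, dist_comm]; exact h1.le
  · intro i hi
    simp [a, hi]

omit [Fintype ι] [DecidableEq ι] in
lemma IsN.add {x y : ι → ℝ} (hx : IsN x) (hy : IsN y) : IsN (x + y) := by
  intro i
  obtain ⟨a, ha⟩ := hx i
  obtain ⟨b, hb⟩ := hy i
  exact ⟨a + b, by simp [ha, hb]⟩

omit [DecidableEq ι] in
lemma rl {P : Cub ι} (h : NoRay P) (y d : ι → ℝ) (hy : IsN y) (hd : ∀ i, 0 ≤ d i) (η : ℝ)
    (hη : 0 < η) (H : ∀ M : ℝ, ∃ Λ : ℝ, ∀ t, Λ ≤ t → ∀ δ : ι → ℝ, ‖δ‖ ≤ η →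
      (∀ i, d i = 0 → δ i = 0) → P.f (y + δ + t • d) < M) : False := by
  obtain ⟨ε, hε, M, hM⟩ := h y d hy hd
  obtain ⟨Λ, hΛ⟩ := H M
  obtain ⟨t, ht, δ, h1, h2, h3⟩ := dir d hd (min ε η) (lt_min hε hη) (max Λ 0)
  have h4 := hΛ t ((le_max_left _ _).trans ht) δ (h2.trans (min_le_right _ _)) h3
  have h5 := hM (y + δ + t • d) (by rw [add_assoc]; exact hy.add h1) t
    ((le_max_right _ _).trans ht) (by
      have : y + δ + t • d - (y + t • d) = δ := by abel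
      rw [this]; exact h2.trans (min_le_left _ _))
  linarith

lemma dom (a K M : ℝ) (ha : a < 0) :
    ∃ Λ : ℝ, 1 ≤ Λ ∧ ∀ t, Λ ≤ t → 3 * |K| + t * a ≤ -(|M| + 1) := by
  refine ⟨max 1 ((3 * |K| + |M| + 1) / (-a)), le_max_left _ _, fun t ht => ?_⟩
  have h1 := (le_max_right _ _).trans ht
  rw [div_le_iff₀ (by linarith)] at h1
  linarith

lemma small (a b c τ : ℝ) (hτ : 0 < τ) (h : ∀ t, 0 < t → t < τ → 0 ≤ a + t * b + t ^ 2 * c) :
    0 ≤ a := by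
  have h1 : Tendsto (fun t : ℝ => a + t * b + t ^ 2 * c) (𝓝[>] 0) (𝓝 (a + 0 * b + 0 ^ 2 * c)) := by
    apply Tendsto.mono_left _ nhdsWithin_le_nhds
    exact Continuous.tendsto (by fun_prop) 0
  have h2 : ∀ᶠ t in 𝓝[>] (0 : ℝ), 0 ≤ a + t * b + t ^ 2 * c := by
    filter_upwards [Ioo_mem_nhdsGT hτ] with t ht using h t ht.1 ht.2
  simpa using ge_of_tendsto h1 h2

omit [DecidableEq ι] in
lemma g_nonneg {P : Cub ι} (h : NoRay P) (d : ι → ℝ) (hd : ∀ i, 0 ≤ d i) : 0 ≤ P.T d d d := by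
  by_contra hneg
  push Not at hneg
  obtain ⟨K0, h0⟩ := bound P.f P.cont_f 1
  obtain ⟨K1, h1⟩ := bound (P.cv d) (P.cont_cv d) 1
  obtain ⟨K2, h2⟩ := bound (fun δ => 3 * P.T d d δ + P.B d d) (by fun_prop) 1
  apply rl h 0 d (fun i => ⟨0, by simp⟩) hd 1 one_pos
  intro M
  obtain ⟨Λ, hΛ1, hΛ⟩ := dom _ (|K0| + |K1| + |K2|) M hneg
  refine ⟨Λ, fun t ht δ hδ _ => ?_⟩
  rw [zero_add, P.f_add]
  have a0 := (le_abs_self _).trans ((h0 δ hδ).trans (le_abs_self _))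
  have a1 := (le_abs_self _).trans ((h1 δ hδ).trans (le_abs_self _))
  have a2 := (le_abs_self _).trans ((h2 δ hδ).trans (le_abs_self _))
  have a3 := hΛ t ht
  have a4 : 1 ≤ t := hΛ1.trans ht
  have a5 := neg_abs_le M
  have a6 := abs_nonneg M
  have b0 := abs_nonneg K0
  have b1 := abs_nonneg K1
  have b2 := abs_nonneg K2
  rw [abs_of_nonneg (by positivity)] at a3
  generalize P.f δ = x0 at *
  generalize P.cv d δ = x1 at *
  generalize 3 * P.T d d δ + P.B d d = x2 at *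
  generalize P.T d d d = x3 at *
  generalize |K0| = k0 at *
  generalize |K1| = k1 at *
  generalize |K2| = k2 at *
  generalize |M| = m at *
  have t2 : 1 ≤ t ^ 2 := by nlinarith
  have t3 : t ≤ t ^ 2 := by nlinarith
  have c0 : x0 ≤ t ^ 2 * k0 := by nlinarith
  have c1 : t * x1 ≤ t ^ 2 * k1 := by nlinarith
  have c2 : t ^ 2 * x2 ≤ t ^ 2 * k2 := by nlinarith
  have c3 : t ^ 2 * (3 * (k0 + k1 + k2) + t * x3) ≤ t ^ 2 * (-(m + 1)) := by nlinarith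
  have c4 : t ^ 2 * (-(m + 1)) ≤ -(m + 1) := by nlinarith
  have c5 : 0 ≤ t ^ 2 * (k0 + k1 + k2) := by positivity
  nlinarith

omit [DecidableEq ι] in
lemma cv_nonneg {P : Cub ι} (h : NoRay P) (v : ι → ℝ) (hv : ∀ i, 0 ≤ v i)
    (h1 : ∀ x, P.T v v x = 0) (h2 : P.B v v = 0) (x : ι → ℝ) (hx : IsN x) : 0 ≤ P.cv v x := by
  by_contra hneg
  push Not at hneg
  have hc : Continuous (fun δ => P.cv v (x + δ)) := (P.cont_cv v).comp (by fun_prop)
  have h3 : ∀ᶠ δ in 𝓝 (0 : ι → ℝ), P.cv v (x + δ) < P.cv v x / 2 := by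
    apply (hc.tendsto 0).eventually (gt_mem_nhds _)
    simp only [add_zero]; linarith
  obtain ⟨η, hη, h4⟩ := Metric.eventually_nhds_iff.mp h3
  obtain ⟨K, hK⟩ := bound (fun δ => P.f (x + δ)) (P.cont_f.comp (by fun_prop)) (η / 2)
  apply rl h x v hx hv (η / 2) (by linarith)
  intro M
  obtain ⟨Λ, hΛ1, hΛ⟩ := dom (P.cv v x / 2) K M (by linarith)
  refine ⟨Λ, fun t ht δ hδ _ => ?_⟩
  rw [P.f_add, h1, h1, h2]
  have a0 := (le_abs_self _).trans ((hK δ hδ).trans (le_abs_self _))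
  have a1 := h4 (y := δ) (by rw [dist_zero_right]; linarith)
  have a3 := hΛ t ht
  have a4 : 1 ≤ t := hΛ1.trans ht
  have a5 := neg_abs_le M
  have b0 := abs_nonneg K
  have c1 : t * P.cv v (x + δ) ≤ t * (P.cv v x / 2) := by nlinarith
  linarith

omit [Fintype ι] in
lemma dir_pos (d : ι → ℝ) (hd : ∀ i, 0 ≤ d i) (i : ι) (t : ℝ) (ht : 0 < t) (j : ι) :
    0 ≤ (d + t • (Pi.single i 1 : ι → ℝ)) j := by
  by_cases h : j = i
  · subst h; have := hd j; simp; linarith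
  · simpa [h] using hd j

omit [Fintype ι] in
lemma dir_neg (d : ι → ℝ) (hd : ∀ i, 0 ≤ d i) (i : ι) (t : ℝ) (ht : t < d i) (j : ι) :
    0 ≤ (d + t • (-(Pi.single i 1 : ι → ℝ))) j := by
  by_cases h : j = i
  · subst h; simp; linarith
  · simpa [h] using hd j

omit [DecidableEq ι] in
lemma tend (φ : (ι → ℝ) → ℝ) (hφ : Continuous φ) {u : ℕ → ι → ℝ} {d : ι → ℝ}
    (hu : Tendsto u atTop (𝓝 d)) : Tendsto (fun k => φ (u k)) atTop (𝓝 (φ d)) :=
  (hφ.tendsto d).comp hu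

lemma K1 {P : Cub ι} (hN : NoRay P) (d : ι → ℝ) (hd : ∀ i, 0 ≤ d i) (u : ℕ → ι → ℝ) (ρ : ℕ → ℝ)
    (hρ : Tendsto ρ atTop atTop) (hu : Tendsto u atTop (𝓝 d))
    (hpos : ∀ᶠ k in atTop, ∀ i, 0 ≤ u k i) (h1 : ∀ᶠ k in atTop, ∀ i, d i = 0 → 1 ≤ ρ k * u k i)
    (hf : ∀ᶠ k in atTop, P.f (ρ k • u k) ≤ 0) : (∀ x, P.T d d x = 0) ∧ P.B d d = 0 := by
  have hμ : Tendsto (fun k => (ρ k)⁻¹) atTop (𝓝 0) := hρ.inv_tendsto_atTop
  have hρ0 : ∀ᶠ k in atTop, 0 < ρ k := hρ.eventually_gt_atTop 0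
  have hβ : Tendsto (fun k => P.B (u k) (u k) + (ρ k)⁻¹ * P.l (u k) + (ρ k)⁻¹ ^ 2 * P.c) atTop
      (𝓝 (P.B d d + 0 * P.l d + 0 ^ 2 * P.c)) := by
    have a1 := tend (fun z => P.B z z) (by fun_prop) hu
    have a2 := tend (fun z => P.l z) (by fun_prop) hu
    beta_reduce at a1 a2
    exact (a1.add (hμ.mul a2)).add ((hμ.pow 2).mul_const P.c)
  simp only [zero_mul, add_zero, ne_eq, OfNat.ofNat_ne_zero, not_false_eq_true, zero_pow] at hβ
  have hkey : ∀ᶠ k in atTop, ρ k * P.T (u k) (u k) (u k) +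
      (P.B (u k) (u k) + (ρ k)⁻¹ * P.l (u k) + (ρ k)⁻¹ ^ 2 * P.c) ≤ 0 := by
    filter_upwards [hf, hρ0] with k hk h0
    rw [P.f_smul] at hk
    have e : ρ k * P.T (u k) (u k) (u k) +
        (P.B (u k) (u k) + (ρ k)⁻¹ * P.l (u k) + (ρ k)⁻¹ ^ 2 * P.c) = (ρ k)⁻¹ ^ 2 *
        (ρ k ^ 3 * P.T (u k) (u k) (u k) + ρ k ^ 2 * P.B (u k) (u k) + ρ k * P.l (u k) + P.c) := by
      field_simp
      ring
    rw [e]
    exact mul_nonpos_of_nonneg_of_nonpos (by positivity) hk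
  have hT0 : P.T d d d = 0 := by
    apply le_antisymm _ (g_nonneg hN d hd)
    have a1 : Tendsto (fun k => P.T (u k) (u k) (u k) + (ρ k)⁻¹ *
        (P.B (u k) (u k) + (ρ k)⁻¹ * P.l (u k) + (ρ k)⁻¹ ^ 2 * P.c)) atTop
        (𝓝 (P.T d d d + 0 * P.B d d)) := by
      have a1 := tend (fun z => P.T z z z) (by fun_prop) hu
      beta_reduce at a1
      exact a1.add (hμ.mul hβ)
    rw [zero_mul, add_zero] at a1
    apply le_of_tendsto a1
    filter_upwards [hkey, hρ0] with k hk h0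
    have e : P.T (u k) (u k) (u k) + (ρ k)⁻¹ *
        (P.B (u k) (u k) + (ρ k)⁻¹ * P.l (u k) + (ρ k)⁻¹ ^ 2 * P.c) = (ρ k)⁻¹ *
        (ρ k * P.T (u k) (u k) (u k) +
        (P.B (u k) (u k) + (ρ k)⁻¹ * P.l (u k) + (ρ k)⁻¹ ^ 2 * P.c)) := by
      field_simp
    rw [e]
    exact mul_nonpos_of_nonneg_of_nonpos (by positivity) hk
  have hS : ∀ (x : ι → ℝ) (τ : ℝ), 0 < τ → (∀ t, 0 < t → t < τ → ∀ j, 0 ≤ (d + t • x) j) →
      0 ≤ P.T d d x := by
    intro x τ hτ hx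
    have := small (3 * P.T d d x) (3 * P.T x x d) (P.T x x x) τ hτ (by
      intro t h0 h1
      have a := g_nonneg hN _ (hx t h0 h1)
      rw [P.T_add, hT0, P.hT1 x d d, P.hT2 d x d] at a
      by_contra hh
      push Not at hh
      nlinarith [mul_pos h0 (neg_pos.mpr hh)])
    linarith
  have hG : ∀ i, 0 ≤ P.T d d (Pi.single i 1) := fun i =>
    hS _ 1 one_pos (fun t h0 _ => dir_pos d hd i t h0)
  have hG0 : ∀ i, d i ≠ 0 → P.T d d (Pi.single i 1) = 0 := by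
    intro i hi
    have := hS (-Pi.single i 1) (d i) (lt_of_le_of_ne (hd i) (Ne.symm hi))
      (fun t _ h1 => dir_neg d hd i t h1)
    rw [map_neg] at this
    linarith [hG i]
  have hB0 : 0 ≤ P.B d d := by
    by_contra hneg
    push Not at hneg
    obtain ⟨K0, h0⟩ := bound P.f P.cont_f 1
    obtain ⟨K1, h1⟩ := bound (P.cv d) (P.cont_cv d) 1
    apply rl hN 0 d (fun i => ⟨0, by simp⟩) hd 1 one_pos
    intro M
    obtain ⟨Λ, hΛ1, hΛ⟩ := dom _ (|K0| + |K1|) M hneg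
    refine ⟨Λ, fun t ht δ hδ hs => ?_⟩
    rw [zero_add, P.f_add, hT0, clm_supp (P.T d d) d δ hG0 hs]
    have a0 := (le_abs_self _).trans ((h0 δ hδ).trans (le_abs_self _))
    have a1 := (le_abs_self _).trans ((h1 δ hδ).trans (le_abs_self _))
    have a3 := hΛ t ht
    have a4 : 1 ≤ t := hΛ1.trans ht
    have a5 := neg_abs_le M
    have a6 := abs_nonneg M
    have b0 := abs_nonneg K0
    have b1 := abs_nonneg K1
    rw [abs_of_nonneg (by positivity)] at a3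
    generalize P.f δ = x0 at *
    generalize P.cv d δ = x1 at *
    generalize P.B d d = x3 at *
    generalize |K0| = k0 at *
    generalize |K1| = k1 at *
    generalize |M| = m at *
    have c0 : x0 ≤ t * k0 := by nlinarith
    have c1 : t * x1 ≤ t * k1 := by nlinarith
    have c3 : t * (3 * (k0 + k1) + t * x3) ≤ t * (-(m + 1)) := by nlinarith
    have c4 : t * (-(m + 1)) ≤ -(m + 1) := by nlinarith
    have c5 : 0 ≤ t * (k0 + k1) := by positivity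
    nlinarith
  have hG1 : ∀ i, P.T d d (Pi.single i 1) = 0 := by
    intro i
    by_cases hi : d i = 0
    swap
    · exact hG0 i hi
    by_contra hne
    have hGp : 0 < P.T d d (Pi.single i 1) := lt_of_le_of_ne (hG i) (Ne.symm hne)
    generalize he : (Pi.single i 1 : ι → ℝ) = e at *
    have hγ : Tendsto (fun k => 3 * P.T e (u k - u k i • e) (u k - u k i • e) +
        u k i * (3 * P.T e e (u k - u k i • e)) + u k i ^ 2 * P.T e e e) atTop
        (𝓝 (3 * P.T e (d - d i • e) (d - d i • e) +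
        d i * (3 * P.T e e (d - d i • e)) + d i ^ 2 * P.T e e e)) := by
      have a1 := tend (fun z : ι → ℝ => 3 * P.T e (z - z i • e) (z - z i • e) +
        z i * (3 * P.T e e (z - z i • e)) + z i ^ 2 * P.T e e e) (by fun_prop) hu
      beta_reduce at a1
      exact a1
    rw [hi] at hγ
    simp only [zero_smul, sub_zero, zero_mul, add_zero, ne_eq, OfNat.ofNat_ne_zero,
      not_false_eq_true, zero_pow] at hγ
    rw [P.hT1 e d d, P.hT2 d e d] at hγ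
    have a1 := le_of_tendsto (hγ.add hβ) (b := 0) (by
      filter_upwards [hkey, hpos, h1, hγ.eventually (lt_mem_nhds (by linarith :
        0 < 3 * P.T d d e)), hρ0] with k hk hp h1k hγk h0
      have b1 : u k = (u k - u k i • e) + u k i • e := by abel
      have b2 := P.T_add (u k - u k i • e) e (u k i)
      rw [← b1] at b2
      have b3 := g_nonneg hN (u k - u k i • e) (by
        intro j
        rw [← he]
        by_cases hj : j = i
        · subst hj; simp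
        · simpa [hj] using hp j)
      have b4 := h1k i hi
      rw [b2] at hk
      generalize P.T (u k - u k i • e) (u k - u k i • e) (u k - u k i • e) = x0 at *
      generalize P.T e (u k - u k i • e) (u k - u k i • e) = x1 at *
      generalize P.T e e (u k - u k i • e) = x2 at *
      generalize P.T e e e = x3 at *
      generalize u k i = s at *
      generalize ρ k = r at *
      have b5 : 0 ≤ r * x0 := by positivity
      have b6 : 0 ≤ (r * s - 1) * (3 * x1 + s * (3 * x2) + s ^ 2 * x3) :=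
        mul_nonneg (by linarith) hγk.le
      nlinarith)
    linarith
  refine ⟨fun x => ?_, le_antisymm ?_ hB0⟩
  · rw [clm_sum]; simp [hG1]
  · apply le_of_tendsto hβ
    filter_upwards [hkey, hpos, hρ0] with k hk hp h0
    have := mul_nonneg h0.le (g_nonneg hN _ hp)
    linarith

end H13Ray
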