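import Mathlib
import Pool.Agent.Lib.helper13.RayA

set_option autoImplicit false

open Filter Topology

namespace H13Ray

variable {ι : Type} [Fintype ι] [DecidableEq ι]

noncomputable def qf (Q : (ι → ℝ) →L[ℝ] (ι → ℝ) →L[ℝ] ℝ) (m : (ι → ℝ) →L[ℝ] ℝ) (c : ℝ)
    (x : ι → ℝ) : ℝ := 3 * Q x x + 2 * m x + c

omit [DecidableEq ι] in
lemma qf_add (Q : (ι → ℝ) →L[ℝ] (ι → ℝ) →L[ℝ] ℝ) (m : (ι → ℝ) →L[ℝ] ℝ) (c : ℝ)
    (hQ : ∀ x y, Q x y = Q y x) (x y : ι → ℝ) (t : ℝ) :
    qf Q m c (x + t • y) = qf Q m c x + t * (6 * Q y x + 2 * m y) + t ^ 2 * (3 * Q y y) := by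
  unfold qf
  simp only [map_add, map_smul, add_apply, smul_apply, smul_eq_mul]
  rw [hQ x y]
  ring

lemma K2 (Q : (ι → ℝ) →L[ℝ] (ι → ℝ) →L[ℝ] ℝ) (m : (ι → ℝ) →L[ℝ] ℝ) (c : ℝ)
    (hQ : ∀ x y, Q x y = Q y x) (hQp : ∀ x : ι → ℝ, (∀ i, 0 ≤ x i) → 0 ≤ Q x x)
    (hc : ∀ x, IsN x → 0 ≤ qf Q m c x)
    (d : ι → ℝ) (hd : ∀ i, 0 ≤ d i) (u : ℕ → ι → ℝ) (ρ : ℕ → ℝ)
    (hρ : Tendsto ρ atTop atTop) (hu : Tendsto u atTop (𝓝 d))
    (h1 : ∀ᶠ k in atTop, ∀ i, d i = 0 → ∃ n : ℕ, 1 ≤ n ∧ ρ k * u k i = n)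
    (hf : ∀ η > 0, ∀ᶠ k in atTop, qf Q m c (ρ k • u k) ≤ η * ρ k) :
    (∀ x, Q d x = 0) ∧ m d = 0 := by
  have hμ : Tendsto (fun k => (ρ k)⁻¹) atTop (𝓝 0) := hρ.inv_tendsto_atTop
  have hρ0 : ∀ᶠ k in atTop, 0 < ρ k := hρ.eventually_gt_atTop 0
  have hQ0 : Q d d = 0 := by
    apply le_antisymm _ (hQp d hd)
    have a1 := tend (fun z => Q z z) (by fun_prop) hu
    have a2 := tend (fun z => m z) (by fun_prop) hu
    beta_reduce at a1 a2
    have a3 := (((a1.const_mul 3).add (hμ.mul (a2.const_mul 2))).add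
      ((hμ.pow 2).mul_const c)).sub hμ
    have a4 := le_of_tendsto a3 (b := 0) (by
      filter_upwards [hf 1 one_pos, hρ0] with k hk h0
      unfold qf at hk
      simp only [map_smul, smul_apply, smul_eq_mul] at hk
      have e : 3 * Q (u k) (u k) + (ρ k)⁻¹ * (2 * m (u k)) + (ρ k)⁻¹ ^ 2 * c - (ρ k)⁻¹ =
          (ρ k)⁻¹ ^ 2 * (3 * (ρ k * (ρ k * Q (u k) (u k))) + 2 * (ρ k * m (u k)) + c - 1 * ρ k) := by
        field_simp
      rw [e]
      exact mul_nonpos_of_nonneg_of_nonpos (by positivity) (by linarith))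
    simp only [zero_mul, add_zero, ne_eq, OfNat.ofNat_ne_zero, not_false_eq_true, zero_pow,
      sub_zero] at a4
    linarith
  have hS : ∀ (x : ι → ℝ) (τ : ℝ), 0 < τ → (∀ t, 0 < t → t < τ → ∀ j, 0 ≤ (d + t • x) j) →
      0 ≤ Q d x := by
    intro x τ hτ hx
    have := small (2 * Q d x) (Q x x) 0 τ hτ (by
      intro t h0 h1
      have a := hQp _ (hx t h0 h1)
      simp only [map_add, map_smul, add_apply, smul_apply, smul_eq_mul] at a
      rw [hQ0, hQ x d] at a
      by_contra hh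
      push Not at hh
      nlinarith [mul_pos h0 (neg_pos.mpr hh)])
    linarith
  have hG : ∀ i, 0 ≤ Q d (Pi.single i 1) := fun i =>
    hS _ 1 one_pos (fun t h0 _ => dir_pos d hd i t h0)
  have hG0 : ∀ i, d i ≠ 0 → Q d (Pi.single i 1) = 0 := by
    intro i hi
    have := hS (-Pi.single i 1) (d i) (lt_of_le_of_ne (hd i) (Ne.symm hi))
      (fun t _ h1 => dir_neg d hd i t h1)
    rw [map_neg] at this
    linarith [hG i]
  obtain ⟨K0, hK0⟩ := bound (qf Q m c) (by unfold qf; fun_prop) 1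
  have hm0 : 0 ≤ m d := by
    by_contra hneg
    push Not at hneg
    obtain ⟨Λ, hΛ1, hΛ⟩ := dom (m d) K0 0 hneg
    obtain ⟨t, ht, δ, b1, b2, b3⟩ := dir d hd 1 one_pos Λ
    have b4 := hc _ b1
    rw [qf_add Q m c hQ, hQ0, clm_supp (Q d) d δ hG0 b3] at b4
    have b5 := (le_abs_self _).trans ((hK0 δ b2).trans (le_abs_self _))
    have b6 := hΛ t ht
    have b7 := abs_nonneg K0
    rw [abs_zero] at b6
    nlinarith
  obtain ⟨K1, hK1⟩ := bound (fun δ => 2 * m δ - 3 * Q δ δ) (by fun_prop) 1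
  have hpos : ∀ᶠ k in atTop, ∀ i, d i ≠ 0 → d i / 2 < u k i := by
    rw [eventually_all]
    intro i
    by_cases hi : d i = 0
    · simp [hi]
    · have h2 : Tendsto (fun k => u k i) atTop (𝓝 (d i)) := tendsto_pi_nhds.mp hu i
      have h3 : d i / 2 < d i := by have := lt_of_le_of_ne (hd i) (Ne.symm hi); linarith
      filter_upwards [h2.eventually (lt_mem_nhds h3)] with k hk _ using hk
  have hmain : 3 * ∑ i, Q d (Pi.single i 1) + m d ≤ 0 := by
    apply le_of_forall_pos_le_add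
    intro η hη
    have a1 := tend (fun z => 6 * (‖Q‖ * ‖z - d‖)) (by fun_prop) hu
    beta_reduce at a1
    have a2 := (a1.add (hμ.mul_const K1)).const_add η
    simp only [sub_self, norm_zero, mul_zero, zero_mul, add_zero] at a2
    rw [zero_add]
    apply ge_of_tendsto a2
    filter_upwards [hf η hη, hρ0, h1, hpos] with k hk h0 h1k hp
    generalize u k = w at *
    generalize ρ k = r at *
    have hx0 : ∀ i, 0 ≤ (r • w - (r / 2) • d) i := by
      intro i
      simp only [Pi.sub_apply, Pi.smul_apply, smul_eq_mul]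
      by_cases hi : d i = 0
      · obtain ⟨n, _, hn⟩ := h1k i hi
        rw [hi, hn]; simp
      · have := hp i hi
        nlinarith
    have hδ : ∃ δ : ι → ℝ, ‖δ‖ ≤ 1 ∧ (∀ i, d i = 0 → δ i = 0) ∧
        IsN ((r • w - (r / 2) • d) + (-1 : ℝ) • δ) := by
      refine ⟨fun i => (r • w - (r / 2) • d) i - ⌊(r • w - (r / 2) • d) i⌋₊, ?_, ?_, ?_⟩
      · rw [pi_norm_le_iff_of_nonneg zero_le_one]
        intro i
        have b1 := Nat.floor_le (hx0 i)
        have b2 := Nat.lt_floor_add_one ((r • w - (r / 2) • d) i)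
        rw [Real.norm_eq_abs, abs_le]
        constructor <;> linarith
      · intro i hi
        obtain ⟨n, _, hn⟩ := h1k i hi
        simp [hi, hn]
      · intro i
        exact ⟨⌊(r • w - (r / 2) • d) i⌋₊, by simp⟩
    obtain ⟨δ, b1, b2, b3⟩ := hδ
    have b4 := hc _ b3
    rw [qf_add Q m c hQ] at b4
    have b5 : r • w = (r • w - (r / 2) • d) + (r / 2) • d := by abel
    rw [b5, qf_add Q m c hQ, hQ0] at hk
    have b6 : Q d δ = 0 := clm_supp (Q d) d δ hG0 b2
    have b7 : Q δ (r • w - (r / 2) • d) = r * Q (w - d) δ := by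
      simp only [map_sub, map_smul, smul_eq_mul, sub_apply]
      rw [hQ δ w, hQ δ d, b6]; ring
    have b8 : |Q (w - d) δ| ≤ ‖Q‖ * ‖w - d‖ := by
      have := Q.le_opNorm₂ (w - d) δ
      rw [Real.norm_eq_abs] at this
      refine this.trans ?_
      exact mul_le_of_le_one_right (by positivity) b1
    have b9 : ∑ i, Q d (Pi.single i 1) ≤ Q d (r • w - (r / 2) • d) := by
      rw [map_sub, map_smul (Q d) (r / 2), hQ0, smul_zero, sub_zero, clm_sum (Q d) (r • w)]
      apply Finset.sum_le_sum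
      intro i _
      by_cases hi : d i = 0
      · obtain ⟨n, hn1, hn⟩ := h1k i hi
        simp only [Pi.smul_apply, smul_eq_mul]
        rw [hn]
        have : (1 : ℝ) ≤ n := by exact_mod_cast hn1
        nlinarith [hG i]
      · rw [hG0 i hi]; simp
    have b10 := (abs_le.mp (hK1 δ b1)).1
    have b11 := (abs_le.mp b8).1
    rw [b7] at b4
    beta_reduce at b10
    generalize ∑ i, Q d (Pi.single i 1) = G at *
    generalize Q d (r • w - (r / 2) • d) = G' at *
    generalize qf Q m c (r • w - (r / 2) • d) = q at *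
    generalize ‖Q‖ * ‖w - d‖ = s at *
    generalize Q (w - d) δ = s' at *
    have b12 : r * (3 * G + m d) ≤ r * (η + (6 * s + r⁻¹ * K1)) := by
      have e : r * (η + (6 * s + r⁻¹ * K1)) = η * r + 6 * (r * s) + K1 := by
        field_simp
        ring
      rw [e]
      have c1 : r * G ≤ r * G' := mul_le_mul_of_nonneg_left b9 h0.le
      have c2 : r * (-s) ≤ r * s' := mul_le_mul_of_nonneg_left b11 h0.le
      nlinarith
    exact le_of_mul_le_mul_left b12 h0
  have hsum : 0 ≤ ∑ i, Q d (Pi.single i 1) := Finset.sum_nonneg (fun i _ => hG i)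
  have hz : ∑ i, Q d (Pi.single i 1) = 0 := by linarith
  rw [Finset.sum_eq_zero_iff_of_nonneg (fun i _ => hG i)] at hz
  refine ⟨fun x => ?_, by linarith⟩
  rw [clm_sum]
  simp [fun i => hz i (Finset.mem_univ i)]

omit [DecidableEq ι] in
lemma Cub.cv_shift (P : Cub ι) (v a x : ι → ℝ) (h1 : ∀ y, P.T v a y = 0) (h2 : P.B v a = 0) :
    P.cv v (x + a) = P.cv v x := by
  unfold Cub.cv
  simp only [map_add, add_apply]
  rw [h1, h1, P.hT2 v x a, h1, h2]; ring

omit [DecidableEq ι] in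
lemma Cub.f_shift (P : Cub ι) (a x : ι → ℝ) (h1 : ∀ y, P.T a a y = 0) (h2 : P.B a a = 0) :
    P.f (x + a) = P.f x + P.cv a (x + a) := by
  have := P.f_add x a 1
  rw [one_smul, h1, h1, h2] at this
  rw [this, P.cv_shift a a x h1 h2]; ring

omit [DecidableEq ι] in
lemma Cub.cv_lin (P : Cub ι) (a v x : ι → ℝ) (t : ℝ) :
    P.cv (a + t • v) x = P.cv a x + t * P.cv v x := by
  unfold Cub.cv
  simp only [map_add, map_smul, add_apply, smul_apply, smul_eq_mul]
  ring

theorem core_ind {P : Cub ι} (hN : NoRay P) : ∀ (n : ℕ) (J F : Finset ι) (D : Submodule ℝ (ι → ℝ))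
    (p v r : ℕ → ι → ℝ), Jᶜ.card ≤ n →
    (∀ a ∈ D, ∀ b ∈ D, (∀ x, P.T a b x = 0) ∧ P.B a b = 0) →
    (∀ a ∈ D, ∀ i, i ∉ F → a i = 0) →
    (∀ k i, ∃ n : ℕ, 1 ≤ n ∧ p k i = n) → Tendsto (fun k => P.f (p k)) atTop atBot →
    (∀ k, p k = r k + v k) → (∀ k, v k ∈ D) → (∀ k, ∀ j ∈ J, r k j = 0) →
    (∀ L : ℝ, ∀ᶠ k in atTop, ∀ i ∈ F, L * (1 + ‖r k‖) ≤ v k i) → False := by
  intro n
  induction n using Nat.strong_induction_on with
  | _ n ih =>
  intro J F D p v r hcard hD hF hp hf hpv hv hJ hL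
  have hpN : ∀ k, IsN (p k) := fun k i => (hp k i).imp fun _ h => h.2
  have hnn : ∀ a ∈ D, (∀ i ∈ F, 0 ≤ a i) → ∀ i, 0 ≤ a i := by
    intro a ha h i
    by_cases hi : i ∈ F
    · exact h i hi
    · exact (hF a ha i hi).ge
  have hcv : ∀ a ∈ D, (∀ i ∈ F, 0 ≤ a i) → ∀ x, IsN x → 0 ≤ P.cv a x := fun a ha h =>
    cv_nonneg hN a (hnn a ha h) (hD a ha a ha).1 (hD a ha a ha).2
  by_cases hr : Tendsto (fun k => ‖r k‖) atTop atTop
  swap
  · rw [tendsto_atTop] at hr
    push Not at hr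
    obtain ⟨R, hR⟩ := hr
    obtain ⟨K, hK⟩ := bound P.f P.cont_f R
    have h1 := hR.and_eventually ((hL 0).and (hf.eventually_lt_atBot (-K)))
    obtain ⟨k, h2, h3, h4⟩ := h1.exists
    have h5 := hcv (v k) (hv k) (fun i hi => by simpa using h3 i hi) (p k) (hpN k)
    have h6 := P.f_shift (v k) (r k) (hD _ (hv k) _ (hv k)).1 (hD _ (hv k) _ (hv k)).2
    rw [← hpv k] at h6
    have h7 := (abs_le.mp (hK (r k) h2.le)).1
    linarith
  -- pass to a subsequence along which the direction of r converges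
  have hb : ∀ k, ‖r k‖⁻¹ • r k ∈ Metric.closedBall (0 : ι → ℝ) 1 := by
    intro k
    rw [mem_closedBall_zero_iff, norm_smul, norm_inv, norm_norm]
    exact inv_mul_le_one
  obtain ⟨e, _, φ, hφ, he⟩ := tendsto_subseq_of_bounded Metric.isBounded_closedBall hb
  have hφ' := hφ.tendsto_atTop
  replace hr : Tendsto (fun k => ‖r (φ k)‖) atTop atTop := hr.comp hφ'
  replace hf : Tendsto (fun k => P.f (p (φ k))) atTop atBot := hf.comp hφ'
  replace hL : ∀ L : ℝ, ∀ᶠ k in atTop, ∀ i ∈ F, L * (1 + ‖r (φ k)‖) ≤ v (φ k) i :=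
    fun L => hφ'.eventually (hL L)
  replace he : Tendsto (fun k => ‖r (φ k)‖⁻¹ • r (φ k)) atTop (𝓝 e) := he
  replace hp := fun k => hp (φ k)
  replace hpN := fun k => hpN (φ k)
  replace hpv := fun k => hpv (φ k)
  replace hv := fun k => hv (φ k)
  replace hJ := fun k => hJ (φ k)
  clear hb
  obtain ⟨p', hp'⟩ : ∃ p' : ℕ → ι → ℝ, ∀ k, p (φ k) = p' k := ⟨_, fun _ => rfl⟩
  obtain ⟨v', hv'⟩ : ∃ v' : ℕ → ι → ℝ, ∀ k, v (φ k) = v' k := ⟨_, fun _ => rfl⟩
  obtain ⟨r', hr'⟩ : ∃ r' : ℕ → ι → ℝ, ∀ k, r (φ k) = r' k := ⟨_, fun _ => rfl⟩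
  simp only [hp', hv', hr'] at hr hf hL he hp hpN hpv hv hJ
  clear hp' hv' hr' p v r hφ hφ' φ
  rename' p' => p, v' => v, r' => r
  obtain ⟨ρ, hρ⟩ : ∃ ρ : ℕ → ℝ, ∀ k, ‖r k‖ = ρ k := ⟨_, fun _ => rfl⟩
  obtain ⟨s, hs⟩ : ∃ s : ℕ → ι → ℝ, ∀ k, ‖r k‖⁻¹ • r k = s k := ⟨_, fun _ => rfl⟩
  simp only [hs] at he
  simp only [hρ] at hr hL hs
  have hρ1 : ∀ᶠ k in atTop, 1 ≤ ρ k := hr.eventually_ge_atTop 1
  have hrs : ∀ᶠ k in atTop, r k = ρ k • s k := by
    filter_upwards [hρ1] with k hk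
    rw [← hs, smul_smul, mul_inv_cancel₀ (by linarith), one_smul]
  have hei : ∀ i, Tendsto (fun k => s k i) atTop (𝓝 (e i)) := tendsto_pi_nhds.mp he
  have he1 : ‖e‖ = 1 := by
    refine tendsto_nhds_unique he.norm (tendsto_const_nhds.congr' ?_)
    filter_upwards [hρ1] with k hk
    rw [← hs, norm_smul, norm_inv, hρ, Real.norm_eq_abs, abs_of_pos (by linarith),
      inv_mul_cancel₀ (by linarith)]
  obtain ⟨j, hj⟩ : ∃ j, e j ≠ 0 := by
    by_contra hh
    push Not at hh
    have : e = 0 := funext hh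
    rw [this, norm_zero] at he1
    exact zero_ne_one he1
  have heJ : ∀ i ∈ J, e i = 0 := by
    intro i hi
    refine tendsto_nhds_unique (hei i) (tendsto_const_nhds.congr fun k => ?_)
    rw [← hs]; simp [hJ k i hi]
  have hjJ : j ∉ J := fun h => hj (heJ j h)
  have hrp : ∀ k i, i ∉ F → r k i = p k i := by
    intro k i hi
    rw [hpv k, Pi.add_apply, hF _ (hv k) i hi, add_zero]
  have heF : ∀ i, i ∉ F → 0 ≤ e i := by
    intro i hi
    apply ge_of_tendsto (hei i)
    filter_upwards [hρ1] with k hk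
    rw [← hs, Pi.smul_apply, smul_eq_mul, hrp k i hi]
    obtain ⟨n, _, hn⟩ := hp k i
    rw [hn]; positivity
  -- an element of D that is at least 2 on F
  obtain ⟨w, hwD, hw⟩ : ∃ w ∈ D, ∀ i ∈ F, 2 ≤ w i := by
    obtain ⟨k, hk, hk1⟩ := ((hL 1).and hρ1).exists
    exact ⟨v k, hv k, fun i hi => by have := hk i hi; linarith⟩
  have hele : ∀ i, |e i| ≤ 1 := fun i => by
    have := norm_le_pi_norm e i
    rwa [he1] at this
  have hdF : ∀ i ∈ F, 1 ≤ (w + e) i := by
    intro i hi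
    have := hw i hi
    have := (abs_le.mp (hele i)).1
    simp only [Pi.add_apply]; linarith
  have hdF' : ∀ i, i ∉ F → (w + e) i = e i := by
    intro i hi
    rw [Pi.add_apply, hF w hwD i hi, zero_add]
  have hd : ∀ i, 0 ≤ (w + e) i := by
    intro i
    by_cases hi : i ∈ F
    · linarith [hdF i hi]
    · rw [hdF' i hi]; exact heF i hi
  have hu : Tendsto (fun k => w + s k) atTop (𝓝 (w + e)) := he.const_add w
  have haD : ∀ k, v k - ρ k • w ∈ D := fun k => D.sub_mem (hv k) (D.smul_mem _ hwD)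
  have hdec : ∀ᶠ k in atTop, p k = ρ k • (w + s k) + (v k - ρ k • w) := by
    filter_upwards [hrs] with k hk
    rw [hpv k, hk, smul_add]; abel
  have h1 : ∀ᶠ k in atTop, ∀ i, (w + e) i = 0 → ∃ n : ℕ, 1 ≤ n ∧ ρ k * (w + s k) i = n := by
    filter_upwards [hrs] with k hk i hi
    have hiF : i ∉ F := fun h => by linarith [hdF i h]
    obtain ⟨n, hn1, hn⟩ := hp k i
    refine ⟨n, hn1, ?_⟩
    rw [← hn, ← hrp k i hiF, hk, Pi.add_apply, hF w hwD i hiF]; simp
  have hpos : ∀ᶠ k in atTop, ∀ i, 0 ≤ (w + s k) i := by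
    rw [eventually_all]
    intro i
    by_cases hi : (w + e) i = 0
    · filter_upwards [h1, hρ1] with k hk hk1
      obtain ⟨n, _, hn⟩ := hk i hi
      have : 0 ≤ ρ k * (w + s k) i := by rw [hn]; positivity
      exact nonneg_of_mul_nonneg_right (by rwa [mul_comm] at this) (by linarith) |> fun h => h
    · have h2 : Tendsto (fun k => (w + s k) i) atTop (𝓝 ((w + e) i)) := tendsto_pi_nhds.mp hu i
      filter_upwards [h2.eventually (lt_mem_nhds (lt_of_le_of_ne (hd i) (Ne.symm hi)))] with k hk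
      exact hk.le
  have hbig : ∀ z : ι → ℝ, ∀ᶠ k in atTop, ∀ i ∈ F, 0 ≤ (v k - ρ k • z) i := by
    intro z
    filter_upwards [hL ‖z‖, hρ1] with k hk hk1 i hi
    have a1 := hk i hi
    have a2 := (abs_le.mp (norm_le_pi_norm z i)).2
    have a3 := norm_nonneg z
    simp only [Pi.sub_apply, Pi.smul_apply, smul_eq_mul]
    nlinarith
  have hsplit : ∀ᶠ k in atTop,
      P.f (p k) = P.f (ρ k • (w + s k)) + P.cv (v k - ρ k • w) (p k) := by
    filter_upwards [hdec] with k hk
    have := P.f_shift (v k - ρ k • w) (ρ k • (w + s k)) (hD _ (haD k) _ (haD k)).1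
      (hD _ (haD k) _ (haD k)).2
    rwa [← hk] at this
  obtain ⟨hK1, hK1'⟩ := K1 hN (w + e) hd (fun k => w + s k) ρ hr hu hpos
    (by filter_upwards [h1] with k hk i hi
        obtain ⟨n, hn1, hn⟩ := hk i hi
        rw [hn]; exact_mod_cast hn1)
    (by filter_upwards [hsplit, hbig w, hf.eventually_le_atBot 0] with k hk hk1 hk2
        have := hcv _ (haD k) hk1 _ (hpN k)
        linarith)
  obtain ⟨K, hKpos, hK⟩ : ∃ K > 0, ∀ᶠ k in atTop, -K * ρ k ^ 2 ≤ P.f (ρ k • (w + s k)) := by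
    obtain ⟨K1, hK1⟩ := bound (fun z => P.B z z) (by fun_prop) (‖w + e‖ + 1)
    obtain ⟨K2, hK2⟩ := bound (fun z => P.l z) (by fun_prop) (‖w + e‖ + 1)
    refine ⟨|K1| + |K2| + |P.c| + 1, by positivity, ?_⟩
    filter_upwards [hpos, hρ1, hu.norm.eventually (gt_mem_nhds (lt_add_one ‖w + e‖))] with k a1 a2 a3
    rw [P.f_smul]
    have b1 := g_nonneg hN _ a1
    have b2 := (abs_le.mp ((hK1 _ a3.le).trans (le_abs_self _))).1
    have b3 := (abs_le.mp ((hK2 _ a3.le).trans (le_abs_self _))).1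
    have b4 := neg_abs_le P.c
    have b5 := abs_nonneg K1
    have b6 := abs_nonneg K2
    have b7 := abs_nonneg P.c
    beta_reduce at b2 b3
    generalize P.T (w + s k) (w + s k) (w + s k) = x3 at *
    generalize P.B (w + s k) (w + s k) = x2 at *
    generalize P.l (w + s k) = x1 at *
    generalize |K1| = k1 at *
    generalize |K2| = k2 at *
    generalize |P.c| = k3 at *
    generalize ρ k = t at *
    have t2 : 1 ≤ t ^ 2 := by nlinarith
    have t3 : t ≤ t ^ 2 := by nlinarith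
    have c1 : 0 ≤ t ^ 3 * x3 := by positivity
    have c2 : t ^ 2 * (-k1) ≤ t ^ 2 * x2 := by nlinarith
    have c3 : t * (-k2) ≤ t * x1 := by nlinarith
    have c4 : t * k2 ≤ t ^ 2 * k2 := by nlinarith
    have c5 : k3 ≤ t ^ 2 * k3 := by nlinarith
    nlinarith
  have hK2 : ∀ a ∈ D, (∀ i ∈ F, 0 ≤ a i) → (∀ x, P.T a (w + e) x = 0) ∧ P.B a (w + e) = 0 := by
    intro a ha ha0
    apply K2 (P.T a) (P.B a) (P.l a) (P.hT2 a) _ (hcv a ha ha0) (w + e) hd (fun k => w + s k) ρ hr
      hu h1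
    · intro η hη
      filter_upwards [hsplit, hbig (w + (K / η) • a), hf.eventually_le_atBot 0, hK, hρ1, hdec]
        with k b1 b2 b3 b4 b5 b6
      have b7 : v k - ρ k • w = (v k - ρ k • (w + (K / η) • a)) + (ρ k * (K / η)) • a := by
        rw [smul_add, smul_smul]; abel
      have b8 := hcv _ (D.sub_mem (hv k) (D.smul_mem _ (D.add_mem hwD (D.smul_mem _ ha)))) b2 _
        (hpN k)
      rw [b7, P.cv_lin] at b1
      have b9 : P.cv a (p k) = P.cv a (ρ k • (w + s k)) := by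
        conv_lhs => rw [b6]
        exact P.cv_shift _ _ _ (hD _ ha _ (haD k)).1 (hD _ ha _ (haD k)).2
      rw [b9] at b1
      change P.cv a (ρ k • (w + s k)) ≤ η * ρ k
      generalize P.cv a (ρ k • (w + s k)) = c at *
      have b10 : ρ k * (K / η) * c ≤ K * ρ k ^ 2 := by linarith
      have b11 : K * ρ k ^ 2 = ρ k * (K / η) * (η * ρ k) := by field_simp
      rw [b11] at b10
      exact le_of_mul_le_mul_left b10 (by positivity)
    · intro x hx
      by_contra hneg
      push Not at hneg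
      obtain ⟨Λ, hΛ1, hΛ⟩ := dom (P.T a x x) (P.T x x x) 0 hneg
      have b1 := g_nonneg hN (x + Λ • a) (fun i => by
        have := hnn a ha ha0 i
        have := hx i
        simp only [Pi.add_apply, Pi.smul_apply, smul_eq_mul]; positivity)
      rw [P.T_add, (hD a ha a ha).1, (hD a ha a ha).1] at b1
      have b2 := hΛ Λ le_rfl
      have b3 := le_abs_self (P.T x x x)
      have b4 := abs_nonneg (P.T x x x)
      rw [abs_zero] at b2
      linarith
  have hK3 : ∀ a ∈ D, (∀ x, P.T a (w + e) x = 0) ∧ P.B a (w + e) = 0 := by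
    intro a ha
    have b1 := hK2 w hwD (fun i hi => by linarith [hw i hi])
    have b2 := hK2 (a + ‖a‖ • w) (D.add_mem ha (D.smul_mem _ hwD)) (fun i hi => by
      have c1 := hw i hi
      have c2 := (abs_le.mp (norm_le_pi_norm a i)).1
      have c3 := norm_nonneg a
      simp only [Pi.add_apply, Pi.smul_apply, smul_eq_mul]
      nlinarith)
    generalize w + e = d at *
    simp only [map_add, map_smul, add_apply, smul_apply, smul_eq_mul, b1.1, b1.2, mul_zero,
      add_zero] at b2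
    exact b2
  -- the new state
  have hsj : Tendsto (fun k => s k j / e j) atTop (𝓝 1) := by
    have := (hei j).div_const (e j)
    rwa [div_self hj] at this
  have hσ : Tendsto (fun k => ‖s k - (s k j / e j) • e‖) atTop (𝓝 0) := by
    have := (he.sub (hsj.smul_const e)).norm
    simpa using this
  refine ih (insert j J)ᶜ.card ?_ (insert j J) (F ∪ Finset.univ.filter (fun i => e i ≠ 0))
    (D ⊔ Submodule.span ℝ {w + e}) p (fun k => v k + (r k j / e j) • e)
    (fun k => r k - (r k j / e j) • e) le_rfl ?_ ?_ hp hf ?_ ?_ ?_ ?_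
  · refine lt_of_lt_of_le ?_ hcard
    apply Finset.card_lt_card
    rw [Finset.compl_ssubset_compl]
    exact Finset.ssubset_insert hjJ
  · intro a ha b hb
    obtain ⟨a1, ha1, a2, ha2, rfl⟩ := Submodule.mem_sup.mp ha
    obtain ⟨b1, hb1, b2, hb2, rfl⟩ := Submodule.mem_sup.mp hb
    obtain ⟨α, rfl⟩ := Submodule.mem_span_singleton.mp ha2
    obtain ⟨β, rfl⟩ := Submodule.mem_span_singleton.mp hb2
    have c1 := hD a1 ha1 b1 hb1
    have c2 := hK3 a1 ha1
    have c3 := hK3 b1 hb1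
    generalize w + e = d at *
    constructor
    · intro x
      simp only [map_add, map_smul, add_apply, smul_apply, smul_eq_mul]
      rw [c1.1, c2.1, P.hT1 d b1, c3.1, hK1]; ring
    · simp only [map_add, map_smul, add_apply, smul_apply, smul_eq_mul]
      rw [c1.2, c2.2, P.hB d b1, c3.2, hK1']; ring
  · intro a ha i hi
    simp only [Finset.mem_union, Finset.mem_filter, Finset.mem_univ, true_and, not_or,
      not_not] at hi
    obtain ⟨a1, ha1, a2, ha2, rfl⟩ := Submodule.mem_sup.mp ha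
    obtain ⟨α, rfl⟩ := Submodule.mem_span_singleton.mp ha2
    simp [hF a1 ha1 i hi.1, hF w hwD i hi.1, hi.2]
  · intro k
    rw [hpv k]; abel
  · intro k
    have : v k + (r k j / e j) • e = (v k - (r k j / e j) • w) + (r k j / e j) • (w + e) := by
      rw [smul_add]; abel
    rw [this]
    exact Submodule.add_mem_sup (D.sub_mem (hv k) (D.smul_mem _ hwD))
      (Submodule.smul_mem _ _ (Submodule.mem_span_singleton_self _))
  · intro k i hi
    rcases Finset.mem_insert.mp hi with rfl | hi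
    · simp only [Pi.sub_apply, Pi.smul_apply, smul_eq_mul]
      field_simp
      ring
    · simp [hJ k i hi, heJ i hi]
  · intro L
    have hform : ∀ᶠ k in atTop, r k j / e j = ρ k * (s k j / e j) ∧
        ‖r k - (r k j / e j) • e‖ = ρ k * ‖s k - (s k j / e j) • e‖ := by
      filter_upwards [hrs, hρ1] with k hk hk1
      have c1 : r k j / e j = ρ k * (s k j / e j) := by
        rw [hk, Pi.smul_apply, smul_eq_mul, mul_div_assoc]
      refine ⟨c1, ?_⟩
      rw [c1, hk, ← smul_smul, ← smul_sub, norm_smul, Real.norm_eq_abs, abs_of_pos (by linarith)]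
    have hall : ∀ i, ∀ᶠ k in atTop, i ∈ F ∪ Finset.univ.filter (fun i => e i ≠ 0) →
        L * (1 + ‖r k - (r k j / e j) • e‖) ≤ (v k + (r k j / e j) • e) i := by
      intro i
      by_cases hi : i ∈ F
      · filter_upwards [hform, hL (|L| + 2), hρ1, hσ.eventually (gt_mem_nhds one_pos),
          hsj.eventually (gt_mem_nhds one_lt_two), hsj.eventually (lt_mem_nhds one_pos)]
          with k c1 c2 c3 c4 c5 c6 _
        rw [c1.2, Pi.add_apply, Pi.smul_apply, smul_eq_mul, c1.1]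
        have c7 := c2 i hi
        have c8 := (abs_le.mp (hele i)).1
        have c9 := le_abs_self L
        have c10 := abs_nonneg L
        have c11 := norm_nonneg (s k - (s k j / e j) • e)
        generalize ‖s k - (s k j / e j) • e‖ = σ at *
        generalize s k j / e j = τ at *
        generalize ρ k = t at *
        have d1 : 0 ≤ t * σ := by positivity
        have d2 : t * σ ≤ t := by nlinarith
        have d3 : L * (1 + t * σ) ≤ |L| * (1 + t) := by nlinarith
        have d4 : -(t * τ) ≤ t * τ * e i := by nlinarith [mul_pos (by linarith : 0 < t) c6]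
        have d5 : t * τ ≤ 2 * t := by nlinarith
        nlinarith
      · by_cases hi2 : e i = 0
        · filter_upwards with k hk
          simp [hi, hi2] at hk
        · have hep : 0 < e i := lt_of_le_of_ne (heF i hi) (Ne.symm hi2)
          have hμ : Tendsto (fun k => (ρ k)⁻¹) atTop (𝓝 0) := hr.inv_tendsto_atTop
          have c0 := ((hμ.add hσ).const_mul L).sub (hsj.mul_const (e i))
          simp only [add_zero, mul_zero, one_mul, zero_sub] at c0
          filter_upwards [hform, hρ1, c0.eventually (gt_mem_nhds (neg_neg_of_pos hep))]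
            with k c1 c3 c4 _
          rw [c1.2, Pi.add_apply, Pi.smul_apply, smul_eq_mul, c1.1, hF _ (hv k) i hi, zero_add]
          generalize ‖s k - (s k j / e j) • e‖ = σ at *
          generalize s k j / e j = τ at *
          generalize ρ k = t at *
          have d1 : L * (1 + t * σ) = t * (L * (t⁻¹ + σ)) := by field_simp
          rw [d1, mul_assoc]
          exact mul_le_mul_of_nonneg_left (by linarith) (by linarith)
    filter_upwards [eventually_all.mpr hall] with k hk i hi using hk i hi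

theorem core {P : Cub ι} (hN : NoRay P) :
    ∃ M : ℝ, ∀ x : ι → ℝ, (∀ i, ∃ n : ℕ, 1 ≤ n ∧ x i = n) → M ≤ P.f x := by
  by_contra hh
  push Not at hh
  choose p hp hf using fun k : ℕ => hh (-(k : ℝ))
  refine core_ind hN _ ∅ ∅ ⊥ p (fun _ => 0) p le_rfl ?_ ?_ hp ?_ (by simp) (by simp) (by simp)
    (by simp)
  · intro a ha b hb
    rw [Submodule.mem_bot] at ha
    subst ha; simp
  · intro a ha i _
    rw [Submodule.mem_bot] at ha
    subst ha; rfl
  · exact tendsto_atBot_mono (fun k => (hf k).le)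
      (tendsto_neg_atTop_atBot.comp tendsto_natCast_atTop_atTop)

end H13Ray
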