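import Mathlib
import Pool.Agent.Lib.helper13.RayB

set_option autoImplicit false

open Filter Topology

namespace H13Ray

section cubic
variable {ι : Type} [Fintype ι]

def IsCubic (g : (ι → ℝ) → ℝ) : Prop := ∃ P : Cub ι, ∀ x, g x = P.f x

lemma IsCubic.zero : IsCubic (fun _ : ι → ℝ => (0 : ℝ)) :=
  ⟨⟨0, 0, 0, 0, by simp, by simp, by simp⟩, by simp [Cub.f]⟩

set_option maxSynthPendingDepth 3 in
lemma IsCubic.add {g h : (ι → ℝ) → ℝ} (hg : IsCubic g) (hh : IsCubic h) :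
    IsCubic (fun x => g x + h x) := by
  obtain ⟨P, hP⟩ := hg
  obtain ⟨Q, hQ⟩ := hh
  refine ⟨⟨P.T + Q.T, P.B + Q.B, P.l + Q.l, P.c + Q.c, ?_, ?_, ?_⟩, ?_⟩
  · intro x y z; simp only [add_apply]; rw [P.hT1, Q.hT1]
  · intro x y z; simp only [add_apply]; rw [P.hT2, Q.hT2]
  · intro x y; simp only [add_apply]; rw [P.hB, Q.hB]
  · intro x; simp only [hP, hQ, Cub.f, add_apply]; ring

lemma IsCubic.sum {α : Type} (s : Finset α) (g : α → (ι → ℝ) → ℝ) (h : ∀ a ∈ s, IsCubic (g a)) :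
    IsCubic (fun x => ∑ a ∈ s, g a x) := by
  classical
  induction s using Finset.induction_on with
  | empty => simpa using IsCubic.zero
  | insert a s ha ih =>
    simp only [Finset.sum_insert ha]
    exact (h a (Finset.mem_insert_self _ _)).add (ih fun b hb => h b (Finset.mem_insert_of_mem hb))

noncomputable def t2 (a b : (ι → ℝ) →L[ℝ] ℝ) : (ι → ℝ) →L[ℝ] (ι → ℝ) →L[ℝ] ℝ := a.smulRight b

noncomputable def t3 (a b c : (ι → ℝ) →L[ℝ] ℝ) :
    (ι → ℝ) →L[ℝ] (ι → ℝ) →L[ℝ] (ι → ℝ) →L[ℝ] ℝ := a.smulRight (t2 b c)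

lemma t2_apply (a b : (ι → ℝ) →L[ℝ] ℝ) (x y : ι → ℝ) : t2 a b x y = a x * b y := by
  simp [t2]

lemma t3_apply (a b c : (ι → ℝ) →L[ℝ] ℝ) (x y z : ι → ℝ) :
    t3 a b c x y z = a x * (b y * c z) := by
  simp [t3, t2]

set_option maxSynthPendingDepth 3 in
lemma IsCubic.prod3 (k c1 c2 c3 : ℝ) (a1 a2 a3 : (ι → ℝ) →L[ℝ] ℝ) :
    IsCubic (fun x => k * ((c1 + a1 x) * ((c2 + a2 x) * (c3 + a3 x)))) := by
  refine ⟨⟨(k / 6) • (t3 a1 a2 a3 + t3 a1 a3 a2 + t3 a2 a1 a3 + t3 a2 a3 a1 + t3 a3 a1 a2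
      + t3 a3 a2 a1),
    (k / 2) • (c1 • (t2 a2 a3 + t2 a3 a2) + c2 • (t2 a1 a3 + t2 a3 a1) + c3 • (t2 a1 a2 + t2 a2 a1)),
    k • ((c1 * c2) • a3 + (c1 * c3) • a2 + (c2 * c3) • a1), k * (c1 * c2 * c3), ?_, ?_, ?_⟩, ?_⟩
  · intro x y z; simp only [add_apply, smul_apply, t3_apply, smul_eq_mul]; ring
  · intro x y z; simp only [add_apply, smul_apply, t3_apply, smul_eq_mul]; ring
  · intro x y; simp only [add_apply, smul_apply, t2_apply, smul_eq_mul]; ring
  · intro x; simp only [Cub.f, add_apply, smul_apply, t2_apply, t3_apply, smul_eq_mul]; ring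

lemma isCubic_eval {n : ℕ} (f : MvPolynomial (Fin n) ℝ) (hf : f.totalDegree ≤ 3) (b : Fin n → ℝ)
    (L : Fin n → (ι → ℝ) →L[ℝ] ℝ) :
    IsCubic (fun x => MvPolynomial.eval (fun j => b j + L j x) f) := by
  simp only [MvPolynomial.eval_eq]
  apply IsCubic.sum
  intro s hs
  have h1 : Multiset.card (Finsupp.toMultiset s) ≤ 3 := by
    rw [Finsupp.card_toMultiset]
    exact (MvPolynomial.le_totalDegree hs).trans hf
  have h2 : ∀ v : Fin n → ℝ, ∏ i ∈ s.support, v i ^ s i = ((Finsupp.toMultiset s).map v).prod := by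
    intro v
    rw [Finsupp.toMultiset_map, Finsupp.prod_toMultiset,
      Finsupp.prod_mapDomain_index (by simp) (by intros; rw [pow_add])]
    rfl
  simp only [h2]
  generalize Finsupp.toMultiset s = t at h1
  generalize MvPolynomial.coeff s f = k
  have h3 : t.card = 0 ∨ t.card = 1 ∨ t.card = 2 ∨ t.card = 3 := by omega
  rcases h3 with h | h | h | h
  · rw [Multiset.card_eq_zero] at h
    subst h
    simpa using IsCubic.prod3 (ι := ι) k 1 1 1 0 0 0
  · obtain ⟨i, rfl⟩ := Multiset.card_eq_one.mp h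
    simpa using IsCubic.prod3 k (b i) 1 1 (L i) 0 0
  · obtain ⟨i, j, rfl⟩ := Multiset.card_eq_two.mp h
    simpa using IsCubic.prod3 k (b i) (b j) 1 (L i) (L j) 0
  · obtain ⟨i, j, l, rfl⟩ := Multiset.card_eq_three.mp h
    simpa using IsCubic.prod3 k (b i) (b j) (b l) (L i) (L j) (L l)

end cubic

lemma common_den {κ : Type} [Fintype κ] (q : κ → ℚ) :
    ∃ D : ℕ, 0 < D ∧ ∀ k, ∃ z : ℤ, (D : ℝ) * (q k : ℝ) = z := by
  classical
  refine ⟨∏ k, (q k).den, Finset.prod_pos fun k _ => (q k).den_pos, fun k => ?_⟩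
  obtain ⟨c, hc⟩ := Finset.dvd_prod_of_mem (fun k => (q k).den) (Finset.mem_univ k)
  refine ⟨c * (q k).num, ?_⟩
  rw [hc]
  have h : ((q k).den : ℚ) * q k = (q k).num := by rw [mul_comm]; exact Rat.mul_den_eq_num _
  have h2 : ((q k).den : ℝ) * (q k : ℝ) = (q k).num := by exact_mod_cast h
  push_cast
  linear_combination (c : ℝ) * h2

def InP {m n : ℕ} (A : Matrix (Fin m) (Fin n) ℚ) (b : Fin m → ℚ) (x : Fin n → ℝ) : Prop :=
  ∀ i, ∑ j, (A i j : ℝ) * x j ≤ b i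

def IsZ {n : ℕ} (x : Fin n → ℝ) : Prop := ∀ j, ∃ z : ℤ, x j = z

lemma semilinear {m n : ℕ} (A : Matrix (Fin m) (Fin n) ℚ) (b : Fin m → ℚ) :
    IsSemilinearSet {x : Fin n → ℝ | InP A b x ∧ IsZ x} := by
  obtain ⟨D, hD, hz⟩ := common_den (κ := (Fin m × Fin n) ⊕ Fin m)
    (Sum.elim (fun ij => A ij.1 ij.2) b)
  have hD' : (0 : ℝ) < D := by exact_mod_cast hD
  let ψ : ((Fin n ⊕ Fin n ⊕ Fin m) → ℕ) →+ (Fin n → ℝ) :=
    { toFun := fun w j => (w (Sum.inl j) : ℝ) - w (Sum.inr (Sum.inl j))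
      map_zero' := by ext j; simp
      map_add' := by intro w w'; ext j; simp; ring }
  let F : ((Fin n ⊕ Fin n ⊕ Fin m) → ℕ) →+ (Fin m → ℝ) :=
    { toFun := fun w i => D * ∑ j, (A i j : ℝ) * ψ w j + w (Sum.inr (Sum.inr i))
      map_zero' := by ext i; simp
      map_add' := by
        intro w w'; ext i
        simp only [map_add, Pi.add_apply, mul_add, Finset.sum_add_distrib, Nat.cast_add]; ring }
  have h := (isSemilinearSet_setOfPred_eq (0 : Fin m → ℝ) (fun i => (D : ℝ) * b i) F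
    (0 : ((Fin n ⊕ Fin n ⊕ Fin m) → ℕ) →+ (Fin m → ℝ))).image ψ
  convert h using 1
  ext x
  simp only [Set.mem_setOf_eq, Set.mem_image, zero_add, AddMonoidHom.zero_apply, add_zero]
  constructor
  · rintro ⟨h1, h2⟩
    choose z hz' using h2
    have h3 : ∀ i, ∃ s : ℕ, (D : ℝ) * ∑ j, (A i j : ℝ) * x j + s = D * b i := by
      intro i
      obtain ⟨β, hβ⟩ := hz (Sum.inr i)
      choose α hα using fun j => hz (Sum.inl (i, j))
      simp only [Sum.elim_inl, Sum.elim_inr] at hβ hα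
      have h4 : (D : ℝ) * ∑ j, (A i j : ℝ) * x j = ((∑ j, α j * z j : ℤ) : ℝ) := by
        rw [Finset.mul_sum]; push_cast
        exact Finset.sum_congr rfl fun j _ => by rw [← hα, hz', mul_assoc]
      have h5 : ((∑ j, α j * z j : ℤ) : ℝ) ≤ β := by
        rw [← h4, ← hβ]; exact mul_le_mul_of_nonneg_left (h1 i) hD'.le
      have h6 : (∑ j, α j * z j : ℤ) ≤ β := by exact_mod_cast h5
      obtain ⟨s, hs⟩ := Int.eq_ofNat_of_zero_le (sub_nonneg.mpr h6)
      refine ⟨s, ?_⟩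
      have h8 : (β : ℝ) - ((∑ j, α j * z j : ℤ) : ℝ) = (s : ℝ) := by exact_mod_cast hs
      rw [h4, hβ, ← h8]; ring
    choose s hs using h3
    have h7 : ψ (Sum.elim (fun j => (z j).toNat) (Sum.elim (fun j => (-z j).toNat) s)) = x := by
      ext j
      have : ((z j).toNat : ℝ) - ((-z j).toNat : ℝ) = z j := by
        exact_mod_cast Int.toNat_sub_toNat_neg (z j)
      rw [hz', ← this]
      rfl
    refine ⟨_, ?_, h7⟩
    ext i
    have := hs i
    rw [← h7] at this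
    exact this
  · rintro ⟨w, h1, rfl⟩
    constructor
    · intro i
      have h2 : (D : ℝ) * ∑ j, (A i j : ℝ) * ψ w j + w (Sum.inr (Sum.inr i)) = D * b i :=
        congrFun h1 i
      have h3 : (0 : ℝ) ≤ w (Sum.inr (Sum.inr i)) := Nat.cast_nonneg _
      exact le_of_mul_le_mul_left (by linarith) hD'
    · intro j
      exact ⟨(w (Sum.inl j) : ℤ) - w (Sum.inr (Sum.inl j)), by simp [ψ]⟩

lemma piece {m n k : ℕ} (A : Matrix (Fin m) (Fin n) ℚ) (b : Fin m → ℚ)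
    (f : MvPolynomial (Fin n) ℝ) (hf : f.totalDegree ≤ 3)
    (hno : ∀ y d : Fin n → ℝ, d ≠ 0 → (∀ t : ℝ, 0 ≤ t → InP A b (y + t • d)) →
      ∃ ε > 0, ∃ M : ℝ, ∀ x, InP A b x → IsZ x → ∀ t : ℝ, 0 ≤ t → ‖x - (y + t • d)‖ ≤ ε →
        M ≤ MvPolynomial.eval x f)
    (a : Fin n → ℝ) (r : Fin k → Fin n → ℝ) (ha : InP A b a) (ha' : IsZ a)
    (hr : ∀ l i, ∑ j, (A i j : ℝ) * r l j ≤ 0) (hr' : ∀ l, IsZ (r l)) :
    ∃ M : ℝ, ∀ w : Fin k → ℝ, (∀ l, ∃ c : ℕ, 1 ≤ c ∧ w l = c) →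
      M ≤ MvPolynomial.eval (a + ∑ l, w l • r l) f := by
  let R : (Fin k → ℝ) →L[ℝ] (Fin n → ℝ) :=
    ∑ l, (ContinuousLinearMap.proj (R := ℝ) (φ := fun _ : Fin k => ℝ) l).smulRight (r l)
  have hR : ∀ w, R w = ∑ l, w l • r l := by
    intro w; simp [R]
  obtain ⟨P, hP⟩ := isCubic_eval f hf a
    (fun j => (ContinuousLinearMap.proj (R := ℝ) (φ := fun _ : Fin n => ℝ) j).comp R)
  have hP' : ∀ x, MvPolynomial.eval (a + R x) f = P.f x := fun x => by rw [← hP]; rfl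
  have hin : ∀ w : Fin k → ℝ, (∀ l, 0 ≤ w l) → InP A b (a + R w) := by
    intro w hw i
    have h1 : ∑ j, (A i j : ℝ) * (a + R w) j =
        ∑ j, (A i j : ℝ) * a j + ∑ l, w l * ∑ j, (A i j : ℝ) * r l j := by
      simp only [hR, Pi.add_apply, Finset.sum_apply, Pi.smul_apply, smul_eq_mul, mul_add,
        Finset.sum_add_distrib, Finset.mul_sum]
      rw [Finset.sum_comm]
      congr 1
      exact Finset.sum_congr rfl fun _ _ => Finset.sum_congr rfl fun _ _ => by ring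
    have h2 : ∑ l, w l * ∑ j, (A i j : ℝ) * r l j ≤ 0 :=
      Finset.sum_nonpos fun l _ => mul_nonpos_of_nonneg_of_nonpos (hw l) (hr l i)
    have := ha i
    linarith
  have hint : ∀ w : Fin k → ℝ, IsN w → IsZ (a + R w) := by
    intro w hw j
    choose c hc using hw
    choose z hz using fun l => hr' l j
    obtain ⟨z0, hz0⟩ := ha' j
    refine ⟨z0 + ∑ l, c l * z l, ?_⟩
    simp [hR, hc, hz, hz0, Finset.sum_apply]
  have hN : NoRay P := by
    intro y d hy hd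
    have hy0 : ∀ l, 0 ≤ y l := fun l => by obtain ⟨c, hc⟩ := hy l; rw [hc]; positivity
    by_cases h0 : R d = 0
    · obtain ⟨K, hK⟩ := bound (fun δ => P.f (y + δ)) (P.cont_f.comp (by fun_prop)) 1
      refine ⟨1, one_pos, -K, fun x _ t _ hx => ?_⟩
      have h1 := (abs_le.mp (hK _ hx)).1
      beta_reduce at h1
      rw [← hP'] at h1 ⊢
      have h2 : R (y + (x - (y + t • d))) = R x := by
        simp only [map_add, map_sub, map_smul, h0, smul_zero]; abel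
      rwa [h2] at h1
    · obtain ⟨ε, hε, M, hM⟩ := hno (a + R y) (R d) h0 (by
        intro t ht
        have := hin (y + t • d) (fun l => by
          have := hy0 l; have := hd l
          simp only [Pi.add_apply, Pi.smul_apply, smul_eq_mul]; positivity)
        rwa [map_add, map_smul, ← add_assoc] at this)
      refine ⟨ε / (‖R‖ + 1), by positivity, M, fun x hx t ht h1 => ?_⟩
      rw [← hP']
      apply hM _ (hin x fun l => by obtain ⟨c, hc⟩ := hx l; rw [hc]; positivity) (hint x hx) t ht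
      have h2 : a + R x - (a + R y + t • R d) = R (x - (y + t • d)) := by
        simp only [map_add, map_sub, map_smul]; abel
      rw [h2]
      refine (R.le_opNorm _).trans ?_
      rw [le_div_iff₀ (by positivity)] at h1
      nlinarith [norm_nonneg (x - (y + t • d))]
  obtain ⟨M, hM⟩ := core hN
  exact ⟨M, fun w hw => by rw [← hR, hP']; exact hM w hw⟩

theorem main {m n : ℕ} (A : Matrix (Fin m) (Fin n) ℚ) (b : Fin m → ℚ)
    (f : MvPolynomial (Fin n) ℝ) (hf : f.totalDegree ≤ 3)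
    (hno : ∀ y d : Fin n → ℝ, d ≠ 0 → (∀ t : ℝ, 0 ≤ t → InP A b (y + t • d)) →
      ∃ ε > 0, ∃ M : ℝ, ∀ x, InP A b x → IsZ x → ∀ t : ℝ, 0 ≤ t → ‖x - (y + t • d)‖ ≤ ε →
        M ≤ MvPolynomial.eval x f) :
    BddBelow ((fun x => MvPolynomial.eval x f) '' {x : Fin n → ℝ | InP A b x ∧ IsZ x}) := by
  classical
  obtain ⟨S, hS, hlin, hU⟩ := semilinear A b
  rw [hU, Set.sUnion_eq_biUnion, Set.image_iUnion₂, hS.bddBelow_biUnion]
  intro s hs
  obtain ⟨a, k, F, rfl⟩ := isLinearSet_iff_exists_fin_addMonoidHom.mp (hlin s hs)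
  have hmem : ∀ w, InP A b (a + F w) ∧ IsZ (a + F w) := by
    intro w
    have : a + F w ∈ ⋃₀ S := ⟨_, hs, ⟨F w, ⟨w, rfl⟩, rfl⟩⟩
    rwa [← hU] at this
  have ha := hmem 0
  rw [map_zero, add_zero] at ha
  have hFw : ∀ w : Fin k → ℕ, F w = ∑ l, (w l : ℝ) • F (Pi.single l 1) := by
    intro w
    conv_lhs => rw [← Finset.univ_sum_single w]
    rw [map_sum]
    apply Finset.sum_congr rfl
    intro l _
    rw [Nat.cast_smul_eq_nsmul, ← map_nsmul]
    congr 1
    ext j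
    by_cases h : j = l
    · subst h; simp
    · simp [h]
  have hr' : ∀ l, IsZ (F (Pi.single l 1)) := by
    intro l j
    obtain ⟨z1, h1⟩ := (hmem (Pi.single l 1)).2 j
    obtain ⟨z0, h0⟩ := ha.2 j
    refine ⟨z1 - z0, ?_⟩
    rw [Pi.add_apply] at h1
    push_cast; linarith
  have hr : ∀ l i, ∑ j, (A i j : ℝ) * F (Pi.single l 1) j ≤ 0 := by
    intro l i
    by_contra hpos
    push Not at hpos
    obtain ⟨c, hc⟩ := exists_nat_gt (((b i : ℝ) - ∑ j, (A i j : ℝ) * a j) /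
      ∑ j, (A i j : ℝ) * F (Pi.single l 1) j)
    rw [div_lt_iff₀ hpos] at hc
    have h1 := (hmem (c • Pi.single l 1)).1 i
    rw [map_nsmul, ← Nat.cast_smul_eq_nsmul ℝ] at h1
    simp only [Pi.add_apply, Pi.smul_apply, smul_eq_mul, mul_add, Finset.sum_add_distrib] at h1
    rw [Finset.mul_sum] at hc
    have h2 : ∑ j, (A i j : ℝ) * ((c : ℝ) * F (Pi.single l 1) j) =
        ∑ j, (c : ℝ) * ((A i j : ℝ) * F (Pi.single l 1) j) :=
      Finset.sum_congr rfl fun _ _ => by ring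
    linarith
  have hU' : ∀ U : Finset (Fin k), ∃ M : ℝ, ∀ w : Fin k → ℝ, (∀ l, ∃ c : ℕ, 1 ≤ c ∧ w l = c) →
      M ≤ MvPolynomial.eval (a + ∑ l, w l • (if l ∈ U then F (Pi.single l 1) else 0)) f := by
    intro U
    apply piece A b f hf hno a _ ha.1 ha.2
    · intro l i
      split_ifs
      · exact hr l i
      · simp
    · intro l
      split_ifs
      · exact hr' l
      · intro j; exact ⟨0, by simp⟩
  choose M hM using hU'
  obtain ⟨M0, hM0⟩ := (Set.finite_range M).bddBelow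
  refine ⟨M0, ?_⟩
  rintro _ ⟨_, ⟨_, ⟨w, rfl⟩, rfl⟩, rfl⟩
  have h1 := hM (Finset.univ.filter fun l => w l ≠ 0) (fun l => (max (w l) 1 : ℕ))
    (fun l => ⟨_, le_max_right _ _, rfl⟩)
  refine (hM0 ⟨_, rfl⟩).trans (h1.trans (le_of_eq ?_))
  simp only [vadd_eq_add]
  rw [hFw w]
  refine congrArg (fun v => MvPolynomial.eval (a + v) f) ?_
  apply Finset.sum_congr rfl
  intro l _
  by_cases h : w l = 0
  · simp [h]
  · rw [max_eq_left (by omega)]; simp [h]

end H13Ray
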