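import Mathlib

set_option autoImplicit false

/-! Reimer's rising functions with the exact edge-isoperimetric function. -/

namespace H13UC
open Finset

def e (m : ℕ) : ℕ := if m ≤ 1 then 0 else e (m / 2) + e ((m + 1) / 2) + m / 2
decreasing_by all_goals omega

theorem e_zero : e 0 = 0 := by rw [e]; simp
theorem e_one : e 1 = 0 := by rw [e]; simp

theorem e_rec (m : ℕ) : e m = e (m / 2) + e ((m + 1) / 2) + m / 2 := by
  by_cases h : m ≤ 1
  · interval_cases m <;> simp [e_zero, e_one]
  · rw [e, if_neg h]

theorem e_even (m : ℕ) : e (2 * m) = 2 * e m + m := by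
  rw [e_rec, show 2 * m / 2 = m by omega, show (2 * m + 1) / 2 = m by omega]; ring

theorem e_odd (m : ℕ) : e (2 * m + 1) = e m + e (m + 1) + m := by
  rw [e_rec, show (2 * m + 1) / 2 = m by omega, show (2 * m + 1 + 1) / 2 = m + 1 by omega]

theorem e_add : ∀ n a b : ℕ, a + b = n → b ≤ a → e a + e b + b ≤ e (a + b) := by
  intro n
  induction n using Nat.strong_induction_on with
  | _ n ih =>
    intro a b hn hb
    rcases Nat.eq_zero_or_pos b with rfl | hb0
    · simp [e_zero]
    rcases Nat.even_or_odd' a with ⟨a', rfl | rfl⟩ <;> rcases Nat.even_or_odd' b with ⟨b', rfl | rfl⟩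
    · have := ih (a' + b') (by omega) a' b' rfl (by omega)
      rw [show 2 * a' + 2 * b' = 2 * (a' + b') by ring, e_even, e_even, e_even]; omega
    · have h1 := ih (a' + b') (by omega) a' b' rfl (by omega)
      have h2 := ih (a' + (b' + 1)) (by omega) a' (b' + 1) rfl (by omega)
      rw [show 2 * a' + (2 * b' + 1) = 2 * (a' + b') + 1 by ring, e_even, e_odd, e_odd]
      rw [show a' + (b' + 1) = a' + b' + 1 from rfl] at h2; omega
    · have h1 := ih (a' + b') (by omega) a' b' rfl (by omega)
      have h2 := ih (a' + 1 + b') (by omega) (a' + 1) b' rfl (by omega)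
      rw [show 2 * a' + 1 + 2 * b' = 2 * (a' + b') + 1 by ring, e_even, e_odd, e_odd]
      rw [add_right_comm a' 1 b'] at h2; omega
    · have h1 := ih (a' + 1 + b') (by omega) (a' + 1) b' rfl (by omega)
      have h2 : e a' + e (b' + 1) + b' ≤ e (a' + b' + 1) := by
        by_cases h : b' + 1 ≤ a'
        · have := ih (a' + (b' + 1)) (by omega) a' (b' + 1) rfl h
          rw [show a' + (b' + 1) = a' + b' + 1 from rfl] at this; omega
        · have := ih (b' + 1 + a') (by omega) (b' + 1) a' rfl (by omega)
          rw [show b' + 1 + a' = a' + b' + 1 by ring] at this; omega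
      rw [show 2 * a' + 1 + (2 * b' + 1) = 2 * (a' + b' + 1) by ring, e_even, e_odd, e_odd]
      rw [add_right_comm a' 1 b'] at h1; omega

theorem e_le : ∀ k m : ℕ, 2 ^ k ≤ m → m ≤ 2 ^ (k + 1) → 2 * e m + 2 ^ (k + 1) ≤ m * (k + 2) := by
  intro k
  induction k with
  | zero =>
    intro m h1 h2
    have h3 : e 2 = 1 := by rw [e_rec]; simp [e_one]
    norm_num at h1 h2
    interval_cases m <;> simp [e_one, h3]
  | succ k ih =>
    intro m h1 h2
    rw [pow_succ] at h1
    rw [pow_succ 2 (k + 1)] at h2 ⊢
    have h3 := ih (m / 2) (by omega) (by omega)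
    have h4 := ih ((m + 1) / 2) (by omega) (by omega)
    have h5 : m / 2 * (k + 2) + (m + 1) / 2 * (k + 2) = m * (k + 2) := by
      rw [← add_mul]; congr 1; omega
    have h6 : m * (k + 1 + 2) = m * (k + 2) + m := by ring
    rw [e_rec m]; omega

def eT : List ℕ := [0, 0, 1, 2, 4, 5, 7, 9, 12, 13, 15, 17, 20, 22, 25, 28, 32, 33, 35, 37, 40, 42, 45, 48, 52, 54, 57, 60, 64, 67, 71, 75, 80, 81, 83, 85, 88, 90, 93, 96, 100, 102, 105, 108, 112, 115, 119, 123, 128, 130, 133, 136, 140, 143, 147, 151, 156, 159, 163, 167, 172, 176, 181, 186, 192, 193, 195, 197, 200, 202, 205, 208, 212, 214, 217, 220, 224, 227, 231, 235, 240, 242, 245, 248, 252, 255, 259, 263, 268, 271, 275, 279, 284, 288, 293, 298, 304, 306, 309, 312, 316, 319, 323, 327, 332, 335, 339, 343, 348, 352, 357, 362, 368, 371, 375, 379, 384, 388, 393, 398, 404, 408, 413, 418, 424, 429, 435, 441, 448]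

theorem eT_rec : ∀ m < 129, 2 ≤ m →
    eT.getD m 0 = eT.getD (m / 2) 0 + eT.getD ((m + 1) / 2) 0 + m / 2 := by decide +kernel

theorem e_eq : ∀ m < 129, e m = eT.getD m 0 := by
  intro m
  induction m using Nat.strong_induction_on with
  | _ m ih =>
    intro hm
    by_cases h : m ≤ 1
    · interval_cases m
      · rw [e_zero]; rfl
      · rw [e_one]; rfl
    · rw [e_rec, eT_rec m hm (by omega), ih _ (by omega) (by omega), ih _ (by omega) (by omega)]

variable {α : Type} [DecidableEq α]

theorem rising (T : Finset α) : ∀ G : Finset (Finset α), (∀ A ∈ G, A ⊆ T) →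
    ∃ f : Finset α → Finset α, (∀ A ∈ G, A ⊆ f A ∧ f A ⊆ T) ∧
      (∀ D, (∀ X ∈ G, X ∪ D ∈ G) → ∀ A ∈ G, D ⊆ f A → D ⊆ A) ∧
      G.card * T.card ≤ e G.card + ∑ A ∈ G, (f A).card := by
  induction T using Finset.induction_on with
  | empty =>
    intro G hG
    exact ⟨id, fun A hA => ⟨Subset.rfl, hG A hA⟩, fun D _ A _ h => h, by simp⟩
  | insert x T hx ih =>
    intro G hG
    set P := G.filter (fun A => x ∉ A ∧ insert x A ∈ G) with hP
    set N := G.filter (fun A => ¬ (x ∉ A ∧ insert x A ∈ G)) with hN
    set Q := N.image (fun A => A.erase x) with hQ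
    have mQ : ∀ B, B ∈ Q ↔ x ∉ B ∧ (B ∈ G ∨ insert x B ∈ G) := by
      intro B
      simp only [hQ, hN, mem_image, mem_filter]
      constructor
      · rintro ⟨A, ⟨hA, _⟩, rfl⟩
        refine ⟨notMem_erase x A, ?_⟩
        by_cases h : x ∈ A
        · right; rwa [insert_erase h]
        · left; rwa [erase_eq_of_notMem h]
      · rintro ⟨hB, h⟩
        by_cases h1 : insert x B ∈ G
        · exact ⟨insert x B, ⟨h1, fun h2 => h2.1 (mem_insert_self x B)⟩, erase_insert hB⟩
        · exact ⟨B, ⟨h.resolve_right h1, fun h2 => h1 h2.2⟩, erase_eq_of_notMem hB⟩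
    have hinj : Set.InjOn (fun A : Finset α => A.erase x) N := by
      intro A hA B hB hAB
      simp only [hN, coe_filter, Set.mem_ofPred_eq] at hA hB hAB
      by_cases h1 : x ∈ A <;> by_cases h2 : x ∈ B
      · rw [← insert_erase h1, hAB, insert_erase h2]
      · exfalso; apply hB.2
        rw [erase_eq_of_notMem h2] at hAB
        exact ⟨h2, by rw [← hAB, insert_erase h1]; exact hA.1⟩
      · exfalso; apply hA.2
        rw [erase_eq_of_notMem h1] at hAB
        exact ⟨h1, by rw [hAB, insert_erase h2]; exact hB.1⟩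
      · rwa [erase_eq_of_notMem h1, erase_eq_of_notMem h2] at hAB
    have sub : ∀ B, x ∉ B → (B ∈ G ∨ insert x B ∈ G) → B ⊆ T := by
      intro B hB h y hy
      have : y ∈ insert x T := by
        rcases h with h | h
        · exact hG _ h hy
        · exact hG _ h (mem_insert_of_mem hy)
      exact (mem_insert.mp this).resolve_left (fun h => hB (h ▸ hy))
    obtain ⟨fP, hP1, hP2, hP3⟩ := ih P (fun A hA => by
      rw [hP, mem_filter] at hA; exact sub A hA.2.1 (Or.inl hA.1))
    obtain ⟨fQ, hQ1, hQ2, hQ3⟩ := ih Q (fun A hA => by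
      rw [mQ] at hA; exact sub A hA.1 hA.2)
    have inQ : ∀ A ∈ G, A.erase x ∈ Q := by
      intro A hA
      rw [mQ]
      refine ⟨notMem_erase x A, ?_⟩
      by_cases h : x ∈ A
      · right; rwa [insert_erase h]
      · left; rwa [erase_eq_of_notMem h]
    refine ⟨fun A => if x ∉ A ∧ insert x A ∈ G then fP A else insert x (fQ (A.erase x)),
      fun A hA => ?_, fun D hD A hA hDA => ?_, ?_⟩
    · by_cases h : x ∉ A ∧ insert x A ∈ G
      · simp only [if_pos h]
        have := hP1 A (mem_filter.mpr ⟨hA, h⟩)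
        exact ⟨this.1, this.2.trans (subset_insert x T)⟩
      · simp only [if_neg h]
        have := hQ1 _ (inQ A hA)
        exact ⟨(subset_insert_iff).mpr this.1, insert_subset_insert x this.2⟩
    · by_cases h : x ∉ A ∧ insert x A ∈ G
      · simp only [if_pos h] at hDA
        have hAP : A ∈ P := mem_filter.mpr ⟨hA, h⟩
        have hxD : x ∉ D := fun h1 => hx ((hP1 A hAP).2 (hDA h1))
        refine hP2 D (fun X hX => ?_) A hAP hDA
        rw [hP, mem_filter] at hX ⊢
        refine ⟨hD X hX.1, by simp [hX.2.1, hxD], ?_⟩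
        rw [← insert_union]; exact hD _ hX.2.2
      · simp only [if_neg h] at hDA
        have h1 : D.erase x ⊆ A.erase x := by
          refine hQ2 (D.erase x) (fun X hX => ?_) _ (inQ A hA) (subset_insert_iff.mp hDA)
          have h2 := (mQ X).mp hX
          rcases h2.2 with h3 | h3
          · have := inQ _ (hD X h3)
            rwa [erase_union_distrib, erase_eq_of_notMem h2.1] at this
          · have := inQ _ (hD _ h3)
            rwa [erase_union_distrib, erase_insert h2.1] at this
        intro y hy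
        by_cases hyx : y = x
        · subst hyx
          by_contra hyA
          apply h
          refine ⟨hyA, ?_⟩
          have : insert y A = A ∪ D := by
            ext z
            simp only [mem_insert, mem_union]
            constructor
            · rintro (rfl | h2)
              · exact Or.inr hy
              · exact Or.inl h2
            · rintro (h2 | h2)
              · exact Or.inr h2
              · by_cases hz : z = y
                · exact Or.inl hz
                · exact Or.inr (mem_of_mem_erase (h1 (mem_erase.mpr ⟨hz, h2⟩)))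
          rw [this]; exact hD A hA
        · exact mem_of_mem_erase (h1 (mem_erase.mpr ⟨hyx, hy⟩))
    · have c1 : P.card + Q.card = G.card := by
        rw [hQ, card_image_of_injOn hinj, hP, hN, card_filter_add_card_filter_not]
      have c2 : P.card ≤ Q.card := by
        apply card_le_card
        intro B hB
        rw [hP, mem_filter] at hB
        exact (mQ B).mpr ⟨hB.2.1, Or.inl hB.1⟩
      have c3 : ∑ A ∈ G, (if x ∉ A ∧ insert x A ∈ G then fP A else insert x (fQ (A.erase x))).card
          = ∑ A ∈ P, (fP A).card + ∑ B ∈ Q, ((fQ B).card + 1) := by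
        rw [← sum_filter_add_sum_filter_not G (fun A => x ∉ A ∧ insert x A ∈ G), hQ,
          sum_image hinj]
        congr 1
        · exact sum_congr rfl (fun A hA => by rw [if_pos (mem_filter.mp hA).2])
        · refine sum_congr rfl (fun A hA => ?_)
          rw [if_neg (mem_filter.mp hA).2, card_insert_of_notMem]
          exact fun h => hx ((hQ1 _ (inQ A (mem_filter.mp hA).1)).2 h)
      have c4 := e_add _ Q.card P.card rfl c2
      rw [c3, card_insert_of_notMem hx, sum_add_distrib, ← c1, add_comm P.card Q.card]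
      simp only [sum_const, smul_eq_mul, mul_one]
      nlinarith

theorem pt (n u : ℕ) : 2 ^ n * (u + 1) ≤ 2 ^ u + 2 ^ n * n := by
  by_cases h : n ≤ u
  · obtain ⟨j, rfl⟩ := Nat.exists_eq_add_of_le h
    have : j + 1 ≤ 2 ^ j := Nat.lt_two_pow_self
    have := Nat.mul_le_mul_left (2 ^ n) this
    rw [pow_add]; nlinarith
  · exact (Nat.mul_le_mul_left (2 ^ n) (show u + 1 ≤ n by omega)).trans (Nat.le_add_left _ _)

theorem key (T : Finset α) (F : Finset (Finset α)) (hT : ∀ A ∈ F, A ⊆ T)
    (hF : ∀ A ∈ F, ∀ B ∈ F, A ∪ B ∈ F) :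
    ∃ c : Finset α → ℕ, ∑ A ∈ F, c A ≤ e F.card ∧ (T ∈ F → ∀ A ∈ F, A ≠ T → 1 ≤ c A) ∧
      ∀ S ⊆ F, ∀ k, S.card * (k + 2) ≤ ∑ A ∈ S, A.card + ∑ A ∈ S, c A + 2 ^ (k + 1) ∧
        (T ∈ F → T ∉ S → S.card * (k + 2) < ∑ A ∈ S, A.card + ∑ A ∈ S, c A + 2 ^ (k + 1)) := by
  obtain ⟨f, h1, h2, h3⟩ := rising T F hT
  have hc : ∀ A ∈ F, A.card + ((f A).card - A.card) + (T.card - (f A).card) = T.card := by
    intro A hA
    have := card_le_card (h1 A hA).1
    have := card_le_card (h1 A hA).2
    omega
  have top : T ∈ F → ∀ A ∈ F, T ⊆ f A → A = T := fun h A hA h4 =>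
    Subset.antisymm (hT A hA) (h2 T (fun X hX => hF X hX T h) A hA h4)
  refine ⟨fun A => T.card - (f A).card, ?_, fun h A hA hne => ?_, fun S hS k => ?_⟩
  · have : ∑ A ∈ F, (T.card - (f A).card) + ∑ A ∈ F, (f A).card = F.card * T.card := by
      rw [← sum_add_distrib, sum_congr rfl (fun A hA =>
        Nat.sub_add_cancel (card_le_card (h1 A hA).2))]
      simp
    show ∑ A ∈ F, (T.card - (f A).card) ≤ _
    omega
  · have := card_lt_card (ssubset_of_subset_not_subset (h1 A hA).2
      (fun h4 => hne (top h A hA h4)))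
    show 1 ≤ T.card - (f A).card
    omega
  · have vol : ∑ A ∈ S, 2 ^ ((f A).card - A.card) = (S.biUnion fun A => Icc A (f A)).card := by
      rw [card_biUnion]
      · exact sum_congr rfl (fun A hA => (card_Icc_finset (h1 A (hS hA)).1).symm)
      · intro A hA B hB hne
        refine disjoint_left.mpr (fun C hC hC' => hne ?_)
        rw [mem_Icc] at hC hC'
        exact Subset.antisymm
          (h2 A (fun X hX => hF X hX A (hS hA)) B (hS hB) (hC.1.trans hC'.2))
          (h2 B (fun X hX => hF X hX B (hS hB)) A (hS hA) (hC'.1.trans hC.2))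
    have sub : (S.biUnion fun A => Icc A (f A)) ⊆ T.powerset := by
      intro C hC
      obtain ⟨A, hA, h4⟩ := mem_biUnion.mp hC
      exact mem_powerset.mpr ((mem_Icc.mp h4).2.trans (h1 A (hS hA)).2)
    have main : 2 ^ T.card * (S.card * (k + 2)) ≤
        2 ^ T.card * (∑ A ∈ S, A.card + ∑ A ∈ S, (T.card - (f A).card)) +
          2 ^ (k + 1) * ∑ A ∈ S, 2 ^ ((f A).card - A.card) := by
      rw [← sum_add_distrib, mul_sum, mul_sum, ← sum_add_distrib, mul_left_comm,
        ← smul_eq_mul, ← sum_const]
      refine sum_le_sum (fun A hA => ?_)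
      have h4 := pt T.card ((f A).card - A.card + k + 1)
      have h5 := hc A (hS hA)
      generalize (f A).card - A.card = d at *
      generalize T.card - (f A).card = c at *
      rw [show d + k + 1 = k + 1 + d by ring, pow_add] at h4
      generalize 2 ^ T.card = p at *
      rw [← h5] at h4
      nlinarith
    have hp : 0 < 2 ^ T.card := by positivity
    constructor
    · have := card_le_card sub
      rw [card_powerset, ← vol] at this
      refine Nat.le_of_mul_le_mul_left (main.trans ?_) hp
      rw [mul_add (2 ^ T.card) _ (2 ^ (k + 1)), mul_comm (2 ^ T.card) (2 ^ (k + 1))]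
      exact Nat.add_le_add_left (Nat.mul_le_mul_left _ this) _
    · intro h hTS
      have := card_lt_card (ssubset_of_subset_not_subset sub (fun h4 => by
        obtain ⟨A, hA, h5⟩ := mem_biUnion.mp (h4 (mem_powerset_self T))
        exact hTS (top h A (hS hA) (mem_Icc.mp h5).2 ▸ hA)))
      rw [card_powerset, ← vol] at this
      refine Nat.lt_of_mul_lt_mul_left (a := 2 ^ T.card) (main.trans_lt ?_)
      rw [mul_add (2 ^ T.card) _ (2 ^ (k + 1)), mul_comm (2 ^ T.card) (2 ^ (k + 1))]
      exact Nat.add_lt_add_left (Nat.mul_lt_mul_of_pos_left this (by positivity)) _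

end H13UC
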