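import Mathlib
import Pool.Agent.Lib.helper13.Inter

set_option autoImplicit false

namespace H13Rsp

open Polynomial Finset H13Cone
open scoped Classical

/-- A word is run-sorted if it is the concatenation of nonempty increasing blocks whose
first (smallest) elements increase. -/
def RunSorted {α : Type} [LinearOrder α] (l : List α) : Prop :=
  ∃ B : List (List α), (∀ b ∈ B, b ≠ [] ∧ b.Pairwise (· < ·)) ∧
    B.Pairwise (fun b c => ∀ x ∈ b.head?, ∀ y ∈ c.head?, x < y) ∧ B.flatten = l

/-- The descent positions of a permutation of `n + 1` letters; `k : Fin n` stands for the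
position `k + 1`. -/
def des {n : ℕ} (σ : Equiv.Perm (Fin (n + 1))) : Finset (Fin n) :=
  univ.filter fun k => σ k.succ < σ k.castSucc

/-- `Q lam n` is the polynomial `Q_{n+1}(lam 1 * t, lam 2 * t, …)`. -/
noncomputable def Q (lam : ℕ → ℝ) (n : ℕ) : ℝ[X] :=
  ∑ σ ∈ univ.filter (fun σ : Equiv.Perm (Fin (n + 1)) => RunSorted (List.ofFn σ)),
    ∏ k ∈ des σ, (C (lam (k + 1)) * X)

section
variable {α : Type} [LinearOrder α]

def Gd : List α → Prop
  | [] => True
  | [_] => True
  | a :: b :: t => (b < a → ∀ y ∈ t, b < y) ∧ Gd (b :: t)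

def HM : List α → Prop
  | [] => True
  | a :: t => ∀ y ∈ t, a < y

theorem Gd_append (L : List α) (h1 : Gd L) (h2 : HM L) :
    ∀ b : List α, b.Pairwise (· < ·) → Gd (b ++ L)
  | [], _ => h1
  | [a], _ => by
    cases L with
    | nil => trivial
    | cons c t => exact ⟨fun _ => h2, h1⟩
  | a :: a' :: b, h => by
    rw [List.pairwise_cons] at h
    exact ⟨fun h' => absurd (h.1 a' (by simp)) (not_lt.2 h'.le), Gd_append L h1 h2 (a' :: b) h.2⟩

theorem of_blocks : ∀ B : List (List α), (∀ b ∈ B, b ≠ [] ∧ b.Pairwise (· < ·)) →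
    B.Pairwise (fun b c => ∀ x ∈ b.head?, ∀ y ∈ c.head?, x < y) → Gd B.flatten ∧ HM B.flatten
  | [], _, _ => ⟨trivial, trivial⟩
  | b :: B, h1, h2 => by
    rw [List.pairwise_cons] at h2
    have ih := of_blocks B (fun c hc => h1 c (List.mem_cons_of_mem _ hc)) h2.2
    have hb := h1 b (by simp)
    refine ⟨Gd_append _ ih.1 ih.2 b hb.2, ?_⟩
    cases b with
    | nil => exact absurd rfl hb.1
    | cons a b =>
      intro y hy
      rcases List.mem_append.1 hy with hy | hy
      · exact (List.pairwise_cons.1 hb.2).1 y hy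
      · obtain ⟨c, hc, hyc⟩ := List.mem_flatten.1 hy
        have hc1 := h1 c (List.mem_cons_of_mem _ hc)
        cases c with
        | nil => exact absurd rfl hc1.1
        | cons d c =>
          have := h2.1 _ hc a (by simp) d (by simp)
          rcases List.mem_cons.1 hyc with rfl | hyc
          · exact this
          · exact this.trans ((List.pairwise_cons.1 hc1.2).1 y hyc)

theorem heads_lt (a : α) (b : List α) (B : List (List α)) (h : HM (a :: b ++ B.flatten)) :
    ∀ c ∈ B, ∀ x ∈ (a :: b).head?, ∀ y ∈ c.head?, x < y := by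
  intro c hc x hx y hy
  simp only [List.head?_cons, Option.mem_def, Option.some.injEq] at hx
  subst hx
  exact h y (List.mem_append_right _ (List.mem_flatten.2 ⟨c, hc, List.mem_of_mem_head? hy⟩))

theorem to_blocks : ∀ (t : List α) (a : α), (a :: t).Nodup → Gd (a :: t) →
    ∃ (b : List α) (B : List (List α)), (a :: b).Pairwise (· < ·) ∧
      (∀ b ∈ B, b ≠ [] ∧ b.Pairwise (· < ·)) ∧
      B.Pairwise (fun b c => ∀ x ∈ b.head?, ∀ y ∈ c.head?, x < y) ∧ t = b ++ B.flatten
  | [], a, _, _ => ⟨[], [], by simp, by simp, by simp, rfl⟩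
  | c :: t, a, hn, hg => by
    rw [List.nodup_cons] at hn
    obtain ⟨b, B, h1, h2, h3, rfl⟩ := to_blocks t c hn.2 hg.2
    rcases lt_trichotomy a c with h | h | h
    · refine ⟨c :: b, B, List.pairwise_cons.2 ⟨fun y hy => ?_, h1⟩, h2, h3, rfl⟩
      rcases List.mem_cons.1 hy with rfl | hy
      · exact h
      · exact h.trans ((List.pairwise_cons.1 h1).1 y hy)
    · exact absurd (by simp [h]) hn.1
    · refine ⟨[], (c :: b) :: B, by simp, fun d hd => ?_,
        List.pairwise_cons.2 ⟨heads_lt c b B (hg.1 h), h3⟩, by simp⟩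
      rcases List.mem_cons.1 hd with rfl | hd
      · exact ⟨by simp, h1⟩
      · exact h2 d hd

theorem runSorted_iff (l : List α) (hl : l.Nodup) : RunSorted l ↔ HM l ∧ Gd l := by
  constructor
  · rintro ⟨B, h1, h2, rfl⟩
    exact (of_blocks B h1 h2).symm
  · rintro ⟨h1, h2⟩
    cases l with
    | nil => exact ⟨[], by simp, by simp, rfl⟩
    | cons a t =>
      obtain ⟨b, B, a1, a2, a3, rfl⟩ := to_blocks t a hl h2
      refine ⟨(a :: b) :: B, fun d hd => ?_, List.pairwise_cons.2 ⟨heads_lt a b B h1, a3⟩, by simp⟩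
      rcases List.mem_cons.1 hd with rfl | hd
      · exact ⟨by simp, a1⟩
      · exact a2 d hd

theorem Gd_map {β : Type} [LinearOrder β] {f : α → β} (hf : StrictMono f) :
    ∀ l : List α, Gd (l.map f) ↔ Gd l
  | [] => Iff.rfl
  | [_] => Iff.rfl
  | a :: b :: t => by
    have := Gd_map hf (b :: t)
    simp only [List.map_cons, Gd, hf.lt_iff_lt, List.forall_mem_map] at this ⊢
    rw [this]

theorem Gd_cons (a b : α) (t : List α) : Gd (a :: b :: t) ↔ (b < a → HM (b :: t)) ∧ Gd (b :: t) :=
  Iff.rfl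

theorem HM_map {β : Type} [LinearOrder β] {f : α → β} (hf : StrictMono f) :
    ∀ l : List α, HM (l.map f) ↔ HM l
  | [] => Iff.rfl
  | a :: t => by simp only [List.map_cons, HM, hf.lt_iff_lt, List.forall_mem_map]
end

theorem HM_perm {n : ℕ} (σ : Equiv.Perm (Fin (n + 1))) : HM (List.ofFn σ) ↔ σ 0 = 0 := by
  rw [List.ofFn_succ]
  simp only [HM, List.forall_mem_ofFn_iff]
  constructor
  · intro h
    obtain ⟨k, hk⟩ := σ.surjective 0
    cases k using Fin.cases with
    | zero => exact hk
    | succ k => exact absurd (hk ▸ h k) (by simp)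
  · intro h k
    rw [h, Fin.pos_iff_ne_zero, ← h]
    exact σ.injective.ne (Fin.succ_ne_zero k)

section
variable {R : Type} [CommSemiring R]

noncomputable def F (x : ℕ → R) (n : ℕ) (i : Fin (n + 1)) : R :=
  ∑ σ : Equiv.Perm (Fin (n + 1)),
    if σ 0 = i then (if Gd (List.ofFn σ) then ∏ k ∈ des σ, x (k + 1) else 0) else 0

theorem sum_F (x : ℕ → R) (n : ℕ) (c : Fin (n + 1) → R) : ∑ i, c i * F x n i =
    ∑ σ : Equiv.Perm (Fin (n + 1)),
      c (σ 0) * (if Gd (List.ofFn σ) then ∏ k ∈ des σ, x (k + 1) else 0) := by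
  simp only [F, mul_sum]
  rw [sum_comm]
  refine sum_congr rfl fun σ _ => ?_
  rw [sum_eq_single (σ 0)]
  · rw [if_pos rfl]
  · intro j _ hj; rw [if_neg hj.symm, mul_zero]
  · simp

theorem ext_succ {n : ℕ} (i : Fin (n + 1)) (σ : Equiv.Perm (Fin n)) (k : Fin n) :
    ext 0 i σ k.succ = i.succAbove (σ k) := by
  rw [← ext_succAbove 0, Fin.succAbove_zero]

theorem wt_ext (x : ℕ → R) (n : ℕ) (i : Fin (n + 2)) (σ : Equiv.Perm (Fin (n + 1))) :
    ∏ k ∈ des (ext 0 i σ), x (k + 1) =
      (if i ≤ (σ 0).castSucc then 1 else x 1) * ∏ k ∈ des σ, x (k + 1 + 1) := by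
  simp only [des, prod_filter]
  rw [Fin.prod_univ_succ]
  congr 1
  · rw [Fin.castSucc_zero, ext_at, ext_succ]
    simp only [Fin.succAbove_lt_iff_castSucc_lt]
    simp only [← not_le, ite_not, Fin.val_zero, zero_add]
  · refine prod_congr rfl fun k _ => ?_
    rw [← Fin.succ_castSucc, ext_succ, ext_succ]
    simp only [Fin.succAbove_lt_succAbove_iff, Fin.val_succ]

theorem Gd_ext (n : ℕ) (i : Fin (n + 2)) (σ : Equiv.Perm (Fin (n + 1))) :
    Gd (List.ofFn (ext 0 i σ)) ↔ (i ≤ (σ 0).castSucc ∨ σ 0 = 0) ∧ Gd (List.ofFn σ) := by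
  have e : List.ofFn (ext 0 i σ) = i :: (List.ofFn σ).map i.succAbove := by
    rw [List.ofFn_succ, ext_at, List.map_ofFn]
    simp only [ext_succ]; rfl
  have hm := Fin.strictMono_succAbove i
  rw [e, ← HM_perm, ← Gd_map hm (List.ofFn σ), ← HM_map hm (List.ofFn σ), List.ofFn_succ,
    List.map_cons, Gd_cons, Fin.succAbove_lt_iff_castSucc_lt, ← not_le, ← or_iff_not_imp_left]

theorem F_succ (x : ℕ → R) (n : ℕ) (i : Fin (n + 2)) :
    F x (n + 1) i = ∑ j : Fin (n + 1),
      (if i ≤ j.castSucc then 1 else if j = 0 then x 1 else 0) * F (fun k => x (k + 1)) n j := by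
  rw [sum_F, F, sum_perm 0, sum_eq_single i]
  · refine sum_congr rfl fun σ _ => ?_
    rw [ext_at, if_pos rfl, wt_ext, Gd_ext]
    by_cases h1 : i ≤ (σ 0).castSucc <;> by_cases h2 : σ 0 = 0 <;>
      by_cases h3 : Gd (List.ofFn σ) <;> simp only [h1, h2, h3] <;> simp
  · exact fun j _ hj => sum_eq_zero fun σ _ => by rw [ext_at, if_neg hj]
  · simp

noncomputable def f : ℕ → (ℕ → R) → ℕ → R
  | 0, _, _ => 1
  | n + 1, x, k => ∑ m ∈ range (n + 1),
      (if k ≤ m then 1 else if m = 0 then x 1 else 0) * f n (fun k => x (k + 1)) m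

theorem F_eq (n : ℕ) : ∀ (x : ℕ → R) (i : Fin (n + 1)), F x n i = f n x i := by
  induction n with
  | zero =>
    intro x i
    have : ∀ a : Fin (0 + 1), a = i := fun a => Fin.ext (by omega)
    simp [F, f, des, this, Gd]
  | succ n ih =>
    intro x i
    rw [F_succ, f, ← Fin.sum_univ_eq_sum_range
      (fun m => (if (i : ℕ) ≤ m then 1 else if m = 0 then x 1 else 0) * f n (fun k => x (k + 1)) m)]
    refine sum_congr rfl fun j _ => ?_
    rw [ih]
    simp only [Fin.le_def, Fin.val_castSucc, Fin.ext_iff, Fin.val_zero]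

theorem sum_rsp (x : ℕ → R) (n : ℕ) :
    ∑ σ ∈ univ.filter (fun σ : Equiv.Perm (Fin (n + 1)) => RunSorted (List.ofFn σ)),
      ∏ k ∈ des σ, x (k + 1) = f n x 0 := by
  rw [← Fin.val_zero (n + 1), ← F_eq, F, sum_filter]
  refine sum_congr rfl fun σ _ => ?_
  rw [runSorted_iff _ (List.nodup_ofFn.2 σ.injective), HM_perm]
  by_cases h1 : σ 0 = 0 <;> by_cases h2 : Gd (List.ofFn σ) <;> simp only [h1, h2] <;> simp
end

theorem f_win (x : ℕ → ℂ) (n k : ℕ) (hk : k ≤ n + 1) : f (n + 1) x k =
    ∑ m ∈ Icc k (if k = 0 then n else n + 1),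
      (if m ≤ n then f n (fun k => x (k + 1)) m else x 1 * f n (fun k => x (k + 1)) 0) := by
  rw [f]
  split_ifs with h
  · subst h
    rw [range_eq_Ico]
    exact sum_congr rfl fun m hm => by rw [if_pos (Nat.zero_le _), one_mul,
      if_pos (mem_Icc.1 hm).2]
  · rw [sum_Icc_succ_top hk, if_neg (by omega), sum_range_succ', if_neg (by omega), if_pos rfl]
    congr 1
    rw [sum_congr rfl fun m hm => if_pos (mem_Icc.1 hm).2]
    have : Icc k n = ((range n).filter fun m => k ≤ m + 1).map (addRightEmbedding 1) := by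
      ext m
      simp only [mem_Icc, mem_map, mem_filter, mem_range, addRightEmbedding_apply]
      exact ⟨fun h => ⟨m - 1, by omega, by omega⟩, by rintro ⟨a, h, rfl⟩; omega⟩
    rw [this, sum_map, sum_filter]
    exact sum_congr rfl fun m _ => by simp

theorem chain_f (θ : ℝ) (h0 : 0 ≤ θ) (hθ : θ < Real.pi) (n : ℕ) :
    ∀ x : ℕ → ℂ, (∀ k, HA (x (k + 1)) θ) → ∃ α : ℕ → ℝ, (∀ m ≤ n, HA (f n x m) (α m)) ∧
      (∀ k l, k ≤ l → l ≤ n → α k ≤ α l) ∧ α n ≤ α 0 + θ := by
  induction n with
  | zero => exact fun x _ => ⟨fun _ => 0, fun _ _ => HA_one, fun _ _ _ _ => le_rfl, by linarith⟩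
  | succ n ih =>
    intro x hx
    obtain ⟨α, h1, h2, h3⟩ := ih (fun k => x (k + 1)) fun k => hx (k + 1)
    obtain ⟨γ, g1, g2⟩ := win_chain (M := n + 2)
      (u := fun m => if m ≤ n then f n (fun k => x (k + 1)) m else x 1 * f n (fun k => x (k + 1)) 0)
      (β := fun m => if m ≤ n then α m else θ + α 0)
      (fun k hk => by
        split_ifs with h4
        · exact h1 k h4
        · exact (hx 0).mul (h1 0 (by omega)))
      (fun k l hkl hl => by
        split_ifs with h4 h5 h5
        · exact h2 k l hkl h5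
        · linarith [h2 k n h4 le_rfl]
        · omega
        · exact le_rfl)
      (n + 2) (fun k => k) (fun k => if k = 0 then n else n + 1)
      (fun _ _ => by split_ifs <;> omega) (fun _ _ => by split_ifs <;> omega)
      (fun k hk => by
        by_cases h4 : k = 0
        · subst h4; simp only [if_true, le_refl, Nat.zero_le]; linarith
        · simp only [h4, if_false]
          rw [if_neg (by omega)]
          split_ifs with h5
          · linarith [h2 0 k (by omega) h5]
          · linarith [Real.pi_pos])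
      (fun _ _ h _ => h) (fun _ _ h _ => by split_ifs <;> omega)
    refine ⟨γ, fun m hm => ?_, fun k l hkl hl => g2 k l hkl (by omega), ?_⟩
    · rw [f_win x n m hm]; exact (g1 m (by omega)).1
    · have a0 := (g1 0 (by omega)).2.1
      have a1 := (g1 (n + 1) (by omega)).2.2
      simp only [Nat.zero_le, if_true] at a0
      rw [if_neg (by omega : ¬ n + 1 = 0), if_neg (by omega)] at a1
      linarith

end H13Rsp
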