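import Mathlib

set_option autoImplicit false
open Finset

namespace H13SN

/-- centred indicator of a digit -/
def ph (c k z : ℕ) : ℤ := (if z = k then (c : ℤ) else 0) - 1

/-- centred count of the digit `k` among the `r` lowest base-`c` digits of `x` -/
def H (c k r x : ℕ) : ℤ := ∑ i ∈ range r, ph c k (x / c ^ i % c)

theorem ph_abs {c : ℕ} (hc : 1 ≤ c) (k z : ℕ) : |ph c k z| ≤ c := by
  unfold ph
  have : (1 : ℤ) ≤ c := by exact_mod_cast hc
  split_ifs <;> rw [abs_le] <;> constructor <;> omega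

theorem H_abs {c : ℕ} (hc : 1 ≤ c) (k r x : ℕ) : |H c k r x| ≤ r * c := by
  refine (abs_sum_le_sum_abs _ _).trans ((sum_le_sum fun i _ => ph_abs hc k _).trans ?_)
  simp

theorem H_succ (c k r x : ℕ) : H c k (r + 1) x = ph c k (x % c) + H c k r (x / c) := by
  unfold H
  rw [sum_range_succ', add_comm]
  simp only [pow_zero, Nat.div_one, pow_succ', Nat.div_div_eq_div_mul]

theorem H_add {c : ℕ} (hc : 1 ≤ c) (k r2 x : ℕ) : ∀ r1 y, y < c ^ r1 →
    H c k (r1 + r2) (y + c ^ r1 * x) = H c k r1 y + H c k r2 x := by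
  intro r1
  induction r1 with
  | zero => intro y hy; simp at hy; simp [hy, H]
  | succ r ih =>
    intro y hy
    rw [show r + 1 + r2 = (r + r2) + 1 by ring, H_succ, H_succ, pow_succ', mul_assoc,
      Nat.add_mul_mod_self_left, Nat.add_mul_div_left _ _ (by omega), ih, add_assoc]
    rw [Nat.div_lt_iff_lt_mul (by omega)]
    rwa [pow_succ] at hy

theorem sum_mul_range (f : ℕ → ℤ) (c n : ℕ) :
    ∑ w ∈ range (c * n), f w = ∑ u ∈ range n, ∑ a ∈ range c, f (a + c * u) := by
  induction n with
  | zero => simp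
  | succ n ih =>
    rw [mul_add, mul_one, sum_range_add, ih, sum_range_succ]
    simp only [add_comm]

theorem sum_ph {c k : ℕ} (hk : k < c) : ∑ a ∈ range c, ph c k a = 0 := by
  simp [ph, sum_sub_distrib, hk]

theorem sum_ph_sq {c k : ℕ} (hk : k < c) : ∑ a ∈ range c, ph c k a ^ 2 = c * (c - 1) := by
  have : ∀ a, ph c k a ^ 2 = (if a = k then (c : ℤ) * (c - 2) else 0) + 1 := by
    intro a; unfold ph; split_ifs <;> ring
  simp [this, sum_add_distrib, hk]
  ring

theorem H_step {c k : ℕ} (_hk : k < c) (r u : ℕ) {a : ℕ} (ha : a ∈ range c) :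
    H c k (r + 1) (a + c * u) = ph c k a + H c k r u := by
  have ha := mem_range.1 ha
  rw [H_succ, Nat.add_mul_mod_self_left, Nat.add_mul_div_left _ _ (by omega),
    Nat.mod_eq_of_lt ha, Nat.div_eq_of_lt ha, zero_add]

theorem sum_H {c k : ℕ} (hk : k < c) (r : ℕ) : ∑ w ∈ range (c ^ r), H c k r w = 0 := by
  induction r with
  | zero => simp [H]
  | succ r ih =>
    rw [pow_succ', sum_mul_range,
      sum_congr rfl fun u _ => sum_congr rfl fun a ha => H_step hk r u ha]
    simp [sum_add_distrib, sum_ph hk, ← mul_sum, ih]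

theorem sum_H_sq {c k : ℕ} (hk : k < c) (r : ℕ) :
    ∑ w ∈ range (c ^ r), H c k r w ^ 2 = c ^ r * r * (c - 1) := by
  induction r with
  | zero => simp [H]
  | succ r ih =>
    rw [pow_succ', sum_mul_range,
      sum_congr rfl fun u _ => sum_congr rfl fun a ha => by rw [H_step hk r u ha, add_sq]]
    simp only [sum_add_distrib, ← sum_mul, ← mul_sum, sum_ph hk, sum_ph_sq hk, sum_const,
      card_range, nsmul_eq_mul, ih]
    push_cast
    ring

theorem H_list {c k r : ℕ} (hc : 1 ≤ c) : ∀ l : List ℕ, (∀ w ∈ l, w < c ^ r) →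
    H c k (r * l.length) (Nat.ofDigits (c ^ r) l) = (l.map (H c k r)).sum := by
  intro l
  induction l with
  | nil => intro _; simp [H]
  | cons a l ih =>
    intro h
    rw [Nat.ofDigits_cons, List.length_cons, mul_add, mul_one, add_comm _ r,
      H_add hc _ _ _ _ _ (h a (by simp)), ih fun w hw => h w (by simp [hw])]
    simp

theorem ofDigits_inj {B : ℕ} : ∀ l l' : List ℕ, l.length = l'.length → (∀ w ∈ l, w < B) →
    (∀ w ∈ l', w < B) → Nat.ofDigits B l = Nat.ofDigits B l' → l = l' := by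
  intro l
  induction l with
  | nil => intro l' h _ _ _; exact (List.length_eq_zero_iff.1 h.symm).symm
  | cons a l ih =>
    intro l' h h1 h2 h3
    cases l' with
    | nil => simp at h
    | cons b l' =>
      rw [Nat.ofDigits_cons, Nat.ofDigits_cons] at h3
      have ha := h1 a (by simp)
      have hb := h2 b (by simp)
      have e1 := congrArg (· % B) h3
      have e2 := congrArg (· / B) h3
      simp only [Nat.add_mul_mod_self_left, Nat.mod_eq_of_lt ha, Nat.mod_eq_of_lt hb] at e1
      simp only [Nat.add_mul_div_left _ _ (show 0 < B by omega), Nat.div_eq_of_lt ha,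
        Nat.div_eq_of_lt hb, zero_add] at e2
      rw [e1, ih l' (by simpa using h) (fun w hw => h1 w (by simp [hw]))
        (fun w hw => h2 w (by simp [hw])) e2]

/-- balanced words with `n` symbols -/
def Bal (B n x : ℕ) : Prop := ∀ c k r, k < c → c ^ r = B → H c k (r * n) x = 0

theorem bal_perm {B : ℕ} {l : List ℕ} (hl : l.Perm (List.range B)) :
    Bal B B (Nat.ofDigits B l) := by
  intro c k r hk hB
  have h1 : l.length = B := by simpa using hl.length_eq
  have := H_list (k := k) (r := r) (show 1 ≤ c by omega) l fun w hw => by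
    rw [hB]; simpa using hl.subset hw
  rw [hB, h1] at this
  rw [this, (hl.map _).sum_eq, ← sum_H hk r, hB]
  exact (Finset.sum_list_map_count _ _).trans (by
    rw [List.toFinset_range]
    exact sum_congr rfl fun w hw => by
      rw [List.count_eq_one_of_mem List.nodup_range (by simpa using hw), one_smul])

theorem perm_words {B : ℕ} (hB : 2 ≤ B) : ∃ W : Finset ℕ, B.factorial ≤ #W ∧
    ∀ y ∈ W, y < B ^ B ∧ Bal B B y := by
  refine ⟨(List.range B).permutations.toFinset.image (Nat.ofDigits B), ?_, ?_⟩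
  · rw [card_image_of_injOn, List.toFinset_card_of_nodup
      (List.nodup_permutations _ List.nodup_range), List.length_permutations, List.length_range]
    intro l hl l' hl' h
    rw [mem_coe, List.mem_toFinset, List.mem_permutations] at hl hl'
    exact ofDigits_inj l l' (hl.length_eq.trans hl'.length_eq.symm)
      (fun w hw => by simpa using hl.subset hw) (fun w hw => by simpa using hl'.subset hw) h
  · intro y hy
    obtain ⟨l, hl, rfl⟩ := mem_image.1 hy
    rw [List.mem_toFinset, List.mem_permutations] at hl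
    refine ⟨?_, bal_perm hl⟩
    have := Nat.ofDigits_lt_base_pow_length (b := B) (l := l) (by omega)
      fun w hw => by simpa using hl.subset hw
    rwa [show l.length = B by simpa using hl.length_eq] at this

theorem top_word {B : ℕ} (hB : 2 ≤ B) : ∃ x, x + 1 < B ^ B ∧ B ^ B ≤ 2 * x ∧ Bal B B x := by
  obtain ⟨n, rfl⟩ : ∃ n, B = n + 2 := ⟨B - 2, by omega⟩
  refine ⟨Nat.ofDigits (n + 2) (List.range (n + 2)), ?_, ?_, bal_perm (List.Perm.refl _)⟩
  · rw [List.range_succ_eq_map, Nat.ofDigits_cons, pow_succ']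
    have := Nat.ofDigits_lt_base_pow_length (b := n + 2) (l := (List.range (n + 1)).map Nat.succ)
      (by omega) fun w hw => by
        obtain ⟨u, hu, rfl⟩ := List.mem_map.1 hw
        simp at hu ⊢; omega
    simp only [List.length_map, List.length_range] at this
    nlinarith
  · rw [List.range_succ, Nat.ofDigits_append, List.length_range, pow_succ]
    simp only [Nat.ofDigits_singleton]
    have : 0 < (n + 2) ^ (n + 1) := by positivity
    nlinarith [Nat.zero_le (Nat.ofDigits (n + 2) (List.range (n + 1)))]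

theorem prefixes {B : ℕ} (hB : 2 ≤ B) (s : ℕ) : ∃ W : Finset ℕ, B.factorial ^ s ≤ #W ∧
    ∀ x ∈ W, x + 1 < B ^ (B * (s + 1)) ∧ B ^ (B * (s + 1)) ≤ 2 * x ∧ Bal B (B * (s + 1)) x := by
  induction s with
  | zero =>
    obtain ⟨x, hx⟩ := top_word hB
    exact ⟨{x}, by simp, by simpa using hx⟩
  | succ s ih =>
    obtain ⟨W, h1, h2⟩ := ih
    obtain ⟨V, h3, h4⟩ := perm_words hB
    have hp : 0 < B ^ B := by positivity
    refine ⟨(V ×ˢ W).image fun p => p.1 + B ^ B * p.2, ?_, ?_⟩
    · rw [card_image_of_injOn, card_product, pow_succ']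
      · exact Nat.mul_le_mul h3 h1
      rintro ⟨y, x⟩ hy ⟨y', x'⟩ hy' h
      have ha := (h4 y (mem_product.1 hy).1).1
      have hb := (h4 y' (mem_product.1 hy').1).1
      have e1 := congrArg (· % B ^ B) h
      have e2 := congrArg (· / B ^ B) h
      simp only [Nat.add_mul_mod_self_left, Nat.mod_eq_of_lt ha, Nat.mod_eq_of_lt hb] at e1
      simp only [Nat.add_mul_div_left _ _ hp, Nat.div_eq_of_lt ha,
        Nat.div_eq_of_lt hb, zero_add] at e2
      rw [e1, e2]
    · intro z hz
      obtain ⟨⟨y, x⟩, hy, rfl⟩ := mem_image.1 hz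
      obtain ⟨a1, a2⟩ := h4 y (mem_product.1 hy).1
      obtain ⟨b1, b2, b3⟩ := h2 x (mem_product.1 hy).2
      rw [show B * (s + 1 + 1) = B + B * (s + 1) by ring, pow_add]
      refine ⟨by nlinarith, by nlinarith, fun c k r hk hc => ?_⟩
      have e : B ^ B = c ^ (r * B) := by rw [pow_mul, hc]
      rw [mul_add, e, H_add (by omega) _ _ _ _ _ (e ▸ a1), a2 c k r hk hc, b3 c k r hk hc,
        add_zero]

theorem tilt {B : ℕ} (hB : 2 ≤ B) (g : ℕ → ℕ) : ∃ y, y < B ^ (∑ w ∈ range B, g w) ∧
    ∀ c k r, k < c → c ^ r = B →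
      H c k (r * ∑ w ∈ range B, g w) y = ∑ w ∈ range B, g w * H c k r w := by
  have key : ∀ n, ∃ l : List ℕ, (∀ w ∈ l, w < n) ∧ l.length = ∑ w ∈ range n, g w ∧
      ∀ f : ℕ → ℤ, (l.map f).sum = ∑ w ∈ range n, g w * f w := by
    intro n
    induction n with
    | zero => exact ⟨[], by simp, by simp, by simp⟩
    | succ n ih =>
      obtain ⟨l, h1, h2, h3⟩ := ih
      refine ⟨l ++ List.replicate (g n) n, fun w hw => ?_, by simp [h2, sum_range_succ],
        fun f => by simp [h3, sum_range_succ]⟩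
      rcases List.mem_append.1 hw with h | h
      · exact (h1 w h).trans (Nat.lt_succ_self n)
      · rw [List.eq_of_mem_replicate h]; exact Nat.lt_succ_self n
  obtain ⟨l, h1, h2, h3⟩ := key B
  refine ⟨Nat.ofDigits B l, h2 ▸ Nat.ofDigits_lt_base_pow_length (by omega) h1,
    fun c k r hk hc => ?_⟩
  rw [← h2, ← h3, ← H_list (by omega) l (hc ▸ h1), hc]

theorem stage {B : ℕ} (hB : 2 ≤ B) (K s T : ℕ) (hT : T ≤ B.factorial ^ s) (h : ℕ → ℤ)
    (h0 : ∑ w ∈ range B, h w = 0) (hK : ∀ w, |h w| ≤ K) (σ : ℕ → ℤ) (hσ : ∀ i, |σ i| ≤ 1) :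
    ∃ a : ℕ → ℕ, (∀ i j, i < j → j < T → a i < a j) ∧ ∀ i < T,
      a i + 1 < B ^ (B * (s + 1 + K)) ∧ B ^ (B * (s + 1 + K)) ≤ 2 * a i ∧
      ∀ c k r, k < c → c ^ r = B →
        H c k (r * (B * (s + 1 + K))) (a i) = σ i * ∑ w ∈ range B, h w * H c k r w := by
  obtain ⟨W, h1, h2⟩ := prefixes hB s
  have hg : ∀ i w, (((K + σ i * h w).toNat : ℕ) : ℤ) = K + σ i * h w := fun i w => by
    refine Int.toNat_of_nonneg ?_
    have : |σ i * h w| ≤ K := by
      rw [abs_mul]; nlinarith [hσ i, hK w, abs_nonneg (σ i), abs_nonneg (h w)]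
    linarith [neg_abs_le (σ i * h w)]
  have hs : ∀ i, ∑ w ∈ range B, (K + σ i * h w).toNat = B * K := fun i => by
    zify
    simp only [hg, sum_add_distrib, ← mul_sum, h0]
    simp
  choose y hy1 hy2 using fun i => tilt hB fun w => (K + σ i * h w).toNat
  simp only [hs, hg] at hy1 hy2
  let x : ℕ → ℕ := fun i => if hi : i < #W then W.orderEmbOfFin rfl ⟨i, hi⟩ else 0
  have hx : ∀ i < T, x i ∈ W := fun i hi => by
    simp only [x, dif_pos (show i < #W by omega)]
    exact orderEmbOfFin_mem _ _ _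
  have hp : 0 < B ^ (B * K) := by positivity
  refine ⟨fun i => y i + B ^ (B * K) * x i, fun i j hij hj => ?_, fun i hi => ?_⟩
  · have : x i < x j := by
      simp only [x, dif_pos (show i < #W by omega), dif_pos (show j < #W by omega)]
      exact (W.orderEmbOfFin rfl).strictMono (by simpa using hij)
    have := hy1 i
    show y i + _ < y j + _
    nlinarith
  · obtain ⟨b1, b2, b3⟩ := h2 _ (hx i hi)
    have a1 := hy1 i
    rw [show B * (s + 1 + K) = B * K + B * (s + 1) by ring, pow_add]
    refine ⟨by nlinarith, by nlinarith, fun c k r hk hc => ?_⟩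
    have e : B ^ (B * K) = c ^ (r * (B * K)) := by rw [pow_mul c, hc]
    rw [mul_add, e, H_add (by omega) _ _ _ _ _ (e ▸ a1), b3 c k r hk hc, hy2 i c k r hk hc]
    have := sum_H hk r
    rw [hc] at this
    simp only [add_mul, sum_add_distrib, ← mul_sum, this, mul_assoc]
    ring

end H13SN
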