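import Pool.Agent.Lib.helper13.SNa

set_option autoImplicit false
open Finset Filter

namespace H13SN

theorem locate {c : ℕ → ℕ} (hc : StrictMono c) {T n : ℕ} (h : c T ≤ n) :
    ∃ t, T ≤ t ∧ c t ≤ n ∧ n < c (t + 1) := by
  have h1 : T ≤ n := (hc.id_le T).trans h
  refine ⟨Nat.findGreatest (fun t => c t ≤ n) n, Nat.le_findGreatest h1 h,
    Nat.findGreatest_spec (P := fun t => c t ≤ n) h1 h, ?_⟩
  by_contra h2
  exact absurd (Nat.le_findGreatest (P := fun t => c t ≤ n) ((hc.id_le _).trans (not_lt.1 h2))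
    (not_lt.1 h2)) (Nat.not_succ_le_self _)

/-- gluing blocks -/
theorem glue (T : ℕ → ℕ) (hT : ∀ t, 0 < T t) (A : ℕ → ℕ → ℕ) : ∃ a : ℕ → ℕ,
    ∀ t i, i < T t → a (∑ u ∈ range t, T u + i) = A t i := by
  have hc : StrictMono fun t => ∑ u ∈ range t, T u :=
    strictMono_nat_of_lt_succ fun t => by rw [sum_range_succ]; have := hT t; omega
  choose st h1 h2 h3 using fun n => locate hc (T := 0) (n := n) (by simp)
  refine ⟨fun n => A (st n) (n - ∑ u ∈ range (st n), T u), fun t i hi => ?_⟩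
  have : st (∑ u ∈ range t, T u + i) = t := by
    have a1 := h2 (∑ u ∈ range t, T u + i)
    have a2 := h3 (∑ u ∈ range t, T u + i)
    have a3 : ∑ u ∈ range t, T u + i < ∑ u ∈ range (t + 1), T u := by
      rw [sum_range_succ]; omega
    have b1 := hc.lt_iff_lt.1 (a1.trans_lt a3)
    have b2 := hc.lt_iff_lt.1 ((Nat.le_add_right _ _).trans_lt a2)
    omega
  simp only [this, Nat.add_sub_cancel_left]

theorem decomp (T : ℕ → ℕ) (hT : ∀ t, 0 < T t) (n : ℕ) :
    ∃ t i, i < T t ∧ n = ∑ u ∈ range t, T u + i := by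
  have hc : StrictMono fun t => ∑ u ∈ range t, T u :=
    strictMono_nat_of_lt_succ fun t => by rw [sum_range_succ]; have := hT t; omega
  obtain ⟨t, -, h2, h3⟩ := locate hc (T := 0) (n := n) (by simp)
  rw [sum_range_succ] at h3
  exact ⟨t, n - ∑ u ∈ range t, T u, by omega, by omega⟩

theorem len_digits {a L : ℕ} (h1 : a + 1 < 2 ^ L) (h2 : 2 ^ L ≤ 2 * a) :
    (Nat.digits 2 a).length = L := by
  cases L with
  | zero => simp at h1
  | succ L =>
    refine le_antisymm ((Nat.digits_length_le_iff (by norm_num) a).2 (by omega)) ?_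
    refine (Nat.lt_digits_length_iff (by norm_num) a).2 ?_
    rw [pow_succ] at h2; omega

theorem concat (a L : ℕ → ℕ) (h1 : ∀ n, a n + 1 < 2 ^ L n) (h2 : ∀ n, 2 ^ L n ≤ 2 * a n) :
    ∃ d : ℕ → ℕ, (∀ n r : ℕ, r < (Nat.digits 2 (a n)).length →
      d ((∑ j ∈ range n, (Nat.digits 2 (a j)).length) + r)
        = ((Nat.digits 2 (a n)).reverse).getD r 0) ∧
      ∀ n r m, r ≤ L n → m ≤ r →
        ⌊(∑' i : ℕ, (d i : ℝ) / (2 : ℝ) ^ (i + 1)) * 2 ^ (∑ j ∈ range n, L j + r)⌋ % 2 ^ m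
          = ((a n / 2 ^ (L n - r) % 2 ^ m : ℕ) : ℤ) := by
  have hl := fun n => len_digits (h1 n) (h2 n)
  have hL : ∀ n, 0 < L n := fun n => by
    by_contra h
    have := h1 n
    rw [show L n = 0 by omega] at this
    simp at this
  obtain ⟨d, hd⟩ := glue L hL fun n r => a n / 2 ^ (L n - 1 - r) % 2
  have hd1 : ∀ i, d i ≤ 1 := fun i => by
    obtain ⟨t, j, hj, rfl⟩ := decomp L hL i
    rw [hd t j hj]; omega
  refine ⟨d, fun n r hr => ?_, ?_⟩
  · simp only [hl] at hr ⊢
    rw [hd n r hr, ← Nat.getD_digits _ _ le_rfl, List.getD_eq_getElem?_getD,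
      List.getD_eq_getElem?_getD, List.getElem?_reverse (by rwa [hl]), hl]
  set ξ := ∑' i : ℕ, (d i : ℝ) / (2 : ℝ) ^ (i + 1) with hξ
  -- prefix integers
  let G : ℕ → ℕ := fun p => ∑ i ∈ range p, d i * 2 ^ (p - 1 - i)
  have Gs : ∀ p, G (p + 1) = 2 * G p + d p := fun p => by
    simp only [G]
    rw [sum_range_succ, mul_sum]
    congr 1
    · refine sum_congr rfl fun i hi => ?_
      have := mem_range.1 hi
      rw [show p + 1 - 1 - i = p - 1 - i + 1 by omega]; ring
    · simp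
  have Gb : ∀ n r, r ≤ L n → G (∑ j ∈ range n, L j + r)
      = G (∑ j ∈ range n, L j) * 2 ^ r + a n / 2 ^ (L n - r) := by
    intro n r
    induction r with
    | zero =>
      intro _
      have := h1 n
      simp [Nat.div_eq_of_lt (show a n < 2 ^ L n by omega)]
    | succ r ih =>
      intro hr
      rw [← add_assoc, Gs, ih (by omega), hd n r (by omega),
        show L n - r = L n - (r + 1) + 1 by omega, show L n - 1 - r = L n - (r + 1) by omega,
        pow_succ 2 (L n - (r + 1)), ← Nat.div_div_eq_div_mul, pow_succ]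
      have := Nat.div_add_mod (a n / 2 ^ (L n - (r + 1))) 2
      linarith
  have hsum : Summable fun i : ℕ => (d i : ℝ) / (2 : ℝ) ^ (i + 1) := by
    refine Summable.of_nonneg_of_le (fun i => by positivity) (fun i => ?_) (summable_geometric_two' 1)
    have : (d i : ℝ) ≤ 1 := by exact_mod_cast hd1 i
    rw [div_div, ← pow_succ']; gcongr
  have Gr : ∀ p, (G p : ℝ) = (∑ i ∈ range p, (d i : ℝ) / 2 ^ (i + 1)) * 2 ^ p := by
    intro p
    induction p with
    | zero => simp [G]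
    | succ p ih => rw [Gs, sum_range_succ]; push_cast; rw [ih]; field_simp; ring
  have hb : ∀ p, (G p : ℝ) ≤ ξ * 2 ^ p ∧ ξ * 2 ^ p ≤ G p + 1 := fun p => by
    have e := hsum.sum_add_tsum_nat_add p
    have t0 : 0 ≤ ∑' i : ℕ, (d (i + p) : ℝ) / (2 : ℝ) ^ (i + p + 1) :=
      tsum_nonneg fun i => by positivity
    have t1 : ∑' i : ℕ, (d (i + p) : ℝ) / (2 : ℝ) ^ (i + p + 1) ≤ 1 / 2 ^ p := by
      rw [← tsum_geometric_two' (1 / 2 ^ p)]
      refine ((summable_nat_add_iff p).2 hsum).tsum_le_tsum (fun i => ?_)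
        (summable_geometric_two' _)
      have : (d (i + p) : ℝ) ≤ 1 := by exact_mod_cast hd1 _
      rw [div_div, div_div, show (2 : ℝ) ^ p * (2 * 2 ^ i) = 2 ^ (i + p + 1) by ring]; gcongr
    have hp : (0 : ℝ) < 2 ^ p := by positivity
    rw [Gr, hξ, ← e, add_mul]
    rw [le_div_iff₀ hp] at t1
    constructor <;> nlinarith
  intro n r m hr hm
  have key : ⌊ξ * 2 ^ (∑ j ∈ range n, L j + r)⌋ = G (∑ j ∈ range n, L j + r) := by
    rw [Int.floor_eq_iff]
    refine ⟨by exact_mod_cast (hb _).1, ?_⟩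
    -- go to the end of the next word
    have e1 := (hb (∑ j ∈ range (n + 1), L j + L (n + 1))).2
    have e2 := Gb (n + 1) _ le_rfl
    have e3 := Gb n _ le_rfl
    have e4 := Gb n r hr
    rw [← sum_range_succ] at e3
    simp only [Nat.sub_self, pow_zero, Nat.div_one] at e2 e3
    have e5 : G (∑ j ∈ range (n + 1), L j + L (n + 1)) + 1
        < (G (∑ j ∈ range n, L j + r) + 1) * 2 ^ (L n - r + L (n + 1)) := by
      have f1 := h1 (n + 1)
      have f2 : a n < (a n / 2 ^ (L n - r) + 1) * 2 ^ (L n - r) := by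
        rw [← Nat.div_lt_iff_lt_mul (by positivity)]; omega
      have f3 : 2 ^ L n = 2 ^ r * 2 ^ (L n - r) := by rw [← pow_add]; congr 1; omega
      rw [e2, e3, e4, pow_add, f3]
      have f4 := Nat.mul_le_mul_right (2 ^ L (n + 1)) (Nat.succ_le_of_lt f2)
      simp only [Nat.succ_eq_add_one] at f4
      nlinarith
    have e6 : (2 : ℝ) ^ (∑ j ∈ range (n + 1), L j + L (n + 1))
        = 2 ^ (∑ j ∈ range n, L j + r) * 2 ^ (L n - r + L (n + 1)) := by
      rw [← pow_add, sum_range_succ]; congr 1; omega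
    have e7 : ((G (∑ j ∈ range (n + 1), L j + L (n + 1)) : ℕ) : ℝ) + 1
        < (G (∑ j ∈ range n, L j + r) + 1) * 2 ^ (L n - r + L (n + 1)) := by exact_mod_cast e5
    rw [e6, ← mul_assoc] at e1
    push_cast
    exact lt_of_mul_lt_mul_right (e1.trans_lt e7) (by positivity)
  rw [key, Gb n r hr, show (2 : ℕ) ^ r = 2 ^ (r - m) * 2 ^ m by rw [← pow_add]; congr 1; omega,
    ← mul_assoc, ← Nat.mul_add_mod_self_right (G (∑ j ∈ range n, L j) * 2 ^ (r - m)) (2 ^ m)]
  push_cast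
  rfl

end H13SN
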