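import Pool.Agent.Lib.helper13.SNb

set_option autoImplicit false
open Finset Filter

namespace H13SN

theorem fact_lb (M : ℕ) (hM : 2 ≤ M) : 2 ^ ((M - 2) * 2 ^ M) ≤ (2 ^ M).factorial := by
  set B := 2 ^ M with hB
  have h1 := Real.pow_div_factorial_le_exp (B : ℝ) (by positivity) B
  have h2 : Real.exp B ≤ 4 ^ B := by
    rw [← Real.exp_one_pow]
    exact pow_le_pow_left₀ (Real.exp_pos 1).le (by linarith [Real.exp_one_lt_three]) _
  rw [div_le_iff₀ (by positivity)] at h1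
  have h3 : B ^ B ≤ 4 ^ B * B.factorial := by
    have : ((B : ℝ)) ^ B ≤ 4 ^ B * B.factorial := h1.trans (by gcongr)
    exact_mod_cast this
  have h4 : B ^ B = 4 ^ B * 2 ^ ((M - 2) * B) := by
    rw [show (4 : ℕ) = 2 ^ 2 by norm_num, ← pow_mul 2 2 B, ← pow_add, ← add_mul,
      show 2 + (M - 2) = M by omega, pow_mul]
  rw [h4] at h3
  exact Nat.le_of_mul_le_mul_left h3 (by positivity)

theorem sq_le_pow (u : ℕ) (hu : 6 ≤ u) : (u + 1) ^ 2 ≤ 2 ^ u := by
  induction u, hu using Nat.le_induction with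
  | base => norm_num
  | succ u hu ih => rw [pow_succ 2 u]; nlinarith

theorem params : ∃ M s L e : ℕ → ℕ, (∀ t, 1 ≤ M t) ∧
    (∀ t, L t = M t * (2 ^ M t * (s t + 1 + 2 ^ M t * M t))) ∧ StrictMono L ∧ StrictMono e ∧
    (∀ t, L (t + 1) * 2 ^ e t ≤ (2 ^ M t).factorial ^ s t) ∧
    (∀ m, 1 ≤ m → ∀ᶠ t in atTop, m ∣ M t) ∧
    ∀ θ : ℝ, θ < 1 → ∀ᶠ t in atTop, θ * L (t + 1) ≤ e t := by
  let f : ℕ → ℕ := fun j => j.factorial * 2 ^ j.factorial * (2 + 2 ^ j.factorial * j.factorial)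
  have f3 : 6 ≤ f 3 := by simp [f, Nat.factorial]
  let J : ℕ → ℕ := fun u => Nat.findGreatest (fun j => f j ≤ u) u
  have J1 : ∀ j u, j ≤ u → f j ≤ u → j ≤ J u := fun j u h1 h2 => Nat.le_findGreatest h1 h2
  have J2 : ∀ u, f 3 ≤ u → f (J u) ≤ u := fun u hu =>
    Nat.findGreatest_spec (P := fun j => f j ≤ u) (m := 3) (by omega) hu
  have J3 : ∀ u, J u ≤ J (u + 1) := fun u =>
    Nat.findGreatest_mono (fun j (h : f j ≤ u) => h.trans (Nat.le_succ u)) (Nat.le_succ u)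
  have Jt : ∀ j, ∀ᶠ t in atTop, j ≤ J (t + f 3) := fun j =>
    (eventually_ge_atTop (j + f j)).mono fun t ht => J1 _ _ (by omega) (by omega)
  obtain ⟨M, hM⟩ : ∃ M : ℕ → ℕ, ∀ u, M u = (J u).factorial := ⟨_, fun _ => rfl⟩
  have M6 : ∀ u, f 3 ≤ u → 6 ≤ M u := fun u hu => by
    rw [hM]; exact Nat.factorial_le (J1 3 u (by omega) hu)
  have Mm : ∀ u, M u ≤ M (u + 1) := fun u => by rw [hM, hM]; exact Nat.factorial_le (J3 u)
  have Mf : ∀ u, f 3 ≤ u → M u * 2 ^ M u * (2 + 2 ^ M u * M u) ≤ u := fun u hu => by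
    rw [hM]; exact J2 u hu
  obtain ⟨L, hL⟩ : ∃ L : ℕ → ℕ, ∀ u, L u = M u * 2 ^ M u * (u ^ 2 / (M u * 2 ^ M u)) :=
    ⟨_, fun _ => rfl⟩
  have L1 : ∀ u, L u ≤ u ^ 2 := fun u => by rw [hL]; exact Nat.mul_div_le _ _
  have L2 : ∀ u, f 3 ≤ u → u ^ 2 < L u + M u * 2 ^ M u := fun u hu => by
    have := M6 u hu
    rw [hL]; exact Nat.lt_mul_div_succ _ (by positivity)
  have L3 : ∀ u, f 3 ≤ u → 1 + 2 ^ M u * M u ≤ u ^ 2 / (M u * 2 ^ M u) := fun u hu => by
    have := M6 u hu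
    have := Mf u hu
    rw [Nat.le_div_iff_mul_le (by positivity)]
    nlinarith [Nat.le_self_pow two_ne_zero u, Nat.zero_le (M u * 2 ^ M u)]
  obtain ⟨y, hy⟩ : ∃ y : ℕ → ℕ, ∀ u, y u = u - (2 * u / M u + 3) := ⟨_, fun _ => rfl⟩
  have y0 : ∀ u, f 3 ≤ u → 2 * u / M u ≤ u / 3 := fun u hu =>
    (Nat.div_le_div_left (M6 u hu) (by norm_num)).trans (by omega)
  refine ⟨fun t => M (t + f 3), fun t => (t + f 3) ^ 2 / (M (t + f 3) * 2 ^ M (t + f 3))
    - (1 + 2 ^ M (t + f 3) * M (t + f 3)), fun t => L (t + f 3),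
    fun t => (t + f 3) * y (t + f 3), fun t => le_trans (by norm_num) (M6 (t + f 3) (by omega)),
    fun t => ?_, strictMono_nat_of_lt_succ fun t => ?_, strictMono_nat_of_lt_succ fun t => ?_,
    fun t => ?_, fun m hm => (Jt m).mono fun t ht => ?_, fun θ hθ => ?_⟩
  · beta_reduce
    rw [hL, add_assoc, Nat.sub_add_cancel (L3 _ (by omega)), mul_assoc]
  · rw [show t + 1 + f 3 = t + f 3 + 1 by ring]
    generalize hu : t + f 3 = u
    have := L1 u
    have := L2 (u + 1) (by omega)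
    have := Mf (u + 1) (by omega)
    nlinarith [Nat.zero_le (M (u + 1) * 2 ^ M (u + 1) * (2 ^ M (u + 1) * M (u + 1)))]
  · rw [show t + 1 + f 3 = t + f 3 + 1 by ring]
    generalize hu : t + f 3 = u
    have a1 := y0 u (by omega)
    have a2 : 2 * (u + 1) / M (u + 1) ≤ 2 * u / M u + 1 := by
      have := M6 u (by omega)
      refine (Nat.div_le_div_left (Mm u) (by omega)).trans ?_
      rw [← Nat.add_div_right _ (by omega)]
      exact Nat.div_le_div_right (by omega)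
    have a3 : y u ≤ y (u + 1) := by rw [hy, hy]; omega
    have a4 : 1 ≤ y u := by rw [hy]; omega
    nlinarith
  · beta_reduce
    rw [show t + 1 + f 3 = t + f 3 + 1 by ring]
    generalize hu : t + f 3 = u
    have a1 := M6 u (by omega)
    have a2 := L2 u (by omega)
    have a3 := Mf u (by omega)
    have a4 := L3 u (by omega)
    have a5 := y0 u (by omega)
    refine le_trans ?_ (Nat.pow_le_pow_left (fact_lb (M u) (by omega)) _)
    rw [← pow_mul]
    refine (Nat.mul_le_mul_right _ ((L1 _).trans (sq_le_pow u (by omega)))).trans ?_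
    rw [← pow_add]
    refine Nat.pow_le_pow_right (by norm_num) (Nat.le_of_mul_le_mul_left ?_ (show 0 < M u by omega))
    rw [hL] at a2
    obtain ⟨s, hs⟩ := Nat.exists_eq_add_of_le a4
    rw [hs, Nat.add_sub_cancel_left]
    rw [hs] at a2
    have a6 : 2 * u < M u * (2 * u / M u + 1) := Nat.lt_mul_div_succ _ (by omega)
    obtain ⟨z, hz⟩ := Nat.exists_eq_add_of_le (show 2 * u / M u + 3 ≤ u by omega)
    have a7 : y u = z := by rw [hy]; omega
    rw [a7]
    generalize 2 * u / M u = w at *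
    obtain ⟨N, hN⟩ := Nat.exists_eq_add_of_le (show 2 ≤ M u by omega)
    have a8 : u ^ 2 ≤ M u * 2 ^ M u * s + u := by nlinarith
    rw [show M u - 2 = N by omega]
    generalize 2 ^ M u = B at *
    have a9 : M u * (1 + z) + N ≤ N * u := by rw [hN] at a6 ⊢; nlinarith
    have b1 := Nat.mul_le_mul_left u a9
    have b2 := Nat.mul_le_mul_left N a8
    nlinarith
  · beta_reduce
    rw [hM]; exact Nat.dvd_factorial hm ht
  · obtain ⟨N, hN⟩ := exists_nat_ge (12 / (1 - θ))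
    rw [div_le_iff₀ (by linarith)] at hN
    filter_upwards [Jt N, eventually_ge_atTop N] with t h1 h2
    rw [show t + 1 + f 3 = t + f 3 + 1 by ring]
    generalize hu : t + f 3 = u at *
    have a1 := y0 u (by omega)
    have a2 : N ≤ M u := by rw [hM]; exact h1.trans (Nat.self_le_factorial _)
    have a3 : (L (u + 1) : ℝ) ≤ (u + 1) ^ 2 := by exact_mod_cast L1 (u + 1)
    have a4 : (y u : ℝ) = u - ((2 * u / M u : ℕ) + 3) := by
      rw [hy, Nat.cast_sub (by omega)]; push_cast; ring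
    have a5 : ((2 * u / M u : ℕ) : ℝ) * N ≤ 2 * u := by
      exact_mod_cast (Nat.mul_le_mul_left _ a2).trans (Nat.div_mul_le_self _ _)
    have a6 : (N : ℝ) ≤ u := by exact_mod_cast (show N ≤ u by omega)
    have a7 : (6 : ℝ) ≤ u := by exact_mod_cast (show 6 ≤ u by omega)
    have a8 : (0 : ℝ) ≤ (2 * u / M u : ℕ) := by positivity
    have a9 : (0 : ℝ) ≤ L (u + 1) := by positivity
    have b0 : (0 : ℝ) ≤ y u := by positivity
    push_cast
    rcases le_total θ 0 with h | h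
    · nlinarith
    generalize ((2 * u / M u : ℕ) : ℝ) = w at *
    have b1 : 6 * w ≤ (1 - θ) * u := by nlinarith
    have b2 : 12 ≤ (1 - θ) * u := by nlinarith
    rw [a4]
    nlinarith [mul_le_mul_of_nonneg_left a3 h]

end H13SN
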