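import Pool.Agent.Lib.helper13.SNc

set_option autoImplicit false
open Finset Filter Real

namespace H13SN

/-- the iterated-logarithm envelope -/
noncomputable def E (x : ℝ) : ℝ := √(2 * x * log (log x))

theorem LL_mono {x y : ℝ} (hx : 1 < x) (h : x ≤ y) : log (log x) ≤ log (log y) :=
  log_le_log (log_pos hx) (log_le_log (by linarith) h)

theorem LL_top : Tendsto (fun x : ℝ => log (log x)) atTop atTop :=
  tendsto_log_atTop.comp tendsto_log_atTop

theorem LL_cmp {α δ : ℝ} (hα : 0 < α) (hδ : 0 < δ) : ∀ᶠ x : ℝ in atTop,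
    1 < α * x ∧ 1 ≤ log (log (α * x)) ∧ log (log x) ≤ (1 + δ) * log (log (α * x)) := by
  have t1 : Tendsto (fun x : ℝ => α * x) atTop atTop := tendsto_id.const_mul_atTop hα
  filter_upwards [t1.eventually_gt_atTop 1, (LL_top.comp t1).eventually_ge_atTop 1,
    (LL_top.comp t1).eventually_ge_atTop (1 / δ), eventually_gt_atTop 1,
    eventually_ge_atTop (1 / α ^ 2)] with x h1 h2 h3 h4 h5
  refine ⟨h1, h2, ?_⟩
  simp only [Function.comp] at h2 h3
  rw [div_le_iff₀ (by positivity)] at h3 h5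
  have a1 : log x ≤ 2 * log (α * x) := by
    have := log_le_log (by linarith) (show x ≤ (α * x) ^ 2 by nlinarith)
    rwa [log_pow] at this
  have a2 := log_le_log (log_pos h4) a1
  rw [log_mul (by norm_num) (log_pos h1).ne'] at a2
  have a3 := log_le_sub_one_of_pos (show (0 : ℝ) < 2 by norm_num)
  nlinarith

theorem E_up {m δ : ℝ} (hm : 1 ≤ m) (hδ : 0 < δ) : ∀ᶠ P : ℝ in atTop, ∀ n : ℝ, P ≤ m * n →
    E P ≤ (1 + δ) * √m * E n ∧ √P ≤ √m * E n := by
  filter_upwards [LL_cmp (show 0 < m⁻¹ by positivity) hδ, eventually_gt_atTop 0] with P h hP n hn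
  obtain ⟨h1, h2, h3⟩ := h
  have a0 : m⁻¹ * P ≤ n := by rw [inv_mul_le_iff₀ (by positivity)]; exact hn
  have a1 := LL_mono h1 a0
  have hn0 : 0 ≤ n := by linarith
  unfold E
  rw [mul_assoc (1 + δ), ← sqrt_mul (by positivity)]
  have a2 : P * log (log n) ≤ m * n * log (log n) := by gcongr; linarith
  constructor
  · rw [← sqrt_sq (show 0 ≤ 1 + δ by positivity), ← sqrt_mul (by positivity)]
    refine sqrt_le_sqrt ?_
    have a3 : log (log P) ≤ (1 + δ) ^ 2 * log (log n) := by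
      have : (1 + δ) * log (log n) ≤ (1 + δ) ^ 2 * log (log n) := by
        gcongr
        · linarith
        · nlinarith
      nlinarith
    nlinarith [mul_le_mul_of_nonneg_left a3 hP.le,
      mul_le_mul_of_nonneg_left a2 (show 0 ≤ (1 + δ) ^ 2 by positivity)]
  · exact sqrt_le_sqrt (by nlinarith)

theorem E_down {m δ : ℝ} (hm : 1 ≤ m) (hδ : 0 < δ) (hδ1 : δ ≤ 1) : ∀ᶠ P : ℝ in atTop,
    ∀ n : ℝ, P ≤ m * n → m * n ≤ (1 + δ) * P → √m * E n ≤ (1 + δ) * E P := by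
  have t1 : Tendsto (fun x : ℝ => 2 * x) atTop atTop := tendsto_id.const_mul_atTop two_pos
  filter_upwards [t1.eventually (LL_cmp (show (0 : ℝ) < 2⁻¹ by positivity) hδ),
    eventually_gt_atTop m] with P h hP n hn hn'
  rw [inv_mul_cancel_left₀ two_ne_zero] at h
  obtain ⟨h1, h2, h3⟩ := h
  have a0 : 1 < n := by nlinarith
  have a1 := LL_mono a0 (show n ≤ 2 * P by nlinarith)
  unfold E
  rw [← sqrt_mul (by positivity), ← sqrt_sq (show 0 ≤ 1 + δ by positivity),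
    ← sqrt_mul (by positivity)]
  refine sqrt_le_sqrt ?_
  have a2 : m * n * log (log n) ≤ m * n * ((1 + δ) * log (log P)) := by
    gcongr; linarith
  have a3 : m * n * ((1 + δ) * log (log P)) ≤ (1 + δ) * P * ((1 + δ) * log (log P)) := by
    gcongr
  nlinarith

theorem E_small {δ L P : ℝ} (hδ : 0 < δ) (h1 : 2 ≤ L) (h2 : 2 ≤ δ * L) (h3 : L ^ 8 ≤ P) :
    E P * L ≤ δ * P ∧ L ^ 4 ≤ √P := by
  have hP : 1 < P := lt_of_lt_of_le (one_lt_pow₀ (by linarith) (by norm_num)) h3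
  have a1 : L ^ 4 ≤ √P := le_sqrt_of_sq_le (by nlinarith)
  refine ⟨?_, a1⟩
  have a2 : log (log P) ≤ 2 * √P := by
    have b1 := log_le_sub_one_of_pos (log_pos hP)
    have b2 := log_le_sub_one_of_pos (sqrt_pos.2 (show 0 < P by linarith))
    rw [log_sqrt (by linarith)] at b2
    linarith
  rw [← le_div_iff₀ (by linarith)]
  refine sqrt_le_iff.2 ⟨by positivity, ?_⟩
  rw [div_pow, le_div_iff₀ (by positivity)]
  have a3 : √P * √P = P := mul_self_sqrt (by linarith)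
  have a4 : 4 ≤ (δ * L) ^ 2 := by nlinarith
  have a5 : 4 * L ^ 2 ≤ δ ^ 2 * √P := by
    nlinarith [mul_le_mul_of_nonneg_left a1 (sq_nonneg δ),
      mul_le_mul_of_nonneg_right a4 (sq_nonneg L)]
  have a6 := mul_le_mul_of_nonneg_left a5 (show 0 ≤ P * √P by positivity)
  have a7 := mul_le_mul_of_nonneg_left a2 (show 0 ≤ 2 * P * L ^ 2 by positivity)
  have a8 : P * √P * (δ ^ 2 * √P) = (δ * P) ^ 2 := by
    rw [show P * √P * (δ ^ 2 * √P) = P * δ ^ 2 * (√P * √P) by ring, a3]; ring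
  nlinarith

theorem E_pos : ∀ᶠ n : ℕ in atTop, 0 < E n := by
  filter_upwards [(LL_top.comp tendsto_natCast_atTop_atTop).eventually_gt_atTop 0,
    eventually_gt_atTop 0] with n h1 h2
  have : (0 : ℝ) < n := by exact_mod_cast h2
  exact sqrt_pos.2 (mul_pos (by linarith) h1)

theorem err_small {m δ : ℝ} (hδ : 0 < δ) (C c : ℝ) : ∀ᶠ L : ℝ in atTop,
    √m * (C + c * L) ≤ δ * L ^ 4 := by
  filter_upwards [eventually_ge_atTop 1, eventually_ge_atTop (√m * (|C| + |c|) / δ)] with L h1 h2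
  rw [div_le_iff₀ hδ] at h2
  have a1 : C + c * L ≤ (|C| + |c|) * L := by
    nlinarith [le_abs_self C, le_abs_self c, abs_nonneg C]
  have a2 : L ^ 2 ≤ L ^ 4 := pow_le_pow_right₀ h1 (by norm_num)
  nlinarith [mul_le_mul_of_nonneg_left a1 (sqrt_nonneg m),
    mul_le_mul_of_nonneg_right h2 (show 0 ≤ L by linarith)]

theorem ana_up {m : ℕ} (hm : 1 ≤ m) {P L : ℕ → ℕ} (hP : StrictMono P) (hL : StrictMono L)
    (hLP : ∀ᶠ t in atTop, L t ^ 8 ≤ P t) (D : ℕ → ℝ) (C c : ℝ) {s : ℝ} (hs : 0 ≤ s)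
    (h : ∀ᶠ t in atTop, ∀ n, P t ≤ m * n → m * n < P (t + 1) →
      √m * |D n| ≤ √m * (C + c * L t) + E (P t) * s) {ε : ℝ} (hε : 0 < ε) :
    ∀ᶠ n : ℕ in atTop, |D n| ≤ (s + ε) * E n := by
  have tP := (tendsto_natCast_atTop_atTop (R := ℝ)).comp hP.tendsto_atTop
  have tL := (tendsto_natCast_atTop_atTop (R := ℝ)).comp hL.tendsto_atTop
  have hm' : (1 : ℝ) ≤ m := by exact_mod_cast hm
  obtain ⟨δ, hδ, hδ'⟩ : ∃ δ : ℝ, 0 < δ ∧ δ * (s + 1) = ε :=
    ⟨ε / (s + 1), by positivity, by field_simp⟩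
  obtain ⟨T, hT⟩ := eventually_atTop.1 (h.and (hLP.and ((tP.eventually (E_up hm' hδ)).and
    ((tL.eventually (err_small (m := m) hδ C c)).and (tL.eventually_ge_atTop 2)))))
  filter_upwards [eventually_ge_atTop (P T)] with n hn
  obtain ⟨t, t1, t2, t3⟩ := locate hP (T := T) (n := m * n) (by nlinarith)
  obtain ⟨a1, a2, a3, a4, a5⟩ := hT t t1
  simp only [Function.comp] at a3 a4 a5
  obtain ⟨b1, b2⟩ := a3 n (by exact_mod_cast t2)
  have b3 := (E_small (P := P t) one_pos a5 (by linarith) (by exact_mod_cast a2)).2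
  have b4 := a1 n t2 t3
  refine le_of_mul_le_mul_left ?_ (sqrt_pos.2 (show (0 : ℝ) < m by linarith))
  rw [← hδ']
  nlinarith [mul_le_mul_of_nonneg_right b1 hs, mul_le_mul_of_nonneg_left (b3.trans b2) hδ.le]

theorem ana_down {m : ℕ} (hm : 1 ≤ m) {P L : ℕ → ℕ} (hP : StrictMono P) (hL : StrictMono L)
    (hLP : ∀ᶠ t in atTop, L t ^ 8 ≤ P t) (D : ℕ → ℝ) (C : ℝ) {s : ℝ} (hs : 0 ≤ s)
    (h : ∃ᶠ t in atTop, ∃ n, P t ≤ m * n ∧ ((m * n : ℕ) : ℝ) ≤ P t + E (P t) * L t ∧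
      (E (P t) - √m * L t) * s - √m * C ≤ √m * D n) {ε : ℝ} (hε : 0 < ε) :
    ∃ᶠ n : ℕ in atTop, (s - ε) * E n ≤ D n := by
  have tP := (tendsto_natCast_atTop_atTop (R := ℝ)).comp hP.tendsto_atTop
  have tL := (tendsto_natCast_atTop_atTop (R := ℝ)).comp hL.tendsto_atTop
  have hm' : (1 : ℝ) ≤ m := by exact_mod_cast hm
  obtain ⟨δ, hδ, hδ1, hδ'⟩ : ∃ δ : ℝ, 0 < δ ∧ δ ≤ 1 ∧ δ * (s + 1) ≤ ε :=
    ⟨min 1 (ε / (s + 1)), by positivity, min_le_left _ _,
      (le_div_iff₀ (by positivity)).1 (min_le_right _ _)⟩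
  rw [frequently_atTop]
  intro N
  obtain ⟨t, ⟨n, h1, h2, h3⟩, a2, a3, a4, a5, a6, a7, a8⟩ := (h.and_eventually (hLP.and
    ((tP.eventually (E_up hm' hδ)).and ((tP.eventually (E_down hm' hδ hδ1)).and
    ((tL.eventually (err_small (m := m) hδ C s)).and ((tL.eventually_ge_atTop 2).and
    ((tL.eventually_ge_atTop (2 / δ)).and (hP.tendsto_atTop.eventually_ge_atTop (m * N))))))))).exists
  simp only [Function.comp] at a3 a4 a5 a6 a7
  rw [div_le_iff₀ hδ] at a7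
  refine ⟨n, Nat.le_of_mul_le_mul_left (a8.trans h1) hm, ?_⟩
  obtain ⟨b0, b3⟩ := E_small (P := P t) hδ a6 (by linarith) (by exact_mod_cast a2)
  push_cast at h2
  have c1 : (P t : ℝ) ≤ m * n := by exact_mod_cast h1
  obtain ⟨-, b2⟩ := a3 n c1
  have b4 := a4 n c1 (by linarith)
  have b5 : 0 ≤ √m * E n := mul_nonneg (sqrt_nonneg _) (sqrt_nonneg _)
  have b6 : 0 ≤ E (P t) := sqrt_nonneg _
  have b7 : (1 - δ) * (√m * E n) ≤ E (P t) := by
    nlinarith [mul_le_mul_of_nonneg_left b4 (show 0 ≤ 1 - δ by linarith), mul_nonneg hδ.le b6]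
  refine le_of_mul_le_mul_left ?_ (sqrt_pos.2 (show (0 : ℝ) < m by linarith))
  nlinarith [mul_le_mul_of_nonneg_right b7 hs, mul_le_mul_of_nonneg_left (b3.trans b2) hδ.le,
    mul_le_mul_of_nonneg_right hδ' b5]

end H13SN
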