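import Pool.Agent.Lib.helper13.SNd

set_option autoImplicit false
open Finset Filter Real

namespace H13SN

theorem targets (M : ℕ → ℕ) (hM : ∀ t, 1 ≤ M t) : ∃ h : ℕ → ℕ → ℤ,
    (∀ t, ∑ w ∈ range (2 ^ M t), h t w = 0) ∧ (∀ t w, |h t w| ≤ (2 ^ M t * M t : ℕ)) ∧
    ∀ m k : ℕ, 1 ≤ m → k < 2 ^ m → ∀ g : ℤ, g = 1 ∨ g = -1 → ∃ᶠ t in atTop,
      (m ∣ M t → ∀ w, h t w = g * H (2 ^ m) k (M t / m) w) := by
  have key : ∀ t m k b : ℕ, ∃ h : ℕ → ℤ, ∑ w ∈ range (2 ^ M t), h w = 0 ∧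
      (∀ w, |h w| ≤ (2 ^ M t * M t : ℕ)) ∧ (1 ≤ m → k < 2 ^ m → m ∣ M t →
        ∀ w, h w = (if b = 0 then 1 else -1) * H (2 ^ m) k (M t / m) w) := by
    intro t m k b
    by_cases hc : 1 ≤ m ∧ k < 2 ^ m ∧ m ∣ M t
    · obtain ⟨h1, h2, r, hr⟩ := hc
      refine ⟨_, ?_, fun w => ?_, fun _ _ _ _ => rfl⟩
      · rw [← mul_sum, hr, Nat.mul_div_cancel_left _ h1, pow_mul, sum_H h2, mul_zero]
      · have a1 := H_abs (c := 2 ^ m) Nat.one_le_two_pow k (M t / m) w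
        have a2 : M t / m * 2 ^ m ≤ 2 ^ M t * M t := by
          rw [mul_comm]
          exact Nat.mul_le_mul (Nat.pow_le_pow_right two_pos (Nat.le_of_dvd (hM t) ⟨r, hr⟩))
            (Nat.div_le_self _ _)
        have a3 : ((M t / m : ℕ) : ℤ) * (2 ^ m : ℕ) ≤ (2 ^ M t * M t : ℕ) := by exact_mod_cast a2
        rw [abs_mul]
        split_ifs <;> simpa using a1.trans a3
    · exact ⟨0, by simp, by simp, fun h1 h2 h3 => absurd ⟨h1, h2, h3⟩ hc⟩
  choose h h1 h2 h3 using key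
  refine ⟨fun t => h t t.unpair.1.unpair.1 t.unpair.1.unpair.2.unpair.1
    t.unpair.1.unpair.2.unpair.2, fun t => h1 _ _ _ _, fun t => h2 _ _ _ _,
    fun m k hm hk g hg => frequently_atTop.2 fun N =>
      ⟨Nat.pair (Nat.pair m (Nat.pair k (if g = 1 then 0 else 1))) N, Nat.right_le_pair _ _,
        fun hd w => ?_⟩⟩
  simp only [Nat.unpair_pair]
  rw [h3 _ _ _ _ hm hk hd]
  rcases hg with rfl | rfl <;> simp

/-- the tilt schedule -/
def sg (J i : ℕ) : ℤ := if i < J then 1 else if i < 2 * J then -1 else 0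

theorem sg_sum (J i : ℕ) : ∑ u ∈ range i, sg J u =
    if i ≤ J then (i : ℤ) else if i ≤ 2 * J then 2 * J - i else 0 := by
  induction i with
  | zero => simp
  | succ i ih => rw [sum_range_succ, ih, sg]; split_ifs <;> push_cast <;> omega

theorem positions (L e : ℕ → ℕ) (Lm : StrictMono L) (em : StrictMono e) (L1 : 1 ≤ L 0) :
    ∃ P T : ℕ → ℕ, P 0 = 0 ∧ (∀ t, P (t + 1) = P t + T t * L t) ∧ (∀ t, L t ∣ P t) ∧
      (∀ t, T t ≤ L (t + 1) * 2 ^ e t) ∧ (∀ t, 2 ^ e t ≤ T t) ∧ ∀ t, P t ≤ T t * L t := by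
  let Q : ℕ → ℕ := fun t => Nat.casesOn t 0 fun u => L u * 2 ^ e u
  have h : ∀ t, 2 * Q t ≤ L (t + 1) * 2 ^ e t := fun t => by
    cases t with
    | zero => simp [Q]
    | succ t =>
      have a1 : L t ≤ L (t + 1 + 1) := Lm.monotone (by omega)
      have a2 : 2 ^ (e t + 1) ≤ 2 ^ e (t + 1) := Nat.pow_le_pow_right two_pos (em (by omega))
      rw [pow_succ] at a2
      have := Nat.mul_le_mul a1 a2
      simp only [Q]; linarith
  refine ⟨fun t => L t * Q t, fun t => L (t + 1) * 2 ^ e t - Q t, by simp [Q], fun t => ?_,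
    fun t => dvd_mul_right _ _, fun t => Nat.sub_le _ _, fun t => ?_, fun t => ?_⟩
  · have := h t
    beta_reduce
    rw [mul_comm _ (L t), ← mul_add, Nat.add_sub_cancel' (by omega)]
    simp only [Q]; ring
  · have := h t
    have a1 : 2 ≤ L (t + 1) := by have := Lm (show 0 < t + 1 by omega); omega
    have := Nat.mul_le_mul_right (2 ^ e t) a1
    beta_reduce; omega
  · have := h t
    beta_reduce
    rw [mul_comm _ (L t)]
    exact Nat.mul_le_mul_left _ (by omega)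

theorem pow8 (L e P : ℕ → ℕ) (Lm : StrictMono L) (hP : ∀ t, 2 ^ e t ≤ P (t + 1))
    (h : ∀ᶠ t in atTop, (1 / 2 : ℝ) * L (t + 1) ≤ e t) : ∀ᶠ t in atTop, L t ^ 8 ≤ P t := by
  have h1 := Lm.tendsto_atTop.eventually ((tendsto_pow_const_div_const_pow_of_one_lt 16
    (show (1 : ℝ) < 2 by norm_num)).eventually_le_const one_pos)
  obtain ⟨T, hT⟩ := eventually_atTop.1 h
  filter_upwards [h1, eventually_ge_atTop (T + 1)] with t h2 h3
  obtain ⟨t, rfl⟩ : ∃ u, t = u + 1 := ⟨t - 1, by omega⟩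
  rw [div_le_one (by positivity)] at h2
  have a1 : L (t + 1) ^ 16 ≤ 2 ^ L (t + 1) := by exact_mod_cast h2
  have a2 : L (t + 1) ≤ e t * 2 := by
    have := hT t (by omega)
    have : (L (t + 1) : ℝ) ≤ e t * 2 := by linarith
    exact_mod_cast this
  refine le_trans (Nat.le_of_lt_succ ?_) (hP t)
  by_contra a3
  have a4 := Nat.pow_lt_pow_left (show 2 ^ e t < L (t + 1) ^ 8 by omega) two_ne_zero
  rw [← pow_mul, ← pow_mul] at a4
  exact absurd (a4.trans_le (a1.trans (Nat.pow_le_pow_right two_pos a2))) (lt_irrefl _)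

theorem growth {a L e T : ℕ → ℕ} (am : StrictMono a) (Lm : StrictMono L) (hT : ∀ t, 2 ^ e t ≤ T t)
    (ha : ∀ t i, i < T t → a (∑ u ∈ range t, T u + i) < 2 ^ L t)
    (h : ∀ θ : ℝ, θ < 1 → ∀ᶠ t in atTop, θ * L (t + 1) ≤ e t) (θ : ℝ) (hθ : θ < 1) :
    ∀ᶠ N : ℕ in atTop, (N : ℝ) ^ θ < (Nat.card {n : ℕ | a n ≤ N} : ℝ) := by
  obtain ⟨t0, h0⟩ := eventually_atTop.1 (h (max θ 0) (max_lt hθ one_pos))
  have cm : StrictMono fun t => 2 ^ L t := fun x y hxy => Nat.pow_lt_pow_right one_lt_two (Lm hxy)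
  have Tp : ∀ t, 0 < T t := fun t => lt_of_lt_of_le (by positivity) (hT t)
  filter_upwards [eventually_ge_atTop (2 ^ L (t0 + 1))] with N hN
  obtain ⟨t, t1, t2, t3⟩ := locate cm hN
  have N1 : 1 ≤ N := le_trans Nat.one_le_two_pow hN
  have a1 : (N : ℝ) ^ θ ≤ 2 ^ e t := by
    refine (rpow_le_rpow_of_exponent_le (by exact_mod_cast N1) (le_max_left θ 0)).trans ?_
    refine (rpow_le_rpow (by positivity) (show (N : ℝ) ≤ 2 ^ (L (t + 1) : ℝ) by
      exact_mod_cast t3.le) (le_max_right _ _)).trans ?_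
    rw [← rpow_mul (by norm_num), ← rpow_natCast]
    exact rpow_le_rpow_of_exponent_le (by norm_num) (by rw [mul_comm]; exact h0 t (by omega))
  have a2 : 1 ≤ ∑ u ∈ range t, T u :=
    (Tp 0).trans_le (single_le_sum (f := T) (fun _ _ => Nat.zero_le _) (mem_range.2 (by omega)))
  have a3 : ∑ u ∈ range t, T u + T t ≤ Nat.card {n : ℕ | a n ≤ N} := by
    rw [Nat.card_coe_set_eq, ← card_range (∑ u ∈ range t, T u + T t), ← Set.ncard_coe_finset]
    refine Set.ncard_le_ncard (fun n hn => ?_) ((Set.finite_Iic N).subset fun n hn =>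
      (am.id_le n).trans hn)
    have := Tp t
    have b1 := ha t (T t - 1) (by omega)
    have b2 := am.monotone (show n ≤ ∑ u ∈ range t, T u + (T t - 1) by
      have := mem_range.1 (mem_coe.1 hn); omega)
    show a n ≤ N
    omega
  refine a1.trans_lt ?_
  have := hT t
  exact_mod_cast (show 2 ^ e t < Nat.card {n : ℕ | a n ≤ N} by omega)

theorem floor_facts {x τ : ℝ} (hx : 0 ≤ x) (V : ℕ) (hτ : τ = √V) :
    ⌊x / τ⌋₊ * τ ≤ x ∧ (⌊x / τ⌋₊ : ℝ) ≤ x ∧ (V ≠ 0 → x - τ ≤ ⌊x / τ⌋₊ * τ) := by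
  rcases eq_or_ne V 0 with rfl | hV
  · simp [hτ, hx]
  have h1 : 1 ≤ τ := by
    rw [hτ]; exact one_le_sqrt.2 (by exact_mod_cast Nat.one_le_iff_ne_zero.2 hV)
  have h2 := Nat.floor_le (show 0 ≤ x / τ by positivity)
  have h3 := Nat.lt_floor_add_one (x / τ)
  rw [le_div_iff₀ (by linarith)] at h2
  rw [div_lt_iff₀ (by linarith)] at h3
  exact ⟨h2, by nlinarith [Nat.cast_nonneg (α := ℝ) ⌊x / τ⌋₊], fun _ => by linarith⟩

end H13SN
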