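import Pool.Agent.Lib.helper13.SNe

set_option autoImplicit false
open Finset Filter Real

namespace H13SN

/-- running sums over blocks -/
theorem walk {c m : ℕ} (hm : 1 ≤ m) (f : ℕ → ℤ) (hf : ∀ i, |f i| ≤ c) {P L T J : ℕ → ℕ}
    (Γ : ℕ → ℤ) (hP : ∀ t, P (t + 1) = P t + T t * L t) (hLP : ∀ t, L t ∣ P t)
    (hL : ∀ t, 1 ≤ L t) (t0 : ℕ) (hmL : ∀ t, t0 ≤ t → m ∣ L t) (hJ : ∀ t, t0 ≤ t → 2 * J t ≤ T t)
    (hs : ∀ t, t0 ≤ t → ∀ i < T t, ∑ q ∈ range (L t / m), f (P t / m + i * (L t / m) + q)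
      = sg (J t) i * Γ t) : ∃ C : ℤ, ∀ t, t0 ≤ t →
    (∑ i ∈ range (P t / m + J t * (L t / m)), f i = C + J t * Γ t) ∧
    ∀ n, P t ≤ m * n → m * n < P (t + 1) →
      |∑ i ∈ range n, f i| ≤ |C| + c * L t + J t * |Γ t| := by
  have h1 : ∀ t, t0 ≤ t → ∀ i ≤ T t, ∑ u ∈ range (P t / m + i * (L t / m)), f u
      = ∑ u ∈ range (P t / m), f u + (∑ u ∈ range i, sg (J t) u) * Γ t := by
    intro t ht i
    induction i with
    | zero => simp
    | succ i ih =>
      intro hi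
      rw [add_mul, one_mul, ← add_assoc, sum_range_add, ih (by omega), hs t ht i (by omega),
        sum_range_succ]
      ring
  have h2 : ∀ t, t0 ≤ t → ∑ u ∈ range (P t / m), f u = ∑ u ∈ range (P t0 / m), f u := by
    intro t ht
    induction t, ht using Nat.le_induction with
    | base => rfl
    | succ t ht ih =>
      have := hJ t ht
      rw [hP, Nat.add_div_of_dvd_right ((hmL t ht).trans (hLP t)), Nat.mul_div_assoc _ (hmL t ht),
        h1 t ht _ le_rfl, ih, sg_sum]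
      split_ifs
      · simp [show T t = 0 by omega]
      · simp [show T t = 2 * J t by omega]
      · simp
  refine ⟨∑ u ∈ range (P t0 / m), f u, fun t ht => ⟨?_, fun n n1 n2 => ?_⟩⟩
  · rw [h1 t ht _ (by have := hJ t ht; omega), h2 t ht, sg_sum, if_pos le_rfl]
  obtain ⟨l, hl⟩ := hmL t ht
  obtain ⟨p, hp⟩ := (hmL t ht).trans (hLP t)
  have l0 : 0 < l := Nat.pos_of_ne_zero fun h => by have := hL t; simp [h] at hl; omega
  have := h1 t ht
  rw [h2 t ht, hp, hl, Nat.mul_div_cancel_left _ hm, Nat.mul_div_cancel_left _ hm] at this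
  rw [hP, hp, hl] at n2
  rw [hp] at n1
  obtain ⟨z, rfl⟩ := Nat.exists_eq_add_of_le (Nat.le_of_mul_le_mul_left n1 hm)
  have z1 : z < T t * l := Nat.lt_of_mul_lt_mul_left (a := m) (by linarith)
  rw [← Nat.div_add_mod' z l, ← add_assoc, sum_range_add,
    this _ ((Nat.div_lt_iff_lt_mul l0).2 z1).le]
  have a1 : |∑ x ∈ range (z % l), f (p + z / l * l + x)| ≤ c * L t := by
    refine (abs_sum_le_sum_abs _ _).trans ((sum_le_sum fun i _ => hf _).trans ?_)
    have : z % l ≤ L t := (Nat.mod_lt _ l0).le.trans (by rw [hl]; exact Nat.le_mul_of_pos_left _ hm)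
    rw [sum_const, card_range, nsmul_eq_mul, mul_comm]
    gcongr
  have a2 : |(∑ u ∈ range (z / l), sg (J t) u) * Γ t| ≤ J t * |Γ t| := by
    rw [abs_mul]
    refine mul_le_mul_of_nonneg_right ?_ (abs_nonneg _)
    rw [sg_sum, abs_le]
    generalize z / l = y
    split_ifs <;> omega
  refine (abs_add_le _ _).trans ?_
  linarith [abs_add_le (∑ u ∈ range (P t0 / m), f u) ((∑ u ∈ range (z / l), sg (J t) u) * Γ t)]

theorem main : ∃ a : ℕ → ℕ, StrictMono a ∧ (∀ n, 0 < a n) ∧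
    (∀ θ : ℝ, θ < 1 → ∀ᶠ N : ℕ in atTop, (N : ℝ) ^ θ < (Nat.card {n : ℕ | a n ≤ N} : ℝ)) ∧
    ∃ d : ℕ → ℕ, (∀ n r : ℕ, r < (Nat.digits 2 (a n)).length →
      d ((∑ j ∈ range n, (Nat.digits 2 (a j)).length) + r)
        = ((Nat.digits 2 (a n)).reverse).getD r 0) ∧
      ∀ m k : ℕ, 1 ≤ m → k < 2 ^ m → ∀ D : ℕ → ℝ, (∀ n, D n = ((∑ i ∈ range n, ph (2 ^ m) k
        (⌊(∑' i : ℕ, (d i : ℝ) / (2 : ℝ) ^ (i + 1)) * 2 ^ (m * (i + 1))⌋ % 2 ^ m).toNat : ℤ) : ℝ)) →
        ∀ ε : ℝ, 0 < ε → (∀ᶠ n : ℕ in atTop, |D n| ≤ (√(2 ^ m - 1) + ε) * E n) ∧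
          ∀ g : ℤ, g = 1 ∨ g = -1 → ∃ᶠ n : ℕ in atTop, (√(2 ^ m - 1) - ε) * E n ≤ g * D n := by
  obtain ⟨M, s, L, e, M1, hL, Lm, em, hT, hdiv, hθ⟩ := params
  obtain ⟨h, h0, hK, htg⟩ := targets M M1
  have L1 : ∀ t, 1 ≤ L t := fun t => by
    have := M1 t
    rw [hL]; exact Nat.succ_le_of_lt (by positivity)
  obtain ⟨P, T, P0, Ps, LP, T1, T2, T3⟩ := positions L e Lm em (L1 0)
  have Tp : ∀ t, 0 < T t := fun t => lt_of_lt_of_le (by positivity) (T2 t)
  have Pm : StrictMono P := strictMono_nat_of_lt_succ fun t => by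
    have := Nat.mul_pos (Tp t) (L1 t); rw [Ps]; omega
  have L8 := pow8 L e P Lm (fun t => by
    have := Nat.mul_le_mul (T2 t) (L1 t); rw [Ps]; omega) (hθ _ (by norm_num))
  obtain ⟨V, hV⟩ : ∃ V : ℕ → ℕ, ∀ t, (V t : ℤ) = ∑ w ∈ range (2 ^ M t), h t w ^ 2 :=
    ⟨fun t => (∑ w ∈ range (2 ^ M t), h t w ^ 2).toNat, fun t =>
      Int.toNat_of_nonneg (sum_nonneg fun _ _ => sq_nonneg _)⟩
  obtain ⟨τ, hτ⟩ : ∃ τ : ℕ → ℝ, ∀ t, τ t = √((V t * 2 ^ M t * M t : ℕ) : ℝ) := ⟨_, fun _ => rfl⟩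
  obtain ⟨J, hJ⟩ : ∃ J : ℕ → ℕ, ∀ t, J t = ⌊E (P t) / τ t⌋₊ := ⟨_, fun _ => rfl⟩
  have Jf := fun t => floor_facts (x := E (P t)) (sqrt_nonneg _) _ (hτ t)
  simp only [← hJ] at Jf
  choose A A1 A2 using fun t => stage (B := 2 ^ M t)
    ((pow_one 2).symm.trans_le (Nat.pow_le_pow_right two_pos (M1 t))) (2 ^ M t * M t) (s t) (T t)
    ((T1 t).trans (hT t)) (h t) (h0 t) (hK t) (sg (J t)) fun i => by unfold sg; split_ifs <;> simp
  simp only [← pow_mul, ← hL] at A2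
  obtain ⟨a, ha⟩ := glue T Tp A
  obtain ⟨l, hl⟩ := glue T Tp fun t _ => L t
  have a1 : ∀ n, a n + 1 < 2 ^ l n ∧ 2 ^ l n ≤ 2 * a n := fun n => by
    obtain ⟨t, i, hi, rfl⟩ := decomp T Tp n
    rw [ha t i hi, hl t i hi]
    exact ⟨(A2 t i hi).1, (A2 t i hi).2.1⟩
  have am : StrictMono a := strictMono_nat_of_lt_succ fun n => by
    obtain ⟨t, i, hi, rfl⟩ := decomp T Tp n
    rcases (Nat.succ_le_of_lt hi).eq_or_lt with h1 | h1
    · have b0 := ha (t + 1) 0 (Tp _)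
      rw [sum_range_succ, ← h1] at b0
      rw [ha t i hi, add_assoc, show a (∑ u ∈ range t, T u + (i + 1)) = _ from b0]
      have b1 := (A2 t i hi).1
      have b2 := (A2 (t + 1) 0 (Tp _)).2.1
      have b3 : 2 ^ (L t + 1) ≤ 2 ^ L (t + 1) :=
        Nat.pow_le_pow_right two_pos (Lm (Nat.lt_succ_self t))
      rw [pow_succ] at b3
      omega
    · rw [add_assoc, ha t i hi, ha t (i + 1) h1]
      exact A1 t _ _ (Nat.lt_succ_self i) h1
  have hS : ∀ t i, i ≤ T t → ∑ j ∈ range (∑ u ∈ range t, T u + i), l j = P t + i * L t := by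
    have inner : ∀ t, ∑ j ∈ range (∑ u ∈ range t, T u), l j = P t →
        ∀ i, i ≤ T t → ∑ j ∈ range (∑ u ∈ range t, T u + i), l j = P t + i * L t := by
      intro t ht i
      induction i with
      | zero => simpa using ht
      | succ i ih => intro hi; rw [← add_assoc, sum_range_succ, ih (by omega), hl t i hi]; ring
    intro t
    refine inner t ?_
    induction t with
    | zero => simp [P0]
    | succ t ih => rw [sum_range_succ, inner t ih _ le_rfl, Ps]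
  obtain ⟨d, hd, hξ⟩ := concat a l (fun n => (a1 n).1) fun n => (a1 n).2
  refine ⟨a, am, fun n => ?_, growth am Lm T2 (fun t i hi => ?_) hθ, d, hd,
    fun m k hm hk D hD ε hε => ?_⟩
  · have := (a1 n).2
    have : 0 < 2 ^ l n := by positivity
    omega
  · rw [ha t i hi]; have := (A2 t i hi).1; omega
  have tL := (tendsto_natCast_atTop_atTop (R := ℝ)).comp Lm.tendsto_atTop
  obtain ⟨t0, ht0⟩ := eventually_atTop.1 ((hdiv m hm).and (L8.and (tL.eventually_ge_atTop 4)))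
  simp only [Function.comp] at ht0
  obtain ⟨Γ, hΓ⟩ : ∃ Γ : ℕ → ℤ, ∀ t,
    Γ t = ∑ w ∈ range (2 ^ M t), h t w * H (2 ^ m) k (M t / m) w := ⟨_, fun _ => rfl⟩
  have mL : ∀ t, t0 ≤ t → m ∣ L t := fun t ht => by
    rw [hL]; exact (ht0 t ht).1.trans (dvd_mul_right _ _)
  obtain ⟨C, hC⟩ := walk (c := 2 ^ m) hm (fun i => ph (2 ^ m) k
    (⌊(∑' i : ℕ, (d i : ℝ) / (2 : ℝ) ^ (i + 1)) * 2 ^ (m * (i + 1))⌋ % 2 ^ m).toNat)
    (fun i => ph_abs Nat.one_le_two_pow _ _) (J := J) Γ Ps LP L1 t0 mL (fun t ht => by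
      obtain ⟨-, b1, b2⟩ := ht0 t ht
      have b3 := (E_small (δ := 1 / 2) (L := L t) (P := P t) (by norm_num) (by linarith)
        (by linarith) (by exact_mod_cast b1)).1
      have b4 : (P t : ℝ) ≤ T t * L t := by exact_mod_cast T3 t
      have b5 : (2 * J t : ℝ) ≤ T t := le_of_mul_le_mul_right
        (by nlinarith [(Jf t).2.1]) (show (0 : ℝ) < L t by linarith)
      exact_mod_cast b5) (fun t ht i hi => by
      obtain ⟨r, hr⟩ := (ht0 t ht).1
      obtain ⟨p, hp⟩ := (mL t ht).trans (LP t)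
      obtain ⟨y, hy⟩ := mL t ht
      have b1 : y = r * (2 ^ M t * (s t + 1 + 2 ^ M t * M t)) :=
        Nat.eq_of_mul_eq_mul_left hm (by rw [← hy, ← mul_assoc, ← hr, hL])
      have b2 : M t / m = r := by rw [hr, Nat.mul_div_cancel_left _ hm]
      rw [hΓ, b2, ← (A2 t i hi).2.2 (2 ^ m) k r hk (by rw [← pow_mul, hr]), ← b1, hp, hy,
        Nat.mul_div_cancel_left _ hm, Nat.mul_div_cancel_left _ hm, H, ← sum_range_reflect _ y]
      rw [← sum_range_reflect _ y, ← sum_range_reflect (fun i_1 => ph (2 ^ m) k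
        (A t i / (2 ^ m) ^ i_1 % 2 ^ m)) y]
      refine sum_congr rfl fun q hq => ?_
      have hq := mem_range.1 hq
      have b3 := hξ (∑ u ∈ range t, T u + i) (m * (q + 1)) m
        (by rw [hl t i hi, hy]; exact Nat.mul_le_mul_left _ hq) (Nat.le_mul_of_pos_right _ (by omega))
      rw [hS t i hi.le, hl t i hi, ha t i hi, hp, hy, ← Nat.mul_sub,
        show m * p + i * (m * y) + m * (q + 1) = m * (p + i * y + q + 1) by ring] at b3
      rw [show y - 1 - (y - 1 - q) = q by omega, b3, Int.toNat_natCast, ← pow_mul,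
        show y - 1 - q = y - (q + 1) by omega])
  have c1 : (0 : ℝ) ≤ 2 ^ m - 1 := by have := one_le_pow₀ (n := m) (one_le_two (α := ℝ)); linarith
  have HV : ∀ t, t0 ≤ t → (m : ℝ) * ((∑ w ∈ range (2 ^ M t), H (2 ^ m) k (M t / m) w ^ 2 : ℤ) : ℝ)
      = 2 ^ M t * M t * (2 ^ m - 1) := fun t ht => by
    obtain ⟨r, hr⟩ := (ht0 t ht).1
    have := sum_H_sq hk r
    rw [← pow_mul, ← hr] at this
    rw [show M t / m = r by rw [hr, Nat.mul_div_cancel_left _ hm], this, hr]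
    push_cast; ring
  refine ⟨ana_up hm Pm Lm L8 D |(C : ℝ)| (2 ^ m) (sqrt_nonneg _)
    ((eventually_ge_atTop t0).mono fun t ht n n1 n2 => ?_) hε, fun g hg =>
    ana_down hm Pm Lm L8 (fun n => g * D n) |(C : ℝ)| (sqrt_nonneg _)
      (((htg m k hm hk g hg).and_eventually (eventually_ge_atTop t0)).mono fun t ht => ?_) hε⟩
  · have b1 : |D n| ≤ |(C : ℝ)| + 2 ^ m * L t + J t * |(Γ t : ℝ)| := by
      rw [hD]; exact_mod_cast (hC t ht).2 n n1 n2
    have b2 : √m * |(Γ t : ℝ)| ≤ τ t * √(2 ^ m - 1) := by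
      rw [hτ, ← sqrt_sq_eq_abs, ← sqrt_mul (by positivity), ← sqrt_mul (by positivity)]
      refine sqrt_le_sqrt ?_
      have b3 := sum_mul_sq_le_sq_mul_sq (range (2 ^ M t)) (h t) (H (2 ^ m) k (M t / m))
      rw [← hΓ, ← hV] at b3
      have b4 : (Γ t : ℝ) ^ 2 ≤ V t * ((∑ w ∈ range (2 ^ M t),
        H (2 ^ m) k (M t / m) w ^ 2 : ℤ) : ℝ) := by exact_mod_cast b3
      refine (mul_le_mul_of_nonneg_left b4 (by positivity)).trans_eq ?_
      rw [mul_left_comm, HV t ht]; push_cast; ring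
    nlinarith [mul_le_mul_of_nonneg_left b1 (sqrt_nonneg m), mul_le_mul_of_nonneg_left b2
      (Nat.cast_nonneg (α := ℝ) (J t)), mul_le_mul_of_nonneg_right (Jf t).1 (sqrt_nonneg (2 ^ m - 1))]
  · obtain ⟨ht1, ht⟩ := ht
    have b0 := ht1 (ht0 t ht).1
    have g2 : g * g = 1 := by rcases hg with rfl | rfl <;> simp
    have b1 : (V t : ℤ) = ∑ w ∈ range (2 ^ M t), H (2 ^ m) k (M t / m) w ^ 2 := by
      rw [hV]; exact sum_congr rfl fun w _ => by rw [b0, mul_pow, sq g, g2, one_mul]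
    have b2 : g * Γ t = V t := by
      rw [b1, hΓ, mul_sum]
      exact sum_congr rfl fun w _ => by rw [b0, ← mul_assoc, ← mul_assoc, g2]; ring
    have b3 := HV t ht
    rw [← b1, Int.cast_natCast] at b3
    have b4 : m * (P t / m + J t * (L t / m)) = P t + J t * L t := by
      rw [mul_add, mul_left_comm, Nat.mul_div_cancel' (mL t ht),
        Nat.mul_div_cancel' ((mL t ht).trans (LP t))]
    refine ⟨P t / m + J t * (L t / m), by omega, ?_, ?_⟩
    · rw [b4]; push_cast; gcongr; exact (Jf t).2.1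
    have b5 : (g : ℝ) * D (P t / m + J t * (L t / m)) = g * C + J t * V t := by
      rw [hD, (hC t ht).1]
      have : (g : ℝ) * Γ t = V t := by exact_mod_cast b2
      push_cast; rw [← this]; ring
    have b6 : -|(C : ℝ)| ≤ g * C := by
      rcases hg with rfl | rfl <;> simp [neg_abs_le, le_abs_self]
    have b7 : √m * V t = τ t * √(2 ^ m - 1) := by
      rw [hτ, ← sqrt_mul (by positivity), ← sqrt_sq (Nat.cast_nonneg (α := ℝ) (V t)),
        ← sqrt_mul (by positivity), sq, ← mul_assoc, b3]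
      push_cast; ring_nf
    have M1' : (1 : ℝ) ≤ M t := by exact_mod_cast M1 t
    have b8 : V t * 2 ^ M t * M t ≠ 0 := by
      have := M1 t
      have : V t ≠ 0 := by
        rintro h
        have c2 : (2 : ℝ) ^ 1 ≤ 2 ^ m := pow_le_pow_right₀ one_le_two hm
        have : (0 : ℝ) < 2 ^ M t * M t * (2 ^ m - 1) := mul_pos (by positivity) (by linarith)
        rw [← b3, h] at this
        simp at this
      positivity
    have b9 : τ t ≤ √m * L t := by
      have c2 : (V t : ℤ) ≤ 2 ^ M t * (2 ^ M t * M t : ℕ) ^ 2 := by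
        rw [hV]
        refine (sum_le_sum fun w _ => sq_le_sq' (abs_le.1 (hK t w)).1 (abs_le.1 (hK t w)).2).trans ?_
        simp
      have c3 : V t ≤ 2 ^ M t * (2 ^ M t * M t) ^ 2 := by exact_mod_cast c2
      have c4 : V t * 2 ^ M t * M t ≤ L t ^ 2 := by
        have c5 : M t * (2 ^ M t * (2 ^ M t * M t)) ≤ L t := by rw [hL]; gcongr; omega
        refine le_trans ?_ (Nat.pow_le_pow_left c5 2)
        calc _ ≤ 2 ^ M t * (2 ^ M t * M t) ^ 2 * 2 ^ M t * (M t * M t) := by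
              gcongr; exact Nat.le_mul_self _
          _ = _ := by ring
      have c5 : τ t ≤ L t := by
        rw [hτ]; exact sqrt_le_iff.2 ⟨by positivity, by exact_mod_cast c4⟩
      have c6 : 1 ≤ √(m : ℝ) := one_le_sqrt.2 (by exact_mod_cast hm)
      nlinarith [Nat.cast_nonneg (α := ℝ) (L t)]
    rw [b5]
    nlinarith [mul_le_mul_of_nonneg_left b6 (sqrt_nonneg m), mul_le_mul_of_nonneg_right
      ((Jf t).2.2 b8) (sqrt_nonneg (2 ^ m - 1)), mul_le_mul_of_nonneg_right b9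
      (sqrt_nonneg (2 ^ m - 1)), congrArg ((J t : ℝ) * ·) b7]

end H13SN
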