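import Mathlib
import Pool.Agent.Lib.helper13.K4Free

set_option autoImplicit false

/-! Weighted series-parallel reduction for the Potts partition function. -/

namespace H13SP
open Finset Classical H13K4 Polynomial

variable {V : Type} [Fintype V]

def mono {C : Type} (σ : V → C) (e : Sym2 V) : Prop := (e.map σ).IsDiag

omit [Fintype V] in
theorem mono_mk {C : Type} (σ : V → C) (a b : V) : mono σ s(a, b) ↔ σ a = σ b := by
  simp [mono]

noncomputable def Wt (w : Sym2 V → ℂ) {q : ℕ} (σ : V → Fin q) : ℂ :=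
  ∏ e, if mono σ e then w e else 1

noncomputable def Zc (w : Sym2 V → ℂ) (q : ℕ) : ℂ := ∑ σ : V → Fin q, Wt w σ

noncomputable def bump (e : Sym2 V) (y : ℂ) : Sym2 V → ℂ := fun e' => if e' = e then y else 1

theorem Wt_bump (w : Sym2 V → ℂ) (e : Sym2 V) (y : ℂ) {q : ℕ} (σ : V → Fin q) :
    Wt (w * bump e y) σ = Wt w σ * (if mono σ e then y else 1) := by
  have : (if mono σ e then y else 1) = ∏ e', if e' = e then (if mono σ e' then y else 1) else 1 := by
    rw [Finset.prod_ite_eq']; simp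
  rw [this, Wt, Wt, ← Finset.prod_mul_distrib]
  apply Finset.prod_congr rfl
  intro e' _
  simp only [Pi.mul_apply, bump]
  split_ifs <;> simp

theorem Wt_update (w : Sym2 V → ℂ) (x : V) (hw : ∀ y, w s(x, y) = 1) {q : ℕ} (σ : V → Fin q)
    (c : Fin q) : Wt w (Function.update σ x c) = Wt w σ := by
  unfold Wt
  apply Finset.prod_congr rfl
  intro e _
  induction e using Sym2.ind with
  | h a b =>
    by_cases ha : a = x
    · rw [ha, hw]; simp
    · by_cases hb : b = x
      · rw [hb, Sym2.eq_swap, hw]; simp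
      · simp only [mono_mk, Function.update_of_ne ha, Function.update_of_ne hb]

theorem sum_update {q : ℕ} (f : (V → Fin q) → ℂ) (x : V) :
    (q : ℂ) * ∑ σ, f σ = ∑ σ, ∑ c, f (Function.update σ x c) := by
  let e : (V → Fin q) × Fin q ≃ (V → Fin q) × Fin q :=
    Function.Involutive.toPerm (fun p => (Function.update p.1 x p.2, p.1 x)) (by
      rintro ⟨σ, c⟩; simp)
  rw [← Fintype.sum_prod_type', ← Equiv.sum_comp e]
  have : ∀ p : (V → Fin q) × Fin q, f (Function.update (e p).1 x (e p).2) = f p.1 := by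
    rintro ⟨σ, c⟩; simp [e]
  simp only [this]
  rw [Fintype.sum_prod_type]
  simp [Finset.mul_sum]

theorem sum_c {q : ℕ} (a b : Fin q) (v1 v2 : ℂ) :
    ∑ c : Fin q, (if c = a then 1 + v1 else 1) * (if c = b then 1 + v2 else 1) =
      q + v1 + v2 + v1 * v2 * ((if a = b then 2 else 1) - 1) := by
  have : ∀ c : Fin q, (if c = a then 1 + v1 else 1) * (if c = b then 1 + v2 else 1) =
      1 + (if c = a then v1 else 0) + (if c = b then v2 else 0) +
        (if c = a then v1 * v2 * ((if a = b then 2 else 1) - 1) else 0) := by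
    intro c
    by_cases h1 : c = a <;> by_cases h2 : c = b
    · rw [← h1, ← h2]; simp; ring
    · have : ¬ a = b := by rwa [← h1]
      simp [h1, this]
    · have : ¬ b = a := by rwa [← h2]
      simp [h2, this]
    · simp [h1, h2]
  simp [this, Finset.sum_add_distrib]

theorem Zc_lin (w : Sym2 V → ℂ) (e : Sym2 V) (t : ℂ) (q : ℕ) :
    Zc (w * bump e (1 + t)) q = Zc w q + t * (Zc (w * bump e (1 + 1)) q - Zc w q) := by
  simp only [Zc, Wt_bump, ← Finset.sum_sub_distrib, Finset.mul_sum, ← Finset.sum_add_distrib]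
  apply Finset.sum_congr rfl
  intro σ _
  split_ifs <;> ring

theorem Zc_out (w : Sym2 V → ℂ) (x u1 u2 : V) (hw : ∀ y, w s(x, y) = 1) (h1 : u1 ≠ x)
    (h2 : u2 ≠ x) (v1 v2 : ℂ) (q : ℕ) :
    (q : ℂ) * Zc (w * bump s(x, u1) (1 + v1) * bump s(x, u2) (1 + v2)) q =
      (q + v1 + v2) * Zc w q + v1 * v2 * (Zc (w * bump s(u1, u2) (1 + 1)) q - Zc w q) := by
  rw [Zc, sum_update _ x]
  simp only [Zc, Wt_bump, ← Finset.sum_sub_distrib, Finset.mul_sum, ← Finset.sum_add_distrib]
  apply Finset.sum_congr rfl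
  intro σ _
  simp only [Wt_update w x hw, mono_mk, Function.update_self, Function.update_of_ne h1,
    Function.update_of_ne h2, mul_assoc, ← Finset.mul_sum]
  rw [sum_c]
  split_ifs <;> ring

theorem delta_le {k M Q A A' δ : ℝ} (hk : 0 < k) (hM : 1 ≤ M) (hQ : 12 * M ≤ Q)
    (hE : Real.exp (4 * k / Q) ≤ M) (hA0 : 0 ≤ A) (hA : A ≤ k) (hA' : A' ≤ k)
    (h : δ = 1 ∨ 1 + δ ≤ Real.exp ((4 * A + 4 * M / k * A') / Q)) : δ ≤ 1 + 2 * M * (A / k) := by
  have hs0 : 0 ≤ A / k := div_nonneg hA0 hk.le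
  have hs1 : A / k ≤ 1 := (div_le_one hk).2 hA
  rcases h with h | h
  · rw [h]; nlinarith
  have hQ0 : 0 < Q := by linarith
  have h1 : (4 * A + 4 * M / k * A') / Q ≤ A / k * (4 * k / Q) + 1 / 2 := by
    have e1 : A / k * (4 * k / Q) = 4 * A / Q := by field_simp
    have e2 : 4 * M / k * A' ≤ 4 * M := by
      rw [div_mul_eq_mul_div, div_le_iff₀ hk]; nlinarith
    rw [e1, add_div]
    have : 4 * M / k * A' / Q ≤ 1 / 2 := by rw [div_le_iff₀ hQ0]; linarith
    linarith
  have h2 : Real.exp (1 / 2) ≤ 2 := by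
    have := Real.exp_one_lt_three
    have h3 : Real.exp (1 / 2) * Real.exp (1 / 2) = Real.exp 1 := by
      rw [← Real.exp_add]; norm_num
    nlinarith [Real.exp_pos (1 / 2)]
  have h3 : Real.exp (A / k * (4 * k / Q)) ≤ 1 + A / k * M := by
    have := convexOn_exp.2 (Set.mem_univ 0) (Set.mem_univ (4 * k / Q))
      (by linarith : 0 ≤ 1 - A / k) hs0 (by ring)
    simp only [smul_eq_mul, mul_zero, zero_add, Real.exp_zero, mul_one] at this
    nlinarith
  have h4 := Real.exp_le_exp.2 h1
  rw [Real.exp_add] at h4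
  nlinarith [Real.exp_pos (A / k * (4 * k / Q)), Real.exp_pos (1 / 2)]

theorem series_le {k M A B : ℝ} {z v1 v2 : ℂ} (hk : 0 < k) (hM : 1 ≤ M) (hQ : 12 * M ≤ ‖z‖)
    (hM2 : 6 * M ^ 2 ≤ k) (hA1 : 1 ≤ A) (hA : A ≤ k) (hB0 : 0 ≤ B) (hB : B ≤ k)
    (h1 : ‖v1‖ ≤ 1 + 2 * M * (A / k)) (h2 : ‖v2‖ ≤ 1 + 2 * M * (B / k)) :
    z + v1 + v2 ≠ 0 ∧
      1 + ‖v1 * v2 / (z + v1 + v2)‖ ≤ Real.exp ((4 * A + 4 * M / k * B) / ‖z‖) := by
  have hs1 : A / k ≤ 1 := (div_le_one hk).2 hA
  have ht0 : 0 ≤ B / k := div_nonneg hB0 hk.le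
  have hs0 : 0 ≤ A / k := div_nonneg (by linarith) hk.le
  have ht1 : B / k ≤ 1 := (div_le_one hk).2 hB
  have h3 : ‖z‖ / 2 ≤ ‖z + v1 + v2‖ := by
    have e : z = (z + v1 + v2) - v1 - v2 := by ring
    have h4 : ‖z‖ ≤ ‖z + v1 + v2‖ + ‖v1‖ + ‖v2‖ := by
      conv_lhs => rw [e]
      exact (norm_sub_le _ _).trans (by linarith [norm_sub_le (z + v1 + v2) v1])
    nlinarith
  have hz : 0 < ‖z‖ := by linarith
  refine ⟨norm_pos_iff.mp (by linarith), ?_⟩
  refine le_trans ?_ (Real.add_one_le_exp _)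
  rw [add_comm, add_le_add_iff_right, norm_div, norm_mul, div_le_div_iff₀ (by linarith) hz]
  have h5 : ‖v1‖ * ‖v2‖ ≤ 2 * A + 2 * M * (B / k) := by
    have h6 : ‖v1‖ * ‖v2‖ ≤ (1 + 2 * M * (A / k)) * (1 + 2 * M * (B / k)) :=
      mul_le_mul h1 h2 (norm_nonneg _) (by positivity)
    have h7 : 6 * M ^ 2 * (A / k) ≤ A := by
      rw [← mul_div_assoc, div_le_iff₀ hk]; nlinarith
    have h8 : 2 * M * (A / k) ≤ 2 * M ^ 2 * (A / k) := by
      apply mul_le_mul_of_nonneg_right _ hs0; nlinarith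
    have h9 : 4 * M ^ 2 * (A / k) * (B / k) ≤ 4 * M ^ 2 * (A / k) :=
      mul_le_of_le_one_right (by positivity) ht1
    nlinarith
  have e : 4 * A + 4 * M / k * B = 2 * (2 * A + 2 * M * (B / k)) := by ring
  rw [e]
  have h10 : 0 ≤ 2 * A + 2 * M * (B / k) := by positivity
  nlinarith

structure Inv (k : ℕ) (M Q : ℝ) (H : SimpleGraph V) (w : Sym2 V → ℂ) (a : V → V → ℕ) : Prop where
  sum : ∀ p, ∑ r, a p r ≤ k
  one : ∀ p r, H.Adj p r → 1 ≤ a p r
  wt : ∀ p r, w s(p, r) = 0 ∨
    1 + ‖w s(p, r) - 1‖ ≤ Real.exp ((4 * (a p r : ℝ) + 4 * M / k * a r p) / Q)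

theorem Inv.le {k : ℕ} {M Q : ℝ} {H : SimpleGraph V} {w : Sym2 V → ℂ} {a : V → V → ℕ}
    (h : Inv k M Q H w a) (p r : V) : (a p r : ℝ) ≤ k := by
  exact_mod_cast (Finset.single_le_sum (fun _ _ => Nat.zero_le _) (mem_univ r)).trans (h.sum p)

theorem Inv.delta {k : ℕ} {M Q : ℝ} {H : SimpleGraph V} {w : Sym2 V → ℂ} {a : V → V → ℕ}
    (h : Inv k M Q H w a) (hk : (0 : ℝ) < k) (hM : 1 ≤ M) (hQ : 12 * M ≤ Q)
    (hE : Real.exp (4 * k / Q) ≤ M) (p r : V) :
    ‖w s(p, r) - 1‖ ≤ 1 + 2 * M * ((a p r : ℝ) / k) :=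
  delta_le hk hM hQ hE (Nat.cast_nonneg _) (h.le p r) (h.le r p) (by
    rcases h.wt p r with h1 | h1
    · left; rw [h1]; simp
    · exact Or.inr h1)

theorem poly_ext {P P' : ℂ[X]} (d : ℕ)
    (h : ∀ q : ℕ, 0 < q → (q : ℂ) ^ d * P.eval (q : ℂ) = (q : ℂ) ^ d * P'.eval (q : ℂ)) : P = P' := by
  apply Polynomial.eq_of_infinite_eval_eq
  refine Set.infinite_of_injective_forall_mem (f := fun j : ℕ => (((j + 1 : ℕ)) : ℂ)) ?_ ?_
  · intro a b h
    exact Nat.succ_injective (Nat.cast_injective (R := ℂ) h)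
  · intro j
    exact mul_left_cancel₀ (pow_ne_zero d (Nat.cast_ne_zero.mpr (Nat.succ_ne_zero j)))
      (h (j + 1) (Nat.succ_pos j))

theorem main (k : ℕ) (M : ℝ) (z : ℂ) (hk : (0 : ℝ) < k) (hM : 1 ≤ M) (hQ : 12 * M ≤ ‖z‖)
    (hM2 : 6 * M ^ 2 ≤ k) (hE : Real.exp (4 * k / ‖z‖) ≤ M) :
    ∀ (n d : ℕ) (A : Finset V) (H : SimpleGraph V) (w : Sym2 V → ℂ), A.card = n →
      Fintype.card V = n + d → (∀ p r, H.Adj p r → p ∈ A) → ¬ HasK4 H →
      (∀ p r, ¬ H.Adj p r → w s(p, r) = 1) →
      ∃ P : ℂ[X], (∀ q : ℕ, 0 < q → Zc w q = (q : ℂ) ^ d * P.eval (q : ℂ)) ∧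
        (∀ a, Inv k M ‖z‖ H w a → P.eval z ≠ 0) := by
  have hz0 : 0 < ‖z‖ := by linarith
  intro n
  induction n with
  | zero =>
    intro d A H w hA hd hH _ hw
    refine ⟨1, fun q _ => ?_, fun _ _ => by simp⟩
    have : ∀ σ : V → Fin q, Wt w σ = 1 := fun σ => Finset.prod_eq_one (fun e _ => by
      induction e using Sym2.ind with
      | h a b =>
        rw [hw a b (fun h => by
          have := hH a b h
          rw [Finset.card_eq_zero.mp hA] at this
          simp at this)]
        simp)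
    simp [Zc, this, hd]
  | succ n ih =>
    intro d A H w hA hd hH hK hw
    obtain ⟨x, hxA, hx⟩ := dirac A H hH (Finset.card_pos.mp (by omega)) hK
    have hA' : (A.erase x).card = n := by rw [Finset.card_erase_of_mem hxA]; omega
    have hd' : Fintype.card V = n + (d + 1) := by omega
    by_cases h0 : ∃ u1, H.Adj x u1
    swap
    · push Not at h0
      obtain ⟨P, hP1, hP2⟩ := ih (d + 1) (A.erase x) H w hA' hd'
        (fun p r h => Finset.mem_erase.mpr ⟨fun e => h0 r (e ▸ h), hH p r h⟩) hK hw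
      refine ⟨X * P, fun q hq => ?_, fun a ha => ?_⟩
      · rw [hP1 q hq, eval_mul, eval_X]; ring
      · rw [eval_mul, eval_X]
        exact mul_ne_zero (norm_pos_iff.mp hz0) (hP2 a ha)
    obtain ⟨u1, hu1⟩ := h0
    set w0 : Sym2 V → ℂ := fun e => if x ∈ e then 1 else w e with hw0
    have hw0x : ∀ y, w0 s(x, y) = 1 := fun y => by simp [hw0]
    have hH' : ∀ p r, (con H x u1).Adj p r → p ∈ A.erase x := by
      rintro p r ⟨-, hp, -, h | ⟨e, -⟩ | ⟨-, h⟩⟩
      · exact Finset.mem_erase.mpr ⟨hp, hH p r h⟩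
      · exact Finset.mem_erase.mpr ⟨hp, e ▸ hH u1 x hu1.symm⟩
      · exact Finset.mem_erase.mpr ⟨hp, hH p x h.symm⟩
    have hK' : ¬ HasK4 (con H x u1) := fun h => hK (h.of_con hu1)
    have hw0' : ∀ p r, ¬ (con H x u1).Adj p r → w0 s(p, r) = 1 := by
      intro p r h
      simp only [hw0]
      split_ifs with h1
      · rfl
      · simp only [Sym2.mem_iff, not_or] at h1
        exact hw p r (fun h2 => h ⟨h2.ne, Ne.symm h1.1, Ne.symm h1.2, Or.inl h2⟩)
    have cancel : ∀ (q : ℕ) (Y Z : ℂ), 0 < q → (q : ℂ) * Y = (q : ℂ) * Z → Y = Z :=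
      fun q Y Z hq h => mul_left_cancel₀ (Nat.cast_ne_zero.mpr hq.ne') h
    by_cases h1 : ∃ u2, H.Adj x u2 ∧ u2 ≠ u1
    swap
    · push Not at h1
      obtain ⟨P, hP1, hP2⟩ := ih (d + 1) (A.erase x) _ w0 hA' hd' hH' hK' hw0'
      have hww : w = w0 * bump s(x, u1) (1 + (w s(x, u1) - 1)) * bump s(x, u1) (1 + 0) := by
        funext e
        simp only [Pi.mul_apply, bump, hw0]
        by_cases he : e = s(x, u1)
        · simp [he]
        · simp only [if_neg he, mul_one]
          split_ifs with h2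
          · obtain ⟨y, rfl⟩ := Sym2.mem_iff_exists.mp h2
            exact hw x y (fun h3 => he (by rw [h1 y h3]))
          · rfl
      refine ⟨(X + C (w s(x, u1) - 1)) * P, fun q hq => cancel q _ _ hq ?_, fun a ha => ?_⟩
      · conv_lhs => rw [hww]
        rw [Zc_out w0 x u1 u1 hw0x hu1.ne' hu1.ne', hP1 q hq]
        simp only [eval_mul, eval_add, eval_X, eval_C]
        ring
      · simp only [eval_mul, eval_add, eval_X, eval_C]
        refine mul_ne_zero ?_ (hP2 a ⟨ha.sum, ?_, ?_⟩)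
        · have := (series_le (v2 := 0) (B := 0) hk hM hQ hM2
            (by exact_mod_cast ha.one u1 x hu1.symm) (ha.le u1 x) le_rfl hk.le
            (ha.delta hk hM hQ hE u1 x) (by simp)).1
          rwa [add_zero, Sym2.eq_swap] at this
        · rintro p r ⟨hpr, -, -, h | ⟨e, h⟩ | ⟨e, h⟩⟩
          · exact ha.one p r h
          · exact absurd (e.trans (h1 r h).symm) hpr
          · exact absurd ((h1 p h).trans e.symm) hpr
        · intro p r
          simp only [hw0]
          split_ifs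
          · right
            simp only [sub_self, norm_zero, add_zero]
            exact Real.one_le_exp (by positivity)
          · exact ha.wt p r
    obtain ⟨u2, hu2, h21⟩ := h1
    have hnb : ∀ y, H.Adj x y → y = u1 ∨ y = u2 := by
      intro y hy
      by_contra hc
      push Not at hc
      exact hx ⟨u1, u2, y, h21.symm, hc.1.symm, hc.2.symm, hu1, hu2, hy⟩
    have hadj12 : (con H x u1).Adj u1 u2 :=
      ⟨h21.symm, hu1.ne', hu2.ne', Or.inr (Or.inl ⟨rfl, hu2⟩)⟩
    have hwt : ∀ t : ℂ, ∀ p r, ¬ (con H x u1).Adj p r →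
        (w0 * bump s(u1, u2) (1 + t)) s(p, r) = 1 := by
      intro t p r h
      simp only [Pi.mul_apply, bump, hw0' p r h, one_mul]
      rw [if_neg]
      intro e
      rcases Sym2.eq_iff.mp e with ⟨rfl, rfl⟩ | ⟨rfl, rfl⟩
      · exact h hadj12
      · exact h hadj12.symm
    set v1 := w s(x, u1) - 1 with hv1
    set v2 := w s(x, u2) - 1 with hv2
    set t := v1 * v2 / (z + v1 + v2) with ht
    obtain ⟨P0, hP0, -⟩ := ih (d + 1) (A.erase x) _ w0 hA' hd' hH' hK' hw0'
    obtain ⟨P1, hP1, -⟩ := ih (d + 1) (A.erase x) _ _ hA' hd' hH' hK' (hwt 1)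
    obtain ⟨Pt, hPt, hPt2⟩ := ih (d + 1) (A.erase x) _ _ hA' hd' hH' hK' (hwt t)
    have hPP : Pt = P0 + C t * (P1 - P0) := poly_ext (d + 1) (fun q hq => by
      rw [← hPt q hq, Zc_lin, hP0 q hq, hP1 q hq]
      simp only [eval_mul, eval_add, eval_sub, eval_C]
      ring)
    have hne : s(x, u1) ≠ s(x, u2) := fun h => h21 (Sym2.congr_right.mp h).symm
    have hww : w = w0 * bump s(x, u1) (1 + v1) * bump s(x, u2) (1 + v2) := by
      funext e
      simp only [Pi.mul_apply, bump, hw0]
      by_cases he : e = s(x, u1)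
      · simp [he, hne, hv1]
      · by_cases he2 : e = s(x, u2)
        · simp [he2, hne.symm, hv2]
        · simp only [if_neg he, if_neg he2, mul_one]
          split_ifs with h2
          · obtain ⟨y, rfl⟩ := Sym2.mem_iff_exists.mp h2
            refine hw x y (fun h3 => ?_)
            rcases hnb y h3 with rfl | rfl
            · exact he rfl
            · exact he2 rfl
          · rfl
    refine ⟨(X + C v1 + C v2) * P0 + C (v1 * v2) * (P1 - P0),
      fun q hq => cancel q _ _ hq ?_, fun a ha => ?_⟩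
    · conv_lhs => rw [hww]
      rw [Zc_out w0 x u1 u2 hw0x hu1.ne' hu2.ne', hP0 q hq, hP1 q hq]
      simp only [eval_mul, eval_add, eval_sub, eval_X, eval_C]
      ring
    · have d1 : ‖v1‖ ≤ 1 + 2 * M * ((a u1 x : ℝ) / k) := by
        rw [hv1, Sym2.eq_swap]; exact ha.delta hk hM hQ hE u1 x
      have d2 : ‖v2‖ ≤ 1 + 2 * M * ((a u2 x : ℝ) / k) := by
        rw [hv2, Sym2.eq_swap]; exact ha.delta hk hM hQ hE u2 x
      obtain ⟨s1, s2⟩ := series_le hk hM hQ hM2 (by exact_mod_cast ha.one u1 x hu1.symm)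
        (ha.le u1 x) (Nat.cast_nonneg _) (ha.le u2 x) d1 d2
      obtain ⟨-, s3⟩ := series_le hk hM hQ hM2 (by exact_mod_cast ha.one u2 x hu2.symm)
        (ha.le u2 x) (Nat.cast_nonneg _) (ha.le u1 x) d2 d1
      rw [mul_comm v2 v1, add_right_comm z v2 v1] at s3
      rw [← ht] at s2 s3
      let a' : V → V → ℕ := fun p r => if r = x then 0 else
        a p r + (if s(p, r) = s(u1, u2) then a p x else 0)
      have key := hPt2 a' ⟨fun p => ?_, ?_, fun p r => ?_⟩
      · rw [hPP] at key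
        intro h
        apply key
        simp only [eval_mul, eval_add, eval_sub, eval_X, eval_C] at h ⊢
        rw [ht]
        field_simp
        linear_combination h
      · refine le_trans ?_ (ha.sum p)
        rw [← Finset.add_sum_erase _ _ (mem_univ x), ← Finset.add_sum_erase _ (a p) (mem_univ x)]
        have e1 : ∑ r ∈ univ.erase x, a' p r =
            ∑ r ∈ univ.erase x, (a p r + (if s(p, r) = s(u1, u2) then a p x else 0)) :=
          Finset.sum_congr rfl (fun r hr => if_neg (Finset.ne_of_mem_erase hr))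
        have e2 : ∑ r ∈ univ.erase x, (if s(p, r) = s(u1, u2) then a p x else 0) ≤ a p x := by
          rw [← Finset.sum_filter, Finset.sum_const, smul_eq_mul]
          refine le_trans (Nat.mul_le_mul_right _ (Finset.card_le_one.mpr ?_)) (by simp)
          intro r hr r' hr'
          exact Sym2.congr_right.mp ((mem_filter.mp hr).2.trans (mem_filter.mp hr').2.symm)
        have e3 : a' p x = 0 := if_pos rfl
        rw [e1, e3, Finset.sum_add_distrib]
        omega
      · rintro p r ⟨hpr, hp, hr, h | ⟨e, h⟩ | ⟨e, h⟩⟩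
        · have := ha.one p r h
          simp only [a', if_neg hr]
          omega
        · have h2 : r = u2 := (hnb r h).resolve_left (fun h' => hpr (e.trans h'.symm))
          have := ha.one u1 x hu1.symm
          simp only [a', if_neg hr, e, h2, if_true]
          rw [if_neg hu2.ne']
          omega
        · have h2 : p = u2 := (hnb p h).resolve_left (fun h' => hpr (h'.trans e.symm))
          have := ha.one u2 x hu2.symm
          simp only [a', e, h2, Sym2.eq_swap (a := u2), if_true]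
          rw [if_neg hu1.ne']
          omega
      · simp only [Pi.mul_apply, bump, hw0]
        by_cases hx' : x ∈ s(p, r)
        · have : s(p, r) ≠ s(u1, u2) := fun h => by
            rw [h, Sym2.mem_iff] at hx'
            rcases hx' with h' | h'
            · exact hu1.ne h'
            · exact hu2.ne h'
          right
          simp only [if_pos hx', if_neg this, mul_one, sub_self, norm_zero, add_zero]
          exact Real.one_le_exp (by positivity)
        · have hx'' := hx'
          simp only [Sym2.mem_iff, not_or] at hx''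
          have hp : p ≠ x := Ne.symm hx''.1
          have hr : r ≠ x := Ne.symm hx''.2
          simp only [if_neg hx', a', if_neg hp, if_neg hr, Sym2.eq_swap (a := r) (b := p)]
          by_cases he : s(p, r) = s(u1, u2)
          · simp only [if_pos he]
            rcases ha.wt p r with h | h
            · left; rw [h, zero_mul]
            · right
              have s4 : 1 + ‖t‖ ≤ Real.exp ((4 * (a p x : ℝ) + 4 * M / k * a r x) / ‖z‖) := by
                rcases Sym2.eq_iff.mp he with ⟨rfl, rfl⟩ | ⟨rfl, rfl⟩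
                · exact s2
                · exact s3
              have e4 : (4 * ((a p r + a p x : ℕ) : ℝ) + 4 * M / k * ((a r p + a r x : ℕ) : ℝ)) / ‖z‖ =
                  (4 * (a p r : ℝ) + 4 * M / k * a r p) / ‖z‖ +
                  (4 * (a p x : ℝ) + 4 * M / k * a r x) / ‖z‖ := by push_cast; ring
              rw [e4, Real.exp_add]
              refine le_trans ?_ (mul_le_mul h s4 (by positivity) (Real.exp_pos _).le)
              have e5 : w s(p, r) * (1 + t) - 1 = (w s(p, r) - 1) + t + (w s(p, r) - 1) * t := by ring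
              rw [e5]
              have := norm_add₃_le (a := w s(p, r) - 1) (b := t) (c := (w s(p, r) - 1) * t)
              rw [norm_mul] at this
              nlinarith
          · simpa [he] using ha.wt p r

end H13SP
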