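import Mathlib

set_option autoImplicit false

namespace H13ScTri

/-- `P` is an isomorphism-permutation of `G`: an isomorphism from `G` onto its complement. -/
def IsoPerm {V : Type} (G : SimpleGraph V) (P : Equiv.Perm V) : Prop :=
  ∀ u v, u ≠ v → (G.Adj u v ↔ ¬ G.Adj (P u) (P v))

def edges : List (ℕ × ℕ) :=
  [(0, 1), (0, 2), (0, 7), (0, 8), (1, 5), (1, 6), (1, 7), (2, 3), (2, 5), (2, 8), (3, 4), (3, 5),
    (3, 7), (4, 5), (4, 6), (4, 8), (6, 7), (6, 8)]

def adj (u v : Fin 9) : Bool := edges.contains (u.val, v.val) || edges.contains (v.val, u.val)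

def G9 : SimpleGraph (Fin 9) where
  Adj u v := adj u v = true
  symm := ⟨by decide⟩
  loopless := ⟨by decide⟩

instance : DecidableRel G9.Adj := fun u v => inferInstanceAs (Decidable (adj u v = true))

def P9 : Equiv.Perm (Fin 9) where
  toFun := ![1, 2, 3, 0, 5, 6, 7, 4, 8]
  invFun := ![3, 0, 1, 2, 7, 4, 5, 6, 8]
  left_inv := by decide
  right_inv := by decide

lemma key : ∀ a b c d : Fin 9, a ≠ 0 → b ≠ 0 → c ≠ 0 → d ≠ 0 → a ≠ b → a ≠ c → a ≠ d → b ≠ c →
    b ≠ d → c ≠ d → ¬ G9.Adj 0 a → ¬ G9.Adj 0 b → ¬ G9.Adj 0 c → ¬ G9.Adj 0 d → ¬ G9.Adj a b →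
    ¬ G9.Adj c d → False := by
  decide +kernel

theorem result :
    ¬ ∀ (V : Type) [Fintype V] (G : SimpleGraph V) (k : ℕ) (v : V),
      (∃ d : ℕ, ∀ u, (G.neighborSet u).ncard = d) → Nonempty (G ≃g Gᶜ) →
      Fintype.card V = 4 * k + 1 →
      {s : Finset V | G.IsNClique 3 s ∧ v ∈ s}.ncard = k * (k - 1) →
      ∃ P : Equiv.Perm V, IsoPerm G P ∧ P v = v := by
  intro h
  obtain ⟨P, hP, h0⟩ := h (Fin 9) G9 2 0
    ⟨4, fun u => by
      rw [← SimpleGraph.coe_neighborFinset, Set.ncard_coe_finset]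
      revert u; decide +kernel⟩
    ⟨⟨P9, by
      intro a b
      rw [SimpleGraph.compl_adj]
      revert a b; decide +kernel⟩⟩
    (by simp)
    (by
      have : {s : Finset (Fin 9) | G9.IsNClique 3 s ∧ (0 : Fin 9) ∈ s} =
          ((G9.cliqueFinset 3).filter (fun s => (0 : Fin 9) ∈ s) : Finset (Finset (Fin 9))) := by
        ext s; simp
      rw [this, Set.ncard_coe_finset]
      decide +kernel)
  have hne : ∀ a b : Fin 9, a ≠ b → P a ≠ P b := fun a b hab e => hab (P.injective e)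
  have hz : ∀ a : Fin 9, a ≠ 0 → P a ≠ 0 := fun a ha => h0 ▸ hne a 0 ha
  have hn : ∀ a b : Fin 9, G9.Adj a b → ¬ G9.Adj (P a) (P b) := fun a b hab =>
    (hP a b hab.ne).mp hab
  have hn0 : ∀ a : Fin 9, G9.Adj 0 a → ¬ G9.Adj 0 (P a) := fun a ha => by
    have := hn 0 a ha
    rwa [h0] at this
  exact key (P 1) (P 7) (P 2) (P 8) (hz _ (by decide)) (hz _ (by decide)) (hz _ (by decide))
    (hz _ (by decide)) (hne _ _ (by decide)) (hne _ _ (by decide)) (hne _ _ (by decide))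
    (hne _ _ (by decide)) (hne _ _ (by decide)) (hne _ _ (by decide)) (hn0 _ (by decide))
    (hn0 _ (by decide)) (hn0 _ (by decide)) (hn0 _ (by decide)) (hn _ _ (by decide))
    (hn _ _ (by decide))

end H13ScTri
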