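import Mathlib
import Pool.Agent.Lib.helper13.Gf

set_option autoImplicit false

namespace H13Stap

open Finset Pointwise Matrix

/-- The vertices: the join of a unit square and a simplex with six vertices, in a basis of an
index two refinement of the lattice spanned by the vertices. -/
def v : Fin 10 → Fin 9 → ℤ :=
  ![![0, 0, 0, 0, 0, 0, 0, 0, 1], ![1, 0, 0, 0, 0, 0, 0, 0, 1],
    ![0, -1, -1, -1, -1, -1, -1, 2, 1], ![1, -1, -1, -1, -1, -1, -1, 2, 1],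
    ![0, 1, 0, 0, 0, 0, 0, 0, 1], ![0, 0, 1, 0, 0, 0, 0, 0, 1], ![0, 0, 0, 1, 0, 0, 0, 0, 1],
    ![0, 0, 0, 0, 1, 0, 0, 0, 1], ![0, 0, 0, 0, 0, 1, 0, 0, 1], ![0, 0, 0, 0, 0, 0, 1, 0, 1]]

/-- The vertex set. -/
def S : Finset (Fin 9 → ℤ) := univ.image v

/-- The reflection of the square. -/
def A : Matrix (Fin 9) (Fin 9) ℤ := fun i j =>
  if i = 0 then ![-1, -1, -1, -1, -1, -1, -1, -3, 1] j else if i = j then 1 else 0

/-- The polytope. -/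
def P : Set (Fin 9 → ℝ) :=
  convexHull ℝ ((fun w : Fin 9 → ℤ => fun k => (w k : ℝ)) '' (S : Set (Fin 9 → ℤ)))

theorem P_eq : P = convexHull ℝ (Set.range fun i k => (v i k : ℝ)) := by
  rw [P, S, coe_image, coe_univ, Set.image_univ, ← Set.range_comp]
  rfl

theorem mem_P (m : ℝ) (hm : 0 ≤ m) (z : Fin 9 → ℝ) : z ∈ m • P ↔
    0 ≤ z 0 ∧ z 0 + z 1 + z 2 + z 3 + z 4 + z 5 + z 6 + 3 * z 7 ≤ z 8 ∧ 0 ≤ z 7 ∧
    2 * (z 1 + z 2 + z 3 + z 4 + z 5 + z 6) + 7 * z 7 ≤ 2 * z 8 ∧ 0 ≤ z 7 + 2 * z 1 ∧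
    0 ≤ z 7 + 2 * z 2 ∧ 0 ≤ z 7 + 2 * z 3 ∧ 0 ≤ z 7 + 2 * z 4 ∧ 0 ≤ z 7 + 2 * z 5 ∧
    0 ≤ z 7 + 2 * z 6 ∧ z 8 = m := by
  rw [P_eq, H13Gf.mem_hull _ _ hm]
  constructor
  · rintro ⟨w, h1, h2, h3⟩
    simp [Fin.sum_univ_succ, Fin.forall_fin_succ, v] at h1 h2 h3
    obtain ⟨a0, a1, a2, a3, a4, a5, a6, a7, a8, a9⟩ := h1
    obtain ⟨b0, b1, b2, b3, b4, b5, b6, b7, b8⟩ := h3
    refine ⟨?_, ?_, ?_, ?_, ?_, ?_, ?_, ?_, ?_, ?_, ?_⟩ <;> linarith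
  · rintro ⟨a0, a1, a2, a3, a4, a5, a6, a7, a8, a9, h⟩
    obtain ⟨u, u0, u1, u2, u3⟩ : ∃ u : ℝ, 0 ≤ u ∧ u ≤ z 0 ∧ u ≤ z 7 / 2 ∧
        z 0 + z 7 / 2 + (z 1 + z 2 + z 3 + z 4 + z 5 + z 6) + 3 * z 7 ≤ z 8 + u := by
      rcases le_total (z 0) (z 7 / 2) with h | h
      exacts [⟨z 0, a0, le_rfl, h, by linarith⟩, ⟨z 7 / 2, by linarith, h, le_rfl, by linarith⟩]
    refine ⟨![z 8 + u - (z 0 + z 7 / 2 + (z 1 + z 2 + z 3 + z 4 + z 5 + z 6) + 3 * z 7), z 0 - u,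
      z 7 / 2 - u, u, z 7 / 2 + z 1, z 7 / 2 + z 2, z 7 / 2 + z 3, z 7 / 2 + z 4, z 7 / 2 + z 5,
      z 7 / 2 + z 6], ?_, ?_, ?_⟩ <;> simp [Fin.sum_univ_succ, Fin.forall_fin_succ, v]
    · refine ⟨?_, ?_, ?_, ?_, ?_, ?_, ?_, ?_, ?_, ?_⟩ <;> linarith
    · linarith
    · refine ⟨?_, ?_, ?_, ?_, ?_, ?_, ?_, ?_⟩ <;> linarith

theorem mem_Z (m : ℕ) (z : Fin 9 → ℤ) : (fun k => (z k : ℝ)) ∈ (m : ℝ) • P ↔
    0 ≤ z 0 ∧ z 0 + z 1 + z 2 + z 3 + z 4 + z 5 + z 6 + 3 * z 7 ≤ z 8 ∧ 0 ≤ z 7 ∧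
    2 * (z 1 + z 2 + z 3 + z 4 + z 5 + z 6) + 7 * z 7 ≤ 2 * z 8 ∧ 0 ≤ z 7 + 2 * z 1 ∧
    0 ≤ z 7 + 2 * z 2 ∧ 0 ≤ z 7 + 2 * z 3 ∧ 0 ≤ z 7 + 2 * z 4 ∧ 0 ≤ z 7 + 2 * z 5 ∧
    0 ≤ z 7 + 2 * z 6 ∧ z 8 = m := by
  rw [mem_P _ (Nat.cast_nonneg m)]
  norm_cast

theorem A_mul (z : Fin 9 → ℤ) : A *ᵥ z = Function.update z 0
    (z 8 - (z 0 + z 1 + z 2 + z 3 + z 4 + z 5 + z 6 + 3 * z 7)) := by
  ext i
  refine Fin.cases ?_ (fun i => ?_) i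
  · simp [A, mulVec, dotProduct, Fin.sum_univ_succ]; ring
  · simp [A, mulVec, dotProduct]

/-- Parametrisation of all lattice points of the cone. -/
def φ (q : Fin 4 × (Fin 9 → ℕ)) : Fin 9 → ℤ :=
  let y : ℤ := ![0, 1 + q.2 1, 0, q.2 1] q.1 + q.2 2
  ![![q.2 1, 0, 1 + q.2 1, 0] q.1 + q.2 2, q.2 3 - y, q.2 4 - y, q.2 5 - y, q.2 6 - y, q.2 7 - y,
    q.2 8 - y, 2 * y + ![0, 0, 1, 1] q.1, (![0, 1, 4, 4] q.1 + ∑ i, 1 * q.2 i : ℕ)]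

/-- Parametrisation of the fixed lattice points of the cone. -/
def ψ (q : Fin 4 × (Fin 8 → ℕ)) : Fin 9 → ℤ :=
  let y : ℤ := ![0, 1, 0, 1] q.1 + 2 * q.2 1
  ![![0, 1, 1, 1] q.1 + q.2 0 + q.2 1, q.2 2 - y, q.2 3 - y, q.2 4 - y, q.2 5 - y, q.2 6 - y,
    q.2 7 - y, 2 * y + ![0, 0, 1, 1] q.1,
    (![0, 2, 5, 5] q.1 + ∑ i, ![2, 2, 1, 1, 1, 1, 1, 1] i * q.2 i : ℕ)]

theorem φ_inj : Function.Injective φ := by
  rintro ⟨f, n⟩ ⟨g, l⟩ h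
  simp only [φ, funext_iff, Fin.forall_fin_succ, Prod.mk.injEq] at h ⊢
  fin_cases f <;> fin_cases g <;> simp [Fin.sum_univ_succ] at h ⊢ <;> omega

theorem ψ_inj : Function.Injective ψ := by
  rintro ⟨f, n⟩ ⟨g, l⟩ h
  simp only [ψ, funext_iff, Fin.forall_fin_succ, Prod.mk.injEq] at h ⊢
  fin_cases f <;> fin_cases g <;> simp [Fin.sum_univ_succ] at h ⊢ <;> omega

theorem gf_one : (PowerSeries.mk fun m : ℕ => (({z : Fin 9 → ℤ |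
    (fun k => (z k : ℝ)) ∈ (m : ℝ) • P ∧ (1 : Matrix (Fin 9) (Fin 9) ℤ) *ᵥ z = z}.ncard : ℕ) : ℤ)) *
    (1 - PowerSeries.X) ^ 9 = 1 + PowerSeries.X + 2 * PowerSeries.X ^ 4 := by
  have h := H13Gf.gf_fam (fun _ => 1) (fun _ => one_pos) ![0, 1, 4, 4] φ φ_inj
    (fun m : ℕ => {z : Fin 9 → ℤ | (fun k => (z k : ℝ)) ∈ (m : ℝ) • P ∧
      (1 : Matrix (Fin 9) (Fin 9) ℤ) *ᵥ z = z}) fun m => by
    ext z
    simp only [Set.mem_ofPred_eq, mem_Z, one_mulVec, and_true, Set.mem_image, Prod.exists]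
    constructor
    · intro h
      obtain ⟨y, hy⟩ : ∃ y, z 7 = 2 * y ∨ z 7 = 2 * y + 1 := ⟨z 7 / 2, by omega⟩
      obtain ⟨H, hH⟩ : ∃ H, H = z 8 - (z 1 + z 2 + z 3 + z 4 + z 5 + z 6 + 3 * z 7) := ⟨_, rfl⟩
      obtain ⟨p1, hp1⟩ := Int.eq_ofNat_of_zero_le (a := y + z 1) (by omega)
      obtain ⟨p2, hp2⟩ := Int.eq_ofNat_of_zero_le (a := y + z 2) (by omega)
      obtain ⟨p3, hp3⟩ := Int.eq_ofNat_of_zero_le (a := y + z 3) (by omega)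
      obtain ⟨p4, hp4⟩ := Int.eq_ofNat_of_zero_le (a := y + z 4) (by omega)
      obtain ⟨p5, hp5⟩ := Int.eq_ofNat_of_zero_le (a := y + z 5) (by omega)
      obtain ⟨p6, hp6⟩ := Int.eq_ofNat_of_zero_le (a := y + z 6) (by omega)
      have key : ∀ (f : Fin 4) (a b c : ℤ), 0 ≤ a → 0 ≤ b → 0 ≤ c → (∀ a' b' c' : ℕ, a = a' →
          b = b' → c = c' → ![0, 1, 4, 4] f + ∑ i, 1 * ![a', b', c', p1, p2, p3, p4, p5, p6] i = m ∧
          φ (f, ![a', b', c', p1, p2, p3, p4, p5, p6]) = z) →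
          ∃ f n, ![0, 1, 4, 4] f + ∑ i, 1 * n i = m ∧ φ (f, n) = z := fun f _ _ _ ha hb hc h =>
        ⟨f, _, h _ _ _ (Int.toNat_of_nonneg ha).symm (Int.toNat_of_nonneg hb).symm
          (Int.toNat_of_nonneg hc).symm⟩
      rcases hy with hy | hy <;> rcases le_or_gt (z 0) y with h1 | h1
      · rcases h1.eq_or_lt with h1 | h1
        · refine key 0 (H - y) (0) (y) (by omega) (by omega) (by omega) fun a b c _ _ _ => ?_
          simp [φ, funext_iff, Fin.forall_fin_succ, Fin.sum_univ_succ]; omega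
        · refine key 1 (H - y) (y - z 0 - 1) (z 0) (by omega) (by omega) (by omega) fun a b c _ _ _ => ?_
          simp [φ, funext_iff, Fin.forall_fin_succ, Fin.sum_univ_succ]; omega
      · refine key 0 (H - z 0) (z 0 - y) (y) (by omega) (by omega) (by omega) fun a b c _ _ _ => ?_
        simp [φ, funext_iff, Fin.forall_fin_succ, Fin.sum_univ_succ]; omega
      · refine key 3 (H - 1 - y) (y - z 0) (z 0) (by omega) (by omega) (by omega) fun a b c _ _ _ => ?_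
        simp [φ, funext_iff, Fin.forall_fin_succ, Fin.sum_univ_succ]; omega
      · refine key 2 (H - z 0) (z 0 - 1 - y) (y) (by omega) (by omega) (by omega) fun a b c _ _ _ => ?_
        simp [φ, funext_iff, Fin.forall_fin_succ, Fin.sum_univ_succ]; omega
    · rintro ⟨f, n, h, rfl⟩
      fin_cases f <;> simp [φ, Fin.sum_univ_succ] at h ⊢ <;> omega
  simp only [pow_one, prod_const, card_univ, Fintype.card_fin] at h
  rw [h]
  simp [Fin.sum_univ_succ]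
  ring

theorem gf_A : (PowerSeries.mk fun m : ℕ => (({z : Fin 9 → ℤ |
    (fun k => (z k : ℝ)) ∈ (m : ℝ) • P ∧ A *ᵥ z = z}.ncard : ℕ) : ℤ)) *
    ((1 + PowerSeries.X) * (1 - PowerSeries.X) ^ 8) = 1 - PowerSeries.X + 2 * PowerSeries.X ^ 2 -
      2 * PowerSeries.X ^ 3 + 2 * PowerSeries.X ^ 4 := by
  have h := H13Gf.gf_fam ![2, 2, 1, 1, 1, 1, 1, 1] (by decide) ![0, 2, 5, 5] ψ ψ_inj
    (fun m : ℕ => {z : Fin 9 → ℤ | (fun k => (z k : ℝ)) ∈ (m : ℝ) • P ∧ A *ᵥ z = z}) fun m => by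
    ext z
    simp only [Set.mem_ofPred_eq, mem_Z, A_mul, Function.update_eq_self_iff, Set.mem_image,
      Prod.exists]
    constructor
    · intro h
      obtain ⟨s, hs⟩ : ∃ s, z 7 = 4 * s ∨ z 7 = 4 * s + 2 ∨ z 7 = 4 * s + 1 ∨ z 7 = 4 * s + 3 :=
        ⟨z 7 / 4, by omega⟩
      obtain ⟨y, hy⟩ : ∃ y, z 7 = 2 * y ∨ z 7 = 2 * y + 1 := ⟨z 7 / 2, by omega⟩
      obtain ⟨p1, hp1⟩ := Int.eq_ofNat_of_zero_le (a := y + z 1) (by omega)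
      obtain ⟨p2, hp2⟩ := Int.eq_ofNat_of_zero_le (a := y + z 2) (by omega)
      obtain ⟨p3, hp3⟩ := Int.eq_ofNat_of_zero_le (a := y + z 3) (by omega)
      obtain ⟨p4, hp4⟩ := Int.eq_ofNat_of_zero_le (a := y + z 4) (by omega)
      obtain ⟨p5, hp5⟩ := Int.eq_ofNat_of_zero_le (a := y + z 5) (by omega)
      obtain ⟨p6, hp6⟩ := Int.eq_ofNat_of_zero_le (a := y + z 6) (by omega)
      obtain ⟨b, hb⟩ := Int.eq_ofNat_of_zero_le (a := s) (by omega)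
      have key : ∀ (f : Fin 4) (a : ℤ), 0 ≤ a → (∀ a' : ℕ, a = a' → ![0, 2, 5, 5] f +
          ∑ i, ![2, 2, 1, 1, 1, 1, 1, 1] i * ![a', b, p1, p2, p3, p4, p5, p6] i = m ∧
          ψ (f, ![a', b, p1, p2, p3, p4, p5, p6]) = z) → ∃ f n, ![0, 2, 5, 5] f +
          ∑ i, ![2, 2, 1, 1, 1, 1, 1, 1] i * n i = m ∧ ψ (f, n) = z := fun f _ ha h =>
        ⟨f, _, h _ (Int.toNat_of_nonneg ha).symm⟩
      rcases hs with hs | hs | hs | hs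
      · refine key 0 (z 0 - s) (by omega) fun a _ => ?_
        simp [ψ, funext_iff, Fin.forall_fin_succ, Fin.sum_univ_succ]; omega
      · refine key 1 (z 0 - s - 1) (by omega) fun a _ => ?_
        simp [ψ, funext_iff, Fin.forall_fin_succ, Fin.sum_univ_succ]; omega
      · refine key 2 (z 0 - s - 1) (by omega) fun a _ => ?_
        simp [ψ, funext_iff, Fin.forall_fin_succ, Fin.sum_univ_succ]; omega
      · refine key 3 (z 0 - s - 1) (by omega) fun a _ => ?_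
        simp [ψ, funext_iff, Fin.forall_fin_succ, Fin.sum_univ_succ]; omega
    · rintro ⟨f, n, h, rfl⟩
      fin_cases f <;> simp [ψ, Fin.sum_univ_succ] at h ⊢ <;> omega
  have hX : (1 + PowerSeries.X : PowerSeries ℤ) ≠ 0 := fun h => by
    simpa using congrArg PowerSeries.constantCoeff h
  refine mul_right_cancel₀ hX ?_
  simp [Fin.sum_univ_succ, Fin.prod_univ_succ] at h
  linear_combination h

theorem AA : A * A = 1 := by decide +kernel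

/-- The action of the group of order two. -/
def ρ : ℤˣ →* Matrix (Fin 9) (Fin 9) ℤ where
  toFun g := if g = 1 then 1 else A
  map_one' := rfl
  map_mul' g h := by
    rcases Int.units_eq_one_or g with rfl | rfl <;> rcases Int.units_eq_one_or h with rfl | rfl <;>
    simp [AA]

theorem ρ_neg : ρ (-1) = A := rfl

end H13Stap
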