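import Mathlib

set_option autoImplicit false

open Finset

namespace H13St

theorem bonf {ι α : Type} [DecidableEq ι] [DecidableEq α] (W : ι → Finset α) (a c : ℕ)
    (ha : ∀ i, #(W i) = a) (hc : ∀ i j, i ≠ j → #(W i ∩ W j) ≤ c) (B : Finset ι) :
    2 * (#B * a) ≤ 2 * #(B.biUnion W) + #B * #B * c := by
  induction B using Finset.induction_on with
  | empty => simp
  | insert i B hi ih =>
    rw [biUnion_insert, card_insert_of_notMem hi]
    have h1 := card_union_add_card_inter (W i) (B.biUnion W)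
    have h2 : #(W i ∩ B.biUnion W) ≤ #B * c := by
      rw [inter_biUnion]
      exact card_biUnion_le_card_mul _ _ _ fun j hj => hc i j (fun e => hi (e ▸ hj))
    rw [ha] at h1
    nlinarith [Nat.zero_le c]

theorem core (j : ℕ) (hj : 1 ≤ j) : ∃ (p : ℕ) (H : Finset ℕ), j ^ j < p ∧
    (∀ u ∈ H, u < 2 * p * p) ∧ j * #H ≤ 2 * p * p ∧ ∀ B : Finset ℕ, (∀ b ∈ B, b < p) → #B = j →
      ∃ K : Finset ℕ, (∀ u ∈ K, u < 2 * p * p ∧ ∃ b ∈ B, ∃ a ∈ H, a + b = u) ∧
        2 * p * p ≤ 8 * #K := by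
  obtain ⟨p, hp1, hp⟩ := Nat.exists_infinite_primes (j ^ j + 2 * j + 1)
  have := Fact.mk hp
  obtain ⟨S, -, hS⟩ := exists_subset_card_eq (s := (univ : Finset (ZMod p))) (n := p / j)
    (by simpa using Nat.div_le_self p j)
  have hlt : ∀ (x : ℕ) (y : ZMod p), x < 2 * p → x + 2 * p * y.val < 2 * p * p := fun x y hx => by
    have := y.val_lt
    nlinarith
  have d1 : j * (p / j) ≤ p := Nat.mul_div_le p j
  have d2 : p ≤ 2 * (j * (p / j)) := by
    have := Nat.div_add_mod p j
    have := Nat.mod_lt p hj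
    omega
  refine ⟨p, (range (2 * p) ×ˢ S).image fun z => z.1 + 2 * p * (z.2 + (z.1 : ZMod p) ^ 2).val,
    by omega, fun u hu => ?_, ?_, fun B hB hBj => ?_⟩
  · obtain ⟨z, hz, rfl⟩ := mem_image.1 hu
    exact hlt _ _ (mem_range.1 (mem_product.1 hz).1)
  · refine (Nat.mul_le_mul_left _ card_image_le).trans ?_
    rw [card_product, card_range, hS]
    nlinarith
  have h2 : (2 : ZMod p) ≠ 0 := fun h => by
    have := Nat.le_of_dvd two_pos ((ZMod.natCast_eq_zero_iff 2 p).1 (by exact_mod_cast h))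
    omega
  let W : ZMod p → Finset (ZMod p × ZMod p) := fun b => {z | z.2 - (z.1 - b) ^ 2 ∈ S}
  have hW := bonf W (p * (p / j)) (p / j * (p / j)) (fun b => ?_) (fun b b' hb => ?_)
    (B.image (Nat.cast : ℕ → ZMod p))
  · rw [card_image_of_injOn fun x hx y hy h => by
      have := congrArg ZMod.val h
      rwa [ZMod.val_cast_of_lt (hB x hx), ZMod.val_cast_of_lt (hB y hy)] at this, hBj] at hW
    refine ⟨((B.image (Nat.cast : ℕ → ZMod p)).biUnion W).image
      fun z => p + z.1.val + 2 * p * z.2.val, fun u hu => ?_, ?_⟩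
    · obtain ⟨z, hz, rfl⟩ := mem_image.1 hu
      obtain ⟨_, hb0, hz⟩ := mem_biUnion.1 hz
      obtain ⟨b, hb, rfl⟩ := mem_image.1 hb0
      have := z.1.val_lt
      have := hB b hb
      refine ⟨hlt _ _ (by omega), b, hb, _, mem_image.2 ⟨(p + z.1.val - b, z.2 - (z.1 - b) ^ 2),
        mem_product.2 ⟨mem_range.2 (by omega), (mem_filter.1 hz).2⟩, rfl⟩, ?_⟩
      have : ((p + z.1.val - b : ℕ) : ZMod p) = z.1 - b := by
        rw [Nat.cast_sub (by omega)]; simp
      simp only [this, sub_add_cancel]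
      omega
    · rw [card_image_of_injective _ fun z w h => ?_]
      · generalize p / j = s at *
        have : j * j * (s * s) ≤ p * (j * s) := by nlinarith [Nat.mul_le_mul_right (j * s) d1]
        nlinarith [Nat.mul_le_mul_left p d2]
      have h1 := z.1.val_lt
      have h2 := w.1.val_lt
      have h3 := congrArg (· % (2 * p)) h
      simp only [Nat.add_mul_mod_self_left] at h3
      rw [Nat.mod_eq_of_lt (by omega), Nat.mod_eq_of_lt (by omega)] at h3
      simp only [h3, Nat.add_left_cancel_iff] at h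
      exact Prod.ext (ZMod.val_injective _ (by omega))
        (ZMod.val_injective _ (Nat.eq_of_mul_eq_mul_left (by omega) h))
  · rw [← hS, show p * #S = #((univ : Finset (ZMod p)) ×ˢ S) by simp]
    refine card_nbij' (fun z => (z.1, z.2 - (z.1 - b) ^ 2)) (fun z => (z.1, z.2 + (z.1 - b) ^ 2))
      ?_ ?_ ?_ ?_ <;> intro z hz <;> simp_all [W]
  · rw [← hS, ← card_product]
    refine card_le_card_of_injOn (fun z => (z.2 - (z.1 - b) ^ 2, z.2 - (z.1 - b') ^ 2))
      (fun z hz => by simpa [W] using hz) fun z _ w _ h => ?_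
    obtain ⟨e1, e2⟩ := Prod.ext_iff.1 h
    simp only at e1 e2
    have : z.1 = w.1 := by
      apply mul_left_cancel₀ (mul_ne_zero h2 (sub_ne_zero.2 hb))
      linear_combination e1 - e2
    exact Prod.ext this (by rw [this] at e1; linear_combination e1)

theorem many {h p : ℕ} (B : Finset ℕ)
    (hB : ∀ m < p, ∃ f : Fin h → ℕ, (∀ i, f i ∈ B) ∧ ∑ i, f i = m) : p ≤ #B ^ h := by
  have : range p ⊆ (Fintype.piFinset fun _ : Fin h => B).image fun f => ∑ i, f i := fun m hm => by
    obtain ⟨f, hf, e⟩ := hB m (mem_range.1 hm)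
    exact mem_image.2 ⟨f, Fintype.mem_piFinset.2 hf, e⟩
  simpa using (card_le_card this).trans card_image_le

/-- Blocks of slowly growing level. -/
theorem blocks (q : ℕ → ℕ) (hq : ∀ j, 1 ≤ q j) : ∃ (c J : ℕ → ℕ), c 0 = 2 ∧
    (∀ t, c (t + 1) = c t + q (J t)) ∧ StrictMono c ∧ (∀ t, J t * q (J t) ≤ c t) ∧
    ∀ k, ∃ T, ∀ t, T ≤ t → k ≤ J t := by
  let J : ℕ → ℕ := fun t => Nat.findGreatest (fun j => j * q j ≤ t) t
  let c : ℕ → ℕ := fun t => 2 + ∑ i ∈ range t, q (J i)
  have h1 : ∀ t, c (t + 1) = c t + q (J t) := fun t => by simp [c, sum_range_succ, add_assoc]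
  have h2 : StrictMono c := strictMono_nat_of_lt_succ fun t => by
    have := hq (J t); rw [h1]; omega
  refine ⟨c, J, rfl, h1, h2, fun t => ?_, fun k => ⟨k * q k, fun t ht => ?_⟩⟩
  · exact (Nat.findGreatest_spec (P := fun j => j * q j ≤ t) (Nat.zero_le t) (by simp)).trans
      (h2.id_le t)
  · exact Nat.le_findGreatest ((Nat.le_mul_of_pos_right _ (hq k)).trans ht) ht

theorem locate {c : ℕ → ℕ} (hc : StrictMono c) {T n : ℕ} (h : c T ≤ n) :
    ∃ t, T ≤ t ∧ c t ≤ n ∧ n < c (t + 1) := by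
  have h1 : T ≤ n := (hc.id_le T).trans h
  refine ⟨Nat.findGreatest (fun t => c t ≤ n) n, Nat.le_findGreatest h1 h,
    Nat.findGreatest_spec (P := fun t => c t ≤ n) h1 h, ?_⟩
  by_contra h2
  exact absurd (Nat.le_findGreatest (P := fun t => c t ≤ n) ((hc.id_le _).trans (not_lt.1 h2))
    (not_lt.1 h2)) (Nat.not_succ_le_self _)

theorem main : ∃ A : Set ℕ, 0 ∈ A ∧ 1 ∉ A ∧
    (∀ k, ∃ C, ∀ (n : ℕ) (F : Finset ℕ), (∀ a ∈ F, a ∈ A ∧ a ≤ n) → k * #F ≤ C + 3 * n) ∧
    ∀ (h : ℕ) (B : Set ℕ), (∀ m, ∃ f : Fin h → ℕ, (∀ i, f i ∈ B) ∧ ∑ i, f i = m) →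
      ∃ C, ∀ n : ℕ, ∃ F : Finset ℕ, (∀ u ∈ F, 1 ≤ u ∧ u ≤ n ∧ ∃ a ∈ A, ∃ b ∈ B, a + b = u) ∧
        n ≤ C + 16 * #F := by
  classical
  choose p H h1 h2 h3 h4 using fun j => core (j + 1) (by omega)
  obtain ⟨c, J, c0, cs, cm, cJ, cT⟩ := blocks (fun j => 2 * p j * p j) fun j => by
    have := h1 j
    show 1 ≤ 2 * p j * p j
    nlinarith [Nat.zero_le ((j + 1) ^ (j + 1))]
  have c2 : ∀ t, 2 ≤ c t := fun t => c0 ▸ cm.monotone (Nat.zero_le t)
  refine ⟨{a | a = 0 ∨ ∃ t, ∃ u ∈ H (J t), c t + u = a}, .inl rfl, ?_, fun k => ?_,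
    fun h B hB => ?_⟩
  · rintro (h | ⟨t, u, -, h⟩)
    · omega
    · have := c2 t; omega
  · obtain ⟨T, hT⟩ := cT k
    have key : ∀ t, T ≤ t → ∀ F : Finset ℕ, (∀ a ∈ F, (a = 0 ∨ ∃ t, ∃ u ∈ H (J t), c t + u = a) ∧
        a < c t) → k * #F ≤ k * c T + c t := by
      intro t ht
      induction t, ht using Nat.le_induction with
      | base =>
        intro F hF
        have := card_le_card (s := F) (t := range (c T)) fun a ha => mem_range.2 (hF a ha).2
        rw [card_range] at this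
        nlinarith
      | succ t ht ih =>
        intro F hF
        have e1 := ih {a ∈ F | a < c t} fun a ha => ⟨(hF a (mem_filter.1 ha).1).1, (mem_filter.1 ha).2⟩
        have e2 : #{a ∈ F | ¬a < c t} ≤ #(H (J t)) := by
          refine le_trans (card_le_card fun a ha => ?_) (card_image_le (f := (c t + ·)))
          obtain ⟨ha, ha'⟩ := mem_filter.1 ha
          obtain ⟨h | ⟨s, u, hu, rfl⟩, h'⟩ := hF a ha
          · have := c2 t; omega
          · have := h2 _ u hu
            have := cs s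
            have e3 : s < t + 1 := cm.lt_iff_lt.1 (by omega)
            have e4 : t < s + 1 := cm.lt_iff_lt.1 (by omega)
            obtain rfl : s = t := by omega
            exact mem_image_of_mem _ hu
        have e3 := card_filter_add_card_filter_not (s := F) (fun a => a < c t)
        have e4 := h3 (J t)
        have e5 := hT t ht
        rw [cs, ← e3]
        nlinarith [Nat.mul_le_mul (e5.trans (Nat.le_succ _)) e2]
    obtain ⟨T1, hT1⟩ := cT 1
    refine ⟨k * c T + c (max T T1), fun n F hF => ?_⟩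
    rcases lt_or_ge n (c (max T T1)) with h | h
    · have := key _ (le_max_left T T1) F fun a ha => ⟨(hF a ha).1, (hF a ha).2.trans_lt h⟩
      omega
    · obtain ⟨t, t1, t2, t3⟩ := locate cm h
      have := key (t + 1) (by omega) F fun a ha => ⟨(hF a ha).1, (hF a ha).2.trans_lt t3⟩
      have e1 := cJ t
      have e2 := Nat.mul_le_mul_right (2 * p (J t) * p (J t)) (hT1 t (by omega))
      rw [cs] at this
      omega
  · obtain ⟨T, hT⟩ := cT (h + 1)
    have key : ∀ t, T ≤ t → ∃ F : Finset ℕ, (∀ u ∈ F, 1 ≤ u ∧ u < c t ∧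
        ∃ a ∈ {a | a = 0 ∨ ∃ t, ∃ u ∈ H (J t), c t + u = a}, ∃ b ∈ B, a + b = u) ∧
        c t ≤ c T + 8 * #F := by
      intro t ht
      induction t, ht using Nat.le_induction with
      | base => exact ⟨∅, by simp, by simp⟩
      | succ t ht ih =>
        obtain ⟨F, hF, hF'⟩ := ih
        have e1 := many (h := h) (p := p (J t)) {b ∈ range (p (J t)) | b ∈ B} fun m hm => by
          obtain ⟨f, hf, e⟩ := hB m
          exact ⟨f, fun i => mem_filter.2 ⟨mem_range.2 (lt_of_le_of_lt
            (e ▸ single_le_sum (fun _ _ => Nat.zero_le _) (mem_univ i)) hm), hf i⟩, e⟩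
        obtain ⟨B', hB', hB''⟩ := exists_subset_card_eq (s := {b ∈ range (p (J t)) | b ∈ B})
          (n := J t + 1) (by
            by_contra e2
            have e3 := Nat.pow_le_pow_left (not_le.1 e2).le h
            have e4 := Nat.pow_le_pow_right (n := J t + 1) (by omega) (show h ≤ J t + 1 by
              have := hT t ht; omega)
            have := h1 (J t)
            omega)
        obtain ⟨K, hK, hK'⟩ := h4 _ B' (fun b hb => mem_range.1 (mem_filter.1 (hB' hb)).1) hB''
        have := cs t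
        have := c2 t
        refine ⟨F ∪ K.image (c t + ·), fun u hu => ?_, ?_⟩
        · rcases mem_union.1 hu with hu | hu
          · obtain ⟨u1, u2, u3⟩ := hF u hu
            exact ⟨u1, by omega, u3⟩
          · obtain ⟨v, hv, rfl⟩ := mem_image.1 hu
            obtain ⟨v1, b, hb, a, ha, rfl⟩ := hK v hv
            exact ⟨by omega, by omega, c t + a, .inr ⟨t, a, ha, rfl⟩, b,
              (mem_filter.1 (hB' hb)).2, add_assoc _ _ _⟩
        · rw [card_union_of_disjoint (disjoint_left.2 fun u hu hu' => by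
            obtain ⟨v, -, rfl⟩ := mem_image.1 hu'
            have := (hF _ hu).2.1
            omega), card_image_of_injective _ (add_right_injective _)]
          omega
    refine ⟨2 * c T, fun n => ?_⟩
    rcases lt_or_ge n (c T) with h' | h'
    · exact ⟨∅, by simp, by omega⟩
    · obtain ⟨t, t1, t2, t3⟩ := locate cm h'
      obtain ⟨F, hF, hF'⟩ := key t t1
      refine ⟨F, fun u hu => ⟨(hF u hu).1, by have := (hF u hu).2.1; omega, (hF u hu).2.2⟩, ?_⟩
      have e1 := cJ t
      have e2 := Nat.mul_le_mul_right (2 * p (J t) * p (J t)) (show 1 ≤ J t by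
        have := hT t t1; omega)
      rw [cs] at t3
      omega

end H13St
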