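import Mathlib
import Pool.Agent.Lib.helper13.TangRep

set_option autoImplicit false

namespace Pool.Agent.Lib.H13Tang

open Set Submodule
open scoped Matroid

variable {α F V : Type} [Field F] [AddCommGroup V] [Module F V] {M : Matroid α} {φ : α → V}

theorem Rep.ne_zero (h : Rep F M φ) (hs : Simple M) {x : α} (hx : x ∈ M.E) : φ x ≠ 0 := by
  have := hs x hx x hx
  rw [pair_eq_singleton, h _ (singleton_subset_iff.2 hx)] at this
  simpa using this

theorem Rep.eq_of_smul (h : Rep F M φ) (hs : Simple M) {x y : α} (hx : x ∈ M.E) (hy : y ∈ M.E)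
    {c d : F} (hc : c ≠ 0) (e : c • φ x = d • φ y) : x = y := by
  by_contra hxy
  have := hs x hx y hy
  rw [h _ (insert_subset hx (singleton_subset_iff.2 hy)), LinearIndepOn.pair_iff _ hxy] at this
  exact hc (this c (-d) (by rw [e, neg_smul, add_neg_cancel])).1

theorem isoSimplification {β : Type} [Finite β] (h : Rep F M φ) (hs : Simple M) (ψ : β → V)
    (E : Set β) (h1 : ∀ x ∈ M.E, ∃ e ∈ E, ∃ c : F, c ≠ 0 ∧ ψ e = c • φ x)
    (h2 : ∀ e ∈ E, ∃ x ∈ M.E, ∃ c : F, ψ e = c • φ x) (e0 : β) :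
    IsoSimplification M (linMat F ψ E) := by
  have h1' : ∀ x, ∃ e, ∃ c : Fˣ, x ∈ M.E → e ∈ E ∧ ψ e = c • φ x := fun x => by
    by_cases hx : x ∈ M.E
    · obtain ⟨e, he, c, hc, hh⟩ := h1 x hx
      exact ⟨e, Units.mk0 c hc, fun _ => ⟨he, hh⟩⟩
    · exact ⟨e0, 1, fun h => absurd h hx⟩
  choose f c hf using h1'
  have hinj : InjOn f M.E := fun x hx y hy hxy =>
    h.eq_of_smul hs hx hy (c x).ne_zero (d := c y) (by
      have e1 := (hf x hx).2
      have e2 := (hf y hy).2
      rw [hxy] at e1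
      exact e1.symm.trans e2)
  refine ⟨hs, f, hinj, fun x hx => (hf x hx).1, fun I hI => ?_, fun e he => ?_⟩
  · rw [h I hI, linMat_indep, and_iff_right (image_subset_iff.2 fun x hx => (hf x (hI hx)).1)]
    have e1 : LinearIndepOn F ψ (f '' I) ↔ LinearIndepOn F (ψ ∘ f) I :=
      ⟨fun h => h.comp_of_image (hinj.mono hI), fun h => h.image_of_comp f ψ⟩
    have e2 : LinearIndepOn F (ψ ∘ f) I ↔ LinearIndepOn F (fun x => c x • φ x) I :=
      linearIndepOn_congr fun x hx => (hf x (hI hx)).2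
    rw [e1, e2]
    exact (LinearIndependent.units_smul_iff (fun x : I => φ x) (fun x : I => c x)).symm
  · obtain ⟨x, hx, d, hd⟩ := h2 e he.mem_ground
    refine ⟨x, hx, ?_⟩
    rw [(linMat_rep ψ E).mem_closure (singleton_subset_iff.2 (hf x hx).1)]
    refine ⟨he.mem_ground, ?_⟩
    rw [image_singleton, mem_span_singleton]
    refine ⟨d * ((c x)⁻¹ : Fˣ), ?_⟩
    rw [(hf x hx).2, hd, Units.smul_def, smul_smul, mul_assoc, Units.inv_mul, mul_one]

theorem core [Finite α] [Fintype F] (h : Rep F M φ) (hs : Simple M) {H : Set α}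
    (hH : IsModularFlat M H) (hr : rk M H + 1 = rk M M.E) (k : ℕ)
    (hblock : ¬ ∃ L : V →ₗ[F] (Fin k → F), ∀ e ∈ M.E, L (φ e) ≠ 0)
    (htan : ∀ a ∈ M.E, ∃ L : V →ₗ[F] (Fin k → F), L (φ a) = 0 ∧
      ∀ e ∈ M.E, e ≠ a → L (φ e) ≠ 0) : Normal M (Fintype.card F) k := by
  classical
  have hHE : H ⊆ M.E := hH.1.subset_ground
  have hmono : ∀ X Y, X ⊆ Y → rk M X ≤ rk M Y := fun X Y hX => by
    have := M.eRk_mono hX
    rw [← rk_coe, ← rk_coe] at this
    exact_mod_cast this
  obtain ⟨a0, ha0E, ha0H⟩ : ∃ a, a ∈ M.E ∧ a ∉ H := by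
    by_contra hcon
    push Not at hcon
    have := hmono _ _ hcon
    omega
  have hnot : ∀ a ∈ M.E, a ∉ H → φ a ∉ span F (φ '' H) := fun a ha haH hm =>
    haH (hH.1.closure ▸ (h.mem_closure hHE a).2 ⟨ha, hm⟩)
  obtain ⟨l, hl0, hlH⟩ := (span F (φ '' H)).exists_dual_map_eq_bot_of_notMem (hnot a0 ha0E ha0H)
    inferInstance
  have hlx : ∀ x ∈ H, l (φ x) = 0 := fun x hx => by
    have : l (φ x) ∈ (span F (φ '' H)).map l := mem_map_of_mem (subset_span ⟨x, hx, rfl⟩)
    rwa [hlH, mem_bot] at this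
  have hla : ∀ a ∈ M.E, a ∉ H → l (φ a) ≠ 0 := fun a ha haH h0 => by
    have h1 : M.eRk (insert a H) = M.eRk H + 1 :=
      Matroid.eRk_insert_eq_add_one ⟨ha, by rwa [hH.1.closure]⟩
    have h2 : M.closure (insert a H) = M.closure M.E :=
      (M.isRkFinite_of_finite (toFinite _)).closure_eq_closure_of_subset_of_eRk_ge_eRk (insert_subset ha hHE)
        (by rw [h1, ← rk_coe, ← rk_coe, ← hr]; exact le_of_eq (by push_cast; rfl))
    have h3 : a0 ∈ M.closure (insert a H) := by rw [h2, M.closure_ground]; exact ha0E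
    have h4 := ((h.mem_closure (insert_subset ha hHE) a0).1 h3).2
    have h5 : span F (φ '' insert a H) ≤ LinearMap.ker l := by
      rw [span_le]
      rintro _ ⟨x, hx | hx, rfl⟩
      · rw [hx]; exact h0
      · exact hlx x hx
    exact hl0 (h5 h4)
  let A := {a : α // a ∈ M.E ∧ a ∉ H}
  let v : A → V := fun a => (l (φ a))⁻¹ • φ a
  have hφv : ∀ a : A, φ a = l (φ a) • v a := fun a => by
    simp only [v]; rw [smul_smul, mul_inv_cancel₀ (hla _ a.2.1 a.2.2), one_smul]
  have hline : ∀ a b : A, a ≠ b → ∃ x ∈ H, ∃ c : F, c ≠ 0 ∧ φ x = c • (v a - v b) :=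
    fun a b hab => by
    have hab' : a.1 ≠ b.1 := fun e => hab (Subtype.ext e)
    have hsub : ({a.1, b.1} : Set α) ⊆ M.E := insert_subset a.2.1 (singleton_subset_iff.2 b.2.1)
    have h1 := hH.2 _ (M.isFlat_closure {a.1, b.1})
    have h2 : rk M (M.closure {a.1, b.1}) = 2 := by
      have := rk_indep (hs _ a.2.1 _ b.2.1)
      rw [ncard_pair hab'] at this
      rw [← this]; simp only [rk, M.eRk_closure_eq]
    have h3 := hmono _ _ (union_subset hHE (M.closure_subset_ground {a.1, b.1}))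
    have h4 : (H ∩ M.closure {a.1, b.1}).Nonempty := by
      rw [nonempty_iff_ne_empty]
      intro h0
      rw [h0] at h1
      have : rk M ∅ = 0 := by simp [rk]
      omega
    obtain ⟨x, hxH, hx⟩ := h4
    have h5 := ((h.mem_closure hsub x).1 hx).2
    rw [image_pair, mem_span_pair] at h5
    obtain ⟨s, t, hst⟩ := h5
    have h6 : s * l (φ a) + t * l (φ b) = 0 := by
      rw [← hlx x hxH, ← hst]; simp
    have h7 : φ x = (s * l (φ a)) • (v a - v b) := by
      rw [← hst, smul_sub, eq_neg_of_add_eq_zero_left h6]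
      conv_lhs => rw [hφv a, hφv b]
      rw [smul_smul, smul_smul, eq_neg_of_add_eq_zero_left h6]
      module
    refine ⟨x, hxH, _, fun h0 => h.ne_zero hs (hHE hxH) ?_, h7⟩
    rw [h7, h0, zero_smul]
  have hcard : Nat.card A = Nat.card (Fin k → F) := by
    obtain ⟨L, -, hL⟩ := htan a0 ha0E
    have hLH : ∀ x ∈ H, L (φ x) ≠ 0 := fun x hx => hL x (hHE hx) (fun e => ha0H (e ▸ hx))
    refine Nat.card_congr (Equiv.ofBijective (fun a => L (v a)) ⟨fun a b hab => ?_, fun w => ?_⟩)
    · by_contra hne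
      obtain ⟨x, hx, c, -, hc⟩ := hline a b hne
      apply hLH x hx
      simp only at hab
      rw [hc, map_smul, map_sub, hab, sub_self, smul_zero]
    · by_contra hw
      push Not at hw
      refine hblock ⟨L - l.smulRight w, fun e he => ?_⟩
      by_cases heH : e ∈ H
      · simpa [hlx e heH] using hLH e heH
      · rw [LinearMap.sub_apply, LinearMap.smulRight_apply]
        conv_lhs => arg 1; rw [hφv ⟨e, he, heH⟩]
        rw [map_smul, ← smul_sub]
        exact smul_ne_zero (hla e he heH) (sub_ne_zero.2 (hw _))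
  have hdir : ∀ x ∈ H, ∃ a b : A, a ≠ b ∧ ∃ c : F, c ≠ 0 ∧ φ x = c • (v a - v b) := fun x0 hx0 => by
    by_contra hcon
    obtain ⟨L, hL0, hL⟩ := htan x0 (hHE hx0)
    have hinj : Function.Injective fun a : A => L (v a) := fun a b hab => by
      by_contra hne
      obtain ⟨x, hx, c, hc0, hc⟩ := hline a b hne
      have hxx : x ≠ x0 := fun e => hcon ⟨a, b, hne, c, hc0, e ▸ hc⟩
      apply hL x (hHE hx) hxx
      simp only at hab
      rw [hc, map_smul, map_sub, hab, sub_self, smul_zero]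
    obtain ⟨a, ha⟩ := ((Nat.bijective_iff_injective_and_card _).2 ⟨hinj, hcard⟩).2 0
    apply hL a a.2.1 (fun e => a.2.2 (e ▸ hx0))
    simp only at ha
    rw [hφv a, map_smul, ha, smul_zero]
  have hc2 : Nat.card (Option A) = Nat.card (Fin (Fintype.card F ^ k + 1)) := by
    rw [Finite.card_option, hcard]; simp
  obtain ⟨ε⟩ := Finite.card_eq.1 hc2
  let t : Fin (Fintype.card F ^ k + 1) → V := fun i => (ε.symm i).elim 0 v
  have ht0 : t (ε none) = 0 := by simp [t]
  have hts : ∀ a, t (ε (some a)) = v a := fun a => by simp [t]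
  refine ⟨cyc _, linMat F (dv t) (⊤ : SimpleGraph _).edgeSet, cyc_spec _, isQuotient_cyc _ t,
    isoSimplification h hs _ _ (fun x hx => ?_) (fun e he => ?_) s(ε none, ε none)⟩
  · by_cases hxH : x ∈ H
    · obtain ⟨a, b, hab, c, hc0, hc⟩ := hdir x hxH
      refine ⟨s(ε (some a), ε (some b)), by simpa using hab, ?_⟩
      rcases dv_mk t (ε (some a)) (ε (some b)) with e | e
      · exact ⟨c⁻¹, inv_ne_zero hc0, by rw [e, hts, hts, hc, inv_smul_smul₀ hc0]⟩
      · exact ⟨-c⁻¹, neg_ne_zero.2 (inv_ne_zero hc0), by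
          rw [e, hts, hts, hc, neg_smul, inv_smul_smul₀ hc0, neg_sub]⟩
    · refine ⟨s(ε (some ⟨x, hx, hxH⟩), ε none), by simp, ?_⟩
      have h0 := inv_ne_zero (hla x hx hxH)
      rcases dv_mk t (ε (some ⟨x, hx, hxH⟩)) (ε none) with e | e
      · exact ⟨_, h0, by rw [e, hts, ht0, sub_zero]⟩
      · exact ⟨_, neg_ne_zero.2 h0, by rw [e, hts, ht0, zero_sub, neg_smul]⟩
  · have key : ∀ i j, i ≠ j → ∃ x ∈ M.E, ∃ c : F, t i - t j = c • φ x := fun i j hij => by
      obtain ⟨i, rfl⟩ := ε.surjective i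
      obtain ⟨j, rfl⟩ := ε.surjective j
      rcases i with _ | a <;> rcases j with _ | b
      · exact absurd rfl hij
      · exact ⟨b, b.2.1, -(l (φ b))⁻¹, by rw [hts, ht0, zero_sub, neg_smul]⟩
      · exact ⟨a, a.2.1, (l (φ a))⁻¹, by rw [hts, ht0, sub_zero]⟩
      · obtain ⟨x, hx, c, hc0, hc⟩ := hline a b (fun e => hij (by rw [e]))
        exact ⟨x, hHE hx, c⁻¹, by rw [hts, hts, hc, inv_smul_smul₀ hc0]⟩
    induction e using Sym2.ind with
    | h i j =>
      have hij : i ≠ j := by simpa using he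
      rcases dv_mk t i j with e | e
      · rw [e]; exact key i j hij
      · rw [e]; exact key j i hij.symm

theorem Simple.isNonloop (hs : Simple M) {a : α} (ha : a ∈ M.E) : M.IsNonloop a := by
  have := hs a ha a ha
  rwa [pair_eq_singleton, Matroid.indep_singleton] at this

theorem Rep.isFlat_singleton (h : Rep F M φ) (hs : Simple M) {a : α} (ha : a ∈ M.E) :
    M.IsFlat {a} := by
  rw [Matroid.isFlat_iff_closure_eq]
  refine subset_antisymm (fun e he => ?_) (M.subset_closure _ (singleton_subset_iff.2 ha))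
  rw [h.mem_closure (singleton_subset_iff.2 ha), image_singleton, mem_span_singleton] at he
  obtain ⟨he, c, hc⟩ := he
  exact h.eq_of_smul hs he ha one_ne_zero (by rw [one_smul, hc])

/-- A represented loopless matroid has a simple restriction meeting every parallel class. -/
theorem Rep.exists_simple (h : Rep F M φ) (h0 : ∀ e ∈ M.E, φ e ≠ 0) :
    ∃ R ⊆ M.E, Simple (M ↾ R) ∧ ∀ e ∈ M.E, ∃ x ∈ R, ∃ c : F, φ e = c • φ x ∧ c ≠ 0 := by
  classical
  let g : Submodule F V → Option α := fun S =>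
    if hS : ∃ x ∈ M.E, span F {φ x} = S then some hS.choose else none
  let R := {x | x ∈ M.E ∧ g (span F {φ x}) = some x}
  have hRE : R ⊆ M.E := fun x hx => hx.1
  refine ⟨R, hRE, fun x hx y hy => ?_, fun e he => ?_⟩
  · rw [Matroid.restrict_ground_eq] at hx hy
    rw [Matroid.restrict_indep_iff, and_iff_left (insert_subset hx (singleton_subset_iff.2 hy)),
      h _ (insert_subset hx.1 (singleton_subset_iff.2 hy.1))]
    by_cases hxy : x = y
    · subst hxy
      simpa using h0 x hx.1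
    rw [linearIndepOn_pair_iff _ hxy (h0 x hx.1)]
    intro c hc
    have hc0 : c ≠ 0 := fun e => h0 y hy.1 (by rw [← hc, e, zero_smul])
    have : span F {φ y} = span F {φ x} := by
      rw [← hc, span_singleton_smul_eq (IsUnit.mk0 c hc0)]
    have h1 := hy.2
    rw [this, hx.2] at h1
    exact hxy (Option.some.inj h1)
  · have hS : ∃ x ∈ M.E, span F {φ x} = span F {φ e} := ⟨e, he, rfl⟩
    refine ⟨hS.choose, ⟨hS.choose_spec.1, ?_⟩, ?_⟩
    · rw [hS.choose_spec.2]; simp only [g, dif_pos hS]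
    · have : φ e ∈ span F {φ hS.choose} := by
        rw [hS.choose_spec.2]; exact mem_span_singleton_self _
      obtain ⟨c, hc⟩ := mem_span_singleton.1 this
      exact ⟨c, hc.symm, fun e0 => h0 e he (by rw [← hc, e0, zero_smul])⟩

end Pool.Agent.Lib.H13Tang
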