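import Mathlib
import Pool.Agent.Lib.helper13.TangCore

set_option autoImplicit false

namespace Pool.Agent.Lib.H13Tang

open Set Submodule
open scoped Matroid

variable {α F V : Type} [Field F] [AddCommGroup V] [Module F V] {M : Matroid α} {φ : α → V}

theorem rk_mono [Finite α] (M : Matroid α) {X Y : Set α} (h : X ⊆ Y) : rk M X ≤ rk M Y := by
  have := M.eRk_mono h
  rw [← rk_coe, ← rk_coe] at this
  exact_mod_cast this

theorem rk_closure (M : Matroid α) (X : Set α) : rk M (M.closure X) = rk M X := by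
  simp only [rk, M.eRk_closure_eq]

theorem rk_empty (M : Matroid α) : rk M ∅ = 0 := by simp [rk]

theorem rk_insert [Finite α] {X : Set α} {e : α} (he : e ∈ M.E) (h : e ∉ M.closure X) :
    rk M (insert e X) = rk M X + 1 := by
  have h1 : M.eRk (insert e X) = M.eRk X + 1 := Matroid.eRk_insert_eq_add_one ⟨he, h⟩
  rw [← rk_coe, ← rk_coe] at h1
  exact_mod_cast h1

theorem rk_lt_of_flat [Finite α] {X Y : Set α} (hX : M.IsFlat X) (hY : Y ⊆ M.E) (h : X ⊂ Y) :
    rk M X < rk M Y := by
  obtain ⟨e, heY, heX⟩ := exists_of_ssubset h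
  have h1 := rk_insert (hY heY) (X := X) (by rwa [hX.closure])
  have h2 := rk_mono M (insert_subset heY h.subset)
  omega

theorem Simple.rk_line [Finite α] (hs : Simple M) {e f : α} (he : e ∈ M.E) (hf : f ∈ M.E)
    (hef : e ≠ f) : rk M (M.closure {e, f}) = 2 := by
  rw [rk_closure, rk_indep (hs _ he _ hf), ncard_pair hef]

theorem Rep.contractSet (h : Rep F M φ) {C : Set α} (hC : C ⊆ M.E) :
    Rep F (M ／ C) ((span F (φ '' C)).mkQ ∘ φ) := by
  intro J hJ
  rw [Matroid.contract_ground] at hJ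
  obtain ⟨I, hI⟩ := M.exists_isBasis C hC
  have hd : Disjoint C J := disjoint_left.2 fun x hx hx' => (hJ hx').2 hx
  rw [hI.contract_indep_iff, and_iff_left hd, union_comm,
    h _ (union_subset hI.indep.subset_ground (hJ.trans sdiff_subset)), ← h.span_basis hI,
    ((h _ hI.indep.subset_ground).1 hI.indep).quotient_iff_union (hd.mono_left hI.subset)]

theorem Rep.delete (h : Rep F M φ) (D : Set α) : Rep F (M ＼ D) φ := by
  intro J hJ
  rw [Matroid.delete_ground] at hJ
  rw [Matroid.delete_indep_iff, and_iff_left (disjoint_left.2 fun x hx hx' => (hJ hx).2 hx'),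
    h _ (hJ.trans sdiff_subset)]

theorem Rep.minor_pos_iff [Finite α] [Fintype F] [FiniteDimensional F V] (h : Rep F M φ)
    {C : Set α} (hC : C ⊆ M.E) (D : Set α) (j : ℕ) :
    0 < charPoly (M ／ C ＼ D) ((Fintype.card F : ℤ) ^ j) ↔
      ∃ L : V →ₗ[F] (Fin j → F), (∀ x ∈ C, L (φ x) = 0) ∧
        ∀ e ∈ M.E, e ∉ C → e ∉ D → L (φ e) ≠ 0 := by
  rw [((h.contractSet hC).delete D).charPoly_pos_iff]
  constructor
  · rintro ⟨L, hL⟩
    refine ⟨L ∘ₗ (span F (φ '' C)).mkQ, fun x hx => ?_, fun e he h1 h2 => hL e ⟨⟨he, h1⟩, h2⟩⟩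
    have : (span F (φ '' C)).mkQ (φ x) = 0 :=
      (Submodule.Quotient.mk_eq_zero _).2 (subset_span ⟨x, hx, rfl⟩)
    rw [LinearMap.comp_apply, this, map_zero]
  · rintro ⟨L, hL0, hL⟩
    refine ⟨(span F (φ '' C)).liftQ L (span_le.2 ?_), fun e he => ?_⟩
    · rintro _ ⟨x, hx, rfl⟩
      exact hL0 x hx
    · simpa using hL e he.1.1 he.1.2 he.2

theorem Rep.notMem_span_of_nonloop (h : Rep F M φ) {C D : Set α} (hC : C ⊆ M.E) {e : α}
    (he : (M ／ C ＼ D).Indep {e}) : φ e ∉ span F (φ '' C) := by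
  have := (((h.contractSet hC).delete D) _ he.subset_ground).1 he
  rw [linearIndepOn_singleton_iff] at this
  exact fun hm => this ((Submodule.Quotient.mk_eq_zero _).2 hm)

theorem Rep.charPoly_nonneg [Finite α] [Fintype F] [FiniteDimensional F V] (h : Rep F M φ)
    (j : ℕ) : 0 ≤ charPoly M ((Fintype.card F : ℤ) ^ j) := by
  classical
  have : Finite (V →ₗ[F] (Fin j → F)) := Module.finite_of_finite F
  have := Fintype.ofFinite (V →ₗ[F] (Fin j → F))
  let S : α → Finset (V →ₗ[F] (Fin j → F)) := fun e => Finset.univ.filter fun L => L (φ e) = 0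
  have key := Finset.inclusion_exclusion_card_inf_compl (toFinite M.E).toFinset S
  have hrE : rk M M.E ≤ Module.finrank F V := by
    rw [h.rk_eq subset_rfl]; exact Submodule.finrank_le _
  have h2 : ∑ t ∈ (toFinite M.E).toFinset.powerset, (-1 : ℤ) ^ t.card * (t.inf S).card =
      ((Fintype.card F : ℤ) ^ j) ^ (Module.finrank F V - rk M M.E) *
        charPoly M ((Fintype.card F : ℤ) ^ j) := by
    rw [charPoly, Finset.mul_sum]
    refine Finset.sum_congr rfl fun t ht => ?_
    have htE : (t : Set α) ⊆ M.E := by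
      simpa [← Finset.coe_subset] using ht
    have h3 : (t.inf S).card = Nat.card {L : V →ₗ[F] (Fin j → F) //
        span F (φ '' t) ≤ LinearMap.ker L} := by
      rw [Nat.card_eq_fintype_card, Fintype.card_subtype]
      congr 1
      ext L
      simp [S, Finset.mem_inf, span_le, subset_def]
    rw [h3, card_vanish, ← h.rk_eq htE, mul_left_comm, ← pow_add]
    have := rk_mono M htE
    push_cast
    congr 2
    omega
  have hpos : (0 : ℤ) < ((Fintype.card F : ℤ) ^ j) ^ (Module.finrank F V - rk M M.E) := by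
    have : (0 : ℤ) < Fintype.card F := by exact_mod_cast Fintype.card_pos
    positivity
  rw [← mul_nonneg_iff_of_pos_left hpos, ← h2, ← key]
  exact Nat.cast_nonneg _

theorem Rep.isFlat_sub (h : Rep F M φ) (S : Submodule F V) :
    M.IsFlat {e | e ∈ M.E ∧ φ e ∈ S} := by
  rw [Matroid.isFlat_iff_closure_eq]
  refine subset_antisymm (fun e he => ?_) (M.subset_closure _ fun e he => he.1)
  rw [h.mem_closure fun e he => he.1] at he
  refine ⟨he.1, (span_le.2 ?_ : _ ≤ S) he.2⟩
  rintro _ ⟨x, hx, rfl⟩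
  exact hx.2

theorem Rep.exists_dual (h : Rep F M φ) {G : Set α} (hG : M.IsFlat G) {a : α} (ha : a ∈ M.E)
    (haG : a ∉ G) : ∃ l : V →ₗ[F] F, (∀ x ∈ G, l (φ x) = 0) ∧ l (φ a) ≠ 0 := by
  have hnot : φ a ∉ span F (φ '' G) := fun hm =>
    haG (hG.closure ▸ (h.mem_closure hG.subset_ground a).2 ⟨ha, hm⟩)
  obtain ⟨l, hl0, hlH⟩ := (span F (φ '' G)).exists_dual_map_eq_bot_of_notMem hnot inferInstance
  refine ⟨l, fun x hx => ?_, hl0⟩
  have : l (φ x) ∈ (span F (φ '' G)).map l := mem_map_of_mem (subset_span ⟨x, hx, rfl⟩)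
  rwa [hlH, mem_bot] at this

theorem IsModularFlat.meets [Finite α] {G Y L : Set α} (hG : IsModularFlat M G) (hGY : G ⊆ Y)
    (hr : rk M Y ≤ rk M G + 1) (hL : M.IsFlat L) (h2 : rk M L = 2) (hLY : L ⊆ Y) :
    (G ∩ L).Nonempty := by
  have h1 := hG.2 L hL
  have h3 := rk_mono M (union_subset hGY hLY)
  rw [nonempty_iff_ne_empty]
  intro h0
  rw [h0, rk_empty] at h1
  omega

theorem modular_of_lines [Finite α] {X : Set α} (hX : M.IsFlat X) {a : α} (ha : a ∈ M.E)
    (haX : a ∉ X) (h : ∀ e ∈ M.E, e ∉ X → ∀ f ∈ M.E, f ∉ X →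
      f ∈ M.closure (insert e (X ∩ M.closure {e, f}))) :
    IsModularFlat M X ∧ rk M X + 1 = rk M M.E := by
  have key : ∀ Y, M.IsFlat Y → ∀ e ∈ Y, e ∉ X → rk M Y = rk M (X ∩ Y) + 1 := by
    intro Y hY e heY heX
    have heE := hY.subset_ground heY
    have hsub : insert e (X ∩ Y) ⊆ M.E :=
      insert_subset heE (inter_subset_left.trans hX.subset_ground)
    rw [← rk_insert heE (X := X ∩ Y) fun hm =>
      heX (hX.closure ▸ M.closure_subset_closure inter_subset_left hm)]
    refine le_antisymm ?_ (rk_mono M (insert_subset heY inter_subset_right))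
    rw [← rk_closure M (insert e _)]
    refine rk_mono M fun f hf => ?_
    by_cases hfX : f ∈ X
    · exact M.subset_closure _ hsub (Or.inr ⟨hfX, hf⟩)
    · refine M.closure_subset_closure (insert_subset_insert (inter_subset_inter_right _ ?_))
        (h e heE heX f (hY.subset_ground hf) hfX)
      exact hY.closure ▸ M.closure_subset_closure (insert_subset heY (singleton_subset_iff.2 hf))
  have hE := key _ M.ground_isFlat a ha haX
  rw [inter_eq_left.2 hX.subset_ground] at hE
  refine ⟨⟨hX, fun Y hY => ?_⟩, hE.symm⟩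
  by_cases hYX : Y ⊆ X
  · rw [union_eq_left.2 hYX, inter_eq_right.2 hYX]
  · obtain ⟨e, heY, heX⟩ := not_subset.1 hYX
    have h1 := key Y hY e heY heX
    have h2 := rk_insert (hY.subset_ground heY) (X := X) (by rwa [hX.closure])
    have h3 := rk_mono M (insert_subset (Or.inr heY) subset_union_left : insert e X ⊆ X ∪ Y)
    have h4 := rk_mono M (union_subset hX.subset_ground hY.subset_ground)
    omega

theorem Rep.comp_inj {W : Type} [AddCommGroup W] [Module F W] (h : Rep F M φ) (π : V →ₗ[F] W)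
    (hπ : Disjoint (span F (φ '' M.E)) (LinearMap.ker π)) : Rep F M (π ∘ φ) := by
  intro I hI
  rw [h I hI]
  refine ⟨fun h1 => LinearIndependent.map (f := π) h1 ?_, fun h1 => LinearIndependent.of_comp π h1⟩
  rw [← image_eq_range]
  exact hπ.mono_left (span_mono (image_mono hI))

theorem Rep.exists_spanning [FiniteDimensional F V] (h : Rep F M φ) :
    ∃ (n : ℕ) (ψ : α → (Fin n → F)), Rep F M ψ ∧ span F (ψ '' M.E) = ⊤ := by
  let W := span F (φ '' M.E)
  obtain ⟨π, hπ⟩ := W.subtype.exists_leftInverse_of_injective W.ker_subtype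
  have hπ' : ∀ w : W, π w = w := fun w => LinearMap.congr_fun hπ w
  let ε := (Module.finBasis F W).equivFun
  refine ⟨_, (ε.toLinearMap ∘ₗ π) ∘ φ, h.comp_inj _ ?_, ?_⟩
  · rw [disjoint_def]
    intro x hx h0
    have h1 : π x = 0 := ε.injective (by simpa using h0)
    have := hπ' ⟨x, hx⟩
    exact congrArg Subtype.val (this.symm.trans h1)
  · rw [image_comp, ← map_span, eq_top_iff]
    intro y _
    obtain ⟨w, rfl⟩ := ε.surjective y
    exact ⟨w, w.2, by simp [hπ' w]⟩

theorem Rep.representable [FiniteDimensional F V] (h : Rep F M φ) : Representable F M := by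
  obtain ⟨n, ψ, hψ, -⟩ := h.exists_spanning
  exact ⟨n, ψ, hψ⟩

end Pool.Agent.Lib.H13Tang
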