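import Mathlib
import Pool.Agent.Lib.helper13.TangMinor

set_option autoImplicit false

namespace Pool.Agent.Lib.H13Tang

open Set Submodule
open scoped Matroid

variable {F : Type} [Field F] {n : ℕ}

/-- The images of the unit vectors in the quotient by `P`. -/
noncomputable def tv (P : Submodule F (Fin n → F)) (i : Fin n) : (Fin n → F) ⧸ P :=
  P.mkQ (Pi.single i 1)

/-- The quotient of `M(K_n)` given by the relations in `P`. -/
noncomputable def EM (P : Submodule F (Fin n → F)) : Matroid (Sym2 (Fin n)) :=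
  linMat F (dv (tv P)) (⊤ : SimpleGraph (Fin n)).edgeSet

variable {P : Submodule F (Fin n → F)}

theorem EM_rep : Rep F (EM P) (dv (tv P)) := linMat_rep _ _

theorem mem_EM {i j : Fin n} : s(i, j) ∈ (EM P).E ↔ i ≠ j := by
  change s(i, j) ∈ (⊤ : SimpleGraph (Fin n)).edgeSet ↔ _
  simp

theorem sum_tv (r : Fin n → F) : ∑ i, r i • tv P i = P.mkQ r := by
  conv_rhs => rw [pi_eq_sum_univ' r]
  simp only [tv, map_sum, map_smul]

theorem functional_rel (l : ((Fin n → F) ⧸ P) →ₗ[F] F) {p : Fin n → F} (hp : p ∈ P) :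
    ∑ i, p i * l (tv P i) = 0 := by
  have : ∑ i, p i • tv P i = 0 := by
    rw [sum_tv]; exact (Submodule.Quotient.mk_eq_zero _).2 hp
  simpa using congrArg l this

theorem exists_functional (c : Fin n → F) (hc : ∀ p ∈ P, ∑ i, p i * c i = 0) :
    ∃ l : ((Fin n → F) ⧸ P) →ₗ[F] F, ∀ i, l (tv P i) = c i := by
  refine ⟨P.liftQ (Fintype.linearCombination F c) fun p hp => ?_, fun i => ?_⟩
  · simpa [Fintype.linearCombination_apply] using hc p hp
  · simp [tv]

/-- Every nonzero relation has more than `w` nonzero entries. -/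
def Heavy (P : Submodule F (Fin n → F)) (w : ℕ) : Prop :=
  ∀ r ∈ P, ∀ T : Finset (Fin n), T.card ≤ w → (∀ i ∉ T, r i = 0) → r = 0

theorem Heavy.mono {w w' : ℕ} (h : Heavy P w) (hw : w' ≤ w) : Heavy P w' :=
  fun r hr T hT => h r hr T (hT.trans hw)

theorem edge_of_coeff {x y i j : Fin n} (hij : i ≠ j)
    (hi : (Pi.single x (1 : F) - Pi.single y 1 : Fin n → F) i ≠ 0)
    (hj : (Pi.single x (1 : F) - Pi.single y 1 : Fin n → F) j ≠ 0) : s(x, y) = s(i, j) := by
  have key : ∀ z, (Pi.single x (1 : F) - Pi.single y 1 : Fin n → F) z ≠ 0 → z = x ∨ z = y :=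
    fun z hz => by
      by_contra hcon
      push Not at hcon
      exact hz (by simp [hcon.1, hcon.2])
  rcases key i hi with h1 | h1 <;> rcases key j hj with h2 | h2
  · exact absurd (h1.trans h2.symm) hij
  · rw [h1, h2]
  · rw [h1, h2, Sym2.eq_swap]
  · exact absurd (h1.trans h2.symm) hij

theorem Heavy.one (h : Heavy P 4) {x y i j : Fin n} {a : F}
    (e : tv P x - tv P y = a • (tv P i - tv P j)) :
    (Pi.single x (1 : F) - Pi.single y 1 : Fin n → F) =
      a • (Pi.single i (1 : F) - Pi.single j 1 : Fin n → F) := by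
  classical
  rw [← sub_eq_zero]
  refine h _ ?_ {x, y, i, j} Finset.card_le_four fun z hz => ?_
  · rw [← Submodule.Quotient.mk_eq_zero, ← mkQ_apply, map_sub, map_smul, map_sub, map_sub,
      sub_eq_zero]
    exact e
  · simp only [Finset.mem_insert, Finset.mem_singleton, not_or] at hz
    simp [hz.1, hz.2.1, hz.2.2.1, hz.2.2.2]

theorem Heavy.two (h : Heavy P 6) {x y i j k l : Fin n} {a b : F}
    (e : tv P x - tv P y = a • (tv P i - tv P j) + b • (tv P k - tv P l)) :
    (Pi.single x (1 : F) - Pi.single y 1 : Fin n → F) =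
      a • (Pi.single i (1 : F) - Pi.single j 1 : Fin n → F) +
      b • (Pi.single k (1 : F) - Pi.single l 1 : Fin n → F) := by
  classical
  rw [← sub_eq_zero]
  refine h _ ?_ {x, y, i, j, k, l} Finset.card_le_six fun z hz => ?_
  · rw [← Submodule.Quotient.mk_eq_zero, ← mkQ_apply, map_sub, map_add, map_smul, map_smul,
      map_sub, map_sub, map_sub, sub_eq_zero]
    exact e
  · simp only [Finset.mem_insert, Finset.mem_singleton, not_or] at hz
    simp [hz.1, hz.2.1, hz.2.2.1, hz.2.2.2.1, hz.2.2.2.2.1, hz.2.2.2.2.2]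

theorem Heavy.eq_of_mem (h : Heavy P 4) {x y i j : Fin n} (hxy : x ≠ y) (hij : i ≠ j)
    (hm : tv P x - tv P y ∈ span F {dv (tv P) s(i, j)}) : s(x, y) = s(i, j) := by
  have h1 : span F {dv (tv P) s(i, j)} ≤ span F {tv P i - tv P j} := by
    rw [span_le, singleton_subset_iff, SetLike.mem_coe, dv_mem_iff]
    exact mem_span_singleton_self _
  obtain ⟨a, ha⟩ := mem_span_singleton.1 (h1 hm)
  have h2 := h.one ha.symm
  have ha0 : a ≠ 0 := fun h0 => by
    have := congrFun h2 x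
    simp [h0, hxy] at this
  exact edge_of_coeff hij (by rw [h2]; simpa [hij] using ha0)
    (by rw [h2]; simpa [hij.symm] using ha0)

theorem Heavy.simple (h : Heavy P 4) : Simple (EM P) := by
  have h0 : ∀ e ∈ (EM P).E, dv (tv P) e ≠ 0 := fun e he h0 => by
    induction e using Sym2.ind with
    | h x y =>
      have hxy := mem_EM.1 he
      have h1 : tv P x - tv P y = (0 : F) • (tv P x - tv P x) := by
        rw [zero_smul, ← mem_bot F, ← dv_mem_iff, h0]; exact zero_mem _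
      have := congrFun (h.one h1) x
      simp [hxy] at this
  intro e he f hf
  rw [EM_rep _ (insert_subset he (singleton_subset_iff.2 hf))]
  by_cases hef : e = f
  · subst hef
    simpa using h0 e he
  rw [linearIndepOn_pair_iff _ hef (h0 e he)]
  intro c hc
  induction e using Sym2.ind with
  | h i j =>
  induction f using Sym2.ind with
  | h x y =>
    refine hef (h.eq_of_mem (mem_EM.1 hf) (mem_EM.1 he) ?_).symm
    rw [← dv_mem_iff, ← hc]
    exact smul_mem _ _ (mem_span_singleton_self _)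

theorem Heavy.line (h : Heavy P 6) {i j k l : Fin n} (hij : i ≠ j) (hik : i ≠ k) (hil : i ≠ l)
    (hjk : j ≠ k) (hjl : j ≠ l) (hkl : k ≠ l) {g : Sym2 (Fin n)}
    (hg : g ∈ (EM P).closure {s(i, j), s(k, l)}) : g = s(i, j) ∨ g = s(k, l) := by
  rw [EM_rep.mem_closure (insert_subset (mem_EM.2 hij) (singleton_subset_iff.2 (mem_EM.2 hkl))),
    image_pair] at hg
  induction g using Sym2.ind with
  | h x y =>
    have hxy := mem_EM.1 hg.1
    have h1 : span F {dv (tv P) s(i, j), dv (tv P) s(k, l)} ≤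
        span F {tv P i - tv P j, tv P k - tv P l} := by
      rw [span_le, insert_subset_iff, singleton_subset_iff, SetLike.mem_coe, SetLike.mem_coe,
        dv_mem_iff, dv_mem_iff]
      exact ⟨subset_span (Or.inl rfl), subset_span (Or.inr rfl)⟩
    obtain ⟨a, b, hab⟩ := mem_span_pair.1 (h1 ((dv_mem_iff _ x y _).1 hg.2))
    have h2 := h.two hab.symm
    by_cases ha0 : a = 0
    · have hb0 : b ≠ 0 := fun h0 => by
        have := congrFun h2 x
        simp [h0, ha0, hxy] at this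
      exact Or.inr (edge_of_coeff hkl (by rw [h2]; simpa [hkl, ha0] using hb0)
        (by rw [h2]; simpa [hkl.symm, ha0] using hb0))
    · exact Or.inl (edge_of_coeff hij (by rw [h2]; simpa [hij, hik, hil] using ha0)
        (by rw [h2]; simpa [hij.symm, hjk, hjl] using ha0))

theorem dv_eq_zero_iff {W : Type} [AddCommGroup W] [Module F W]
    (l : ((Fin n → F) ⧸ P) →ₗ[F] W) (i j : Fin n) :
    l (dv (tv P) s(i, j)) = 0 ↔ l (tv P i) = l (tv P j) := by
  rw [← LinearMap.mem_ker, dv_mem_iff, LinearMap.mem_ker, map_sub, sub_eq_zero]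

theorem EM_block [Fintype F] {k : ℕ} (hn : Fintype.card F ^ k < n) :
    ¬ CritLE (EM P) (Fintype.card F) k := by
  rw [EM_rep.critLE_iff]
  rintro ⟨L, hL⟩
  obtain ⟨i, j, hij, h⟩ := Fintype.exists_ne_map_eq_of_card_lt (fun i => L (tv P i))
    (by simpa using hn)
  exact hL _ (mem_EM.2 hij) ((dv_eq_zero_iff L i j).2 h)

/-- Every nonempty flat is the zero set of a functional. -/
def AllTangent (P : Submodule F (Fin n → F)) : Prop :=
  ∀ S : Submodule F ((Fin n → F) ⧸ P), (∃ i j, i ≠ j ∧ tv P i - tv P j ∈ S) →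
    ∃ l : ((Fin n → F) ⧸ P) →ₗ[F] F, ∀ i j, (l (tv P i) = l (tv P j) ↔ tv P i - tv P j ∈ S)

theorem AllTangent.minor_pos [Fintype F] (hT : AllTangent P) (h : Heavy P 4)
    {C D : Set (Sym2 (Fin n))} (hC : C ⊆ (EM P).E) (hD : D ⊆ (EM P).E) (hne : (C ∪ D).Nonempty)
    (hl : ∀ e ∈ (EM P ／ C ＼ D).E, (EM P ／ C ＼ D).Indep {e}) :
    0 < charPoly (EM P ／ C ＼ D) ((Fintype.card F : ℤ) ^ 1) := by
  rw [EM_rep.minor_pos_iff hC]
  rcases C.eq_empty_or_nonempty with rfl | ⟨a, ha⟩
  · rw [empty_union] at hne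
    obtain ⟨d, hd⟩ := hne
    induction d using Sym2.ind with
    | h i j =>
      have hij := mem_EM.1 (hD hd)
      obtain ⟨l, hl⟩ := hT (span F {dv (tv P) s(i, j)})
        ⟨i, j, hij, (dv_mem_iff _ i j _).1 (mem_span_singleton_self _)⟩
      refine ⟨LinearMap.pi fun _ => l, fun x hx => hx.elim, fun e he _ heD h0 => heD ?_⟩
      induction e using Sym2.ind with
      | h x y =>
        rw [h.eq_of_mem (mem_EM.1 he) hij
          ((hl x y).1 ((dv_eq_zero_iff l x y).1 (congrFun h0 0)))]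
        exact hd
  · induction a using Sym2.ind with
    | h i j =>
      obtain ⟨l, hl'⟩ := hT (span F (dv (tv P) '' C))
        ⟨i, j, mem_EM.1 (hC ha), (dv_mem_iff _ i j _).1 (subset_span ⟨_, ha, rfl⟩)⟩
      refine ⟨LinearMap.pi fun _ => l, fun e he => ?_, fun e he heC heD h0 => ?_⟩
      · induction e using Sym2.ind with
        | h x y =>
          funext z
          exact (dv_eq_zero_iff l x y).2 ((hl' x y).2
            ((dv_mem_iff _ x y _).1 (subset_span ⟨_, he, rfl⟩)))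
      · refine EM_rep.notMem_span_of_nonloop hC (hl e ⟨⟨he, heC⟩, heD⟩) ?_
        induction e using Sym2.ind with
        | h x y =>
          exact (dv_mem_iff _ x y _).2 ((hl' x y).1 ((dv_eq_zero_iff l x y).1 (congrFun h0 0)))

theorem almost_const {U : Set (Fin n)} (hU : ∀ u v, ∃ k l, k ∈ U ∧ l ∈ U ∧ k ≠ l ∧ u ≠ k ∧
      v ≠ k ∧ u ≠ l ∧ v ≠ l) (c : Fin n → F) {u v : Fin n} (hu : u ∈ U) (hv : v ∈ U)
    (huv : c u ≠ c v) (h : ∀ i ∈ U, ∀ j ∈ U, ∀ k ∈ U, ∀ l ∈ U, i ≠ j → i ≠ k → i ≠ l → j ≠ k →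
      j ≠ l → k ≠ l → c i = c j ∨ c k = c l) :
    ∃ w ∈ U, ∃ a, c w ≠ a ∧ ∀ i ∈ U, i ≠ w → c i = a := by
  obtain ⟨k, l, hk, hl, hkl, h1, h2, h3, h4⟩ := hU u v
  have hne : u ≠ v := fun e => huv (by rw [e])
  have key : ∀ w ∈ U, w ≠ u → w ≠ v → c w = c k := fun w hw hwu hwv => by
    by_cases hwk : w = k
    · rw [hwk]
    · exact (h u hu v hv w hw k hk hne hwu.symm h1 hwv.symm h2 hwk).resolve_left huv
  rcases h u hu k hk v hv l hl h1 hne h3 h2.symm hkl h4 with e | e
  · refine ⟨v, hv, c k, fun e' => huv (e.trans e'.symm), fun i hi hiv => ?_⟩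
    by_cases hiu : i = u
    · rw [hiu, e]
    · exact key i hi hiu hiv
  · have e1 : c v = c k := e.trans (key l hl h3.symm h4.symm)
    refine ⟨u, hu, c k, fun e' => huv (e'.trans e1.symm), fun i hi hiu => ?_⟩
    by_cases hiv : i = v
    · rw [hiv, e1]
    · exact key i hi hiu hiv

/-- A modular flat of corank one in the flat of edges inside `U` singles out a vertex. -/
theorem Heavy.exists_vertex (h : Heavy P 6) {U : Set (Fin n)} (hU : ∀ u v, ∃ k l, k ∈ U ∧
      l ∈ U ∧ k ≠ l ∧ u ≠ k ∧ v ≠ k ∧ u ≠ l ∧ v ≠ l) {G Y : Set (Sym2 (Fin n))}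
    (hG : IsModularFlat (EM P) G) (hY : (EM P).IsFlat Y) (hGY : G ⊆ Y)
    (hr : rk (EM P) G + 1 = rk (EM P) Y) (hYU : ∀ i j, s(i, j) ∈ Y ↔ i ≠ j ∧ i ∈ U ∧ j ∈ U) :
    ∃ l : ((Fin n → F) ⧸ P) →ₗ[F] F, (∀ x ∈ G, l (dv (tv P) x) = 0) ∧
      ∃ w ∈ U, ∃ a, l (tv P w) ≠ a ∧ ∀ i ∈ U, i ≠ w → l (tv P i) = a := by
  obtain ⟨a, haY, haG⟩ : ∃ a, a ∈ Y ∧ a ∉ G := by
    by_contra hcon
    push Not at hcon
    have := rk_mono (EM P) hcon
    omega
  obtain ⟨l, hl0, hla⟩ := EM_rep.exists_dual hG.1 (hY.subset_ground haY) haG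
  refine ⟨l, hl0, ?_⟩
  induction a using Sym2.ind with
  | h u v =>
    obtain ⟨-, hu, hv⟩ := (hYU u v).1 haY
    refine almost_const hU (fun i => l (tv P i)) hu hv (fun e => hla ((dv_eq_zero_iff l u v).2 e))
      fun i hi j hj k hk m hm hij hik him hjk hjm hkm => ?_
    have hne : s(i, j) ≠ s(k, m) := by simp [hik, him]
    obtain ⟨x, hxG, hx⟩ := hG.meets hGY hr.ge ((EM P).isFlat_closure {s(i, j), s(k, m)})
      ((h.mono (by norm_num)).simple.rk_line (mem_EM.2 hij) (mem_EM.2 hkm) hne)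
      (hY.closure ▸ (EM P).closure_subset_closure (insert_subset ((hYU i j).2 ⟨hij, hi, hj⟩)
        (singleton_subset_iff.2 ((hYU k m).2 ⟨hkm, hk, hm⟩))))
    rcases h.line hij hik him hjk hjm hkm hx with e | e
    · exact Or.inl ((dv_eq_zero_iff l i j).1 (e ▸ hl0 x hxG))
    · exact Or.inr ((dv_eq_zero_iff l k m).1 (e ▸ hl0 x hxG))

theorem coeff_eq_zero (l : ((Fin n → F) ⧸ P) →ₗ[F] F) {p : Fin n → F} (hp : p ∈ P)
    (hs : ∑ i, p i = 0) {w : Fin n} {a : F} (hw : l (tv P w) ≠ a)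
    (h : ∀ i, p i ≠ 0 → i ≠ w → l (tv P i) = a) : p w = 0 := by
  have h1 : ∑ i, p i * (l (tv P i) - a) = 0 := by
    simp only [mul_sub, Finset.sum_sub_distrib, functional_rel l hp, ← Finset.sum_mul, hs,
      zero_mul, sub_zero]
  rw [Finset.sum_eq_single w (fun i _ hi => ?_) (fun h => absurd (Finset.mem_univ _) h)] at h1
  · exact (mul_eq_zero.1 h1).resolve_right (sub_ne_zero.2 hw)
  · by_cases h0 : p i = 0
    · rw [h0, zero_mul]
    · rw [h i h0 hi, sub_self, mul_zero]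

/-- If the vertex `w` takes part in no relation, the edges avoiding it form a modular copoint. -/
theorem modular_avoid (w : Fin n) (hw : ∀ p ∈ P, p w = 0) {u : Fin n} (hu : w ≠ u) :
    IsModularFlat (EM P) {e | e ∈ (EM P).E ∧ w ∉ e} ∧
      rk (EM P) {e | e ∈ (EM P).E ∧ w ∉ e} + 1 = rk (EM P) (EM P).E := by
  obtain ⟨l, hl⟩ := exists_functional (P := P) (Pi.single w 1) fun p hp => by
    simpa [Pi.single_apply] using hw p hp
  have hX : {e | e ∈ (EM P).E ∧ w ∉ e} = {e | e ∈ (EM P).E ∧ dv (tv P) e ∈ LinearMap.ker l} := by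
    ext e
    refine and_congr_right fun he => ?_
    induction e using Sym2.ind with
    | h x y =>
      have hxy := mem_EM.1 he
      rw [LinearMap.mem_ker, dv_eq_zero_iff, hl, hl, Sym2.mem_iff]
      by_cases h1 : w = x
      · subst h1; simp [hxy.symm]
      · by_cases h2 : w = y
        · subst h2; simp [hxy]
        · simp [h1, h2, Ne.symm h1, Ne.symm h2]
  refine modular_of_lines (hX ▸ EM_rep.isFlat_sub _) (mem_EM.2 hu) (fun h => h.2 (by simp))
    fun e he heX f hf hfX => ?_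
  obtain ⟨x, rfl⟩ := Sym2.mem_iff_exists.1 (not_not.1 fun h => heX ⟨he, h⟩)
  obtain ⟨y, rfl⟩ := Sym2.mem_iff_exists.1 (not_not.1 fun h => hfX ⟨hf, h⟩)
  have hsub : insert s(w, x) ({e | e ∈ (EM P).E ∧ w ∉ e} ∩ (EM P).closure {s(w, x), s(w, y)}) ⊆
      (EM P).E := insert_subset he fun z hz => hz.1.1
  by_cases hxy : x = y
  · subst hxy
    exact (EM P).subset_closure _ hsub (Or.inl rfl)
  have hm : s(x, y) ∈ {e | e ∈ (EM P).E ∧ w ∉ e} ∩ (EM P).closure {s(w, x), s(w, y)} := by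
    refine ⟨⟨mem_EM.2 hxy, by simp [mem_EM.1 he, mem_EM.1 hf]⟩, ?_⟩
    rw [EM_rep.mem_closure (insert_subset he (singleton_subset_iff.2 hf)), dv_mem_iff]
    refine ⟨mem_EM.2 hxy, ?_⟩
    have h1 := (dv_mem_iff (tv P) w x (span F (dv (tv P) '' {s(w, x), s(w, y)}))).1
      (subset_span ⟨_, Or.inl rfl, rfl⟩)
    have h2 := (dv_mem_iff (tv P) w y (span F (dv (tv P) '' {s(w, x), s(w, y)}))).1
      (subset_span ⟨_, Or.inr rfl, rfl⟩)
    simpa using sub_mem h2 h1
  rw [EM_rep.mem_closure hsub, dv_mem_iff]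
  refine ⟨hf, ?_⟩
  have h1 := (dv_mem_iff (F := F) (tv P) w x _).1 (subset_span (mem_image_of_mem (dv (tv P))
    (mem_insert s(w, x) ({e | e ∈ (EM P).E ∧ w ∉ e} ∩ (EM P).closure {s(w, x), s(w, y)}))))
  have h2 := (dv_mem_iff (F := F) (tv P) x y _).1 (subset_span (mem_image_of_mem (dv (tv P))
    (mem_insert_of_mem s(w, x) hm)))
  simpa using add_mem h1 h2

theorem EM_normal {q k : ℕ} {P : Submodule F (Fin (q ^ k + 1) → F)} (h : Heavy P 4) :
    Normal (EM P) q k :=
  ⟨cyc _, EM P, cyc_spec _, isQuotient_cyc _ _, h.simple, id, injOn_id _, mapsTo_id _,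
    fun I _ => by rw [image_id], fun e he => ⟨e, he.mem_ground, he.mem_ground |> fun hE =>
      (EM P).mem_closure_self e hE⟩⟩

end Pool.Agent.Lib.H13Tang
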