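import Mathlib
import Pool.Agent.Lib.helper13.TangGraph

set_option autoImplicit false

namespace Pool.Agent.Lib.H13Tang

open Set Submodule
open scoped Matroid

/-- Base-8 digits. -/
def dg (G a : ℕ) : ℕ := Nat.mod (Nat.shiftRight G (Nat.mul 3 a)) 8

/-- Skip the value `v`. -/
def skp (v a : ℕ) : ℕ := cond (Nat.ble v a) (Nat.pred a) a

theorem skp_eq (v a : ℕ) : skp v a = if a < v then a else a - 1 := by
  unfold skp
  by_cases h : a < v
  · rw [if_pos h, Bool.eq_false_iff.2 fun h' => absurd (Nat.le_of_ble_eq_true h') (by omega)]; rfl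
  · rw [if_neg h, Nat.ble_eq_true_of_le (by omega)]; rfl

/-- Enumeration of idempotent maps with `f i ≤ i`. -/
def go (chk : List ℕ → Bool) : ℕ → List ℕ → Bool
  | 0, l => chk l
  | k + 1, l => (List.range (l.length + 1)).all fun a =>
      (a != l.length && l.getD a 0 != a) || go chk k (l ++ [a])

theorem go_sound (chk : List ℕ → Bool) (f : ℕ → ℕ) (h1 : ∀ i, f i ≤ i) (h2 : ∀ i, f (f i) = f i) :
    ∀ k m, go chk k ((List.range m).map f) = true → chk ((List.range (m + k)).map f) = true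
  | 0, _, h => h
  | k + 1, m, h => by
    simp only [go, List.length_map, List.length_range, List.all_eq_true, List.mem_range,
      Bool.or_eq_true, Bool.and_eq_true, bne_iff_ne] at h
    rcases h (f m) (Nat.lt_succ_of_le (h1 m)) with ⟨h3, h4⟩ | h3
    · have : f m < m := lt_of_le_of_ne (h1 m) h3
      exact absurd (by simp [this, h2]) h4
    · have := go_sound chk f h1 h2 k (m + 1) (by simpa [List.range_succ] using h3)
      rwa [show m + (k + 1) = m + 1 + k by omega]

/-- A sum of eight terms modulo 7. -/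
def s8 (g : ℕ → ℕ → ℕ) (p0 p1 p2 p3 p4 p5 p6 p7 a0 a1 a2 a3 a4 a5 a6 a7 : ℕ) : ℕ :=
  Nat.mod (Nat.add (g p0 a0) (Nat.add (g p1 a1) (Nat.add (g p2 a2) (Nat.add (g p3 a3)
    (Nat.add (g p4 a4) (Nat.add (g p5 a5) (Nat.add (g p6 a6) (g p7 a7)))))))) 7

/-- The test for one partition, given the evaluation of sums. -/
def chk' (Gs a : List ℕ) (s : (ℕ → ℕ → ℕ) → ℕ) : Bool :=
  Nat.beq ([0, 1, 2, 3, 4, 5, 6, 7].filter fun k =>
      !Nat.beq (s fun x y => cond (Nat.beq y k) x 0) 0).length 2 ||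
    ([1, 2, 3, 4, 5, 6, 7].any fun v => (a.all fun y => !Nat.beq y v) && Gs.any fun G =>
      Nat.beq (s fun x y => Nat.mul x (dg G (skp v y))) 0) ||
    ((List.range 8).all fun v => a.contains v)

/-- The test for one partition. -/
def chk : List ℕ → List ℕ → List ℕ → Bool
  | [p0, p1, p2, p3, p4, p5, p6, p7], Gs, [a0, a1, a2, a3, a4, a5, a6, a7] =>
    chk' Gs [a0, a1, a2, a3, a4, a5, a6, a7] fun g =>
      s8 g p0 p1 p2 p3 p4 p5 p6 p7 a0 a1 a2 a3 a4 a5 a6 a7
  | _, _, _ => false

theorem chk_ofFn (p a : Fin 8 → ℕ) (Gs : List ℕ) : chk (List.ofFn p) Gs (List.ofFn a) =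
    chk' Gs (List.ofFn a) fun g => (∑ i, g (p i) (a i)) % 7 := by
  simp only [Fin.sum_univ_succ, Finset.univ_eq_empty, Finset.sum_empty, add_zero]
  rfl

instance : Fact (Nat.Prime 7) := ⟨by norm_num⟩

theorem allTangent_of_chk (p : Fin 8 → ℕ) (Gs : List ℕ) (hp : ∑ i, (p i : ZMod 7) = 0)
    (hG : ∀ G ∈ Gs, ∀ x < 7, ∀ y < 7, dg G x % 7 = dg G y % 7 → x = y)
    (h : go (chk (List.ofFn p) Gs) 8 [] = true) :
    AllTangent (span (ZMod 7) {fun i => (p i : ZMod 7)}) := by
  classical
  set P := span (ZMod 7) {fun i => (p i : ZMod 7)} with hP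
  rintro S ⟨u, v, huv, hS⟩
  have hex : ∀ i : Fin 8, (Finset.univ.filter fun j => tv P i - tv P j ∈ S).Nonempty :=
    fun i => ⟨i, by simp⟩
  let f : Fin 8 → Fin 8 := fun i => (Finset.univ.filter fun j => tv P i - tv P j ∈ S).min' (hex i)
  have hf1 : ∀ i, tv P i - tv P (f i) ∈ S := fun i =>
    (Finset.mem_filter.1 (Finset.min'_mem _ (hex i))).2
  have hf2 : ∀ i j, tv P i - tv P j ∈ S ↔ f i = f j := fun i j => by
    constructor
    · intro hij
      simp only [f]
      congr 1
      ext k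
      simp only [Finset.mem_filter, Finset.mem_univ, true_and]
      exact ⟨fun hk => by simpa using sub_mem hk hij, fun hk => by simpa using add_mem hij hk⟩
    · intro hij
      have := sub_mem (hf1 i) (hf1 j)
      rw [hij] at this
      simpa using this
  have hf3 : ∀ i, f i ≤ i := fun i => Finset.min'_le _ _ (by simp)
  have hf4 : ∀ i, f (f i) = f i := fun i => ((hf2 _ _).1 (hf1 i)).symm
  let f' : ℕ → ℕ := fun i => if h : i < 8 then (f ⟨i, h⟩ : ℕ) else i
  have h5 := go_sound _ f' (fun i => by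
      simp only [f']; split_ifs with hi
      · exact hf3 _
      · exact le_rfl) (fun i => by
      by_cases hi : i < 8
      · simp only [f', dif_pos hi, dif_pos (f ⟨i, hi⟩).2, Fin.eta, hf4]
      · simp only [f', dif_neg hi]) 8 0 h
  have h6 : (List.range (0 + 8)).map f' = List.ofFn fun i => (f i : ℕ) := rfl
  rw [h6, chk_ofFn] at h5
  simp only [chk', Bool.or_eq_true, List.any_eq_true, List.all_eq_true, Nat.beq_eq,
    Bool.and_eq_true, List.mem_range, List.contains_eq_mem, decide_eq_true_eq,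
    List.mem_ofFn', mem_range, Nat.mul_eq] at h5
  rcases h5 with (hlen | ⟨w, hw, hwf, G, hGs, hsum⟩) | hall
  rotate_left
  · have hw' : w < 8 := by
      simp only [List.mem_cons, List.not_mem_nil, or_false] at hw; omega
    obtain ⟨l, hl⟩ := exists_functional (P := P) (fun i => (dg G (skp w (f i)) : ZMod 7))
      fun r hr => by
        obtain ⟨c, rfl⟩ := mem_span_singleton.1 hr
        have := (ZMod.natCast_eq_zero_iff _ 7).2 (Nat.dvd_of_mod_eq_zero hsum)
        push_cast at this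
        simp only [Pi.smul_apply, smul_eq_mul, mul_assoc, ← Finset.mul_sum, this, mul_zero]
    refine ⟨l, fun i j => ?_⟩
    rw [hl, hl, hf2]
    refine ⟨fun e => ?_, fun e => by rw [e]⟩
    have hi : (f i : ℕ) ≠ w := Nat.ne_of_beq_eq_false (by simpa using hwf _ ⟨i, rfl⟩)
    have hj : (f j : ℕ) ≠ w := Nat.ne_of_beq_eq_false (by simpa using hwf _ ⟨j, rfl⟩)
    have hi' := (f i).2
    have hj' := (f j).2
    have := hG G hGs _ (by rw [skp_eq]; split_ifs <;> omega) _ (by rw [skp_eq]; split_ifs <;> omega)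
      ((ZMod.natCast_eq_natCast_iff' _ _ 7).1 e)
    refine Fin.ext ?_
    rw [skp_eq, skp_eq] at this
    split_ifs at this <;> omega
  · have hsurj : Function.Surjective f := fun w => by
      obtain ⟨i, hi⟩ := hall w w.2
      exact ⟨i, Fin.ext hi⟩
    exact absurd ((Finite.injective_iff_surjective.2 hsurj) ((hf2 _ _).1 hS)) huv
  · exfalso
    let b : Fin 8 → ZMod 7 := fun k => ∑ i, if f i = k then (p i : ZMod 7) else 0
    have hb : ∀ k : Fin 8, b k = 0 ↔
        (∑ i, cond (Nat.beq (f i) k) (p i) 0) % 7 = 0 := fun k => by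
      rw [← Nat.dvd_iff_mod_eq_zero, ← ZMod.natCast_eq_zero_iff]
      have : ∀ i, cond (Nat.beq (f i) k) (p i) 0 = if f i = k then p i else 0 := fun i => by
        by_cases e : f i = k
        · rw [if_pos e, e, Nat.beq_refl]; rfl
        · rw [if_neg e, Bool.eq_false_iff.2 fun h' => e (Fin.ext (Nat.eq_of_beq_eq_true h'))]; rfl
      simp [b, this]
    obtain ⟨x', y', hxy0⟩ := List.length_eq_two.1 hlen
    have hnd : [x', y'].Nodup := hxy0 ▸ List.Nodup.filter _ (by decide)
    have hmem : ∀ k, k ∈ [x', y'] ↔ k < 8 ∧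
        (∑ i, cond (Nat.beq (f i) k) (p i) 0) % 7 ≠ 0 := fun k => by
      rw [← hxy0, List.mem_filter]
      refine and_congr ?_ ?_
      · simp only [List.mem_cons, List.not_mem_nil, or_false]; omega
      · rw [Bool.not_eq_true', ← Bool.not_eq_true, Nat.beq_eq]
    have hroot : ∀ k, k ∈ [x', y'] → ∃ x, (f x : ℕ) = k ∧ b (f x) ≠ 0 := fun k hk => by
      obtain ⟨h1, h2⟩ := (hmem k).1 hk
      have h3 : b ⟨k, h1⟩ ≠ 0 := fun e => h2 ((hb _).1 e)
      obtain ⟨i, -, hi⟩ := Finset.exists_ne_zero_of_sum_ne_zero h3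
      have h4 : f i = ⟨k, h1⟩ := by
        by_contra e
        exact hi (if_neg e)
      exact ⟨i, by rw [h4], by rwa [h4]⟩
    obtain ⟨x, rfl, hx⟩ := hroot x' (by simp)
    obtain ⟨y, rfl, -⟩ := hroot y' (by simp)
    have hxy' : f x ≠ f y := fun e => by simp [e] at hnd
    have hb0 : ∀ k, k ≠ f x ∧ k ≠ f y → b k = 0 := fun k hk' => by
      by_contra e
      have := (hmem k).2 ⟨k.2, fun e' => e ((hb k).2 e')⟩
      simp only [List.mem_cons, List.not_mem_nil, or_false, ← Fin.ext_iff] at this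
      exact this.elim hk'.1 hk'.2
    have hs : b (f x) + b (f y) = 0 := by
      rw [← Fintype.sum_eq_add _ _ hxy' hb0, Finset.sum_comm]
      simpa using hp
    have h7 : ∑ i, (p i : ZMod 7) • tv P (f i) ∈ S := by
      have h8 : ∑ i, (p i : ZMod 7) • tv P i = 0 := by
        rw [sum_tv]; exact (Submodule.Quotient.mk_eq_zero _).2 (mem_span_singleton_self _)
      have h9 : ∑ i, (p i : ZMod 7) • (tv P i - tv P (f i)) ∈ S :=
        sum_mem fun i _ => smul_mem _ _ (hf1 i)
      simp only [smul_sub, Finset.sum_sub_distrib, h8, zero_sub, neg_mem_iff] at h9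
      exact h9
    have h10 : ∑ i, (p i : ZMod 7) • tv P (f i) = ∑ k, b k • tv P k := by
      simp only [b, Finset.sum_smul]
      rw [Finset.sum_comm]
      simp
    rw [h10, Fintype.sum_eq_add _ _ hxy' (fun k hk' => by rw [hb0 k hk', zero_smul]),
      eq_neg_of_add_eq_zero_right hs, neg_smul, ← sub_eq_add_neg, ← smul_sub,
      smul_mem_iff _ hx, hf2, hf4, hf4] at h7
    exact hxy' h7

theorem heavy_span {F : Type} [Field F] {n : ℕ} (p : Fin n → F) (w : ℕ)
    (U : Finset (Fin n)) (hU : w < U.card) (h : ∀ i ∈ U, p i ≠ 0) : Heavy (span F {p}) w := by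
  intro r hr T hT h0
  obtain ⟨c, rfl⟩ := mem_span_singleton.1 hr
  obtain ⟨i, hiU, hi⟩ := Finset.exists_mem_notMem_of_card_lt_card (hT.trans_lt hU)
  have hp := h i hiU
  have : c = 0 := by simpa [hp] using h0 i hi
  rw [this, zero_smul]

end Pool.Agent.Lib.H13Tang
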