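import Mathlib
import Pool.Agent.Lib.helper13.TangCheck

set_option autoImplicit false

namespace Pool.Agent.Lib.H13Tang

open Set Submodule
open scoped Matroid

/-- First relation. -/
def pA : Fin 8 → ℕ := ![1, 1, 2, 2, 3, 3, 4, 5]

theorem tangent_pA : AllTangent (span (ZMod 7) {fun i => (pA i : ZMod 7)}) :=
  allTangent_of_chk pA [1174096, 1581923, 1336412, 59157, 177044, 1692768, 272300, 279965,
    1709379, 1583883, 530341, 999957, 124005, 1253721, 415408, 1742104, 1524250, 670600, 1238664,
    1222536, 743176, 1517320, 1004808] (by decide) (by decide +kernel)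
    (by rw [show List.ofFn pA = [1, 1, 2, 2, 3, 3, 4, 5] from rfl]; decide +kernel)

theorem heavy_pA : Heavy (span (ZMod 7) {fun i => (pA i : ZMod 7)}) 6 :=
  heavy_span _ _ {0, 1, 2, 3, 4, 5, 6} (by decide) (by decide)

theorem no_modular_pA (H : Set (Sym2 (Fin 8)))
    (hH : IsModularFlat (EM (span (ZMod 7) {fun i => (pA i : ZMod 7)})) H) :
    rk (EM (span (ZMod 7) {fun i => (pA i : ZMod 7)})) H + 1 ≠
      rk (EM (span (ZMod 7) {fun i => (pA i : ZMod 7)}))
        (EM (span (ZMod 7) {fun i => (pA i : ZMod 7)})).E := fun hr => by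
  obtain ⟨l, -, w, -, a, hw, ha⟩ := heavy_pA.exists_vertex (U := univ) (by
    simp only [mem_univ, true_and]; decide) hH (Matroid.ground_isFlat _) hH.1.subset_ground hr
    (fun i j => by simp [mem_EM])
  have := coeff_eq_zero l (mem_span_singleton_self _) (by decide) hw fun i _ hi => ha i trivial hi
  revert this w
  have : ∀ w, (pA w : ZMod 7) ≠ 0 := by decide
  exact fun w _ _ h => this w h

end Pool.Agent.Lib.H13Tang
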