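import Mathlib
import Pool.Agent.Lib.helper13.TangCheck

set_option autoImplicit false

namespace Pool.Agent.Lib.H13Tang

open Set Submodule
open scoped Matroid

/-- Second relation. -/
def pB : Fin 8 → ℕ := ![1, 1, 1, 2, 2, 3, 4, 0]

theorem tangent_pB : AllTangent (span (ZMod 7) {fun i => (pB i : ZMod 7)}) :=
  allTangent_of_chk pB [1524376, 1360114, 538734, 275765, 55062, 692454, 371504, 354851, 1326241,
    71589, 1412180, 999957, 1055642, 960904, 1726088, 1690248, 1468040]
    (by decide) (by decide +kernel)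
    (by rw [show List.ofFn pB = [1, 1, 1, 2, 2, 3, 4, 0] from rfl]; decide +kernel)

theorem heavy_pB : Heavy (span (ZMod 7) {fun i => (pB i : ZMod 7)}) 6 :=
  heavy_span _ _ {0, 1, 2, 3, 4, 5, 6} (by decide) (by decide)

end Pool.Agent.Lib.H13Tang
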