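import Mathlib

set_option autoImplicit false
set_option linter.unusedSimpArgs false

namespace Pool.Agent.Lib.H13Torus

open Filter Topology

/-- The identity component of a subgroup `C` of a topological group, as a subgroup of the group. -/
def identityComponent {G : Type*} [Group G] [TopologicalSpace G] [IsTopologicalGroup G]
    (C : Subgroup G) : Subgroup G :=
  (Subgroup.connectedComponentOfOne C).map C.subtype

theorem identityComponent_le {G : Type*} [Group G] [TopologicalSpace G] [IsTopologicalGroup G]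
    (C : Subgroup G) : identityComponent C ≤ C := by
  rintro _ ⟨x, -, rfl⟩
  exact x.2

theorem mem_identityComponent {G : Type*} [Group G] [TopologicalSpace G] [IsTopologicalGroup G]
    (C : Subgroup G) (γ : ℝ → G) (hγ : Continuous γ) (hC : ∀ t, γ t ∈ C) (h0 : γ 0 = 1) (t : ℝ) :
    γ t ∈ identityComponent C := by
  let γ' : ℝ → C := fun t => ⟨γ t, hC t⟩
  have hc : Continuous γ' := hγ.subtype_mk _
  have h1 : (1 : C) ∈ Set.range γ' := ⟨0, Subtype.ext h0⟩
  have := (isPreconnected_range hc).subset_connectedComponent h1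
  exact ⟨γ' t, this ⟨t, rfl⟩, rfl⟩

theorem line_lemma {E : Type*} [NormedAddCommGroup E] [NormedSpace ℝ E] [FiniteDimensional ℝ E]
    (D : AddSubgroup E) (hD : IsClosed (D : Set E)) (Q : Submodule ℝ E) (x : ℕ → E)
    (hxD : ∀ k, x k ∈ D) (hxQ : ∀ k, x k ∈ Q) (hx0 : ∀ k, x k ≠ 0)
    (hlim : Tendsto x atTop (𝓝 0)) : ∃ u ∈ Q, u ≠ 0 ∧ ∀ t : ℝ, t • u ∈ D := by
  have : ProperSpace E := FiniteDimensional.proper ℝ E
  have hn : ∀ k, 0 < ‖x k‖ := fun k => norm_pos_iff.2 (hx0 k)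
  obtain ⟨u, hu, φ, hφ, hconv⟩ := (isCompact_sphere (0 : E) 1).tendsto_subseq
    (x := fun k => ‖x k‖⁻¹ • x k) (fun k => by
      rw [mem_sphere_zero_iff_norm, norm_smul, norm_inv, norm_norm, inv_mul_cancel₀ (hn k).ne'])
  rw [mem_sphere_zero_iff_norm] at hu
  refine ⟨u, ?_, fun h => by simp [h] at hu, fun t => ?_⟩
  · exact Q.closed_of_finiteDimensional.mem_of_tendsto hconv
      (Eventually.of_forall fun k => Q.smul_mem _ (hxQ _))
  · have hn0 : Tendsto (fun k => ‖x (φ k)‖) atTop (𝓝 0) :=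
      (tendsto_zero_iff_norm_tendsto_zero.1 hlim).comp hφ.tendsto_atTop
    have hm : Tendsto (fun k => (⌊t / ‖x (φ k)‖⌋ : ℝ) * ‖x (φ k)‖) atTop (𝓝 t) := by
      have h1 : Tendsto (fun k => t - ‖x (φ k)‖) atTop (𝓝 t) := by
        simpa using hn0.const_sub t
      refine tendsto_of_tendsto_of_tendsto_of_le_of_le h1 tendsto_const_nhds (fun k => ?_)
        (fun k => ?_)
      · have := Int.lt_floor_add_one (t / ‖x (φ k)‖)
        rw [div_lt_iff₀ (hn _)] at this
        simp only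
        linarith
      · have := Int.floor_le (t / ‖x (φ k)‖)
        rw [le_div_iff₀ (hn _)] at this
        exact this
    refine hD.mem_of_tendsto (hm.smul hconv) (Eventually.of_forall fun k => ?_)
    simp only [Function.comp]
    rw [smul_smul, mul_assoc, mul_inv_cancel₀ (hn _).ne', mul_one, Int.cast_smul_eq_zsmul]
    exact D.zsmul_mem (hxD _) _

theorem poly_vanish {ι Γ : Type*} [Fintype ι] [Monoid Γ] (c : ι → (Γ →* ℂ))
    (f : MvPolynomial ι ℂ) (hf : ∀ g : Γ, MvPolynomial.eval (fun φ => c φ g) f = 0) (y : ι → ℂ)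
    (hy : ∀ α β : ι →₀ ℕ, (∀ g : Γ, ∏ φ, c φ g ^ α φ = ∏ φ, c φ g ^ β φ) →
      ∏ φ, y φ ^ α φ = ∏ φ, y φ ^ β φ) : MvPolynomial.eval y f = 0 := by
  classical
  let χ : (ι →₀ ℕ) → (Γ →* ℂ) := fun α => ∏ φ, c φ ^ α φ
  have hχ : ∀ α g, χ α g = ∏ φ, c φ g ^ α φ := fun α g => by
    simp [χ]
  let F : (Γ →* ℂ) →₀ ℂ := ∑ d ∈ f.support, Finsupp.single (χ d) (f.coeff d)
  have hF : F = 0 := by
    apply linearIndependent_iff.1 (linearIndependent_monoidHom Γ ℂ)
    ext g
    have := hf g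
    rw [MvPolynomial.eval_eq'] at this
    simp only [F, map_sum, Finsupp.linearCombination_single, Finset.sum_apply, Pi.smul_apply,
      smul_eq_mul, Pi.zero_apply, hχ]
    exact this
  have hfac : Function.FactorsThrough (fun α : ι →₀ ℕ => ∏ φ, y φ ^ α φ) χ := fun α β h =>
    hy α β fun g => by rw [← hχ, ← hχ, h]
  have := congrArg (Finsupp.linearCombination ℂ
    (Function.extend χ (fun α : ι →₀ ℕ => ∏ φ, y φ ^ α φ) 0)) hF
  simp only [F, map_sum, Finsupp.linearCombination_single, hfac.extend_apply, smul_eq_mul,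
    map_zero] at this
  rw [MvPolynomial.eval_eq']
  exact this

/-- Componentwise exponential. -/
noncomputable def expU {ι : Type*} (v : ι → ℂ) : ι → ℂˣ :=
  fun φ => Units.mk0 (Complex.exp (v φ)) (Complex.exp_ne_zero _)

theorem expU_val {ι : Type*} (v : ι → ℂ) (φ : ι) : (expU v φ : ℂ) = Complex.exp (v φ) := rfl

theorem continuous_expU {ι : Type*} : Continuous (expU (ι := ι)) := by
  refine continuous_pi fun φ => ?_
  rw [Units.isEmbedding_val₀.continuous_iff]
  exact Complex.continuous_exp.comp (continuous_apply φ)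

theorem expU_add {ι : Type*} (v w : ι → ℂ) : expU (v + w) = expU v * expU w := by
  ext φ; simp [expU_val, Complex.exp_add]

theorem expU_zero {ι : Type*} : expU (0 : ι → ℂ) = 1 := by
  ext φ; simp [expU_val]

theorem expU_neg {ι : Type*} (v : ι → ℂ) : expU (-v) = (expU v)⁻¹ := by
  rw [eq_inv_iff_mul_eq_one, ← expU_add, neg_add_cancel, expU_zero]

theorem log_norm_expU {ι : Type*} (v : ι → ℂ) (φ : ι) : Real.log ‖(expU v φ : ℂ)‖ = (v φ).re := by
  rw [expU_val, Complex.norm_exp, Real.log_exp]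

theorem exists_nontrivial {ι : Type*} [Fintype ι] (G : Subgroup (ι → ℂˣ))
    (hG : IsClosed (G : Set (ι → ℂˣ))) (C : Subgroup G) (hC : IsClosed (C : Set G))
    (y : ℕ → G) (hy : ∀ k, y k ∈ C) (R : ℝ)
    (hbd : ∀ k φ, |Real.log ‖((y k).1 φ : ℂ)‖| ≤ R)
    (hinj : ∀ k l, (∀ φ, Real.log ‖((y k).1 φ : ℂ)‖ = Real.log ‖((y l).1 φ : ℂ)‖) → k = l) :
    ∃ g ∈ identityComponent C, ∃ φ, Real.log ‖(g.1 φ : ℂ)‖ ≠ 0 := by
  by_contra hcon
  push Not at hcon
  let D : AddSubgroup (ι → ℂ) :=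
    { carrier := {v | expU v ∈ C.map G.subtype}
      zero_mem' := by simp only [Set.mem_ofPred_eq, expU_zero]; exact one_mem _
      add_mem' := fun {a b} ha hb => by
        simp only [Set.mem_ofPred_eq, expU_add]; exact mul_mem ha hb
      neg_mem' := fun {a} ha => by
        simp only [Set.mem_ofPred_eq, expU_neg]; exact inv_mem ha }
  have hD : IsClosed (D : Set (ι → ℂ)) := by
    have h1 : IsClosed ((C.map G.subtype : Subgroup (ι → ℂˣ)) : Set (ι → ℂˣ)) := by
      rw [Subgroup.coe_map]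
      exact hG.isClosedEmbedding_subtypeVal.isClosedMap _ hC
    exact h1.preimage continuous_expU
  let V : Submodule ℝ (ι → ℂ) :=
    { carrier := {v | ∀ t : ℝ, t • v ∈ D}
      zero_mem' := fun t => by rw [smul_zero]; exact D.zero_mem
      add_mem' := fun {a b} ha hb t => by rw [smul_add]; exact D.add_mem (ha t) (hb t)
      smul_mem' := fun c a ha t => by rw [smul_smul]; exact ha _ }
  have hV : ∀ v ∈ V, ∀ φ, (v φ).re = 0 := fun v hv φ => by
    have hmem : ∀ t : ℝ, expU (t • v) ∈ G := fun t => by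
      obtain ⟨g, -, hg⟩ := (hv t : expU (t • v) ∈ C.map G.subtype)
      rw [← hg]; exact g.2
    have hmemC : ∀ t : ℝ, (⟨expU (t • v), hmem t⟩ : G) ∈ C := fun t => by
      obtain ⟨g, hgC, hg⟩ := (hv t : expU (t • v) ∈ C.map G.subtype)
      have : (⟨expU (t • v), hmem t⟩ : G) = g := Subtype.ext hg.symm
      rw [this]; exact hgC
    have := mem_identityComponent C (fun t => (⟨expU (t • v), hmem t⟩ : G))
      ((continuous_expU.comp (continuous_id.smul continuous_const)).subtype_mk _) hmemC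
      (Subtype.ext (by simp [expU_zero])) 1
    have h2 := hcon _ this φ
    simp only [one_smul] at h2
    rwa [log_norm_expU] at h2
  obtain ⟨Q, hQ⟩ := V.exists_isCompl
  let v : ℕ → ι → ℂ := fun k φ => Complex.log ((y k).1 φ)
  have hvexp : ∀ k, expU (v k) = (y k).1 := fun k => by
    ext φ; simp [expU_val, v, Complex.exp_log]
  have hvD : ∀ k, v k ∈ D := fun k => ⟨y k, hy k, (hvexp k).symm⟩
  have hvre : ∀ k φ, (v k φ).re = Real.log ‖((y k).1 φ : ℂ)‖ := fun k φ => Complex.log_re _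
  have hR : 0 ≤ |R| + Real.pi := by positivity
  have hvb : ∀ k, v k ∈ Metric.closedBall (0 : ι → ℂ) (|R| + Real.pi) := fun k => by
    rw [mem_closedBall_zero_iff, pi_norm_le_iff_of_nonneg hR]
    intro φ
    refine (Complex.norm_le_abs_re_add_abs_im _).trans (add_le_add ?_ ?_)
    · rw [hvre]; exact (hbd k φ).trans (le_abs_self R)
    · simp only [v, Complex.log_im]; exact Complex.abs_arg_le_pi _
  obtain ⟨a, -, ψ, hψ, hconv⟩ := (isCompact_closedBall (0 : ι → ℂ) (|R| + Real.pi)).tendsto_subseq hvb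
  let w : ℕ → ι → ℂ := fun k => v (ψ (k + 1)) - v (ψ k)
  have hw0 : Tendsto w atTop (𝓝 0) := by
    have := (hconv.comp (tendsto_add_atTop_nat 1)).sub hconv
    simpa using this
  let π : (ι → ℂ) →ₗ[ℝ] (ι → ℂ) := Q.projection V hQ.symm
  have hπ : ∀ z, z - π z ∈ V := fun z => Submodule.sub_projection_mem hQ.symm z
  obtain ⟨u, huQ, hu0, hu⟩ := line_lemma D hD Q (fun k => π (w k)) (fun k => by
      have h1 : w k ∈ D := D.sub_mem (hvD _) (hvD _)
      have h2 : w k - π (w k) ∈ D := by simpa using hπ (w k) 1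
      simpa using D.sub_mem h1 h2) (fun k => Submodule.projection_apply_mem hQ.symm _) (fun k h => by
      have h1 := hV _ (hπ (w k))
      rw [h, sub_zero] at h1
      have := hinj (ψ (k + 1)) (ψ k) fun φ => by
        have := h1 φ
        simp only [w, Pi.sub_apply, Complex.sub_re, hvre] at this
        linarith
      exact (hψ (Nat.lt_succ_self k)).ne' this) (by
      have := (π.continuous_of_finiteDimensional.tendsto 0).comp hw0
      rw [map_zero] at this
      exact this)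
  exact hu0 ((Submodule.disjoint_def.1 hQ.disjoint) u hu huQ)

/-- The logarithmic coordinates. -/
noncomputable def lg {ι : Type*} (y : ι → ℂˣ) (φ : ι) : ℝ := Real.log ‖(y φ : ℂ)‖

theorem lg_mul {ι : Type*} (x y : ι → ℂˣ) (φ : ι) : lg (x * y) φ = lg x φ + lg y φ := by
  simp only [lg, Pi.mul_apply, Units.val_mul, norm_mul]
  exact Real.log_mul (by simp) (by simp)

theorem lg_one {ι : Type*} (φ : ι) : lg (1 : ι → ℂˣ) φ = 0 := by simp [lg]

theorem lg_inv {ι : Type*} (x : ι → ℂˣ) (φ : ι) : lg x⁻¹ φ = - lg x φ := by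
  simp [lg]

theorem lg_zpow {ι : Type*} (x : ι → ℂˣ) (n : ℤ) (φ : ι) : lg (x ^ n) φ = n * lg x φ := by
  simp [lg, Real.log_zpow]

theorem lg_pow {ι : Type*} (x : ι → ℂˣ) (n : ℕ) (φ : ι) : lg (x ^ n) φ = n * lg x φ := by
  simp [lg]

theorem continuous_lg {ι : Type*} (φ : ι) : Continuous fun y : ι → ℂˣ => lg y φ :=
  ((Units.continuous_val.comp (continuous_apply φ)).norm).log fun y => by simp

theorem abstract_main {ι : Type*} [Fintype ι] (G : Subgroup (ι → ℂˣ))
    (hG : IsClosed (G : Set (ι → ℂˣ))) (f : Fin 3 → ι → ℤ) (σ : Fin 3 → ι)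
    (hσ : ∀ i j, f i (σ j) = if i = j then 1 else 0)
    (hGexp : ∀ z : Fin 3 → ℝ, expU (fun φ => ((∑ i, z i * f i φ : ℝ) : ℂ)) ∈ G)
    (u : Fin 3 → ℝ) (hu : LinearIndependent ℚ u) (ℓ : Fin 3 → G)
    (h0 : ∀ φ, lg (ℓ 0).1 φ = u 2 * f 1 φ - u 1 * f 2 φ)
    (h1 : ∀ φ, lg (ℓ 1).1 φ = u 0 * f 2 φ - u 2 * f 0 φ)
    (h2 : ∀ φ, lg (ℓ 2).1 φ = u 1 * f 0 φ - u 0 * f 1 φ)
    (H : Subgroup G) (S : Set (MvPolynomial ι ℂ))
    (hH : ∀ y : G, y ∈ H ↔ ∀ p ∈ S, MvPolynomial.eval (fun φ => (y.1 φ : ℂ)) p = 0)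
    (hle : identityComponent (Subgroup.closure (Set.range ℓ)).topologicalClosure ≤ H) :
    ¬ ((identityComponent (Subgroup.closure (Set.range ℓ)).topologicalClosure).subgroupOf
      H).FiniteIndex := by
  intro hfin
  set C := (Subgroup.closure (Set.range ℓ)).topologicalClosure with hCdef
  set Γ := identityComponent C with hΓ
  have hsum : ∀ (z : Fin 3 → ℝ) j, ∑ i, z i * f i (σ j) = z j := fun z j => by
    simp [hσ]
  have hs00 : f 0 (σ 0) = 1 := by simp [hσ]
  have hs10 : f 1 (σ 0) = 0 := by simp [hσ]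
  have hs20 : f 2 (σ 0) = 0 := by simp [hσ]
  have hs01 : f 0 (σ 1) = 0 := by simp [hσ]
  have hs11 : f 1 (σ 1) = 1 := by simp [hσ]
  have hs21 : f 2 (σ 1) = 0 := by simp [hσ]
  have hs02 : f 0 (σ 2) = 0 := by simp [hσ]
  have hs12 : f 1 (σ 2) = 0 := by simp [hσ]
  have hs22 : f 2 (σ 2) = 1 := by simp [hσ]
  -- the closed subgroup cut out by the logarithmic conditions
  let P : Subgroup G :=
    { carrier := {y | (∀ φ, lg y.1 φ = ∑ i, lg y.1 (σ i) * f i φ) ∧ ∑ i, u i * lg y.1 (σ i) = 0}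
      one_mem' := ⟨fun φ => by simp [lg_one], by simp [lg_one]⟩
      mul_mem' := fun {a b} ha hb => ⟨fun φ => by
        simp only [Subgroup.coe_mul, lg_mul, add_mul, Finset.sum_add_distrib]
        rw [ha.1 φ, hb.1 φ], by
        simp only [Subgroup.coe_mul, lg_mul, mul_add, Finset.sum_add_distrib]
        rw [ha.2, hb.2, add_zero]⟩
      inv_mem' := fun {a} ha => ⟨fun φ => by
        simp only [Subgroup.coe_inv, lg_inv, neg_mul, Finset.sum_neg_distrib]
        rw [ha.1 φ], by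
        simp only [Subgroup.coe_inv, lg_inv, mul_neg, Finset.sum_neg_distrib]
        rw [ha.2, neg_zero]⟩ }
  have hPc : IsClosed (P : Set G) := by
    have c : ∀ φ, Continuous fun y : G => lg y.1 φ := fun φ =>
      (continuous_lg φ).comp continuous_subtype_val
    have e : (P : Set G) = (⋂ φ, {y : G | lg y.1 φ = ∑ i, lg y.1 (σ i) * f i φ}) ∩
        {y : G | ∑ i, u i * lg y.1 (σ i) = 0} := by
      ext y; simp [P]
    rw [e]
    refine (isClosed_iInter fun φ => isClosed_eq (c φ) ?_).inter (isClosed_eq ?_ continuous_const)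
    · exact continuous_finsetSum _ fun i _ => (c _).mul continuous_const
    · exact continuous_finsetSum _ fun i _ => continuous_const.mul (c _)
  have hCP : C ≤ P := by
    refine Subgroup.topologicalClosure_minimal _ ?_ hPc
    rw [Subgroup.closure_le]
    rintro _ ⟨i, rfl⟩
    fin_cases i
    · refine ⟨fun φ => ?_, ?_⟩ <;>
      simp [Fin.sum_univ_three, h0, hs00, hs10, hs20, hs01, hs11, hs21, hs02, hs12, hs22] <;> ring
    · refine ⟨fun φ => ?_, ?_⟩ <;>
      simp [Fin.sum_univ_three, h1, hs00, hs10, hs20, hs01, hs11, hs21, hs02, hs12, hs22] <;> ring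
    · refine ⟨fun φ => ?_, ?_⟩ <;>
      simp [Fin.sum_univ_three, h2, hs00, hs10, hs20, hs01, hs11, hs21, hs02, hs12, hs22] <;> ring
  let c : ι → (Γ →* ℂ) := fun φ =>
    (Units.coeHom ℂ).comp ((Pi.evalMonoidHom (fun _ : ι => ℂˣ) φ).comp (G.subtype.comp Γ.subtype))
  have hc : ∀ φ (g : Γ), c φ g = (g.1.1 φ : ℂ) := fun φ g => rfl
  let m : (ι →₀ ℕ) → Fin 3 → ℤ := fun α i => ∑ φ, (α φ : ℤ) * f i φ
  have hm : ∀ (α : ι →₀ ℕ) (z : Fin 3 → ℝ),
      ∑ φ, (α φ : ℝ) * ∑ i, z i * f i φ = ∑ i, (m α i : ℝ) * z i := fun α z => by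
    simp only [m, Finset.mul_sum, Int.cast_sum, Finset.sum_mul, Int.cast_mul, Int.cast_natCast]
    rw [Finset.sum_comm]
    exact Finset.sum_congr rfl fun i _ => Finset.sum_congr rfl fun φ _ => by ring
  let T : (Fin 3 → ℝ) → Prop := fun z => ∀ α β : ι →₀ ℕ,
    (∀ g : Γ, ∏ φ, c φ g ^ α φ = ∏ φ, c φ g ^ β φ) →
      ∑ i, (m α i : ℝ) * z i = ∑ i, (m β i : ℝ) * z i
  have hA : ∀ g ∈ Γ, T fun i => lg g.1 (σ i) := fun g hg α β hαβ => by
    have hP := (hCP (identityComponent_le C hg)).1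
    have key : ∀ γ : ι →₀ ℕ, Real.log ‖∏ φ, c φ ⟨g, hg⟩ ^ γ φ‖ =
        ∑ i, (m γ i : ℝ) * lg g.1 (σ i) := fun γ => by
      rw [← hm, norm_prod, Real.log_prod (fun φ _ => by simp [hc])]
      refine Finset.sum_congr rfl fun φ _ => ?_
      rw [← hP φ, norm_pow, Real.log_pow, hc]; rfl
    rw [← key, ← key, hαβ]
  have hB : ∀ z, T z → ∑ i, u i * z i = 0 := fun z hz => by
    let y : G := ⟨expU (fun φ => ((∑ i, z i * f i φ : ℝ) : ℂ)), hGexp z⟩
    have hyH : y ∈ H := by
      rw [hH]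
      intro p hp
      refine poly_vanish c p (fun g => (hH g.1).1 (hle g.2) p hp) _ fun α β hαβ => ?_
      have key : ∀ γ : ι →₀ ℕ, ∏ φ, (y.1 φ : ℂ) ^ γ φ =
          Complex.exp ((∑ i, (m γ i : ℝ) * z i : ℝ) : ℂ) := fun γ => by
        rw [← hm, Complex.ofReal_sum, Complex.exp_sum]
        refine Finset.prod_congr rfl fun φ _ => ?_
        rw [Complex.ofReal_mul, Complex.ofReal_natCast, Complex.exp_nat_mul]; rfl
      rw [key, key, hz α β hαβ]
    have hN : (Γ.subgroupOf H).index ≠ 0 := hfin.index_ne_zero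
    have hpow : (⟨y, hyH⟩ : H) ^ (Γ.subgroupOf H).index ∈ Γ.subgroupOf H :=
      Subgroup.pow_index_mem _ _
    have h3 := (hCP (identityComponent_le C hpow)).2
    have hlg : ∀ j, lg y.1 (σ j) = z j := fun j => by
      simp only [y, lg, log_norm_expU, Complex.ofReal_re, hsum]
    simp only [Subgroup.coe_subtype, SubgroupClass.coe_pow, lg_pow, hlg] at h3
    have h4 : ((Γ.subgroupOf H).index : ℝ) * ∑ i, u i * z i = 0 := by
      rw [← h3, Finset.mul_sum]
      exact Finset.sum_congr rfl fun i _ => by ring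
    exact (mul_eq_zero.1 h4).resolve_left (by exact_mod_cast hN)
  have hZ : ∀ z, T z → z = 0 := fun z hz => by
    funext j
    rw [Pi.zero_apply, ← Module.forall_dual_apply_eq_zero_iff ℚ]
    intro ψ
    have hT : T fun i => ((ψ (z i) : ℚ) : ℝ) := fun α β hαβ => by
      have := congrArg ψ (hz α β hαβ)
      simp only [map_sum, ← zsmul_eq_mul, map_zsmul] at this
      simp only [zsmul_eq_mul] at this
      beta_reduce
      exact_mod_cast this
    have := hB _ hT
    refine Fintype.linearIndependent_iff.1 hu (fun i => ψ (z i)) ?_ j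
    rw [← this]
    exact Finset.sum_congr rfl fun i _ => by rw [Rat.smul_def, mul_comm]
  have hu0 : u 0 ≠ 0 := hu.ne_zero 0
  let n1 : ℕ → ℤ := fun k => ⌊(k : ℝ) * u 1 / u 0⌋
  let n2 : ℕ → ℤ := fun k => ⌊(k : ℝ) * u 2 / u 0⌋
  let y : ℕ → G := fun k => ℓ 0 ^ k * ℓ 1 ^ n1 k * ℓ 2 ^ n2 k
  have hy : ∀ k φ, lg (y k).1 φ = (n2 k * u 1 - n1 k * u 2) * f 0 φ +
      (k * u 2 - n2 k * u 0) * f 1 φ + (n1 k * u 0 - k * u 1) * f 2 φ := fun k φ => by
    simp only [y, Subgroup.coe_mul, SubgroupClass.coe_pow, SubgroupClass.coe_zpow, lg_mul, lg_pow,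
      lg_zpow, h0, h1, h2]
    ring
  have hmemL : ∀ i, ℓ i ∈ C := fun i =>
    Subgroup.le_topologicalClosure _ (Subgroup.subset_closure ⟨i, rfl⟩)
  obtain ⟨g, hg, φ, hφ⟩ := exists_nontrivial G hG C (Subgroup.isClosed_topologicalClosure _) y
    (fun k => mul_mem (mul_mem (pow_mem (hmemL 0) _) (zpow_mem (hmemL 1) _)) (zpow_mem (hmemL 2) _))
    ((|u 0| + |u 1| + |u 2|) * ∑ φ, ∑ i, |(f i φ : ℝ)|) (fun k φ => by
      change |lg (y k).1 φ| ≤ _
      obtain ⟨e1, he1, he1', hn1⟩ : ∃ e : ℝ, 0 ≤ e ∧ e ≤ 1 ∧ (n1 k : ℝ) = k * u 1 / u 0 - e :=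
        ⟨Int.fract _, Int.fract_nonneg _, (Int.fract_lt_one _).le, (Int.self_sub_fract _).symm⟩
      obtain ⟨e2, he2, he2', hn2⟩ : ∃ e : ℝ, 0 ≤ e ∧ e ≤ 1 ∧ (n2 k : ℝ) = k * u 2 / u 0 - e :=
        ⟨Int.fract _, Int.fract_nonneg _, (Int.fract_lt_one _).le, (Int.self_sub_fract _).symm⟩
      have e : lg (y k).1 φ = (e1 * u 2 - e2 * u 1) * f 0 φ + (e2 * u 0) * f 1 φ +
          (-(e1 * u 0)) * f 2 φ := by
        rw [hy, hn1, hn2]; field_simp; ring
      have a0 := abs_nonneg (u 0)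
      have a1 := abs_nonneg (u 1)
      have a2 := abs_nonneg (u 2)
      have b0 : |e1 * u 2 - e2 * u 1| ≤ |u 0| + |u 1| + |u 2| := by
        refine (abs_sub _ _).trans ?_
        rw [abs_mul, abs_mul, abs_of_nonneg he1, abs_of_nonneg he2]
        nlinarith
      have b1 : |e2 * u 0| ≤ |u 0| + |u 1| + |u 2| := by
        rw [abs_mul, abs_of_nonneg he2]; nlinarith
      have b2 : |-(e1 * u 0)| ≤ |u 0| + |u 1| + |u 2| := by
        rw [abs_neg, abs_mul, abs_of_nonneg he1]; nlinarith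
      have b3 : ∑ i, |(f i φ : ℝ)| ≤ ∑ φ, ∑ i, |(f i φ : ℝ)| :=
        Finset.single_le_sum (f := fun φ => ∑ i, |(f i φ : ℝ)|)
          (fun φ _ => Finset.sum_nonneg fun i _ => abs_nonneg _) (Finset.mem_univ φ)
      refine le_trans ?_ (mul_le_mul_of_nonneg_left b3 (by positivity))
      rw [e, Fin.sum_univ_three, mul_add, mul_add]
      refine (abs_add_three _ _ _).trans (add_le_add (add_le_add ?_ ?_) ?_) <;> rw [abs_mul] <;>
        exact mul_le_mul_of_nonneg_right (by assumption) (abs_nonneg _))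
    (fun k l hkl => by
      have := hkl (σ 1)
      change lg (y k).1 (σ 1) = lg (y l).1 (σ 1) at this
      rw [hy, hy, hs01, hs11, hs21] at this
      have h5 := Fintype.linearIndependent_iff.1 hu ![(n2 l - n2 k : ℤ), 0, (k : ℚ) - l] (by
        simp only [Fin.sum_univ_three, Matrix.cons_val_zero, Matrix.cons_val_one,
          Matrix.cons_val_two, Matrix.head_cons, Matrix.tail_cons, Rat.smul_def]
        push_cast at this ⊢
        linarith) 2
      simp only [Matrix.cons_val_two, Matrix.tail_cons, Matrix.head_cons, sub_eq_zero] at h5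
      exact_mod_cast h5)
  apply hφ
  have h6 := hZ _ (hA g hg)
  have h7 := (hCP (identityComponent_le C hg)).1 φ
  change lg g.1 φ = 0
  rw [h7]
  exact Finset.sum_eq_zero fun i _ => by rw [congrFun h6 i]; simp

end Pool.Agent.Lib.H13Torus
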