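import Mathlib

set_option autoImplicit false
set_option linter.unusedSimpArgs false

namespace Pool.Agent.Lib.H13TorusNT

open Polynomial

/-- The sextic `x ^ 6 + 4 x ^ 4 + 2 x ^ 2 - 2`. -/
noncomputable def gZ : ℤ[X] := X ^ 6 + C 4 * X ^ 4 + C 2 * X ^ 2 - C 2

theorem gZ_monic : gZ.Monic := by
  unfold gZ; monicity!

theorem gZ_natDegree : gZ.natDegree = 6 := by
  unfold gZ; compute_degree!

theorem gZ_irred : Irreducible gZ := by
  have hp : (Ideal.span {(2 : ℤ)}).IsPrime :=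
    (Ideal.span_singleton_prime (by norm_num)).2 Int.prime_two
  refine IsEisensteinAt.irreducible (𝓟 := Ideal.span {(2 : ℤ)}) ⟨?_, ?_, ?_⟩ hp
    gZ_monic.isPrimitive (by rw [gZ_natDegree]; norm_num)
  · rw [gZ_monic.leadingCoeff, Ideal.mem_span_singleton]; norm_num
  · intro n hn
    rw [gZ_natDegree] at hn
    rw [Ideal.mem_span_singleton]
    interval_cases n <;> simp [gZ, coeff_X_pow, coeff_C]
  · rw [Ideal.span_singleton_pow, Ideal.mem_span_singleton]
    simp [gZ, coeff_X_pow, coeff_C]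

theorem aeval_gZ {R : Type*} [CommRing R] (x : R) :
    aeval x gZ = x ^ 6 + 4 * x ^ 4 + 2 * x ^ 2 - 2 := by
  simp [gZ, map_ofNat]

theorem minpoly_eq {F : Type*} [Field F] [Algebra ℚ F] (x : F)
    (hx : x ^ 6 + 4 * x ^ 4 + 2 * x ^ 2 - 2 = 0) :
    minpoly ℚ x = gZ.map (algebraMap ℤ ℚ) := by
  refine (minpoly.eq_of_irreducible_of_monic ?_ ?_ (gZ_monic.map _)).symm
  · exact gZ_monic.irreducible_iff_irreducible_map_fraction_map.1 gZ_irred
  · rw [aeval_map_algebraMap, aeval_gZ, hx]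

theorem transfer (θ : ℝ) (hθ : θ ^ 6 + 4 * θ ^ 4 + 2 * θ ^ 2 - 2 = 0) (P : ℤ[X])
    (hP : aeval θ P = 0) {R : Type*} [CommRing R] (r : R)
    (hr : r ^ 6 + 4 * r ^ 4 + 2 * r ^ 2 - 2 = 0) : aeval r P = 0 := by
  have h1 : minpoly ℚ θ ∣ P.map (algebraMap ℤ ℚ) :=
    minpoly.dvd ℚ θ (by rw [aeval_map_algebraMap, hP])
  rw [minpoly_eq θ hθ, map_dvd_map _ (algebraMap ℤ ℚ).injective_int gZ_monic] at h1
  obtain ⟨Q, rfl⟩ := h1
  rw [map_mul, aeval_gZ, hr, zero_mul]

theorem exps_zero {F : Type*} [Field F] (b X Y : F) (hb : b ≠ 0) (hX : X ≠ 0) (hY : Y ≠ 0)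
    (n : ℤ) (h : 0 ^ n.toNat * b ^ (-n).toNat * X = b ^ n.toNat * 0 ^ (-n).toNat * Y) : n = 0 := by
  rcases lt_trichotomy n 0 with hn | hn | hn
  · have h1 : n.toNat = 0 := by omega
    have h2 : (-n).toNat ≠ 0 := by omega
    rw [h1, zero_pow h2] at h
    simp [hb, hX] at h
  · exact hn
  · have h1 : n.toNat ≠ 0 := by omega
    have h2 : (-n).toNat = 0 := by omega
    rw [h2, zero_pow h1] at h
    simp [hb, hY] at h

instance fact67 : Fact (Nat.Prime 67) := ⟨by norm_num⟩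
instance fact1069 : Fact (Nat.Prime 1069) := ⟨by norm_num⟩
instance fact5 : Fact (Nat.Prime 5) := ⟨by norm_num⟩

theorem indep (θ : ℝ) (h0 : 0 < θ) (h1 : θ < 1) (hθ : θ ^ 6 + 4 * θ ^ 4 + 2 * θ ^ 2 - 2 = 0)
    (a b c : ℤ) (h : a * Real.log ((1 + θ) / (1 - θ)) + b * Real.log ((2 + θ) / (2 - θ))
      + c * Real.log ((3 + θ) / (3 - θ)) = 0) : a = 0 ∧ b = 0 ∧ c = 0 := by
  have p1 : 0 < 1 + θ := by linarith
  have p2 : 0 < 2 + θ := by linarith
  have p3 : 0 < 3 + θ := by linarith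
  have m1 : 0 < 1 - θ := by linarith
  have m2 : 0 < 2 - θ := by linarith
  have m3 : 0 < 3 - θ := by linarith
  have hz : ∀ n : ℤ, (n : ℝ) = (n.toNat : ℝ) - ((-n).toNat : ℝ) := fun n => by
    have := Int.toNat_sub_toNat_neg n
    exact_mod_cast this.symm
  have key : (1 + θ) ^ a.toNat * (1 - θ) ^ (-a).toNat * ((2 + θ) ^ b.toNat * (2 - θ) ^ (-b).toNat)
      * ((3 + θ) ^ c.toNat * (3 - θ) ^ (-c).toNat) =
      (1 - θ) ^ a.toNat * (1 + θ) ^ (-a).toNat * ((2 - θ) ^ b.toNat * (2 + θ) ^ (-b).toNat)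
      * ((3 - θ) ^ c.toNat * (3 + θ) ^ (-c).toNat) := by
    apply Real.log_injOn_pos (Set.mem_Ioi.2 (by positivity)) (Set.mem_Ioi.2 (by positivity))
    rw [Real.log_div p1.ne' m1.ne', Real.log_div p2.ne' m2.ne', Real.log_div p3.ne' m3.ne',
      hz a, hz b, hz c] at h
    repeat rw [Real.log_mul (by positivity) (by positivity)]
    simp only [Real.log_pow]
    linarith
  have tr : ∀ {R : Type} [CommRing R] (r : R), r ^ 6 + 4 * r ^ 4 + 2 * r ^ 2 - 2 = 0 →
      (1 + r) ^ a.toNat * (1 - r) ^ (-a).toNat * ((2 + r) ^ b.toNat * (2 - r) ^ (-b).toNat)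
      * ((3 + r) ^ c.toNat * (3 - r) ^ (-c).toNat) =
      (1 - r) ^ a.toNat * (1 + r) ^ (-a).toNat * ((2 - r) ^ b.toNat * (2 + r) ^ (-b).toNat)
      * ((3 - r) ^ c.toNat * (3 + r) ^ (-c).toNat) := fun r hr => by
    have := transfer θ hθ ((1 + X) ^ a.toNat * (1 - X) ^ (-a).toNat *
      ((2 + X) ^ b.toNat * (2 - X) ^ (-b).toNat) * ((3 + X) ^ c.toNat * (3 - X) ^ (-c).toNat) -
      (1 - X) ^ a.toNat * (1 + X) ^ (-a).toNat * ((2 - X) ^ b.toNat * (2 + X) ^ (-b).toNat)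
      * ((3 - X) ^ c.toNat * (3 + X) ^ (-c).toNat))
      (by simp only [map_sub, map_mul, map_pow, map_add, map_one, aeval_X, map_ofNat]
          rw [key, sub_self]) r hr
    simp only [map_sub, map_mul, map_pow, map_add, map_one, aeval_X, map_ofNat] at this
    exact sub_eq_zero.1 this
  refine ⟨?_, ?_, ?_⟩
  · have := tr (-1 : ZMod 5) (by decide)
    rw [show (1 : ZMod 5) + -1 = 0 by ring, mul_assoc _ (_ * _) (_ * _),
      mul_assoc _ (_ * _) (_ * _)] at this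
    refine exps_zero _ _ _ (by decide) ?_ ?_ a this <;>
      exact mul_ne_zero (mul_ne_zero (pow_ne_zero _ (by decide)) (pow_ne_zero _ (by decide)))
        (mul_ne_zero (pow_ne_zero _ (by decide)) (pow_ne_zero _ (by decide)))
  · have := tr (-2 : ZMod 67) (by decide)
    rw [show (2 : ZMod 67) + -2 = 0 by ring, mul_comm (_ * _) (_ ^ b.toNat * _),
      mul_comm (_ * _) (_ ^ b.toNat * _), mul_assoc _ (_ * _) (_ * _),
      mul_assoc _ (_ * _) (_ * _)] at this
    refine exps_zero _ _ _ (by decide) ?_ ?_ b this <;>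
      exact mul_ne_zero (mul_ne_zero (pow_ne_zero _ (by decide)) (pow_ne_zero _ (by decide)))
        (mul_ne_zero (pow_ne_zero _ (by decide)) (pow_ne_zero _ (by decide)))
  · have := tr (-3 : ZMod 1069) (by decide +kernel)
    rw [show (3 : ZMod 1069) + -3 = 0 by ring, mul_comm (_ * _) (_ ^ c.toNat * _),
      mul_comm (_ * _) (_ ^ c.toNat * _)] at this
    refine exps_zero _ _ _ (by decide +kernel) ?_ ?_ c this <;>
      exact mul_ne_zero (mul_ne_zero (pow_ne_zero _ (by decide +kernel))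
        (pow_ne_zero _ (by decide +kernel)))
        (mul_ne_zero (pow_ne_zero _ (by decide +kernel)) (pow_ne_zero _ (by decide +kernel)))

theorem linIndep (θ : ℝ) (h0 : 0 < θ) (h1 : θ < 1) (hθ : θ ^ 6 + 4 * θ ^ 4 + 2 * θ ^ 2 - 2 = 0) :
    LinearIndependent ℚ ![Real.log ((3 + θ) / (3 - θ)), -Real.log ((2 + θ) / (2 - θ)),
      Real.log ((1 + θ) / (1 - θ))] := by
  rw [← LinearIndependent.iff_fractionRing ℤ ℚ, Fintype.linearIndependent_iff]
  intro g hg
  simp only [Fin.sum_univ_three, Matrix.cons_val_zero, Matrix.cons_val_one, Matrix.cons_val_two,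
    Matrix.head_cons, Matrix.tail_cons, zsmul_eq_mul] at hg
  obtain ⟨e1, e2, e3⟩ := indep θ h0 h1 hθ (g 2) (-g 1) (g 0) (by push_cast; linarith)
  intro i
  fin_cases i
  · exact e3
  · exact neg_eq_zero.1 e2
  · exact e1

theorem exists_roots : ∃ a b c : ℝ, 0 < a ∧ a < 1 ∧ b < 0 ∧ c < b ∧
    ∀ w : ℂ, w ^ 3 + 4 * w ^ 2 + 2 * w - 2 = (w - a) * (w - b) * (w - c) := by
  have hc : Continuous fun t : ℝ => t ^ 3 + 4 * t ^ 2 + 2 * t - 2 := by fun_prop
  obtain ⟨a, ⟨ha0, ha1⟩, ha⟩ := intermediate_value_Ioo (show (0 : ℝ) ≤ 1 by norm_num)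
    hc.continuousOn (show (0 : ℝ) ∈ _ by constructor <;> norm_num)
  obtain ⟨b, ⟨hb0, hb1⟩, hb⟩ := intermediate_value_Ioo' (show (-2 : ℝ) ≤ -1 by norm_num)
    hc.continuousOn (show (0 : ℝ) ∈ _ by constructor <;> norm_num)
  obtain ⟨c, ⟨hc0, hc1⟩, hc'⟩ := intermediate_value_Ioo (show (-4 : ℝ) ≤ -2 by norm_num)
    hc.continuousOn (show (0 : ℝ) ∈ _ by constructor <;> norm_num)
  simp only at ha hb hc'
  have e1 : a ^ 2 + a * b + b ^ 2 + 4 * (a + b) + 2 = 0 :=
    mul_left_cancel₀ (show a - b ≠ 0 by linarith) (by linear_combination ha - hb)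
  have e2 : a ^ 2 + a * c + c ^ 2 + 4 * (a + c) + 2 = 0 :=
    mul_left_cancel₀ (show a - c ≠ 0 by linarith) (by linear_combination ha - hc')
  have e3 : a + b + c + 4 = 0 :=
    mul_left_cancel₀ (show b - c ≠ 0 by linarith) (by linear_combination e1 - e2)
  have e4 : a * b + a * c + b * c = 2 := by linear_combination (a + b) * e3 - e1
  have e5 : a * b * c = 2 := by linear_combination ha - a ^ 2 * e3 + a * e4
  refine ⟨a, b, c, ha0, ha1, by linarith, by linarith, fun w => ?_⟩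
  have f3 : (a : ℂ) + b + c + 4 = 0 := by exact_mod_cast e3
  have f4 : (a : ℂ) * b + a * c + b * c = 2 := by exact_mod_cast e4
  have f5 : (a : ℂ) * b * c = 2 := by exact_mod_cast e5
  linear_combination w ^ 2 * f3 - w * f4 + f5

theorem exists_field : ∃ (K : Type) (_ : Field K) (_ : NumberField K) (θ : Fin 3 → K) (t : ℝ),
    0 < t ∧ t < 1 ∧ t ^ 6 + 4 * t ^ 4 + 2 * t ^ 2 - 2 = 0 ∧
    (∀ i, θ i ^ 6 + 4 * θ i ^ 4 + 2 * θ i ^ 2 - 2 = 0) ∧
    (∀ i j, θ i ^ 2 = θ j ^ 2 → i = j) ∧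
    ∀ r : ℂ, r ^ 6 + 4 * r ^ 4 + 2 * r ^ 2 - 2 = 0 → r = t ∨ r = -t ∨ r.re = 0 := by
  obtain ⟨a, b, c, ha0, ha1, hb, hc, hw⟩ := exists_roots
  let α : Fin 3 → ℝ := ![a, b, c]
  have hsq : ∀ i, ∃ z : ℂ, z ^ 2 = α i := fun i => IsAlgClosed.exists_pow_nat_eq _ (by norm_num)
  choose t ht using hsq
  have hroot : ∀ i, t i ^ 6 + 4 * t i ^ 4 + 2 * t i ^ 2 - 2 = 0 := fun i => by
    have := hw (t i ^ 2)
    rw [ht] at this
    have h2 : ((α i : ℂ) - a) * (α i - b) * (α i - c) = 0 := by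
      fin_cases i <;> simp [α]
    rw [h2, ← ht] at this
    linear_combination this
  let K := IntermediateField.adjoin ℚ (Set.range t)
  have hfd : FiniteDimensional ℚ K := by
    apply IntermediateField.finiteDimensional_adjoin
    rintro _ ⟨i, rfl⟩
    have : IsIntegral ℤ (t i) := ⟨gZ, gZ_monic, by rw [← aeval_def, aeval_gZ, hroot]⟩
    exact this.tower_top
  have hnf : NumberField K := {}
  have hsa : Real.sqrt a ^ 2 = a := Real.sq_sqrt ha0.le
  refine ⟨K, inferInstance, hnf, fun i => ⟨t i, IntermediateField.subset_adjoin _ _ ⟨i, rfl⟩⟩,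
    Real.sqrt a, Real.sqrt_pos.2 ha0, by rw [Real.sqrt_lt' one_pos]; linarith, ?_, fun i => ?_,
    fun i j h => ?_, fun r hr => ?_⟩
  · have := hw a
    rw [sub_self, zero_mul, zero_mul] at this
    have h2 : a ^ 3 + 4 * a ^ 2 + 2 * a - 2 = 0 := by exact_mod_cast this
    rw [← hsa] at h2
    linear_combination h2
  · apply (algebraMap K ℂ).injective
    simp only [map_sub, map_add, map_mul, map_pow, map_ofNat, map_zero]
    exact hroot i
  · have h2 : t i ^ 2 = t j ^ 2 := by simpa using congrArg Subtype.val h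
    rw [ht, ht] at h2
    have h3 : α i = α j := by exact_mod_cast h2
    fin_cases i <;> fin_cases j <;> simp [α] at h3 ⊢ <;> linarith
  · have := hw (r ^ 2)
    have h2 : (r ^ 2 - a) * (r ^ 2 - b) * (r ^ 2 - c) = 0 := by linear_combination hr - this
    have hneg : ∀ x : ℝ, x < 0 → r ^ 2 = x → r.re = 0 := fun x hx h => by
      have h3 := congrArg Complex.re h
      have h4 := congrArg Complex.im h
      simp only [sq, Complex.mul_re, Complex.mul_im, Complex.ofReal_re, Complex.ofReal_im] at h3 h4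
      by_contra hre
      have : r.im = 0 := by
        have : r.re * r.im = 0 := by linarith
        exact (mul_eq_zero.1 this).resolve_left hre
      rw [this] at h3
      nlinarith [mul_self_nonneg r.re]
    rcases mul_eq_zero.1 h2 with h | h
    · rcases mul_eq_zero.1 h with h | h
      · have h5 : r ^ 2 = ((Real.sqrt a : ℝ) : ℂ) ^ 2 := by
          rw [sub_eq_zero.1 h]; exact_mod_cast hsa.symm
        rcases sq_eq_sq_iff_eq_or_eq_neg.1 h5 with h | h
        · exact Or.inl h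
        · exact Or.inr (Or.inl h)
      · exact Or.inr (Or.inr (hneg b hb (sub_eq_zero.1 h)))
    · exact Or.inr (Or.inr (hneg c (by linarith) (sub_eq_zero.1 h)))

end Pool.Agent.Lib.H13TorusNT
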